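import Pool.Agent.Mg.F41f2d3.G3e8909

section

/-! More decomposition tools: substitution, chains of cuts, flips. -/

namespace Pool.Agent.MP_41f2d3_co

open Finset Classical

noncomputable section

variable {V : Type}

/-- P1 + P2 + P3 free -/
def RF (G : SimpleGraph V) : Prop :=
  ∀ z a b c d e, G.Adj a b → G.Adj c d → G.Adj d e → ¬ G.Adj c e →
    ¬ G.Adj z a → ¬ G.Adj z b → ¬ G.Adj z c → ¬ G.Adj z d → ¬ G.Adj z e →
    ¬ G.Adj a c → ¬ G.Adj a d → ¬ G.Adj a e → ¬ G.Adj b c → ¬ G.Adj b d → ¬ G.Adj b e →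
    c ≠ e → False

lemma W_of_comap {V' : Type} (f : V' ↪ V) {G : SimpleGraph V} {k : ℕ} {S' : Finset V'}
    (h : W (G.comap f) k S') : W G k (S'.map f) := by
  have key : ∀ X, Dec (G.comap f) k S' X → Dec G k (S'.map f) (X.map f) := by
    intro X hX
    induction hX with
    | empty => simpa using Dec.empty
    | single v => simpa using Dec.single (f v)
    | union X Y _ _ hd hT ihX ihY =>
      rw [map_union]
      refine Dec.union _ _ ihX ihY ((disjoint_map f).2 hd) ?_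
      rw [← map_union]
      obtain ⟨T, hTc, hT⟩ := hT
      refine ⟨T.image (fun O => O.map f), card_image_le.trans hTc, ?_⟩
      intro x hx
      obtain ⟨x', hx', rfl⟩ := mem_map.1 hx
      have e : out G (S'.map f) ((X ∪ Y).map f) (f x') =
          (out (G.comap f) S' (X ∪ Y) x').map f := by
        ext z
        simp only [mem_out, mem_map]
        constructor
        · rintro ⟨⟨z', hz', rfl⟩, h2, h3⟩
          exact ⟨z', ⟨hz', fun h => h2 ⟨z', h, rfl⟩, h3⟩, rfl⟩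
        · rintro ⟨z', ⟨h1, h2, h3⟩, rfl⟩
          refine ⟨⟨z', h1, rfl⟩, ?_, h3⟩
          rintro ⟨w, hw, e⟩
          exact h2 (f.injective e ▸ hw)
      rw [e]
      rcases hT x' hx' with h | h
      · left; rw [h]; simp
      · right; exact mem_image_of_mem _ h
  exact key _ h

/-- the bound for (diamond, P1 + P5)-free graphs -/
def cP : ℕ := W_main.choose

lemma W_QF {G : SimpleGraph V} (hD : DF G) {S : Finset V} (hQ : QF G S) : W G cP S := by
  have h := W_main.choose_spec {x // x ∈ S} (G.comap (Function.Embedding.subtype _)) S.attach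
    (fun a b c d h1 h2 h3 h4 h5 h6 => hD a b c d h1 h2 h3 h4 h5 (fun e => h6 (Subtype.ext e)))
    (fun a b c d e z h1 _ _ h4 _ h6 h7 h8 h9 _ h11 h12 _ h14 h15 =>
      hQ a a.2 b b.2 d d.2 e e.2 z z.2 h1 h4 h6 h7 h8 h9 h11 h12 h14 h15)
  have h2 := W_of_comap _ h
  rw [attach_map_val] at h2
  exact h2

lemma Dec_ext {G : SimpleGraph V} {k t : ℕ} {A S : Finset V} (hT : Ty G t S A) (h1 : W G k A) :
    Dec G ((t + 1) * (k + 1)) S A := by
  obtain ⟨T, hTc, hT⟩ := hT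
  refine Dec.transfer h1 (fun Z hZ hZT => ?_)
  refine Ty_transfer (out G S A) (insert ∅ T) ((card_insert_le _ _).trans (by omega)) ?_ ?_ hZT
  · intro x hx
    rcases hT x (hZ hx) with h | h <;> simp [h]
  · intro x _ y _ hxy hh z hz hzZ
    by_cases hzA : z ∈ A
    · exact hh z hzA hzZ
    · exact out_eq_iff.1 hxy z hz hzA

lemma Ty_sdiff {G : SimpleGraph V} {t1 t2 : ℕ} {S X Y : Finset V} (hY : Y ⊆ S)
    (h1 : Ty G t1 S Y) (h2 : Ty G t2 S X) : Ty G ((t1 + 1) * 2 ^ t2) S (Y \ X) := by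
  obtain ⟨T1, hc1, h1⟩ := h1
  obtain ⟨T2, hc2, h2⟩ := h2
  refine Ty_of_labels (fun y => (out G S Y y, T2.filter (fun O => y ∈ O)))
    (insert ∅ T1 ×ˢ T2.powerset) ?_ ?_ ?_
  · rw [card_product, card_powerset]
    exact Nat.mul_le_mul ((card_insert_le _ _).trans (by omega))
      (Nat.pow_le_pow_right (by norm_num) hc2)
  · intro x hx
    right
    rw [mem_product]
    refine ⟨?_, by simp⟩
    rcases h1 x (mem_sdiff.1 hx).1 with h | h <;> simp [h]
  · intro x hx y hy hxy z hz hzZ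
    simp only [Prod.mk.injEq] at hxy
    have hx' := mem_sdiff.1 hx
    have hy' := mem_sdiff.1 hy
    by_cases hzY : z ∈ Y
    · have hzX : z ∈ X := by
        by_contra hh
        exact hzZ (mem_sdiff.2 ⟨hzY, hh⟩)
      rcases h2 z hzX with h | h
      · have h' := out_eq_empty_iff.1 h
        constructor
        · intro a; exact absurd a.symm (h' x (hY hx'.1) hx'.2)
        · intro a; exact absurd a.symm (h' y (hY hy'.1) hy'.2)
      · have := Finset.ext_iff.1 hxy.2 (out G S X z)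
        simp only [mem_filter, h, true_and, mem_out, hY hx'.1, hx'.2, hY hy'.1, hy'.2,
          not_false_eq_true] at this
        rw [G.adj_comm x z, G.adj_comm y z]
        exact this
    · exact out_eq_iff.1 hxy.1 z hz hzY

lemma Dec.mono {G : SimpleGraph V} {k k' : ℕ} {S X : Finset V} (h : Dec G k S X) (hk : k ≤ k') :
    Dec G k' S X :=
  Dec.transfer h (fun _ _ hZ => hZ.mono hk)

/-- a family of cuts whose gaps have bounded width -/
lemma W_chain {G : SimpleGraph V} {k t : ℕ} {S : Finset V} (C : Finset V → Prop)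
    (hC : ∀ X, C X → X ⊆ S ∧ Ty G t S X) (h0 : C ∅) (h1 : C S)
    (gap : ∀ X Y, C X → C Y → X ⊆ Y → W G k (Y \ X) ∨ ∃ Z, C Z ∧ X ⊂ Z ∧ Z ⊂ Y) :
    W G (((t + 1) * 2 ^ t + 1) * (k + 1)) S := by
  have key : ∀ n, ∀ X Y, C X → C Y → X ⊆ Y → (Y \ X).card = n →
      Dec G (((t + 1) * 2 ^ t + 1) * (k + 1)) S (Y \ X) := by
    intro n
    induction n using Nat.strong_induction_on with
    | _ n ih =>
      intro X Y hX hY hXY hn
      have hT := Ty_sdiff (hC Y hY).1 (hC Y hY).2 (hC X hX).2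
      rcases gap X Y hX hY hXY with h | ⟨Z, hZ, h1, h2⟩
      · exact Dec_ext hT h
      · have e : Y \ X = (Z \ X) ∪ (Y \ Z) := by
          ext v
          have := @h1.1 v
          have := @h2.1 v
          simp only [mem_sdiff, mem_union]
          tauto
        have l1 : (Z \ X).card < n := by
          rw [← hn]
          refine card_lt_card ⟨sdiff_subset_sdiff h2.1 Subset.rfl, fun h => ?_⟩
          obtain ⟨v, hv, hv'⟩ := exists_of_ssubset h2
          exact hv' (mem_sdiff.1 (h (mem_sdiff.2 ⟨hv, fun a => hv' (h1.1 a)⟩))).1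
        have l2 : (Y \ Z).card < n := by
          rw [← hn]
          refine card_lt_card ⟨sdiff_subset_sdiff Subset.rfl h1.1, fun h => ?_⟩
          obtain ⟨v, hv, hv'⟩ := exists_of_ssubset h1
          exact (mem_sdiff.1 (h (mem_sdiff.2 ⟨h2.1 hv, hv'⟩))).2 hv
        rw [e] at hT ⊢
        refine Dec.union _ _ (ih _ l1 X Z hX hZ h1.1 rfl) (ih _ l2 Z Y hZ hY h2.1 rfl) ?_
          (hT.mono ?_)
        · rw [disjoint_left]
          intro v hv hv'
          exact (mem_sdiff.1 hv').2 (mem_sdiff.1 hv).1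
        · nlinarith [Nat.zero_le ((t + 1) * 2 ^ t), Nat.zero_le k]
  have := key _ ∅ S h0 h1 (empty_subset _) rfl
  rw [sdiff_empty] at this
  exact this

/-- substitution of a split module for one vertex -/
lemma W_subst {G : SimpleGraph V} {k : ℕ} {S A : Finset V} {u : V} (hA : A ⊆ S) (hu : u ∈ A)
    (hm : ∀ a ∈ A, (∀ z ∈ S, z ∉ A → ¬ G.Adj a z) ∨ ∀ z ∈ S, z ∉ A → (G.Adj a z ↔ G.Adj u z))
    (hd : Dec G k S A) (h : W G k (insert u (S \ A))) : W G k S := by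
  have key : ∀ X, Dec G k (insert u (S \ A)) X → X ⊆ insert u (S \ A) →
      (u ∉ X → Dec G k S X) ∧ (u ∈ X → Dec G k S (X ∪ A)) := by
    intro X hX
    induction hX with
    | empty => intro _; exact ⟨fun _ => Dec.empty, fun h => by simp at h⟩
    | single v =>
      intro _
      refine ⟨fun _ => Dec.single v, fun h => ?_⟩
      rw [mem_singleton] at h
      rw [← h, union_eq_right.2 (singleton_subset_iff.2 hu)]
      exact hd
    | union X Y _ _ hdis hT ihX ihY =>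
      intro hsub
      have hX := ihX (subset_union_left.trans hsub)
      have hY := ihY (subset_union_right.trans hsub)
      have hnA : ∀ x ∈ X ∪ Y, x ≠ u → x ∈ S ∧ x ∉ A := by
        intro x hx hxu
        exact mem_sdiff.1 ((mem_insert.1 (hsub hx)).resolve_left hxu)
      obtain ⟨T, hTc, hT⟩ := hT
      constructor
      · intro hn
        refine Dec.union X Y (hX.1 (fun h => hn (mem_union_left _ h)))
          (hY.1 (fun h => hn (mem_union_right _ h))) hdis ?_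
        have hx' : ∀ x ∈ X ∪ Y, x ∈ S ∧ x ∉ A := fun x hx => hnA x hx (fun e => hn (e ▸ hx))
        refine Ty_of_labels (out G (insert u (S \ A)) (X ∪ Y)) T hTc ?_ ?_
        · intro x hx
          rcases hT x hx with h | h
          · left
            intro z hz hzZ hxz
            have h' := out_eq_empty_iff.1 h
            by_cases hzA : z ∈ A
            · rcases hm z hzA with h2 | h2
              · exact h2 x (hx' x hx).1 (hx' x hx).2 hxz.symm
              · exact h' u (mem_insert_self _ _) hn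
                  ((h2 x (hx' x hx).1 (hx' x hx).2).1 hxz.symm).symm
            · exact h' z (mem_insert_of_mem (mem_sdiff.2 ⟨hz, hzA⟩)) hzZ hxz
          · exact Or.inr h
        · intro x hx y hy hxy z hz hzZ
          have h' := out_eq_iff.1 hxy
          by_cases hzA : z ∈ A
          · rw [G.adj_comm x z, G.adj_comm y z]
            rcases hm z hzA with h2 | h2
            · exact ⟨fun a => absurd a (h2 x (hx' x hx).1 (hx' x hx).2),
                fun a => absurd a (h2 y (hx' y hy).1 (hx' y hy).2)⟩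
            · rw [h2 x (hx' x hx).1 (hx' x hx).2, h2 y (hx' y hy).1 (hx' y hy).2,
                G.adj_comm u x, G.adj_comm u y]
              exact h' u (mem_insert_self _ _) hn
          · exact h' z (mem_insert_of_mem (mem_sdiff.2 ⟨hz, hzA⟩)) hzZ
      · intro hmem
        have hz' : ∀ z ∈ S, z ∉ X ∪ Y ∪ A → z ∈ insert u (S \ A) ∧ z ∉ X ∪ Y ∧ z ∉ A := by
          intro z hz hzZ
          rw [mem_union, not_or] at hzZ
          exact ⟨mem_insert_of_mem (mem_sdiff.2 ⟨hz, hzZ.2⟩), hzZ.1, hzZ.2⟩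
        have hT' : Ty G k S (X ∪ Y ∪ A) := by
          refine ⟨T, hTc, fun x hx => ?_⟩
          have eo : ∀ y ∈ X ∪ Y, out G S (X ∪ Y ∪ A) y = out G (insert u (S \ A)) (X ∪ Y) y := by
            intro y _
            ext z
            simp only [mem_out]
            constructor
            · rintro ⟨a, b, c⟩
              exact ⟨(hz' z a b).1, (hz' z a b).2.1, c⟩
            · rintro ⟨a, b, c⟩
              have := mem_sdiff.1 ((mem_insert.1 a).resolve_left (fun e => b (e ▸ hmem)))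
              exact ⟨this.1, fun h => (mem_union.1 h).elim b this.2, c⟩
          by_cases hxA : x ∈ A
          · rcases hm x hxA with h2 | h2
            · left
              exact out_eq_empty_iff.2 (fun z hz hzZ => h2 z hz (hz' z hz hzZ).2.2)
            · have : out G S (X ∪ Y ∪ A) x = out G S (X ∪ Y ∪ A) u :=
                out_eq_iff.2 (fun z hz hzZ => h2 z hz (hz' z hz hzZ).2.2)
              rw [this, eo u hmem]
              exact hT u hmem
          · have hx2 := (mem_union.1 hx).resolve_right hxA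
            rw [eo x hx2]
            exact hT x hx2
        rcases mem_union.1 hmem with hm' | hm'
        · have hnY : u ∉ Y := fun h => disjoint_left.1 hdis hm' h
          have e : X ∪ Y ∪ A = (X ∪ A) ∪ Y := by rw [union_right_comm]
          rw [e] at hT' ⊢
          refine Dec.union _ _ (hX.2 hm') (hY.1 hnY) ?_ hT'
          rw [disjoint_union_left]
          refine ⟨hdis, disjoint_left.2 (fun v hv hv' => ?_)⟩
          exact (hnA v (mem_union_right _ hv') (fun e => hnY (e ▸ hv'))).2 hv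
        · have hnX : u ∉ X := fun h => disjoint_left.1 hdis h hm'
          have e : X ∪ Y ∪ A = X ∪ (Y ∪ A) := by rw [union_assoc]
          rw [e] at hT' ⊢
          refine Dec.union _ _ (hX.1 hnX) (hY.2 hm') ?_ hT'
          rw [disjoint_union_right]
          refine ⟨hdis, disjoint_left.2 (fun v hv hv' => ?_)⟩
          exact (hnA v (mem_union_left _ hv) (fun e => hnX (e ▸ hv))).2 hv'
  have := (key _ h Subset.rfl).2 (mem_insert_self _ _)
  have e : insert u (S \ A) ∪ A = S := by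
    rw [insert_union, sdiff_union_of_subset hA, insert_eq_of_mem (hA hu)]
  rw [e] at this
  exact this

lemma W_of_split {G : SimpleGraph V} {k : ℕ} (hk : 1 ≤ k) (S0 : Finset V)
    (h : ∀ S ⊆ S0, S.Nonempty → Conn G S → TwinFree G S → NoPend G S → W G k S ∨
      ∃ A ⊆ S, ∃ u ∈ A, (∃ v ∈ A, v ≠ u) ∧ W G k A ∧
        ∀ a ∈ A, (∀ z ∈ S, z ∉ A → ¬ G.Adj a z) ∨ ∀ z ∈ S, z ∉ A → (G.Adj a z ↔ G.Adj u z)) :
    W G (2 * (k + 1)) S0 := by
  have key : ∀ n, ∀ S ⊆ S0, S.card = n → W G (2 * (k + 1)) S := by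
    intro n
    induction n using Nat.strong_induction_on with
    | _ n ih =>
      intro S1 hS1 hn
      refine W_of_prime (by omega) S1 (fun S hS hne hc ht hp => ?_)
      rcases h S (hS.trans hS1) hne hc ht hp with h | ⟨A, hA, u, hu, ⟨v, hv, hvu⟩, hW, hm⟩
      · exact h.mono (by omega)
      refine W_subst hA hu hm (Dec_ext (t := 1) (Ty_of_reps {u} (by simp) ?_) hW) ?_
      · intro a ha
        rcases hm a ha with h | h
        · exact Or.inl h
        · exact Or.inr ⟨u, by simp, h⟩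
      · have hsub : insert u (S \ A) ⊆ S := insert_subset (hA hu) sdiff_subset
        refine ih _ ?_ _ (hsub.trans (hS.trans hS1)) rfl
        rw [← hn]
        refine lt_of_lt_of_le (card_lt_card ⟨hsub, fun hh => ?_⟩) (card_le_card hS)
        rcases mem_insert.1 (hh (hA hv)) with e | e
        · exact hvu e
        · exact (mem_sdiff.1 e).2 hv
  exact key _ S0 Subset.rfl rfl

/-- flipping adjacency between classes -/
def flip {L : Type} (G : SimpleGraph V) (lab : V → L) (φ : L → L → Prop) : SimpleGraph V where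
  Adj x y := x ≠ y ∧ (G.Adj x y ↔ ¬ (φ (lab x) (lab y) ∨ φ (lab y) (lab x)))
  symm := ⟨fun x y h => ⟨h.1.symm, by rw [G.adj_comm y x, or_comm]; exact h.2⟩⟩
  loopless := ⟨fun _ h => h.1 rfl⟩

lemma flip_adj {L : Type} {G : SimpleGraph V} {lab : V → L} {φ : L → L → Prop} {x y : V} :
    (flip G lab φ).Adj x y ↔
      x ≠ y ∧ (G.Adj x y ↔ ¬ (φ (lab x) (lab y) ∨ φ (lab y) (lab x))) := Iff.rfl

lemma W_flip {L : Type} [Fintype L] {G : SimpleGraph V} (lab : V → L) (φ : L → L → Prop)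
    {k : ℕ} {S : Finset V} (h : W (flip G lab φ) k S) : W G (Fintype.card L * (k + 1)) S := by
  refine W.relabel lab univ (by simp) (fun _ _ => mem_univ _) ?_ h
  intro x _ y _ z _ e zx zy hh
  simp only [flip_adj, ← e] at hh
  have := zx.symm
  have := zy.symm
  tauto

/-- general cuts -/
lemma W_cutp {G : SimpleGraph V} {k : ℕ} {S : Finset V} (col : V → Fin 3)
    (h : ∀ P ⊆ S, W G k P ∨ ∃ A ⊆ P, A.Nonempty ∧ ¬ P ⊆ A ∧ ∃ φ : Fin 3 → Fin 3 → Prop,
      ∀ a ∈ A, ∀ b ∈ P, b ∉ A → (G.Adj a b ↔ φ (col a) (col b))) :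
    W G (3 * (k + 1)) S := by
  have key : ∀ n, ∀ P ⊆ S, P.card = n →
      (∀ x ∈ P, ∀ y ∈ P, col x = col y → ∀ z ∈ S, z ∉ P → (G.Adj x z ↔ G.Adj y z)) →
      Dec G (3 * (k + 1)) S P := by
    intro n
    induction n using Nat.strong_induction_on with
    | _ n ih =>
      intro P hP hn hu
      rcases h P hP with hW | ⟨A, hA, hAne, hnot, φ, hc⟩
      · refine Dec.transfer hW (fun Z hZ hT => ?_)
        refine Ty_transfer col univ (by simp) (fun _ _ => mem_univ _) ?_ hT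
        intro x hx y hy hxy hh z hz hzZ
        by_cases hzP : z ∈ P
        · exact hh z hzP hzZ
        · exact hu x (hZ hx) y (hZ hy) hxy z hz hzP
      · have hlt : A.card < P.card := card_lt_card ⟨hA, hnot⟩
        have e : A ∪ (P \ A) = P := union_sdiff_of_subset hA
        have d1 : Dec G (3 * (k + 1)) S A := by
          refine ih _ (by omega) A (hA.trans hP) rfl ?_
          intro x hx y hy hxy z hz hzA
          by_cases hzP : z ∈ P
          · rw [hc x hx z hzP hzA, hc y hy z hzP hzA, hxy]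
          · exact hu x (hA hx) y (hA hy) hxy z hz hzP
        have d2 : Dec G (3 * (k + 1)) S (P \ A) := by
          refine ih _ ?_ (P \ A) (sdiff_subset.trans hP) rfl ?_
          · rw [card_sdiff_of_subset hA]
            have := card_pos.2 hAne
            omega
          · intro x hx y hy hxy z hz hzA
            rw [mem_sdiff] at hx hy
            by_cases hzP : z ∈ P
            · have hzA' : z ∈ A := by
                by_contra hh
                exact hzA (mem_sdiff.2 ⟨hzP, hh⟩)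
              rw [G.adj_comm x z, G.adj_comm y z, hc z hzA' x hx.1 hx.2, hc z hzA' y hy.1 hy.2, hxy]
            · exact hu x hx.1 y hy.1 hxy z hz hzP
        have := Dec.union A (P \ A) d1 d2 disjoint_sdiff (by
          rw [e]
          exact Ty_of_labels col univ (by simp) (fun _ _ => Or.inr (mem_univ _)) hu)
        rw [e] at this
        exact this
  exact key _ S Subset.rfl rfl (fun _ _ _ _ _ z hz hz' => absurd hz hz')

/-- every edge has an end of degree one -/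
lemma W_star {G : SimpleGraph V} {S : Finset V} (sd : V → Prop)
    (h1 : ∀ x ∈ S, ∀ y ∈ S, G.Adj x y → sd x ∨ sd y)
    (h2 : ∀ x ∈ S, ∀ y ∈ S, ∀ z ∈ S, sd x → G.Adj x y → G.Adj x z → y = z) : W G 2 S := by
  refine W_of_prime le_rfl S (fun S' hS' ⟨x, hx⟩ _ _ hp => ?_)
  exfalso
  obtain ⟨y, hy, z, hz, hyz, hxy, hxz⟩ := hp x hx
  rcases h1 x (hS' hx) y (hS' hy) hxy with h | h
  · exact hyz (h2 x (hS' hx) y (hS' hy) z (hS' hz) h hxy hxz)
  · obtain ⟨a, ha, b, hb, hab, hya, hyb⟩ := hp y hy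
    exact hab (h2 y (hS' hy) a (hS' ha) b (hS' hb) h hya hyb)

/-- disjoint unions of cliques -/
lemma W_cluster {G : SimpleGraph V} {S : Finset V}
    (h : ∀ x ∈ S, ∀ y ∈ S, ∀ z ∈ S, G.Adj x y → G.Adj x z → y ≠ z → G.Adj y z) : W G 2 S := by
  refine W_of_prime le_rfl S (fun S' hS' ⟨x, hx⟩ _ ht hp => ?_)
  exfalso
  obtain ⟨y, hy, _, _, _, hxy, _⟩ := hp x hx
  refine hxy.ne (ht x hx y hy (fun z hz zx zy => ⟨fun a => ?_, fun a => ?_⟩))
  · exact h x (hS' hx) y (hS' hy) z (hS' hz) hxy a zy.symm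
  · exact h y (hS' hy) x (hS' hx) z (hS' hz) hxy.symm a zx.symm

/-- a set either has three distinct members or at most two -/
lemma three_or_le (X : Finset V) :
    X.card ≤ 2 ∨ ∃ a ∈ X, ∃ b ∈ X, ∃ c ∈ X, a ≠ b ∧ a ≠ c ∧ b ≠ c := by
  by_cases h : X.card ≤ 2
  · exact Or.inl h
  · right
    obtain ⟨a, ha, b, hb, c, hc, h⟩ := two_lt_card.1 (by omega : 2 < X.card)
    exact ⟨a, ha, b, hb, c, hc, h⟩

end

end Pool.Agent.MP_41f2d3_co

end

section

/-! Bipartite graphs without induced P1 + P2 + P3. -/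

namespace Pool.Agent.MP_41f2d3_co

open Finset Classical

noncomputable section

variable {V : Type}

/-- bound -/
def cS : ℕ := J 4 16 + 8

/-- no induced subdivided claw with legs 1, 1, 3 -/
def S113 (H : SimpleGraph V) (S : Finset V) : Prop :=
  ∀ y ∈ S, ∀ y' ∈ S, ∀ b ∈ S, ∀ x ∈ S, ∀ a ∈ S, ∀ c ∈ S, H.Adj y b → H.Adj y' b → H.Adj y x →
    ¬ H.Adj y' x → H.Adj y' a → H.Adj y' c → ¬ H.Adj y a → ¬ H.Adj y c → a = c

/-- degree at most two -/
def D2 (H : SimpleGraph V) (S : Finset V) (u : V) : Prop :=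
  ∀ a ∈ S, ∀ b ∈ S, ∀ c ∈ S, H.Adj u a → H.Adj u b → H.Adj u c → a = b ∨ a = c ∨ b = c

lemma all_D2 {H : SimpleGraph V} {S : Finset V} (hs : S113 H S) (hc : Conn H S)
    (ht : TwinFree H S) (hp : NoPend H S) {z : V} (hz : z ∈ S)
    (hg : ∀ u ∈ S, (u = z ∨ H.Adj z u) → D2 H S u) : W H 8 S := by
  have hsub : S ⊆ S.filter (fun v => ∀ u ∈ S, (u = v ∨ H.Adj v u) → D2 H S u) := by
    refine hc _ (filter_subset _ _) ⟨z, mem_filter.2 ⟨hz, hg⟩⟩ ?_
    intro v hv u hu vu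
    obtain ⟨hvS, hv⟩ := mem_filter.1 hv
    refine mem_filter.2 ⟨hu, fun s hsS hs' => ?_⟩
    have du := hv u hu (Or.inr vu)
    have dv := hv v hvS (Or.inl rfl)
    rcases hs' with rfl | us
    · exact du
    by_cases e : s = v
    · exact e ▸ dv
    obtain ⟨t, htS, vt, tu⟩ : ∃ t ∈ S, H.Adj v t ∧ t ≠ u := by
      obtain ⟨a, ha, b, hb, ab, va, vb⟩ := hp v hvS
      by_cases e : a = u
      · exact ⟨b, hb, vb, fun h => ab (e.trans h.symm)⟩
      · exact ⟨a, ha, va, e⟩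
    have dt := hv t htS (Or.inr vt)
    by_cases st : H.Adj s t
    · exfalso
      refine tu (ht t htS u hu (fun w hw _ _ => ⟨fun a => ?_, fun a => ?_⟩))
      · rcases dt s hsS v hvS w hw st.symm vt.symm a with h | h | h
        · exact absurd h e
        · exact h ▸ us
        · exact h ▸ vu.symm
      · rcases du s hsS v hvS w hw us vu.symm a with h | h | h
        · exact absurd h e
        · exact h ▸ st.symm
        · exact h ▸ vt.symm
    · have nv : ∀ a ∈ S, H.Adj s a → a ≠ u → ¬ H.Adj v a := by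
        intro a ha sa au va
        rcases dv u hu t htS a ha vu vt va with h | h | h
        · exact tu h.symm
        · exact au h.symm
        · exact st (h ▸ sa)
      have two : ∀ a ∈ S, ∀ b ∈ S, H.Adj s a → H.Adj s b → a ≠ u → b ≠ u → a = b :=
        fun a ha b hb sa sb au bu => hs v hvS s hsS u hu t htS a ha b hb vu us.symm vt st sa sb
          (nv a ha sa au) (nv b hb sb bu)
      intro a ha b hb c hc' sa sb sc
      by_cases e1 : a = u
      · by_cases e2 : b = u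
        · exact Or.inl (e1.trans e2.symm)
        · by_cases e3 : c = u
          · exact Or.inr (Or.inl (e1.trans e3.symm))
          · exact Or.inr (Or.inr (two b hb c hc' sb sc e2 e3))
      · by_cases e2 : b = u
        · by_cases e3 : c = u
          · exact Or.inr (Or.inr (e2.trans e3.symm))
          · exact Or.inr (Or.inl (two a ha c hc' sa sc e1 e3))
        · exact Or.inl (two a ha b hb sa sb e1 e2)
  have := W_deg2 (G := H) (S := S) (fun x hx => (mem_filter.1 (hsub hx)).2 x hx (Or.inl rfl))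
  simpa [J] using this

lemma W_s113 {H : SimpleGraph V} {S0 : Finset V} (sd : V → Prop)
    (hb0 : ∀ a ∈ S0, ∀ b ∈ S0, H.Adj a b → (sd a ↔ ¬ sd b)) (hs0 : S113 H S0) :
    W H (2 * (cS + 1)) S0 := by
  refine W_of_split (by simp [cS]) S0 (fun S hS hne hc ht hp => ?_)
  have hb : ∀ a ∈ S, ∀ b ∈ S, H.Adj a b → (sd a ↔ ¬ sd b) :=
    fun a ha b hb' => hb0 a (hS ha) b (hS hb')
  have hs : S113 H S := fun y hy y' hy' b hb' x hx a ha c hc' =>
    hs0 y (hS hy) y' (hS hy') b (hS hb') x (hS hx) a (hS ha) c (hS hc')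
  obtain ⟨y, hy, hmin⟩ := exists_min_image S (fun v => (S.filter (H.Adj v)).card) hne
  let Sib : V → Prop := fun z => z ∈ S ∧ (∃ b ∈ S, H.Adj y b ∧ H.Adj z b) ∧
    ∃ a ∈ S, H.Adj y a ∧ ¬ H.Adj z a
  have sx : ∀ z, Sib z → ∃ x ∈ S, H.Adj z x ∧ ¬ H.Adj y x := by
    rintro z ⟨hz, _, a, ha, ya, za⟩
    by_contra hh
    push Not at hh
    have : (S.filter (H.Adj z)).card < (S.filter (H.Adj y)).card := by
      refine card_lt_card ⟨fun t ht' => ?_, fun h => ?_⟩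
      · rw [mem_filter] at ht' ⊢
        exact ⟨ht'.1, hh t ht'.1 ht'.2⟩
      · exact za (mem_filter.1 (h (mem_filter.2 ⟨ha, ya⟩))).2
    have := hmin z hz
    omega
  have ua : ∀ z, Sib z → ∀ a ∈ S, ∀ a' ∈ S, H.Adj y a → H.Adj y a' → ¬ H.Adj z a → ¬ H.Adj z a' →
      a = a' := by
    intro z hz a ha a' ha' h1 h2 h3 h4
    obtain ⟨x, hx, zx, yx⟩ := sx z hz
    obtain ⟨hzS, ⟨b, hb', yb, zb⟩, _⟩ := hz
    exact hs z hzS y hy b hb' x hx a ha a' ha' zb yb zx yx h1 h2 h3 h4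
  have ux : ∀ z, Sib z → ∀ x ∈ S, ∀ x' ∈ S, H.Adj z x → H.Adj z x' → ¬ H.Adj y x → ¬ H.Adj y x' →
      x = x' := by
    rintro z ⟨hzS, ⟨b, hb', yb, zb⟩, a, ha, ya, za⟩ x hx x' hx' h1 h2 h3 h4
    exact hs y hy z hzS b hb' a ha x hx x' hx' yb zb ya za h1 h2 h3 h4
  let X0 : V → Prop := fun v => H.Adj y v ∨ ∃ z, Sib z ∧ H.Adj z v
  let A := S.filter (fun v => v = y ∨ Sib v ∨ X0 v)
  obtain ⟨a1, ha1, a2, ha2, a12, ya1, ya2⟩ := hp y hy
  by_cases hcase : ∀ w ∈ S, w ∉ A → ∀ v ∈ S, ∀ v' ∈ S, X0 v → X0 v' → H.Adj w v → H.Adj w v'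
  · right
    refine ⟨A, filter_subset _ _, a1, mem_filter.2 ⟨ha1, Or.inr (Or.inr (Or.inl ya1))⟩,
      ⟨y, mem_filter.2 ⟨hy, Or.inl rfl⟩, ya1.ne⟩, ?_, ?_⟩
    · have sdS : ∀ z, Sib z → (sd z ↔ sd y) := by
        rintro z ⟨hzS, ⟨b, hb', yb, zb⟩, _⟩
        have := hb y hy b hb' yb
        have := hb z hzS b hb' zb
        grind
      have sdX : ∀ v ∈ S, X0 v → ¬ (sd v ↔ sd y) := by
        rintro v hv (h | ⟨z, hz, h⟩)
        · have := hb y hy v hv h
          grind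
        · have := hb z hz.1 v hv h
          have := sdS z hz
          grind
      obtain ⟨a0, x0, h0⟩ : ∃ a0 x0, ∀ z, Sib z → ∀ a ∈ S, ∀ x ∈ S, H.Adj y a → ¬ H.Adj z a →
          H.Adj z x → ¬ H.Adj y x → a = a1 ∨ a = a2 ∨ a = a0 ∨ x = x0 := by
        by_cases hz0 : ∃ z0, Sib z0
        · obtain ⟨z0, hz0⟩ := hz0
          obtain ⟨x0, hx0, zx0, yx0⟩ := sx z0 hz0
          obtain ⟨a0, ha0, ya0, za0⟩ := hz0.2.2
          refine ⟨a0, x0, fun z hz a ha x hx ya za zx yx => ?_⟩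
          by_contra hh
          push Not at hh
          obtain ⟨n1, n2, n3, n4⟩ := hh
          have f1 : H.Adj z a0 := by
            by_contra h
            exact n3 (ua z hz a ha a0 ha0 ya ya0 za h)
          have f2 : H.Adj z0 a := by
            by_contra h
            exact n3 (ua z0 hz0 a ha a0 ha0 ya ya0 h za0)
          have f3 : ¬ H.Adj z0 x := fun h => n4 (ux z0 hz0 x hx x0 hx0 h zx0 yx yx0)
          have fin : ∀ b ∈ S, H.Adj y b → a ≠ b → b ≠ a0 → False := by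
            intro b hb' yb ab ba0
            have g1 : H.Adj z b := by
              by_contra h
              exact ab (ua z hz a ha b hb' ya yb za h)
            have g2 : H.Adj z0 b := by
              by_contra h
              exact ba0 (ua z0 hz0 b hb' a0 ha0 yb ya0 h za0)
            have := hs z0 hz0.1 z hz.1 b hb' a ha a0 ha0 x hx g2 g1 f2 za f1 zx za0 f3
            exact yx (this ▸ ya0)
          by_cases e : a1 = a0
          · exact fin a2 ha2 ya2 n2 (fun h => a12 (e.trans h.symm))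
          · exact fin a1 ha1 ya1 n1 e
        · exact ⟨y, y, fun z hz => absurd ⟨z, hz⟩ hz0⟩
      refine (W_del (F := {a1, a2, a0, x0}) (t := 4) (k := 12) card_le_four ?_).mono
        (by simp [cS])
      have := W_flip (G := H) (fun v => (H.Adj y v, sd v ↔ sd y)) (fun p q => p.1 ∧ q.2)
        (k := 2) (S := A \ {a1, a2, a0, x0}) (W_star (fun v => sd v ↔ sd y) ?_ ?_)
      · simpa using this
      · intro u hu v hv huv
        have hu' := (mem_filter.1 (mem_sdiff.1 hu).1).1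
        have hv' := (mem_filter.1 (mem_sdiff.1 hv).1).1
        have := hb u hu' v hv'
        rw [flip_adj] at huv
        grind
      · intro z hz t ht' t' ht'' sz zt zt'
        have hz' := mem_filter.1 (mem_sdiff.1 hz).1
        have key : ∀ t ∈ A, (flip H (fun v => (H.Adj y v, sd v ↔ sd y))
            (fun p q => p.1 ∧ q.2)).Adj z t → (H.Adj z t ↔ ¬ H.Adj y t) := by
          intro t ht' zt
          have htS := (mem_filter.1 ht').1
          have h1 := hb z hz'.1 t htS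
          have h2 := hb y hy z hz'.1
          have h3 := hb y hy t htS
          rw [flip_adj] at zt
          grind
        have k1 := key t (mem_sdiff.1 ht').1 zt
        have k2 := key t' (mem_sdiff.1 ht'').1 zt'
        have tS := (mem_filter.1 (mem_sdiff.1 ht').1).1
        have tS' := (mem_filter.1 (mem_sdiff.1 ht'').1).1
        have tF := (mem_sdiff.1 ht').2
        have tF' := (mem_sdiff.1 ht'').2
        simp only [mem_insert, mem_singleton, not_or] at tF tF'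
        rcases hz'.2 with rfl | hz2 | hz2
        · exact absurd k1 iff_not_self
        · by_cases e1 : H.Adj y t <;> by_cases e2 : H.Adj y t'
          · exact ua z hz2 t tS t' tS' e1 e2 (fun h => k1.1 h e1) (fun h => k2.1 h e2)
          · rcases h0 z hz2 t tS t' tS' e1 (fun h => k1.1 h e1) (k2.2 e2) e2 with h | h | h | h
            · exact absurd h tF.1
            · exact absurd h tF.2.1
            · exact absurd h tF.2.2.1
            · exact absurd h tF'.2.2.2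
          · rcases h0 z hz2 t' tS' t tS e2 (fun h => k2.1 h e2) (k1.2 e1) e1 with h | h | h | h
            · exact absurd h tF'.1
            · exact absurd h tF'.2.1
            · exact absurd h tF'.2.2.1
            · exact absurd h tF.2.2.2
          · exact ux z hz2 t tS t' tS' (k1.2 e1) (k2.2 e2) e1 e2
        · exact absurd sz (sdX z hz'.1 hz2)
    · intro a ha
      obtain ⟨haS, h | h | h⟩ := mem_filter.1 ha
      · left
        intro z hz hzA az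
        exact hzA (mem_filter.2 ⟨hz, Or.inr (Or.inr (Or.inl (h ▸ az)))⟩)
      · left
        intro z hz hzA az
        exact hzA (mem_filter.2 ⟨hz, Or.inr (Or.inr (Or.inr ⟨a, h, az⟩))⟩)
      · right
        intro z hz hzA
        exact ⟨fun e => (hcase z hz hzA a haS a1 ha1 h (Or.inl ya1) e.symm).symm,
          fun e => (hcase z hz hzA a1 ha1 a haS (Or.inl ya1) h e.symm).symm⟩
  left
  push Not at hcase
  obtain ⟨w, hw, hwA, v, hv, v', hv', xv, xv', wv, wv'⟩ := hcase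
  have wy : w ≠ y := fun e => hwA (mem_filter.2 ⟨hw, Or.inl e⟩)
  have wS : ¬ Sib w := fun e => hwA (mem_filter.2 ⟨hw, Or.inr (Or.inl e)⟩)
  by_cases hn : ∃ b ∈ S, H.Adj y b ∧ H.Adj w b
  · exfalso
    have hall : ∀ a ∈ S, H.Adj y a → H.Adj w a := by
      intro a ha ya
      by_contra h
      exact wS ⟨hw, hn, a, ha, ya, h⟩
    have yv' : ¬ H.Adj y v' := fun h => wv' (hall v' hv' h)
    obtain ⟨z, hz, zv'⟩ := xv'.resolve_left yv'
    obtain ⟨c, hc', wc, yc⟩ : ∃ c ∈ S, H.Adj w c ∧ ¬ H.Adj y c := by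
      by_contra hh
      push Not at hh
      exact wy (ht w hw y hy (fun t ht' _ _ => ⟨hh t ht', hall t ht'⟩))
    have zc : ¬ H.Adj z c := fun h => wv' (ux z hz c hc' v' hv' h zv' yc yv' ▸ wc)
    obtain ⟨hzS, ⟨b, hb', yb, zb⟩, a, ha, ya, za⟩ := hz
    exact yc (hs z hzS w hw b hb' v' hv' a ha c hc' zb (hall b hb' yb) zv' wv' (hall a ha ya) wc
      za zc ▸ ya)
  push Not at hn
  have yv : ¬ H.Adj y v := fun h => hn v hv h wv
  obtain ⟨z, hz, zv⟩ := xv.resolve_left yv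
  have hz' := hz
  obtain ⟨hzS, ⟨b, hb', yb, zb⟩, a, ha, ya, za⟩ := hz'
  obtain ⟨x', hx', wx', x'v⟩ : ∃ x' ∈ S, H.Adj w x' ∧ x' ≠ v := by
    obtain ⟨p, hp', q, hq, pq, wp, wq⟩ := hp w hw
    by_cases e : p = v
    · exact ⟨q, hq, wq, fun h => pq (e.trans h.symm)⟩
    · exact ⟨p, hp', wp, e⟩
  have zx' : ¬ H.Adj z x' := fun h =>
    x'v (ux z hz x' hx' v hv h zv (fun h' => hn x' hx' h' wx') yv)
  have Nz : ∀ t ∈ S, H.Adj z t → t = b ∨ t = v := by
    intro t ht' zt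
    by_cases e : H.Adj y t
    · exact Or.inl (hs w hw z hzS v hv x' hx' t ht' b hb' wv zv wx' zx' zt zb (hn t ht' e)
        (hn b hb' yb))
    · exact Or.inr (ux z hz t ht' v hv zt zv e yv)
  have wz : w ≠ z := fun e => wS (e ▸ hz)
  have common : ∀ t ∈ S, H.Adj b t → H.Adj v t → t = z := by
    intro t ht' bt vt
    by_contra tz
    obtain ⟨c, hc', tc, zc⟩ : ∃ c ∈ S, H.Adj t c ∧ ¬ H.Adj z c := by
      by_contra hh
      push Not at hh
      refine tz (ht t ht' z hzS (fun s hs' _ _ => ⟨hh s hs', fun h => ?_⟩))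
      rcases Nz s hs' h with rfl | rfl
      · exact bt.symm
      · exact vt.symm
    by_cases ta : H.Adj t a
    · exact wz (hs a ha v hv t ht' y hy w hw z hzS ta.symm vt ya.symm (ns yv) wv.symm zv.symm
        (ns (hn a ha ya)) (ns za))
    · have yc : ¬ H.Adj y c := fun h => ta (ua z hz c hc' a ha h ya zc za ▸ tc)
      exact zc (hs y hy t ht' b hb' a ha v hv c hc' yb bt.symm ya ta vt.symm tc yv yc ▸ zv)
  have Nb : ∀ t ∈ S, H.Adj b t → t = z ∨ t = y := by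
    intro t ht' bt
    by_cases e : H.Adj v t
    · exact Or.inl (common t ht' bt e)
    · exact Or.inr (hs v hv b hb' z hzS w hw t ht' y hy zv.symm zb.symm wv.symm (ns (hn b hb' yb))
        bt yb.symm e (ns yv))
  have Nv : ∀ t ∈ S, H.Adj v t → t = z ∨ t = w := by
    intro t ht' vt
    by_cases e : H.Adj b t
    · exact Or.inl (common t ht' e vt)
    · exact Or.inr (hs b hb' v hv z hzS y hy t ht' w hw zb.symm zv.symm yb.symm (ns yv)
        vt wv.symm e (ns (hn b hb' yb)))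
  have mk : ∀ u p q, (∀ t ∈ S, H.Adj u t → t = p ∨ t = q) → D2 H S u := by
    intro u p q h a ha b hb c hc ua ub uc
    rcases h a ha ua with rfl | rfl <;> rcases h b hb ub with rfl | rfl <;>
      rcases h c hc uc with rfl | rfl <;> simp
  refine (all_D2 hs hc ht hp hzS ?_).mono (by simp [cS])
  rintro u hu (rfl | h)
  · exact mk _ _ _ Nz
  · rcases Nz u hu h with rfl | rfl
    · exact mk _ _ _ Nb
    · exact mk _ _ _ Nv

/-- bound -/
def cB : ℕ := 2 * (2 * (cS + 1) + 1)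

lemma W_bipR {G : SimpleGraph V} (hR : RF G) {S : Finset V} (sd : V → Prop)
    (hb : ∀ a ∈ S, ∀ b ∈ S, G.Adj a b → (sd a ↔ ¬ sd b)) : W G cB S := by
  have key : ∀ a ∈ S, ∀ b ∈ S, ((flip G sd (fun p q => p ∧ ¬ q)).Adj a b ↔
      (sd a ↔ ¬ sd b) ∧ ¬ G.Adj a b) := by
    intro a ha b hb'
    have := hb a ha b hb'
    rw [flip_adj]
    by_cases e : a = b
    · subst e; simp
    · grind
  have := W_flip (G := G) sd (fun p q => p ∧ ¬ q) (k := 2 * (cS + 1)) (S := S) (W_s113 sd ?_ ?_)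
  · simpa [cB] using this
  · intro a ha b hb' h
    exact ((key a ha b hb').1 h).1
  · intro y hy y' hy' b hb' x hx a ha c hc h1 h2 h3 h4 h5 h6 h7 h8
    rw [key _ hy _ hb'] at h1
    rw [key _ hy' _ hb'] at h2
    rw [key _ hy _ hx] at h3
    rw [key _ hy' _ hx] at h4
    rw [key _ hy' _ ha] at h5
    rw [key _ hy' _ hc] at h6
    rw [key _ hy _ ha] at h7
    rw [key _ hy _ hc] at h8
    have nn : ∀ p ∈ S, ∀ q ∈ S, (sd p ↔ sd q) → ¬ G.Adj p q := by
      intro p hp q hq e h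
      have := hb p hp q hq h
      grind
    have s1 := h1.1
    have s2 := h2.1
    have s3 := h3.1
    have s5 := h5.1
    have s6 := h6.1
    by_contra ac
    exact hR b y' x a y c (by grind) (by grind [SimpleGraph.adj_comm]) (by grind)
      (nn a ha c hc (by grind)) (ns h2.2) (nn b hb' x hx (by grind)) (nn b hb' a ha (by grind))
      (ns h1.2) (nn b hb' c hc (by grind)) h5.2 (nn y' hy' y hy (by grind)) h6.2
      (nn x hx a ha (by grind)) (ns h3.2) (nn x hx c hc (by grind)) ac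

end

end Pool.Agent.MP_41f2d3_co

end

section

/-! Local lemmas for triangle-free graphs without induced P1 + P2 + P3. -/

namespace Pool.Agent.MP_41f2d3_co

variable {V : Type}

/-- triangle-free -/
def TG (G : SimpleGraph V) : Prop := ∀ a b c, G.Adj a b → G.Adj a c → G.Adj b c → False

/-- an induced pair of edges -/
structure B2 (G : SimpleGraph V) (a b c d : V) : Prop where
  ab : G.Adj a b
  cd : G.Adj c d
  ac : ¬ G.Adj a c
  ad : ¬ G.Adj a d
  bc : ¬ G.Adj b c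
  bd : ¬ G.Adj b d

/-- anticomplete to four vertices -/
def T4 (G : SimpleGraph V) (a b c d v : V) : Prop :=
  ¬ G.Adj v a ∧ ¬ G.Adj v b ∧ ¬ G.Adj v c ∧ ¬ G.Adj v d

/-- common neighbour of two vertices -/
def Tw (G : SimpleGraph V) (p q v : V) : Prop := G.Adj v p ∧ G.Adj v q

set_option linter.unusedVariables false

lemma k_match {G : SimpleGraph V} (hG : TG G) (hR : RF G) {a b c d : V} (h : B2 G a b c d)
    {t u v : V}
    (ht : T4 G a b c d t) (hu : T4 G a b c d u) (hv : T4 G a b c d v)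
    (a0 : G.Adj t u) (a1 : G.Adj t v) (d0 : u ≠ v) : False := by
  have t1 : ¬ G.Adj u v := fun hc => hG t u v a0 a1 hc
  exact hR a c d u t v h.cd a0.symm a1 t1 h.ac h.ad (ns hu.1) (ns ht.1) (ns hv.1) (ns hu.2.2.1) (ns ht.2.2.1) (ns hv.2.2.1) (ns hu.2.2.2) (ns ht.2.2.2) (ns hv.2.2.2) d0

lemma k_one {G : SimpleGraph V} (hG : TG G) (hR : RF G) {a b c d : V} (h : B2 G a b c d)
    {t u x : V}
    (ht : T4 G a b c d t) (hu : T4 G a b c d u) (hx : Tw G b c x)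
    (a0 : G.Adj t u) (n0 : ¬ G.Adj x t) (n1 : ¬ G.Adj x u) : False := by
  have t1 : d ≠ x := fun hc => eqa hc.symm hx.1 (ns h.bd)
  have t2 : ¬ G.Adj a x := fun hc => hG a b x h.ab hc hx.1.symm
  have t3 : ¬ G.Adj d x := fun hc => hG c d x h.cd hx.2.symm hc
  exact hR a t u d c x a0 h.cd.symm hx.2.symm t3 (ns ht.1) (ns hu.1) h.ad h.ac t2 ht.2.2.2 ht.2.2.1 (ns n0) hu.2.2.2 hu.2.2.1 (ns n1) t1

lemma k_r2 {G : SimpleGraph V} (hG : TG G) (hR : RF G) {a b c d : V} (h : B2 G a b c d)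
    {t u x y : V}
    (ht : T4 G a b c d t) (hu : T4 G a b c d u) (hx : Tw G b c x)
    (hy : Tw G a d y) (a0 : G.Adj t x) (n0 : ¬ G.Adj t u)
    (n1 : ¬ G.Adj t y) (n2 : ¬ G.Adj u x) (n3 : ¬ G.Adj u y)
    (n4 : ¬ G.Adj x y) : False := by
  have t1 : c ≠ t := fun hc => eqa hc h.cd ht.2.2.2
  have t2 : ¬ G.Adj a x := fun hc => hG a b x h.ab hc hx.1.symm
  have t3 : ¬ G.Adj c y := fun hc => hG c d y h.cd hc hy.2.symm
  exact hR u a y c x t hy.1.symm hx.2.symm a0.symm (ns ht.2.2.1) hu.1 n3 hu.2.2.1 n2 (ns n0) h.ac t2 (ns ht.1) (ns t3) (ns n4) (ns n1) t1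

lemma k_r3 {G : SimpleGraph V} (hG : TG G) (hR : RF G) {a b c d : V} (h : B2 G a b c d)
    {t x y w : V}
    (ht : T4 G a b c d t) (hx : Tw G b c x) (hy : Tw G a d y)
    (hw : Tw G b c w) (n0 : ¬ G.Adj t x) (n1 : ¬ G.Adj t y)
    (n2 : ¬ G.Adj x y) (n3 : ¬ G.Adj y w) (d0 : w ≠ x) : False := by
  have t1 : a ≠ d := fun hc => eqa hc h.ab (ns h.bd)
  have t2 : ¬ G.Adj a x := fun hc => hG a b x h.ab hc hx.1.symm
  have t3 : ¬ G.Adj a w := fun hc => hG a b w h.ab hc hw.1.symm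
  have t4 : ¬ G.Adj x w := fun hc => hG b x w hx.1.symm hw.1.symm hc
  have t5 : ¬ G.Adj d x := fun hc => hG c d x h.cd hx.2.symm hc
  have t6 : ¬ G.Adj c y := fun hc => hG c d y h.cd hc hy.2.symm
  have t7 : ¬ G.Adj d w := fun hc => hG c d w h.cd hw.2.symm hc
  have t8 : G.Adj t w := Classical.byContradiction fun hc => hR t a y x c w hy.1.symm hx.2 hw.2.symm t4 ht.1 n1 n0 ht.2.2.1 hc t2 h.ac t3 (ns n2) (ns t6) n3 (Ne.symm d0)
  exact hR x t w a y d t8 hy.1.symm hy.2 h.ad (ns n0) t4 (ns t2) n2 (ns t5) ht.1 n1 ht.2.2.2 (ns t3) (ns n3) (ns t7) t1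

lemma k_single {G : SimpleGraph V} (hG : TG G) (hR : RF G) {a b c d : V} (h : B2 G a b c d)
    {z v w : V}
    (hz : T4 G a b c d z) (a0 : G.Adj v a) (a1 : G.Adj w a)
    (n0 : ¬ G.Adj v c) (n1 : ¬ G.Adj v d) (n2 : ¬ G.Adj w c)
    (n3 : ¬ G.Adj w d) (d0 : v ≠ w) (d1 : v ≠ b)
    (d2 : w ≠ b) : False := by
  have t1 : ¬ G.Adj b v := fun hc => hG a b v h.ab a0.symm hc
  have t2 : ¬ G.Adj b w := fun hc => hG a b w h.ab a1.symm hc
  have t3 : ¬ G.Adj v w := fun hc => hG a v w a0.symm a1.symm hc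
  have t4 : G.Adj z v := Classical.byContradiction fun hc => hR z c d b a v h.cd h.ab.symm a0.symm t1 hz.2.2.1 hz.2.2.2 hz.2.1 hz.1 hc (ns h.bc) (ns h.ac) (ns n0) (ns h.bd) (ns h.ad) (ns n1) (Ne.symm d1)
  have t5 : G.Adj z w := Classical.byContradiction fun hc => hR z c d b a w h.cd h.ab.symm a1.symm t2 hz.2.2.1 hz.2.2.2 hz.2.1 hz.1 hc (ns h.bc) (ns h.ac) (ns n2) (ns h.bd) (ns h.ad) (ns n3) (Ne.symm d2)
  exact hR b c d v z w h.cd t4.symm t5 t3 h.bc h.bd t1 (ns hz.2.1) t2 (ns n0) (ns hz.2.2.1) (ns n2) (ns n1) (ns hz.2.2.2) (ns n3) d0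

lemma k_tb {G : SimpleGraph V} (hG : TG G) (hR : RF G) {a b c d : V} (h : B2 G a b c d)
    {x1 x2 x3 b1 b2 b3 t x w : V}
    (hx1 : Tw G b c x1) (hx2 : Tw G b c x2) (hx3 : Tw G b c x3)
    (hb1 : Tw G a c b1) (hb2 : Tw G a c b2) (hb3 : Tw G a c b3)
    (ht : T4 G a b c d t) (hx : Tw G b c x) (hw : Tw G a c w)
    (a0 : G.Adj t x) (n0 : ¬ G.Adj t w) (d0 : x1 ≠ x2)
    (d1 : x1 ≠ x3) (d2 : x2 ≠ x3) (d3 : b1 ≠ b2)
    (d4 : b1 ≠ b3) (d5 : b2 ≠ b3) : False := by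
  have t1 : ¬ G.Adj a x1 := fun hc => hG a b x1 h.ab hc hx1.1.symm
  have t2 : ¬ G.Adj a x2 := fun hc => hG a b x2 h.ab hc hx2.1.symm
  have t3 : ¬ G.Adj a x3 := fun hc => hG a b x3 h.ab hc hx3.1.symm
  have t4 : ¬ G.Adj b b1 := fun hc => hG a b b1 h.ab hb1.1.symm hc
  have t5 : ¬ G.Adj b b2 := fun hc => hG a b b2 h.ab hb2.1.symm hc
  have t6 : ¬ G.Adj a x := fun hc => hG a b x h.ab hc hx.1.symm
  have t7 : ¬ G.Adj b1 b2 := fun hc => hG a b1 b2 hb1.1.symm hb2.1.symm hc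
  have t8 : ¬ G.Adj x1 x2 := fun hc => hG b x1 x2 hx1.1.symm hx2.1.symm hc
  have t9 : ¬ G.Adj x1 x3 := fun hc => hG b x1 x3 hx1.1.symm hx3.1.symm hc
  have t10 : ¬ G.Adj x2 x3 := fun hc => hG b x2 x3 hx2.1.symm hx3.1.symm hc
  have t11 : ¬ G.Adj x2 x := fun hc => hG b x2 x hx2.1.symm hx.1.symm hc
  have t12 : ¬ G.Adj d x1 := fun hc => hG c d x1 h.cd hx1.2.symm hc
  have t13 : ¬ G.Adj d x2 := fun hc => hG c d x2 h.cd hx2.2.symm hc
  have t14 : ¬ G.Adj d x3 := fun hc => hG c d x3 h.cd hx3.2.symm hc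
  have t15 : ¬ G.Adj d b1 := fun hc => hG c d b1 h.cd hb1.2.symm hc
  have t16 : ¬ G.Adj d b2 := fun hc => hG c d b2 h.cd hb2.2.symm hc
  have t17 : ¬ G.Adj d x := fun hc => hG c d x h.cd hx.2.symm hc
  have t18 : ¬ G.Adj d w := fun hc => hG c d w h.cd hw.2.symm hc
  have t19 : ¬ G.Adj x1 b1 := fun hc => hG c x1 b1 hx1.2.symm hb1.2.symm hc
  have t20 : ¬ G.Adj x1 b2 := fun hc => hG c x1 b2 hx1.2.symm hb2.2.symm hc
  have t21 : ¬ G.Adj x1 w := fun hc => hG c x1 w hx1.2.symm hw.2.symm hc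
  have t22 : ¬ G.Adj x2 b1 := fun hc => hG c x2 b1 hx2.2.symm hb1.2.symm hc
  have t23 : ¬ G.Adj x2 b2 := fun hc => hG c x2 b2 hx2.2.symm hb2.2.symm hc
  have t24 : ¬ G.Adj x2 w := fun hc => hG c x2 w hx2.2.symm hw.2.symm hc
  have t25 : ¬ G.Adj x3 b1 := fun hc => hG c x3 b1 hx3.2.symm hb1.2.symm hc
  have t26 : ¬ G.Adj x3 b2 := fun hc => hG c x3 b2 hx3.2.symm hb2.2.symm hc
  have t27 : ¬ G.Adj x3 w := fun hc => hG c x3 w hx3.2.symm hw.2.symm hc
  have t28 : ¬ G.Adj b1 x := fun hc => hG c b1 x hb1.2.symm hx.2.symm hc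
  have t29 : ¬ G.Adj b2 x := fun hc => hG c b2 x hb2.2.symm hx.2.symm hc
  rcases Classical.em (G.Adj x1 t) with t30 | t30
  · have t31 : ¬ G.Adj x2 t := fun hc => hR d a w x1 t x2 hw.1.symm t30 hc.symm t8 (ns h.ad) t18 t12 (ns ht.2.2.2) t13 t1 (ns ht.1) t2 (ns t21) (ns n0) (ns t24) d0
    have t32 : ¬ G.Adj x3 t := fun hc => hR d a w x1 t x3 hw.1.symm t30 hc.symm t9 (ns h.ad) t18 t12 (ns ht.2.2.2) t14 t1 (ns ht.1) t3 (ns t21) (ns n0) (ns t27) d1
    have t33 : ¬ G.Adj b1 t := fun hc => hR d b1 t x2 b x3 hc hx2.1 hx3.1.symm t10 t15 (ns ht.2.2.2) t13 (ns h.bd) t14 (ns t22) (ns t4) (ns t25) (ns t31) ht.2.1 (ns t32) d2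
    have t34 : ¬ G.Adj b2 t := fun hc => hR d b2 t x2 b x3 hc hx2.1 hx3.1.symm t10 t16 (ns ht.2.2.2) t13 (ns h.bd) t14 (ns t23) (ns t5) (ns t26) (ns t31) ht.2.1 (ns t32) d2
    exact hR x2 t x b1 a b2 a0 hb1.1 hb2.1.symm t7 t31 t11 t22 (ns t2) t23 (ns t33) ht.1 (ns t34) (ns t28) (ns t6) (ns t29) d3
  · rcases Classical.em (G.Adj b1 t) with t35 | t35
    · have t36 : G.Adj x2 t := Classical.byContradiction fun hc => hR d b1 t x1 b x2 t35 hx1.1 hx2.1.symm t8 t15 (ns ht.2.2.2) t12 (ns h.bd) t13 (ns t19) (ns t4) (ns t22) (ns t30) ht.2.1 (ns hc) d0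
      have t37 : G.Adj x3 t := Classical.byContradiction fun hc => hR d b1 t x1 b x3 t35 hx1.1 hx3.1.symm t9 t15 (ns ht.2.2.2) t12 (ns h.bd) t14 (ns t19) (ns t4) (ns t25) (ns t30) ht.2.1 (ns hc) d1
      exact hR d a w x2 t x3 hw.1.symm t36 t37.symm t10 (ns h.ad) t18 t13 (ns ht.2.2.2) t14 t2 (ns ht.1) t3 (ns t24) (ns n0) (ns t27) d2
    · have t38 : G.Adj b2 t := Classical.byContradiction fun hc => hR d t x b1 a b2 a0 hb1.1 hb2.1.symm t7 (ns ht.2.2.2) t17 t15 (ns h.ad) t16 (ns t35) ht.1 (ns hc) (ns t28) (ns t6) (ns t29) d3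
      have t39 : G.Adj x2 t := Classical.byContradiction fun hc => hR b1 b2 t x1 b x2 t38 hx1.1 hx2.1.symm t8 t7 t35 (ns t19) (ns t4) (ns t22) (ns t20) (ns t5) (ns t23) (ns t30) ht.2.1 (ns hc) d0
      have t40 : G.Adj x3 t := Classical.byContradiction fun hc => hR b1 b2 t x1 b x3 t38 hx1.1 hx3.1.symm t9 t7 t35 (ns t19) (ns t4) (ns t25) (ns t20) (ns t5) (ns t26) (ns t30) ht.2.1 (ns hc) d1
      exact hR x1 a b1 x2 t x3 hb1.1.symm t39 t40.symm t10 (ns t1) t19 t8 t30 t9 t2 (ns ht.1) t3 (ns t22) t35 (ns t25) d2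

lemma k_bt {G : SimpleGraph V} (hG : TG G) (hR : RF G) {a b c d : V} (h : B2 G a b c d)
    {x1 x2 x3 b1 b2 b3 t x w : V}
    (hx1 : Tw G b c x1) (hx2 : Tw G b c x2) (hx3 : Tw G b c x3)
    (hb1 : Tw G a c b1) (hb2 : Tw G a c b2) (hb3 : Tw G a c b3)
    (ht : T4 G a b c d t) (hx : Tw G b c x) (hw : Tw G a c w)
    (a0 : G.Adj t w) (n0 : ¬ G.Adj t x) (d0 : x1 ≠ x2)
    (d1 : x1 ≠ x3) (d2 : x2 ≠ x3) (d3 : b1 ≠ b2)
    (d4 : b1 ≠ b3) (d5 : b2 ≠ b3) : False := by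
  have t1 : ¬ G.Adj a x1 := fun hc => hG a b x1 h.ab hc hx1.1.symm
  have t2 : ¬ G.Adj a x2 := fun hc => hG a b x2 h.ab hc hx2.1.symm
  have t3 : ¬ G.Adj a x3 := fun hc => hG a b x3 h.ab hc hx3.1.symm
  have t4 : ¬ G.Adj b b1 := fun hc => hG a b b1 h.ab hb1.1.symm hc
  have t5 : ¬ G.Adj b b2 := fun hc => hG a b b2 h.ab hb2.1.symm hc
  have t6 : ¬ G.Adj b b3 := fun hc => hG a b b3 h.ab hb3.1.symm hc
  have t7 : ¬ G.Adj b w := fun hc => hG a b w h.ab hw.1.symm hc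
  have t8 : ¬ G.Adj b1 b2 := fun hc => hG a b1 b2 hb1.1.symm hb2.1.symm hc
  have t9 : ¬ G.Adj b1 b3 := fun hc => hG a b1 b3 hb1.1.symm hb3.1.symm hc
  have t10 : ¬ G.Adj b2 b3 := fun hc => hG a b2 b3 hb2.1.symm hb3.1.symm hc
  have t11 : ¬ G.Adj b2 w := fun hc => hG a b2 w hb2.1.symm hw.1.symm hc
  have t12 : ¬ G.Adj x1 x2 := fun hc => hG b x1 x2 hx1.1.symm hx2.1.symm hc
  have t13 : ¬ G.Adj x1 x3 := fun hc => hG b x1 x3 hx1.1.symm hx3.1.symm hc
  have t14 : ¬ G.Adj x2 x3 := fun hc => hG b x2 x3 hx2.1.symm hx3.1.symm hc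
  have t15 : ¬ G.Adj d x1 := fun hc => hG c d x1 h.cd hx1.2.symm hc
  have t16 : ¬ G.Adj d x2 := fun hc => hG c d x2 h.cd hx2.2.symm hc
  have t17 : ¬ G.Adj d x3 := fun hc => hG c d x3 h.cd hx3.2.symm hc
  have t18 : ¬ G.Adj d b1 := fun hc => hG c d b1 h.cd hb1.2.symm hc
  have t19 : ¬ G.Adj d b2 := fun hc => hG c d b2 h.cd hb2.2.symm hc
  have t20 : ¬ G.Adj d b3 := fun hc => hG c d b3 h.cd hb3.2.symm hc
  have t21 : ¬ G.Adj d x := fun hc => hG c d x h.cd hx.2.symm hc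
  have t22 : ¬ G.Adj d w := fun hc => hG c d w h.cd hw.2.symm hc
  have t23 : ¬ G.Adj x1 b1 := fun hc => hG c x1 b1 hx1.2.symm hb1.2.symm hc
  have t24 : ¬ G.Adj x1 b2 := fun hc => hG c x1 b2 hx1.2.symm hb2.2.symm hc
  have t25 : ¬ G.Adj x1 b3 := fun hc => hG c x1 b3 hx1.2.symm hb3.2.symm hc
  have t26 : ¬ G.Adj x1 w := fun hc => hG c x1 w hx1.2.symm hw.2.symm hc
  have t27 : ¬ G.Adj x2 b1 := fun hc => hG c x2 b1 hx2.2.symm hb1.2.symm hc
  have t28 : ¬ G.Adj x2 b2 := fun hc => hG c x2 b2 hx2.2.symm hb2.2.symm hc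
  have t29 : ¬ G.Adj x2 b3 := fun hc => hG c x2 b3 hx2.2.symm hb3.2.symm hc
  have t30 : ¬ G.Adj x2 w := fun hc => hG c x2 w hx2.2.symm hw.2.symm hc
  have t31 : ¬ G.Adj x3 b1 := fun hc => hG c x3 b1 hx3.2.symm hb1.2.symm hc
  have t32 : ¬ G.Adj x3 w := fun hc => hG c x3 w hx3.2.symm hw.2.symm hc
  have t33 : ¬ G.Adj b1 x := fun hc => hG c b1 x hb1.2.symm hx.2.symm hc
  have t34 : ¬ G.Adj b2 x := fun hc => hG c b2 x hb2.2.symm hx.2.symm hc
  have t35 : ¬ G.Adj b3 x := fun hc => hG c b3 x hb3.2.symm hx.2.symm hc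
  rcases Classical.em (G.Adj b1 t) with t36 | t36
  · have t37 : ¬ G.Adj b2 t := fun hc => hR d b x b1 t b2 hx.1.symm t36 hc.symm t8 (ns h.bd) t21 t18 (ns ht.2.2.2) t19 t4 (ns ht.2.1) t5 (ns t33) (ns n0) (ns t34) d3
    have t38 : ¬ G.Adj b3 t := fun hc => hR d b x b1 t b3 hx.1.symm t36 hc.symm t9 (ns h.bd) t21 t18 (ns ht.2.2.2) t20 t4 (ns ht.2.1) t6 (ns t33) (ns n0) (ns t35) d4
    have t39 : ¬ G.Adj x1 t := fun hc => hR d x1 t b2 a b3 hc hb2.1 hb3.1.symm t10 t15 (ns ht.2.2.2) t19 (ns h.ad) t20 t24 (ns t1) t25 (ns t37) ht.1 (ns t38) d5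
    have t40 : ¬ G.Adj x2 t := fun hc => hR d x2 t b2 a b3 hc hb2.1 hb3.1.symm t10 t16 (ns ht.2.2.2) t19 (ns h.ad) t20 t28 (ns t2) t29 (ns t37) ht.1 (ns t38) d5
    exact hR b2 t w x1 b x2 a0 hx1.1 hx2.1.symm t12 t37 t11 (ns t24) (ns t5) (ns t28) (ns t39) ht.2.1 (ns t40) (ns t26) (ns t7) (ns t30) d0
  · rcases Classical.em (G.Adj x1 t) with t41 | t41
    · have t42 : G.Adj b2 t := Classical.byContradiction fun hc => hR d x1 t b1 a b2 t41 hb1.1 hb2.1.symm t8 t15 (ns ht.2.2.2) t18 (ns h.ad) t19 t23 (ns t1) t24 (ns t36) ht.1 (ns hc) d3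
      have t43 : G.Adj b3 t := Classical.byContradiction fun hc => hR d x1 t b1 a b3 t41 hb1.1 hb3.1.symm t9 t15 (ns ht.2.2.2) t18 (ns h.ad) t20 t23 (ns t1) t25 (ns t36) ht.1 (ns hc) d4
      exact hR d b x b2 t b3 hx.1.symm t42 t43.symm t10 (ns h.bd) t21 t19 (ns ht.2.2.2) t20 t5 (ns ht.2.1) t6 (ns t34) (ns n0) (ns t35) d5
    · have t44 : G.Adj x2 t := Classical.byContradiction fun hc => hR d t w x1 b x2 a0 hx1.1 hx2.1.symm t12 (ns ht.2.2.2) t22 t15 (ns h.bd) t16 (ns t41) ht.2.1 (ns hc) (ns t26) (ns t7) (ns t30) d0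
      have t45 : G.Adj x3 t := Classical.byContradiction fun hc => hR d t w x1 b x3 a0 hx1.1 hx3.1.symm t13 (ns ht.2.2.2) t22 t15 (ns h.bd) t17 (ns t41) ht.2.1 (ns hc) (ns t26) (ns t7) (ns t32) d1
      exact hR x1 a b1 x2 t x3 hb1.1.symm t44 t45.symm t14 (ns t1) t23 t12 t41 t13 t2 (ns ht.1) t3 (ns t27) t36 (ns t31) d2

lemma k_ty {G : SimpleGraph V} (hG : TG G) (hR : RF G) {a b c d : V} (h : B2 G a b c d)
    {x1 x2 x3 b1 b2 b3 t y : V}
    (hx1 : Tw G b c x1) (hx2 : Tw G b c x2) (hx3 : Tw G b c x3)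
    (hb1 : Tw G a c b1) (hb2 : Tw G a c b2) (hb3 : Tw G a c b3)
    (ht : T4 G a b c d t) (hy : Tw G a d y) (a0 : G.Adj t y)
    (d0 : x1 ≠ x2) (d1 : x1 ≠ x3) (d2 : x2 ≠ x3)
    (d3 : b1 ≠ b2) (d4 : b1 ≠ b3) (d5 : b2 ≠ b3) : False := by
  have t1 : ¬ G.Adj a x1 := fun hc => hG a b x1 h.ab hc hx1.1.symm
  have t2 : ¬ G.Adj a x2 := fun hc => hG a b x2 h.ab hc hx2.1.symm
  have t3 : ¬ G.Adj a x3 := fun hc => hG a b x3 h.ab hc hx3.1.symm
  have t4 : ¬ G.Adj b b1 := fun hc => hG a b b1 h.ab hb1.1.symm hc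
  have t5 : ¬ G.Adj b b2 := fun hc => hG a b b2 h.ab hb2.1.symm hc
  have t6 : ¬ G.Adj b b3 := fun hc => hG a b b3 h.ab hb3.1.symm hc
  have t7 : ¬ G.Adj b y := fun hc => hG a b y h.ab hy.1.symm hc
  have t8 : ¬ G.Adj b1 b2 := fun hc => hG a b1 b2 hb1.1.symm hb2.1.symm hc
  have t9 : ¬ G.Adj b1 b3 := fun hc => hG a b1 b3 hb1.1.symm hb3.1.symm hc
  have t10 : ¬ G.Adj b1 y := fun hc => hG a b1 y hb1.1.symm hy.1.symm hc
  have t11 : ¬ G.Adj b2 b3 := fun hc => hG a b2 b3 hb2.1.symm hb3.1.symm hc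
  have t12 : ¬ G.Adj b2 y := fun hc => hG a b2 y hb2.1.symm hy.1.symm hc
  have t13 : ¬ G.Adj b3 y := fun hc => hG a b3 y hb3.1.symm hy.1.symm hc
  have t14 : ¬ G.Adj x1 x2 := fun hc => hG b x1 x2 hx1.1.symm hx2.1.symm hc
  have t15 : ¬ G.Adj x1 x3 := fun hc => hG b x1 x3 hx1.1.symm hx3.1.symm hc
  have t16 : ¬ G.Adj x2 x3 := fun hc => hG b x2 x3 hx2.1.symm hx3.1.symm hc
  have t17 : ¬ G.Adj d x1 := fun hc => hG c d x1 h.cd hx1.2.symm hc
  have t18 : ¬ G.Adj d x2 := fun hc => hG c d x2 h.cd hx2.2.symm hc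
  have t19 : ¬ G.Adj d x3 := fun hc => hG c d x3 h.cd hx3.2.symm hc
  have t20 : ¬ G.Adj d b1 := fun hc => hG c d b1 h.cd hb1.2.symm hc
  have t21 : ¬ G.Adj d b2 := fun hc => hG c d b2 h.cd hb2.2.symm hc
  have t22 : ¬ G.Adj d b3 := fun hc => hG c d b3 h.cd hb3.2.symm hc
  have t23 : ¬ G.Adj c y := fun hc => hG c d y h.cd hc hy.2.symm
  have t24 : ¬ G.Adj x1 b1 := fun hc => hG c x1 b1 hx1.2.symm hb1.2.symm hc
  have t25 : ¬ G.Adj x1 b2 := fun hc => hG c x1 b2 hx1.2.symm hb2.2.symm hc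
  have t26 : ¬ G.Adj x1 b3 := fun hc => hG c x1 b3 hx1.2.symm hb3.2.symm hc
  have t27 : ¬ G.Adj x2 b1 := fun hc => hG c x2 b1 hx2.2.symm hb1.2.symm hc
  have t28 : ¬ G.Adj x2 b2 := fun hc => hG c x2 b2 hx2.2.symm hb2.2.symm hc
  have t29 : ¬ G.Adj x2 b3 := fun hc => hG c x2 b3 hx2.2.symm hb3.2.symm hc
  have t30 : ¬ G.Adj x3 b1 := fun hc => hG c x3 b1 hx3.2.symm hb1.2.symm hc
  have t31 : ¬ G.Adj x3 b2 := fun hc => hG c x3 b2 hx3.2.symm hb2.2.symm hc
  have t32 : ¬ G.Adj x3 b3 := fun hc => hG c x3 b3 hx3.2.symm hb3.2.symm hc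
  rcases Classical.em (G.Adj x2 y) with t33 | t33
  · have t34 : ¬ G.Adj x2 t := fun hc => hG x2 t y hc t33 a0
    rcases Classical.em (G.Adj b3 t) with t35 | t35
    · have t36 : G.Adj x1 t := Classical.byContradiction fun hc => hR d b3 t x1 b x2 t35 hx1.1 hx2.1.symm t14 t22 (ns ht.2.2.2) t17 (ns h.bd) t18 (ns t26) (ns t6) (ns t29) (ns hc) ht.2.1 (ns t34) d0
      have t37 : ¬ G.Adj b1 t := fun hc => hR d b x2 b1 t b3 hx2.1.symm hc t35.symm t9 (ns h.bd) t18 t20 (ns ht.2.2.2) t22 t4 (ns ht.2.1) t6 t27 t34 t29 d4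
      have t38 : ¬ G.Adj b2 t := fun hc => hR d b x2 b2 t b3 hx2.1.symm hc t35.symm t11 (ns h.bd) t18 t21 (ns ht.2.2.2) t22 t5 (ns ht.2.1) t6 t28 t34 t29 d5
      exact hR d x1 t b1 a b2 t36 hb1.1 hb2.1.symm t8 t17 (ns ht.2.2.2) t20 (ns h.ad) t21 t24 (ns t1) t25 (ns t37) ht.1 (ns t38) d3
    · have t39 : G.Adj b1 t := Classical.byContradiction fun hc => hR b t y b1 c b3 a0 hb1.2 hb3.2.symm t9 (ns ht.2.1) t7 t4 h.bc t6 (ns hc) ht.2.2.1 (ns t35) (ns t10) (ns t23) (ns t13) d4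
      have t40 : G.Adj x1 t := Classical.byContradiction fun hc => hR b3 b1 t x1 b x2 t39 hx1.1 hx2.1.symm t14 (ns t9) t35 (ns t26) (ns t6) (ns t29) (ns t24) (ns t4) (ns t27) (ns hc) ht.2.1 (ns t34) d0
      have t41 : G.Adj x3 t := Classical.byContradiction fun hc => hR b3 b1 t x2 b x3 t39 hx2.1 hx3.1.symm t16 (ns t9) t35 (ns t29) (ns t6) (ns t32) (ns t27) (ns t4) (ns t30) (ns t34) ht.2.1 (ns hc) d2
      exact hR x2 a b3 x1 t x3 hb3.1.symm t40 t41.symm t15 (ns t2) t29 (ns t14) t34 t16 t1 (ns ht.1) t3 (ns t26) t35 (ns t32) d1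
  · have t42 : G.Adj x1 y := Classical.byContradiction fun hc => hR b1 d y x1 b x2 hy.2.symm hx1.1 hx2.1.symm t14 (ns t20) t10 (ns t24) (ns t4) (ns t27) t17 (ns h.bd) t18 (ns hc) (ns t7) (ns t33) d0
    have t43 : G.Adj x3 y := Classical.byContradiction fun hc => hR b1 d y x2 b x3 hy.2.symm hx2.1 hx3.1.symm t16 (ns t20) t10 (ns t27) (ns t4) (ns t30) t18 (ns h.bd) t19 (ns t33) (ns t7) (ns hc) d2
    have t44 : ¬ G.Adj x1 t := fun hc => hG x1 t y hc t42 a0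
    have t45 : ¬ G.Adj x3 t := fun hc => hG x3 t y hc t43 a0
    have t46 : ¬ G.Adj b1 t := fun hc => hR d b1 t x1 b x3 hc hx1.1 hx3.1.symm t15 t20 (ns ht.2.2.2) t17 (ns h.bd) t19 (ns t24) (ns t4) (ns t30) (ns t44) ht.2.1 (ns t45) d1
    have t47 : ¬ G.Adj b2 t := fun hc => hR d b2 t x1 b x3 hc hx1.1 hx3.1.symm t15 t21 (ns ht.2.2.2) t17 (ns h.bd) t19 (ns t25) (ns t5) (ns t31) (ns t44) ht.2.1 (ns t45) d1
    exact hR b t y b1 c b2 a0 hb1.2 hb2.2.symm t8 (ns ht.2.1) t7 t4 h.bc t5 (ns t46) ht.2.2.1 (ns t47) (ns t10) (ns t23) (ns t12) d3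

lemma k_td {G : SimpleGraph V} (hG : TG G) (hR : RF G) {a b c d : V} (h : B2 G a b c d)
    {x1 x2 x3 b1 b2 b3 t y : V}
    (hx1 : Tw G b c x1) (hx2 : Tw G b c x2) (hx3 : Tw G b c x3)
    (hb1 : Tw G a c b1) (hb2 : Tw G a c b2) (hb3 : Tw G a c b3)
    (ht : T4 G a b c d t) (hy : Tw G b d y) (a0 : G.Adj t y)
    (d0 : x1 ≠ x2) (d1 : x1 ≠ x3) (d2 : x2 ≠ x3)
    (d3 : b1 ≠ b2) (d4 : b1 ≠ b3) (d5 : b2 ≠ b3) : False := by
  have t1 : ¬ G.Adj a x1 := fun hc => hG a b x1 h.ab hc hx1.1.symm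
  have t2 : ¬ G.Adj a x2 := fun hc => hG a b x2 h.ab hc hx2.1.symm
  have t3 : ¬ G.Adj a x3 := fun hc => hG a b x3 h.ab hc hx3.1.symm
  have t4 : ¬ G.Adj b b1 := fun hc => hG a b b1 h.ab hb1.1.symm hc
  have t5 : ¬ G.Adj a y := fun hc => hG a b y h.ab hc hy.1.symm
  have t6 : ¬ G.Adj b1 b2 := fun hc => hG a b1 b2 hb1.1.symm hb2.1.symm hc
  have t7 : ¬ G.Adj b1 b3 := fun hc => hG a b1 b3 hb1.1.symm hb3.1.symm hc
  have t8 : ¬ G.Adj b2 b3 := fun hc => hG a b2 b3 hb2.1.symm hb3.1.symm hc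
  have t9 : ¬ G.Adj x1 x2 := fun hc => hG b x1 x2 hx1.1.symm hx2.1.symm hc
  have t10 : ¬ G.Adj x1 x3 := fun hc => hG b x1 x3 hx1.1.symm hx3.1.symm hc
  have t11 : ¬ G.Adj x1 y := fun hc => hG b x1 y hx1.1.symm hy.1.symm hc
  have t12 : ¬ G.Adj x2 x3 := fun hc => hG b x2 x3 hx2.1.symm hx3.1.symm hc
  have t13 : ¬ G.Adj x2 y := fun hc => hG b x2 y hx2.1.symm hy.1.symm hc
  have t14 : ¬ G.Adj x3 y := fun hc => hG b x3 y hx3.1.symm hy.1.symm hc
  have t15 : ¬ G.Adj d x1 := fun hc => hG c d x1 h.cd hx1.2.symm hc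
  have t16 : ¬ G.Adj d x2 := fun hc => hG c d x2 h.cd hx2.2.symm hc
  have t17 : ¬ G.Adj d x3 := fun hc => hG c d x3 h.cd hx3.2.symm hc
  have t18 : ¬ G.Adj d b1 := fun hc => hG c d b1 h.cd hb1.2.symm hc
  have t19 : ¬ G.Adj d b2 := fun hc => hG c d b2 h.cd hb2.2.symm hc
  have t20 : ¬ G.Adj d b3 := fun hc => hG c d b3 h.cd hb3.2.symm hc
  have t21 : ¬ G.Adj c y := fun hc => hG c d y h.cd hc hy.2.symm
  have t22 : ¬ G.Adj x1 b1 := fun hc => hG c x1 b1 hx1.2.symm hb1.2.symm hc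
  have t23 : ¬ G.Adj x1 b2 := fun hc => hG c x1 b2 hx1.2.symm hb2.2.symm hc
  have t24 : ¬ G.Adj x1 b3 := fun hc => hG c x1 b3 hx1.2.symm hb3.2.symm hc
  have t25 : ¬ G.Adj x2 b1 := fun hc => hG c x2 b1 hx2.2.symm hb1.2.symm hc
  have t26 : ¬ G.Adj x2 b2 := fun hc => hG c x2 b2 hx2.2.symm hb2.2.symm hc
  have t27 : ¬ G.Adj x2 b3 := fun hc => hG c x2 b3 hx2.2.symm hb3.2.symm hc
  have t28 : ¬ G.Adj x3 b1 := fun hc => hG c x3 b1 hx3.2.symm hb1.2.symm hc
  have t29 : ¬ G.Adj x3 b3 := fun hc => hG c x3 b3 hx3.2.symm hb3.2.symm hc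
  rcases Classical.em (G.Adj b3 y) with t30 | t30
  · have t31 : ¬ G.Adj b3 t := fun hc => hG b3 t y hc t30 a0
    rcases Classical.em (G.Adj x2 t) with t32 | t32
    · have t33 : G.Adj b1 t := Classical.byContradiction fun hc => hR d x2 t b1 a b3 t32 hb1.1 hb3.1.symm t7 t16 (ns ht.2.2.2) t18 (ns h.ad) t20 t25 (ns t2) t27 (ns hc) ht.1 (ns t31) d4
      have t34 : ¬ G.Adj x1 t := fun hc => hR d a b3 x1 t x2 hb3.1.symm hc t32.symm t9 (ns h.ad) t20 t15 (ns ht.2.2.2) t16 t1 (ns ht.1) t2 (ns t24) t31 (ns t27) d0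
      have t35 : ¬ G.Adj x3 t := fun hc => hR d a b3 x2 t x3 hb3.1.symm t32 hc.symm t12 (ns h.ad) t20 t16 (ns ht.2.2.2) t17 t2 (ns ht.1) t3 (ns t27) t31 (ns t29) d2
      exact hR d b1 t x1 b x3 t33 hx1.1 hx3.1.symm t10 t18 (ns ht.2.2.2) t15 (ns h.bd) t17 (ns t22) (ns t4) (ns t28) (ns t34) ht.2.1 (ns t35) d1
    · have t36 : G.Adj x1 t := Classical.byContradiction fun hc => hR a t y x1 c x2 a0 hx1.2 hx2.2.symm t9 (ns ht.1) t5 t1 h.ac t2 (ns hc) ht.2.2.1 (ns t32) (ns t11) (ns t21) (ns t13) d0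
      have t37 : G.Adj x3 t := Classical.byContradiction fun hc => hR a t y x2 c x3 a0 hx2.2 hx3.2.symm t12 (ns ht.1) t5 t2 h.ac t3 (ns t32) ht.2.2.1 (ns hc) (ns t13) (ns t21) (ns t14) d2
      exact hR x2 a b3 x1 t x3 hb3.1.symm t36 t37.symm t10 (ns t2) t27 (ns t9) t32 t12 t1 (ns ht.1) t3 (ns t24) t31 (ns t29) d1
  · have t38 : G.Adj b1 y := Classical.byContradiction fun hc => hR x1 d y b1 a b3 hy.2.symm hb1.1 hb3.1.symm t7 (ns t15) t11 t22 (ns t1) t24 t18 (ns h.ad) t20 (ns hc) (ns t5) (ns t30) d4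
    have t39 : G.Adj b2 y := Classical.byContradiction fun hc => hR x1 d y b2 a b3 hy.2.symm hb2.1 hb3.1.symm t8 (ns t15) t11 t23 (ns t1) t24 t19 (ns h.ad) t20 (ns hc) (ns t5) (ns t30) d5
    have t40 : ¬ G.Adj b1 t := fun hc => hG b1 t y hc t38 a0
    have t41 : ¬ G.Adj b2 t := fun hc => hG b2 t y hc t39 a0
    have t42 : ¬ G.Adj x1 t := fun hc => hR d x1 t b1 a b2 hc hb1.1 hb2.1.symm t6 t15 (ns ht.2.2.2) t18 (ns h.ad) t19 t22 (ns t1) t23 (ns t40) ht.1 (ns t41) d3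
    have t43 : ¬ G.Adj x2 t := fun hc => hR d x2 t b1 a b2 hc hb1.1 hb2.1.symm t6 t16 (ns ht.2.2.2) t18 (ns h.ad) t19 t25 (ns t2) t26 (ns t40) ht.1 (ns t41) d3
    exact hR a t y x1 c x2 a0 hx1.2 hx2.2.symm t9 (ns ht.1) t5 t1 h.ac t2 (ns t42) ht.2.2.1 (ns t43) (ns t11) (ns t21) (ns t13) d0

lemma k_xxy {G : SimpleGraph V} (hG : TG G) (hR : RF G) {a b c d : V} (h : B2 G a b c d)
    {w x u y : V}
    (hw : Tw G a c w) (hx : Tw G b c x) (hu : Tw G b c u)
    (hy : Tw G a d y) (n0 : ¬ G.Adj y x) (n1 : ¬ G.Adj y u)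
    (d0 : x ≠ u) : False := by
  have t1 : ¬ G.Adj b w := fun hc => hG a b w h.ab hw.1.symm hc
  have t2 : ¬ G.Adj b y := fun hc => hG a b y h.ab hy.1.symm hc
  have t3 : ¬ G.Adj w y := fun hc => hG a w y hw.1.symm hy.1.symm hc
  have t4 : ¬ G.Adj x u := fun hc => hG b x u hx.1.symm hu.1.symm hc
  have t5 : ¬ G.Adj d w := fun hc => hG c d w h.cd hw.2.symm hc
  have t6 : ¬ G.Adj d x := fun hc => hG c d x h.cd hx.2.symm hc
  have t7 : ¬ G.Adj d u := fun hc => hG c d u h.cd hu.2.symm hc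
  have t8 : ¬ G.Adj w x := fun hc => hG c w x hw.2.symm hx.2.symm hc
  have t9 : ¬ G.Adj w u := fun hc => hG c w u hw.2.symm hu.2.symm hc
  exact hR w d y x b u hy.2.symm hx.1 hu.1.symm t4 (ns t5) t3 t8 (ns t1) t9 t6 (ns h.bd) t7 n0 (ns t2) n1 d0

lemma k_xyy {G : SimpleGraph V} (hG : TG G) (hR : RF G) {a b c d : V} (h : B2 G a b c d)
    {w x u y : V}
    (hw : Tw G a c w) (hx : Tw G b c x) (hu : Tw G a d u)
    (hy : Tw G a d y) (n0 : ¬ G.Adj x y) (n1 : ¬ G.Adj x u)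
    (d0 : y ≠ u) : False := by
  have t1 : ¬ G.Adj b w := fun hc => hG a b w h.ab hw.1.symm hc
  have t2 : ¬ G.Adj b u := fun hc => hG a b u h.ab hu.1.symm hc
  have t3 : ¬ G.Adj b y := fun hc => hG a b y h.ab hy.1.symm hc
  have t4 : ¬ G.Adj w u := fun hc => hG a w u hw.1.symm hu.1.symm hc
  have t5 : ¬ G.Adj w y := fun hc => hG a w y hw.1.symm hy.1.symm hc
  have t6 : ¬ G.Adj u y := fun hc => hG a u y hu.1.symm hy.1.symm hc
  have t7 : ¬ G.Adj d w := fun hc => hG c d w h.cd hw.2.symm hc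
  have t8 : ¬ G.Adj d x := fun hc => hG c d x h.cd hx.2.symm hc
  have t9 : ¬ G.Adj w x := fun hc => hG c w x hw.2.symm hx.2.symm hc
  exact hR w b x u d y hx.1.symm hu.2 hy.2.symm t6 (ns t1) t9 t4 (ns t7) t5 t2 h.bd t3 n1 (ns t8) n0 (Ne.symm d0)

lemma k_end {G : SimpleGraph V} (hG : TG G) (hR : RF G) {a b c d : V} (h : B2 G a b c d)
    {x1 x2 x3 y1 y2 t u x y : V}
    (hx1 : Tw G b c x1) (hx2 : Tw G b c x2) (hx3 : Tw G b c x3)
    (hy1 : Tw G a d y1) (hy2 : Tw G a d y2) (ht : T4 G a b c d t)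
    (hu : T4 G a b c d u) (hx : Tw G b c x) (hy : Tw G a d y)
    (a0 : G.Adj t u) (a1 : G.Adj t x) (a2 : G.Adj t y)
    (d0 : x1 ≠ x2) (d1 : x1 ≠ x3) (d2 : x2 ≠ x3)
    (d3 : y1 ≠ y2) : False := by
  have t1 : c ≠ y1 := fun hc => eqa hc.symm hy1.1 (ns h.ac)
  have t2 : c ≠ y2 := fun hc => eqa hc.symm hy2.1 (ns h.ac)
  have t3 : d ≠ x1 := fun hc => eqa hc.symm hx1.1 (ns h.bd)
  have t4 : d ≠ x2 := fun hc => eqa hc.symm hx2.1 (ns h.bd)
  have t5 : d ≠ x3 := fun hc => eqa hc.symm hx3.1 (ns h.bd)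
  have t6 : ¬ G.Adj a x1 := fun hc => hG a b x1 h.ab hc hx1.1.symm
  have t7 : ¬ G.Adj a x2 := fun hc => hG a b x2 h.ab hc hx2.1.symm
  have t8 : ¬ G.Adj a x3 := fun hc => hG a b x3 h.ab hc hx3.1.symm
  have t9 : ¬ G.Adj b y1 := fun hc => hG a b y1 h.ab hy1.1.symm hc
  have t10 : ¬ G.Adj b y2 := fun hc => hG a b y2 h.ab hy2.1.symm hc
  have t11 : ¬ G.Adj y1 y2 := fun hc => hG a y1 y2 hy1.1.symm hy2.1.symm hc
  have t12 : ¬ G.Adj x1 x2 := fun hc => hG b x1 x2 hx1.1.symm hx2.1.symm hc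
  have t13 : ¬ G.Adj x1 x3 := fun hc => hG b x1 x3 hx1.1.symm hx3.1.symm hc
  have t14 : ¬ G.Adj x2 x3 := fun hc => hG b x2 x3 hx2.1.symm hx3.1.symm hc
  have t15 : ¬ G.Adj d x1 := fun hc => hG c d x1 h.cd hx1.2.symm hc
  have t16 : ¬ G.Adj d x2 := fun hc => hG c d x2 h.cd hx2.2.symm hc
  have t17 : ¬ G.Adj d x3 := fun hc => hG c d x3 h.cd hx3.2.symm hc
  have t18 : ¬ G.Adj c y1 := fun hc => hG c d y1 h.cd hc hy1.2.symm
  have t19 : ¬ G.Adj c y2 := fun hc => hG c d y2 h.cd hc hy2.2.symm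
  have t20 : ¬ G.Adj d x := fun hc => hG c d x h.cd hx.2.symm hc
  have t21 : ¬ G.Adj c y := fun hc => hG c d y h.cd hc hy.2.symm
  have t22 : ¬ G.Adj u x := fun hc => hG t u x a0 a1 hc
  have t23 : ¬ G.Adj u y := fun hc => hG t u y a0 a2 hc
  rcases Classical.em (G.Adj x1 u) with t24 | t24
  · have t25 : ¬ G.Adj x1 t := fun hc => hG x1 t u hc t24 a0
    rcases Classical.em (G.Adj y1 u) with t26 | t26
    · have t27 : ¬ G.Adj y1 t := fun hc => hG y1 t u hc t26 a0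
      have t28 : ¬ G.Adj x1 y1 := fun hc => hG x1 y1 u hc t24 t26
      rcases Classical.em (G.Adj x2 t) with t29 | t29
      · have t30 : ¬ G.Adj x2 u := fun hc => hG x2 t u t29 hc a0
        have t31 : ¬ G.Adj x2 y := fun hc => hG x2 t y t29 hc a2
        rcases Classical.em (G.Adj x3 u) with t32 | t32
        · have t33 : ¬ G.Adj x3 t := fun hc => hG x3 t u hc t32 a0
          have t34 : ¬ G.Adj x3 y1 := fun hc => hG x3 y1 u hc t32 t26
          exact hR t a y1 x1 c x3 hy1.1.symm hx1.2 hx3.2.symm t13 ht.1 (ns t27) (ns t25) ht.2.2.1 (ns t33) t6 h.ac t8 (ns t28) (ns t18) (ns t34) d1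
        · have t35 : G.Adj x3 t := Classical.byContradiction fun hc => hR a t u d c x3 a0 h.cd.symm hx3.2.symm t17 (ns ht.1) (ns hu.1) h.ad h.ac t8 ht.2.2.2 ht.2.2.1 (ns hc) hu.2.2.2 hu.2.2.1 (ns t32) t5
          have t36 : G.Adj x3 y := Classical.byContradiction fun hc => hR u a y x2 c x3 hy.1.symm hx2.2 hx3.2.symm t14 hu.1 t23 (ns t30) hu.2.2.1 (ns t32) t7 h.ac t8 (ns t31) (ns t21) (ns hc) d2
          exact hG x3 t y t35 t36 a2
      · have t37 : G.Adj x2 u := Classical.byContradiction fun hc => hR a t u d c x2 a0 h.cd.symm hx2.2.symm t16 (ns ht.1) (ns hu.1) h.ad h.ac t7 ht.2.2.2 ht.2.2.1 (ns t29) hu.2.2.2 hu.2.2.1 (ns hc) t4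
        have t38 : G.Adj x2 y1 := Classical.byContradiction fun hc => hR t a y1 x1 c x2 hy1.1.symm hx1.2 hx2.2.symm t12 ht.1 (ns t27) (ns t25) ht.2.2.1 (ns t29) t6 h.ac t7 (ns t28) (ns t18) (ns hc) d0
        exact hG x2 y1 u t38 t37 t26
    · have t39 : G.Adj y1 t := Classical.byContradiction fun hc => hR b t u c d y1 a0 h.cd hy1.2.symm t18 (ns ht.2.1) (ns hu.2.1) h.bc h.bd t9 ht.2.2.1 ht.2.2.2 (ns hc) hu.2.2.1 hu.2.2.2 (ns t26) t1
      have t40 : ¬ G.Adj y1 x := fun hc => hG y1 t x t39 hc a1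
      rcases Classical.em (G.Adj y2 u) with t41 | t41
      · have t42 : ¬ G.Adj y2 t := fun hc => hG y2 t u hc t41 a0
        have t43 : ¬ G.Adj x1 y2 := fun hc => hG x1 y2 u hc t24 t41
        rcases Classical.em (G.Adj x2 u) with t44 | t44
        · have t45 : ¬ G.Adj x2 t := fun hc => hG x2 t u hc t44 a0
          have t46 : ¬ G.Adj x2 y2 := fun hc => hG x2 y2 u hc t44 t41
          exact hR t a y2 x1 c x2 hy2.1.symm hx1.2 hx2.2.symm t12 ht.1 (ns t42) (ns t25) ht.2.2.1 (ns t45) t6 h.ac t7 (ns t43) (ns t19) (ns t46) d0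
        · have t47 : G.Adj x2 t := Classical.byContradiction fun hc => hR a t u d c x2 a0 h.cd.symm hx2.2.symm t16 (ns ht.1) (ns hu.1) h.ad h.ac t7 ht.2.2.2 ht.2.2.1 (ns hc) hu.2.2.2 hu.2.2.1 (ns t44) t4
          have t48 : ¬ G.Adj x2 y := fun hc => hG x2 t y t47 hc a2
          rcases Classical.em (G.Adj x3 u) with t49 | t49
          · have t50 : ¬ G.Adj x3 t := fun hc => hG x3 t u hc t49 a0
            have t51 : ¬ G.Adj x3 y2 := fun hc => hG x3 y2 u hc t49 t41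
            exact hR t a y2 x1 c x3 hy2.1.symm hx1.2 hx3.2.symm t13 ht.1 (ns t42) (ns t25) ht.2.2.1 (ns t50) t6 h.ac t8 (ns t43) (ns t19) (ns t51) d1
          · have t52 : G.Adj x3 t := Classical.byContradiction fun hc => hR a t u d c x3 a0 h.cd.symm hx3.2.symm t17 (ns ht.1) (ns hu.1) h.ad h.ac t8 ht.2.2.2 ht.2.2.1 (ns hc) hu.2.2.2 hu.2.2.1 (ns t49) t5
            have t53 : G.Adj x3 y := Classical.byContradiction fun hc => hR u a y x2 c x3 hy.1.symm hx2.2 hx3.2.symm t14 hu.1 t23 (ns t44) hu.2.2.1 (ns t49) t7 h.ac t8 (ns t48) (ns t21) (ns hc) d2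
            exact hG x3 t y t52 t53 a2
      · have t54 : G.Adj y2 t := Classical.byContradiction fun hc => hR b t u c d y2 a0 h.cd hy2.2.symm t19 (ns ht.2.1) (ns hu.2.1) h.bc h.bd t10 ht.2.2.1 ht.2.2.2 (ns hc) hu.2.2.1 hu.2.2.2 (ns t41) t2
        have t55 : G.Adj y2 x := Classical.byContradiction fun hc => hR u b x y1 d y2 hx.1.symm hy1.2 hy2.2.symm t11 hu.2.1 t22 (ns t26) hu.2.2.2 (ns t41) t9 h.bd t10 (ns t40) (ns t20) (ns hc) d3
        exact hG y2 t x t54 t55 a1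
  · have t56 : G.Adj x1 t := Classical.byContradiction fun hc => hR a t u d c x1 a0 h.cd.symm hx1.2.symm t15 (ns ht.1) (ns hu.1) h.ad h.ac t6 ht.2.2.2 ht.2.2.1 (ns hc) hu.2.2.2 hu.2.2.1 (ns t24) t3
    have t57 : ¬ G.Adj x1 y := fun hc => hG x1 t y t56 hc a2
    rcases Classical.em (G.Adj x2 u) with t58 | t58
    · have t59 : ¬ G.Adj x2 t := fun hc => hG x2 t u hc t58 a0
      rcases Classical.em (G.Adj x3 u) with t60 | t60
      · have t61 : ¬ G.Adj x3 t := fun hc => hG x3 t u hc t60 a0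
        rcases Classical.em (G.Adj y1 u) with t62 | t62
        · have t63 : ¬ G.Adj y1 t := fun hc => hG y1 t u hc t62 a0
          have t64 : ¬ G.Adj x2 y1 := fun hc => hG x2 y1 u hc t58 t62
          have t65 : ¬ G.Adj x3 y1 := fun hc => hG x3 y1 u hc t60 t62
          exact hR t a y1 x2 c x3 hy1.1.symm hx2.2 hx3.2.symm t14 ht.1 (ns t63) (ns t59) ht.2.2.1 (ns t61) t7 h.ac t8 (ns t64) (ns t18) (ns t65) d2
        · have t66 : G.Adj y1 t := Classical.byContradiction fun hc => hR b t u c d y1 a0 h.cd hy1.2.symm t18 (ns ht.2.1) (ns hu.2.1) h.bc h.bd t9 ht.2.2.1 ht.2.2.2 (ns hc) hu.2.2.1 hu.2.2.2 (ns t62) t1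
          have t67 : ¬ G.Adj y1 x := fun hc => hG y1 t x t66 hc a1
          rcases Classical.em (G.Adj y2 u) with t68 | t68
          · have t69 : ¬ G.Adj y2 t := fun hc => hG y2 t u hc t68 a0
            have t70 : ¬ G.Adj x2 y2 := fun hc => hG x2 y2 u hc t58 t68
            have t71 : ¬ G.Adj x3 y2 := fun hc => hG x3 y2 u hc t60 t68
            exact hR t a y2 x2 c x3 hy2.1.symm hx2.2 hx3.2.symm t14 ht.1 (ns t69) (ns t59) ht.2.2.1 (ns t61) t7 h.ac t8 (ns t70) (ns t19) (ns t71) d2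
          · have t72 : G.Adj y2 t := Classical.byContradiction fun hc => hR b t u c d y2 a0 h.cd hy2.2.symm t19 (ns ht.2.1) (ns hu.2.1) h.bc h.bd t10 ht.2.2.1 ht.2.2.2 (ns hc) hu.2.2.1 hu.2.2.2 (ns t68) t2
            have t73 : G.Adj y2 x := Classical.byContradiction fun hc => hR u b x y1 d y2 hx.1.symm hy1.2 hy2.2.symm t11 hu.2.1 t22 (ns t62) hu.2.2.2 (ns t68) t9 h.bd t10 (ns t67) (ns t20) (ns hc) d3
            exact hG y2 t x t72 t73 a1
      · have t74 : G.Adj x3 t := Classical.byContradiction fun hc => hR a t u d c x3 a0 h.cd.symm hx3.2.symm t17 (ns ht.1) (ns hu.1) h.ad h.ac t8 ht.2.2.2 ht.2.2.1 (ns hc) hu.2.2.2 hu.2.2.1 (ns t60) t5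
        have t75 : G.Adj x3 y := Classical.byContradiction fun hc => hR u a y x1 c x3 hy.1.symm hx1.2 hx3.2.symm t13 hu.1 t23 (ns t24) hu.2.2.1 (ns t60) t6 h.ac t8 (ns t57) (ns t21) (ns hc) d1
        exact hG x3 t y t74 t75 a2
    · have t76 : G.Adj x2 t := Classical.byContradiction fun hc => hR a t u d c x2 a0 h.cd.symm hx2.2.symm t16 (ns ht.1) (ns hu.1) h.ad h.ac t7 ht.2.2.2 ht.2.2.1 (ns hc) hu.2.2.2 hu.2.2.1 (ns t58) t4
      have t77 : G.Adj x2 y := Classical.byContradiction fun hc => hR u a y x1 c x2 hy.1.symm hx1.2 hx2.2.symm t12 hu.1 t23 (ns t24) hu.2.2.1 (ns t58) t6 h.ac t7 (ns t57) (ns t21) (ns hc) d0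
      exact hG x2 t y t76 t77 a2

end Pool.Agent.MP_41f2d3_co

end

section

/-! Triangle-free graphs without induced P1 + P2 + P3: building blocks. -/

namespace Pool.Agent.MP_41f2d3_co

open Finset Classical

noncomputable section

variable {V : Type}

/-- bound -/
def cT : ℕ := 3 * (cB + 1)

lemma W_txy {G : SimpleGraph V} (hR : RF G) {S : Finset V} (col : V → Fin 3)
    (hind : ∀ a ∈ S, ∀ b ∈ S, G.Adj a b → col a ≠ col b) (hT : TF G S)
    (hbad : ∀ t ∈ S, ∀ x ∈ S, ∀ y ∈ S, col t = 0 → col x = 1 → col y = 2 → ¬ G.Adj t x →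
      ¬ G.Adj t y → ¬ G.Adj x y → (∀ u ∈ S, col u = 0 → (G.Adj u x ↔ G.Adj u y)) ∧
      (∀ w ∈ S, col w = 1 → w ≠ x → G.Adj y w) ∧ ∀ w ∈ S, col w = 2 → w ≠ y → G.Adj x w) :
    W G cT S := by
  refine W_cutp col (fun P hPS => ?_)
  have hind' : ∀ a ∈ P, ∀ b ∈ P, G.Adj a b → col a ≠ col b :=
    fun a ha b hb => hind a (hPS ha) b (hPS hb)
  by_cases hb : ∃ t ∈ P, ∃ x ∈ P, ∃ y ∈ P, col t = 0 ∧ col x = 1 ∧ col y = 2 ∧ ¬ G.Adj t x ∧
      ¬ G.Adj t y ∧ ¬ G.Adj x y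
  · obtain ⟨t, ht, x, hx, y, hy, ct, cx, cy, tx, ty, xy⟩ := hb
    obtain ⟨h1, h2, h3⟩ := hbad t (hPS ht) x (hPS hx) y (hPS hy) ct cx cy tx ty xy
    right
    refine ⟨P.filter (fun v => v = x ∨ v = y ∨ (col v = 0 ∧ G.Adj v x)), filter_subset _ _,
      ⟨x, mem_filter.2 ⟨hx, Or.inl rfl⟩⟩, fun h => ?_,
      fun i j => (i = 1 ∧ j = 2) ∨ (i = 2 ∧ j = 1), ?_⟩
    · rcases (mem_filter.1 (h ht)).2 with e | e | e
      · rw [e, cx] at ct; omega
      · rw [e, cy] at ct; omega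
      · exact tx e.2
    · intro a ha b hb hbA
      have hb' : b ≠ x ∧ b ≠ y ∧ (col b = 0 → ¬ G.Adj b x) :=
        ⟨fun e => hbA (mem_filter.2 ⟨hb, Or.inl e⟩),
          fun e => hbA (mem_filter.2 ⟨hb, Or.inr (Or.inl e)⟩),
          fun e e' => hbA (mem_filter.2 ⟨hb, Or.inr (Or.inr ⟨e, e'⟩)⟩)⟩
      obtain ⟨haP, ha⟩ := mem_filter.1 ha
      have i1 := hind' a haP b hb
      have i2 := h1 b (hPS hb)
      have i3 := h2 b (hPS hb)
      have i4 := h3 b (hPS hb)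
      have i5 := h1 a (hPS haP)
      have i6 := hT a (hPS haP) x (hPS hx) b (hPS hb)
      have i7 := hT a (hPS haP) y (hPS hy) b (hPS hb)
      clear hbA hbad hind hT hR h1 h2 h3 hind'
      rcases fin3_cases (col b) with e | e | e <;> rcases ha with rfl | rfl | ha <;>
        grind [SimpleGraph.adj_comm]
  have h3' := rainbow_of_ordered (G := G) (S := P) col
    (fun a ha b hb' c hc e1 e2 e3 n1 n2 n3 => hb ⟨a, ha, b, hb', c, hc, e1, e2, e3, n1, n2, n3⟩)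
  by_cases hall : ∃ a ∈ P, ∃ b ∈ P, ∃ c ∈ P, col a = 0 ∧ col b = 1 ∧ col c = 2
  · obtain ⟨a, ha, b, hb, c, hc, ca, cb, cc⟩ := hall
    right
    obtain ⟨A, h1, h2, h3, h4⟩ := cut_notri col hind' h3' (hT.mono hPS) ha hb hc
      (by rw [ca, cb]; decide) (by rw [ca, cc]; decide) (by rw [cb, cc]; decide)
    exact ⟨A, h1, h2, h3, fun i j => j = i + 1, h4⟩
  · left
    have : ∃ i : Fin 3, ∀ a ∈ P, col a ≠ i := by
      by_contra hh
      push Not at hh
      obtain ⟨a, ha, ca⟩ := hh 0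
      obtain ⟨b, hb, cb⟩ := hh 1
      obtain ⟨c, hc, cc⟩ := hh 2
      exact hall ⟨a, ha, b, hb, c, hc, ca, cb, cc⟩
    obtain ⟨i, hi⟩ := this
    refine W_bipR hR (fun v => col v = i + 1) ?_
    intro a ha b hb hab
    exact fin3_side i _ _ (hind' a ha b hb hab) (hi a ha) (hi b hb)

/-- P2 + P3 free on `S` -/
def F23 (G : SimpleGraph V) (S : Finset V) : Prop :=
  ∀ a ∈ S, ∀ b ∈ S, ∀ c ∈ S, ∀ d ∈ S, ∀ e ∈ S, G.Adj a b → G.Adj c d → G.Adj d e → ¬ G.Adj c e →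
    ¬ G.Adj a c → ¬ G.Adj a d → ¬ G.Adj a e → ¬ G.Adj b c → ¬ G.Adj b d → ¬ G.Adj b e →
    c ≠ e → False

/-- an independent set `X` and an induced matching with each edge dominating `X` -/
structure TX (G : SimpleGraph V) (S : Finset V) (X : V → Prop) : Prop where
  tf : TF G S
  ind : ∀ x ∈ S, ∀ y ∈ S, X x → X y → ¬ G.Adj x y
  mt : ∀ t ∈ S, ∀ u ∈ S, ∀ v ∈ S, ¬ X t → ¬ X u → ¬ X v → G.Adj t u → G.Adj t v → u = v
  one : ∀ t ∈ S, ∀ u ∈ S, ∀ x ∈ S, ¬ X t → ¬ X u → X x → G.Adj t u → G.Adj t x ∨ G.Adj u x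
  f23 : F23 G S

lemma TX.mono {G : SimpleGraph V} {S S' : Finset V} {X : V → Prop} (h : TX G S X) (hS : S' ⊆ S) :
    TX G S' X :=
  ⟨h.tf.mono hS, fun x hx y hy => h.ind x (hS hx) y (hS hy),
    fun t ht u hu v hv => h.mt t (hS ht) u (hS hu) v (hS hv),
    fun t ht u hu v hv => h.one t (hS ht) u (hS hu) v (hS hv),
    fun a ha b hb c hc d hd e he => h.f23 a (hS ha) b (hS hb) c (hS hc) d (hS hd) e (hS he)⟩

/-- at most one neighbour in `X` -/
def Low (G : SimpleGraph V) (S : Finset V) (X : V → Prop) (t : V) : Prop :=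
  ∀ x ∈ S, ∀ y ∈ S, X x → X y → G.Adj t x → G.Adj t y → x = y

/-- bound -/
def cX1 : ℕ := J 4 (cB + 12)

lemma W_tx1 {G : SimpleGraph V} (hR : RF G) {S : Finset V} {X : V → Prop} (h : TX G S X)
    (hlow : ∀ t ∈ S, ∀ u ∈ S, ¬ X t → ¬ X u → G.Adj t u → (Low G S X t ↔ ¬ Low G S X u)) :
    W G cX1 S := by
  let minor : V → Prop := fun m => ¬ X m ∧ (∃ u ∈ S, ¬ X u ∧ G.Adj m u) ∧ Low G S X m
  let Sp : V → Prop := fun t => ¬ X t ∧ ∃ u ∈ S, ¬ X u ∧ G.Adj t u ∧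
    (∃ x ∈ S, X x ∧ G.Adj t x) ∧ ∃ x ∈ S, X x ∧ G.Adj u x
  let A := S.filter (fun v => Sp v ∨ (X v ∧ ∃ m ∈ S, minor m ∧ G.Adj m v))
  have inA1 : ∀ v ∈ S, Sp v → v ∈ A := fun v hv hs => mem_filter.2 ⟨hv, Or.inl hs⟩
  have inA2 : ∀ v ∈ S, X v → ∀ m ∈ S, minor m → G.Adj m v → v ∈ A :=
    fun v hv hx m hm h1 h2 => mem_filter.2 ⟨hv, Or.inr ⟨hx, m, hm, h1, h2⟩⟩
  have spA : ∀ v ∈ A, ¬ X v → Sp v := fun v hv hx =>
    (mem_filter.1 hv).2.resolve_right (fun h => hx h.1)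
  have xA : ∀ v ∈ A, X v → ∃ m ∈ S, minor m ∧ G.Adj m v := fun v hv hx =>
    ((mem_filter.1 hv).2.resolve_left (fun h => h.1 hx)).2
  have partner : ∀ t ∈ A, ¬ X t → ∀ z ∈ S, ¬ X z → G.Adj t z → z ∈ A := by
    intro t ht hx z hz hz' tz
    obtain ⟨_, u, hu, xu, tu, h1, h2⟩ := spA t ht hx
    have htS := (mem_filter.1 ht).1
    have := h.mt t htS u hu z hz hx xu hz' tu tz
    subst this
    exact inA1 u hu ⟨xu, t, htS, hx, tu.symm, h2, h1⟩
  refine W_join (A := A) (filter_subset _ _) ?_ ?_ ?_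
  · refine Ty_of_labels (fun v => (X v, Low G S X v)) univ (by simp) (fun _ _ => Or.inr (mem_univ _))
      ?_
    have main : ∀ x ∈ A, ∀ y ∈ A, (X x ↔ X y) → (Low G S X x ↔ Low G S X y) → ∀ z ∈ S, z ∉ A →
        G.Adj x z → G.Adj y z := by
      intro x hx y hy e1 e2 z hz hzA xz
      have hxS := (mem_filter.1 hx).1
      have hyS := (mem_filter.1 hy).1
      by_cases hX : X x
      · have hY := e1.1 hX
        have hZ : ¬ X z := fun hZ => h.ind x hxS z hz hX hZ xz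
        by_contra yz
        have xy : x ≠ y := fun e => yz (e ▸ xz)
        by_cases hp : ∃ u ∈ S, ¬ X u ∧ G.Adj z u
        · obtain ⟨u, hu, xu, zu⟩ := hp
          refine hzA (inA1 z hz ⟨hZ, u, hu, xu, zu, ⟨x, hxS, hX, xz.symm⟩, y, hyS, hY, ?_⟩)
          exact (h.one z hz u hu y hyS hZ xu hY zu).resolve_left (ns yz)
        · push Not at hp
          obtain ⟨m, hm, ⟨m1, m2, m3⟩, mx⟩ := xA x hx hX
          obtain ⟨n, hn, ⟨n1, n2, n3⟩, ny⟩ := xA y hy hY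
          have nx : ¬ G.Adj n x := fun e => xy (n3 x hxS y hyS hX hY e ny)
          have my : ¬ G.Adj m y := fun e => xy (m3 x hxS y hyS hX hY mx e)
          refine h.f23 n hn y hyS z hz x hxS m hm ny xz.symm mx.symm (hp m hm m1)
            (ns (hp n hn n1)) nx (fun e => (hlow n hn m hm n1 m1 e).1 n3 m3) yz
            (h.ind y hyS x hxS hY hX) (ns my) ?_
          rintro rfl
          obtain ⟨u, hu, xu, zu⟩ := m2
          exact hp u hu xu zu
      · have hY : ¬ X y := fun a => hX (e1.2 a)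
        have hZ : X z := by
          by_contra hZ
          exact hzA (partner x hx hX z hz hZ xz)
        obtain ⟨_, u, hu, xu, tu, _⟩ := spA x hx hX
        have lx : ¬ Low G S X x := fun l =>
          hzA (inA2 z hz hZ x hxS ⟨hX, ⟨u, hu, xu, tu⟩, l⟩ xz)
        obtain ⟨_, w, hw, xw, yw, _⟩ := spA y hy hY
        have lw : Low G S X w := by
          by_contra l
          exact lx (e2.2 ((hlow y hyS w hw hY xw yw).2 l))
        refine (h.one y hyS w hw z hz hY xw hZ yw).resolve_right (fun wz => ?_)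
        exact hzA (inA2 z hz hZ w hw ⟨xw, ⟨y, hyS, hY, yw.symm⟩, lw⟩ wz)
    intro x hx y hy e z hz hzA
    simp only [Prod.mk.injEq, eq_iff_iff] at e
    exact ⟨main x hx y hy e.1 e.2 z hz hzA, main y hy x hx e.1.symm e.2.symm z hz hzA⟩
  · have := W_flip (G := G) (fun v => (X v, Low G S X v)) (fun p q => (¬ p.1 ∧ ¬ p.2) ∧ q.1)
      (k := 2) (S := A) (W_of_prime le_rfl A ?_)
    · exact this.mono (by simp)
    intro S' hS' ⟨v0, hv0⟩ _ ht hp
    exfalso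
    have allX : ∀ t ∈ S', X t := by
      intro t htS'
      by_contra hx
      have htA := hS' htS'
      have htS := (mem_filter.1 htA).1
      obtain ⟨_, u, hu, xu, tu, _⟩ := spA t htA hx
      have hl := hlow t htS u hu hx xu tu
      have fT : ∀ s ∈ S, ¬ X s → ∀ z, ¬ X z → (flip G (fun v => (X v, Low G S X v))
          (fun p q => (¬ p.1 ∧ ¬ p.2) ∧ q.1)).Adj s z → G.Adj s z := by
        intro s _ xs z xz e
        rw [flip_adj] at e
        grind
      have fX : ∀ s, ¬ X s → ∀ z, X z → ((flip G (fun v => (X v, Low G S X v))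
          (fun p q => (¬ p.1 ∧ ¬ p.2) ∧ q.1)).Adj s z ↔ (G.Adj s z ↔ Low G S X s)) := by
        intro s xs z xz
        rw [flip_adj]
        have : s ≠ z := fun e => xs (e ▸ xz)
        grind
      have ex : ∀ z ∈ S, X z → (G.Adj t z ↔ ¬ G.Adj u z) := fun z hz xz =>
        ⟨fun a b => h.tf t htS u hu z hz tu a b,
          fun a => (h.one t htS u hu z hz hx xu xz tu).resolve_right a⟩
      by_cases huS : u ∈ S'
      · refine tu.ne (ht t htS' u huS (fun z hz zt zu => ?_))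
        have hzS := (mem_filter.1 (hS' hz)).1
        by_cases xz : X z
        · rw [fX t hx z xz, fX u xu z xz]
          have := ex z hzS xz
          grind
        · exact ⟨fun e => absurd (h.mt t htS u hu z hzS hx xu xz tu (fT t htS hx z xz e)) zu.symm,
            fun e => absurd (h.mt u hu t htS z hzS xu hx xz tu.symm (fT u hu xu z xz e)) zt.symm⟩
      · obtain ⟨p, hp', q, hq, pq, tp, tq⟩ := hp t htS'
        have isX : ∀ p ∈ S', (flip G (fun v => (X v, Low G S X v))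
            (fun p q => (¬ p.1 ∧ ¬ p.2) ∧ q.1)).Adj t p → X p := by
          intro p hp' tp
          by_contra xp
          have hpS := (mem_filter.1 (hS' hp')).1
          exact huS (h.mt t htS u hu p hpS hx xu xp tu (fT t htS hx p xp tp) ▸ hp')
        have xp := isX p hp' tp
        have xq := isX q hq tq
        have hpS := (mem_filter.1 (hS' hp')).1
        have hqS := (mem_filter.1 (hS' hq)).1
        rw [fX t hx p xp] at tp
        rw [fX t hx q xq] at tq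
        by_cases l : Low G S X t
        · exact pq (l p hpS q hqS xp xq (tp.2 l) (tq.2 l))
        · have lu : Low G S X u := by
            by_contra l'
            exact l (hl.2 l')
          have e1 := ex p hpS xp
          have e2 := ex q hqS xq
          exact pq (lu p hpS q hqS xp xq (by grind) (by grind))
    obtain ⟨p, hp', _, _, _, e, _⟩ := hp v0 hv0
    have x1 := allX v0 hv0
    have x2 := allX p hp'
    have := h.ind v0 (mem_filter.1 (hS' hv0)).1 p (mem_filter.1 (hS' hp')).1 x1 x2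
    rw [flip_adj] at e
    grind
  · refine (W_bipR hR (fun v => X v ∨ minor v) ?_).mono (by omega)
    intro a ha b hb ab
    rw [mem_sdiff] at ha hb
    have aux : ∀ a ∈ S, ∀ b ∈ S, a ∉ A → X a → G.Adj a b → ¬ (X b ∨ minor b) := by
      rintro a ha b hb haA xa ab (xb | mb)
      · exact h.ind a ha b hb xa xb ab
      · exact haA (inA2 a ha xa b hb mb ab.symm)
    by_cases xa : X a
    · exact ⟨fun _ => aux a ha.1 b hb.1 ha.2 xa ab, fun _ => Or.inl xa⟩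
    by_cases xb : X b
    · exact ⟨fun e => absurd e (aux b hb.1 a ha.1 hb.2 xb ab.symm), fun e => absurd (Or.inl xb) e⟩
    have hl := hlow a ha.1 b hb.1 xa xb ab
    constructor
    · rintro (e | e) (e' | e')
      · exact xa e
      · exact xa e
      · exact xb e'
      · exact hl.1 e.2.2 e'.2.2
    · intro e
      exact Or.inr ⟨xa, ⟨b, hb.1, xb, ab⟩,
        hl.2 (fun l => e (Or.inr ⟨xb, ⟨a, ha.1, xa, ab.symm⟩, l⟩))⟩

/-- bound -/
def cX : ℕ := J 2 (cX1 + 2) + J 4 6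

lemma tx_two {G : SimpleGraph V} {S : Finset V} {X : V → Prop} (h : TX G S X)
    {t u s r x1 x2 x3 : V} (ht : t ∈ S) (hu : u ∈ S) (hs : s ∈ S) (hr : r ∈ S)
    (h1 : x1 ∈ S) (h2 : x2 ∈ S) (h3 : x3 ∈ S) (xt : ¬ X t) (xu : ¬ X u) (xs : ¬ X s) (xr : ¬ X r)
    (X1 : X x1) (X2 : X x2) (X3 : X x3) (tu : G.Adj t u) (sr : G.Adj s r) (su : s ≠ u) (ru : r ≠ u)
    (t1 : G.Adj t x1) (t2 : G.Adj t x2) (t3 : G.Adj t x3) (d12 : x1 ≠ x2) (d13 : x1 ≠ x3)
    (d23 : x2 ≠ x3) (lu : ¬ Low G S X u) (ls : ¬ Low G S X s) (lr : ¬ Low G S X r) : False := by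
  have miss : ∀ s ∈ S, ¬ X s → s ≠ u → ∀ w ∈ S, X w → G.Adj s w → ¬ G.Adj t w →
      ∀ p ∈ S, ∀ q ∈ S, X p → X q → G.Adj t p → G.Adj t q → ¬ G.Adj s p → ¬ G.Adj s q → p = q := by
    intro s hs xs su w hw xw sw tw p hp q hq xp xq tp tq sp sq
    by_contra pq
    exact h.f23 s hs w hw p hp t ht q hq sw tp.symm tq (h.ind p hp q hq xp xq) sp
      (fun e => su (h.mt t ht s hs u hu xt xs xu e.symm tu)) sq (h.ind w hw p hp xw xp) (ns tw)
      (h.ind w hw q hq xw xq) pq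
  have main : ∀ s ∈ S, ∀ r ∈ S, ¬ X s → ¬ X r → G.Adj s r → s ≠ u → r ≠ u → ¬ Low G S X r →
      ∀ w ∈ S, X w → G.Adj s w → ¬ G.Adj t w → False := by
    intro s hs r hr xs xr sr su ru lr w hw xw sw tw
    have ms := miss s hs xs su w hw xw sw tw
    unfold Low at lr
    push Not at lr
    obtain ⟨p, hp, q, hq, xp, xq, rp, rq, pq⟩ := lr
    have sp : ¬ G.Adj s p := fun e => h.tf s hs r hr p hp sr e rp
    have sq : ¬ G.Adj s q := fun e => h.tf s hs r hr q hq sr e rq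
    obtain ⟨w', hw', xw', rw', tw'⟩ : ∃ w' ∈ S, X w' ∧ G.Adj r w' ∧ ¬ G.Adj t w' := by
      by_cases e : G.Adj t p
      · exact ⟨q, hq, xq, rq, fun e' => pq (ms p hp q hq xp xq e e' sp sq)⟩
      · exact ⟨p, hp, xp, rp, e⟩
    have mr := miss r hr xr ru w' hw' xw' rw' tw'
    have a1 := ms x1 h1 x2 h2 X1 X2 t1 t2
    have a2 := ms x1 h1 x3 h3 X1 X3 t1 t3
    have a3 := ms x2 h2 x3 h3 X2 X3 t2 t3
    have b1 := mr x1 h1 x2 h2 X1 X2 t1 t2
    have b2 := mr x1 h1 x3 h3 X1 X3 t1 t3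
    have b3 := mr x2 h2 x3 h3 X2 X3 t2 t3
    have c1 := h.tf s hs r hr x1 h1 sr
    have c2 := h.tf s hs r hr x2 h2 sr
    have c3 := h.tf s hs r hr x3 h3 sr
    clear ms mr miss
    by_cases e1 : G.Adj s x1 <;> by_cases e2 : G.Adj s x2 <;> by_cases e3 : G.Adj s x3 <;> grind
  unfold Low at lu
  push Not at lu
  obtain ⟨w, hw, _, _, xw, _, uw, _⟩ := lu
  have tw : ¬ G.Adj t w := fun e => h.tf t ht u hu w hw tu e uw
  rcases h.one s hs r hr w hw xs xr xw sr with e | e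
  · exact main s hs r hr xs xr sr su ru lr w hw xw e tw
  · exact main r hr s hs xr xs sr.symm ru su ls w hw xw e tw

lemma W_tx {G : SimpleGraph V} (hR : RF G) {S : Finset V} {X : V → Prop} (h : TX G S X) :
    W G cX S := by
  by_cases hc : (S.filter X).card ≤ 4
  · refine (W_del (k := 2) hc (W_star (fun _ => True) (fun _ _ _ _ _ => Or.inl trivial) ?_)).mono
      (by simp [cX])
    have nx : ∀ x ∈ S \ S.filter X, x ∈ S ∧ ¬ X x := by
      intro x hx
      rw [mem_sdiff] at hx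
      exact ⟨hx.1, fun e => hx.2 (mem_filter.2 ⟨hx.1, e⟩)⟩
    intro x hx y hy z hz _ xy xz
    exact h.mt x (nx x hx).1 y (nx y hy).1 z (nx z hz).1 (nx x hx).2 (nx y hy).2 (nx z hz).2 xy xz
  have three : ∀ t ∈ S, ∀ u ∈ S, ¬ X t → ¬ X u → G.Adj t u →
      2 < ((S.filter X).filter (G.Adj t)).card ∨ 2 < ((S.filter X).filter (G.Adj u)).card := by
    intro t ht u hu xt xu tu
    have : S.filter X ⊆ (S.filter X).filter (G.Adj t) ∪ (S.filter X).filter (G.Adj u) := by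
      intro x hx
      rcases h.one t ht u hu x (mem_filter.1 hx).1 xt xu (mem_filter.1 hx).2 tu with e | e
      · exact mem_union_left _ (mem_filter.2 ⟨hx, e⟩)
      · exact mem_union_right _ (mem_filter.2 ⟨hx, e⟩)
    have := (card_le_card this).trans (card_union_le _ _)
    omega
  have notboth : ∀ t ∈ S, ∀ u ∈ S, ¬ X t → ¬ X u → G.Adj t u → Low G S X t → ¬ Low G S X u := by
    intro t ht u hu xt xu tu lt lu
    have aux : ∀ t, Low G S X t → ¬ 2 < ((S.filter X).filter (G.Adj t)).card := by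
      intro t lt e
      obtain ⟨a, ha, b, hb, ab⟩ := one_lt_card.1 (by omega : 1 < ((S.filter X).filter (G.Adj t)).card)
      simp only [mem_filter] at ha hb
      exact ab (lt a ha.1.1 b hb.1.1 ha.1.2 hb.1.2 ha.2 hb.2)
    rcases three t ht u hu xt xu tu with e | e
    · exact aux t lt e
    · exact aux u lu e
  have fin : ∀ F : Finset V, F.card ≤ 2 → (∀ x ∈ F, ¬ X x) →
      (∀ s ∈ S, ∀ r ∈ S, s ∉ F → r ∉ F → ¬ X s → ¬ X r → G.Adj s r → Low G S X s ∨ Low G S X r) →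
      W G cX S := by
    intro F hF hFX hl
    refine (W_del hF (W_tx1 hR (h.mono sdiff_subset) ?_)).mono (by simp [cX])
    have el : ∀ t, Low G (S \ F) X t ↔ Low G S X t := by
      intro t
      constructor
      · intro l x hx y hy xx xy
        exact l x (mem_sdiff.2 ⟨hx, fun e => hFX x e xx⟩) y (mem_sdiff.2 ⟨hy, fun e => hFX y e xy⟩)
          xx xy
      · intro l x hx y hy
        exact l x (mem_sdiff.1 hx).1 y (mem_sdiff.1 hy).1
    intro t ht u hu xt xu tu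
    rw [mem_sdiff] at ht hu
    rw [el, el]
    exact ⟨notboth t ht.1 u hu.1 xt xu tu,
      fun e => (hl t ht.1 u hu.1 ht.2 hu.2 xt xu tu).resolve_right e⟩
  by_cases hb : ∃ t ∈ S, ∃ u ∈ S, ¬ X t ∧ ¬ X u ∧ G.Adj t u ∧ ¬ Low G S X t ∧ ¬ Low G S X u
  · obtain ⟨t, ht, u, hu, xt, xu, tu, lt, lu⟩ := hb
    refine fin {t, u} card_le_two (by simp [xt, xu]) ?_
    intro s hs r hr sF rF xs xr sr
    simp only [mem_insert, mem_singleton, not_or] at sF rF
    by_contra hh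
    push Not at hh
    rcases three t ht u hu xt xu tu with e | e
    · obtain ⟨a, ha, b, hb, c, hc, ab, ac, bc⟩ := two_lt_card.1 e
      simp only [mem_filter] at ha hb hc
      exact tx_two h ht hu hs hr ha.1.1 hb.1.1 hc.1.1 xt xu xs xr ha.1.2 hb.1.2 hc.1.2 tu sr sF.2
        rF.2 ha.2 hb.2 hc.2 ab ac bc lu hh.1 hh.2
    · obtain ⟨a, ha, b, hb, c, hc, ab, ac, bc⟩ := two_lt_card.1 e
      simp only [mem_filter] at ha hb hc
      exact tx_two h hu ht hs hr ha.1.1 hb.1.1 hc.1.1 xu xt xs xr ha.1.2 hb.1.2 hc.1.2 tu.symm sr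
        sF.1 rF.1 ha.2 hb.2 hc.2 ab ac bc lt hh.1 hh.2
  · push Not at hb
    refine fin ∅ (by simp) (by simp) ?_
    intro s hs r hr _ _ xs xr sr
    by_cases e : Low G S X s
    · exact Or.inl e
    · exact Or.inr (hb s hs r hr xs xr sr e)

end

end Pool.Agent.MP_41f2d3_co

end

section

/-! Triangle-free graphs without induced P1 + P2 + P3. -/

namespace Pool.Agent.MP_41f2d3_co

open Finset Classical

noncomputable section

variable {V : Type}

lemma B2.sw {G : SimpleGraph V} {a b c d : V} (h : B2 G a b c d) : B2 G b a d c :=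
  ⟨h.ab.symm, h.cd.symm, h.bd, h.bc, h.ad, h.ac⟩

lemma B2.s1 {G : SimpleGraph V} {a b c d : V} (h : B2 G a b c d) : B2 G b a c d :=
  ⟨h.ab.symm, h.cd, h.bc, h.bd, h.ac, h.ad⟩

lemma B2.s2 {G : SimpleGraph V} {a b c d : V} (h : B2 G a b c d) : B2 G a b d c :=
  ⟨h.ab, h.cd.symm, h.ad, h.ac, h.bd, h.bc⟩

lemma B2.ex {G : SimpleGraph V} {a b c d : V} (h : B2 G a b c d) : B2 G c d a b :=
  ⟨h.cd, h.ab, ns h.ac, ns h.bc, ns h.ad, ns h.bd⟩

lemma T4.sw {G : SimpleGraph V} {a b c d v : V} (h : T4 G a b c d v) : T4 G b a d c v :=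
  ⟨h.2.1, h.1, h.2.2.2, h.2.2.1⟩

lemma T4.s1 {G : SimpleGraph V} {a b c d v : V} (h : T4 G a b c d v) : T4 G b a c d v :=
  ⟨h.2.1, h.1, h.2.2.1, h.2.2.2⟩

lemma T4.s2 {G : SimpleGraph V} {a b c d v : V} (h : T4 G a b c d v) : T4 G a b d c v :=
  ⟨h.1, h.2.1, h.2.2.2, h.2.2.1⟩

lemma T4.ex {G : SimpleGraph V} {a b c d v : V} (h : T4 G a b c d v) : T4 G c d a b v :=
  ⟨h.2.2.1, h.2.2.2, h.1, h.2.1⟩

lemma Tw.sw {G : SimpleGraph V} {a b v : V} (h : Tw G a b v) : Tw G b a v := ⟨h.2, h.1⟩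

lemma TG.tf {G : SimpleGraph V} (h : TG G) (S : Finset V) : TF G S :=
  fun a _ b _ c _ => h a b c

lemma tx_of {G : SimpleGraph V} (hG : TG G) (hR : RF G) {a b c d : V} (h : B2 G a b c d)
    {S : Finset V} (hS : ∀ v ∈ S, T4 G a b c d v ∨ Tw G b c v) : TX G S (Tw G b c) := by
  have na : ∀ v ∈ S, ¬ G.Adj a v := by
    intro v hv e
    rcases hS v hv with t | t
    · exact t.1 e.symm
    · exact hG a b v h.ab e t.1.symm
  refine ⟨hG.tf S, fun x _ y _ hx hy e => hG x y b e hx.1 hy.1, ?_, ?_, ?_⟩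
  · intro t ht u hu v hv xt xu xv tu tv
    by_contra e
    exact k_match hG hR h ((hS t ht).resolve_right xt) ((hS u hu).resolve_right xu)
      ((hS v hv).resolve_right xv) tu tv e
  · intro t ht u hu x _ xt xu xx tu
    by_contra e
    push Not at e
    exact k_one hG hR h ((hS t ht).resolve_right xt) ((hS u hu).resolve_right xu) xx tu (ns e.1)
      (ns e.2)
  · intro p hp q hq r hr s hs t ht h1 h2 h3 h4
    exact hR a p q r s t h1 h2 h3 h4 (na p hp) (na q hq) (na r hr) (na s hs) (na t ht)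

/-- bound -/
def cTXY : ℕ := J 2 (cX + 2) + J 2 (cT + 2)

lemma W_TXY {G : SimpleGraph V} (hG : TG G) (hR : RF G) {a b c d : V} (h : B2 G a b c d)
    {S : Finset V} (hS : ∀ v ∈ S, T4 G a b c d v ∨ Tw G b c v ∨ Tw G a d v) : W G cTXY S := by
  rcases three_or_le (S.filter (Tw G a d)) with hc | ⟨y1, hy1, y2, hy2, _, _, y12, _, _⟩
  · refine (W_del hc (W_tx hR (tx_of hG hR h ?_))).mono (by simp [cTXY])
    intro v hv
    rw [mem_sdiff] at hv
    rcases hS v hv.1 with t | t | t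
    · exact Or.inl t
    · exact Or.inr t
    · exact absurd (mem_filter.2 ⟨hv.1, t⟩) hv.2
  rcases three_or_le (S.filter (Tw G b c)) with hc | ⟨x1, hx1, x2, hx2, x3, hx3, x12, x13, x23⟩
  · refine (W_del hc (W_tx hR (tx_of hG hR h.sw ?_))).mono (by simp [cTXY])
    intro v hv
    rw [mem_sdiff] at hv
    rcases hS v hv.1 with t | t | t
    · exact Or.inl t.sw
    · exact absurd (mem_filter.2 ⟨hv.1, t⟩) hv.2
    · exact Or.inr t
  replace hy1 := (mem_filter.1 hy1).2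
  replace hy2 := (mem_filter.1 hy2).2
  replace hx1 := (mem_filter.1 hx1).2
  replace hx2 := (mem_filter.1 hx2).2
  replace hx3 := (mem_filter.1 hx3).2
  have hend : ∀ t u x y, T4 G a b c d t → T4 G a b c d u → Tw G b c x → Tw G a d y → G.Adj t u →
      G.Adj t x → ¬ G.Adj t y := fun t u x y ht hu hx hy tu tx ty =>
    k_end hG hR h hx1 hx2 hx3 hy1 hy2 ht hu hx hy tu tx ty x12 x13 x23 y12
  have oneX : ∀ t u x, T4 G a b c d t → T4 G a b c d u → Tw G b c x → G.Adj t u → ¬ G.Adj t x →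
      G.Adj u x := fun t u x ht hu hx tu tx => by
    by_contra e
    exact k_one hG hR h ht hu hx tu (ns tx) (ns e)
  have oneY : ∀ t u x, T4 G a b c d t → T4 G a b c d u → Tw G a d x → G.Adj t u → ¬ G.Adj t x →
      G.Adj u x := fun t u x ht hu hx tu tx => by
    by_contra e
    exact k_one hG hR h.sw ht.sw hu.sw hx tu (ns tx) (ns e)
  let M := S.filter (fun v => T4 G a b c d v ∧ ∃ u ∈ S, T4 G a b c d u ∧ G.Adj v u)
  refine (W_join (A := M) (t := 2) (k := cT + 2) (filter_subset _ _) ?_ ?_ ?_).mono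
    (by simp [cTXY])
  · refine Ty_of_labels (fun v => G.Adj v x1) univ (by simp) (fun _ _ => Or.inr (mem_univ _)) ?_
    have char : ∀ t ∈ M, ∀ z ∈ S, z ∉ M →
        (G.Adj t z ↔ (Tw G b c z ∧ G.Adj t x1) ∨ (Tw G a d z ∧ ¬ G.Adj t x1)) := by
      intro t ht z hz hzM
      obtain ⟨htS, t4, u, hu, u4, tu⟩ := mem_filter.1 ht
      rcases hS z hz with e | e | e
      · refine ⟨fun tz => absurd (mem_filter.2 ⟨hz, e, t, htS, t4, tz.symm⟩) hzM, ?_⟩
        rintro (⟨e', _⟩ | ⟨e', _⟩)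
        · exact absurd e'.1 e.2.1
        · exact absurd e'.1 e.1
      · have ne : ¬ Tw G a d z := fun e' => hG z a b e'.1 e.1 h.ab
        constructor
        · intro tz
          refine Or.inl ⟨e, ?_⟩
          by_contra tx
          exact hend t u z y1 t4 u4 e hy1 tu tz (oneY u t y1 u4 t4 hy1 tu.symm
            (hend u t x1 y1 u4 t4 hx1 hy1 tu.symm (oneX t u x1 t4 u4 hx1 tu tx)))
        · rintro (⟨_, tx⟩ | ⟨e', _⟩)
          · by_contra tz
            exact hend t u x1 y1 t4 u4 hx1 hy1 tu tx (oneY u t y1 u4 t4 hy1 tu.symm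
              (hend u t z y1 u4 t4 e hy1 tu.symm (oneX t u z t4 u4 e tu tz)))
          · exact absurd e' ne
      · have ne : ¬ Tw G b c z := fun e' => hG z a b e.1 e'.1 h.ab
        constructor
        · intro tz
          exact Or.inr ⟨e, fun tx => hend t u x1 z t4 u4 hx1 e tu tx tz⟩
        · rintro (⟨e', _⟩ | ⟨_, tx⟩)
          · exact absurd e' ne
          · exact oneY u t z u4 t4 e tu.symm
              (hend u t x1 z u4 t4 hx1 e tu.symm (oneX t u x1 t4 u4 hx1 tu tx))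
    intro x hx y hy e z hz hzM
    rw [char x hx z hz hzM, char y hy z hz hzM, e]
  · refine (W_star (fun _ => True) (fun _ _ _ _ _ => Or.inl trivial) ?_).mono (by omega)
    intro x hx y hy z hz _ xy xz
    by_contra e
    exact k_match hG hR h (mem_filter.1 hx).2.1 (mem_filter.1 hy).2.1 (mem_filter.1 hz).2.1 xy xz e
  let col : V → Fin 3 := fun v => if Tw G b c v then 1 else if Tw G a d v then 2 else 0
  have c0 : ∀ v ∈ S \ M, col v = 0 → T4 G a b c d v := by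
    intro v hv
    simp only [col]
    split_ifs with h1 h2
    · simp
    · simp
    · exact fun _ => ((hS v (mem_sdiff.1 hv).1).resolve_right (fun e => e.elim h1 h2))
  have c1 : ∀ v, col v = 1 → Tw G b c v := by
    intro v; simp only [col]; split_ifs <;> simp [*]
  have c2 : ∀ v, col v = 2 → Tw G a d v := by
    intro v; simp only [col]; split_ifs <;> simp [*]
  have nT : ∀ t ∈ S \ M, ∀ u ∈ S \ M, col t = 0 → col u = 0 → ¬ G.Adj t u := by
    intro t ht u hu e1 e2 tu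
    exact (mem_sdiff.1 ht).2 (mem_filter.2 ⟨(mem_sdiff.1 ht).1, c0 t ht e1, u, (mem_sdiff.1 hu).1,
      c0 u hu e2, tu⟩)
  refine (W_txy hR col ?_ (hG.tf _) ?_).mono (by omega)
  · intro p hp q hq pq e
    rcases fin3_cases (col p) with e1 | e1 | e1
    · exact nT p hp q hq e1 (e ▸ e1) pq
    · exact hG p q b pq (c1 p e1).1 (c1 q (e ▸ e1)).1
    · exact hG p q a pq (c2 p e1).1 (c2 q (e ▸ e1)).1
  · intro t ht x _ y _ ct cx cy tx ty xy
    refine ⟨fun u hu cu => ⟨fun e => ?_, fun e => ?_⟩, fun w _ cw wx => ?_, fun w _ cw wy => ?_⟩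
    · by_contra e'
      exact k_r2 hG hR h (c0 u hu cu) (c0 t ht ct) (c1 x cx) (c2 y cy) e (nT u hu t ht cu ct) e'
        tx ty xy
    · by_contra e'
      exact k_r2 hG hR h.sw (c0 u hu cu).sw (c0 t ht ct).sw (c2 y cy) (c1 x cx) e
        (nT u hu t ht cu ct) e' ty tx (ns xy)
    · by_contra e
      exact k_r3 hG hR h (c0 t ht ct) (c1 x cx) (c2 y cy) (c1 w cw) tx ty xy e wx
    · by_contra e
      exact k_r3 hG hR h.sw (c0 t ht ct).sw (c2 y cy) (c1 x cx) (c2 w cw) ty tx (ns xy) e wy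

lemma W_big2 {G : SimpleGraph V} (hG : TG G) (hR : RF G) {a b c d : V} (h : B2 G a b c d)
    {S : Finset V} (hS : ∀ v ∈ S, T4 G a b c d v ∨ Tw G b c v ∨ Tw G a d v ∨ Tw G a c v ∨
      Tw G b d v) (h1 : 2 < (S.filter (Tw G b c)).card) (h2 : 2 < (S.filter (Tw G a c)).card) :
    W G 96 S := by
  obtain ⟨x1, hx1, x2, hx2, x3, hx3, x12, x13, x23⟩ := two_lt_card.1 h1
  obtain ⟨b1, hb1, b2, hb2, b3, hb3, b12, b13, b23⟩ := two_lt_card.1 h2
  replace hb1 := (mem_filter.1 hb1).2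
  replace hb2 := (mem_filter.1 hb2).2
  replace hb3 := (mem_filter.1 hb3).2
  replace hx1 := (mem_filter.1 hx1).2
  replace hx2 := (mem_filter.1 hx2).2
  replace hx3 := (mem_filter.1 hx3).2
  have tb : ∀ t x w, T4 G a b c d t → Tw G b c x → Tw G a c w → (G.Adj t x ↔ G.Adj t w) := by
    intro t x w ht hx hw
    constructor
    · intro e
      by_contra e'
      exact k_tb hG hR h hx1 hx2 hx3 hb1 hb2 hb3 ht hx hw e e' x12 x13 x23 b12 b13 b23
    · intro e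
      by_contra e'
      exact k_bt hG hR h hx1 hx2 hx3 hb1 hb2 hb3 ht hx hw e e' x12 x13 x23 b12 b13 b23
  let lab : V → Prop × Prop × Prop × Prop × Prop :=
    fun v => (G.Adj v a, G.Adj v b, G.Adj v c, G.Adj v d, G.Adj v x1)
  let φ : Prop × Prop × Prop × Prop × Prop → Prop × Prop × Prop × Prop × Prop → Prop :=
    fun p q => (¬ p.1 ∧ ¬ p.2.1 ∧ p.2.2.2.2 ∧ q.2.2.1) ∨ (p.2.1 ∧ p.2.2.1 ∧ q.1 ∧ q.2.2.2.1) ∨
      (p.1 ∧ p.2.2.1 ∧ q.2.1 ∧ q.2.2.2.1)
  have key : ∀ u ∈ S, ∀ v ∈ S, (flip G lab φ).Adj u v →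
      (T4 G a b c d u ∧ T4 G a b c d v ∧ G.Adj u v) ∨
      (Tw G b c u ∧ Tw G a d v ∧ ¬ G.Adj u v) ∨ (Tw G a d u ∧ Tw G b c v ∧ ¬ G.Adj u v) ∨
      (Tw G a c u ∧ Tw G b d v ∧ ¬ G.Adj u v) ∨ (Tw G b d u ∧ Tw G a c v ∧ ¬ G.Adj u v) := by
    have aux : ∀ u, ∀ v ∈ S, T4 G a b c d u → ¬ T4 G a b c d v →
        (G.Adj u v ↔ G.Adj u x1 ∧ G.Adj v c) := by
      intro u v hv hu nv
      rcases hS v hv with t | t | t | t | t
      · exact absurd t nv
      · rw [tb u v b1 hu t hb1, tb u x1 b1 hu hx1 hb1]; simp [t.2]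
      · exact ⟨fun e => (k_ty hG hR h hx1 hx2 hx3 hb1 hb2 hb3 hu t e x12 x13 x23 b12 b13 b23).elim,
          fun e => (hG v c d e.2 t.2 h.cd).elim⟩
      · rw [tb u x1 v hu hx1 t]; simp [t.2]
      · exact ⟨fun e => (k_td hG hR h hx1 hx2 hx3 hb1 hb2 hb3 hu t e x12 x13 x23 b12 b13 b23).elim,
          fun e => (hG v c d e.2 t.2 h.cd).elim⟩
    intro u hu v hv e
    rw [flip_adj] at e
    have i1 := aux u v hv
    have i2 := aux v u hu
    have i3 := hS u hu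
    have i4 := hS v hv
    have j1 := fun e1 e2 => hG u a b e1 e2 h.ab
    have j2 := fun e1 e2 => hG v a b e1 e2 h.ab
    have j3 := fun e1 e2 => hG u c d e1 e2 h.cd
    have j4 := fun e1 e2 => hG v c d e1 e2 h.cd
    have k1 := hG u v a
    have k2 := hG u v b
    have k3 := hG u v c
    have k4 := hG u v d
    rw [G.adj_comm v u] at i2
    simp only [lab, φ, T4, Tw] at e i1 i2 i3 i4 ⊢
    clear aux tb hS hG hR h1 h2
    replace e := e.2
    generalize G.Adj u v = E at *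
    rcases i3 with t | t | t | t | t <;> rcases i4 with s | s | s | s | s <;>
      by_cases hE : E <;> grind
  have := W_flip (G := G) lab φ (k := 2) (S := S)
    (W_star (fun _ => True) (fun _ _ _ _ _ => Or.inl trivial) ?_)
  · exact this.mono (by simp)
  intro u hu v hv w hw _ uv uw
  by_contra ne
  have j1 := fun e1 e2 => hG u a b e1 e2 h.ab
  have j3 := fun e1 e2 => hG u c d e1 e2 h.cd
  rcases key u hu v hv uv with ⟨p1, p2, p3⟩ | ⟨p1, p2, p3⟩ | ⟨p1, p2, p3⟩ | ⟨p1, p2, p3⟩ |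
      ⟨p1, p2, p3⟩ <;>
    rcases key u hu w hw uw with ⟨q1, q2, q3⟩ | ⟨q1, q2, q3⟩ | ⟨q1, q2, q3⟩ | ⟨q1, q2, q3⟩ |
      ⟨q1, q2, q3⟩ <;>
    first
    | exact k_match hG hR h p1 p2 q2 p3 q3 ne
    | exact k_xyy hG hR h hb1 p1 q2 p2 p3 q3 ne
    | exact k_xxy hG hR h hb1 p2 q2 p1 p3 q3 ne
    | exact k_xyy hG hR h.s1 hx1 p1 q2 p2 p3 q3 ne
    | exact k_xxy hG hR h.s1 hx1 p2 q2 p1 p3 q3 ne
    | exact p1.1 q1.1
    | exact p1.2.1 q1.1
    | exact q1.1 p1.1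
    | exact q1.2.1 p1.1
    | exact j1 p1.1 q1.1
    | exact j1 q1.1 p1.1
    | exact j3 p1.2 q1.2
    | exact j3 q1.2 p1.2

lemma single_card {G : SimpleGraph V} (hG : TG G) (hR : RF G) {a b c d z : V} (h : B2 G a b c d)
    (hz : T4 G a b c d z) (S : Finset V) :
    (S.filter (fun v => G.Adj v a ∧ ¬ G.Adj v c ∧ ¬ G.Adj v d)).card ≤ 2 := by
  rcases three_or_le (S.filter (fun v => G.Adj v a ∧ ¬ G.Adj v c ∧ ¬ G.Adj v d)) with
    hc | ⟨u, hu, v, hv, w, hw, uv, uw, vw⟩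
  · exact hc
  exfalso
  have key : ∀ v w, (G.Adj v a ∧ ¬ G.Adj v c ∧ ¬ G.Adj v d) →
      (G.Adj w a ∧ ¬ G.Adj w c ∧ ¬ G.Adj w d) → v ≠ w → v ≠ b → w ≠ b → False :=
    fun v w p q => k_single hG hR h hz p.1 q.1 p.2.1 p.2.2 q.2.1 q.2.2
  replace hu := (mem_filter.1 hu).2
  replace hv := (mem_filter.1 hv).2
  replace hw := (mem_filter.1 hw).2
  by_cases e1 : u = b
  · exact key v w hv hw vw (fun e => uv (e1.trans e.symm)) (fun e => uw (e1.trans e.symm))
  by_cases e2 : v = b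
  · exact key u w hu hw uw e1 (fun e => vw (e2.trans e.symm))
  · exact key u v hu hv uv e1 e2

/-- bound -/
def cK : ℕ := cP + J 8 (J 4 (cTXY + 4) + 96 + 8)

theorem W_K3G {G : SimpleGraph V} (hG : TG G) (hR : RF G) (S : Finset V) : W G cK S := by
  by_cases hQ : QF G S
  · exact (W_QF (fun a b c _ ab ac _ bc _ _ => (hG a b c ab ac bc).elim) hQ).mono (by simp [cK])
  unfold QF at hQ
  push Not at hQ
  obtain ⟨a, _, b, _, c, _, d, _, z, _, ab, cd, ac, ad, bc, bd, za, zb, zc, zd, _⟩ := hQ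
  have h : B2 G a b c d := ⟨ab, cd, ac, ad, bc, bd⟩
  have hz : T4 G a b c d z := ⟨za, zb, zc, zd⟩
  let F := (S.filter (fun v => G.Adj v a ∧ ¬ G.Adj v c ∧ ¬ G.Adj v d) ∪
    S.filter (fun v => G.Adj v b ∧ ¬ G.Adj v c ∧ ¬ G.Adj v d)) ∪
    (S.filter (fun v => G.Adj v c ∧ ¬ G.Adj v a ∧ ¬ G.Adj v b) ∪
    S.filter (fun v => G.Adj v d ∧ ¬ G.Adj v a ∧ ¬ G.Adj v b))
  have hF : F.card ≤ 8 := by
    have h1 := single_card hG hR h hz S
    have h2 := single_card hG hR h.s1 hz.s1 S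
    have h3 := single_card hG hR h.ex hz.ex S
    have h4 := single_card hG hR h.s2.ex hz.s2.ex S
    refine (card_union_le _ _).trans ?_
    exact (Nat.add_le_add (card_union_le _ _) (card_union_le _ _)).trans (by omega)
  refine (W_del (k := J 4 (cTXY + 4) + 96) hF ?_).mono (by simp [cK])
  have hS : ∀ v ∈ S \ F, T4 G a b c d v ∨ Tw G b c v ∨ Tw G a d v ∨ Tw G a c v ∨ Tw G b d v := by
    intro v hv
    rw [mem_sdiff] at hv
    have h1 := hv.1
    have h2 := hv.2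
    simp only [F, mem_union, mem_filter, h1, true_and] at h2
    simp only [T4, Tw]
    clear hv hF
    by_cases e1 : G.Adj v a <;> by_cases e2 : G.Adj v b <;> by_cases e3 : G.Adj v c <;>
      by_cases e4 : G.Adj v d <;> simp [e1, e2, e3, e4] at h2 ⊢
  generalize S \ F = S' at hS
  by_cases s1 : (S'.filter (Tw G a c)).card ≤ 2 ∧ (S'.filter (Tw G b d)).card ≤ 2
  · refine (W_del (F := S'.filter (Tw G a c) ∪ S'.filter (Tw G b d)) (t := 4)
      ((card_union_le _ _).trans (by omega)) (W_TXY hG hR h ?_)).mono (by omega)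
    intro v hv
    simp only [mem_sdiff, mem_union, mem_filter, not_or, not_and] at hv
    rcases hS v hv.1 with t | t | t | t | t
    · exact Or.inl t
    · exact Or.inr (Or.inl t)
    · exact Or.inr (Or.inr t)
    · exact absurd t (hv.2.1 hv.1)
    · exact absurd t (hv.2.2 hv.1)
  by_cases s2 : (S'.filter (Tw G b c)).card ≤ 2 ∧ (S'.filter (Tw G a d)).card ≤ 2
  · refine (W_del (F := S'.filter (Tw G b c) ∪ S'.filter (Tw G a d)) (t := 4)
      ((card_union_le _ _).trans (by omega)) (W_TXY hG hR h.s1 ?_)).mono (by omega)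
    intro v hv
    simp only [mem_sdiff, mem_union, mem_filter, not_or, not_and] at hv
    rcases hS v hv.1 with t | t | t | t | t
    · exact Or.inl t.s1
    · exact absurd t (hv.2.1 hv.1)
    · exact absurd t (hv.2.2 hv.1)
    · exact Or.inr (Or.inl t)
    · exact Or.inr (Or.inr t)
  have sw : ∀ p q, S'.filter (Tw G p q) = S'.filter (Tw G q p) :=
    fun p q => filter_congr (fun _ _ => ⟨Tw.sw, Tw.sw⟩)
  rw [not_and_or, not_le, not_le] at s1 s2
  refine W.mono (k := 96) ?_ (by omega)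
  rcases s1 with s1 | s1 <;> rcases s2 with s2 | s2
  · exact W_big2 hG hR h hS s2 s1
  · refine W_big2 hG hR h.ex ?_ (sw a d ▸ s2) (sw a c ▸ s1)
    intro v hv
    rcases hS v hv with t | t | t | t | t
    · exact Or.inl t.ex
    · exact Or.inr (Or.inr (Or.inl t.sw))
    · exact Or.inr (Or.inl t.sw)
    · exact Or.inr (Or.inr (Or.inr (Or.inl t.sw)))
    · exact Or.inr (Or.inr (Or.inr (Or.inr t.sw)))
  · refine W_big2 hG hR h.s1.ex ?_ (sw b d ▸ s1) (sw b c ▸ s2)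
    intro v hv
    rcases hS v hv with t | t | t | t | t
    · exact Or.inl t.s1.ex
    · exact Or.inr (Or.inr (Or.inr (Or.inl t.sw)))
    · exact Or.inr (Or.inr (Or.inr (Or.inr t.sw)))
    · exact Or.inr (Or.inr (Or.inl t.sw))
    · exact Or.inr (Or.inl t.sw)
  · refine W_big2 hG hR h.s2 ?_ s1 s2
    intro v hv
    rcases hS v hv with t | t | t | t | t
    · exact Or.inl t.s2
    · exact Or.inr (Or.inr (Or.inr (Or.inr t)))
    · exact Or.inr (Or.inr (Or.inr (Or.inl t)))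
    · exact Or.inr (Or.inr (Or.inl t))
    · exact Or.inr (Or.inl t)

theorem W_K3R {G : SimpleGraph V} (hR : RF G) {S : Finset V} (hT : TF G S) : W G cK S := by
  have h := W_K3G (G := G.comap (Function.Embedding.subtype (fun x => x ∈ S)))
    (fun a b c => hT a a.2 b b.2 c c.2)
    (fun z a b c d e h1 h2 h3 h4 h5 h6 h7 h8 h9 h10 h11 h12 h13 h14 h15 h16 =>
      hR z a b c d e h1 h2 h3 h4 h5 h6 h7 h8 h9 h10 h11 h12 h13 h14 h15
        (fun e => h16 (Subtype.ext e))) S.attach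
  have h2 := W_of_comap _ h
  rw [attach_map_val] at h2
  exact h2

end

end Pool.Agent.MP_41f2d3_co

end

section

/-! Local lemmas for three independent classes without independent transversal. -/

namespace Pool.Agent.MP_41f2d3_co

variable {V : Type}

/-- no induced P3 + P2 with the centre of the P3 in `P` -/
def P23 (G : SimpleGraph V) (P Q : V → Prop) : Prop :=
  ∀ ⦃x x' y y' y''⦄, P x → P x' → Q y → Q y' → Q y'' → G.Adj x y → G.Adj x y' → G.Adj x' y'' →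
    ¬ G.Adj x' y → ¬ G.Adj x' y' → ¬ G.Adj x y'' → y ≠ y' → False

/-- three independent classes -/
structure Tri3 (G : SimpleGraph V) (D A B : V → Prop) : Prop where
  iD : ∀ {x y}, D x → D y → ¬ G.Adj x y
  iA : ∀ {x y}, A x → A y → ¬ G.Adj x y
  iB : ∀ {x y}, B x → B y → ¬ G.Adj x y
  nDA : ∀ {x y}, D x → A y → x ≠ y
  nAB : ∀ {x y}, A x → B y → x ≠ y
  nBD : ∀ {x y}, B x → D y → x ≠ y
  rb : ∀ {x y z}, D x → A y → B z → ¬ G.Adj x y → ¬ G.Adj x z → ¬ G.Adj y z → False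
  pDA : P23 G D A
  pAD : P23 G A D
  pAB : P23 G A B
  pBA : P23 G B A
  pBD : P23 G B D
  pDB : P23 G D B

/-- a triangle meeting the three classes -/
structure Tr (G : SimpleGraph V) (D A B : V → Prop) (d a b : V) : Prop where
  hd : D d
  ha : A a
  hb : B b
  da : G.Adj d a
  ab : G.Adj a b
  db : G.Adj d b

set_option linter.unusedVariables false

lemma c1a {G : SimpleGraph V} (hD : DF G) {D A B : V → Prop} (h : Tri3 G D A B) {d a b : V}
    (t : Tr G D A B d a b) {x y : V}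
    (hx : D x) (hy : B y) (a0 : G.Adj x a) (a1 : G.Adj y x)
    (a2 : G.Adj y d) (a3 : G.Adj y a) (n0 : ¬ G.Adj x b) : False := by
  have t1 : b ≠ y := fun hc => eqa hc.symm a1 (ns n0)
  exact (h.iB t.hb hy) (hD d a b y t.da t.db a2.symm t.ab a3.symm t1)

lemma c1b {G : SimpleGraph V} (hD : DF G) {D A B : V → Prop} (h : Tri3 G D A B) {d a b : V}
    (t : Tr G D A B d a b) {x y w : V}
    (hx : D x) (hy : B y) (hw : A w) (a0 : G.Adj x a)
    (a1 : G.Adj y x) (a2 : G.Adj y d) (a3 : G.Adj y w) (a4 : G.Adj w d)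
    (n0 : ¬ G.Adj x b) (n1 : ¬ G.Adj w b) : False := by
  have t1 : G.Adj x w := Classical.byContradiction fun hc => h.rb hx hw t.hb hc n0 n1
  have t2 : d ≠ x := fun hc => eqa hc t.db n0
  exact (h.iD t.hd hx) (hD y w d x a3 a2 a1 a4 t1.symm t2)

lemma c1c {G : SimpleGraph V} (hD : DF G) {D A B : V → Prop} (h : Tri3 G D A B) {d a b : V}
    (t : Tr G D A B d a b) {x y w v : V}
    (hx : D x) (hy : B y) (hw : A w) (hv : D v)
    (a0 : G.Adj x a) (a1 : G.Adj y x) (a2 : G.Adj y d) (a3 : G.Adj y w)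
    (a4 : G.Adj v w) (n0 : ¬ G.Adj x b) (n1 : ¬ G.Adj w b) (n2 : ¬ G.Adj v a) : False := by
  have t1 : G.Adj x w := Classical.byContradiction fun hc => h.rb hx hw t.hb hc n0 n1
  have t2 : b ≠ y := fun hc => eqa hc.symm a1 (ns n0)
  have t3 : x ≠ v := fun hc => eqa hc a0 n2
  have t4 : ¬ G.Adj a y := fun hc => (h.iB t.hb hy) (hD d a b y t.da t.db a2.symm t.ab hc t2)
  have t5 : ¬ G.Adj y v := fun hc => (h.iD hx hv) (hD y w x v a3 a1 hc t1.symm a4.symm t3)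
  exact h.rb hv t.ha hy n2 (ns t5) t4

lemma c1d1 {G : SimpleGraph V} (hD : DF G) {D A B : V → Prop} (h : Tri3 G D A B) {d a b : V}
    (t : Tr G D A B d a b) {x y : V}
    (hx : D x) (hy : A y) (a0 : G.Adj x a) (a1 : G.Adj y d)
    (n0 : ¬ G.Adj x b) (n1 : ¬ G.Adj x y) : False := by
  have t1 : G.Adj b y := Classical.byContradiction fun hc => h.rb hx hy t.hb n1 n0 (ns hc)
  have t2 : a ≠ y := fun hc => eqa hc a0.symm (ns n1)
  exact (h.iA t.ha hy) (hD d b a y t.db t.da a1.symm t.ab.symm t1 t2)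

lemma c1d2 {G : SimpleGraph V} (hD : DF G) {D A B : V → Prop} (h : Tri3 G D A B) {d a b : V}
    (t : Tr G D A B d a b) {x y w : V}
    (hx : D x) (hy : A y) (hw : D w) (a0 : G.Adj x a)
    (a1 : G.Adj y w) (n0 : ¬ G.Adj x b) (n1 : ¬ G.Adj x y) (n2 : ¬ G.Adj w a) : False := by
  have t1 : G.Adj b y := Classical.byContradiction fun hc => h.rb hx hy t.hb n1 n0 (ns hc)
  have t2 : d ≠ x := fun hc => eqa hc t.db n0
  have t3 : a ≠ y := fun hc => eqa hc a0.symm (ns n1)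
  have t4 : G.Adj d y := Classical.byContradiction fun hc => h.pAD t.ha hy t.hd hx hw t.da.symm a0.symm a1 (ns hc) (ns n1) (ns n2) t2
  exact (h.iA t.ha hy) (hD d b a y t.db t.da t4 t.ab.symm t1 t3)

lemma c1e1 {G : SimpleGraph V} (hD : DF G) {D A B : V → Prop} (h : Tri3 G D A B) {d a b : V}
    (t : Tr G D A B d a b) {x y p q : V}
    (hx : D x) (hy : A y) (hp : D p) (hq : A q)
    (a0 : G.Adj x a) (a1 : G.Adj x y) (a2 : G.Adj p q) (n0 : ¬ G.Adj x b)
    (n1 : ¬ G.Adj x q) (n2 : ¬ G.Adj p y) (n3 : ¬ G.Adj y b) : False := by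
  have t1 : G.Adj b q := Classical.byContradiction fun hc => h.rb hx hq t.hb n1 n0 (ns hc)
  have t2 : G.Adj b p := Classical.byContradiction fun hc => h.rb hp hy t.hb n2 (ns hc) n3
  have t3 : a ≠ y := fun hc => eqa hc t.ab n3
  have t4 : a ≠ q := fun hc => eqa hc a0.symm (ns n1)
  have t5 : G.Adj a p := Classical.byContradiction fun hc => h.pDA hx hp t.ha hy hq a0 a1 a2 (ns hc) n2 n1 t3
  exact (h.iA t.ha hq) (hD b p a q t2 t.ab.symm t1 t5.symm a2 t4)

lemma c1e2 {G : SimpleGraph V} (hD : DF G) {D A B : V → Prop} (h : Tri3 G D A B) {d a b : V}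
    (t : Tr G D A B d a b) {x y p q : V}
    (hx : D x) (hy : A y) (hp : D p) (hq : A q)
    (a0 : G.Adj x a) (a1 : G.Adj x y) (a2 : G.Adj p q) (a3 : G.Adj y d)
    (n0 : ¬ G.Adj x b) (n1 : ¬ G.Adj x q) (n2 : ¬ G.Adj p y) : False := by
  have t1 : G.Adj b q := Classical.byContradiction fun hc => h.rb hx hq t.hb n1 n0 (ns hc)
  have t2 : d ≠ x := fun hc => eqa hc t.db n0
  have t3 : a ≠ q := fun hc => eqa hc a0.symm (ns n1)
  have t4 : G.Adj d q := Classical.byContradiction fun hc => h.pAD hy hq t.hd hx hp a3 a1.symm a2.symm (ns hc) (ns n1) (ns n2) t2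
  exact (h.iA t.ha hq) (hD d b a q t.db t.da t4 t.ab.symm t1 t3)

lemma c1e3 {G : SimpleGraph V} (hD : DF G) {D A B : V → Prop} (h : Tri3 G D A B) {d a b : V}
    (t : Tr G D A B d a b) {x y p q w : V}
    (hx : D x) (hy : A y) (hp : D p) (hq : A q)
    (hw : D w) (a0 : G.Adj x a) (a1 : G.Adj x y) (a2 : G.Adj p q)
    (a3 : G.Adj y w) (n0 : ¬ G.Adj x b) (n1 : ¬ G.Adj x q) (n2 : ¬ G.Adj p y)
    (n3 : ¬ G.Adj w a) : False := by
  have t1 : G.Adj b q := Classical.byContradiction fun hc => h.rb hx hq t.hb n1 n0 (ns hc)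
  have t2 : d ≠ x := fun hc => eqa hc t.db n0
  have t3 : a ≠ q := fun hc => eqa hc a0.symm (ns n1)
  have t4 : x ≠ w := fun hc => eqa hc a0 n3
  have t5 : G.Adj q w := Classical.byContradiction fun hc => h.pAD hy hq hx hw hp a1.symm a3 a2.symm (ns n1) hc (ns n2) t4
  have t6 : G.Adj d q := Classical.byContradiction fun hc => h.pAD t.ha hq t.hd hx hw t.da.symm a0.symm t5 (ns hc) (ns n1) (ns n3) t2
  exact (h.iA t.ha hq) (hD d b a q t.db t.da t6 t.ab.symm t1 t3)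

lemma c2a1 {G : SimpleGraph V} (hD : DF G) {D A B : V → Prop} (h : Tri3 G D A B) {d a b : V}
    (t : Tr G D A B d a b) {y x z : V}
    (hy : B y) (hx : D x) (hz : A z) (a0 : G.Adj x y)
    (a1 : G.Adj x a) (a2 : G.Adj z y) (a3 : G.Adj z b) (a4 : G.Adj z d)
    (n0 : ¬ G.Adj y d) (n1 : ¬ G.Adj y a) (n2 : ¬ G.Adj x b) : False := by
  have t1 : a ≠ z := fun hc => eqa hc.symm a2 (ns n1)
  exact (h.iA t.ha hz) (hD d b a z t.db t.da a4.symm t.ab.symm a3.symm t1)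

lemma c2a2 {G : SimpleGraph V} (hD : DF G) {D A B : V → Prop} (h : Tri3 G D A B) {d a b : V}
    (t : Tr G D A B d a b) {y x z w : V}
    (hy : B y) (hx : D x) (hz : A z) (hw : D w)
    (a0 : G.Adj x y) (a1 : G.Adj x a) (a2 : G.Adj z y) (a3 : G.Adj z b)
    (a4 : G.Adj z w) (n0 : ¬ G.Adj y d) (n1 : ¬ G.Adj y a) (n2 : ¬ G.Adj x b)
    (n3 : ¬ G.Adj w a) : False := by
  have t1 : G.Adj y w := Classical.byContradiction fun hc => h.rb hw t.ha hy n3 (ns hc) (ns n1)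
  have t2 : d ≠ x := fun hc => eqa hc t.db n2
  have t3 : a ≠ z := fun hc => eqa hc.symm a2 (ns n1)
  have t4 : x ≠ w := fun hc => eqa hc a1 n3
  have t5 : ¬ G.Adj d z := fun hc => (h.iA t.ha hz) (hD d b a z t.db t.da hc t.ab.symm a3.symm t3)
  have t6 : G.Adj x z := Classical.byContradiction fun hc => h.pAD t.ha hz t.hd hx hw t.da.symm a1.symm a4 (ns t5) (ns hc) (ns n3) t2
  exact (h.iD hx hw) (hD y z x w a2.symm a0.symm t1 t6.symm a4 t4)

lemma c2b1 {G : SimpleGraph V} (hD : DF G) {D A B : V → Prop} (h : Tri3 G D A B) {d a b : V}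
    (t : Tr G D A B d a b) {y x z p q : V}
    (hy : B y) (hx : D x) (hz : D z) (hp : B p)
    (hq : D q) (a0 : G.Adj x y) (a1 : G.Adj x a) (a2 : G.Adj y z)
    (a3 : G.Adj p q) (n0 : ¬ G.Adj y d) (n1 : ¬ G.Adj y a) (n2 : ¬ G.Adj x b)
    (n3 : ¬ G.Adj y q) (n4 : ¬ G.Adj p z) (d0 : z ≠ x) : False := by
  have t1 : G.Adj b z := Classical.byContradiction fun hc => h.pBD hy t.hb hx hz t.hd a0.symm a2 t.db.symm (ns n2) hc n0 (Ne.symm d0)
  have t2 : G.Adj x p := Classical.byContradiction fun hc => h.pBD hy hp hx hz hq a0.symm a2 a3 (ns hc) n4 n3 (Ne.symm d0)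
  have t3 : d ≠ z := fun hc => eqa hc.symm a2.symm (ns n0)
  have t4 : y ≠ p := fun hc => eqa hc a2 n4
  have t5 : b ≠ p := fun hc => eqa hc.symm t2.symm (ns n2)
  have t6 : G.Adj d p := Classical.byContradiction fun hc => h.pDB hx t.hd hy hp t.hb a0 t2 t.db (ns n0) hc n2 t4
  have t7 : ¬ G.Adj a p := fun hc => (h.iB t.hb hp) (hD d a b p t.da t.db t6 t.ab hc t5)
  have t8 : ¬ G.Adj a z := fun hc => (h.iD t.hd hz) (hD a b d z t.ab t.da.symm hc t.db.symm t1 t3)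
  exact h.rb hz t.ha hp (ns t8) (ns n4) t7

lemma c2b2 {G : SimpleGraph V} (hD : DF G) {D A B : V → Prop} (h : Tri3 G D A B) {d a b : V}
    (t : Tr G D A B d a b) {y x p : V}
    (hy : B y) (hx : D x) (hp : B p) (a0 : G.Adj x y)
    (a1 : G.Adj x a) (a2 : G.Adj x p) (n0 : ¬ G.Adj y d) (n1 : ¬ G.Adj y a)
    (n2 : ¬ G.Adj x b) (n3 : ¬ G.Adj p d) (d0 : p ≠ y) : False := by
  exact h.pDB hx t.hd hy hp t.hb a0 a2 t.db (ns n0) (ns n3) n2 (Ne.symm d0)

end Pool.Agent.MP_41f2d3_co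

end

section

/-! Three independent classes without independent transversal have bounded width. -/

namespace Pool.Agent.MP_41f2d3_co

open Finset Classical

noncomputable section

variable {V : Type} {G : SimpleGraph V} {D A B : V → Prop} {d a b : V}

lemma Tri3.rot (h : Tri3 G D A B) : Tri3 G A B D :=
  ⟨h.iA, h.iB, h.iD, h.nAB, h.nBD, h.nDA,
    fun hx hy hz n1 n2 n3 => h.rb hz hx hy (ns n2) (ns n3) n1,
    h.pAB, h.pBA, h.pBD, h.pDB, h.pDA, h.pAD⟩

lemma Tri3.sw (h : Tri3 G D A B) : Tri3 G D B A :=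
  ⟨h.iD, h.iB, h.iA, fun hx hy => (h.nBD hy hx).symm, fun hx hy => (h.nAB hy hx).symm,
    fun hx hy => (h.nDA hy hx).symm,
    fun hx hy hz n1 n2 n3 => h.rb hx hz hy n2 n1 (ns n3),
    h.pDB, h.pBD, h.pBA, h.pAB, h.pAD, h.pDA⟩

lemma Tr.rot (t : Tr G D A B d a b) : Tr G A B D a b d :=
  ⟨t.ha, t.hb, t.hd, t.ab, t.db.symm, t.da.symm⟩

lemma Tr.sw (t : Tr G D A B d a b) : Tr G D B A d b a :=
  ⟨t.hd, t.hb, t.ha, t.db, t.ab.symm, t.da⟩

/-- the edge `x y` lies in an induced pair of edges -/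
def K2 (G : SimpleGraph V) (P Q : V → Prop) (x y : V) : Prop :=
  ∃ x' y', P x' ∧ Q y' ∧ G.Adj x' y' ∧ ¬ G.Adj x y' ∧ ¬ G.Adj x' y

/-- the non-edge `x y` lies in an induced pair of edges -/
def N2 (G : SimpleGraph V) (P Q : V → Prop) (x y : V) : Prop :=
  ∃ x' y', P x' ∧ Q y' ∧ G.Adj x y' ∧ G.Adj x' y ∧ ¬ G.Adj x' y'

/-- strong arcs between two consecutive classes -/
def Arc (G : SimpleGraph V) (P Q : V → Prop) (y x : V) : Prop :=
  (P y ∧ Q x ∧ G.Adj y x) ∨ (P x ∧ Q y ∧ G.Adj x y ∧ K2 G P Q x y) ∨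
    (P x ∧ Q y ∧ ¬ G.Adj x y ∧ ¬ N2 G P Q x y)

lemma Arc.rev {P Q : V → Prop} {x y : V} (h : Arc G P Q y x) : Arc G Q P x y := by
  rcases h with ⟨h1, h2, h3⟩ | ⟨h1, h2, h3, x', y', k1, k2, k3, k4, k5⟩ | ⟨h1, h2, h3, h4⟩
  · exact Or.inl ⟨h2, h1, h3.symm⟩
  · exact Or.inr (Or.inl ⟨h2, h1, h3.symm, y', x', k2, k1, k3.symm, ns k5, ns k4⟩)
  · refine Or.inr (Or.inr ⟨h2, h1, ns h3, ?_⟩)
    rintro ⟨y', x', k1, k2, k3, k4, k5⟩
    exact h4 ⟨x', y', k2, k1, k4.symm, k3.symm, ns k5⟩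

/-- closed under predecessors -/
def UC (G : SimpleGraph V) (D A B : V → Prop) (U : V → Prop) : Prop :=
  ∀ x y, U x → (Arc G D A y x ∨ Arc G A B y x ∨ Arc G B D y x) → U y

lemma UC.rot {U : V → Prop} (h : UC G D A B U) : UC G A B D U :=
  fun x y hx e => h x y hx (e.elim (fun e => Or.inr (Or.inl e))
    (fun e => e.elim (fun e => Or.inr (Or.inr e)) Or.inl))

lemma UC.compl {L : V → Prop} (h : UC G D B A L) : UC G D A B (fun v => ¬ L v) := by
  intro x y hx e hy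
  refine hx (h y x hy ?_)
  rcases e with e | e | e
  · exact Or.inr (Or.inr e.rev)
  · exact Or.inr (Or.inl e.rev)
  · exact Or.inl e.rev

lemma back_eq (h : Tri3 G D A B) {U : V → Prop} (hU : UC G D A B U) {x1 x2 y1 y2 : V}
    (d1 : D x1) (d2 : D x2) (a1 : A y1) (a2 : A y2) (u1 : U x1) (u2 : U x2) (n1 : ¬ U y1)
    (n2 : ¬ U y2) (e1 : ¬ G.Adj x1 y1) (e2 : ¬ G.Adj x2 y2) : ¬ G.Adj x2 y1 := by
  intro e
  have get : ∀ x y, D x → A y → U x → ¬ U y → ¬ G.Adj x y →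
      ∃ x' y', D x' ∧ A y' ∧ G.Adj x y' ∧ G.Adj x' y ∧ ¬ G.Adj x' y' ∧ U y' ∧ ¬ U x' := by
    intro x y dx ay ux ny nxy
    have : N2 G D A x y := by
      by_contra hh
      exact ny (hU x y ux (Or.inl (Or.inr (Or.inr ⟨dx, ay, nxy, hh⟩))))
    obtain ⟨x', y', k1, k2, k3, k4, k5⟩ := this
    refine ⟨x', y', k1, k2, k3, k4, k5,
      hU x y' ux (Or.inl (Or.inr (Or.inl ⟨dx, k2, k3, x', y, k1, ay, k4, nxy, k5⟩))), fun u => ?_⟩
    exact ny (hU x' y u (Or.inl (Or.inr (Or.inl ⟨k1, ay, k4, x, y', dx, k2, k3, k5, nxy⟩))))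
  obtain ⟨p1, q1, k1, k2, k3, k4, k5, k6, _⟩ := get x1 y1 d1 a1 u1 n1 e1
  obtain ⟨p2, q2, l1, _, _, l4, _, _, l7⟩ := get x2 y2 d2 a2 u2 n2 e2
  have nk : ¬ K2 G D A x2 y1 := fun k => n1 (hU x2 y1 u2 (Or.inl (Or.inr (Or.inl ⟨d2, a1, e, k⟩))))
  have f1 : G.Adj p2 y1 := by
    by_contra hh
    exact nk ⟨p2, y2, l1, a2, l4, e2, hh⟩
  by_cases ep : p1 = p2
  · subst ep
    refine h.pDA k1 d1 a1 a2 k2 k4 l4 k3 e1 (fun hh => nk ⟨x1, y2, d1, a2, hh, e2, e1⟩) k5 ?_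
    exact fun hh => e2 (hh ▸ e)
  · refine h.pAD a1 k2 k1 l1 d1 k4.symm f1.symm k3.symm (ns k5) (fun hh => ?_) (ns e1) ep
    exact l7 (hU q1 p2 k6 (Or.inl (Or.inl ⟨l1, k2, hh.symm⟩)))

lemma UC_same (h : Tri3 G D A B) {U : V → Prop} (hU : UC G D A B U) {x1 x2 : V}
    (d1 : D x1) (d2 : D x2) (u1 : U x1) (u2 : U x2)
    (hb : (∃ y, A y ∧ ¬ U y ∧ ¬ G.Adj x1 y) → ∃ y, A y ∧ ¬ U y ∧ ¬ G.Adj x2 y) {z : V}
    (hz : D z ∨ A z ∨ B z) (nz : ¬ U z) (e : G.Adj x2 z) : G.Adj x1 z := by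
  rcases hz with hz | hz | hz
  · exact absurd e (h.iD d2 hz)
  · by_contra n
    obtain ⟨y, hy, ny, n2⟩ := hb ⟨z, hz, nz, n⟩
    exact back_eq h hU d1 d2 hz hy u1 u2 nz ny n n2 e
  · exact absurd (hU x2 z u2 (Or.inr (Or.inr (Or.inl ⟨hz, d2, e.symm⟩)))) nz

lemma UC_Ty (h : Tri3 G D A B) {U : V → Prop} (hU : UC G D A B U) {S X : Finset V}
    (hS : ∀ v ∈ S, D v ∨ A v ∨ B v) (hX : ∀ v ∈ S, v ∈ X ↔ U v) (hXS : X ⊆ S) : Ty G 32 S X := by
  refine Ty_of_labels (fun x => (D x, A x, (∃ y, A y ∧ ¬ U y ∧ ¬ G.Adj x y),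
    (∃ y, B y ∧ ¬ U y ∧ ¬ G.Adj x y), (∃ y, D y ∧ ¬ U y ∧ ¬ G.Adj x y))) univ (by simp)
    (fun _ _ => Or.inr (mem_univ _)) ?_
  intro x hx y hy e z hz hzX
  simp only [Prod.mk.injEq, eq_iff_iff] at e
  obtain ⟨e1, e2, e3, e4, e5⟩ := e
  have ux := (hX x (hXS hx)).1 hx
  have uy := (hX y (hXS hy)).1 hy
  have nz : ¬ U z := fun u => hzX ((hX z hz).2 u)
  have cz := hS z hz
  rcases hS x (hXS hx) with c | c | c
  · exact ⟨UC_same h hU (e1.1 c) c uy ux e3.2 cz nz, UC_same h hU c (e1.1 c) ux uy e3.1 cz nz⟩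
  · have cz' : A z ∨ B z ∨ D z := or_rotate.1 cz
    exact ⟨UC_same h.rot hU.rot (e2.1 c) c uy ux e4.2 cz' nz,
      UC_same h.rot hU.rot c (e2.1 c) ux uy e4.1 cz' nz⟩
  · have cz' : B z ∨ D z ∨ A z := or_rotate.1 (or_rotate.1 cz)
    have c' : B y := by
      rcases hS y (hXS hy) with c' | c' | c'
      · exact absurd rfl (h.nBD c (e1.2 c'))
      · exact absurd rfl (h.nAB (e2.2 c') c)
      · exact c'
    exact ⟨UC_same h.rot.rot hU.rot.rot c' c uy ux e5.2 cz' nz,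
      UC_same h.rot.rot hU.rot.rot c c' ux uy e5.1 cz' nz⟩

/-- upper middle vertices -/
def UM (G : SimpleGraph V) (D A B : V → Prop) (d a b y : V) : Prop :=
  B y ∧ ¬ G.Adj y d ∧ ¬ G.Adj y a ∧ (∃ x, D x ∧ G.Adj x y ∧ G.Adj x a ∧ ¬ G.Adj x b) ∧
    ∀ w, A w → G.Adj w y → G.Adj w b

/-- vertices above the triangle -/
def Ub (G : SimpleGraph V) (D A B : V → Prop) (d a b x : V) : Prop :=
  D x ∧ G.Adj x a ∧ ¬ G.Adj x b ∧ ∀ y, B y → G.Adj x y → ¬ G.Adj y d → UM G D A B d a b y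

/-- the set above the triangle -/
def U1 (G : SimpleGraph V) (D A B : V → Prop) (d a b v : V) : Prop :=
  (Ub G D A B d a b v ∨ UM G D A B d a b v) ∨ (Ub G A B D a b d v ∨ UM G A B D a b d v) ∨
    (Ub G B D A b d a v ∨ UM G B D A b d a v)

lemma U1.rot {v : V} (h : U1 G D A B d a b v) : U1 G A B D a b d v := by
  rcases h with h | h | h
  · exact Or.inr (Or.inr h)
  · exact Or.inl h
  · exact Or.inr (Or.inl h)

lemma q1 (hD : DF G) (h : Tri3 G D A B) (t : Tr G D A B d a b) {x y : V} (hx : D x) (hy : B y)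
    (xa : G.Adj x a) (xb : ¬ G.Adj x b) (yx : G.Adj y x) (yd : G.Adj y d) :
    Ub G B D A b d a y := by
  have ya : ¬ G.Adj y a := fun e => c1a hD h t hx hy xa yx yd e xb
  refine ⟨hy, yd, ya, fun w hw yw wb => ⟨hw, wb, fun e => c1b hD h t hx hy hw xa yx yd yw e xb wb,
    ⟨y, hy, yw, yd, ya⟩, fun v hv vw => ?_⟩⟩
  by_contra e
  exact c1c hD h t hx hy hw hv xa yx yd yw vw xb wb e

lemma Ub_closed (hD : DF G) (h : Tri3 G D A B) (t : Tr G D A B d a b) {x y : V}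
    (hx : Ub G D A B d a b x) (e : Arc G D A y x ∨ Arc G A B y x ∨ Arc G B D y x) :
    U1 G D A B d a b y := by
  obtain ⟨dx, xa, xb, hx⟩ := hx
  have nA : ¬ A x := fun c => h.nDA dx c rfl
  have nB : ¬ B x := fun c => h.nBD c dx rfl
  rcases e with (e | ⟨_, hy, xy, p, q, hp, hq, pq, xq, py⟩ | ⟨_, hy, xy, _⟩) | (e | e | e) |
    (⟨hy, _, yx⟩ | e | e)
  · exact absurd e.2.1 nA
  · refine Or.inr (Or.inl (Or.inl ⟨hy, ?_, fun e => c1e2 hD h t dx hy hp hq xa xy pq e xb xq py,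
      fun w hw yw wa => (c1e3 hD h t dx hy hp hq hw xa xy pq yw xb xq py wa).elim⟩))
    by_contra e
    exact c1e1 hD h t dx hy hp hq xa xy pq xb xq py e
  · refine Or.inr (Or.inl (Or.inl ⟨hy, ?_, fun e => c1d1 hD h t dx hy xa e xb xy,
      fun w hw yw wa => (c1d2 hD h t dx hy hw xa yw xb xy wa).elim⟩))
    by_contra e
    exact h.rb dx hy t.hb xy xb e
  · exact absurd e.2.1 nB
  · exact absurd e.1 nA
  · exact absurd e.1 nA
  · by_cases yd : G.Adj y d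
    · exact Or.inr (Or.inr (Or.inl (q1 hD h t dx hy xa xb yx yd)))
    · exact Or.inl (Or.inr (hx y hy yx.symm yd))
  · exact absurd e.1 nB
  · exact absurd e.1 nB

lemma UM_closed (hD : DF G) (h : Tri3 G D A B) (t : Tr G D A B d a b) {y z : V}
    (hy : UM G D A B d a b y) (e : Arc G D A z y ∨ Arc G A B z y ∨ Arc G B D z y) :
    U1 G D A B d a b z := by
  have hy0 := hy
  obtain ⟨by', yd, ya, ⟨x, dx, xy, xa, xb⟩, hw⟩ := hy
  have nA : ¬ A y := fun c => h.nAB c by' rfl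
  have nD : ¬ D y := fun c => h.nBD by' c rfl
  rcases e with (e | e | e) | (⟨hz, _, zy⟩ | e | e) |
    (e | ⟨_, hz, yz, p, q, hp, hq, pq, yq, pz⟩ | ⟨_, hz, yz, hn⟩)
  · exact absurd e.2.1 nA
  · exact absurd e.1 nD
  · exact absurd e.1 nD
  · have zb := hw z hz zy
    exact Or.inr (Or.inl (Or.inl ⟨hz, zb, fun e => c2a1 hD h t by' dx hz xy xa zy zb e yd ya xb,
      fun w hw zw wa => (c2a2 hD h t by' dx hz hw xy xa zy zb zw yd ya xb wa).elim⟩))
  · exact absurd e.1 nA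
  · exact absurd e.1 nA
  · exact absurd e.2.1 nD
  · have : z = x := by
      by_contra e
      exact c2b1 hD h t by' dx hz hp hq xy xa yz pq yd ya xb yq pz e
    subst this
    refine Or.inl (Or.inl ⟨hz, xa, xb, fun p hp zp pd => ?_⟩)
    have : p = y := by
      by_contra e
      exact c2b2 hD h t by' hz hp xy xa zp yd ya xb pd e
    exact this ▸ hy0
  · have key : ∀ p, B p → G.Adj p z → G.Adj p x := by
      intro p hp pz
      by_contra e
      exact hn ⟨p, x, hp, dx, xy.symm, pz, e⟩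
    refine Or.inl (Or.inl ⟨hz, ?_, fun e => xb (key b t.hb e.symm).symm, fun p hp zp pd => ?_⟩)
    · by_contra e
      exact h.rb hz t.ha by' e (ns yz) (ns ya)
    · exact (c2b2 hD h t by' dx hp xy xa (key p hp zp.symm).symm yd ya xb pd
        (fun e => yz (e ▸ zp.symm))).elim

lemma U1_UC (hD : DF G) (h : Tri3 G D A B) (t : Tr G D A B d a b) :
    UC G D A B (U1 G D A B d a b) := by
  intro x y hx e
  have e1 : Arc G A B y x ∨ Arc G B D y x ∨ Arc G D A y x := or_rotate.1 e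
  have e2 : Arc G B D y x ∨ Arc G D A y x ∨ Arc G A B y x := or_rotate.1 e1
  rcases hx with (hx | hx) | (hx | hx) | (hx | hx)
  · exact Ub_closed hD h t hx e
  · exact UM_closed hD h t hx e
  · exact (Ub_closed hD h.rot t.rot hx e1).rot.rot
  · exact (UM_closed hD h.rot t.rot hx e1).rot.rot
  · exact (Ub_closed hD h.rot.rot t.rot.rot hx e2).rot
  · exact (UM_closed hD h.rot.rot t.rot.rot hx e2).rot

lemma U1_not (h : Tri3 G D A B) (t : Tr G D A B d a b) : ¬ U1 G D A B d a b d := by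
  rintro ((hx | hx) | (hx | hx) | (hx | hx))
  · exact hx.2.2.1 t.db
  · exact h.nBD hx.1 t.hd rfl
  · exact h.nDA t.hd hx.1 rfl
  · exact hx.2.1 t.da
  · exact h.nBD hx.1 t.hd rfl
  · exact h.nDA t.hd hx.1 rfl

lemma qM (hD : DF G) (h : Tri3 G D A B) (t : Tr G D A B d a b) {x y : V} (hx : D x) (hy : B y)
    (xd : x ≠ d) (yb : y ≠ b) (lx : ¬ U1 G D B A d b a x) (uy : ¬ U1 G D A B d a b y)
    (e : G.Adj x y ↔ ¬ (¬ G.Adj x a ∧ ¬ G.Adj y a)) :
    G.Adj x y ∧ ¬ G.Adj x b ∧ ¬ G.Adj y d := by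
  have xy : G.Adj x y := by
    by_contra n
    have : ¬ G.Adj x a ∧ ¬ G.Adj y a := by
      by_contra hh
      exact n (e.2 hh)
    exact h.rb hx t.ha hy this.1 n (ns this.2)
  have f1 : G.Adj x a → ¬ G.Adj x b := fun e1 e2 =>
    h.iD hx t.hd (hD a b x d t.ab e1.symm t.da.symm e2.symm t.db.symm xd)
  have f2 : G.Adj y a → ¬ G.Adj y d := fun e1 e2 =>
    h.iB hy t.hb (hD a d y b t.da.symm e1.symm t.ab e2.symm t.db yb)
  have g1 : G.Adj x a → ¬ G.Adj y d := fun e1 e2 =>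
    uy (Or.inr (Or.inr (Or.inl (q1 hD h t hx hy e1 (f1 e1) xy.symm e2))))
  have g2 : G.Adj y a → ¬ G.Adj x b := fun e1 e2 =>
    lx (Or.inl (Or.inl (q1 hD h.sw.rot t.sw.rot hy hx e1 (f2 e1) xy e2)))
  refine ⟨xy, ?_⟩
  by_cases e1 : G.Adj x a
  · exact ⟨f1 e1, g1 e1⟩
  · have e2 : G.Adj y a := by
      by_contra n
      exact e.1 xy ⟨e1, n⟩
    exact ⟨g2 e2, f2 e2⟩

lemma pigeon3 {d0 a0 b0 d1 a1 b1 d2 a2 b2 d3 a3 b3 r s t : Prop} (c0 : d0 ∨ a0 ∨ b0)
    (c1 : d1 ∨ a1 ∨ b1) (c2 : d2 ∨ a2 ∨ b2) (c3 : d3 ∨ a3 ∨ b3)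
    (j1 : (d0 ∧ d1) ∨ (a0 ∧ a1) ∨ (b0 ∧ b1) → False)
    (j2 : (d0 ∧ d2) ∨ (a0 ∧ a2) ∨ (b0 ∧ b2) → False)
    (j3 : (d0 ∧ d3) ∨ (a0 ∧ a3) ∨ (b0 ∧ b3) → False)
    (i1 : (d1 ∧ d2) ∨ (a1 ∧ a2) ∨ (b1 ∧ b2) → r) (i2 : (d1 ∧ d3) ∨ (a1 ∧ a3) ∨ (b1 ∧ b3) → s)
    (i3 : (d2 ∧ d3) ∨ (a2 ∧ a3) ∨ (b2 ∧ b3) → t) : r ∨ s ∨ t := by
  grind

/-- bound -/
def cQ : ℕ := J 3 (576 + 3)

lemma W_Q (hD : DF G) (h : Tri3 G D A B) (t : Tr G D A B d a b) {P : Finset V}
    (hP : ∀ v ∈ P, (D v ∨ A v ∨ B v) ∧ ¬ U1 G D A B d a b v ∧ ¬ U1 G D B A d b a v) :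
    W G cQ P := by
  refine W_del (F := {d, a, b}) card_le_three ?_
  have hP' : ∀ v ∈ P \ {d, a, b}, ((D v ∨ A v ∨ B v) ∧ ¬ U1 G D A B d a b v ∧
      ¬ U1 G D B A d b a v) ∧ v ≠ d ∧ v ≠ a ∧ v ≠ b := by
    intro v hv
    simp only [mem_sdiff, mem_insert, mem_singleton, not_or] at hv
    exact ⟨hP v hv.1, hv.2⟩
  generalize P \ {d, a, b} = P' at hP'
  let lab : V → Prop × Prop × Prop × Prop × Prop × Prop :=
    fun v => (D v, A v, B v, G.Adj v d, G.Adj v a, G.Adj v b)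
  let φ : Prop × Prop × Prop × Prop × Prop × Prop → Prop × Prop × Prop × Prop × Prop × Prop →
      Prop := fun p q => (p.1 ∧ q.2.2.1 ∧ ¬ p.2.2.2.2.1 ∧ ¬ q.2.2.2.2.1) ∨
    (p.2.1 ∧ q.1 ∧ ¬ p.2.2.2.2.2 ∧ ¬ q.2.2.2.2.2) ∨ (p.2.2.1 ∧ q.2.1 ∧ ¬ p.2.2.2.1 ∧ ¬ q.2.2.2.1)
  have := W_flip (G := G) lab φ (k := J 1 3) (S := P') (W_deg2 ?_)
  · exact this.mono (by simp [J])
  have nDA : ∀ {v}, D v → ¬ A v := fun c c' => h.nDA c c' rfl
  have nDB : ∀ {v}, D v → ¬ B v := fun c c' => h.nBD c' c rfl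
  have nAD : ∀ {v}, A v → ¬ D v := fun c c' => h.nDA c' c rfl
  have nAB : ∀ {v}, A v → ¬ B v := fun c c' => h.nAB c c' rfl
  have nBD : ∀ {v}, B v → ¬ D v := fun c c' => h.nBD c c' rfl
  have nBA : ∀ {v}, B v → ¬ A v := fun c c' => h.nAB c' c rfl
  have mDB : ∀ x ∈ P', ∀ y ∈ P', D x → B y → (flip G lab φ).Adj x y →
      G.Adj x y ∧ ¬ G.Adj x b ∧ ¬ G.Adj y d := by
    intro x hx y hy cx cy e
    refine qM hD h t cx cy (hP' x hx).2.1 (hP' y hy).2.2.2 (hP' x hx).1.2.2 (hP' y hy).1.2.1 ?_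
    have e2 := e.2
    simp only [lab, φ, cx, cy, nDA cx, nDB cx, nBD cy, nBA cy, true_and, false_and, and_false,
      or_false] at e2
    exact e2
  have mAD : ∀ x ∈ P', ∀ y ∈ P', A x → D y → (flip G lab φ).Adj x y →
      G.Adj x y ∧ ¬ G.Adj x d ∧ ¬ G.Adj y a := by
    intro x hx y hy cx cy e
    refine qM hD h.rot t.rot cx cy (hP' x hx).2.2.1 (hP' y hy).2.1
      (fun u => (hP' x hx).1.2.2 u.rot) (fun u => (hP' y hy).1.2.1 u.rot.rot) ?_
    have e2 := e.2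
    simp only [lab, φ, cx, cy, nAD cx, nAB cx, nDB cy, nDA cy, true_and, false_and, and_false,
      or_false, false_or] at e2
    exact e2
  have mBA : ∀ x ∈ P', ∀ y ∈ P', B x → A y → (flip G lab φ).Adj x y →
      G.Adj x y ∧ ¬ G.Adj x a ∧ ¬ G.Adj y b := by
    intro x hx y hy cx cy e
    refine qM hD h.rot.rot t.rot.rot cx cy (hP' x hx).2.2.2 (hP' y hy).2.2.1
      (fun u => (hP' x hx).1.2.2 u.rot.rot) (fun u => (hP' y hy).1.2.1 u.rot) ?_
    have e2 := e.2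
    simp only [lab, φ, cx, cy, nBD cx, nBA cx, nAD cy, nAB cy, true_and, false_and, and_false,
      or_false, false_or] at e2
    exact e2
  have same : ∀ x y, (D x ∧ D y) ∨ (A x ∧ A y) ∨ (B x ∧ B y) → ¬ (flip G lab φ).Adj x y := by
    intro x y c e
    have e2 := e.2
    rcases c with ⟨cx, cy⟩ | ⟨cx, cy⟩ | ⟨cx, cy⟩
    · simp only [lab, φ, cx, cy, nDA cx, nDB cx, nDA cy, nDB cy, true_and, false_and, and_false,
        or_false, not_false_eq_true, iff_true] at e2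
      exact h.iD cx cy e2
    · simp only [lab, φ, cx, cy, nAD cx, nAB cx, nAD cy, nAB cy, true_and, false_and, and_false,
        or_false, not_false_eq_true, iff_true] at e2
      exact h.iA cx cy e2
    · simp only [lab, φ, cx, cy, nBD cx, nBA cx, nBD cy, nBA cy, true_and, false_and, and_false,
        or_false, not_false_eq_true, iff_true] at e2
      exact h.iB cx cy e2
  have two : ∀ x ∈ P', ∀ y ∈ P', ∀ z ∈ P', (flip G lab φ).Adj x y → (flip G lab φ).Adj x z →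
      (D y ∧ D z) ∨ (A y ∧ A z) ∨ (B y ∧ B z) → y = z := by
    intro x hx y hy z hz e1 e2 c
    by_contra n
    rcases c with c | c | c <;> rcases (hP' x hx).1.1 with cx | cx | cx
    · exact same x y (Or.inl ⟨cx, c.1⟩) e1
    · have k1 := mAD x hx y hy cx c.1 e1
      have k2 := mAD x hx z hz cx c.2 e2
      exact h.pAD cx t.ha c.1 c.2 t.hd k1.1 k2.1 t.da.symm (ns k1.2.2) (ns k2.2.2) k1.2.1 n
    · have k1 := mDB y hy x hx c.1 cx e1.symm
      have k2 := mDB z hz x hx c.2 cx e2.symm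
      exact h.pBD cx t.hb c.1 c.2 t.hd k1.1.symm k2.1.symm t.db.symm (ns k1.2.1) (ns k2.2.1)
        k1.2.2 n
    · have k1 := mAD y hy x hx c.1 cx e1.symm
      have k2 := mAD z hz x hx c.2 cx e2.symm
      exact h.pDA cx t.hd c.1 c.2 t.ha k1.1.symm k2.1.symm t.da (ns k1.2.1) (ns k2.2.1) k1.2.2 n
    · exact same x y (Or.inr (Or.inl ⟨cx, c.1⟩)) e1
    · have k1 := mBA x hx y hy cx c.1 e1
      have k2 := mBA x hx z hz cx c.2 e2
      exact h.pBA cx t.hb c.1 c.2 t.ha k1.1 k2.1 t.ab.symm (ns k1.2.2) (ns k2.2.2) k1.2.1 n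
    · have k1 := mDB x hx y hy cx c.1 e1
      have k2 := mDB x hx z hz cx c.2 e2
      exact h.pDB cx t.hd c.1 c.2 t.hb k1.1 k2.1 t.db (ns k1.2.2) (ns k2.2.2) k1.2.1 n
    · have k1 := mBA y hy x hx c.1 cx e1.symm
      have k2 := mBA z hz x hx c.2 cx e2.symm
      exact h.pAB cx t.ha c.1 c.2 t.hb k1.1.symm k2.1.symm t.ab (ns k1.2.1) (ns k2.2.1) k1.2.2 n
    · exact same x y (Or.inr (Or.inr ⟨cx, c.1⟩)) e1
  intro x hx p hp q hq r hr e1 e2 e3
  have i1 := two x hx p hp q hq e1 e2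
  have i2 := two x hx p hp r hr e1 e3
  have i3 := two x hx q hq r hr e2 e3
  have j1 := fun c => same x p c e1
  have j2 := fun c => same x q c e2
  have j3 := fun c => same x r c e3
  have c0 := (hP' x hx).1.1
  have c1 := (hP' p hp).1.1
  have c2 := (hP' q hq).1.1
  have c3 := (hP' r hr).1.1
  exact pigeon3 c0 c1 c2 c3 j1 j2 j3 i1 i2 i3

lemma exists_Tr (h : Tri3 G D A B) {P : Finset V} (hP : ∀ v ∈ P, D v ∨ A v ∨ B v)
    (hT : ¬ TF G P) : ∃ d ∈ P, ∃ a b, Tr G D A B d a b := by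
  unfold TF at hT
  push Not at hT
  obtain ⟨x, hx, y, hy, z, hz, xy, xz, yz, _⟩ := hT
  rcases hP x hx with c1 | c1 | c1 <;> rcases hP y hy with c2 | c2 | c2 <;>
    rcases hP z hz with c3 | c3 | c3 <;>
    first
    | exact absurd xy (h.iD c1 c2)
    | exact absurd xy (h.iA c1 c2)
    | exact absurd xy (h.iB c1 c2)
    | exact absurd xz (h.iD c1 c3)
    | exact absurd xz (h.iA c1 c3)
    | exact absurd xz (h.iB c1 c3)
    | exact absurd yz (h.iD c2 c3)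
    | exact absurd yz (h.iA c2 c3)
    | exact absurd yz (h.iB c2 c3)
    | exact ⟨x, hx, y, z, c1, c2, c3, xy, yz, xz⟩
    | exact ⟨x, hx, z, y, c1, c3, c2, xz, yz.symm, xy⟩
    | exact ⟨y, hy, x, z, c2, c1, c3, xy.symm, xz, yz⟩
    | exact ⟨y, hy, z, x, c2, c3, c1, yz, xz.symm, xy.symm⟩
    | exact ⟨z, hz, x, y, c3, c1, c2, xz.symm, xy, yz.symm⟩
    | exact ⟨z, hz, y, x, c3, c2, c1, yz.symm, xy.symm, xz.symm⟩

/-- bound of the chain lemma -/
@[irreducible] def CH (t k : ℕ) : ℕ := ((t + 1) * 2 ^ t + 1) * (k + 1)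

lemma W_chain' {k t : ℕ} {S : Finset V} (C : Finset V → Prop)
    (hC : ∀ X, C X → X ⊆ S ∧ Ty G t S X) (h0 : C ∅) (h1 : C S)
    (gap : ∀ X Y, C X → C Y → X ⊆ Y → W G k (Y \ X) ∨ ∃ Z, C Z ∧ X ⊂ Z ∧ Z ⊂ Y) :
    W G (CH t k) S := by
  unfold CH
  exact W_chain C hC h0 h1 gap

/-- bound -/
def cC : ℕ := CH 32 (cK + cQ)

theorem W_core (hD : DF G) (hR : RF G) (h : Tri3 G D A B) {S : Finset V}
    (hS : ∀ v, v ∈ S ↔ D v ∨ A v ∨ B v) : W G cC S := by
  have hin : ∀ {x y}, (Arc G D A y x ∨ Arc G A B y x ∨ Arc G B D y x) → y ∈ S := by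
    intro x y e
    rw [hS]
    rcases e with (e | e | e) | (e | e | e) | (e | e | e)
    · exact Or.inl e.1
    · exact Or.inr (Or.inl e.2.1)
    · exact Or.inr (Or.inl e.2.1)
    · exact Or.inr (Or.inl e.1)
    · exact Or.inr (Or.inr e.2.1)
    · exact Or.inr (Or.inr e.2.1)
    · exact Or.inr (Or.inr e.1)
    · exact Or.inl e.2.1
    · exact Or.inl e.2.1
  refine W_chain' (t := 32) (k := cK + cQ) (fun X => X ⊆ S ∧ UC G D A B (fun v => v ∈ X)) ?_ ?_ ?_ ?_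
  · intro X hX
    exact ⟨hX.1, UC_Ty h hX.2 (fun v hv => (hS v).1 hv) (fun _ _ => Iff.rfl) hX.1⟩
  · exact ⟨empty_subset _, fun x y hx => by simp at hx⟩
  · exact ⟨Subset.rfl, fun x y _ e => hin e⟩
  intro X Y hX hY hXY
  have hP : ∀ v ∈ Y \ X, D v ∨ A v ∨ B v := fun v hv => (hS v).1 (hY.1 (mem_sdiff.1 hv).1)
  by_cases hT : TF G (Y \ X)
  · exact Or.inl ((W_K3R hR hT).mono (Nat.le_add_right _ _))
  obtain ⟨d, hd, a, b, t⟩ := exists_Tr h hP hT
  rw [mem_sdiff] at hd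
  have mk : ∀ U, UC G D A B U → ∃ Z, (Z ⊆ S ∧ UC G D A B (fun v => v ∈ Z)) ∧ X ⊆ Z ∧ Z ⊆ Y ∧
      ∀ v, v ∈ Z ↔ v ∈ X ∨ (v ∈ Y ∧ U v) := by
    intro U hU
    have s1 : X ∪ Y.filter U ⊆ Y := union_subset hXY (filter_subset _ _)
    refine ⟨X ∪ Y.filter U, ⟨s1.trans hY.1, fun x y hx e => ?_⟩, subset_union_left, s1,
      fun v => by rw [mem_union, mem_filter]⟩
    rcases mem_union.1 hx with hx | hx
    · exact mem_union_left _ (hX.2 x y hx e)
    · rw [mem_filter] at hx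
      exact mem_union_right _ (mem_filter.2 ⟨hY.2 x y hx.1 e, hU x y hx.2 e⟩)
  by_cases c1 : ∃ v ∈ Y \ X, U1 G D A B d a b v
  · obtain ⟨v, hv, u⟩ := c1
    rw [mem_sdiff] at hv
    obtain ⟨Z, m1, m2, m3, m4⟩ := mk _ (U1_UC hD h t)
    refine Or.inr ⟨Z, m1, ⟨m2, fun s => ?_⟩, m3, fun s => ?_⟩
    · exact hv.2 (s ((m4 v).2 (Or.inr ⟨hv.1, u⟩)))
    · rcases (m4 d).1 (s hd.1) with e | e
      · exact hd.2 e
      · exact U1_not h t e.2
  by_cases c2 : ∃ v ∈ Y \ X, U1 G D B A d b a v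
  · obtain ⟨v, hv, u⟩ := c2
    rw [mem_sdiff] at hv
    obtain ⟨Z, m1, m2, m3, m4⟩ := mk _ (U1_UC hD h.sw t.sw).compl
    refine Or.inr ⟨Z, m1, ⟨m2, fun s => ?_⟩, m3, fun s => ?_⟩
    · exact hd.2 (s ((m4 d).2 (Or.inr ⟨hd.1, U1_not h.sw t.sw⟩)))
    · rcases (m4 v).1 (s hv.1) with e | e
      · exact hv.2 e
      · exact e.2 u
  push Not at c1 c2
  exact Or.inl ((W_Q hD h t (fun v hv => ⟨hP v hv, c1 v hv, c2 v hv⟩)).mono
    (Nat.le_add_left _ _))

end

end Pool.Agent.MP_41f2d3_co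

end
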