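import Pool.Agent.Mg.F41f2d3.Gce4b87
import Pool.Agent.MP_41f2d3_co.Ramsey
import Pool.Agent.Mg.F41f2d3.G570faf

section

/-! Local lemmas for the triangle-free case. -/

namespace Pool.Agent.MP_41f2d3_co

open Finset Classical

variable {V : Type}

/-- triangle-free on `S` -/
def TF (G : SimpleGraph V) (S : Finset V) : Prop :=
  ∀ a ∈ S, ∀ b ∈ S, ∀ c ∈ S, G.Adj a b → G.Adj a c → G.Adj b c → False

/-- P5-free on `S` -/
def F5 (G : SimpleGraph V) (S : Finset V) : Prop :=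
  ∀ a ∈ S, ∀ b ∈ S, ∀ c ∈ S, ∀ d ∈ S, ∀ e ∈ S, G.Adj a b → G.Adj b c → G.Adj c d → G.Adj d e →
    ¬ G.Adj a c → ¬ G.Adj a d → ¬ G.Adj a e → ¬ G.Adj b d → ¬ G.Adj b e → ¬ G.Adj c e → False

/-- P1 + 2 P2 free on `S` -/
def QF (G : SimpleGraph V) (S : Finset V) : Prop :=
  ∀ a ∈ S, ∀ b ∈ S, ∀ c ∈ S, ∀ d ∈ S, ∀ z ∈ S, G.Adj a b → G.Adj c d →
    ¬ G.Adj a c → ¬ G.Adj a d → ¬ G.Adj b c → ¬ G.Adj b d →
    ¬ G.Adj z a → ¬ G.Adj z b → ¬ G.Adj z c → ¬ G.Adj z d → False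

lemma ns {G : SimpleGraph V} {a b : V} (h : ¬ G.Adj a b) : ¬ G.Adj b a := fun h' => h h'.symm

set_option linter.unusedVariables false

lemma c5_type {G : SimpleGraph V} {S : Finset V} (hT : TF G S) (hQ : QF G S)
    {c0 c1 c2 c3 c4 v d e : V} (hc0 : c0 ∈ S) (hc1 : c1 ∈ S) (hc2 : c2 ∈ S) (hc3 : c3 ∈ S) (hc4 : c4 ∈ S) (hv : v ∈ S) (hd : d ∈ S) (he : e ∈ S)
    (a0 : G.Adj c0 c1) (a1 : G.Adj c1 c2) (a2 : G.Adj c2 c3) (a3 : G.Adj c3 c4)
    (a4 : G.Adj c4 c0) (a5 : G.Adj d e) (n0 : ¬ G.Adj c0 c2) (n1 : ¬ G.Adj c0 c3)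
    (n2 : ¬ G.Adj c1 c3) (n3 : ¬ G.Adj c1 c4) (n4 : ¬ G.Adj c2 c4) (n5 : ¬ G.Adj v c0)
    (n6 : ¬ G.Adj v c1) (n7 : ¬ G.Adj v c2) (n8 : ¬ G.Adj v c3) (n9 : ¬ G.Adj v c4)
    (n10 : ¬ G.Adj v d) (n11 : ¬ G.Adj v e)
    : (G.Adj d c1 ∧ G.Adj d c4) ∨ (G.Adj d c2 ∧ G.Adj d c0) ∨ (G.Adj d c3 ∧ G.Adj d c1) ∨ (G.Adj d c4 ∧ G.Adj d c2) ∨ (G.Adj d c0 ∧ G.Adj d c3) := by
  have i0 := hT c0 hc0 c1 hc1 e he
  have i1 := hT c0 hc0 c4 hc4 e he
  have i2 := hT c1 hc1 c2 hc2 e he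
  have i3 := hT c2 hc2 c3 hc3 e he
  have i4 := hT c3 hc3 c4 hc4 e he
  have i5 := hQ c0 hc0 c1 hc1 c3 hc3 d hd v hv
  have i6 := hQ c0 hc0 c1 hc1 d hd e he c3 hc3
  have i7 := hQ c0 hc0 c4 hc4 c2 hc2 d hd v hv
  have i8 := hQ c0 hc0 c4 hc4 d hd e he v hv
  have i9 := hQ c0 hc0 d hd c2 hc2 c3 hc3 v hv
  have i10 := hQ c1 hc1 c2 hc2 c4 hc4 d hd v hv
  have i11 := hQ c1 hc1 c2 hc2 d hd e he c4 hc4
  have i12 := hQ c1 hc1 d hd c3 hc3 c4 hc4 v hv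
  have i13 := hQ c2 hc2 c3 hc3 d hd e he c0 hc0
  have i14 := hQ c3 hc3 c4 hc4 d hd e he c1 hc1
  clear hT hQ
  grind [SimpleGraph.adj_comm, SimpleGraph.irrefl]

lemma c5_twin {G : SimpleGraph V} {S : Finset V} (hT : TF G S) (hQ : QF G S)
    {c0 c1 c2 c3 c4 v d z : V} (hc0 : c0 ∈ S) (hc1 : c1 ∈ S) (hc2 : c2 ∈ S) (hc3 : c3 ∈ S) (hc4 : c4 ∈ S) (hv : v ∈ S) (hd : d ∈ S) (hz : z ∈ S)
    (a0 : G.Adj c0 c1) (a1 : G.Adj c1 c2) (a2 : G.Adj c2 c3) (a3 : G.Adj c3 c4)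
    (a4 : G.Adj c4 c0) (a5 : G.Adj d c1) (a6 : G.Adj d c4) (n0 : ¬ G.Adj c0 c2)
    (n1 : ¬ G.Adj c0 c3) (n2 : ¬ G.Adj c1 c3) (n3 : ¬ G.Adj c1 c4) (n4 : ¬ G.Adj c2 c4)
    (n5 : ¬ G.Adj v c0) (n6 : ¬ G.Adj v c1) (n7 : ¬ G.Adj v c2) (n8 : ¬ G.Adj v c3)
    (n9 : ¬ G.Adj v c4) (n10 : ¬ G.Adj v d)
    : G.Adj d z ↔ G.Adj c0 z := by
  have i0 := hT c0 hc0 c1 hc1 z hz
  have i1 := hT c0 hc0 c4 hc4 z hz
  have i2 := hT c1 hc1 c2 hc2 d hd
  have i3 := hT c1 hc1 d hd z hz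
  have i4 := hT c2 hc2 c3 hc3 z hz
  have i5 := hT c3 hc3 c4 hc4 d hd
  have i6 := hT c4 hc4 d hd z hz
  have i7 := hQ c0 hc0 c1 hc1 c3 hc3 z hz v hv
  have i8 := hQ c0 hc0 c1 hc1 v hv z hz c3 hc3
  have i9 := hQ c0 hc0 c4 hc4 c2 hc2 z hz v hv
  have i10 := hQ c0 hc0 z hz c2 hc2 c3 hc3 v hv
  have i11 := hQ c1 hc1 c2 hc2 v hv z hz c4 hc4
  have i12 := hQ c1 hc1 d hd c3 hc3 z hz v hv
  have i13 := hQ c1 hc1 d hd v hv z hz c3 hc3
  have i14 := hQ c2 hc2 c3 hc3 d hd z hz v hv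
  have i15 := hQ c2 hc2 z hz c4 hc4 d hd v hv
  clear hT hQ
  grind [SimpleGraph.adj_comm, SimpleGraph.irrefl]

lemma rain {G : SimpleGraph V} {S : Finset V} (hT : TF G S) (hQ : QF G S)
    {v u x y x1 y1 : V} (hv : v ∈ S) (hu : u ∈ S) (hx : x ∈ S) (hy : y ∈ S) (hx1 : x1 ∈ S) (hy1 : y1 ∈ S)
    (a0 : G.Adj v u) (a1 : G.Adj x y1) (a2 : G.Adj y x1) (n0 : ¬ G.Adj v x)
    (n1 : ¬ G.Adj v y) (n2 : ¬ G.Adj v x1) (n3 : ¬ G.Adj v y1) (n4 : ¬ G.Adj u x)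
    (n5 : ¬ G.Adj u y) (n6 : ¬ G.Adj x y) (n7 : ¬ G.Adj x x1) (n8 : ¬ G.Adj y y1)
    : False := by
  have i0 := hT u hu x1 hx1 y1 hy1
  have i1 := hQ v hv u hu x hx y1 hy1 y hy
  have i2 := hQ v hv u hu y hy x1 hx1 x hx
  have i3 := hQ x hx y1 hy1 y hy x1 hx1 v hv
  clear hT hQ
  grind [SimpleGraph.adj_comm, SimpleGraph.irrefl]

lemma p5_closed {G : SimpleGraph V} {S : Finset V} (hT : TF G S) (h5 : F5 G S)
    {a b y x w : V} (ha : a ∈ S) (hb : b ∈ S) (hy : y ∈ S) (hx : x ∈ S) (hw : w ∈ S)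
    (a0 : G.Adj a b) (a1 : G.Adj y a) (a2 : G.Adj x y) (a3 : G.Adj w x)
    (n0 : ¬ G.Adj w y) (n1 : ¬ G.Adj w a) (n2 : ¬ G.Adj w b) (n3 : ¬ G.Adj x b)
    : False := by
  have i0 := hT a ha b hb y hy
  have i1 := hT a ha y hy x hx
  have i2 := h5 b hb a ha y hy x hx w hw
  clear hT h5
  grind [SimpleGraph.adj_comm, SimpleGraph.irrefl]

lemma p5_far {G : SimpleGraph V} {S : Finset V} (hT : TF G S) (h5 : F5 G S)
    {a b c d y : V} (ha : a ∈ S) (hb : b ∈ S) (hc : c ∈ S) (hd : d ∈ S) (hy : y ∈ S)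
    (a0 : G.Adj a b) (a1 : G.Adj c d) (a2 : G.Adj y a) (a3 : G.Adj c y)
    (n0 : ¬ G.Adj a c) (n1 : ¬ G.Adj a d) (n2 : ¬ G.Adj b c) (n3 : ¬ G.Adj b d)
    : False := by
  have i0 := hT a ha b hb y hy
  have i1 := hT c hc d hd y hy
  have i2 := h5 b hb a ha y hy c hc d hd
  clear hT h5
  grind [SimpleGraph.adj_comm, SimpleGraph.irrefl]

lemma typeA {G : SimpleGraph V} {S : Finset V} (hT : TF G S) (hP : PF G)
    {w p q f g d e u : V} (hw : w ∈ S) (hp : p ∈ S) (hq : q ∈ S) (hf : f ∈ S) (hg : g ∈ S) (hd : d ∈ S) (he : e ∈ S) (hu : u ∈ S)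
    (a0 : G.Adj p q) (a1 : G.Adj f g) (a2 : G.Adj d e) (a3 : G.Adj d p)
    (a4 : G.Adj w u) (n0 : ¬ G.Adj w p) (n1 : ¬ G.Adj w q) (n2 : ¬ G.Adj w f)
    (n3 : ¬ G.Adj w g) (n4 : ¬ G.Adj w d) (n5 : ¬ G.Adj w e) (n6 : ¬ G.Adj p f)
    (n7 : ¬ G.Adj p g) (n8 : ¬ G.Adj q f) (n9 : ¬ G.Adj q g)
    : G.Adj d u ↔ G.Adj q u := by
  have i0 := hT p hp q hq d hd
  have i1 := hT p hp q hq u hu
  have i2 := hT p hp d hd u hu
  have i3 := hT f hf g hg d hd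
  have i4 := hT f hf g hg u hu
  have i5 := hP w u q p d f
  have i6 := hP w u q p d g
  have i7 := hP w u d p q f
  have i8 := hP w u d p q g
  have i9 := hP q p d f g w
  have i10 := hP q p d g f w
  clear hT hP
  grind [SimpleGraph.adj_comm, SimpleGraph.irrefl]

lemma typeB {G : SimpleGraph V} {S : Finset V} (hT : TF G S) (hP : PF G)
    {w p q f g d e u : V} (hw : w ∈ S) (hp : p ∈ S) (hq : q ∈ S) (hf : f ∈ S) (hg : g ∈ S) (hd : d ∈ S) (he : e ∈ S) (hu : u ∈ S)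
    (a0 : G.Adj p q) (a1 : G.Adj f g) (a2 : G.Adj d e) (a3 : G.Adj e p)
    (a4 : G.Adj w u) (n0 : ¬ G.Adj w p) (n1 : ¬ G.Adj w q) (n2 : ¬ G.Adj w f)
    (n3 : ¬ G.Adj w g) (n4 : ¬ G.Adj w d) (n5 : ¬ G.Adj w e) (n6 : ¬ G.Adj p f)
    (n7 : ¬ G.Adj p g) (n8 : ¬ G.Adj q f) (n9 : ¬ G.Adj q g)
    : G.Adj d u ↔ G.Adj p u := by
  have i0 := hT p hp q hq e he
  have i1 := hT p hp d hd e he
  have i2 := hT p hp e he u hu
  have i3 := hT f hf g hg d hd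
  have i4 := hT f hf g hg e he
  have i5 := hT f hf g hg u hu
  have i6 := hT d hd e he u hu
  have i7 := hP w u p e d f
  have i8 := hP w u p e d g
  have i9 := hP w u d e p f
  have i10 := hP w u d e p g
  have i11 := hP p e d f g w
  have i12 := hP p e d g f w
  have i13 := hP q p e f g w
  have i14 := hP q p e g f w
  clear hT hP
  grind [SimpleGraph.adj_comm, SimpleGraph.irrefl]

lemma three {G : SimpleGraph V} {S : Finset V} (hT : TF G S) (hP : PF G)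
    {w p q r s f g u u1 : V} (hw : w ∈ S) (hp : p ∈ S) (hq : q ∈ S) (hr : r ∈ S) (hs : s ∈ S) (hf : f ∈ S) (hg : g ∈ S) (hu : u ∈ S) (hu1 : u1 ∈ S)
    (a0 : G.Adj p q) (a1 : G.Adj r s) (a2 : G.Adj f g) (a3 : G.Adj w u)
    (a4 : G.Adj w u1) (a5 : G.Adj u p) (a6 : G.Adj u1 r) (n0 : ¬ G.Adj w p)
    (n1 : ¬ G.Adj w q) (n2 : ¬ G.Adj w r) (n3 : ¬ G.Adj w s) (n4 : ¬ G.Adj w f)
    (n5 : ¬ G.Adj w g) (n6 : ¬ G.Adj p r) (n7 : ¬ G.Adj p s) (n8 : ¬ G.Adj q r)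
    (n9 : ¬ G.Adj q s) (n10 : ¬ G.Adj p f) (n11 : ¬ G.Adj p g) (n12 : ¬ G.Adj q f)
    (n13 : ¬ G.Adj q g) (n14 : ¬ G.Adj r f) (n15 : ¬ G.Adj r g) (n16 : ¬ G.Adj s f)
    (n17 : ¬ G.Adj s g)
    : False := by
  have i0 := hT w hw u hu u1 hu1
  have i1 := hT p hp q hq u hu
  have i2 := hT p hp q hq u1 hu1
  have i3 := hT r hr s hs u hu
  have i4 := hT r hr s hs u1 hu1
  have i5 := hT f hf g hg u1 hu1
  have i6 := hP p q u1 r s g
  have i7 := hP q p u w u1 s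
  have i8 := hP q p u w u1 g
  have i9 := hP q p u1 r s f
  have i10 := hP q p u1 f g s
  have i11 := hP r u1 w u g q
  have i12 := hP s r u1 g f p
  clear hT hP
  grind [SimpleGraph.adj_comm, SimpleGraph.irrefl]

end Pool.Agent.MP_41f2d3_co

end

section

/-! The triangle-free case. -/

namespace Pool.Agent.MP_41f2d3_co

open Finset Classical

noncomputable section

variable {V : Type}

lemma W_reps {G : SimpleGraph V} {t : ℕ} {X : Finset V} (R : Finset V) (hR : R.card ≤ t)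
    (h : ∀ x ∈ X, ∃ r ∈ R, ∀ z ∈ X, (G.Adj x z ↔ G.Adj r z)) : W G (t * 3) X := by
  have h0 : W (⊥ : SimpleGraph V) 2 X := W_indep (fun _ _ _ _ h => h)
  refine W.relabel (fun x => X.filter (G.Adj x)) (R.image (fun r => X.filter (G.Adj r)))
    (card_image_le.trans hR) ?_ ?_ h0
  · intro x hx
    obtain ⟨r, hr, h⟩ := h x hx
    refine mem_image.2 ⟨r, hr, ?_⟩
    ext z
    simp only [mem_filter]
    constructor
    · rintro ⟨a, b⟩; exact ⟨a, (h z a).2 b⟩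
    · rintro ⟨a, b⟩; exact ⟨a, (h z a).1 b⟩
  · intro x _ y _ z hz e _ _ _
    have := Finset.ext_iff.1 e z
    simpa [hz] using this

lemma rainbow_of_ordered {G : SimpleGraph V} {S : Finset V} (col : V → Fin 3)
    (h : ∀ a ∈ S, ∀ b ∈ S, ∀ c ∈ S, col a = 0 → col b = 1 → col c = 2 →
      ¬ G.Adj a b → ¬ G.Adj a c → ¬ G.Adj b c → False) :
    ∀ a ∈ S, ∀ b ∈ S, ∀ c ∈ S, col a ≠ col b → col a ≠ col c → col b ≠ col c →
      G.Adj a b ∨ G.Adj a c ∨ G.Adj b c := by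
  intro a ha b hb c hc n1 n2 n3
  by_contra hh
  push Not at hh
  obtain ⟨hab, hac, hbc⟩ := hh
  rcases fin3_cases (col a) with e1 | e1 | e1 <;>
    rcases fin3_cases (col b) with e2 | e2 | e2 <;>
    rcases fin3_cases (col c) with e3 | e3 | e3 <;>
    first
    | exact absurd (e1.trans e2.symm) n1
    | exact absurd (e1.trans e3.symm) n2
    | exact absurd (e2.trans e3.symm) n3
    | exact h a ha b hb c hc e1 e2 e3 hab hac hbc
    | exact h a ha c hc b hb e1 e3 e2 hac hab (ns hbc)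
    | exact h b hb a ha c hc e2 e1 e3 (ns hab) hbc hac
    | exact h b hb c hc a ha e2 e3 e1 hbc (ns hab) (ns hac)
    | exact h c hc a ha b hb e3 e1 e2 (ns hac) (ns hbc) hab
    | exact h c hc b hb a ha e3 e2 e1 (ns hbc) (ns hac) (ns hab)

/-- an induced five-cycle inside the non-neighbourhood of `v` -/
def C5 (G : SimpleGraph V) (S : Finset V) (v c0 c1 c2 c3 c4 : V) : Prop :=
  v ∈ S ∧ c0 ∈ S ∧ c1 ∈ S ∧ c2 ∈ S ∧ c3 ∈ S ∧ c4 ∈ S ∧
  G.Adj c0 c1 ∧ G.Adj c1 c2 ∧ G.Adj c2 c3 ∧ G.Adj c3 c4 ∧ G.Adj c4 c0 ∧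
  ¬ G.Adj c0 c2 ∧ ¬ G.Adj c0 c3 ∧ ¬ G.Adj c1 c3 ∧ ¬ G.Adj c1 c4 ∧ ¬ G.Adj c2 c4 ∧
  ¬ G.Adj v c0 ∧ ¬ G.Adj v c1 ∧ ¬ G.Adj v c2 ∧ ¬ G.Adj v c3 ∧ ¬ G.Adj v c4

lemma C5.rot {G : SimpleGraph V} {S : Finset V} {v c0 c1 c2 c3 c4 : V}
    (h : C5 G S v c0 c1 c2 c3 c4) : C5 G S v c1 c2 c3 c4 c0 := by
  obtain ⟨m, m0, m1, m2, m3, m4, a0, a1, a2, a3, a4, n0, n1, n2, n3, n4, v0, v1, v2, v3, v4⟩ := h
  exact ⟨m, m1, m2, m3, m4, m0, a1, a2, a3, a4, a0, n2, n3, n4, ns n0, ns n1, v1, v2, v3, v4, v0⟩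

lemma C5.twin {G : SimpleGraph V} {S : Finset V} (hT : TF G S) (hQ : QF G S)
    {v c0 c1 c2 c3 c4 d : V} (h : C5 G S v c0 c1 c2 c3 c4) (hd : d ∈ S) (hvd : ¬ G.Adj v d)
    (h1 : G.Adj d c1 ∧ G.Adj d c4) : ∀ z ∈ S, G.Adj d z ↔ G.Adj c0 z := by
  obtain ⟨m, m0, m1, m2, m3, m4, a0, a1, a2, a3, a4, n0, n1, n2, n3, n4, v0, v1, v2, v3, v4⟩ := h
  intro z hz
  exact c5_twin hT hQ m0 m1 m2 m3 m4 m hd hz a0 a1 a2 a3 a4 h1.1 h1.2 n0 n1 n2 n3 n4
    v0 v1 v2 v3 v4 hvd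

lemma W_K3A_c5 {G : SimpleGraph V} (hP : PF G) {S : Finset V} (hT : TF G S) (hQ : QF G S)
    {v c0 c1 c2 c3 c4 : V} (h : C5 G S v c0 c1 c2 c3 c4) : W G (J 5 15) S := by
  let D := S.filter (fun d => ¬ G.Adj v d ∧ ∃ e ∈ S, ¬ G.Adj v e ∧ G.Adj d e)
  have hrep : ∀ d ∈ D, ∃ r ∈ ({c0, c1, c2, c3, c4} : Finset V),
      ∀ z ∈ S, (G.Adj d z ↔ G.Adj r z) := by
    intro d hd
    obtain ⟨hdS, hvd, e, he, hve, hde⟩ := mem_filter.1 hd
    have h' := h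
    obtain ⟨m, m0, m1, m2, m3, m4, a0, a1, a2, a3, a4, n0, n1, n2, n3, n4, v0, v1, v2, v3, v4⟩ := h'
    rcases c5_type hT hQ m0 m1 m2 m3 m4 m hdS he a0 a1 a2 a3 a4 hde n0 n1 n2 n3 n4
      v0 v1 v2 v3 v4 hvd hve with t | t | t | t | t
    · exact ⟨c0, by simp, h.twin hT hQ hdS hvd t⟩
    · exact ⟨c1, by simp, h.rot.twin hT hQ hdS hvd t⟩
    · exact ⟨c2, by simp, h.rot.rot.twin hT hQ hdS hvd t⟩
    · exact ⟨c3, by simp, h.rot.rot.rot.twin hT hQ hdS hvd t⟩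
    · exact ⟨c4, by simp, h.rot.rot.rot.rot.twin hT hQ hdS hvd t⟩
  have hc : ({c0, c1, c2, c3, c4} : Finset V).card ≤ 5 := card_le_five
  refine W_join (A := D) (filter_subset _ _) (Ty_of_reps _ hc ?_) (W_reps _ hc ?_) ?_
  · intro x hx
    obtain ⟨r, hr, h⟩ := hrep x hx
    exact Or.inr ⟨r, hr, fun z hz _ => h z hz⟩
  · intro x hx
    obtain ⟨r, hr, h⟩ := hrep x hx
    exact ⟨r, hr, fun z hz => h z (mem_filter.1 hz).1⟩
  · refine (W_bip hP (fun x => G.Adj v x) ?_).mono (by norm_num)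
    intro a ha b hb hab
    rw [mem_sdiff] at ha hb
    constructor
    · intro h1 h2
      exact hT v h.1 a ha.1 b hb.1 h1 h2 hab
    · intro h1
      by_contra h2
      exact ha.2 (mem_filter.2 ⟨ha.1, h2, b, hb.1, h1, hab⟩)

lemma W_K3A_noc5 {G : SimpleGraph V} (hD : DF G) (hP : PF G) {S : Finset V} (hT : TF G S)
    (hQ : QF G S) (hC : ∀ v c0 c1 c2 c3 c4, ¬ C5 G S v c0 c1 c2 c3 c4) :
    W G (J 1 (cTri + 2)) S := by
  rcases S.eq_empty_or_nonempty with rfl | hne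
  · exact W_card G (by simp)
  obtain ⟨v, hv, hmin⟩ := exists_min_image S (fun x => (S.filter (G.Adj x)).card) hne
  let InD : V → Prop := fun d => ¬ G.Adj v d ∧ ∃ e ∈ S, ¬ G.Adj v e ∧ G.Adj d e
  let T0 := S.filter (fun s => ¬ G.Adj v s ∧ ¬ InD s)
  have htw : ∀ s ∈ T0, ∀ z ∈ S, G.Adj s z ↔ G.Adj v z := by
    intro s hs
    obtain ⟨hsS, hvs, hn⟩ := mem_filter.1 hs
    have hsub : S.filter (G.Adj s) ⊆ S.filter (G.Adj v) := by
      intro z hz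
      rw [mem_filter] at hz ⊢
      refine ⟨hz.1, ?_⟩
      by_contra hh
      exact hn ⟨hvs, z, hz.1, hh, hz.2⟩
    have heq := eq_of_subset_of_card_le hsub (hmin s hsS)
    intro z hz
    have := Finset.ext_iff.1 heq z
    simpa [hz] using this
  refine W_join (A := T0) (filter_subset _ _) (Ty_of_reps {v} (by simp) ?_)
    ((W_indep ?_).mono (by omega)) ?_
  · intro x hx
    exact Or.inr ⟨v, by simp, fun z hz _ => htw x hx z hz⟩
  · intro x hx y hy hxy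
    exact (mem_filter.1 hy).2.1 ((htw x hx y (mem_filter.1 hy).1).1 hxy)
  have hrest : ∀ x ∈ S \ T0, x ∈ S ∧ (G.Adj v x ∨ InD x) := by
    intro x hx
    rw [mem_sdiff] at hx
    refine ⟨hx.1, ?_⟩
    by_contra hh
    push Not at hh
    exact hx.2 (mem_filter.2 ⟨hx.1, hh⟩)
  have hin : ∀ x ∈ S, InD x → x ∈ S \ T0 := by
    intro x hx h
    exact mem_sdiff.2 ⟨hx, fun h' => (mem_filter.1 h').2.2 h⟩
  by_cases hDne : ∃ p ∈ S, InD p
  swap
  · push Not at hDne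
    refine (W_indep ?_).mono (by omega)
    intro x hx y hy hxy
    have h1 := hrest x hx
    have h2 := hrest y hy
    exact hT v hv x h1.1 y h2.1 (h1.2.resolve_right (hDne x h1.1))
      (h2.2.resolve_right (hDne y h2.1)) hxy
  obtain ⟨p, hp, hvp, q, hq, hvq, hpq⟩ := hDne
  let X1 : V → Prop := fun x =>
    G.Adj q x ∨ (¬ G.Adj p x ∧ ¬ ∃ y ∈ S, ¬ G.Adj v y ∧ G.Adj q y ∧ G.Adj x y)
  let col : V → Fin 3 := fun x => if G.Adj v x then 0 else if X1 x then 1 else 2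
  have c0 : ∀ x, col x = 0 ↔ G.Adj v x := by
    intro x; simp only [col]; split_ifs <;> simp [*]
  have c1 : ∀ x, col x = 1 ↔ ¬ G.Adj v x ∧ X1 x := by
    intro x; simp only [col]; split_ifs <;> simp [*]
  have c2 : ∀ x, col x = 2 ↔ ¬ G.Adj v x ∧ ¬ X1 x := by
    intro x; simp only [col]; split_ifs <;> simp [*]
  have hind : ∀ a ∈ S, ∀ b ∈ S, G.Adj a b → col a ≠ col b := by
    intro a ha b hb hab e
    rcases fin3_cases (col a) with e1 | e1 | e1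
    · exact hT v hv a ha b hb ((c0 a).1 e1) ((c0 b).1 (e ▸ e1)) hab
    · obtain ⟨va, xa⟩ := (c1 a).1 e1
      obtain ⟨vb, xb⟩ := (c1 b).1 (e ▸ e1)
      by_cases qa : G.Adj q a
      · rcases xb with qb | ⟨_, xb⟩
        · exact hT q hq a ha b hb qa qb hab
        · exact xb ⟨a, ha, va, qa, hab.symm⟩
      · by_cases qb : G.Adj q b
        · exact (xa.resolve_left qa).2 ⟨b, hb, vb, qb, hab⟩
        · exact hQ p hp q hq a ha b hb v hv hpq hab (xa.resolve_left qa).1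
            (xb.resolve_left qb).1 qa qb hvp hvq va vb
    · obtain ⟨va, xa⟩ := (c2 a).1 e1
      obtain ⟨vb, xb⟩ := (c2 b).1 (e ▸ e1)
      simp only [X1, not_or, not_and, not_not] at xa xb
      have aux : ∀ a ∈ S, ∀ b ∈ S, G.Adj a b → ¬ G.Adj v a → ¬ G.Adj v b → ¬ G.Adj q a →
          ¬ G.Adj q b → G.Adj p a → ¬ G.Adj p b →
          (∃ y ∈ S, ¬ G.Adj v y ∧ G.Adj q y ∧ G.Adj b y) → False := by
        rintro a ha b hb hab va vb qa qb pa pb ⟨y, hy, vy, qy, by'⟩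
        exact hC v p a b y q ⟨hv, hp, ha, hb, hy, hq, pa, hab, by', qy.symm, hpq.symm, pb,
          fun h => hT q hq p hp y hy hpq.symm qy h, fun h => hT b hb a ha y hy hab.symm by' h,
          ns qa, ns qb, hvp, va, vb, vy, hvq⟩
      by_cases pa : G.Adj p a
      · by_cases pb : G.Adj p b
        · exact hT p hp a ha b hb pa pb hab
        · exact aux a ha b hb hab va vb xa.1 xb.1 pa pb (xb.2 pb)
      · by_cases pb : G.Adj p b
        · exact aux b hb a ha hab.symm vb va xb.1 xa.1 pb pa (xa.2 pa)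
        · exact hQ p hp q hq a ha b hb v hv hpq hab pa pb xa.1 xb.1 hvp hvq va vb
  refine (W_tri hD hP col (fun a ha b hb => hind a (hrest a ha).1 b (hrest b hb).1)
    (rainbow_of_ordered col ?_) (Or.inl (fun a ha b hb c hc =>
      hT a (hrest a ha).1 b (hrest b hb).1 c (hrest c hc).1))).mono (by omega)
  intro u hu x hx y hy cu cx cy ux uy xy
  have vu := (c0 u).1 cu
  have vx := ((c1 x).1 cx).1
  have vy := ((c2 y).1 cy).1
  obtain ⟨_, y1, hy1, vy1, xy1⟩ := (hrest x hx).2.resolve_left vx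
  obtain ⟨_, x1, hx1, vx1, yx1⟩ := (hrest y hy).2.resolve_left vy
  have xx1 : ¬ G.Adj x x1 := by
    intro h
    have n1 := hind _ (hrest x hx).1 _ hx1 h
    have n2 := hind _ (hrest y hy).1 _ hx1 yx1
    have n3 : col x1 ≠ 0 := fun h => vx1 ((c0 _).1 h)
    rw [cx] at n1
    rw [cy] at n2
    rcases fin3_cases (col x1) with e | e | e
    · exact n3 e
    · exact n1 e.symm
    · exact n2 e.symm
  have yy1 : ¬ G.Adj y y1 := by
    intro h
    have n1 := hind _ (hrest x hx).1 _ hy1 xy1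
    have n2 := hind _ (hrest y hy).1 _ hy1 h
    have n3 : col y1 ≠ 0 := fun h => vy1 ((c0 _).1 h)
    rw [cx] at n1
    rw [cy] at n2
    rcases fin3_cases (col y1) with e | e | e
    · exact n3 e
    · exact n1 e.symm
    · exact n2 e.symm
  exact rain hT hQ hv (hrest u hu).1 (hrest x hx).1 (hrest y hy).1 hx1 hy1 vu xy1 yx1 vx vy vx1 vy1
    ux uy xy xx1 yy1

/-- bound -/
def cA : ℕ := J 5 15 + J 1 (cTri + 2) + 12

lemma W_K3A {G : SimpleGraph V} (hD : DF G) (hP : PF G) {S : Finset V} (hT : TF G S)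
    (hQ : QF G S) : W G cA S := by
  by_cases hC : ∃ v c0 c1 c2 c3 c4, C5 G S v c0 c1 c2 c3 c4
  · obtain ⟨v, c0, c1, c2, c3, c4, h⟩ := hC
    exact (W_K3A_c5 hP hT hQ h).mono (by unfold cA; omega)
  · push Not at hC
    exact (W_K3A_noc5 hD hP hT hQ hC).mono (by unfold cA; omega)

lemma TF.mono {G : SimpleGraph V} {S S' : Finset V} (h : TF G S) (hS : S' ⊆ S) : TF G S' :=
  fun a ha b hb c hc => h a (hS ha) b (hS hb) c (hS hc)

lemma F5.mono {G : SimpleGraph V} {S S' : Finset V} (h : F5 G S) (hS : S' ⊆ S) : F5 G S' :=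
  fun a ha b hb c hc d hd e he => h a (hS ha) b (hS hb) c (hS hc) d (hS hd) e (hS he)

lemma W_K3P5 {G : SimpleGraph V} (hD : DF G) (hP : PF G) {S : Finset V} (hT : TF G S)
    (h5 : F5 G S) : W G cA S := by
  refine W_of_prime (by unfold cA; omega) S (fun S' hS' _ hc _ _ => ?_)
  have hT' := hT.mono hS'
  have h5' := h5.mono hS'
  refine W_K3A hD hP hT' ?_
  intro a ha b hb c hc' d hd z _ hab hcd ac ad bc bd _ _ _ _
  let A := S'.filter (fun x => ∃ y ∈ S', (G.Adj y a ∨ G.Adj y b) ∧ (x = y ∨ G.Adj x y))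
  have hsub : S' ⊆ A := by
    refine hc A (filter_subset _ _) ⟨a, mem_filter.2 ⟨ha, a, ha, Or.inr hab, Or.inl rfl⟩⟩ ?_
    intro x hx w hw hxw
    obtain ⟨hxS, y, hy, h1, h2⟩ := mem_filter.1 hx
    by_contra hn
    have hn' : ∀ y ∈ S', (G.Adj y a ∨ G.Adj y b) → w ≠ y ∧ ¬ G.Adj w y := by
      intro y hy h
      exact ⟨fun e => hn (mem_filter.2 ⟨hw, y, hy, h, Or.inl e⟩),
        fun e => hn (mem_filter.2 ⟨hw, y, hy, h, Or.inr e⟩)⟩
    rcases h2 with rfl | h2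
    · exact (hn' x hxS h1).2 hxw.symm
    · have wa := (hn' a ha (Or.inr hab)).2
      have wb := (hn' b hb (Or.inl hab.symm)).2
      have wy := (hn' y hy h1).2
      have xa : ¬ G.Adj x a := fun h => (hn' x hxS (Or.inl h)).2 hxw.symm
      have xb : ¬ G.Adj x b := fun h => (hn' x hxS (Or.inr h)).2 hxw.symm
      rcases h1 with h1 | h1
      · exact p5_closed hT' h5' ha hb hy hxS hw hab h1 h2 hxw.symm wy wa wb xb
      · exact p5_closed hT' h5' hb ha hy hxS hw hab.symm h1 h2 hxw.symm wy wb wa xa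
  obtain ⟨_, y, hy, h1, h2⟩ := mem_filter.1 (hsub hc')
  rcases h2 with rfl | h2
  · rcases h1 with h1 | h1
    · exact ac h1.symm
    · exact bc h1.symm
  · rcases h1 with h1 | h1
    · exact p5_far hT' h5' ha hb hc' hd hy hab hcd h1 h2 ac ad bc bd
    · exact p5_far hT' h5' hb ha hc' hd hy hab.symm hcd h1 h2 bc bd ac ad

/-- an edge in the non-neighbourhood of `w` -/
def Em (G : SimpleGraph V) (S : Finset V) (w p q : V) : Prop :=
  p ∈ S ∧ q ∈ S ∧ G.Adj p q ∧ ¬ G.Adj w p ∧ ¬ G.Adj w q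

/-- two anticomplete pairs -/
def Far (G : SimpleGraph V) (p q f g : V) : Prop :=
  ¬ G.Adj p f ∧ ¬ G.Adj p g ∧ ¬ G.Adj q f ∧ ¬ G.Adj q g

lemma Far.symm {G : SimpleGraph V} {p q f g : V} (h : Far G p q f g) : Far G f g p q :=
  ⟨ns h.1, ns h.2.2.1, ns h.2.1, ns h.2.2.2⟩

lemma type_touch {G : SimpleGraph V} (hP : PF G) {S : Finset V} (hT : TF G S)
    {w p q f g d e : V} (hw : w ∈ S) (h1 : Em G S w p q) (h2 : Em G S w f g) (h3 : Em G S w d e)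
    (hf : Far G p q f g) (hn : ¬ Far G d e p q) :
    (∀ u ∈ S, G.Adj w u → (G.Adj d u ↔ G.Adj p u)) ∨
      (∀ u ∈ S, G.Adj w u → (G.Adj d u ↔ G.Adj q u)) := by
  obtain ⟨hp, hq, pq, wp, wq⟩ := h1
  obtain ⟨hf', hg, fg, wf, wg⟩ := h2
  obtain ⟨hd, he, de, wd, we⟩ := h3
  obtain ⟨pf, pg, qf, qg⟩ := hf
  simp only [Far, not_and_or, not_not] at hn
  rcases hn with h | h | h | h
  · exact Or.inr (fun u hu wu =>
      typeA hT hP hw hp hq hf' hg hd he hu pq fg de h wu wp wq wf wg wd we pf pg qf qg)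
  · exact Or.inl (fun u hu wu =>
      typeA hT hP hw hq hp hf' hg hd he hu pq.symm fg de h wu wq wp wf wg wd we qf qg pf pg)
  · exact Or.inl (fun u hu wu =>
      typeB hT hP hw hp hq hf' hg hd he hu pq fg de h wu wp wq wf wg wd we pf pg qf qg)
  · exact Or.inr (fun u hu wu =>
      typeB hT hP hw hq hp hf' hg hd he hu pq.symm fg de h wu wq wp wf wg wd we qf qg pf pg)

lemma W_K3B {G : SimpleGraph V} (hD : DF G) (hP : PF G) {S : Finset V} (hT : TF G S)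
    {w p1 q1 p2 q2 : V} (hw : w ∈ S) (h1 : Em G S w p1 q1) (h2 : Em G S w p2 q2)
    (hf : Far G p1 q1 p2 q2) : W G (J 6 cA) S := by
  let D := S.filter (fun d => ∃ e, Em G S w d e)
  have hout : ∀ d ∈ D, ∀ z ∈ S, z ∉ D → G.Adj d z → G.Adj w z := by
    intro d hd z hz hzD hdz
    obtain ⟨hdS, e, he⟩ := mem_filter.1 hd
    by_contra hh
    exact hzD (mem_filter.2 ⟨hz, d, hz, hdS, hdz.symm, hh, he.2.2.2.1⟩)
  have hD1 : ∀ {p q}, Em G S w p q → p ∈ D ∧ q ∈ D := by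
    intro p q h
    exact ⟨mem_filter.2 ⟨h.1, q, h⟩,
      mem_filter.2 ⟨h.2.1, p, h.2.1, h.1, h.2.2.1.symm, h.2.2.2.2, h.2.2.2.1⟩⟩
  have conv : ∀ d ∈ D, ∀ r ∈ D, (∀ u ∈ S, G.Adj w u → (G.Adj d u ↔ G.Adj r u)) →
      ∀ z ∈ S, z ∉ D → (G.Adj d z ↔ G.Adj r z) := by
    intro d hd r hr h z hz hzD
    by_cases wz : G.Adj w z
    · exact h z hz wz
    · exact ⟨fun a => absurd (hout d hd z hz hzD a) wz, fun a => absurd (hout r hr z hz hzD a) wz⟩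
  have hTy : Ty G 6 S D := by
    have main : ∀ p3 q3 : V, (∀ d e, Em G S w d e → Far G d e p1 q1 → Far G d e p2 q2 →
        (∀ z ∈ S, G.Adj w z → ¬ G.Adj d z) ∨
        (Em G S w p3 q3 ∧ Far G p3 q3 p1 q1 ∧ ¬ Far G d e p3 q3)) → Ty G 6 S D := by
      intro p3 q3 h3
      refine Ty_of_reps {p1, q1, p2, q2, p3, q3} card_le_six ?_
      intro d hd
      obtain ⟨hdS, e, he⟩ := mem_filter.1 hd
      by_cases t1 : Far G d e p1 q1
      · by_cases t2 : Far G d e p2 q2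
        · rcases h3 d e he t1 t2 with h | ⟨h, hf3, hn⟩
          · exact Or.inl (fun z hz hzD a => h z hz (hout d hd z hz hzD a) a)
          · rcases type_touch hP hT hw h h1 he hf3 hn with t | t
            · exact Or.inr ⟨p3, by simp, conv d hd p3 (hD1 h).1 t⟩
            · exact Or.inr ⟨q3, by simp, conv d hd q3 (hD1 h).2 t⟩
        · rcases type_touch hP hT hw h2 h1 he hf.symm t2 with t | t
          · exact Or.inr ⟨p2, by simp, conv d hd p2 (hD1 h2).1 t⟩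
          · exact Or.inr ⟨q2, by simp, conv d hd q2 (hD1 h2).2 t⟩
      · rcases type_touch hP hT hw h1 h2 he hf t1 with t | t
        · exact Or.inr ⟨p1, by simp, conv d hd p1 (hD1 h1).1 t⟩
        · exact Or.inr ⟨q1, by simp, conv d hd q1 (hD1 h1).2 t⟩
    by_cases h3 : ∃ p3 q3, Em G S w p3 q3 ∧ Far G p3 q3 p1 q1 ∧ ∃ u ∈ S, G.Adj w u ∧ G.Adj p3 u
    · obtain ⟨p3, q3, e3, f3, u, hu, wu, pu⟩ := h3
      refine main p3 q3 (fun d e he t1 _ => ?_)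
      by_cases t3 : Far G d e p3 q3
      · left
        intro z hz wz dz
        exact three hT hP hw he.1 he.2.1 e3.1 e3.2.1 h1.1 h1.2.1 hz hu he.2.2.1 e3.2.2.1 h1.2.2.1
          wz wu dz.symm pu.symm he.2.2.2.1 he.2.2.2.2 e3.2.2.2.1 e3.2.2.2.2 h1.2.2.2.1 h1.2.2.2.2
          t3.1 t3.2.1 t3.2.2.1 t3.2.2.2 t1.1 t1.2.1 t1.2.2.1 t1.2.2.2
          f3.1 f3.2.1 f3.2.2.1 f3.2.2.2
      · exact Or.inr ⟨e3, f3, t3⟩
    · refine main p1 q1 (fun d e he t1 _ => Or.inl (fun z hz wz dz => ?_))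
      exact h3 ⟨d, e, he, t1, z, hz, wz, dz⟩
  refine W_join (A := D) (filter_subset _ _) hTy ?_ ?_
  · refine W_K3P5 hD hP (hT.mono (filter_subset _ _)) ?_
    intro a ha b hb c hc d hd e he h1 h2 h3 h4 n1 n2 n3 n4 n5 n6
    have hn : ∀ x ∈ D, ¬ G.Adj w x := by
      intro x hx
      obtain ⟨_, e, he⟩ := mem_filter.1 hx
      exact he.2.2.2.1
    exact hP a b c d e w h1 h2 h3 h4 n1 n2 n3 n4 n5 n6 (hn a ha) (hn b hb) (hn c hc) (hn d hd)
      (hn e he)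
  · refine (W_bip hP (fun x => G.Adj w x) ?_).mono (by unfold cA; omega)
    intro a ha b hb hab
    rw [mem_sdiff] at ha hb
    constructor
    · intro h1 h2
      exact hT w hw a ha.1 b hb.1 h1 h2 hab
    · intro h1
      by_contra h2
      exact ha.2 (mem_filter.2 ⟨ha.1, b, ha.1, hb.1, hab, h2, h1⟩)

/-- bound -/
def cK3 : ℕ := cA + J 6 cA

theorem W_K3 {G : SimpleGraph V} (hD : DF G) (hP : PF G) {S : Finset V} (hT : TF G S) :
    W G cK3 S := by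
  by_cases hQ : QF G S
  · exact (W_K3A hD hP hT hQ).mono (by unfold cK3; omega)
  · unfold QF at hQ
    push Not at hQ
    obtain ⟨a, ha, b, hb, c, hc, d, hd, z, hz, ab, cd, ac, ad, bc, bd, za, zb, zc, zd, _⟩ := hQ
    exact (W_K3B hD hP hT hz ⟨ha, hb, ab, za, zb⟩ ⟨hc, hd, cd, zc, zd⟩ ⟨ac, ad, bc, bd⟩).mono
      (by unfold cK3; omega)

end

end Pool.Agent.MP_41f2d3_co

end

section

/-! Maximal cliques in diamond-free graphs. -/

namespace Pool.Agent.MP_41f2d3_co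

open Finset Classical

noncomputable section

variable {V : Type}

/-- a clique of `S` such that every other vertex of `S` has at most one neighbour in it -/
structure MC (G : SimpleGraph V) (S K : Finset V) : Prop where
  sub : K ⊆ S
  cl : ∀ x ∈ K, ∀ y ∈ K, x ≠ y → G.Adj x y
  one : ∀ v ∈ S, v ∉ K → ∀ x ∈ K, ∀ y ∈ K, G.Adj v x → G.Adj v y → x = y

lemma MC.avoid {G : SimpleGraph V} {S K : Finset V} (h : MC G S K) (B : Finset V) (hB : B ⊆ S)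
    (hc : B.card < K.card) :
    ∃ x ∈ K, ∀ p ∈ B, (p ∈ K → x ≠ p) ∧ (p ∉ K → ¬ G.Adj p x) := by
  by_contra hh
  push Not at hh
  let bad : V → Finset V := fun p => if p ∈ K then {p} else K.filter (G.Adj p)
  have h1 : K ⊆ B.biUnion bad := by
    intro x hx
    obtain ⟨p, hp, h⟩ := hh x hx
    refine mem_biUnion.2 ⟨p, hp, ?_⟩
    by_cases e : p ∈ K
    · simp only [bad, if_pos e, mem_singleton]
      by_contra hne
      exact (h (fun _ => hne)).1 e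
    · simp only [bad, if_neg e, mem_filter]
      exact ⟨hx, (h (fun h => absurd h e)).2⟩
  have h2 : ∀ p ∈ B, (bad p).card ≤ 1 := by
    intro p hp
    by_cases e : p ∈ K
    · simp [bad, e]
    · simp only [bad, if_neg e]
      rw [card_le_one]
      intro a ha b hb
      rw [mem_filter] at ha hb
      exact h.one p (hB hp) e a ha.1 b hb.1 ha.2 hb.2
  have h3 := (card_le_card h1).trans (card_biUnion_le_card_mul B bad 1 h2)
  omega

lemma exists_MC {G : SimpleGraph V} (hD : DF G) {S Q : Finset V} (hQ : Q ⊆ S)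
    (hcl : ∀ x ∈ Q, ∀ y ∈ Q, x ≠ y → G.Adj x y) : ∃ K, Q ⊆ K ∧ MC G S K := by
  let F := S.powerset.filter (fun K => Q ⊆ K ∧ ∀ x ∈ K, ∀ y ∈ K, x ≠ y → G.Adj x y)
  have hne : F.Nonempty := ⟨Q, mem_filter.2 ⟨mem_powerset.2 hQ, Subset.rfl, hcl⟩⟩
  obtain ⟨K, hK, hmax⟩ := exists_max_image F card hne
  obtain ⟨hKS, hQK, hKc⟩ := mem_filter.1 hK
  rw [mem_powerset] at hKS
  refine ⟨K, hQK, hKS, hKc, ?_⟩
  intro v hv hvK x hx y hy vx vy
  by_contra hne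
  have hall : ∀ z ∈ K, G.Adj v z := by
    intro z hz
    by_cases e1 : z = x
    · exact e1 ▸ vx
    by_cases e2 : z = y
    · exact e2 ▸ vy
    exact hD x y v z (hKc x hx y hy hne) vx.symm (hKc x hx z hz (Ne.symm e1)) vy.symm
      (hKc y hy z hz (Ne.symm e2)) (fun e => hvK (e ▸ hz))
  have hin : insert v K ∈ F := by
    refine mem_filter.2 ⟨mem_powerset.2 (insert_subset hv hKS), hQK.trans (subset_insert _ _), ?_⟩
    intro a ha b hb hab
    rcases mem_insert.1 ha with rfl | ha' <;> rcases mem_insert.1 hb with rfl | hb'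
    · exact absurd rfl hab
    · exact hall b hb'
    · exact (hall a ha').symm
    · exact hKc a ha' b hb' hab
  have := hmax _ hin
  rw [card_insert_of_notMem hvK] at this
  omega

lemma two_cliques_nbr {G : SimpleGraph V} (hP : PF G) {S K1 K2 K3 : Finset V}
    (h1 : MC G S K1) (h2 : MC G S K2) (h3 : MC G S K3) (c1 : 3 ≤ K1.card) (c2 : 3 ≤ K2.card)
    (c3 : 3 ≤ K3.card) (a12 : ∀ x ∈ K1, ∀ y ∈ K2, ¬ G.Adj x y)
    (a13 : ∀ x ∈ K1, ∀ y ∈ K3, ¬ G.Adj x y) (a23 : ∀ x ∈ K2, ∀ y ∈ K3, ¬ G.Adj x y)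
    {v x y : V} (hv : v ∈ S) (hx : x ∈ K1) (hy : y ∈ K2) (vx : G.Adj v x) (vy : G.Adj v y) :
    False := by
  have v1 : v ∉ K1 := fun h => a12 v h y hy vy
  have v2 : v ∉ K2 := fun h => a12 x hx v h vx.symm
  have v3 : v ∉ K3 := fun h => a13 x hx v h vx.symm
  obtain ⟨x', hx', p1⟩ := h1.avoid {x, v} (by
    intro z hz; simp only [mem_insert, mem_singleton] at hz
    rcases hz with rfl | rfl; exacts [h1.sub hx, hv]) (lt_of_le_of_lt card_le_two c1)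
  obtain ⟨y', hy', p2⟩ := h2.avoid {y, v} (by
    intro z hz; simp only [mem_insert, mem_singleton] at hz
    rcases hz with rfl | rfl; exacts [h2.sub hy, hv]) (lt_of_le_of_lt card_le_two c2)
  obtain ⟨z, hz, p3⟩ := h3.avoid {v} (by simpa using hv) (by simp; omega)
  exact hP x' x v y y' z (h1.cl _ hx' _ hx ((p1 x (by simp)).1 hx)) vx.symm vy
    (h2.cl _ hy _ hy' ((p2 y (by simp)).1 hy).symm) (ns ((p1 v (by simp)).2 v1))
    (a12 _ hx' _ hy) (a12 _ hx' _ hy') (a12 _ hx _ hy) (a12 _ hx _ hy') ((p2 v (by simp)).2 v2)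
    (ns (a13 _ hx' _ hz)) (ns (a13 _ hx _ hz)) (ns ((p3 v (by simp)).2 v3))
    (ns (a23 _ hy _ hz)) (ns (a23 _ hy' _ hz))

lemma three_cliques {G : SimpleGraph V} (hP : PF G) {S K1 K2 K3 : Finset V}
    (h1 : MC G S K1) (h2 : MC G S K2) (h3 : MC G S K3) (c1 : 3 ≤ K1.card) (c2 : 3 ≤ K2.card)
    (c3 : 3 ≤ K3.card) (a12 : ∀ x ∈ K1, ∀ y ∈ K2, ¬ G.Adj x y)
    (a13 : ∀ x ∈ K1, ∀ y ∈ K3, ¬ G.Adj x y) (a23 : ∀ x ∈ K2, ∀ y ∈ K3, ¬ G.Adj x y)
    (hc : Conn G S) : False := by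
  have n12 : ∀ v ∈ S, ∀ x ∈ K1, ∀ y ∈ K2, G.Adj v x → ¬ G.Adj v y :=
    fun v hv x hx y hy vx vy => two_cliques_nbr hP h1 h2 h3 c1 c2 c3 a12 a13 a23 hv hx hy vx vy
  have n13 : ∀ v ∈ S, ∀ x ∈ K1, ∀ y ∈ K3, G.Adj v x → ¬ G.Adj v y :=
    fun v hv x hx y hy vx vy => two_cliques_nbr hP h1 h3 h2 c1 c3 c2 a13 a12
      (fun x hx y hy => ns (a23 y hy x hx)) hv hx hy vx vy
  let A := S.filter (fun u => ∃ x ∈ K1, u = x ∨ G.Adj u x ∨ ∃ v ∈ S, G.Adj v x ∧ G.Adj u v)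
  obtain ⟨x0, hx0⟩ : K1.Nonempty := card_pos.1 (by omega)
  obtain ⟨y0, hy0⟩ : K2.Nonempty := card_pos.1 (by omega)
  have hsub : S ⊆ A := by
    refine hc A (filter_subset _ _) ⟨x0, mem_filter.2 ⟨h1.sub hx0, x0, hx0, Or.inl rfl⟩⟩ ?_
    intro u hu w hw uw
    by_contra hn
    have w1 : ∀ x ∈ K1, ¬ G.Adj w x := fun x hx h =>
      hn (mem_filter.2 ⟨hw, x, hx, Or.inr (Or.inl h)⟩)
    have w2 : ∀ x ∈ K1, ∀ v ∈ S, G.Adj v x → ¬ G.Adj w v := fun x hx v hv h h' =>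
      hn (mem_filter.2 ⟨hw, x, hx, Or.inr (Or.inr ⟨v, hv, h, h'⟩)⟩)
    obtain ⟨huS, x, hx, h⟩ := mem_filter.1 hu
    have u1 : ∀ x ∈ K1, ¬ G.Adj u x := fun x hx h => w2 x hx u huS h uw.symm
    rcases h with rfl | h | ⟨v, hv, vx, uv⟩
    · exact w1 u hx uw.symm
    · exact u1 x hx h
    have v1 : v ∉ K1 := fun h => u1 v h uv
    obtain ⟨x', hx', p1⟩ := h1.avoid {x, v} (by
      intro z hz; simp only [mem_insert, mem_singleton] at hz
      rcases hz with rfl | rfl; exacts [h1.sub hx, hv]) (lt_of_le_of_lt card_le_two c1)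
    have fin : ∀ z, ¬ G.Adj z x' → ¬ G.Adj z x → ¬ G.Adj z v → ¬ G.Adj z u → ¬ G.Adj z w →
        False := fun z => hP x' x v u w z (h1.cl _ hx' _ hx ((p1 x (by simp)).1 hx)) vx.symm
      uv.symm uw (ns ((p1 v (by simp)).2 v1)) (ns (u1 _ hx')) (ns (w1 _ hx')) (ns (u1 _ hx))
      (ns (w1 _ hx)) (ns (w2 x hx v hv vx))
    have u2 : u ∉ K2 := fun h => n12 v hv x hx u h vx uv.symm
    have u3 : u ∉ K3 := fun h => n13 v hv x hx u h vx uv.symm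
    by_cases wK : w ∈ K2
    · obtain ⟨z, hz, p3⟩ := h3.avoid {u} (by simpa using huS) (by simp; omega)
      exact fin z (ns (a13 _ hx' _ hz)) (ns (a13 _ hx _ hz)) (ns (n13 v hv x hx z hz vx))
        (ns ((p3 u (by simp)).2 u3)) (ns (a23 _ wK _ hz))
    · obtain ⟨z, hz, p2⟩ := h2.avoid {u, w} (by
        intro z hz; simp only [mem_insert, mem_singleton] at hz
        rcases hz with rfl | rfl; exacts [huS, hw]) (lt_of_le_of_lt card_le_two c2)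
      exact fin z (ns (a12 _ hx' _ hz)) (ns (a12 _ hx _ hz)) (ns (n12 v hv x hx z hz vx))
        (ns ((p2 u (by simp)).2 u2)) (ns ((p2 w (by simp)).2 wK))
  obtain ⟨_, x, hx, h⟩ := mem_filter.1 (hsub (h2.sub hy0))
  rcases h with rfl | h | ⟨v, hv, vx, uv⟩
  · obtain ⟨y, hy, hne⟩ := exists_mem_ne (by omega : 1 < K2.card) y0
    exact a12 y0 hx y hy (h2.cl _ hy0 _ hy hne.symm)
  · exact a12 x hx y0 hy0 h.symm
  · exact n12 v hv x hx y0 hy0 vx uv.symm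

/-- bound for unions of three cliques -/
def c3Cl : ℕ := 24 * (J 1 3 + 1)

lemma W_three_cl {G : SimpleGraph V} (hD : DF G) {S : Finset V} (col : V → Fin 3)
    (hcl : ∀ x ∈ S, ∀ y ∈ S, col x = col y → x ≠ y → G.Adj x y) : W G c3Cl S := by
  let comp : V → Fin 3 → Prop := fun x i => ∀ z ∈ S, col z = i → z ≠ x → G.Adj x z
  let G' : SimpleGraph V :=
    { Adj := fun a b => G.Adj a b ∧ ¬ comp a (col b) ∧ ¬ comp b (col a)
      symm := ⟨fun a b h => ⟨h.1.symm, h.2.2, h.2.1⟩⟩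
      loopless := ⟨fun a h => h.1.ne rfl⟩ }
  have hG' : ∀ a b, G'.Adj a b ↔ G.Adj a b ∧ ¬ comp a (col b) ∧ ¬ comp b (col a) :=
    fun _ _ => Iff.rfl
  have hself : ∀ x ∈ S, comp x (col x) := fun x hx z hz e hne => hcl x hx z hz e.symm hne.symm
  have htwo : ∀ x ∈ S, ∀ a ∈ S, ∀ b ∈ S, G'.Adj x a → G'.Adj x b → col a = col b → a = b := by
    intro x _ a ha b hb xa xb e
    by_contra hne
    refine xa.2.1 (fun z hz cz zx => ?_)
    by_cases e1 : z = a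
    · exact e1 ▸ xa.1
    by_cases e2 : z = b
    · exact e2 ▸ xb.1
    exact hD a b x z (hcl a ha b hb e hne) xa.1.symm (hcl a ha z hz cz.symm (Ne.symm e1))
      xb.1.symm (hcl b hb z hz (e.symm.trans cz.symm) (Ne.symm e2)) zx.symm
  have hW : W G' (J 1 3) S := by
    refine W_deg2 ?_
    intro x hx a ha b hb c hc xa xb xc
    have na : col a ≠ col x := fun e => xa.2.1 (e ▸ hself x hx)
    have nb : col b ≠ col x := fun e => xb.2.1 (e ▸ hself x hx)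
    have nc : col c ≠ col x := fun e => xc.2.1 (e ▸ hself x hx)
    have : col a = col b ∨ col a = col c ∨ col b = col c := by omega
    rcases this with e | e | e
    · exact Or.inl (htwo x hx a ha b hb xa xb e)
    · exact Or.inr (Or.inl (htwo x hx a ha c hc xa xc e))
    · exact Or.inr (Or.inr (htwo x hx b hb c hc xb xc e))
  refine W.relabel (r := 24) (fun x => (col x, comp x)) univ (by simp) (fun _ _ => mem_univ _)
    ?_ hW
  intro x hx y hy z hz e zx zy h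
  simp only [Prod.mk.injEq] at e
  obtain ⟨e1, e2⟩ := e
  by_cases t1 : comp x (col z)
  · exact ⟨fun _ => (e2 ▸ t1 : comp y (col z)) z hz rfl zy, fun _ => t1 z hz rfl zx⟩
  by_cases t2 : comp z (col x)
  · exact ⟨fun _ => (t2 y hy e1.symm zy.symm).symm, fun _ => (t2 x hx rfl zx.symm).symm⟩
  have t1' : ¬ comp y (col z) := e2 ▸ t1
  have t2' : ¬ comp z (col y) := e1 ▸ t2
  rw [hG', hG'] at h
  exact ⟨fun a => (h.1 ⟨a, t1, t2⟩).1, fun a => (h.2 ⟨a, t1', t2'⟩).1⟩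

end

end Pool.Agent.MP_41f2d3_co

end

section

/-! Local lemmas for cyclic chains of triangles. -/

namespace Pool.Agent.MP_41f2d3_co

variable {V : Type}

lemma eqa {G : SimpleGraph V} {u v w : V} (e : u = v) (h1 : G.Adj u w) (h2 : ¬ G.Adj v w) :
    False := h2 (e ▸ h1)

lemma eqt {u v w : V} (e1 : u = v) (e2 : u = w) (h : v ≠ w) : False := h (e1.symm.trans e2)

/-- four triangles in cyclic chain position -/
structure TCs (G : SimpleGraph V) (a b c : Fin 4 → V) : Prop where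
  ab : ∀ i j, G.Adj (a i) (b j) ↔ i ≤ j
  bc : ∀ i j, G.Adj (b i) (c j) ↔ i ≤ j
  ca : ∀ i j, G.Adj (c i) (a j) ↔ i ≤ j
  aa : ∀ i j, ¬ G.Adj (a i) (a j)
  bb : ∀ i j, ¬ G.Adj (b i) (b j)
  cc : ∀ i j, ¬ G.Adj (c i) (c j)

lemma TCs.rot {G : SimpleGraph V} {a b c : Fin 4 → V} (h : TCs G a b c) : TCs G b c a :=
  ⟨h.bc, h.ca, h.ab, h.bb, h.cc, h.aa⟩

/-- not one of the twelve vertices -/
def Off (a b c : Fin 4 → V) (u : V) : Prop := ∀ i, u ≠ a i ∧ u ≠ b i ∧ u ≠ c i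

lemma Off.rot {a b c : Fin 4 → V} {u : V} (h : Off a b c u) : Off b c a u :=
  fun i => ⟨(h i).2.1, (h i).2.2, (h i).1⟩

set_option linter.unusedVariables false

lemma tc_one {G : SimpleGraph V} (hD : DF G) (hP : PF G) {a b c : Fin 4 → V} (h : TCs G a b c)
    {u : V} (ou : Off a b c u)
    (a0 : G.Adj u (a 2)) (a1 : G.Adj u (b 2))
    : False := by
  have fa0b0 : G.Adj (a 0) (b 0) := (h.ab 0 0).2 (by decide)
  have fa0b1 : G.Adj (a 0) (b 1) := (h.ab 0 1).2 (by decide)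
  have fa0a2 : ¬ G.Adj (a 0) (a 2) := h.aa 0 2
  have fa1b0 : ¬ G.Adj (a 1) (b 0) := mt (h.ab 1 0).1 (by decide)
  have fb0b1 : ¬ G.Adj (b 0) (b 1) := h.bb 0 1
  have fa2b0 : ¬ G.Adj (a 2) (b 0) := mt (h.ab 2 0).1 (by decide)
  have fb0c2 : G.Adj (b 0) (c 2) := (h.bc 0 2).2 (by decide)
  have fb0b3 : ¬ G.Adj (b 0) (b 3) := h.bb 0 3
  have fa1b1 : G.Adj (a 1) (b 1) := (h.ab 1 1).2 (by decide)
  have fa1a2 : ¬ G.Adj (a 1) (a 2) := h.aa 1 2
  have fa1b2 : G.Adj (a 1) (b 2) := (h.ab 1 2).2 (by decide)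
  have fa1b3 : G.Adj (a 1) (b 3) := (h.ab 1 3).2 (by decide)
  have fa2b1 : ¬ G.Adj (a 2) (b 1) := mt (h.ab 2 1).1 (by decide)
  have fb1c2 : G.Adj (b 1) (c 2) := (h.bc 1 2).2 (by decide)
  have fb1b3 : ¬ G.Adj (b 1) (b 3) := h.bb 1 3
  have fa2b2 : G.Adj (a 2) (b 2) := (h.ab 2 2).2 (by decide)
  have fc2a2 : G.Adj (c 2) (a 2) := (h.ca 2 2).2 (by decide)
  have fa2b3 : G.Adj (a 2) (b 3) := (h.ab 2 3).2 (by decide)
  have fb2c2 : G.Adj (b 2) (c 2) := (h.bc 2 2).2 (by decide)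
  have fb2b3 : ¬ G.Adj (b 2) (b 3) := h.bb 2 3
  have fb3c2 : ¬ G.Adj (b 3) (c 2) := mt (h.bc 3 2).1 (by decide)
  have quc2 := (ou 2).2.2
  have t1 : (b 0) ≠ (a 2) := fun hc => eqa hc fa0b0.symm (ns fa0a2)
  have t2 : (a 1) ≠ (a 2) := fun hc => eqa hc fa1b1 fa2b1
  have t3 : (b 1) ≠ (a 2) := fun hc => eqa hc fa0b1.symm (ns fa0a2)
  have t4 : (b 2) ≠ (b 3) := fun hc => eqa hc fb2c2 fb3c2
  have t5 : G.Adj (c 2) u := Classical.byContradiction fun hc => hc (hD (a 2) (b 2) (c 2) u fa2b2 fc2a2.symm a0.symm fb2c2 a1.symm (Ne.symm quc2))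
  have t6 : ¬ G.Adj (b 3) u := fun hc => fb2b3 (hD (a 2) u (b 2) (b 3) a0.symm fa2b2 fa2b3 a1 hc.symm t4)
  have t7 : ¬ G.Adj (a 1) u := fun hc => fa1a2 (hD (b 2) u (a 1) (a 2) a1.symm fa1b2.symm fa2b2.symm hc.symm a0 t2)
  have t8 : ¬ G.Adj (b 0) u := fun hc => (ns fa2b0) (hD (c 2) u (b 0) (a 2) t5 fb0c2.symm fc2a2 hc.symm a0 t1)
  have t9 : ¬ G.Adj (b 1) u := fun hc => (ns fa2b1) (hD (c 2) u (b 1) (a 2) t5 fb1c2.symm fc2a2 hc.symm a0 t3)
  exact hP (b 1) (a 1) (b 3) (a 2) u (b 0) fa1b1.symm fa1b3 fa2b3.symm a0.symm fb1b3 (ns fa2b1) t9 fa1a2 t7 t6 fb0b1 (ns fa1b0) fb0b3 (ns fa2b0) t8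

lemma tc_ind {G : SimpleGraph V} (hD : DF G) (hP : PF G) {a b c : Fin 4 → V} (h : TCs G a b c)
    {u v : V} (ou : Off a b c u) (ov : Off a b c v)
    (a0 : G.Adj u (a 2)) (a1 : G.Adj v (a 2)) (a2 : G.Adj u v)
    : False := by
  have fa0b0 : G.Adj (a 0) (b 0) := (h.ab 0 0).2 (by decide)
  have fc1a0 : ¬ G.Adj (c 1) (a 0) := mt (h.ca 1 0).1 (by decide)
  have fa0a2 : ¬ G.Adj (a 0) (a 2) := h.aa 0 2
  have fa0b2 : G.Adj (a 0) (b 2) := (h.ab 0 2).2 (by decide)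
  have fa0b3 : G.Adj (a 0) (b 3) := (h.ab 0 3).2 (by decide)
  have fb0c0 : G.Adj (b 0) (c 0) := (h.bc 0 0).2 (by decide)
  have fa1b0 : ¬ G.Adj (a 1) (b 0) := mt (h.ab 1 0).1 (by decide)
  have fb0b1 : ¬ G.Adj (b 0) (b 1) := h.bb 0 1
  have fb0c1 : G.Adj (b 0) (c 1) := (h.bc 0 1).2 (by decide)
  have fa2b0 : ¬ G.Adj (a 2) (b 0) := mt (h.ab 2 0).1 (by decide)
  have fb0b2 : ¬ G.Adj (b 0) (b 2) := h.bb 0 2
  have fb0c2 : G.Adj (b 0) (c 2) := (h.bc 0 2).2 (by decide)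
  have fa3b0 : ¬ G.Adj (a 3) (b 0) := mt (h.ab 3 0).1 (by decide)
  have fb0b3 : ¬ G.Adj (b 0) (b 3) := h.bb 0 3
  have fb0c3 : G.Adj (b 0) (c 3) := (h.bc 0 3).2 (by decide)
  have fb1c0 : ¬ G.Adj (b 1) (c 0) := mt (h.bc 1 0).1 (by decide)
  have fc0c1 : ¬ G.Adj (c 0) (c 1) := h.cc 0 1
  have fc0a2 : G.Adj (c 0) (a 2) := (h.ca 0 2).2 (by decide)
  have fb2c0 : ¬ G.Adj (b 2) (c 0) := mt (h.bc 2 0).1 (by decide)
  have fc0c2 : ¬ G.Adj (c 0) (c 2) := h.cc 0 2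
  have fc0a3 : G.Adj (c 0) (a 3) := (h.ca 0 3).2 (by decide)
  have fb3c0 : ¬ G.Adj (b 3) (c 0) := mt (h.bc 3 0).1 (by decide)
  have fc0c3 : ¬ G.Adj (c 0) (c 3) := h.cc 0 3
  have fa1b1 : G.Adj (a 1) (b 1) := (h.ab 1 1).2 (by decide)
  have fc1a1 : G.Adj (c 1) (a 1) := (h.ca 1 1).2 (by decide)
  have fa1a2 : ¬ G.Adj (a 1) (a 2) := h.aa 1 2
  have fa1b2 : G.Adj (a 1) (b 2) := (h.ab 1 2).2 (by decide)
  have fc2a1 : ¬ G.Adj (c 2) (a 1) := mt (h.ca 2 1).1 (by decide)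
  have fa1b3 : G.Adj (a 1) (b 3) := (h.ab 1 3).2 (by decide)
  have fb1c1 : G.Adj (b 1) (c 1) := (h.bc 1 1).2 (by decide)
  have fa2b1 : ¬ G.Adj (a 2) (b 1) := mt (h.ab 2 1).1 (by decide)
  have fb1b2 : ¬ G.Adj (b 1) (b 2) := h.bb 1 2
  have fb1c2 : G.Adj (b 1) (c 2) := (h.bc 1 2).2 (by decide)
  have fa3b1 : ¬ G.Adj (a 3) (b 1) := mt (h.ab 3 1).1 (by decide)
  have fb1b3 : ¬ G.Adj (b 1) (b 3) := h.bb 1 3
  have fb1c3 : G.Adj (b 1) (c 3) := (h.bc 1 3).2 (by decide)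
  have fc1a2 : G.Adj (c 1) (a 2) := (h.ca 1 2).2 (by decide)
  have fb2c1 : ¬ G.Adj (b 2) (c 1) := mt (h.bc 2 1).1 (by decide)
  have fc1c2 : ¬ G.Adj (c 1) (c 2) := h.cc 1 2
  have fb3c1 : ¬ G.Adj (b 3) (c 1) := mt (h.bc 3 1).1 (by decide)
  have fc1c3 : ¬ G.Adj (c 1) (c 3) := h.cc 1 3
  have fa2b2 : G.Adj (a 2) (b 2) := (h.ab 2 2).2 (by decide)
  have fc2a2 : G.Adj (c 2) (a 2) := (h.ca 2 2).2 (by decide)
  have fa2a3 : ¬ G.Adj (a 2) (a 3) := h.aa 2 3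
  have fa2b3 : G.Adj (a 2) (b 3) := (h.ab 2 3).2 (by decide)
  have fc3a2 : ¬ G.Adj (c 3) (a 2) := mt (h.ca 3 2).1 (by decide)
  have fb2c2 : G.Adj (b 2) (c 2) := (h.bc 2 2).2 (by decide)
  have fa3b2 : ¬ G.Adj (a 3) (b 2) := mt (h.ab 3 2).1 (by decide)
  have fb2b3 : ¬ G.Adj (b 2) (b 3) := h.bb 2 3
  have fb2c3 : G.Adj (b 2) (c 3) := (h.bc 2 3).2 (by decide)
  have fb3c2 : ¬ G.Adj (b 3) (c 2) := mt (h.bc 3 2).1 (by decide)
  have fa3b3 : G.Adj (a 3) (b 3) := (h.ab 3 3).2 (by decide)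
  have quc1 := (ou 1).2.2
  have qub2 := (ou 2).2.1
  have quc2 := (ou 2).2.2
  have qub3 := (ou 3).2.1
  have t1 : (b 0) ≠ (a 2) := fun hc => eqa hc fa0b0.symm (ns fa0a2)
  have t2 : (c 0) ≠ (b 2) := fun hc => eqa hc fb0c0.symm (ns fb0b2)
  have t3 : (c 0) ≠ (b 3) := fun hc => eqa hc fb0c0.symm (ns fb0b3)
  have t4 : (a 1) ≠ (a 2) := fun hc => eqa hc fa1b1 fa2b1
  have t5 : (b 1) ≠ (b 2) := fun hc => eqa hc fb1c1 fb2c1
  have t6 : (c 1) ≠ (b 2) := fun hc => eqa hc.symm fa0b2.symm fc1a0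
  have t7 : (c 1) ≠ (b 3) := fun hc => eqa hc.symm fa0b3.symm fc1a0
  have t8 : (a 2) ≠ (a 3) := fun hc => eqa hc fa2b2 fa3b2
  have t9 : (a 2) ≠ (c 3) := fun hc => eqa hc.symm fb0c3.symm fa2b0
  rcases Classical.em (G.Adj (b 2) u) with t10 | t10
  · have t11 : G.Adj (c 2) u := Classical.byContradiction fun hc => hc (hD (a 2) (b 2) (c 2) u fa2b2 fc2a2.symm a0.symm fb2c2 t10 (Ne.symm quc2))
    have t12 : ¬ G.Adj (c 0) u := fun hc => (ns fb2c0) (hD (a 2) u (c 0) (b 2) a0.symm fc0a2.symm fa2b2 hc.symm t10.symm t2)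
    have t13 : ¬ G.Adj (c 1) u := fun hc => (ns fb2c1) (hD (a 2) u (c 1) (b 2) a0.symm fc1a2.symm fa2b2 hc.symm t10.symm t6)
    have t14 : ¬ G.Adj (c 3) u := fun hc => (ns fc3a2) (hD (b 2) u (a 2) (c 3) t10 fa2b2.symm fb2c3 a0 hc.symm t9)
    have t15 : ¬ G.Adj (b 1) u := fun hc => fb1b2 (hD (c 2) u (b 1) (b 2) t11 fb1c2.symm fb2c2.symm hc.symm t10.symm t5)
    exact hP (c 1) (b 1) (c 3) (b 2) u (c 0) fb1c1.symm fb1c3 fb2c3.symm t10 fc1c3 (ns fb2c1) t13 fb1b2 t15 t14 fc0c1 (ns fb1c0) fc0c3 (ns fb2c0) t12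
  · have t16 : ¬ G.Adj (c 2) u := fun hc => t10 (hD (a 2) (c 2) (b 2) u fc2a2.symm fa2b2 a0.symm fb2c2.symm hc (Ne.symm qub2))
    have t17 : ¬ G.Adj (b 2) v := fun hc => t10 (hD (a 2) v (b 2) u a1.symm fa2b2 a0.symm hc.symm a2.symm (Ne.symm qub2))
    have t18 : ¬ G.Adj (c 2) v := fun hc => t16 (hD (a 2) v (c 2) u a1.symm fc2a2.symm a0.symm hc.symm a2.symm (Ne.symm quc2))
    rcases Classical.em (G.Adj (b 3) u) with t19 | t19
    · have t20 : ¬ G.Adj (c 0) u := fun hc => (ns fb3c0) (hD (a 2) u (c 0) (b 3) a0.symm fc0a2.symm fa2b3 hc.symm t19.symm t3)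
      have t21 : ¬ G.Adj (c 1) u := fun hc => (ns fb3c1) (hD (a 2) u (c 1) (b 3) a0.symm fc1a2.symm fa2b3 hc.symm t19.symm t7)
      have t22 : ¬ G.Adj (a 3) u := fun hc => fa2a3 (hD (b 3) u (a 2) (a 3) t19 fa2b3.symm fa3b3.symm a0 hc.symm t8)
      have t23 : G.Adj (b 0) u := Classical.byContradiction fun hc => hP (b 0) (c 0) (a 3) (b 3) u (b 2) fb0c0 fc0a3 fa3b3 t19 (ns fa3b0) fb0b3 hc (ns fb3c0) t20 t22 (ns fb0b2) fb2c0 (ns fa3b2) fb2b3 t10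
      have t24 : ¬ G.Adj (b 1) u := fun hc => hP (c 0) (a 3) (b 3) u (b 1) (b 2) fc0a3 fa3b3 t19 hc.symm (ns fb3c0) t20 (ns fb1c0) t22 fa3b1 (ns fb1b3) fb2c0 (ns fa3b2) fb2b3 t10 (ns fb1b2)
      exact hP (b 1) (c 1) (b 0) u (b 3) (b 2) fb1c1 fb0c1.symm t23 t19.symm (ns fb0b1) t24 fb1b3 t21 (ns fb3c1) fb0b3 (ns fb1b2) fb2c1 (ns fb0b2) t10 fb2b3
    · have t25 : ¬ G.Adj (b 3) v := fun hc => t19 (hD (a 2) v (b 3) u a1.symm fa2b3 a0.symm hc.symm a2.symm (Ne.symm qub3))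
      rcases Classical.em (G.Adj (b 0) u) with t26 | t26
      · have t27 : ¬ G.Adj (b 0) v := fun hc => (ns fa2b0) (hD u v (b 0) (a 2) a2 t26.symm a0 hc.symm a1 t1)
        exact hP (b 2) (c 2) (b 0) u v (b 3) fb2c2 fb0c2.symm t26 a2 (ns fb0b2) t10 t17 t16 t18 t27 (ns fb2b3) fb3c2 (ns fb0b3) t19 t25
      · have t28 : G.Adj (a 1) u := Classical.byContradiction fun hc => hP (b 0) (c 2) (b 2) (a 1) (b 3) u fb0c2 fb2c2.symm fa1b2.symm fa1b3 fb0b2 (ns fa1b0) fb0b3 fc2a1 (ns fb3c2) fb2b3 (ns t26) (ns t16) (ns t10) (ns hc) (ns t19)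
        have t29 : ¬ G.Adj (c 0) u := fun hc => hP (b 2) (c 2) (b 0) (c 0) u (b 3) fb2c2 fb0c2.symm fb0c0 hc (ns fb0b2) fb2c0 t10 (ns fc0c2) t16 t26 (ns fb2b3) fb3c2 (ns fb0b3) fb3c0 t19
        have t30 : ¬ G.Adj (c 1) u := fun hc => hP (b 2) (c 2) (b 0) (c 1) u (b 3) fb2c2 fb0c2.symm fb0c1 hc (ns fb0b2) fb2c1 t10 (ns fc1c2) t16 t26 (ns fb2b3) fb3c2 (ns fb0b3) fb3c1 t19
        have t31 : ¬ G.Adj (b 0) v := fun hc => hP (b 2) (c 2) (b 0) v u (b 3) fb2c2 fb0c2.symm hc a2.symm (ns fb0b2) t17 t10 t18 t16 t26 (ns fb2b3) fb3c2 (ns fb0b3) t25 t19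
        have t32 : ¬ G.Adj (c 0) v := fun hc => hP (c 2) (b 0) (c 0) v u (b 3) fb0c2.symm fb0c0 hc a2.symm (ns fc0c2) t18 t16 t31 t26 t29 fb3c2 (ns fb0b3) fb3c0 t25 t19
        have t33 : ¬ G.Adj (b 1) u := fun hc => t30 (hD (a 1) (b 1) (c 1) u fa1b1 fc1a1.symm t28 fb1c1 hc (Ne.symm quc1))
        have t34 : ¬ G.Adj (a 1) v := fun hc => fa1a2 (hD u v (a 1) (a 2) a2 t28.symm a0 hc.symm a1 t4)
        have t35 : ¬ G.Adj (b 1) v := fun hc => hP (b 2) (c 2) (b 1) v u (c 0) fb2c2 fb1c2.symm hc a2.symm (ns fb1b2) t17 t10 t18 t16 t33 (ns fb2c0) fc0c2 (ns fb1c0) t32 t29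
        exact hP (b 1) (a 1) (b 2) (a 2) v (b 0) fa1b1.symm fa1b2 fa2b2.symm a1.symm fb1b2 (ns fa2b1) t35 fa1a2 t34 t17 fb0b1 (ns fa1b0) fb0b2 (ns fa2b0) t31

lemma tc_2k2 {G : SimpleGraph V} (hD : DF G) (hP : PF G) {a b c : Fin 4 → V} (h : TCs G a b c)
    {u v w z : V} (ou : Off a b c u) (ov : Off a b c v) (ow : Off a b c w) (oz : Off a b c z)
    (a0 : G.Adj u (a 2)) (a1 : G.Adj v (a 2)) (a2 : G.Adj w (b 2)) (a3 : G.Adj z (b 2)) (a4 : G.Adj u w) (a5 : G.Adj v z) (n0 : ¬ G.Adj u z) (n1 : ¬ G.Adj v w)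
    : False := by
  have fa0b0 : G.Adj (a 0) (b 0) := (h.ab 0 0).2 (by decide)
  have fc0a0 : G.Adj (c 0) (a 0) := (h.ca 0 0).2 (by decide)
  have fa0a1 : ¬ G.Adj (a 0) (a 1) := h.aa 0 1
  have fa0b1 : G.Adj (a 0) (b 1) := (h.ab 0 1).2 (by decide)
  have fc1a0 : ¬ G.Adj (c 1) (a 0) := mt (h.ca 1 0).1 (by decide)
  have fa0a2 : ¬ G.Adj (a 0) (a 2) := h.aa 0 2
  have fa0b2 : G.Adj (a 0) (b 2) := (h.ab 0 2).2 (by decide)
  have fc2a0 : ¬ G.Adj (c 2) (a 0) := mt (h.ca 2 0).1 (by decide)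
  have fa0a3 : ¬ G.Adj (a 0) (a 3) := h.aa 0 3
  have fa0b3 : G.Adj (a 0) (b 3) := (h.ab 0 3).2 (by decide)
  have fc3a0 : ¬ G.Adj (c 3) (a 0) := mt (h.ca 3 0).1 (by decide)
  have fb0c0 : G.Adj (b 0) (c 0) := (h.bc 0 0).2 (by decide)
  have fa1b0 : ¬ G.Adj (a 1) (b 0) := mt (h.ab 1 0).1 (by decide)
  have fb0b1 : ¬ G.Adj (b 0) (b 1) := h.bb 0 1
  have fb0c1 : G.Adj (b 0) (c 1) := (h.bc 0 1).2 (by decide)
  have fa2b0 : ¬ G.Adj (a 2) (b 0) := mt (h.ab 2 0).1 (by decide)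
  have fb0b2 : ¬ G.Adj (b 0) (b 2) := h.bb 0 2
  have fb0c2 : G.Adj (b 0) (c 2) := (h.bc 0 2).2 (by decide)
  have fa3b0 : ¬ G.Adj (a 3) (b 0) := mt (h.ab 3 0).1 (by decide)
  have fb0b3 : ¬ G.Adj (b 0) (b 3) := h.bb 0 3
  have fb0c3 : G.Adj (b 0) (c 3) := (h.bc 0 3).2 (by decide)
  have fc0a1 : G.Adj (c 0) (a 1) := (h.ca 0 1).2 (by decide)
  have fb1c0 : ¬ G.Adj (b 1) (c 0) := mt (h.bc 1 0).1 (by decide)
  have fc0c1 : ¬ G.Adj (c 0) (c 1) := h.cc 0 1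
  have fc0a2 : G.Adj (c 0) (a 2) := (h.ca 0 2).2 (by decide)
  have fb2c0 : ¬ G.Adj (b 2) (c 0) := mt (h.bc 2 0).1 (by decide)
  have fc0c2 : ¬ G.Adj (c 0) (c 2) := h.cc 0 2
  have fc0a3 : G.Adj (c 0) (a 3) := (h.ca 0 3).2 (by decide)
  have fb3c0 : ¬ G.Adj (b 3) (c 0) := mt (h.bc 3 0).1 (by decide)
  have fc0c3 : ¬ G.Adj (c 0) (c 3) := h.cc 0 3
  have fa1b1 : G.Adj (a 1) (b 1) := (h.ab 1 1).2 (by decide)
  have fc1a1 : G.Adj (c 1) (a 1) := (h.ca 1 1).2 (by decide)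
  have fa1a2 : ¬ G.Adj (a 1) (a 2) := h.aa 1 2
  have fa1b2 : G.Adj (a 1) (b 2) := (h.ab 1 2).2 (by decide)
  have fc2a1 : ¬ G.Adj (c 2) (a 1) := mt (h.ca 2 1).1 (by decide)
  have fa1a3 : ¬ G.Adj (a 1) (a 3) := h.aa 1 3
  have fa1b3 : G.Adj (a 1) (b 3) := (h.ab 1 3).2 (by decide)
  have fc3a1 : ¬ G.Adj (c 3) (a 1) := mt (h.ca 3 1).1 (by decide)
  have fb1c1 : G.Adj (b 1) (c 1) := (h.bc 1 1).2 (by decide)
  have fa2b1 : ¬ G.Adj (a 2) (b 1) := mt (h.ab 2 1).1 (by decide)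
  have fb1b2 : ¬ G.Adj (b 1) (b 2) := h.bb 1 2
  have fb1c2 : G.Adj (b 1) (c 2) := (h.bc 1 2).2 (by decide)
  have fa3b1 : ¬ G.Adj (a 3) (b 1) := mt (h.ab 3 1).1 (by decide)
  have fb1b3 : ¬ G.Adj (b 1) (b 3) := h.bb 1 3
  have fc1a2 : G.Adj (c 1) (a 2) := (h.ca 1 2).2 (by decide)
  have fb2c1 : ¬ G.Adj (b 2) (c 1) := mt (h.bc 2 1).1 (by decide)
  have fc1c2 : ¬ G.Adj (c 1) (c 2) := h.cc 1 2
  have fc1a3 : G.Adj (c 1) (a 3) := (h.ca 1 3).2 (by decide)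
  have fb3c1 : ¬ G.Adj (b 3) (c 1) := mt (h.bc 3 1).1 (by decide)
  have fc1c3 : ¬ G.Adj (c 1) (c 3) := h.cc 1 3
  have fa2b2 : G.Adj (a 2) (b 2) := (h.ab 2 2).2 (by decide)
  have fc2a2 : G.Adj (c 2) (a 2) := (h.ca 2 2).2 (by decide)
  have fa2a3 : ¬ G.Adj (a 2) (a 3) := h.aa 2 3
  have fa2b3 : G.Adj (a 2) (b 3) := (h.ab 2 3).2 (by decide)
  have fc3a2 : ¬ G.Adj (c 3) (a 2) := mt (h.ca 3 2).1 (by decide)
  have fb2c2 : G.Adj (b 2) (c 2) := (h.bc 2 2).2 (by decide)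
  have fa3b2 : ¬ G.Adj (a 3) (b 2) := mt (h.ab 3 2).1 (by decide)
  have fb2b3 : ¬ G.Adj (b 2) (b 3) := h.bb 2 3
  have fb2c3 : G.Adj (b 2) (c 3) := (h.bc 2 3).2 (by decide)
  have fc2a3 : G.Adj (c 2) (a 3) := (h.ca 2 3).2 (by decide)
  have fb3c2 : ¬ G.Adj (b 3) (c 2) := mt (h.bc 3 2).1 (by decide)
  have fc2c3 : ¬ G.Adj (c 2) (c 3) := h.cc 2 3
  have fa3b3 : G.Adj (a 3) (b 3) := (h.ab 3 3).2 (by decide)
  have fc3a3 : G.Adj (c 3) (a 3) := (h.ca 3 3).2 (by decide)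
  have fb3c3 : G.Adj (b 3) (c 3) := (h.bc 3 3).2 (by decide)
  have quc0 := (ou 0).2.2
  have qub2 := (ou 2).2.1
  have qvb2 := (ov 2).2.1
  have qwa0 := (ow 0).1
  have qwa2 := (ow 2).1
  have qwc2 := (ow 2).2.2
  have qza0 := (oz 0).1
  have qza2 := (oz 2).1
  have qzc2 := (oz 2).2.2
  have t1 : (a 0) ≠ (a 1) := fun hc => eqa hc fa0b0 fa1b0
  have t2 : (a 0) ≠ (c 3) := fun hc => eqa hc fc0a0.symm (ns fc0c3)
  have t3 : (b 0) ≠ (a 2) := fun hc => eqa hc fa0b0.symm (ns fa0a2)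
  have t4 : (b 0) ≠ (a 3) := fun hc => eqa hc fa0b0.symm (ns fa0a3)
  have t5 : (c 0) ≠ (c 1) := fun hc => eqa hc fc0a0 fc1a0
  have t6 : (c 0) ≠ (b 2) := fun hc => eqa hc fb0c0.symm (ns fb0b2)
  have t7 : (c 0) ≠ (b 3) := fun hc => eqa hc fb0c0.symm (ns fb0b3)
  have t8 : (a 1) ≠ (a 2) := fun hc => eqa hc fa1b1 fa2b1
  have t9 : (a 1) ≠ (c 3) := fun hc => eqa hc.symm fb0c3.symm fa1b0
  have t10 : (b 1) ≠ (a 2) := fun hc => eqa hc fa0b1.symm (ns fa0a2)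
  have t11 : (b 1) ≠ (b 2) := fun hc => eqa hc fb1c1 fb2c1
  have t12 : (c 1) ≠ (b 3) := fun hc => eqa hc.symm fa0b3.symm fc1a0
  have t13 : (a 2) ≠ (a 3) := fun hc => eqa hc fa2b2 fa3b2
  have t14 : (b 2) ≠ (a 3) := fun hc => eqa hc fa0b2.symm (ns fa0a3)
  have t15 : (b 2) ≠ (b 3) := fun hc => eqa hc fb2c2 fb3c2
  rcases Classical.em (G.Adj (a 2) w) with t16 | t16
  · have t17 : G.Adj (c 2) w := Classical.byContradiction fun hc => hc (hD (a 2) (b 2) (c 2) w fa2b2 fc2a2.symm t16 fb2c2 a2.symm (Ne.symm qwc2))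
    have t18 : ¬ G.Adj (b 3) w := fun hc => fb2b3 (hD (a 2) w (b 2) (b 3) t16 fa2b2 fa2b3 a2 hc.symm t15)
    have t19 : ¬ G.Adj (a 1) w := fun hc => fa1a2 (hD (b 2) w (a 1) (a 2) a2.symm fa1b2.symm fa2b2.symm hc.symm t16.symm t8)
    have t20 : ¬ G.Adj (b 0) w := fun hc => (ns fa2b0) (hD (c 2) w (b 0) (a 2) t17 fb0c2.symm fc2a2 hc.symm t16.symm t3)
    have t21 : ¬ G.Adj (b 1) w := fun hc => (ns fa2b1) (hD (c 2) w (b 1) (a 2) t17 fb1c2.symm fc2a2 hc.symm t16.symm t10)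
    exact hP (b 1) (a 1) (b 3) (a 2) w (b 0) fa1b1.symm fa1b3 fa2b3.symm t16 fb1b3 (ns fa2b1) t21 fa1a2 t19 t18 fb0b1 (ns fa1b0) fb0b3 (ns fa2b0) t20
  · have t22 : ¬ G.Adj (c 2) w := fun hc => t16 (hD (b 2) (c 2) (a 2) w fb2c2 fa2b2.symm a2.symm fc2a2 hc (Ne.symm qwa2))
    have t23 : ¬ G.Adj (b 2) u := fun hc => t16 (hD (b 2) u (a 2) w hc fa2b2.symm a2.symm a0 a4 (Ne.symm qwa2))
    have t24 : ¬ G.Adj (c 2) u := fun hc => t23 (hD (a 2) (c 2) (b 2) u fc2a2.symm fa2b2 a0.symm fb2c2.symm hc (Ne.symm qub2))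
    rcases Classical.em (G.Adj (a 2) z) with t25 | t25
    · have t26 : G.Adj (c 2) z := Classical.byContradiction fun hc => hc (hD (a 2) (b 2) (c 2) z fa2b2 fc2a2.symm t25 fb2c2 a3.symm (Ne.symm qzc2))
      have t27 : ¬ G.Adj (b 3) z := fun hc => fb2b3 (hD (a 2) z (b 2) (b 3) t25 fa2b2 fa2b3 a3 hc.symm t15)
      have t28 : ¬ G.Adj (a 1) z := fun hc => fa1a2 (hD (b 2) z (a 1) (a 2) a3.symm fa1b2.symm fa2b2.symm hc.symm t25.symm t8)
      have t29 : ¬ G.Adj (b 0) z := fun hc => (ns fa2b0) (hD (c 2) z (b 0) (a 2) t26 fb0c2.symm fc2a2 hc.symm t25.symm t3)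
      have t30 : ¬ G.Adj (b 1) z := fun hc => (ns fa2b1) (hD (c 2) z (b 1) (a 2) t26 fb1c2.symm fc2a2 hc.symm t25.symm t10)
      exact hP (b 1) (a 1) (b 3) (a 2) z (b 0) fa1b1.symm fa1b3 fa2b3.symm t25 fb1b3 (ns fa2b1) t30 fa1a2 t28 t27 fb0b1 (ns fa1b0) fb0b3 (ns fa2b0) t29
    · have t31 : ¬ G.Adj (c 2) z := fun hc => t25 (hD (b 2) (c 2) (a 2) z fb2c2 fa2b2.symm a3.symm fc2a2 hc (Ne.symm qza2))
      have t32 : ¬ G.Adj (b 2) v := fun hc => t25 (hD (b 2) v (a 2) z hc fa2b2.symm a3.symm a1 a5 (Ne.symm qza2))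
      have t33 : ¬ G.Adj (c 2) v := fun hc => t32 (hD (a 2) (c 2) (b 2) v fc2a2.symm fa2b2 a1.symm fb2c2.symm hc (Ne.symm qvb2))
      rcases Classical.em (G.Adj (a 1) w) with t34 | t34
      · have t35 : ¬ G.Adj (b 1) w := fun hc => fb1b2 (hD (a 1) w (b 1) (b 2) t34 fa1b1 fa1b2 hc.symm a2 t11)
        have t36 : ¬ G.Adj (a 0) w := fun hc => fa0a1 (hD (b 2) w (a 0) (a 1) a2.symm fa0b2.symm fa1b2.symm hc.symm t34.symm t1)
        have t37 : ¬ G.Adj (c 3) w := fun hc => (ns fc3a1) (hD (b 2) w (a 1) (c 3) a2.symm fa1b2.symm fb2c3 t34.symm hc.symm t9)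
        have t38 : ¬ G.Adj (a 3) w := fun hc => hP (a 0) (b 1) (a 1) w (a 3) (a 2) fa0b1 fa1b1.symm t34 hc.symm fa0a1 t36 fa0a3 t35 (ns fa3b1) fa1a3 (ns fa0a2) fa2b1 (ns fa1a2) t16 fa2a3
        have t39 : G.Adj (b 0) w := Classical.byContradiction fun hc => hP (b 0) (a 0) (b 1) (a 1) w (a 2) fa0b0.symm fa0b1 fa1b1.symm t34 fb0b1 (ns fa1b0) hc fa0a1 t36 t35 fa2b0 (ns fa0a2) fa2b1 (ns fa1a2) t16
        exact hP (a 1) w (b 0) (c 3) (a 3) (a 2) t34 t39.symm fb0c3 fc3a3 fa1b0 (ns fc3a1) fa1a3 (ns t37) (ns t38) (ns fa3b0) (ns fa1a2) t16 fa2b0 (ns fc3a2) fa2a3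
      · rcases Classical.em (G.Adj (a 1) z) with t40 | t40
        · have t41 : ¬ G.Adj (b 1) z := fun hc => fb1b2 (hD (a 1) z (b 1) (b 2) t40 fa1b1 fa1b2 hc.symm a3 t11)
          have t42 : ¬ G.Adj (a 0) z := fun hc => fa0a1 (hD (b 2) z (a 0) (a 1) a3.symm fa0b2.symm fa1b2.symm hc.symm t40.symm t1)
          have t43 : ¬ G.Adj (c 3) z := fun hc => (ns fc3a1) (hD (b 2) z (a 1) (c 3) a3.symm fa1b2.symm fb2c3 t40.symm hc.symm t9)
          have t44 : ¬ G.Adj (a 3) z := fun hc => hP (a 0) (b 1) (a 1) z (a 3) (a 2) fa0b1 fa1b1.symm t40 hc.symm fa0a1 t42 fa0a3 t41 (ns fa3b1) fa1a3 (ns fa0a2) fa2b1 (ns fa1a2) t25 fa2a3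
          have t45 : G.Adj (b 0) z := Classical.byContradiction fun hc => hP (b 0) (a 0) (b 1) (a 1) z (a 2) fa0b0.symm fa0b1 fa1b1.symm t40 fb0b1 (ns fa1b0) hc fa0a1 t42 t41 fa2b0 (ns fa0a2) fa2b1 (ns fa1a2) t25
          exact hP (a 1) z (b 0) (c 3) (a 3) (a 2) t40 t45.symm fb0c3 fc3a3 fa1b0 (ns fc3a1) fa1a3 (ns t43) (ns t44) (ns fa3b0) (ns fa1a2) t25 fa2b0 (ns fc3a2) fa2a3
        · rcases Classical.em (G.Adj (c 3) w) with t46 | t46
          · have t47 : ¬ G.Adj (a 0) w := fun hc => (ns fc3a0) (hD (b 2) w (a 0) (c 3) a2.symm fa0b2.symm fb2c3 hc.symm t46.symm t2)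
            have t48 : ¬ G.Adj (a 3) w := fun hc => (ns fa3b2) (hD (c 3) w (b 2) (a 3) t46 fb2c3.symm fc3a3 a2 hc.symm t14)
            have t49 : ¬ G.Adj (b 3) w := fun hc => fb2b3 (hD (c 3) w (b 2) (b 3) t46 fb2c3.symm fb3c3.symm a2 hc.symm t15)
            have t50 : ¬ G.Adj (c 1) w := fun hc => hP (a 0) (b 3) (c 3) w (c 1) (c 2) fa0b3 fb3c3 t46 hc.symm (ns fc3a0) t47 (ns fc1a0) t49 fb3c1 (ns fc1c3) fc2a0 (ns fb3c2) fc2c3 t22 (ns fc1c2)
            exact hP (a 1) (c 1) (a 3) (c 3) w (a 0) fc1a1.symm fc1a3 fc3a3.symm t46 fa1a3 (ns fc3a1) t34 fc1c3 t50 t48 fa0a1 (ns fc1a0) fa0a3 (ns fc3a0) t47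
          · rcases Classical.em (G.Adj (c 3) z) with t51 | t51
            · have t52 : ¬ G.Adj (a 0) z := fun hc => (ns fc3a0) (hD (b 2) z (a 0) (c 3) a3.symm fa0b2.symm fb2c3 hc.symm t51.symm t2)
              have t53 : ¬ G.Adj (a 3) z := fun hc => (ns fa3b2) (hD (c 3) z (b 2) (a 3) t51 fb2c3.symm fc3a3 a3 hc.symm t14)
              have t54 : ¬ G.Adj (b 3) z := fun hc => fb2b3 (hD (c 3) z (b 2) (b 3) t51 fb2c3.symm fb3c3.symm a3 hc.symm t15)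
              have t55 : ¬ G.Adj (c 1) z := fun hc => hP (a 0) (b 3) (c 3) z (c 1) (c 2) fa0b3 fb3c3 t51 hc.symm (ns fc3a0) t52 (ns fc1a0) t54 fb3c1 (ns fc1c3) fc2a0 (ns fb3c2) fc2c3 t31 (ns fc1c2)
              exact hP (a 1) (c 1) (a 3) (c 3) z (a 0) fc1a1.symm fc1a3 fc3a3.symm t51 fa1a3 (ns fc3a1) t40 fc1c3 t55 t53 fa0a1 (ns fc1a0) fa0a3 (ns fc3a0) t52
            · rcases Classical.em (G.Adj (a 0) w) with t56 | t56
              · have t57 : ¬ G.Adj (c 0) w := fun hc => (ns fb2c0) (hD (a 0) w (c 0) (b 2) t56 fc0a0.symm fa0b2 hc.symm a2 t6)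
                have t58 : ¬ G.Adj (c 1) w := fun hc => hP (a 0) w (c 1) (a 2) (c 2) (c 3) t56 hc.symm fc1a2 fc2a2.symm (ns fc1a0) fa0a2 (ns fc2a0) (ns t16) (ns t22) fc1c2 fc3a0 t46 (ns fc1c3) fc3a2 (ns fc2c3)
                exact hP (c 1) (a 1) (c 0) (a 0) w (c 2) fc1a1 fc0a1.symm fc0a0 t56 (ns fc0c1) fc1a0 t58 (ns fa0a1) t34 t57 (ns fc1c2) fc2a1 (ns fc0c2) fc2a0 t22
              · rcases Classical.em (G.Adj (a 0) z) with t59 | t59
                · have t60 : ¬ G.Adj (c 0) z := fun hc => (ns fb2c0) (hD (a 0) z (c 0) (b 2) t59 fc0a0.symm fa0b2 hc.symm a3 t6)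
                  have t61 : ¬ G.Adj (c 1) z := fun hc => hP (a 0) z (c 1) (a 2) (c 2) (c 3) t59 hc.symm fc1a2 fc2a2.symm (ns fc1a0) fa0a2 (ns fc2a0) (ns t25) (ns t31) fc1c2 fc3a0 t51 (ns fc1c3) fc3a2 (ns fc2c3)
                  exact hP (c 1) (a 1) (c 0) (a 0) z (c 2) fc1a1 fc0a1.symm fc0a0 t59 (ns fc0c1) fc1a0 t61 (ns fa0a1) t40 t60 (ns fc1c2) fc2a1 (ns fc0c2) fc2a0 t31
                · rcases Classical.em (G.Adj (b 3) u) with t62 | t62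
                  · have t63 : ¬ G.Adj (c 0) u := fun hc => (ns fb3c0) (hD (a 2) u (c 0) (b 3) a0.symm fc0a2.symm fa2b3 hc.symm t62.symm t7)
                    have t64 : ¬ G.Adj (c 1) u := fun hc => (ns fb3c1) (hD (a 2) u (c 1) (b 3) a0.symm fc1a2.symm fa2b3 hc.symm t62.symm t12)
                    have t65 : ¬ G.Adj (a 3) u := fun hc => fa2a3 (hD (b 3) u (a 2) (a 3) t62 fa2b3.symm fa3b3.symm a0 hc.symm t13)
                    have t66 : G.Adj (b 0) u := Classical.byContradiction fun hc => hP (b 0) (c 0) (a 3) (b 3) u (b 2) fb0c0 fc0a3 fa3b3 t62 (ns fa3b0) fb0b3 hc (ns fb3c0) t63 t65 (ns fb0b2) fb2c0 (ns fa3b2) fb2b3 t23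
                    have t67 : ¬ G.Adj (b 1) u := fun hc => hP (c 0) (a 3) (b 3) u (b 1) (b 2) fc0a3 fa3b3 t62 hc.symm (ns fb3c0) t63 (ns fb1c0) t65 fa3b1 (ns fb1b3) fb2c0 (ns fa3b2) fb2b3 t23 (ns fb1b2)
                    exact hP (b 1) (c 1) (b 0) u (b 3) (b 2) fb1c1 fb0c1.symm t66 t62.symm (ns fb0b1) t67 fb1b3 t64 (ns fb3c1) fb0b3 (ns fb1b2) fb2c1 (ns fb0b2) t23 fb2b3
                  · rcases Classical.em (G.Adj (b 0) z) with t68 | t68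
                    · have t69 : ¬ G.Adj (c 0) z := fun hc => t59 (hD (b 0) (c 0) (a 0) z fb0c0 fa0b0.symm t68 fc0a0 hc (Ne.symm qza0))
                      have t70 : ¬ G.Adj (c 1) z := fun hc => hP (a 0) (c 0) (a 1) (c 1) z (c 2) fc0a0.symm fc0a1 fc1a1.symm hc fa0a1 (ns fc1a0) t59 fc0c1 t69 t40 fc2a0 (ns fc0c2) fc2a1 (ns fc1c2) t31
                      rcases Classical.em (G.Adj (c 1) v) with t71 | t71
                      · have t72 : ¬ G.Adj (a 1) v := fun hc => fa1a2 (hD (c 1) v (a 1) (a 2) t71 fc1a1 fc1a2 hc.symm a1 t8)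
                        have t73 : ¬ G.Adj (c 0) v := fun hc => fc0c1 (hD (a 2) v (c 0) (c 1) a1.symm fc0a2.symm fc1a2.symm hc.symm t71.symm t5)
                        have t74 : ¬ G.Adj (b 3) v := fun hc => (ns fb3c1) (hD (a 2) v (c 1) (b 3) a1.symm fc1a2.symm fa2b3 t71.symm hc.symm t12)
                        have t75 : G.Adj (a 0) v := Classical.byContradiction fun hc => hP (a 0) (c 0) (a 1) (c 1) v (c 2) fc0a0.symm fc0a1 fc1a1.symm t71 fa0a1 (ns fc1a0) hc fc0c1 t73 t72 fc2a0 (ns fc0c2) fc2a1 (ns fc1c2) t33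
                        have t76 : ¬ G.Adj (c 3) v := fun hc => hP (c 0) (a 1) (c 1) v (c 3) (c 2) fc0a1 fc1a1.symm t71 hc.symm fc0c1 t73 fc0c3 t72 (ns fc3a1) fc1c3 (ns fc0c2) fc2a1 (ns fc1c2) t33 fc2c3
                        exact hP (c 1) v (a 0) (b 3) (c 3) (c 2) t71 t75.symm fa0b3 fb3c3 fc1a0 (ns fb3c1) fc1c3 (ns t74) (ns t76) (ns fc3a0) (ns fc1c2) t33 fc2a0 (ns fb3c2) fc2c3
                      · have t77 : ¬ G.Adj (c 0) v := fun hc => hP (c 0) v z (b 2) (c 2) (c 1) hc a5 a3 fb2c2 t69 (ns fb2c0) fc0c2 (ns t32) (ns t33) (ns t31) (ns fc0c1) t71 t70 (ns fb2c1) fc1c2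
                        have t78 : G.Adj (a 0) v := Classical.byContradiction fun hc => hP (c 0) (a 0) (b 2) z v (c 1) fc0a0 fa0b2 a3.symm a5.symm (ns fb2c0) t69 t77 t59 hc t32 (ns fc0c1) fc1a0 (ns fb2c1) t70 t71
                        have t79 : G.Adj (a 1) v := Classical.byContradiction fun hc => hP (a 1) (c 0) (a 0) v z (c 2) fc0a1.symm fc0a0 t78 a5 (ns fa0a1) hc t40 t77 t69 t59 fc2a1 (ns fc0c2) fc2a0 t33 t31
                        have t80 : ¬ G.Adj (c 1) w := fun hc => hP (a 0) v (a 1) (c 1) w (c 2) t78 t79.symm fc1a1.symm hc fa0a1 (ns fc1a0) t56 (ns t71) n1 t34 fc2a0 t33 fc2a1 (ns fc1c2) t22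
                        have t81 : ¬ G.Adj w z := fun hc => hP (c 1) (a 1) v z w (c 2) fc1a1 t79 a5 hc.symm t71 t70 t80 t40 t34 n1 (ns fc1c2) fc2a1 t33 t31 t22
                        have t82 : ¬ G.Adj (c 0) w := fun hc => hP w (c 0) (a 1) v z (c 2) hc.symm fc0a1 t79 a5 (ns t34) (ns n1) t81 t77 t69 t40 t22 (ns fc0c2) fc2a1 t33 t31
                        rcases Classical.em (G.Adj (c 0) u) with t83 | t83
                        · have t84 : ¬ G.Adj (b 0) u := fun hc => (ns fa2b0) (hD (c 0) u (b 0) (a 2) t83 fb0c0.symm fc0a2 hc.symm a0 t3)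
                          have t85 : ¬ G.Adj (c 1) u := fun hc => fc0c1 (hD (a 2) u (c 0) (c 1) a0.symm fc0a2.symm fc1a2.symm t83.symm hc.symm t5)
                          have t86 : ¬ G.Adj (b 1) u := fun hc => hP (c 0) u (b 1) (c 2) (b 2) (b 3) t83 hc.symm fb1c2 fb2c2.symm (ns fb1c0) fc0c2 (ns fb2c0) (ns t24) (ns t23) fb1b2 fb3c0 t62 (ns fb1b3) fb3c2 (ns fb2b3)
                          exact hP (b 1) (c 1) (b 0) (c 0) u (b 2) fb1c1 fb0c1.symm fb0c0 t83 (ns fb0b1) fb1c0 t86 (ns fc0c1) t85 t84 (ns fb1b2) fb2c1 (ns fb0b2) fb2c0 t23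
                        · have t87 : G.Adj u v := Classical.byContradiction fun hc => hP u w (b 2) z v (c 0) a4 a2 a3.symm a5.symm (ns t23) n0 hc t81 (ns n1) t32 t83 t82 (ns fb2c0) t69 t77
                          exact hP (c 2) (b 2) w u v (c 0) fb2c2.symm a2.symm a4.symm t87 t22 t24 t33 t23 t32 (ns n1) fc0c2 (ns fb2c0) t82 t83 t77
                    · have t88 : ¬ G.Adj (a 3) z := fun hc => hP (a 0) (b 0) (c 2) (a 3) z (a 1) fa0b0 fb0c2 fc2a3 hc (ns fc2a0) fa0a3 t59 (ns fa3b0) t68 t31 (ns fa0a1) fa1b0 (ns fc2a1) fa1a3 t40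
                      have t89 : G.Adj (b 3) z := Classical.byContradiction fun hc => hP (b 0) (c 2) (a 2) (b 3) (a 1) z fb0c2 fc2a2 fa2b3 fa1b3.symm (ns fa2b0) fb0b3 (ns fa1b0) (ns fb3c2) fc2a1 (ns fa1a2) (ns t68) (ns t31) (ns t25) (ns hc) (ns t40)
                      have t90 : G.Adj (b 0) u := Classical.byContradiction fun hc => hP (b 0) (c 2) (b 2) z (b 3) u fb0c2 fb2c2.symm a3.symm t89.symm fb0b2 t68 fb0b3 t31 (ns fb3c2) fb2b3 (ns hc) (ns t24) (ns t23) n0 (ns t62)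
                      have t91 : G.Adj (a 3) u := Classical.byContradiction fun hc => hP (b 0) u (a 2) (b 2) z (a 3) t90 a0 fa2b2 a3.symm (ns fa2b0) fb0b2 t68 (ns t23) n0 t25 fa3b0 hc (ns fa2a3) fa3b2 t88
                      have t92 : ¬ G.Adj (b 3) v := fun hc => t25 (hD (b 3) v (a 2) z hc fa2b3.symm t89 a1 a5 (Ne.symm qza2))
                      have t93 : ¬ G.Adj (c 0) u := fun hc => (ns fa2b0) (hD (c 0) u (b 0) (a 2) hc fb0c0.symm fc0a2 t90.symm a0 t3)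
                      have t94 : ¬ G.Adj (c 3) u := fun hc => (ns fa3b0) (hD (c 3) u (b 0) (a 3) hc fb0c3.symm fc3a3 t90.symm t91.symm t4)
                      have t95 : ¬ G.Adj (a 0) u := fun hc => t93 (hD (a 0) (b 0) (c 0) u fa0b0 fc0a0.symm hc fb0c0 t90 (Ne.symm quc0))
                      have t96 : G.Adj (c 0) w := Classical.byContradiction fun hc => hP (a 0) (c 0) (a 2) u w (c 3) fc0a0.symm fc0a2 a0.symm a4 fa0a2 t95 t56 t93 hc t16 fc3a0 (ns fc0c3) fc3a2 t94 t46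
                      have t97 : G.Adj (b 3) w := Classical.byContradiction fun hc => hP (b 3) (a 0) (c 0) w u (c 2) fa0b3.symm fc0a0.symm t96 a4.symm fb3c0 hc t62 t56 t95 t93 (ns fb3c2) fc2a0 (ns fc0c2) t22 t24
                      have t98 : ¬ G.Adj w z := fun hc => hP (c 2) (a 2) u w z (c 3) fc2a2 a0.symm a4 hc t24 t22 t31 t16 t25 n0 (ns fc2c3) fc3a2 t94 t46 t51
                      have t99 : ¬ G.Adj (b 0) w := fun hc => t56 (hD (b 0) (c 0) (a 0) w fb0c0 fa0b0.symm hc fc0a0 t96 (Ne.symm qwa0))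
                      have t100 : G.Adj (b 0) v := Classical.byContradiction fun hc => hP (b 0) (c 2) (b 2) w (b 3) v fb0c2 fb2c2.symm a2.symm t97.symm fb0b2 t99 fb0b3 t22 (ns fb3c2) fb2b3 (ns hc) (ns t33) (ns t32) n1 (ns t92)
                      have t101 : G.Adj u v := Classical.byContradiction fun hc => hP u w (b 3) z v (c 2) a4 t97.symm t89 a5.symm (ns t62) n0 hc t98 (ns n1) t92 t24 t22 (ns fb3c2) t31 t33
                      exact (ns fa2b0) (hD u v (b 0) (a 2) t101 t90.symm a0 t100.symm a1 t3)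

lemma tc_3p1 {G : SimpleGraph V} (hD : DF G) (hP : PF G) {a b c : Fin 4 → V} (h : TCs G a b c)
    {u v w : V} (ou : Off a b c u) (ov : Off a b c v) (ow : Off a b c w)
    (a0 : G.Adj u (a 2)) (a1 : G.Adj v (b 2)) (a2 : G.Adj w (c 2)) (n0 : ¬ G.Adj u v) (n1 : ¬ G.Adj u w) (n2 : ¬ G.Adj v w)
    : False := by
  have fa0b0 : G.Adj (a 0) (b 0) := (h.ab 0 0).2 (by decide)
  have fc0a0 : G.Adj (c 0) (a 0) := (h.ca 0 0).2 (by decide)
  have fa0a1 : ¬ G.Adj (a 0) (a 1) := h.aa 0 1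
  have fa0b1 : G.Adj (a 0) (b 1) := (h.ab 0 1).2 (by decide)
  have fc1a0 : ¬ G.Adj (c 1) (a 0) := mt (h.ca 1 0).1 (by decide)
  have fa0a2 : ¬ G.Adj (a 0) (a 2) := h.aa 0 2
  have fa0b2 : G.Adj (a 0) (b 2) := (h.ab 0 2).2 (by decide)
  have fc2a0 : ¬ G.Adj (c 2) (a 0) := mt (h.ca 2 0).1 (by decide)
  have fa0a3 : ¬ G.Adj (a 0) (a 3) := h.aa 0 3
  have fa0b3 : G.Adj (a 0) (b 3) := (h.ab 0 3).2 (by decide)
  have fb0c0 : G.Adj (b 0) (c 0) := (h.bc 0 0).2 (by decide)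
  have fa1b0 : ¬ G.Adj (a 1) (b 0) := mt (h.ab 1 0).1 (by decide)
  have fb0b1 : ¬ G.Adj (b 0) (b 1) := h.bb 0 1
  have fb0c1 : G.Adj (b 0) (c 1) := (h.bc 0 1).2 (by decide)
  have fa2b0 : ¬ G.Adj (a 2) (b 0) := mt (h.ab 2 0).1 (by decide)
  have fb0b2 : ¬ G.Adj (b 0) (b 2) := h.bb 0 2
  have fb0c2 : G.Adj (b 0) (c 2) := (h.bc 0 2).2 (by decide)
  have fa3b0 : ¬ G.Adj (a 3) (b 0) := mt (h.ab 3 0).1 (by decide)
  have fb0b3 : ¬ G.Adj (b 0) (b 3) := h.bb 0 3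
  have fb0c3 : G.Adj (b 0) (c 3) := (h.bc 0 3).2 (by decide)
  have fc0a1 : G.Adj (c 0) (a 1) := (h.ca 0 1).2 (by decide)
  have fb1c0 : ¬ G.Adj (b 1) (c 0) := mt (h.bc 1 0).1 (by decide)
  have fc0c1 : ¬ G.Adj (c 0) (c 1) := h.cc 0 1
  have fc0a2 : G.Adj (c 0) (a 2) := (h.ca 0 2).2 (by decide)
  have fb2c0 : ¬ G.Adj (b 2) (c 0) := mt (h.bc 2 0).1 (by decide)
  have fc0c2 : ¬ G.Adj (c 0) (c 2) := h.cc 0 2
  have fc0c3 : ¬ G.Adj (c 0) (c 3) := h.cc 0 3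
  have fa1b1 : G.Adj (a 1) (b 1) := (h.ab 1 1).2 (by decide)
  have fc1a1 : G.Adj (c 1) (a 1) := (h.ca 1 1).2 (by decide)
  have fa1a2 : ¬ G.Adj (a 1) (a 2) := h.aa 1 2
  have fa1b2 : G.Adj (a 1) (b 2) := (h.ab 1 2).2 (by decide)
  have fc2a1 : ¬ G.Adj (c 2) (a 1) := mt (h.ca 2 1).1 (by decide)
  have fa1a3 : ¬ G.Adj (a 1) (a 3) := h.aa 1 3
  have fa1b3 : G.Adj (a 1) (b 3) := (h.ab 1 3).2 (by decide)
  have fc3a1 : ¬ G.Adj (c 3) (a 1) := mt (h.ca 3 1).1 (by decide)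
  have fb1c1 : G.Adj (b 1) (c 1) := (h.bc 1 1).2 (by decide)
  have fa2b1 : ¬ G.Adj (a 2) (b 1) := mt (h.ab 2 1).1 (by decide)
  have fb1b2 : ¬ G.Adj (b 1) (b 2) := h.bb 1 2
  have fb1c2 : G.Adj (b 1) (c 2) := (h.bc 1 2).2 (by decide)
  have fa3b1 : ¬ G.Adj (a 3) (b 1) := mt (h.ab 3 1).1 (by decide)
  have fb1b3 : ¬ G.Adj (b 1) (b 3) := h.bb 1 3
  have fb1c3 : G.Adj (b 1) (c 3) := (h.bc 1 3).2 (by decide)
  have fc1a2 : G.Adj (c 1) (a 2) := (h.ca 1 2).2 (by decide)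
  have fb2c1 : ¬ G.Adj (b 2) (c 1) := mt (h.bc 2 1).1 (by decide)
  have fc1c2 : ¬ G.Adj (c 1) (c 2) := h.cc 1 2
  have fc1c3 : ¬ G.Adj (c 1) (c 3) := h.cc 1 3
  have fa2b2 : G.Adj (a 2) (b 2) := (h.ab 2 2).2 (by decide)
  have fc2a2 : G.Adj (c 2) (a 2) := (h.ca 2 2).2 (by decide)
  have fa2a3 : ¬ G.Adj (a 2) (a 3) := h.aa 2 3
  have fa2b3 : G.Adj (a 2) (b 3) := (h.ab 2 3).2 (by decide)
  have fc3a2 : ¬ G.Adj (c 3) (a 2) := mt (h.ca 3 2).1 (by decide)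
  have fb2c2 : G.Adj (b 2) (c 2) := (h.bc 2 2).2 (by decide)
  have fa3b2 : ¬ G.Adj (a 3) (b 2) := mt (h.ab 3 2).1 (by decide)
  have fb2b3 : ¬ G.Adj (b 2) (b 3) := h.bb 2 3
  have fb2c3 : G.Adj (b 2) (c 3) := (h.bc 2 3).2 (by decide)
  have fc2a3 : G.Adj (c 2) (a 3) := (h.ca 2 3).2 (by decide)
  have fb3c2 : ¬ G.Adj (b 3) (c 2) := mt (h.bc 3 2).1 (by decide)
  have fc3a3 : G.Adj (c 3) (a 3) := (h.ca 3 3).2 (by decide)
  have quc0 := (ou 0).2.2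
  have quc1 := (ou 1).2.2
  have qub2 := (ou 2).2.1
  have quc2 := (ou 2).2.2
  have qva2 := (ov 2).1
  have qvc2 := (ov 2).2.2
  have qwb1 := (ow 1).2.1
  have qwa2 := (ow 2).1
  have qwb2 := (ow 2).2.1
  have t1 : (a 0) ≠ (a 1) := fun hc => eqa hc fa0b0 fa1b0
  have t2 : (b 0) ≠ (a 2) := fun hc => eqa hc fa0b0.symm (ns fa0a2)
  have t3 : (c 0) ≠ (b 2) := fun hc => eqa hc fb0c0.symm (ns fb0b2)
  have t4 : (a 1) ≠ (a 2) := fun hc => eqa hc fa1b1 fa2b1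
  have t5 : (a 1) ≠ (c 2) := fun hc => eqa hc.symm fb0c2.symm fa1b0
  have t6 : (a 1) ≠ (c 3) := fun hc => eqa hc.symm fb0c3.symm fa1b0
  have t7 : (b 1) ≠ (a 2) := fun hc => eqa hc fa0b1.symm (ns fa0a2)
  have t8 : (b 1) ≠ (b 2) := fun hc => eqa hc fb1c1 fb2c1
  have t9 : (c 1) ≠ (b 2) := fun hc => eqa hc.symm fa0b2.symm fc1a0
  have t10 : (a 2) ≠ (c 3) := fun hc => eqa hc.symm fb0c3.symm fa2b0
  have t11 : (b 2) ≠ (b 3) := fun hc => eqa hc fb2c2 fb3c2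
  have t12 : (c 2) ≠ (b 3) := fun hc => eqa hc.symm fa0b3.symm fc2a0
  rcases Classical.em (G.Adj (a 2) v) with t13 | t13
  · have t14 : G.Adj (c 2) v := Classical.byContradiction fun hc => hc (hD (a 2) (b 2) (c 2) v fa2b2 fc2a2.symm t13 fb2c2 a1.symm (Ne.symm qvc2))
    have t15 : ¬ G.Adj (b 3) v := fun hc => fb2b3 (hD (a 2) v (b 2) (b 3) t13 fa2b2 fa2b3 a1 hc.symm t11)
    have t16 : ¬ G.Adj (a 1) v := fun hc => fa1a2 (hD (b 2) v (a 1) (a 2) a1.symm fa1b2.symm fa2b2.symm hc.symm t13.symm t4)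
    have t17 : ¬ G.Adj (b 0) v := fun hc => (ns fa2b0) (hD (c 2) v (b 0) (a 2) t14 fb0c2.symm fc2a2 hc.symm t13.symm t2)
    have t18 : ¬ G.Adj (b 1) v := fun hc => (ns fa2b1) (hD (c 2) v (b 1) (a 2) t14 fb1c2.symm fc2a2 hc.symm t13.symm t7)
    exact hP (b 1) (a 1) (b 3) (a 2) v (b 0) fa1b1.symm fa1b3 fa2b3.symm t13 fb1b3 (ns fa2b1) t18 fa1a2 t16 t15 fb0b1 (ns fa1b0) fb0b3 (ns fa2b0) t17
  · have t19 : ¬ G.Adj (c 2) v := fun hc => t13 (hD (b 2) (c 2) (a 2) v fb2c2 fa2b2.symm a1.symm fc2a2 hc (Ne.symm qva2))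
    rcases Classical.em (G.Adj (a 2) w) with t20 | t20
    · have t21 : G.Adj (b 2) w := Classical.byContradiction fun hc => hc (hD (a 2) (c 2) (b 2) w fc2a2.symm fa2b2 t20 fb2c2.symm a2.symm (Ne.symm qwb2))
      have t22 : ¬ G.Adj (b 3) w := fun hc => (ns fb3c2) (hD (a 2) w (c 2) (b 3) t20 fc2a2.symm fa2b3 a2 hc.symm t12)
      have t23 : ¬ G.Adj (b 0) w := fun hc => (ns fa2b0) (hD (c 2) w (b 0) (a 2) a2.symm fb0c2.symm fc2a2 hc.symm t20.symm t2)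
      have t24 : ¬ G.Adj (b 1) w := fun hc => (ns fa2b1) (hD (c 2) w (b 1) (a 2) a2.symm fb1c2.symm fc2a2 hc.symm t20.symm t7)
      have t25 : ¬ G.Adj (a 1) w := fun hc => fa1a2 (hD (b 2) w (a 1) (a 2) t21 fa1b2.symm fa2b2.symm hc.symm t20.symm t4)
      exact hP (b 1) (a 1) (b 3) (a 2) w (b 0) fa1b1.symm fa1b3 fa2b3.symm t20 fb1b3 (ns fa2b1) t24 fa1a2 t25 t22 fb0b1 (ns fa1b0) fb0b3 (ns fa2b0) t23
    · have t26 : ¬ G.Adj (b 2) w := fun hc => t20 (hD (b 2) (c 2) (a 2) w fb2c2 fa2b2.symm hc fc2a2 a2.symm (Ne.symm qwa2))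
      rcases Classical.em (G.Adj (b 2) u) with t27 | t27
      · have t28 : G.Adj (c 2) u := Classical.byContradiction fun hc => hc (hD (a 2) (b 2) (c 2) u fa2b2 fc2a2.symm a0.symm fb2c2 t27 (Ne.symm quc2))
        have t29 : ¬ G.Adj (c 0) u := fun hc => (ns fb2c0) (hD (a 2) u (c 0) (b 2) a0.symm fc0a2.symm fa2b2 hc.symm t27.symm t3)
        have t30 : ¬ G.Adj (c 1) u := fun hc => (ns fb2c1) (hD (a 2) u (c 1) (b 2) a0.symm fc1a2.symm fa2b2 hc.symm t27.symm t9)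
        have t31 : ¬ G.Adj (c 3) u := fun hc => (ns fc3a2) (hD (b 2) u (a 2) (c 3) t27 fa2b2.symm fb2c3 a0 hc.symm t10)
        have t32 : ¬ G.Adj (b 1) u := fun hc => fb1b2 (hD (c 2) u (b 1) (b 2) t28 fb1c2.symm fb2c2.symm hc.symm t27.symm t8)
        exact hP (c 1) (b 1) (c 3) (b 2) u (c 0) fb1c1.symm fb1c3 fb2c3.symm t27 fc1c3 (ns fb2c1) t30 fb1b2 t32 t31 fc0c1 (ns fb1c0) fc0c3 (ns fb2c0) t29
      · have t33 : ¬ G.Adj (c 2) u := fun hc => t27 (hD (a 2) (c 2) (b 2) u fc2a2.symm fa2b2 a0.symm fb2c2.symm hc (Ne.symm qub2))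
        rcases Classical.em (G.Adj (a 1) v) with t34 | t34
        · have t35 : ¬ G.Adj (b 1) v := fun hc => fb1b2 (hD (a 1) v (b 1) (b 2) t34 fa1b1 fa1b2 hc.symm a1 t8)
          have t36 : ¬ G.Adj (a 0) v := fun hc => fa0a1 (hD (b 2) v (a 0) (a 1) a1.symm fa0b2.symm fa1b2.symm hc.symm t34.symm t1)
          have t37 : ¬ G.Adj (c 3) v := fun hc => (ns fc3a1) (hD (b 2) v (a 1) (c 3) a1.symm fa1b2.symm fb2c3 t34.symm hc.symm t6)
          have t38 : ¬ G.Adj (a 3) v := fun hc => hP (a 0) (b 1) (a 1) v (a 3) (a 2) fa0b1 fa1b1.symm t34 hc.symm fa0a1 t36 fa0a3 t35 (ns fa3b1) fa1a3 (ns fa0a2) fa2b1 (ns fa1a2) t13 fa2a3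
          have t39 : G.Adj (b 0) v := Classical.byContradiction fun hc => hP (b 0) (a 0) (b 1) (a 1) v (a 2) fa0b0.symm fa0b1 fa1b1.symm t34 fb0b1 (ns fa1b0) hc fa0a1 t36 t35 fa2b0 (ns fa0a2) fa2b1 (ns fa1a2) t13
          exact hP (a 1) v (b 0) (c 3) (a 3) (a 2) t34 t39.symm fb0c3 fc3a3 fa1b0 (ns fc3a1) fa1a3 (ns t37) (ns t38) (ns fa3b0) (ns fa1a2) t13 fa2b0 (ns fc3a2) fa2a3
        · rcases Classical.em (G.Adj (a 1) u) with t40 | t40
          · have t41 : ¬ G.Adj (c 1) u := fun hc => fa1a2 (hD (c 1) u (a 1) (a 2) hc fc1a1 fc1a2 t40.symm a0 t4)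
            have t42 : G.Adj (a 1) w := Classical.byContradiction fun hc => hP (a 1) u (a 2) (c 2) w v t40 a0 fc2a2.symm a2.symm fa1a2 (ns fc2a1) hc (ns t33) n1 t20 (ns t34) (ns n0) (ns t13) (ns t19) n2
            have t43 : ¬ G.Adj (b 1) u := fun hc => t41 (hD (a 1) (b 1) (c 1) u fa1b1 fc1a1.symm t40 fb1c1 hc (Ne.symm quc1))
            have t44 : ¬ G.Adj (b 1) w := fun hc => (ns fc2a1) (hD (b 1) w (a 1) (c 2) hc fa1b1.symm fb1c2 t42.symm a2 t5)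
            have t45 : ¬ G.Adj (b 1) v := fun hc => hP (b 1) v (b 2) (a 2) u w hc a1 fa2b2.symm a0.symm fb1b2 (ns fa2b1) t43 (ns t13) (ns n0) t27 (ns t44) (ns n2) (ns t26) (ns t20) (ns n1)
            have t46 : G.Adj (c 1) v := Classical.byContradiction fun hc => hP (c 1) (b 1) (c 2) (b 2) v u fb1c1.symm fb1c2 fb2c2.symm a1.symm fc1c2 (ns fb2c1) hc fb1b2 t45 t19 (ns t41) (ns t43) (ns t33) (ns t27) n0
            have t47 : G.Adj (c 1) w := Classical.byContradiction fun hc => hP v (c 1) (b 1) (c 2) w u t46.symm fb1c1.symm fb1c2 a2.symm (ns t45) (ns t19) n2 fc1c2 hc t44 n0 (ns t41) (ns t43) (ns t33) n1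
            exact t44 (hD (a 1) (c 1) (b 1) w fc1a1.symm fa1b1 t42 fb1c1.symm t47 (Ne.symm qwb1))
          · have t48 : ¬ G.Adj (a 1) w := fun hc => hP (a 1) w (c 2) (a 2) u v hc a2 fc2a2 a0.symm (ns fc2a1) fa1a2 t40 (ns t20) (ns n1) t33 (ns t34) n2 (ns t19) (ns t13) (ns n0)
            rcases Classical.em (G.Adj (b 0) u) with t49 | t49
            · have t50 : ¬ G.Adj (c 0) u := fun hc => (ns fa2b0) (hD (c 0) u (b 0) (a 2) hc fb0c0.symm fc0a2 t49.symm a0 t2)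
              have t51 : ¬ G.Adj (c 1) u := fun hc => (ns fa2b0) (hD (c 1) u (b 0) (a 2) hc fb0c1.symm fc1a2 t49.symm a0 t2)
              have t52 : G.Adj (a 3) u := Classical.byContradiction fun hc => hP (b 0) u (a 2) (b 2) (a 1) (a 3) t49 a0 fa2b2 fa1b2.symm (ns fa2b0) fb0b2 (ns fa1b0) (ns t27) (ns t40) (ns fa1a2) fa3b0 hc (ns fa2a3) fa3b2 (ns fa1a3)
              have t53 : ¬ G.Adj (a 0) u := fun hc => t50 (hD (a 0) (b 0) (c 0) u fa0b0 fc0a0.symm hc fb0c0 t49 (Ne.symm quc0))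
              have t54 : G.Adj (c 0) w := Classical.byContradiction fun hc => hP (c 0) (a 1) (b 2) (c 2) w u fc0a1 fa1b2 fb2c2 a2.symm (ns fb2c0) fc0c2 hc (ns fc2a1) t48 t26 (ns t50) (ns t40) (ns t27) (ns t33) n1
              have t55 : G.Adj (c 1) w := Classical.byContradiction fun hc => hP (c 1) (a 1) (c 0) w (c 2) u fc1a1 fc0a1.symm t54 a2 (ns fc0c1) hc fc1c2 t48 (ns fc2a1) fc0c2 (ns t51) (ns t40) (ns t50) n1 (ns t33)
              have t56 : G.Adj (a 0) w := Classical.byContradiction fun hc => hP (c 1) w (c 0) (a 0) (b 2) u t55 t54.symm fc0a0 fa0b2 (ns fc0c1) fc1a0 (ns fb2c1) (ns hc) (ns t26) (ns fb2c0) (ns t51) n1 (ns t50) (ns t53) (ns t27)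
              have t57 : G.Adj (a 3) w := Classical.byContradiction fun hc => hP (a 0) w (c 2) (a 3) u (a 1) t56 a2 fc2a3 t52 (ns fc2a0) fa0a3 t53 (ns hc) (ns n1) t33 (ns fa0a1) t48 (ns fc2a1) fa1a3 t40
              exact hP (a 0) w (a 3) u (a 2) (a 1) t56 t57.symm t52 a0 fa0a3 t53 fa0a2 (ns n1) (ns t20) (ns fa2a3) (ns fa0a1) t48 fa1a3 t40 fa1a2
            · have t58 : G.Adj (a 0) u := Classical.byContradiction fun hc => hP (a 0) (b 0) (c 2) (a 2) u (a 1) fa0b0 fb0c2 fc2a2 a0.symm (ns fc2a0) fa0a2 hc (ns fa2b0) t49 t33 (ns fa0a1) fa1b0 (ns fc2a1) fa1a2 t40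
              have t59 : ¬ G.Adj (a 3) u := fun hc => hP (a 1) (b 2) (a 2) u (a 3) (b 0) fa1b2 fa2b2.symm a0.symm hc.symm fa1a2 t40 fa1a3 t27 (ns fa3b2) fa2a3 (ns fa1b0) fb0b2 (ns fa2b0) t49 (ns fa3b0)
              exact hP (a 3) (c 2) (b 0) (a 0) u (a 1) fc2a3.symm fb0c2.symm fa0b0.symm t58 fa3b0 (ns fa0a3) t59 fc2a0 t33 t49 fa1a3 (ns fc2a1) fa1b0 (ns fa0a1) t40

lemma tc_n0ind {G : SimpleGraph V} (hD : DF G) (hP : PF G) {a b c : Fin 4 → V} (h : TCs G a b c)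
    {u v : V} (ou : Off a b c u) (ov : Off a b c v)
    (a0 : G.Adj u v) (n0 : ¬ G.Adj u (a 2)) (n1 : ¬ G.Adj u (b 2)) (n2 : ¬ G.Adj u (c 2)) (n3 : ¬ G.Adj v (a 2)) (n4 : ¬ G.Adj v (b 2)) (n5 : ¬ G.Adj v (c 2))
    : False := by
  have fa0b0 : G.Adj (a 0) (b 0) := (h.ab 0 0).2 (by decide)
  have fc0a0 : G.Adj (c 0) (a 0) := (h.ca 0 0).2 (by decide)
  have fa0a1 : ¬ G.Adj (a 0) (a 1) := h.aa 0 1
  have fa0b1 : G.Adj (a 0) (b 1) := (h.ab 0 1).2 (by decide)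
  have fc1a0 : ¬ G.Adj (c 1) (a 0) := mt (h.ca 1 0).1 (by decide)
  have fa0a2 : ¬ G.Adj (a 0) (a 2) := h.aa 0 2
  have fa0b2 : G.Adj (a 0) (b 2) := (h.ab 0 2).2 (by decide)
  have fc2a0 : ¬ G.Adj (c 2) (a 0) := mt (h.ca 2 0).1 (by decide)
  have fa0a3 : ¬ G.Adj (a 0) (a 3) := h.aa 0 3
  have fa0b3 : G.Adj (a 0) (b 3) := (h.ab 0 3).2 (by decide)
  have fc3a0 : ¬ G.Adj (c 3) (a 0) := mt (h.ca 3 0).1 (by decide)
  have fb0c0 : G.Adj (b 0) (c 0) := (h.bc 0 0).2 (by decide)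
  have fa1b0 : ¬ G.Adj (a 1) (b 0) := mt (h.ab 1 0).1 (by decide)
  have fb0b1 : ¬ G.Adj (b 0) (b 1) := h.bb 0 1
  have fb0c1 : G.Adj (b 0) (c 1) := (h.bc 0 1).2 (by decide)
  have fa2b0 : ¬ G.Adj (a 2) (b 0) := mt (h.ab 2 0).1 (by decide)
  have fb0b2 : ¬ G.Adj (b 0) (b 2) := h.bb 0 2
  have fb0c2 : G.Adj (b 0) (c 2) := (h.bc 0 2).2 (by decide)
  have fa3b0 : ¬ G.Adj (a 3) (b 0) := mt (h.ab 3 0).1 (by decide)
  have fb0b3 : ¬ G.Adj (b 0) (b 3) := h.bb 0 3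
  have fb0c3 : G.Adj (b 0) (c 3) := (h.bc 0 3).2 (by decide)
  have fc0a1 : G.Adj (c 0) (a 1) := (h.ca 0 1).2 (by decide)
  have fb1c0 : ¬ G.Adj (b 1) (c 0) := mt (h.bc 1 0).1 (by decide)
  have fc0c1 : ¬ G.Adj (c 0) (c 1) := h.cc 0 1
  have fc0a2 : G.Adj (c 0) (a 2) := (h.ca 0 2).2 (by decide)
  have fb2c0 : ¬ G.Adj (b 2) (c 0) := mt (h.bc 2 0).1 (by decide)
  have fc0c2 : ¬ G.Adj (c 0) (c 2) := h.cc 0 2
  have fb3c0 : ¬ G.Adj (b 3) (c 0) := mt (h.bc 3 0).1 (by decide)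
  have fc0c3 : ¬ G.Adj (c 0) (c 3) := h.cc 0 3
  have fa1b1 : G.Adj (a 1) (b 1) := (h.ab 1 1).2 (by decide)
  have fc1a1 : G.Adj (c 1) (a 1) := (h.ca 1 1).2 (by decide)
  have fa1a2 : ¬ G.Adj (a 1) (a 2) := h.aa 1 2
  have fa1b2 : G.Adj (a 1) (b 2) := (h.ab 1 2).2 (by decide)
  have fc2a1 : ¬ G.Adj (c 2) (a 1) := mt (h.ca 2 1).1 (by decide)
  have fa1a3 : ¬ G.Adj (a 1) (a 3) := h.aa 1 3
  have fa1b3 : G.Adj (a 1) (b 3) := (h.ab 1 3).2 (by decide)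
  have fc3a1 : ¬ G.Adj (c 3) (a 1) := mt (h.ca 3 1).1 (by decide)
  have fb1c1 : G.Adj (b 1) (c 1) := (h.bc 1 1).2 (by decide)
  have fa2b1 : ¬ G.Adj (a 2) (b 1) := mt (h.ab 2 1).1 (by decide)
  have fb1b2 : ¬ G.Adj (b 1) (b 2) := h.bb 1 2
  have fb1c2 : G.Adj (b 1) (c 2) := (h.bc 1 2).2 (by decide)
  have fb1b3 : ¬ G.Adj (b 1) (b 3) := h.bb 1 3
  have fb1c3 : G.Adj (b 1) (c 3) := (h.bc 1 3).2 (by decide)
  have fc1a2 : G.Adj (c 1) (a 2) := (h.ca 1 2).2 (by decide)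
  have fb2c1 : ¬ G.Adj (b 2) (c 1) := mt (h.bc 2 1).1 (by decide)
  have fc1c2 : ¬ G.Adj (c 1) (c 2) := h.cc 1 2
  have fc1a3 : G.Adj (c 1) (a 3) := (h.ca 1 3).2 (by decide)
  have fb3c1 : ¬ G.Adj (b 3) (c 1) := mt (h.bc 3 1).1 (by decide)
  have fc1c3 : ¬ G.Adj (c 1) (c 3) := h.cc 1 3
  have fa2b2 : G.Adj (a 2) (b 2) := (h.ab 2 2).2 (by decide)
  have fc2a2 : G.Adj (c 2) (a 2) := (h.ca 2 2).2 (by decide)
  have fa2a3 : ¬ G.Adj (a 2) (a 3) := h.aa 2 3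
  have fa2b3 : G.Adj (a 2) (b 3) := (h.ab 2 3).2 (by decide)
  have fc3a2 : ¬ G.Adj (c 3) (a 2) := mt (h.ca 3 2).1 (by decide)
  have fb2c2 : G.Adj (b 2) (c 2) := (h.bc 2 2).2 (by decide)
  have fa3b2 : ¬ G.Adj (a 3) (b 2) := mt (h.ab 3 2).1 (by decide)
  have fb2b3 : ¬ G.Adj (b 2) (b 3) := h.bb 2 3
  have fb2c3 : G.Adj (b 2) (c 3) := (h.bc 2 3).2 (by decide)
  have fc2a3 : G.Adj (c 2) (a 3) := (h.ca 2 3).2 (by decide)
  have fb3c2 : ¬ G.Adj (b 3) (c 2) := mt (h.bc 3 2).1 (by decide)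
  have fc2c3 : ¬ G.Adj (c 2) (c 3) := h.cc 2 3
  have fa3b3 : G.Adj (a 3) (b 3) := (h.ab 3 3).2 (by decide)
  have fc3a3 : G.Adj (c 3) (a 3) := (h.ca 3 3).2 (by decide)
  have fb3c3 : G.Adj (b 3) (c 3) := (h.bc 3 3).2 (by decide)
  have qua0 := (ou 0).1
  have qub0 := (ou 0).2.1
  have qua1 := (ou 1).1
  have quc1 := (ou 1).2.2
  have qub3 := (ou 3).2.1
  have qva0 := (ov 0).1
  have qvb0 := (ov 0).2.1
  have qvc0 := (ov 0).2.2
  have t1 : (a 0) ≠ (a 1) := fun hc => eqa hc fa0b0 fa1b0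
  have t2 : (a 0) ≠ (c 1) := fun hc => eqa hc fc0a0.symm (ns fc0c1)
  have t3 : (a 0) ≠ (c 3) := fun hc => eqa hc fc0a0.symm (ns fc0c3)
  have t4 : (b 0) ≠ (b 1) := fun hc => eqa hc fb0c0 fb1c0
  have t5 : (b 0) ≠ (a 3) := fun hc => eqa hc fa0b0.symm (ns fa0a3)
  have t6 : (b 0) ≠ (b 3) := fun hc => eqa hc fb0c0 fb3c0
  have t7 : (c 0) ≠ (b 3) := fun hc => eqa hc fb0c0.symm (ns fb0b3)
  rcases Classical.em (G.Adj (c 0) u) with t8 | t8
  · rcases Classical.em (G.Adj (a 0) u) with t9 | t9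
    · have t10 : G.Adj (b 0) u := Classical.byContradiction fun hc => hc (hD (a 0) (c 0) (b 0) u fc0a0.symm fa0b0 t9 fb0c0.symm t8 (Ne.symm qub0))
      have t11 : ¬ G.Adj (b 3) u := fun hc => fb0b3 (hD (a 0) u (b 0) (b 3) t9 fa0b0 fa0b3 t10.symm hc.symm t6)
      have t12 : ¬ G.Adj (c 1) u := fun hc => (ns fc1a0) (hD (b 0) u (a 0) (c 1) t10 fa0b0.symm fb0c1 t9.symm hc.symm t2)
      have t13 : ¬ G.Adj (a 1) u := fun hc => fa0a1 (hD (c 0) u (a 0) (a 1) t8 fc0a0 fc0a1 t9.symm hc.symm t1)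
      exact hP (c 1) (a 1) (b 3) (a 0) u (c 2) fc1a1 fa1b3 fa0b3.symm t9 (ns fb3c1) fc1a0 t12 (ns fa0a1) t13 t11 (ns fc1c2) fc2a1 (ns fb3c2) fc2a0 (ns n2)
    · have t14 : ¬ G.Adj (b 0) u := fun hc => t9 (hD (b 0) (c 0) (a 0) u fb0c0 fa0b0.symm hc fc0a0 t8 (Ne.symm qua0))
      have t15 : G.Adj (c 1) u := Classical.byContradiction fun hc => hP (c 2) (b 2) (a 0) (c 0) u (c 1) fb2c2.symm fa0b2.symm fc0a0.symm t8 fc2a0 (ns fc0c2) (ns n2) fb2c0 (ns n1) t9 fc1c2 (ns fb2c1) fc1a0 (ns fc0c1) hc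
      have t16 : G.Adj (b 3) u := Classical.byContradiction fun hc => hP (c 1) u (c 0) (a 0) (b 3) (c 2) t15 t8.symm fc0a0 fa0b3 (ns fc0c1) fc1a0 (ns fb3c1) (ns t9) (ns hc) (ns fb3c0) (ns fc1c2) (ns n2) (ns fc0c2) fc2a0 (ns fb3c2)
      have t17 : ¬ G.Adj (b 1) u := fun hc => hP (b 1) u (b 3) (a 2) (b 2) (b 0) hc t16.symm fa2b3.symm fa2b2 fb1b3 (ns fa2b1) fb1b2 n0 n1 (ns fb2b3) fb0b1 t14 fb0b3 (ns fa2b0) fb0b2
      have t18 : ¬ G.Adj (a 1) u := fun hc => hP (b 0) (a 0) (b 1) (a 1) u (a 2) fa0b0.symm fa0b1 fa1b1.symm hc fb0b1 (ns fa1b0) t14 fa0a1 t9 t17 fa2b0 (ns fa0a2) fa2b1 (ns fa1a2) (ns n0)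
      rcases Classical.em (G.Adj (a 1) v) with t19 | t19
      · have t20 : ¬ G.Adj (c 0) v := fun hc => t18 (hD (c 0) v (a 1) u hc fc0a1 t8 t19.symm a0.symm (Ne.symm qua1))
        have t21 : G.Adj (b 0) v := Classical.byContradiction fun hc => hP (a 2) (b 2) (a 1) v u (b 0) fa2b2 fa1b2.symm t19 a0.symm (ns fa1a2) (ns n3) (ns n0) (ns n4) (ns n1) t18 (ns fa2b0) fb0b2 (ns fa1b0) hc t14
        have t22 : ¬ G.Adj (a 0) v := fun hc => t20 (hD (a 0) (b 0) (c 0) v fa0b0 fc0a0.symm hc fb0c0 t21 (Ne.symm qvc0))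
        have t23 : G.Adj (c 3) v := Classical.byContradiction fun hc => hP (c 2) (a 2) (c 0) (a 1) v (c 3) fc2a2 fc0a2.symm fc0a1 t19 (ns fc0c2) fc2a1 (ns n5) (ns fa1a2) (ns n3) t20 (ns fc2c3) fc3a2 (ns fc0c3) fc3a1 hc
        exact hP (a 0) (c 0) (a 1) v (c 3) (c 2) fc0a0.symm fc0a1 t19 t23.symm fa0a1 t22 (ns fc3a0) t20 fc0c3 (ns fc3a1) fc2a0 (ns fc0c2) fc2a1 (ns n5) fc2c3
      · have t24 : ¬ G.Adj (b 0) v := fun hc => hP (a 2) (c 2) (b 0) v u (a 1) fc2a2.symm fb0c2.symm hc a0.symm fa2b0 (ns n3) (ns n0) (ns n5) (ns n2) t14 fa1a2 (ns fc2a1) fa1b0 t19 t18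
        have t25 : ¬ G.Adj (b 1) v := fun hc => hP (b 2) (a 1) (b 1) v u (b 0) fa1b2.symm fa1b1 hc a0.symm (ns fb1b2) (ns n4) (ns n1) t19 t18 t17 fb0b2 (ns fa1b0) fb0b1 t24 t14
        have t26 : G.Adj (b 3) v := Classical.byContradiction fun hc => hP (b 2) (a 1) (b 3) u v (b 0) fa1b2.symm fa1b3 t16 a0 fb2b3 (ns n1) (ns n4) t18 t19 hc fb0b2 (ns fa1b0) fb0b3 t14 t24
        have t27 : G.Adj (c 0) v := Classical.byContradiction fun hc => hP (b 0) (c 0) (a 2) (b 3) v (b 1) fb0c0 fc0a2 fa2b3 t26 (ns fa2b0) fb0b3 t24 (ns fb3c0) hc (ns n3) (ns fb0b1) fb1c0 (ns fa2b1) fb1b3 t25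
        exact (ns fb3c0) (hD u v (c 0) (b 3) a0 t8.symm t16.symm t27.symm t26.symm t7)
  · rcases Classical.em (G.Adj (b 3) u) with t28 | t28
    · have t29 : ¬ G.Adj (b 1) u := fun hc => hP (b 2) (c 2) (b 1) u (b 3) (c 0) fb2c2 fb1c2.symm hc t28.symm (ns fb1b2) (ns n1) fb2b3 (ns n2) (ns fb3c2) fb1b3 (ns fb2c0) fc0c2 (ns fb1c0) t8 (ns fb3c0)
      have t30 : G.Adj (c 3) u := Classical.byContradiction fun hc => hP (c 2) (b 2) (c 3) (b 3) u (c 0) fb2c2.symm fb2c3 fb3c3.symm t28 fc2c3 (ns fb3c2) (ns n2) fb2b3 (ns n1) hc fc0c2 (ns fb2c0) fc0c3 (ns fb3c0) t8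
      have t31 : ¬ G.Adj (b 0) u := fun hc => fb0b3 (hD (c 3) u (b 0) (b 3) t30 fb0c3.symm fb3c3.symm hc.symm t28.symm t6)
      exact hP (b 0) (c 0) (a 2) (b 3) u (b 1) fb0c0 fc0a2 fa2b3 t28 (ns fa2b0) fb0b3 t31 (ns fb3c0) t8 (ns n0) (ns fb0b1) fb1c0 (ns fa2b1) fb1b3 t29
    · rcases Classical.em (G.Adj (c 1) u) with t32 | t32
      · have t33 : G.Adj (b 0) u := Classical.byContradiction fun hc => hP (b 2) (c 2) (b 0) (c 1) u (b 3) fb2c2 fb0c2.symm fb0c1 t32 (ns fb0b2) fb2c1 (ns n1) (ns fc1c2) (ns n2) hc (ns fb2b3) fb3c2 (ns fb0b3) fb3c1 t28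
        have t34 : G.Adj (b 1) u := Classical.byContradiction fun hc => hP (b 2) (c 2) (b 1) (c 1) u (c 0) fb2c2 fb1c2.symm fb1c1 t32 (ns fb1b2) fb2c1 (ns n1) (ns fc1c2) (ns n2) hc (ns fb2c0) fc0c2 (ns fb1c0) fc0c1 t8
        exact fb0b1 (hD (c 1) u (b 0) (b 1) t32 fb0c1.symm fb1c1.symm t33.symm t34.symm t4)
      · rcases Classical.em (G.Adj (c 3) u) with t35 | t35
        · have t36 : ¬ G.Adj (a 3) u := fun hc => t28 (hD (a 3) (c 3) (b 3) u fc3a3.symm fa3b3 hc fb3c3.symm t35 (Ne.symm qub3))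
          have t37 : G.Adj (a 0) u := Classical.byContradiction fun hc => hP (a 2) (c 2) (a 3) (c 3) u (a 0) fc2a2.symm fc2a3 fc3a3.symm t35 fa2a3 (ns fc3a2) (ns n0) fc2c3 (ns n2) t36 fa0a2 (ns fc2a0) fa0a3 (ns fc3a0) hc
          have t38 : G.Adj (a 1) u := Classical.byContradiction fun hc => hP (a 2) (c 2) (a 3) (c 3) u (a 1) fc2a2.symm fc2a3 fc3a3.symm t35 fa2a3 (ns fc3a2) (ns n0) fc2c3 (ns n2) t36 fa1a2 (ns fc2a1) fa1a3 (ns fc3a1) hc
          have t39 : ¬ G.Adj (b 0) u := fun hc => (ns fc3a0) (hD (b 0) u (a 0) (c 3) hc fa0b0.symm fb0c3 t37.symm t35.symm t3)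
          have t40 : ¬ G.Adj (b 1) u := fun hc => (ns fc3a0) (hD (b 1) u (a 0) (c 3) hc fa0b1.symm fb1c3 t37.symm t35.symm t3)
          rcases Classical.em (G.Adj (b 3) v) with t41 | t41
          · have t42 : ¬ G.Adj (a 0) v := fun hc => t28 (hD (a 0) v (b 3) u hc fa0b3 t37 t41.symm a0.symm (Ne.symm qub3))
            have t43 : ¬ G.Adj (a 1) v := fun hc => t28 (hD (a 1) v (b 3) u hc fa1b3 t38 t41.symm a0.symm (Ne.symm qub3))
            have t44 : G.Adj (b 0) v := Classical.byContradiction fun hc => hP (b 2) (a 2) (b 3) v u (b 0) fa2b2.symm fa2b3 t41 a0.symm fb2b3 (ns n4) (ns n1) (ns n3) (ns n0) t28 fb0b2 (ns fa2b0) fb0b3 hc t39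
            have t45 : ¬ G.Adj (c 0) v := fun hc => t42 (hD (b 0) (c 0) (a 0) v fb0c0 fa0b0.symm t44 fc0a0 hc (Ne.symm qva0))
            have t46 : G.Adj (c 1) v := Classical.byContradiction fun hc => hP (c 2) (b 2) (a 0) (b 3) v (c 1) fb2c2.symm fa0b2.symm fa0b3 t41 fc2a0 (ns fb3c2) (ns n5) fb2b3 (ns n4) t42 fc1c2 (ns fb2c1) fc1a0 (ns fb3c1) hc
            exact hP (a 0) (c 0) (a 1) (c 1) v (c 2) fc0a0.symm fc0a1 fc1a1.symm t46 fa0a1 (ns fc1a0) t42 fc0c1 t45 t43 fc2a0 (ns fc0c2) fc2a1 (ns fc1c2) (ns n5)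
          · have t47 : ¬ G.Adj (b 0) v := fun hc => hP (b 2) (c 2) (b 0) v u (b 3) fb2c2 fb0c2.symm hc a0.symm (ns fb0b2) (ns n4) (ns n1) (ns n5) (ns n2) t39 (ns fb2b3) fb3c2 (ns fb0b3) t41 t28
            have t48 : ¬ G.Adj (b 1) v := fun hc => hP (b 2) (c 2) (b 1) v u (b 3) fb2c2 fb1c2.symm hc a0.symm (ns fb1b2) (ns n4) (ns n1) (ns n5) (ns n2) t40 (ns fb2b3) fb3c2 (ns fb1b3) t41 t28
            have t49 : G.Adj (a 1) v := Classical.byContradiction fun hc => hP (a 2) (b 3) (a 1) u v (b 0) fa2b3 fa1b3.symm t38 a0 (ns fa1a2) (ns n0) (ns n3) t28 t41 hc (ns fa2b0) fb0b3 (ns fa1b0) t39 t47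
            have t50 : G.Adj (a 0) v := Classical.byContradiction fun hc => hP (b 0) (a 0) (b 1) (a 1) v (a 2) fa0b0.symm fa0b1 fa1b1.symm t49 fb0b1 (ns fa1b0) t47 fa0a1 hc t48 fa2b0 (ns fa0a2) fa2b1 (ns fa1a2) (ns n3)
            exact fa0a1 (hD u v (a 0) (a 1) a0 t37.symm t38.symm t50.symm t49.symm t1)
        · have t51 : G.Adj (b 1) u := Classical.byContradiction fun hc => hP (c 0) (a 2) (b 2) (c 3) (b 1) u fc0a2 fa2b2 fb2c3 fb1c3.symm (ns fb2c0) fc0c3 (ns fb1c0) (ns fc3a2) fa2b1 (ns fb1b2) (ns t8) n0 n1 (ns t35) (ns hc)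
          have t52 : ¬ G.Adj (a 0) u := fun hc => hP (c 2) (a 2) (c 0) (a 0) u (c 3) fc2a2 fc0a2.symm fc0a0 hc (ns fc0c2) fc2a0 (ns n2) (ns fa0a2) (ns n0) t8 (ns fc2c3) fc3a2 (ns fc0c3) fc3a0 t35
          have t53 : ¬ G.Adj (a 1) u := fun hc => hP (c 2) (a 2) (c 0) (a 1) u (c 3) fc2a2 fc0a2.symm fc0a1 hc (ns fc0c2) fc2a1 (ns n2) (ns fa1a2) (ns n0) t8 (ns fc2c3) fc3a2 (ns fc0c3) fc3a1 t35
          have t54 : G.Adj (a 3) u := Classical.byContradiction fun hc => hP (a 0) (b 2) (c 3) (a 3) (c 1) u fa0b2 fb2c3 fc3a3 fc1a3.symm (ns fc3a0) fa0a3 (ns fc1a0) (ns fa3b2) fb2c1 (ns fc1c3) (ns t52) n1 (ns t35) (ns hc) (ns t32)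
          have t55 : G.Adj (b 0) u := Classical.byContradiction fun hc => hP (a 1) (b 3) (c 3) (b 0) (c 2) u fa1b3 fb3c3 fb0c3.symm fb0c2 (ns fc3a1) fa1b0 (ns fc2a1) (ns fb0b3) fb3c2 (ns fc2c3) (ns t53) (ns t28) (ns t35) (ns hc) n2
          rcases Classical.em (G.Adj (c 1) v) with t56 | t56
          · have t57 : ¬ G.Adj (b 0) v := fun hc => t32 (hD (b 0) v (c 1) u hc fb0c1 t55 t56.symm a0.symm (Ne.symm quc1))
            have t58 : ¬ G.Adj (b 1) v := fun hc => t32 (hD (b 1) v (c 1) u hc fb1c1 t51 t56.symm a0.symm (Ne.symm quc1))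
            have t59 : G.Adj (a 0) v := Classical.byContradiction fun hc => hP (c 2) (a 2) (c 1) v u (a 0) fc2a2 fc1a2.symm t56 a0.symm (ns fc1c2) (ns n5) (ns n2) (ns n3) (ns n0) t32 (ns fc2a0) fa0a2 (ns fc1a0) hc t52
            have t60 : ¬ G.Adj (c 0) v := fun hc => t57 (hD (a 0) (c 0) (b 0) v fc0a0.symm fa0b0 t59 fb0c0.symm hc (Ne.symm qvb0))
            have t61 : G.Adj (b 3) v := Classical.byContradiction fun hc => hP (b 2) (c 2) (b 0) (c 1) v (b 3) fb2c2 fb0c2.symm fb0c1 t56 (ns fb0b2) fb2c1 (ns n4) (ns fc1c2) (ns n5) t57 (ns fb2b3) fb3c2 (ns fb0b3) fb3c1 hc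
            exact hP (b 0) (c 0) (a 2) (b 3) v (b 1) fb0c0 fc0a2 fa2b3 t61 (ns fa2b0) fb0b3 t57 (ns fb3c0) t60 (ns n3) (ns fb0b1) fb1c0 (ns fa2b1) fb1b3 t58
          · have t62 : ¬ G.Adj (a 0) v := fun hc => hP (c 2) (b 2) (a 0) v u (c 1) fb2c2.symm fa0b2.symm hc a0.symm fc2a0 (ns n5) (ns n2) (ns n4) (ns n1) t52 fc1c2 (ns fb2c1) fc1a0 t56 t32
            have t63 : ¬ G.Adj (a 1) v := fun hc => hP (a 2) (c 1) (a 1) v u (a 0) fc1a2.symm fc1a1 hc a0.symm (ns fa1a2) (ns n3) (ns n0) t56 t32 t53 fa0a2 (ns fc1a0) fa0a1 t62 t52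
            have t64 : G.Adj (a 3) v := Classical.byContradiction fun hc => hP (a 2) (c 1) (a 3) u v (a 0) fc1a2.symm fc1a3 t54 a0 fa2a3 (ns n0) (ns n3) t32 t56 hc fa0a2 (ns fc1a0) fa0a3 t52 t62
            have t65 : G.Adj (b 0) v := Classical.byContradiction fun hc => hP (a 0) (b 0) (c 2) (a 3) v (a 1) fa0b0 fb0c2 fc2a3 t64 (ns fc2a0) fa0a3 t62 (ns fa3b0) hc (ns n5) (ns fa0a1) fa1b0 (ns fc2a1) fa1a3 t63
            exact (ns fa3b0) (hD u v (b 0) (a 3) a0 t55.symm t54.symm t65.symm t64.symm t5)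

lemma tc_n0twin {G : SimpleGraph V} (hD : DF G) (hP : PF G) {a b c : Fin 4 → V} (h : TCs G a b c)
    {u v w : V} (ou : Off a b c u) (ov : Off a b c v) (ow : Off a b c w)
    (a0 : G.Adj u w) (n0 : ¬ G.Adj v w) (n1 : ¬ G.Adj u (a 2)) (n2 : ¬ G.Adj u (b 2)) (n3 : ¬ G.Adj u (c 2)) (n4 : ¬ G.Adj v (a 2)) (n5 : ¬ G.Adj v (b 2)) (n6 : ¬ G.Adj v (c 2))
    : False := by
  have fa0b0 : G.Adj (a 0) (b 0) := (h.ab 0 0).2 (by decide)
  have fc0a0 : G.Adj (c 0) (a 0) := (h.ca 0 0).2 (by decide)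
  have fa0a1 : ¬ G.Adj (a 0) (a 1) := h.aa 0 1
  have fa0b1 : G.Adj (a 0) (b 1) := (h.ab 0 1).2 (by decide)
  have fc1a0 : ¬ G.Adj (c 1) (a 0) := mt (h.ca 1 0).1 (by decide)
  have fa0a2 : ¬ G.Adj (a 0) (a 2) := h.aa 0 2
  have fa0b2 : G.Adj (a 0) (b 2) := (h.ab 0 2).2 (by decide)
  have fc2a0 : ¬ G.Adj (c 2) (a 0) := mt (h.ca 2 0).1 (by decide)
  have fa0a3 : ¬ G.Adj (a 0) (a 3) := h.aa 0 3
  have fa0b3 : G.Adj (a 0) (b 3) := (h.ab 0 3).2 (by decide)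
  have fc3a0 : ¬ G.Adj (c 3) (a 0) := mt (h.ca 3 0).1 (by decide)
  have fb0c0 : G.Adj (b 0) (c 0) := (h.bc 0 0).2 (by decide)
  have fa1b0 : ¬ G.Adj (a 1) (b 0) := mt (h.ab 1 0).1 (by decide)
  have fb0b1 : ¬ G.Adj (b 0) (b 1) := h.bb 0 1
  have fb0c1 : G.Adj (b 0) (c 1) := (h.bc 0 1).2 (by decide)
  have fa2b0 : ¬ G.Adj (a 2) (b 0) := mt (h.ab 2 0).1 (by decide)
  have fb0b2 : ¬ G.Adj (b 0) (b 2) := h.bb 0 2
  have fb0c2 : G.Adj (b 0) (c 2) := (h.bc 0 2).2 (by decide)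
  have fa3b0 : ¬ G.Adj (a 3) (b 0) := mt (h.ab 3 0).1 (by decide)
  have fb0b3 : ¬ G.Adj (b 0) (b 3) := h.bb 0 3
  have fb0c3 : G.Adj (b 0) (c 3) := (h.bc 0 3).2 (by decide)
  have fc0a1 : G.Adj (c 0) (a 1) := (h.ca 0 1).2 (by decide)
  have fb1c0 : ¬ G.Adj (b 1) (c 0) := mt (h.bc 1 0).1 (by decide)
  have fc0c1 : ¬ G.Adj (c 0) (c 1) := h.cc 0 1
  have fc0a2 : G.Adj (c 0) (a 2) := (h.ca 0 2).2 (by decide)
  have fb2c0 : ¬ G.Adj (b 2) (c 0) := mt (h.bc 2 0).1 (by decide)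
  have fc0c2 : ¬ G.Adj (c 0) (c 2) := h.cc 0 2
  have fc0a3 : G.Adj (c 0) (a 3) := (h.ca 0 3).2 (by decide)
  have fb3c0 : ¬ G.Adj (b 3) (c 0) := mt (h.bc 3 0).1 (by decide)
  have fc0c3 : ¬ G.Adj (c 0) (c 3) := h.cc 0 3
  have fa1b1 : G.Adj (a 1) (b 1) := (h.ab 1 1).2 (by decide)
  have fc1a1 : G.Adj (c 1) (a 1) := (h.ca 1 1).2 (by decide)
  have fa1a2 : ¬ G.Adj (a 1) (a 2) := h.aa 1 2
  have fa1b2 : G.Adj (a 1) (b 2) := (h.ab 1 2).2 (by decide)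
  have fc2a1 : ¬ G.Adj (c 2) (a 1) := mt (h.ca 2 1).1 (by decide)
  have fa1a3 : ¬ G.Adj (a 1) (a 3) := h.aa 1 3
  have fa1b3 : G.Adj (a 1) (b 3) := (h.ab 1 3).2 (by decide)
  have fc3a1 : ¬ G.Adj (c 3) (a 1) := mt (h.ca 3 1).1 (by decide)
  have fb1c1 : G.Adj (b 1) (c 1) := (h.bc 1 1).2 (by decide)
  have fa2b1 : ¬ G.Adj (a 2) (b 1) := mt (h.ab 2 1).1 (by decide)
  have fb1b2 : ¬ G.Adj (b 1) (b 2) := h.bb 1 2
  have fb1c2 : G.Adj (b 1) (c 2) := (h.bc 1 2).2 (by decide)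
  have fa3b1 : ¬ G.Adj (a 3) (b 1) := mt (h.ab 3 1).1 (by decide)
  have fb1b3 : ¬ G.Adj (b 1) (b 3) := h.bb 1 3
  have fb1c3 : G.Adj (b 1) (c 3) := (h.bc 1 3).2 (by decide)
  have fc1a2 : G.Adj (c 1) (a 2) := (h.ca 1 2).2 (by decide)
  have fb2c1 : ¬ G.Adj (b 2) (c 1) := mt (h.bc 2 1).1 (by decide)
  have fc1c2 : ¬ G.Adj (c 1) (c 2) := h.cc 1 2
  have fc1a3 : G.Adj (c 1) (a 3) := (h.ca 1 3).2 (by decide)
  have fb3c1 : ¬ G.Adj (b 3) (c 1) := mt (h.bc 3 1).1 (by decide)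
  have fc1c3 : ¬ G.Adj (c 1) (c 3) := h.cc 1 3
  have fa2b2 : G.Adj (a 2) (b 2) := (h.ab 2 2).2 (by decide)
  have fc2a2 : G.Adj (c 2) (a 2) := (h.ca 2 2).2 (by decide)
  have fa2a3 : ¬ G.Adj (a 2) (a 3) := h.aa 2 3
  have fa2b3 : G.Adj (a 2) (b 3) := (h.ab 2 3).2 (by decide)
  have fc3a2 : ¬ G.Adj (c 3) (a 2) := mt (h.ca 3 2).1 (by decide)
  have fb2c2 : G.Adj (b 2) (c 2) := (h.bc 2 2).2 (by decide)
  have fa3b2 : ¬ G.Adj (a 3) (b 2) := mt (h.ab 3 2).1 (by decide)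
  have fb2b3 : ¬ G.Adj (b 2) (b 3) := h.bb 2 3
  have fb2c3 : G.Adj (b 2) (c 3) := (h.bc 2 3).2 (by decide)
  have fc2a3 : G.Adj (c 2) (a 3) := (h.ca 2 3).2 (by decide)
  have fb3c2 : ¬ G.Adj (b 3) (c 2) := mt (h.bc 3 2).1 (by decide)
  have fc2c3 : ¬ G.Adj (c 2) (c 3) := h.cc 2 3
  have fa3b3 : G.Adj (a 3) (b 3) := (h.ab 3 3).2 (by decide)
  have fc3a3 : G.Adj (c 3) (a 3) := (h.ca 3 3).2 (by decide)
  have fb3c3 : G.Adj (b 3) (c 3) := (h.bc 3 3).2 (by decide)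
  have qua0 := (ou 0).1
  have qub0 := (ou 0).2.1
  have quc0 := (ou 0).2.2
  have qua1 := (ou 1).1
  have qub1 := (ou 1).2.1
  have quc1 := (ou 1).2.2
  have qua2 := (ou 2).1
  have qub2 := (ou 2).2.1
  have quc2 := (ou 2).2.2
  have qua3 := (ou 3).1
  have qub3 := (ou 3).2.1
  have quc3 := (ou 3).2.2
  have qva1 := (ov 1).1
  have qvb1 := (ov 1).2.1
  have qvc1 := (ov 1).2.2
  have qva3 := (ov 3).1
  have qvb3 := (ov 3).2.1
  have qvc3 := (ov 3).2.2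
  have qwa0 := (ow 0).1
  have qwb0 := (ow 0).2.1
  have qwc0 := (ow 0).2.2
  have qwa2 := (ow 2).1
  have qwb2 := (ow 2).2.1
  have qwc2 := (ow 2).2.2
  have t1 : (a 0) ≠ (a 1) := fun hc => eqa hc fa0b0 fa1b0
  have t2 : (a 0) ≠ (c 3) := fun hc => eqa hc fc0a0.symm (ns fc0c3)
  have t3 : (b 0) ≠ (a 1) := fun hc => eqa hc fa0b0.symm (ns fa0a1)
  have t4 : (b 0) ≠ (b 1) := fun hc => eqa hc fb0c0 fb1c0
  have t5 : (b 0) ≠ (a 3) := fun hc => eqa hc fa0b0.symm (ns fa0a3)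
  have t6 : (c 0) ≠ (c 1) := fun hc => eqa hc fc0a0 fc1a0
  have t7 : (c 0) ≠ (b 3) := fun hc => eqa hc fb0c0.symm (ns fb0b3)
  have t8 : (a 1) ≠ (c 3) := fun hc => eqa hc.symm fb0c3.symm fa1b0
  have t9 : (b 1) ≠ (a 3) := fun hc => eqa hc fa0b1.symm (ns fa0a3)
  have t10 : (c 1) ≠ (b 3) := fun hc => eqa hc.symm fa0b3.symm fc1a0
  rcases Classical.em (G.Adj (a 0) u) with t11 | t11
  · rcases Classical.em (G.Adj (b 0) u) with t12 | t12
    · have t13 : G.Adj (c 0) u := Classical.byContradiction fun hc => hc (hD (a 0) (b 0) (c 0) u fa0b0 fc0a0.symm t11 fb0c0 t12 (Ne.symm quc0))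
      have t14 : ¬ G.Adj (b 1) u := fun hc => fb0b1 (hD (a 0) u (b 0) (b 1) t11 fa0b0 fa0b1 t12.symm hc.symm t4)
      have t15 : ¬ G.Adj (c 3) u := fun hc => (ns fc3a0) (hD (b 0) u (a 0) (c 3) t12 fa0b0.symm fb0c3 t11.symm hc.symm t2)
      have t16 : ¬ G.Adj (a 1) u := fun hc => (ns fa1b0) (hD (c 0) u (b 0) (a 1) t13 fb0c0.symm fc0a1 t12.symm hc.symm t3)
      exact hP (a 1) (b 1) (c 3) (b 0) u (a 2) fa1b1 fb1c3 fb0c3.symm t12 (ns fc3a1) fa1b0 t16 (ns fb0b1) t14 t15 (ns fa1a2) fa2b1 (ns fc3a2) fa2b0 (ns n1)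
    · have t17 : ¬ G.Adj (c 0) u := fun hc => t12 (hD (a 0) (c 0) (b 0) u fc0a0.symm fa0b0 t11 fb0c0.symm hc (Ne.symm qub0))
      have t18 : G.Adj (a 1) u := Classical.byContradiction fun hc => hP (a 2) (c 2) (b 0) (a 0) u (a 1) fc2a2.symm fb0c2.symm fa0b0.symm t11 fa2b0 (ns fa0a2) (ns n1) fc2a0 (ns n3) t12 fa1a2 (ns fc2a1) fa1b0 (ns fa0a1) hc
      have t19 : G.Adj (c 3) u := Classical.byContradiction fun hc => hP (a 1) u (a 0) (b 0) (c 3) (a 2) t18 t11.symm fa0b0 fb0c3 (ns fa0a1) fa1b0 (ns fc3a1) (ns t12) (ns hc) (ns fc3a0) (ns fa1a2) (ns n1) (ns fa0a2) fa2b0 (ns fc3a2)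
      have t20 : ¬ G.Adj (c 1) u := fun hc => hP (c 1) u (c 3) (b 2) (c 2) (c 0) hc t19.symm fb2c3.symm fb2c2 fc1c3 (ns fb2c1) fc1c2 n2 n3 (ns fc2c3) fc0c1 t17 fc0c3 (ns fb2c0) fc0c2
      have t21 : ¬ G.Adj (b 1) u := fun hc => hP (c 0) (b 0) (c 1) (b 1) u (b 2) fb0c0.symm fb0c1 fb1c1.symm hc fc0c1 (ns fb1c0) t17 fb0b1 t12 t20 fb2c0 (ns fb0b2) fb2c1 (ns fb1b2) (ns n2)
      have t22 : ¬ G.Adj (a 3) u := fun hc => hP (a 2) (b 2) (a 1) u (a 3) (b 0) fa2b2 fa1b2.symm t18 hc.symm (ns fa1a2) (ns n1) fa2a3 (ns n2) (ns fa3b2) fa1a3 (ns fa2b0) fb0b2 (ns fa1b0) t12 (ns fa3b0)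
      have t23 : ¬ G.Adj (b 3) u := fun hc => fa0a1 (hD (b 3) u (a 0) (a 1) hc fa0b3.symm fa1b3.symm t11.symm t18.symm t1)
      rcases Classical.em (G.Adj (a 1) w) with t24 | t24
      · have t25 : ¬ G.Adj (b 2) w := fun hc => (ns n2) (hD (a 1) w (b 2) u t24 fa1b2 t18 hc.symm a0.symm (Ne.symm qub2))
        have t26 : ¬ G.Adj (c 0) w := fun hc => t17 (hD (a 1) w (c 0) u t24 fc0a1.symm t18 hc.symm a0.symm (Ne.symm quc0))
        have t27 : ¬ G.Adj (c 1) w := fun hc => t20 (hD (a 1) w (c 1) u t24 fc1a1.symm t18 hc.symm a0.symm (Ne.symm quc1))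
        have t28 : ¬ G.Adj (a 0) w := fun hc => fa0a1 (hD u w (a 0) (a 1) a0 t11.symm t18.symm hc.symm t24.symm t1)
        have t29 : ¬ G.Adj (c 3) w := fun hc => (ns fc3a1) (hD u w (a 1) (c 3) a0 t18.symm t19.symm t24.symm hc.symm t8)
        have t30 : ¬ G.Adj (c 2) w := fun hc => hP (a 0) (c 0) (a 1) w (c 2) (c 3) fc0a0.symm fc0a1 t24 hc.symm fa0a1 t28 (ns fc2a0) t26 fc0c2 (ns fc2a1) fc3a0 (ns fc0c3) fc3a1 t29 (ns fc2c3)
        exact hP (c 2) (b 2) (a 0) u w (c 1) fb2c2.symm fa0b2.symm t11 a0 fc2a0 (ns n3) t30 (ns n2) t25 t28 fc1c2 (ns fb2c1) fc1a0 t20 t27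
      · rcases Classical.em (G.Adj (c 3) w) with t31 | t31
        · have t32 : ¬ G.Adj (b 2) w := fun hc => (ns n2) (hD (c 3) w (b 2) u t31 fb2c3.symm t19 hc.symm a0.symm (Ne.symm qub2))
          have t33 : ¬ G.Adj (b 0) w := fun hc => t12 (hD (c 3) w (b 0) u t31 fb0c3.symm t19 hc.symm a0.symm (Ne.symm qub0))
          have t34 : ¬ G.Adj (a 3) w := fun hc => t22 (hD (c 3) w (a 3) u t31 fc3a3 t19 hc.symm a0.symm (Ne.symm qua3))
          have t35 : ¬ G.Adj (a 0) w := fun hc => (ns fc3a0) (hD u w (a 0) (c 3) a0 t11.symm t19.symm hc.symm t31.symm t2)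
          have t36 : ¬ G.Adj (a 2) w := fun hc => hP (a 0) (b 0) (c 3) w (a 2) (a 1) fa0b0 fb0c3 t31 hc.symm (ns fc3a0) t35 fa0a2 t33 (ns fa2b0) fc3a2 (ns fa0a1) fa1b0 (ns fc3a1) t24 fa1a2
          exact hP (a 2) (b 2) (a 0) u w (a 3) fa2b2 fa0b2.symm t11 a0 (ns fa0a2) (ns n1) t36 (ns n2) t32 t35 (ns fa2a3) fa3b2 (ns fa0a3) t22 t34
        · rcases Classical.em (G.Adj (a 0) w) with t37 | t37
          · have t38 : ¬ G.Adj (c 0) w := fun hc => t17 (hD (a 0) w (c 0) u t37 fc0a0.symm t11 hc.symm a0.symm (Ne.symm quc0))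
            have t39 : ¬ G.Adj (b 3) w := fun hc => t23 (hD (a 0) w (b 3) u t37 fa0b3 t11 hc.symm a0.symm (Ne.symm qub3))
            have t40 : ¬ G.Adj (c 2) w := fun hc => hP (a 1) (c 0) (a 0) w (c 2) (c 3) fc0a1.symm fc0a0 t37 hc.symm (ns fa0a1) t24 (ns fc2a1) t38 fc0c2 (ns fc2a0) fc3a1 (ns fc0c3) fc3a0 t31 (ns fc2c3)
            have t41 : G.Adj (c 1) w := Classical.byContradiction fun hc => hP (c 1) (a 1) (c 0) (a 0) w (c 2) fc1a1 fc0a1.symm fc0a0 t37 (ns fc0c1) fc1a0 hc (ns fa0a1) t24 t38 (ns fc1c2) fc2a1 (ns fc0c2) fc2a0 t40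
            exact hP (c 1) w (a 0) (b 3) (c 3) (c 2) t41 t37.symm fa0b3 fb3c3 fc1a0 (ns fb3c1) fc1c3 (ns t39) (ns t31) (ns fc3a0) (ns fc1c2) t40 fc2a0 (ns fb3c2) fc2c3
          · rcases Classical.em (G.Adj (b 0) w) with t42 | t42
            · have t43 : ¬ G.Adj (c 0) w := fun hc => t37 (hD (b 0) (c 0) (a 0) w fb0c0 fa0b0.symm t42 fc0a0 hc (Ne.symm qwa0))
              have t44 : ¬ G.Adj (c 1) w := fun hc => hP (a 0) (c 0) (a 1) (c 1) w (c 3) fc0a0.symm fc0a1 fc1a1.symm hc fa0a1 (ns fc1a0) t37 fc0c1 t43 t24 fc3a0 (ns fc0c3) fc3a1 (ns fc1c3) t31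
              have t45 : ¬ G.Adj (c 2) w := fun hc => hP (c 0) (a 0) u w (c 2) (c 1) fc0a0 t11 a0 hc.symm t17 t43 fc0c2 t37 (ns fc2a0) n3 (ns fc0c1) fc1a0 t20 t44 fc1c2
              have t46 : G.Adj (b 1) w := Classical.byContradiction fun hc => hP (c 2) (b 1) (c 3) u w (c 0) fb1c2.symm fb1c3 t19 a0 fc2c3 (ns n3) t45 t21 hc t31 fc0c2 (ns fb1c0) fc0c3 t17 t43
              have t47 : G.Adj (b 2) w := Classical.byContradiction fun hc => hP (c 2) (b 2) (a 0) u w (c 1) fb2c2.symm fa0b2.symm t11 a0 fc2a0 (ns n3) t45 (ns n2) hc t37 fc1c2 (ns fb2c1) fc1a0 t20 t44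
              have t48 : ¬ G.Adj (a 2) w := fun hc => t45 (hD (a 2) (b 2) (c 2) w fa2b2 fc2a2.symm hc fb2c2 t47 (Ne.symm qwc2))
              rcases Classical.em (G.Adj u v) with t49 | t49
              · have t50 : G.Adj (c 0) v := Classical.byContradiction fun hc => hP (c 2) (b 2) w u v (c 0) fb2c2.symm t47 a0.symm t49 t45 (ns n3) (ns n6) (ns n2) (ns n5) (ns n0) fc0c2 (ns fb2c0) t43 t17 hc
                have t51 : G.Adj (c 1) v := Classical.byContradiction fun hc => hP (c 2) (b 2) w u v (c 1) fb2c2.symm t47 a0.symm t49 t45 (ns n3) (ns n6) (ns n2) (ns n5) (ns n0) fc1c2 (ns fb2c1) t44 t20 hc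
                have t52 : ¬ G.Adj (a 1) v := fun hc => fc0c1 (hD (a 1) v (c 0) (c 1) hc fc0a1.symm fc1a1.symm t50.symm t51.symm t6)
                have t53 : G.Adj (b 1) v := Classical.byContradiction fun hc => hP (b 2) (a 2) (c 0) v u (b 1) fa2b2.symm fc0a2.symm t50 t49.symm fb2c0 (ns n5) (ns n2) (ns n4) (ns n1) t17 fb1b2 (ns fa2b1) fb1c0 hc t21
                exact t52 (hD (b 1) (c 1) (a 1) v fb1c1 fa1b1.symm t53 fc1a1 t51 (Ne.symm qva1))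
              · have t54 : G.Adj (c 0) v := Classical.byContradiction fun hc => hP (c 0) (a 2) (b 2) w u v fc0a2 fa2b2 t47 a0.symm (ns fb2c0) t43 t17 t48 (ns n1) (ns n2) (ns hc) n4 n5 n0 (ns t49)
                have t55 : G.Adj (c 1) v := Classical.byContradiction fun hc => hP (c 1) (a 2) (b 2) w u v fc1a2 fa2b2 t47 a0.symm (ns fb2c1) t44 t20 t48 (ns n1) (ns n2) (ns hc) n4 n5 n0 (ns t49)
                have t56 : G.Adj (b 1) v := Classical.byContradiction fun hc => hP (a 2) (c 2) (b 1) w u v fc2a2.symm fb1c2.symm t46 a0.symm fa2b1 t48 (ns n1) t45 (ns n3) t21 n4 n6 (ns hc) n0 (ns t49)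
                have t57 : G.Adj (b 3) v := Classical.byContradiction fun hc => hP (b 1) v (c 0) (a 2) (b 3) u t56 t54.symm fc0a2 fa2b3 fb1c0 (ns fa2b1) fb1b3 n4 (ns hc) (ns fb3c0) (ns t21) t49 (ns t17) n1 (ns t23)
                have t58 : G.Adj (c 3) v := Classical.byContradiction fun hc => hP (c 1) v (b 3) (c 3) u (c 2) t55 t57.symm fb3c3 t19 (ns fb3c1) fc1c3 t20 (ns hc) (ns t49) t23 (ns fc1c2) (ns n6) (ns fb3c2) fc2c3 (ns n3)
                exact hP (c 0) v (c 3) u w (c 2) t54 t58.symm t19 a0 fc0c3 t17 t43 (ns t49) n0 t31 (ns fc0c2) (ns n6) fc2c3 (ns n3) t45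
            · have t59 : ¬ G.Adj (a 3) w := fun hc => hP (a 0) (b 0) (c 3) (a 3) w (a 1) fa0b0 fb0c3 fc3a3 hc (ns fc3a0) fa0a3 t37 (ns fa3b0) t42 t31 (ns fa0a1) fa1b0 (ns fc3a1) fa1a3 t24
              have t60 : ¬ G.Adj (a 2) w := fun hc => hP (b 0) (a 0) u w (a 2) (a 3) fa0b0.symm t11 a0 hc.symm t12 t42 (ns fa2b0) t37 fa0a2 n1 fa3b0 (ns fa0a3) t22 t59 (ns fa2a3)
              have t61 : G.Adj (b 3) w := Classical.byContradiction fun hc => hP (a 2) (b 3) (a 1) u w (b 0) fa2b3 fa1b3.symm t18 a0 (ns fa1a2) (ns n1) t60 t23 hc t24 (ns fa2b0) fb0b3 (ns fa1b0) t12 t42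
              have t62 : G.Adj (b 2) w := Classical.byContradiction fun hc => hP (a 2) (b 2) (a 0) u w (a 3) fa2b2 fa0b2.symm t11 a0 (ns fa0a2) (ns n1) t60 (ns n2) hc t37 (ns fa2a3) fa3b2 (ns fa0a3) t22 t59
              have t63 : ¬ G.Adj (c 2) w := fun hc => t60 (hD (b 2) (c 2) (a 2) w fb2c2 fa2b2.symm t62 fc2a2 hc (Ne.symm qwa2))
              rcases Classical.em (G.Adj u v) with t64 | t64
              · have t65 : G.Adj (b 0) v := Classical.byContradiction fun hc => hP (a 2) (b 2) w u v (b 0) fa2b2 t62 a0.symm t64 t60 (ns n1) (ns n4) (ns n2) (ns n5) (ns n0) (ns fa2b0) fb0b2 t42 t12 hc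
                have t66 : G.Adj (a 3) v := Classical.byContradiction fun hc => hP (a 2) (b 2) w u v (a 3) fa2b2 t62 a0.symm t64 t60 (ns n1) (ns n4) (ns n2) (ns n5) (ns n0) (ns fa2a3) fa3b2 t59 t22 hc
                have t67 : ¬ G.Adj (c 3) v := fun hc => (ns fa3b0) (hD (c 3) v (b 0) (a 3) hc fb0c3.symm fc3a3 t65.symm t66.symm t5)
                have t68 : G.Adj (b 3) v := Classical.byContradiction fun hc => hP (b 2) (c 2) (b 0) v u (b 3) fb2c2 fb0c2.symm t65 t64.symm (ns fb0b2) (ns n5) (ns n2) (ns n6) (ns n3) t12 (ns fb2b3) fb3c2 (ns fb0b3) hc t23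
                exact t67 (hD (a 3) (b 3) (c 3) v fa3b3 fc3a3.symm t66 fb3c3 t68 (Ne.symm qvc3))
              · have t69 : G.Adj (b 0) v := Classical.byContradiction fun hc => hP (b 0) (c 2) (b 2) w u v fb0c2 fb2c2.symm t62 a0.symm fb0b2 t42 t12 t63 (ns n3) (ns n2) (ns hc) n6 n5 n0 (ns t64)
                have t70 : G.Adj (b 3) v := Classical.byContradiction fun hc => hP (c 2) (a 2) (b 3) w u v fc2a2 fa2b3 t61 a0.symm (ns fb3c2) t63 (ns n3) t60 (ns n1) t23 n6 n4 (ns hc) n0 (ns t64)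
                have t71 : G.Adj (a 3) v := Classical.byContradiction fun hc => hP (a 3) (c 2) (b 2) w u v fc2a3.symm fb2c2.symm t62 a0.symm fa3b2 t59 t22 t63 (ns n3) (ns n2) (ns hc) n6 n5 n0 (ns t64)
                have t72 : G.Adj (b 1) v := Classical.byContradiction fun hc => hP (b 1) (c 2) (b 0) v (b 3) u fb1c2 fb0c2.symm t69 t70.symm (ns fb0b1) hc fb1b3 (ns n6) (ns fb3c2) fb0b3 (ns t21) n3 (ns t12) t64 (ns t23)
                have t73 : G.Adj (a 1) v := Classical.byContradiction fun hc => hP (a 3) v (b 1) (a 1) u (a 2) t71 t72.symm fa1b1.symm t18 fa3b1 (ns fa1a3) t22 (ns hc) (ns t64) t21 fa2a3 (ns n4) fa2b1 (ns fa1a2) (ns n1)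
                exact hP (b 0) v (a 1) u w (a 2) t69 t73.symm t18 a0 (ns fa1b0) t12 t42 (ns t64) n0 t24 fa2b0 (ns n4) (ns fa1a2) (ns n1) t60
  · rcases Classical.em (G.Adj (a 1) u) with t74 | t74
    · have t75 : ¬ G.Adj (a 3) u := fun hc => hP (a 1) u (a 3) (c 2) (a 2) (a 0) t74 hc.symm fc2a3.symm fc2a2 fa1a3 (ns fc2a1) fa1a2 n3 n1 (ns fa2a3) fa0a1 t11 fa0a3 (ns fc2a0) fa0a2
      have t76 : G.Adj (c 1) u := Classical.byContradiction fun hc => hP (c 2) (a 2) (c 1) (a 1) u (a 0) fc2a2 fc1a2.symm fc1a1 t74 (ns fc1c2) fc2a1 (ns n3) (ns fa1a2) (ns n1) hc (ns fc2a0) fa0a2 (ns fc1a0) fa0a1 t11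
      have t77 : ¬ G.Adj (b 0) u := fun hc => (ns fa1b0) (hD (c 1) u (b 0) (a 1) t76 fb0c1.symm fc1a1 hc.symm t74.symm t3)
      exact hP (b 0) (a 0) (b 2) (a 1) u (a 3) fa0b0.symm fa0b2 fa1b2.symm t74 fb0b2 (ns fa1b0) t77 fa0a1 t11 (ns n2) fa3b0 (ns fa0a3) fa3b2 (ns fa1a3) t75
    · rcases Classical.em (G.Adj (c 3) u) with t78 | t78
      · have t79 : G.Adj (b 0) u := Classical.byContradiction fun hc => hP (a 2) (c 2) (b 0) (c 3) u (a 1) fc2a2.symm fb0c2.symm fb0c3 t78 fa2b0 (ns fc3a2) (ns n1) fc2c3 (ns n3) hc fa1a2 (ns fc2a1) fa1b0 (ns fc3a1) t74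
        have t80 : G.Adj (a 3) u := Classical.byContradiction fun hc => hP (a 2) (c 2) (a 3) (c 3) u (a 0) fc2a2.symm fc2a3 fc3a3.symm t78 fa2a3 (ns fc3a2) (ns n1) fc2c3 (ns n3) hc fa0a2 (ns fc2a0) fa0a3 (ns fc3a0) t11
        exact (ns fa3b0) (hD (c 3) u (b 0) (a 3) t78 fb0c3.symm fc3a3 t79.symm t80.symm t5)
      · rcases Classical.em (G.Adj (c 1) u) with t81 | t81
        · have t82 : ¬ G.Adj (b 1) u := fun hc => t74 (hD (b 1) (c 1) (a 1) u fb1c1 fa1b1.symm hc fc1a1 t81 (Ne.symm qua1))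
          have t83 : G.Adj (c 0) u := Classical.byContradiction fun hc => hP (b 2) (c 2) (b 1) (c 1) u (c 0) fb2c2 fb1c2.symm fb1c1 t81 (ns fb1b2) fb2c1 (ns n2) (ns fc1c2) (ns n3) t82 (ns fb2c0) fc0c2 (ns fb1c0) fc0c1 hc
          have t84 : G.Adj (b 3) u := Classical.byContradiction fun hc => hP (b 2) (c 2) (b 1) (c 1) u (b 3) fb2c2 fb1c2.symm fb1c1 t81 (ns fb1b2) fb2c1 (ns n2) (ns fc1c2) (ns n3) t82 (ns fb2b3) fb3c2 (ns fb1b3) fb3c1 hc
          have t85 : ¬ G.Adj (b 0) u := fun hc => fc0c1 (hD (b 0) u (c 0) (c 1) hc fb0c0 fb0c1 t83.symm t81.symm t6)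
          have t86 : ¬ G.Adj (a 3) u := fun hc => fc0c1 (hD (a 3) u (c 0) (c 1) hc fc0a3.symm fc1a3.symm t83.symm t81.symm t6)
          rcases Classical.em (G.Adj (c 1) w) with t87 | t87
          · have t88 : ¬ G.Adj (a 2) w := fun hc => (ns n1) (hD (c 1) w (a 2) u t87 fc1a2 t81 hc.symm a0.symm (Ne.symm qua2))
            have t89 : ¬ G.Adj (b 0) w := fun hc => t85 (hD (c 1) w (b 0) u t87 fb0c1.symm t81 hc.symm a0.symm (Ne.symm qub0))
            have t90 : ¬ G.Adj (b 1) w := fun hc => t82 (hD (c 1) w (b 1) u t87 fb1c1.symm t81 hc.symm a0.symm (Ne.symm qub1))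
            have t91 : ¬ G.Adj (c 0) w := fun hc => fc0c1 (hD u w (c 0) (c 1) a0 t83.symm t81.symm hc.symm t87.symm t6)
            have t92 : ¬ G.Adj (b 3) w := fun hc => (ns fb3c1) (hD u w (c 1) (b 3) a0 t81.symm t84.symm t87.symm hc.symm t10)
            have t93 : ¬ G.Adj (b 2) w := fun hc => hP (c 0) (b 0) (c 1) w (b 2) (b 3) fb0c0.symm fb0c1 t87 hc.symm fc0c1 t91 (ns fb2c0) t89 fb0b2 (ns fb2c1) fb3c0 (ns fb0b3) fb3c1 t92 (ns fb2b3)
            exact hP (b 2) (a 2) (c 0) u w (b 1) fa2b2.symm fc0a2.symm t83 a0 fb2c0 (ns n2) t93 (ns n1) t88 t91 fb1b2 (ns fa2b1) fb1c0 t82 t90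
          · rcases Classical.em (G.Adj (b 3) w) with t94 | t94
            · have t95 : ¬ G.Adj (a 2) w := fun hc => (ns n1) (hD (b 3) w (a 2) u t94 fa2b3.symm t84 hc.symm a0.symm (Ne.symm qua2))
              have t96 : ¬ G.Adj (a 0) w := fun hc => t11 (hD (b 3) w (a 0) u t94 fa0b3.symm t84 hc.symm a0.symm (Ne.symm qua0))
              have t97 : ¬ G.Adj (c 3) w := fun hc => t78 (hD (b 3) w (c 3) u t94 fb3c3 t84 hc.symm a0.symm (Ne.symm quc3))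
              have t98 : ¬ G.Adj (c 0) w := fun hc => (ns fb3c0) (hD u w (c 0) (b 3) a0 t83.symm t84.symm hc.symm t94.symm t7)
              have t99 : ¬ G.Adj (c 2) w := fun hc => hP (c 0) (a 0) (b 3) w (c 2) (c 1) fc0a0 fa0b3 t94 hc.symm (ns fb3c0) t98 fc0c2 t96 (ns fc2a0) fb3c2 (ns fc0c1) fc1a0 (ns fb3c1) t87 fc1c2
              exact hP (c 2) (a 2) (c 0) u w (c 3) fc2a2 fc0a2.symm t83 a0 (ns fc0c2) (ns n3) t99 (ns n1) t95 t98 (ns fc2c3) fc3a2 (ns fc0c3) t78 t97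
            · rcases Classical.em (G.Adj (c 0) w) with t100 | t100
              · have t101 : ¬ G.Adj (b 0) w := fun hc => t85 (hD (c 0) w (b 0) u t100 fb0c0.symm t83 hc.symm a0.symm (Ne.symm qub0))
                have t102 : ¬ G.Adj (a 3) w := fun hc => t86 (hD (c 0) w (a 3) u t100 fc0a3 t83 hc.symm a0.symm (Ne.symm qua3))
                have t103 : G.Adj (b 1) w := Classical.byContradiction fun hc => hP (b 1) (c 1) (b 0) (c 0) w (b 3) fb1c1 fb0c1.symm fb0c0 t100 (ns fb0b1) fb1c0 hc (ns fc0c1) t87 t101 (ns fb1b3) fb3c1 (ns fb0b3) fb3c0 t94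
                have t104 : G.Adj (b 2) w := Classical.byContradiction fun hc => hP (b 1) w (c 0) (a 3) (b 3) (b 2) t103 t100.symm fc0a3 fa3b3 fb1c0 (ns fa3b1) fb1b3 (ns t102) (ns t94) (ns fb3c0) (ns fb1b2) hc fb2c0 (ns fa3b2) fb2b3
                exact hP (c 1) (b 0) (c 0) w (b 2) (b 3) fb0c1.symm fb0c0 t100 t104.symm (ns fc0c1) t87 (ns fb2c1) t101 fb0b2 (ns fb2c0) fb3c1 (ns fb0b3) fb3c0 t94 (ns fb2b3)
              · rcases Classical.em (G.Adj (a 0) w) with t105 | t105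
                · have t106 : ¬ G.Adj (b 0) w := fun hc => t100 (hD (a 0) (b 0) (c 0) w fa0b0 fc0a0.symm t105 fb0c0 hc (Ne.symm qwc0))
                  have t107 : ¬ G.Adj (b 1) w := fun hc => hP (c 0) (b 0) (c 1) (b 1) w (b 3) fb0c0.symm fb0c1 fb1c1.symm hc fc0c1 (ns fb1c0) t100 fb0b1 t106 t87 fb3c0 (ns fb0b3) fb3c1 (ns fb1b3) t94
                  have t108 : ¬ G.Adj (b 2) w := fun hc => hP (b 0) (c 0) u w (b 2) (b 1) fb0c0 t83 a0 hc.symm t85 t106 fb0b2 t100 (ns fb2c0) n2 (ns fb0b1) fb1c0 t82 t107 fb1b2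
                  have t109 : G.Adj (a 2) w := Classical.byContradiction fun hc => hP (b 2) (a 2) (c 0) u w (b 1) fa2b2.symm fc0a2.symm t83 a0 fb2c0 (ns n2) t108 (ns n1) hc t100 fb1b2 (ns fa2b1) fb1c0 t82 t107
                  have t110 : ¬ G.Adj (c 2) w := fun hc => t108 (hD (a 2) (c 2) (b 2) w fc2a2.symm fa2b2 t109 fb2c2.symm hc (Ne.symm qwb2))
                  rcases Classical.em (G.Adj u v) with t111 | t111
                  · have t112 : G.Adj (b 0) v := Classical.byContradiction fun hc => hP (b 2) (a 2) w u v (b 0) fa2b2.symm t109 a0.symm t111 t108 (ns n2) (ns n5) (ns n1) (ns n4) (ns n0) fb0b2 (ns fa2b0) t106 t85 hc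
                    have t113 : G.Adj (b 1) v := Classical.byContradiction fun hc => hP (b 2) (a 2) w u v (b 1) fa2b2.symm t109 a0.symm t111 t108 (ns n2) (ns n5) (ns n1) (ns n4) (ns n0) fb1b2 (ns fa2b1) t107 t82 hc
                    have t114 : ¬ G.Adj (c 1) v := fun hc => fb0b1 (hD (c 1) v (b 0) (b 1) hc fb0c1.symm fb1c1.symm t112.symm t113.symm t4)
                    have t115 : G.Adj (a 1) v := Classical.byContradiction fun hc => hP (a 2) (c 2) (b 0) v u (a 1) fc2a2.symm fb0c2.symm t112 t111.symm fa2b0 (ns n4) (ns n1) (ns n6) (ns n3) t85 fa1a2 (ns fc2a1) fa1b0 hc t74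
                    exact t114 (hD (a 1) (b 1) (c 1) v fa1b1 fc1a1.symm t115 fb1c1 t113 (Ne.symm qvc1))
                  · have t116 : G.Adj (b 0) v := Classical.byContradiction fun hc => hP (b 0) (c 2) (a 2) w u v fb0c2 fc2a2 t109 a0.symm (ns fa2b0) t106 t85 t110 (ns n3) (ns n1) (ns hc) n6 n4 n0 (ns t111)
                    have t117 : G.Adj (b 1) v := Classical.byContradiction fun hc => hP (b 1) (c 2) (a 2) w u v fb1c2 fc2a2 t109 a0.symm (ns fa2b1) t107 t82 t110 (ns n3) (ns n1) (ns hc) n6 n4 n0 (ns t111)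
                    have t118 : G.Adj (c 0) v := Classical.byContradiction fun hc => hP (b 1) v (b 0) (c 0) u (b 2) t117 t116.symm fb0c0 t83 (ns fb0b1) fb1c0 t82 (ns hc) (ns t111) t85 (ns fb1b2) (ns n5) (ns fb0b2) fb2c0 (ns n2)
                    have t119 : G.Adj (b 3) v := Classical.byContradiction fun hc => hP (b 1) v (c 0) u (b 3) (b 2) t117 t118.symm t83 t84.symm fb1c0 t82 fb1b3 (ns t111) (ns hc) (ns fb3c0) (ns fb1b2) (ns n5) fb2c0 (ns n2) fb2b3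
                    exact hP (b 0) v (b 3) u w (b 2) t116 t119.symm t84 a0 fb0b3 t85 t106 (ns t111) n0 t94 (ns fb0b2) (ns n5) fb2b3 (ns n2) t108
                · have t120 : ¬ G.Adj (c 3) w := fun hc => hP (c 0) (a 0) (b 3) (c 3) w (c 1) fc0a0 fa0b3 fb3c3 hc (ns fb3c0) fc0c3 t100 (ns fc3a0) t105 t94 (ns fc0c1) fc1a0 (ns fb3c1) fc1c3 t87
                  have t121 : ¬ G.Adj (c 2) w := fun hc => hP (a 0) (c 0) u w (c 2) (c 3) fc0a0.symm t83 a0 hc.symm t11 t105 (ns fc2a0) t100 fc0c2 n3 fc3a0 (ns fc0c3) t78 t120 (ns fc2c3)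
                  have t122 : G.Adj (a 3) w := Classical.byContradiction fun hc => hP (c 2) (a 3) (c 1) u w (a 0) fc2a3 fc1a3.symm t81 a0 (ns fc1c2) (ns n3) t121 t86 hc t87 (ns fc2a0) fa0a3 (ns fc1a0) t11 t105
                  have t123 : G.Adj (a 2) w := Classical.byContradiction fun hc => hP (c 2) (a 2) (c 0) u w (c 3) fc2a2 fc0a2.symm t83 a0 (ns fc0c2) (ns n3) t121 (ns n1) hc t100 (ns fc2c3) fc3a2 (ns fc0c3) t78 t120
                  have t124 : ¬ G.Adj (b 2) w := fun hc => t121 (hD (a 2) (b 2) (c 2) w fa2b2 fc2a2.symm t123 fb2c2 hc (Ne.symm qwc2))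
                  rcases Classical.em (G.Adj u v) with t125 | t125
                  · have t126 : G.Adj (a 0) v := Classical.byContradiction fun hc => hP (c 2) (a 2) w u v (a 0) fc2a2 t123 a0.symm t125 t121 (ns n3) (ns n6) (ns n1) (ns n4) (ns n0) (ns fc2a0) fa0a2 t105 t11 hc
                    have t127 : G.Adj (c 3) v := Classical.byContradiction fun hc => hP (c 2) (a 2) w u v (c 3) fc2a2 t123 a0.symm t125 t121 (ns n3) (ns n6) (ns n1) (ns n4) (ns n0) (ns fc2c3) fc3a2 t120 t78 hc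
                    have t128 : ¬ G.Adj (b 3) v := fun hc => (ns fc3a0) (hD (b 3) v (a 0) (c 3) hc fa0b3.symm fb3c3 t126.symm t127.symm t2)
                    have t129 : G.Adj (a 3) v := Classical.byContradiction fun hc => hP (a 2) (b 2) (a 0) v u (a 3) fa2b2 fa0b2.symm t126 t125.symm (ns fa0a2) (ns n4) (ns n1) (ns n5) (ns n2) t11 (ns fa2a3) fa3b2 (ns fa0a3) hc t86
                    exact t128 (hD (a 3) (c 3) (b 3) v fc3a3.symm fa3b3 t129 fb3c3.symm t127 (Ne.symm qvb3))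
                  · have t130 : G.Adj (a 0) v := Classical.byContradiction fun hc => hP (a 0) (b 2) (a 2) w u v fa0b2 fa2b2.symm t123 a0.symm fa0a2 t105 t11 t124 (ns n2) (ns n1) (ns hc) n5 n4 n0 (ns t125)
                    have t131 : G.Adj (a 3) v := Classical.byContradiction fun hc => hP (b 2) (c 2) (a 3) w u v fb2c2 fc2a3 t122 a0.symm (ns fa3b2) t124 (ns n2) t121 (ns n3) t86 n5 n6 (ns hc) n0 (ns t125)
                    have t132 : G.Adj (c 3) v := Classical.byContradiction fun hc => hP (c 3) (b 2) (a 2) w u v fb2c3.symm fa2b2.symm t123 a0.symm fc3a2 t120 t78 t124 (ns n2) (ns n1) (ns hc) n5 n4 n0 (ns t125)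
                    have t133 : G.Adj (a 1) v := Classical.byContradiction fun hc => hP (a 1) (b 2) (a 0) v (a 3) u fa1b2 fa0b2.symm t130 t131.symm (ns fa0a1) hc fa1a3 (ns n5) (ns fa3b2) fa0a3 (ns t74) n2 (ns t11) t125 (ns t86)
                    have t134 : G.Adj (c 1) v := Classical.byContradiction fun hc => hP (c 3) v (a 1) (c 1) u (c 2) t132 t133.symm fc1a1.symm t81 fc3a1 (ns fc1c3) t78 (ns hc) (ns t125) t74 fc2c3 (ns n6) fc2a1 (ns fc1c2) (ns n3)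
                    exact hP (a 0) v (c 1) u w (c 2) t130 t134.symm t81 a0 (ns fc1a0) t11 t105 (ns t125) n0 t87 fc2a0 (ns n6) (ns fc1c2) (ns n3) t121
        · have t135 : G.Adj (a 3) u := Classical.byContradiction fun hc => hP (a 0) (b 2) (a 2) (c 1) (a 3) u fa0b2 fa2b2.symm fc1a2.symm fc1a3 fa0a2 (ns fc1a0) fa0a3 fb2c1 (ns fa3b2) fa2a3 (ns t11) n2 n1 (ns t81) (ns hc)
          have t136 : ¬ G.Adj (c 0) u := fun hc => hP (c 2) (b 2) (a 0) (c 0) u (c 1) fb2c2.symm fa0b2.symm fc0a0.symm hc fc2a0 (ns fc0c2) (ns n3) fb2c0 (ns n2) t11 fc1c2 (ns fb2c1) fc1a0 (ns fc0c1) t81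
          have t137 : ¬ G.Adj (b 3) u := fun hc => hP (c 2) (b 2) (a 0) (b 3) u (c 1) fb2c2.symm fa0b2.symm fa0b3 hc fc2a0 (ns fb3c2) (ns n3) fb2b3 (ns n2) t11 fc1c2 (ns fb2c1) fc1a0 (ns fb3c1) t81
          have t138 : G.Adj (b 1) u := Classical.byContradiction fun hc => hP (c 0) (a 2) (c 1) (b 1) (c 3) u fc0a2 fc1a2.symm fb1c1.symm fb1c3 fc0c1 (ns fb1c0) fc0c3 fa2b1 (ns fc3a2) fc1c3 (ns t136) n1 (ns t81) (ns hc) (ns t78)
          have t139 : G.Adj (b 0) u := Classical.byContradiction fun hc => hP (c 2) (b 0) (c 1) (a 1) (b 3) u fb0c2.symm fb0c1 fc1a1 fa1b3 (ns fc1c2) fc2a1 (ns fb3c2) (ns fa1b0) fb0b3 (ns fb3c1) n3 (ns hc) (ns t81) (ns t74) (ns t137)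
          rcases Classical.em (G.Adj (b 1) w) with t140 | t140
          · have t141 : ¬ G.Adj (c 2) w := fun hc => (ns n3) (hD (b 1) w (c 2) u t140 fb1c2 t138 hc.symm a0.symm (Ne.symm quc2))
            have t142 : ¬ G.Adj (a 0) w := fun hc => t11 (hD (b 1) w (a 0) u t140 fa0b1.symm t138 hc.symm a0.symm (Ne.symm qua0))
            have t143 : ¬ G.Adj (a 1) w := fun hc => t74 (hD (b 1) w (a 1) u t140 fa1b1.symm t138 hc.symm a0.symm (Ne.symm qua1))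
            have t144 : ¬ G.Adj (b 0) w := fun hc => fb0b1 (hD u w (b 0) (b 1) a0 t139.symm t138.symm hc.symm t140.symm t4)
            have t145 : ¬ G.Adj (a 3) w := fun hc => (ns fa3b1) (hD u w (b 1) (a 3) a0 t138.symm t135.symm t140.symm hc.symm t9)
            have t146 : ¬ G.Adj (a 2) w := fun hc => hP (b 0) (a 0) (b 1) w (a 2) (a 3) fa0b0.symm fa0b1 t140 hc.symm fb0b1 t144 (ns fa2b0) t142 fa0a2 (ns fa2b1) fa3b0 (ns fa0a3) fa3b1 t145 (ns fa2a3)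
            exact hP (a 2) (c 2) (b 0) u w (a 1) fc2a2.symm fb0c2.symm t139 a0 fa2b0 (ns n1) t146 (ns n3) t141 t144 fa1a2 (ns fc2a1) fa1b0 t74 t143
          · rcases Classical.em (G.Adj (a 3) w) with t147 | t147
            · have t148 : ¬ G.Adj (c 2) w := fun hc => (ns n3) (hD (a 3) w (c 2) u t147 fc2a3.symm t135 hc.symm a0.symm (Ne.symm quc2))
              have t149 : ¬ G.Adj (c 0) w := fun hc => t136 (hD (a 3) w (c 0) u t147 fc0a3.symm t135 hc.symm a0.symm (Ne.symm quc0))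
              have t150 : ¬ G.Adj (b 3) w := fun hc => t137 (hD (a 3) w (b 3) u t147 fa3b3 t135 hc.symm a0.symm (Ne.symm qub3))
              have t151 : ¬ G.Adj (b 0) w := fun hc => (ns fa3b0) (hD u w (b 0) (a 3) a0 t139.symm t135.symm hc.symm t147.symm t5)
              have t152 : ¬ G.Adj (b 2) w := fun hc => hP (b 0) (c 0) (a 3) w (b 2) (b 1) fb0c0 fc0a3 t147 hc.symm (ns fa3b0) t151 fb0b2 t149 (ns fb2c0) fa3b2 (ns fb0b1) fb1c0 (ns fa3b1) t140 fb1b2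
              exact hP (b 2) (c 2) (b 0) u w (b 3) fb2c2 fb0c2.symm t139 a0 (ns fb0b2) (ns n2) t152 (ns n3) t148 t151 (ns fb2b3) fb3c2 (ns fb0b3) t137 t150
            · rcases Classical.em (G.Adj (b 0) w) with t153 | t153
              · have t154 : ¬ G.Adj (a 0) w := fun hc => t11 (hD (b 0) w (a 0) u t153 fa0b0.symm t139 hc.symm a0.symm (Ne.symm qua0))
                have t155 : ¬ G.Adj (c 3) w := fun hc => t78 (hD (b 0) w (c 3) u t153 fb0c3 t139 hc.symm a0.symm (Ne.symm quc3))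
                have t156 : G.Adj (a 1) w := Classical.byContradiction fun hc => hP (a 1) (b 1) (a 0) (b 0) w (a 3) fa1b1 fa0b1.symm fa0b0 t153 (ns fa0a1) fa1b0 hc (ns fb0b1) t140 t154 (ns fa1a3) fa3b1 (ns fa0a3) fa3b0 t147
                have t157 : G.Adj (a 2) w := Classical.byContradiction fun hc => hP (a 1) w (b 0) (c 3) (a 3) (a 2) t156 t153.symm fb0c3 fc3a3 fa1b0 (ns fc3a1) fa1a3 (ns t155) (ns t147) (ns fa3b0) (ns fa1a2) hc fa2b0 (ns fc3a2) fa2a3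
                exact hP (b 1) (a 0) (b 0) w (a 2) (a 3) fa0b1.symm fa0b0 t153 t157.symm (ns fb0b1) t140 (ns fa2b1) t154 fa0a2 (ns fa2b0) fa3b1 (ns fa0a3) fa3b0 t147 (ns fa2a3)
              · rcases Classical.em (G.Adj (a 0) w) with t158 | t158
                · have t159 : ¬ G.Adj (c 0) w := fun hc => t153 (hD (a 0) (c 0) (b 0) w fc0a0.symm fa0b0 t158 fb0c0.symm hc (Ne.symm qwb0))
                  have t160 : ¬ G.Adj (b 3) w := fun hc => hP (b 0) (c 0) (a 3) (b 3) w (b 1) fb0c0 fc0a3 fa3b3 hc (ns fa3b0) fb0b3 t153 (ns fb3c0) t159 t147 (ns fb0b1) fb1c0 (ns fa3b1) fb1b3 t140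
                  have t161 : ¬ G.Adj (b 2) w := fun hc => hP (c 0) (b 0) u w (b 2) (b 3) fb0c0.symm t139 a0 hc.symm t136 t159 (ns fb2c0) t153 fb0b2 n2 fb3c0 (ns fb0b3) t137 t160 (ns fb2b3)
                  have t162 : G.Adj (c 3) w := Classical.byContradiction fun hc => hP (b 2) (c 3) (b 1) u w (c 0) fb2c3 fb1c3.symm t138 a0 (ns fb1b2) (ns n2) t161 t78 hc t140 (ns fb2c0) fc0c3 (ns fb1c0) t136 t159
                  have t163 : G.Adj (c 2) w := Classical.byContradiction fun hc => hP (b 2) (c 2) (b 0) u w (b 3) fb2c2 fb0c2.symm t139 a0 (ns fb0b2) (ns n2) t161 (ns n3) hc t153 (ns fb2b3) fb3c2 (ns fb0b3) t137 t160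
                  have t164 : ¬ G.Adj (a 2) w := fun hc => t161 (hD (a 2) (c 2) (b 2) w fc2a2.symm fa2b2 hc fb2c2.symm t163 (Ne.symm qwb2))
                  rcases Classical.em (G.Adj u v) with t165 | t165
                  · have t166 : G.Adj (c 0) v := Classical.byContradiction fun hc => hP (b 2) (c 2) w u v (c 0) fb2c2 t163 a0.symm t165 t161 (ns n2) (ns n5) (ns n3) (ns n6) (ns n0) (ns fb2c0) fc0c2 t159 t136 hc
                    have t167 : G.Adj (b 3) v := Classical.byContradiction fun hc => hP (b 2) (c 2) w u v (b 3) fb2c2 t163 a0.symm t165 t161 (ns n2) (ns n5) (ns n3) (ns n6) (ns n0) (ns fb2b3) fb3c2 t160 t137 hc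
                    have t168 : ¬ G.Adj (a 3) v := fun hc => (ns fb3c0) (hD (a 3) v (c 0) (b 3) hc fc0a3.symm fa3b3 t166.symm t167.symm t7)
                    have t169 : G.Adj (c 3) v := Classical.byContradiction fun hc => hP (c 2) (a 2) (c 0) v u (c 3) fc2a2 fc0a2.symm t166 t165.symm (ns fc0c2) (ns n6) (ns n3) (ns n4) (ns n1) t136 (ns fc2c3) fc3a2 (ns fc0c3) hc t78
                    exact t168 (hD (b 3) (c 3) (a 3) v fb3c3 fa3b3.symm t167 fc3a3 t169 (Ne.symm qva3))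
                  · have t170 : G.Adj (c 0) v := Classical.byContradiction fun hc => hP (c 0) (a 2) (c 2) w u v fc0a2 fc2a2.symm t163 a0.symm fc0c2 t159 t136 t164 (ns n1) (ns n3) (ns hc) n4 n6 n0 (ns t165)
                    have t171 : G.Adj (c 3) v := Classical.byContradiction fun hc => hP (a 2) (b 2) (c 3) w u v fa2b2 fb2c3 t162 a0.symm (ns fc3a2) t164 (ns n1) t161 (ns n2) t78 n4 n5 (ns hc) n0 (ns t165)
                    have t172 : G.Adj (b 3) v := Classical.byContradiction fun hc => hP (b 3) (a 2) (c 2) w u v fa2b3.symm fc2a2.symm t163 a0.symm fb3c2 t160 t137 t164 (ns n1) (ns n3) (ns hc) n4 n6 n0 (ns t165)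
                    have t173 : G.Adj (c 1) v := Classical.byContradiction fun hc => hP (c 1) (a 2) (c 0) v (c 3) u fc1a2 fc0a2.symm t170 t171.symm (ns fc0c1) hc fc1c3 (ns n4) (ns fc3a2) fc0c3 (ns t81) n1 (ns t136) t165 (ns t78)
                    have t174 : G.Adj (b 1) v := Classical.byContradiction fun hc => hP (b 3) v (c 1) (b 1) u (b 2) t172 t173.symm fb1c1.symm t138 fb3c1 (ns fb1b3) t137 (ns hc) (ns t165) t81 fb2b3 (ns n5) fb2c1 (ns fb1b2) (ns n2)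
                    exact hP (c 0) v (b 1) u w (b 2) t170 t174.symm t138 a0 (ns fb1c0) t136 t159 (ns t165) n0 t140 fb2c0 (ns n5) (ns fb1b2) (ns n2) t161
                · have t175 : ¬ G.Adj (a 1) w := fun hc => hP (b 0) (a 0) (b 1) (a 1) w (a 3) fa0b0.symm fa0b1 fa1b1.symm hc fb0b1 (ns fa1b0) t153 fa0a1 t158 t140 fa3b0 (ns fa0a3) fa3b1 (ns fa1a3) t147
                  have t176 : ¬ G.Adj (a 2) w := fun hc => hP (a 0) (b 0) u w (a 2) (a 1) fa0b0 t139 a0 hc.symm t11 t158 fa0a2 t153 (ns fa2b0) n1 (ns fa0a1) fa1b0 t74 t175 fa1a2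
                  have t177 : G.Adj (c 2) w := Classical.byContradiction fun hc => hP (a 2) (c 2) (b 0) u w (a 1) fc2a2.symm fb0c2.symm t139 a0 fa2b0 (ns n1) t176 (ns n3) hc t153 fa1a2 (ns fc2a1) fa1b0 t74 t175
                  have t178 : ¬ G.Adj (b 2) w := fun hc => t176 (hD (b 2) (c 2) (a 2) w fb2c2 fa2b2.symm hc fc2a2 t177 (Ne.symm qwa2))
                  rcases Classical.em (G.Adj u v) with t179 | t179
                  · have t180 : G.Adj (a 0) v := Classical.byContradiction fun hc => hP (a 2) (c 2) w u v (a 0) fc2a2.symm t177 a0.symm t179 t176 (ns n1) (ns n4) (ns n3) (ns n6) (ns n0) fa0a2 (ns fc2a0) t158 t11 hc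
                    have t181 : G.Adj (a 1) v := Classical.byContradiction fun hc => hP (a 2) (c 2) w u v (a 1) fc2a2.symm t177 a0.symm t179 t176 (ns n1) (ns n4) (ns n3) (ns n6) (ns n0) fa1a2 (ns fc2a1) t175 t74 hc
                    have t182 : ¬ G.Adj (b 1) v := fun hc => fa0a1 (hD (b 1) v (a 0) (a 1) hc fa0b1.symm fa1b1.symm t180.symm t181.symm t1)
                    have t183 : G.Adj (c 1) v := Classical.byContradiction fun hc => hP (c 2) (b 2) (a 0) v u (c 1) fb2c2.symm fa0b2.symm t180 t179.symm fc2a0 (ns n6) (ns n3) (ns n5) (ns n2) t11 fc1c2 (ns fb2c1) fc1a0 hc t81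
                    exact t182 (hD (a 1) (c 1) (b 1) v fc1a1.symm fa1b1 t181 fb1c1.symm t183 (Ne.symm qvb1))
                  · have t184 : G.Adj (a 0) v := Classical.byContradiction fun hc => hP (a 0) (b 2) (c 2) w u v fa0b2 fb2c2 t177 a0.symm (ns fc2a0) t158 t11 t178 (ns n2) (ns n3) (ns hc) n5 n6 n0 (ns t179)
                    have t185 : G.Adj (a 1) v := Classical.byContradiction fun hc => hP (a 1) (b 2) (c 2) w u v fa1b2 fb2c2 t177 a0.symm (ns fc2a1) t175 t74 t178 (ns n2) (ns n3) (ns hc) n5 n6 n0 (ns t179)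
                    have t186 : G.Adj (b 0) v := Classical.byContradiction fun hc => hP (a 1) v (a 0) (b 0) u (a 2) t185 t184.symm fa0b0 t139 (ns fa0a1) fa1b0 t74 (ns hc) (ns t179) t11 (ns fa1a2) (ns n4) (ns fa0a2) fa2b0 (ns n1)
                    have t187 : G.Adj (a 3) v := Classical.byContradiction fun hc => hP (a 1) v (b 0) u (a 3) (a 2) t185 t186.symm t139 t135.symm fa1b0 t74 fa1a3 (ns t179) (ns hc) (ns fa3b0) (ns fa1a2) (ns n4) fa2b0 (ns n1) fa2a3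
                    exact hP (a 0) v (a 3) u w (a 2) t184 t187.symm t135 a0 fa0a3 t11 t158 (ns t179) n0 t147 (ns fa0a2) (ns n4) fa2a3 (ns n1) t176

end Pool.Agent.MP_41f2d3_co

end

section

/-! Bounded clique number. -/

namespace Pool.Agent.MP_41f2d3_co

open Finset Classical

noncomputable section

variable {V : Type}

/-- bound -/
def cTC : ℕ := J 12 (J 1 (cTri + 2) + 12)

lemma W_TC {G : SimpleGraph V} (hD : DF G) (hP : PF G) {a b c : Fin 4 → V} (h : TCs G a b c)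
    (S : Finset V) : W G cTC S := by
  let F : Finset V := univ.image a ∪ (univ.image b ∪ univ.image c)
  have hF : F.card ≤ 12 := by
    have h1 : (univ.image a).card ≤ 4 := card_image_le.trans (by simp)
    have h2 : (univ.image b).card ≤ 4 := card_image_le.trans (by simp)
    have h3 : (univ.image c).card ≤ 4 := card_image_le.trans (by simp)
    have h4 := card_union_le (univ.image b) (univ.image c)
    have h5 := card_union_le (univ.image a) (univ.image b ∪ univ.image c)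
    simp only [F]
    omega
  refine W_del hF ?_
  have hoff : ∀ x ∈ S \ F, Off a b c x := by
    intro x hx i
    have := (mem_sdiff.1 hx).2
    simp only [F, mem_union, mem_image, mem_univ, true_and, not_or, not_exists] at this
    exact ⟨fun e => this.1 i e.symm, fun e => this.2.1 i e.symm, fun e => this.2.2 i e.symm⟩
  generalize S \ F = S' at hoff
  let N0 := S'.filter (fun x => ¬ G.Adj x (a 2) ∧ ¬ G.Adj x (b 2) ∧ ¬ G.Adj x (c 2))
  refine W_join (A := N0) (filter_subset _ _) ?_ ((W_indep ?_).mono (by omega)) ?_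
  · refine Ty_of_labels (fun _ => ()) univ (by simp) (fun _ _ => Or.inr (mem_univ _)) ?_
    intro x hx y hy _ z hz _
    obtain ⟨hx, x1, x2, x3⟩ := mem_filter.1 hx
    obtain ⟨hy, y1, y2, y3⟩ := mem_filter.1 hy
    constructor
    · intro e
      by_contra e'
      exact tc_n0twin hD hP h (hoff x hx) (hoff y hy) (hoff z hz) e e' x1 x2 x3 y1 y2 y3
    · intro e
      by_contra e'
      exact tc_n0twin hD hP h (hoff y hy) (hoff x hx) (hoff z hz) e e' y1 y2 y3 x1 x2 x3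
  · intro x hx y hy e
    obtain ⟨hx, x1, x2, x3⟩ := mem_filter.1 hx
    obtain ⟨hy, y1, y2, y3⟩ := mem_filter.1 hy
    exact tc_n0ind hD hP h (hoff x hx) (hoff y hy) e x1 x2 x3 y1 y2 y3
  let col : V → Fin 3 := fun x => if G.Adj x (a 2) then 0 else if G.Adj x (b 2) then 1 else 2
  have c0 : ∀ x, col x = 0 → G.Adj x (a 2) := by
    intro x; simp only [col]; split_ifs <;> simp [*]
  have c1 : ∀ x, col x = 1 → G.Adj x (b 2) := by
    intro x; simp only [col]; split_ifs <;> simp [*]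
  have c2 : ∀ x ∈ S' \ N0, col x = 2 → G.Adj x (c 2) := by
    intro x hx
    rw [mem_sdiff] at hx
    simp only [col]
    split_ifs with h1 h2
    · simp
    · simp
    · intro _
      by_contra h3
      exact hx.2 (mem_filter.2 ⟨hx.1, h1, h2, h3⟩)
  have ho : ∀ x ∈ S' \ N0, Off a b c x := fun x hx => hoff x (mem_sdiff.1 hx).1
  have hind : ∀ x ∈ S' \ N0, ∀ y ∈ S' \ N0, G.Adj x y → col x ≠ col y := by
    intro x hx y hy e ec
    rcases fin3_cases (col x) with e1 | e1 | e1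
    · exact tc_ind hD hP h (ho x hx) (ho y hy) (c0 x e1) (c0 y (ec ▸ e1)) e
    · exact tc_ind hD hP h.rot (ho x hx).rot (ho y hy).rot (c1 x e1) (c1 y (ec ▸ e1)) e
    · exact tc_ind hD hP h.rot.rot (ho x hx).rot.rot (ho y hy).rot.rot (c2 x hx e1)
        (c2 y hy (ec ▸ e1)) e
  refine (W_tri hD hP col hind (rainbow_of_ordered col ?_) (Or.inr ?_)).mono (by omega)
  · intro x hx y hy z hz e1 e2 e3 n1 n2 n3
    exact tc_3p1 hD hP h (ho x hx) (ho y hy) (ho z hz) (c0 x e1) (c1 y e2) (c2 z hz e3) n1 n2 n3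
  · intro u hu w hw v hv z hz e1 e2 uw vz
    by_contra hh
    push Not at hh
    obtain ⟨uz, vw⟩ := hh
    have hne := hind u hu w hw uw
    rcases fin3_cases (col u) with d1 | d1 | d1 <;> rcases fin3_cases (col w) with d2 | d2 | d2
    · exact hne (d1.trans d2.symm)
    · exact tc_2k2 hD hP h (ho u hu) (ho v hv) (ho w hw) (ho z hz) (c0 u d1) (c0 v (e1 ▸ d1))
        (c1 w d2) (c1 z (e2 ▸ d2)) uw vz uz vw
    · exact tc_2k2 hD hP h.rot.rot (ho w hw).rot.rot (ho z hz).rot.rot (ho u hu).rot.rot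
        (ho v hv).rot.rot (c2 w hw d2) (c2 z hz (e2 ▸ d2)) (c0 u d1) (c0 v (e1 ▸ d1))
        uw.symm vz.symm (ns vw) (ns uz)
    · exact tc_2k2 hD hP h (ho w hw) (ho z hz) (ho u hu) (ho v hv) (c0 w d2) (c0 z (e2 ▸ d2))
        (c1 u d1) (c1 v (e1 ▸ d1)) uw.symm vz.symm (ns vw) (ns uz)
    · exact hne (d1.trans d2.symm)
    · exact tc_2k2 hD hP h.rot (ho u hu).rot (ho v hv).rot (ho w hw).rot (ho z hz).rot
        (c1 u d1) (c1 v (e1 ▸ d1)) (c2 w hw d2) (c2 z hz (e2 ▸ d2)) uw vz uz vw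
    · exact tc_2k2 hD hP h.rot.rot (ho u hu).rot.rot (ho v hv).rot.rot (ho w hw).rot.rot
        (ho z hz).rot.rot (c2 u hu d1) (c2 v hv (e1 ▸ d1)) (c0 w d2) (c0 z (e2 ▸ d2)) uw vz uz vw
    · exact tc_2k2 hD hP h.rot (ho w hw).rot (ho z hz).rot (ho u hu).rot (ho v hv).rot
        (c1 w d2) (c1 z (e2 ▸ d2)) (c2 u hu d1) (c2 v hv (e1 ▸ d1)) uw.symm vz.symm (ns vw) (ns uz)
    · exact hne (d1.trans d2.symm)

lemma excl {G : SimpleGraph V} (hP : PF G) (a b c : Fin 4 → V) (pba pbc pca : Prop)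
    (t1 : ∀ i, G.Adj (a i) (b i)) (t2 : ∀ i, G.Adj (b i) (c i)) (t3 : ∀ i, G.Adj (c i) (a i))
    (aa : ∀ i j, ¬ G.Adj (a i) (a j)) (bb : ∀ i j, ¬ G.Adj (b i) (b j))
    (cc : ∀ i j, ¬ G.Adj (c i) (c j))
    (ab : ∀ i j, i < j → G.Adj (a i) (b j)) (ac : ∀ i j, i < j → ¬ G.Adj (a i) (c j))
    (cb : ∀ i j, i < j → ¬ G.Adj (c i) (b j))
    (ba : ∀ i j, i < j → (G.Adj (b i) (a j) ↔ pba))
    (bc : ∀ i j, i < j → (G.Adj (b i) (c j) ↔ pbc))
    (ca : ∀ i j, i < j → (G.Adj (c i) (a j) ↔ pca))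
    (i1 : pba → ¬ pbc) (i2 : pba → ¬ pca) : pbc ∧ TCs G a b c := by
  by_cases h1 : pbc <;> by_cases h2 : pca
  · have h3 : ¬ pba := fun h => i1 h h1
    refine ⟨h1, ?_, ?_, ?_, aa, bb, cc⟩
    · intro i j
      rcases lt_trichotomy i j with h | rfl | h
      · exact ⟨fun _ => h.le, fun _ => ab i j h⟩
      · exact ⟨fun _ => le_rfl, fun _ => t1 i⟩
      · exact ⟨fun e => absurd ((ba j i h).1 e.symm) h3, fun e => absurd e (not_le.2 h)⟩
    · intro i j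
      rcases lt_trichotomy i j with h | rfl | h
      · exact ⟨fun _ => h.le, fun _ => (bc i j h).2 h1⟩
      · exact ⟨fun _ => le_rfl, fun _ => t2 i⟩
      · exact ⟨fun e => absurd e.symm (cb j i h), fun e => absurd e (not_le.2 h)⟩
    · intro i j
      rcases lt_trichotomy i j with h | rfl | h
      · exact ⟨fun _ => h.le, fun _ => (ca i j h).2 h2⟩
      · exact ⟨fun _ => le_rfl, fun _ => t3 i⟩
      · exact ⟨fun e => absurd e.symm (ac j i h), fun e => absurd e (not_le.2 h)⟩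
  · exfalso
    have ca' : ∀ i j, i < j → ¬ G.Adj (c i) (a j) := fun i j h e => h2 ((ca i j h).1 e)
    exact hP (c 0) (a 0) (b 3) (a 1) (c 1) (c 2) (t3 0) (ab 0 3 (by decide))
      (ab 1 3 (by decide)).symm (t3 1).symm (cb 0 3 (by decide)) (ca' 0 1 (by decide)) (cc 0 1)
      (aa 0 1) (ac 0 1 (by decide)) (ns (cb 1 3 (by decide))) (cc 2 0) (ns (ac 0 2 (by decide)))
      (cb 2 3 (by decide)) (ns (ac 1 2 (by decide))) (cc 2 1)
  · exfalso
    have bc' : ∀ i j, i < j → ¬ G.Adj (b i) (c j) := fun i j h e => h1 ((bc i j h).1 e)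
    have ba' : ∀ i j, i < j → ¬ G.Adj (b i) (a j) := fun i j h e => i2 ((ba i j h).1 e) h2
    exact hP (b 0) (c 0) (a 3) (c 1) (b 1) (b 2) (t2 0) ((ca 0 3 (by decide)).2 h2)
      ((ca 1 3 (by decide)).2 h2).symm (t2 1).symm (ba' 0 3 (by decide)) (bc' 0 1 (by decide))
      (bb 0 1) (cc 0 1) (cb 0 1 (by decide)) (ns (ba' 1 3 (by decide))) (bb 2 0)
      (ns (cb 0 2 (by decide))) (ba' 2 3 (by decide)) (ns (cb 1 2 (by decide))) (bb 2 1)
  · exfalso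
    have bc' : ∀ i j, i < j → ¬ G.Adj (b i) (c j) := fun i j h e => h1 ((bc i j h).1 e)
    have ca' : ∀ i j, i < j → ¬ G.Adj (c i) (a j) := fun i j h e => h2 ((ca i j h).1 e)
    exact hP (c 0) (a 0) (b 2) (a 1) (c 1) (c 3) (t3 0) (ab 0 2 (by decide))
      (ab 1 2 (by decide)).symm (t3 1).symm (cb 0 2 (by decide)) (ca' 0 1 (by decide)) (cc 0 1)
      (aa 0 1) (ac 0 1 (by decide)) (ns (cb 1 2 (by decide))) (cc 3 0) (ns (ac 0 3 (by decide)))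
      (ns (bc' 2 3 (by decide))) (ns (ac 1 3 (by decide))) (cc 3 1)

/-- a clique of size `s` in `S` -/
def IsCl (G : SimpleGraph V) (S : Finset V) {s : ℕ} (c : Fin s → V) : Prop :=
  (∀ x, c x ∈ S) ∧ ∀ x y, x ≠ y → G.Adj (c x) (c y)

/-- no clique of size `s` in `S` -/
def NoCl (G : SimpleGraph V) (S : Finset V) (s : ℕ) : Prop := ∀ c : Fin s → V, ¬ IsCl G S c

lemma hit {G : SimpleGraph V} {S : Finset V} (v0 : V) (s N : ℕ) :
    (∃ F : Finset V, F.card ≤ s * N ∧ NoCl G (S \ F) s) ∨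
    ∃ t : ℕ → Fin s → V, (∀ i < N, IsCl G S (t i)) ∧
      ∀ i < N, ∀ j < N, i ≠ j → ∀ x y, t i x ≠ t j y := by
  induction N with
  | zero => exact Or.inr ⟨fun _ _ => v0, by simp, by simp⟩
  | succ N ih =>
    rcases ih with ⟨F, hF, h⟩ | ⟨t, h1, h2⟩
    · exact Or.inl ⟨F, hF.trans (Nat.mul_le_mul_left _ (by omega)), h⟩
    let F : Finset V := (range N).biUnion (fun i => univ.image (t i))
    have hF : F.card ≤ s * N := by
      have := card_biUnion_le_card_mul (range N) (fun i => univ.image (t i)) s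
        (fun i _ => card_image_le.trans (by simp))
      rw [card_range, mul_comm] at this
      exact this
    by_cases hn : NoCl G (S \ F) s
    · exact Or.inl ⟨F, hF.trans (Nat.mul_le_mul_left _ (by omega)), hn⟩
    right
    unfold NoCl at hn
    push Not at hn
    obtain ⟨c, hc⟩ := hn
    have hc' : ∀ i < N, ∀ x y, t i x ≠ c y := by
      intro i hi x y e
      exact (mem_sdiff.1 (hc.1 y)).2
        (mem_biUnion.2 ⟨i, mem_range.2 hi, mem_image.2 ⟨x, mem_univ _, e⟩⟩)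
    refine ⟨Function.update t N c, ?_, ?_⟩
    · intro i hi
      by_cases e : i = N
      · rw [e, Function.update_self]
        exact ⟨fun x => (mem_sdiff.1 (hc.1 x)).1, hc.2⟩
      · rw [Function.update_of_ne e]
        exact h1 i (by omega)
    · intro i hi j hj hij x y
      by_cases e : i = N <;> by_cases e' : j = N
      · omega
      · rw [e, Function.update_self, Function.update_of_ne e']
        exact (hc' j (by omega) y x).symm
      · rw [e', Function.update_self, Function.update_of_ne e]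
        exact hc' i (by omega) x y
      · rw [Function.update_of_ne e, Function.update_of_ne e']
        exact h2 i (by omega) j (by omega) hij x y

lemma IsCl.mc {G : SimpleGraph V} (hD : DF G) {S : Finset V} {s : ℕ} {c : Fin s → V}
    (h : IsCl G S c) (hn : NoCl G S (s + 1)) : MC G S (univ.image c) ∧ (univ.image c).card = s := by
  have hinj : Function.Injective c := by
    intro x y e
    by_contra hne
    exact (h.2 x y hne).ne e
  refine ⟨⟨?_, ?_, ?_⟩, by rw [card_image_of_injective _ hinj]; simp⟩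
  · intro v hv
    obtain ⟨x, _, rfl⟩ := mem_image.1 hv
    exact h.1 x
  · intro u hu v hv hne
    obtain ⟨x, _, rfl⟩ := mem_image.1 hu
    obtain ⟨y, _, rfl⟩ := mem_image.1 hv
    exact h.2 x y (fun e => hne (e ▸ rfl))
  · intro v hv hvn u hu w hw vu vw
    obtain ⟨x, _, rfl⟩ := mem_image.1 hu
    obtain ⟨y, _, rfl⟩ := mem_image.1 hw
    by_contra hne
    have hxy : x ≠ y := fun e => hne (e ▸ rfl)
    have hall : ∀ z, G.Adj v (c z) := by
      intro z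
      by_cases e1 : z = x
      · exact e1 ▸ vu
      by_cases e2 : z = y
      · exact e2 ▸ vw
      exact hD (c x) (c y) v (c z) (h.2 x y hxy) vu.symm (h.2 x z (Ne.symm e1)) vw.symm
        (h.2 y z (Ne.symm e2)) (fun e => hvn (mem_image.2 ⟨z, mem_univ _, e.symm⟩))
    refine hn (Fin.cons v c) ⟨?_, ?_⟩
    · intro z
      refine Fin.cases ?_ (fun z => ?_) z
      · simpa using hv
      · simpa using h.1 z
    · intro z w
      refine Fin.cases ?_ (fun z => ?_) z <;> refine Fin.cases ?_ (fun w => ?_) w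
      · simp
      · intro _; simpa using hall w
      · intro _; simpa using (hall z).symm
      · intro e; simpa using h.2 z w (fun e' => e (e' ▸ rfl))

lemma NoCl.mono {G : SimpleGraph V} {S S' : Finset V} {s : ℕ} (h : NoCl G S s) (hS : S' ⊆ S) :
    NoCl G S' s := fun c hc => h c ⟨fun x => hS (hc.1 x), hc.2⟩

theorem W_omega (s : ℕ) : ∃ k, ∀ (V : Type) (G : SimpleGraph V) (S : Finset V), DF G → PF G →
    NoCl G S (s + 3) → W G k S := by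
  induction s with
  | zero =>
    refine ⟨cK3, fun V G S hD hP hn => W_K3 hD hP ?_⟩
    intro a ha b hb c hc ab ac bc
    refine hn ![a, b, c] ⟨?_, ?_⟩
    · intro x; fin_cases x <;> simpa
    · intro x y
      fin_cases x <;> fin_cases y <;> simp [ab, ac, bc, ab.symm, ac.symm, bc.symm]
  | succ s ih =>
    obtain ⟨k, hk⟩ := ih
    obtain ⟨N, hN⟩ := ramsey (Fin (s + 3) → Fin (s + 3) → Prop) (s + 4)
    refine ⟨J ((s + 3) * N) (k + (s + 3) * N) + cTC + 2, fun V G S0 hD hP hn0 => ?_⟩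
    refine W_of_prime (by omega) S0 (fun S hS ⟨v0, _⟩ hc _ _ => ?_)
    have hn : NoCl G S (s + 3 + 1) := hn0.mono hS
    rcases hit (G := G) (S := S) v0 (s + 3) N with ⟨F, hF, h⟩ | ⟨t, h1, h2⟩
    · exact (W_del hF (hk V G _ hD hP h)).mono (by omega)
    obtain ⟨f, hf, hmono, π, hπ⟩ := hN (fun i j x y => G.Adj (t i x) (t j y))
    let T : Fin (s + 4) → Fin (s + 3) → V := fun i => t (f i)
    have hT : ∀ i, IsCl G S (T i) := fun i => h1 _ (hf i)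
    have hne : ∀ i j, i < j → ∀ x y, T i x ≠ T j y :=
      fun i j h => h2 _ (hf i) _ (hf j) (hmono i j h).ne
    have hadj : ∀ i j, i < j → ∀ x y, (G.Adj (T i x) (T j y) ↔ π x y) := by
      intro i j h x y
      rw [← hπ i j h]
    have hmc := fun i => (hT i).mc hD hn
    have nofix : ∀ x, ¬ π x x := by
      intro x hx
      refine hn (fun i => T i x) ⟨fun i => (hT i).1 x, fun i j hij => ?_⟩
      rcases lt_or_gt_of_ne hij with h | h
      · exact (hadj i j h x x).2 hx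
      · exact ((hadj j i h x x).2 hx).symm
    have l01 : (0 : Fin (s + 4)) < 1 := by simp
    have inj1 : ∀ x y y', π x y → π x y' → y = y' := by
      intro x y y' p1 p2
      have := (hmc 1).1.one (T 0 x) ((hT 0).1 x) (fun h => by
        obtain ⟨z, _, e⟩ := mem_image.1 h
        exact hne 0 1 l01 x z e.symm) (T 1 y) (mem_image_of_mem _ (mem_univ _)) (T 1 y')
        (mem_image_of_mem _ (mem_univ _)) ((hadj 0 1 l01 x y).2 p1) ((hadj 0 1 l01 x y').2 p2)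
      by_contra hh
      exact ((hT 1).2 y y' hh).ne this
    have inj2 : ∀ x x' y, π x y → π x' y → x = x' := by
      intro x x' y p1 p2
      have := (hmc 0).1.one (T 1 y) ((hT 1).1 y) (fun h => by
        obtain ⟨z, _, e⟩ := mem_image.1 h
        exact hne 0 1 l01 z y e) (T 0 x) (mem_image_of_mem _ (mem_univ _)) (T 0 x')
        (mem_image_of_mem _ (mem_univ _)) ((hadj 0 1 l01 x y).2 p1).symm
        ((hadj 0 1 l01 x' y).2 p2).symm
      by_contra hh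
      exact ((hT 0).2 x x' hh).ne this
    by_cases hemp : ∃ α β, π α β
    swap
    · exfalso
      push Not at hemp
      have anti : ∀ i j, i < j → ∀ x ∈ univ.image (T i), ∀ y ∈ univ.image (T j), ¬ G.Adj x y := by
        intro i j h x hx y hy
        obtain ⟨x, _, rfl⟩ := mem_image.1 hx
        obtain ⟨y, _, rfl⟩ := mem_image.1 hy
        exact fun e => hemp x y ((hadj i j h x y).1 e)
      let i0 : Fin (s + 4) := ⟨0, by omega⟩
      let i1 : Fin (s + 4) := ⟨1, by omega⟩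
      let i2 : Fin (s + 4) := ⟨2, by omega⟩
      exact three_cliques hP (hmc i0).1 (hmc i1).1 (hmc i2).1 (by rw [(hmc i0).2]; omega)
        (by rw [(hmc i1).2]; omega) (by rw [(hmc i2).2]; omega)
        (anti i0 i1 (by simp [i0, i1])) (anti i0 i2 (by simp [i0, i2, Fin.lt_def]))
        (anti i1 i2 (by simp [i1, i2, Fin.lt_def])) hc
    obtain ⟨α, β, hαβ⟩ := hemp
    have hab : α ≠ β := fun e => nofix β (e ▸ hαβ)
    obtain ⟨γ, g1, g2⟩ : ∃ γ : Fin (s + 3), γ ≠ α ∧ γ ≠ β := by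
      have : ({α, β} : Finset (Fin (s + 3))).card < (univ : Finset (Fin (s + 3))).card :=
        lt_of_le_of_lt card_le_two (by simp)
      obtain ⟨γ, _, h⟩ := exists_mem_notMem_of_card_lt_card this
      simp only [mem_insert, mem_singleton, not_or] at h
      exact ⟨γ, h⟩
    let e : Fin 4 → Fin (s + 4) := Fin.castLE (by omega)
    have he : ∀ i j, i < j → e i < e j := fun i j h => h
    have same : ∀ x i j, ¬ G.Adj (T (e i) x) (T (e j) x) := by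
      intro x i j
      rcases lt_trichotomy i j with h | rfl | h
      · exact fun a => nofix x ((hadj _ _ (he i j h) x x).1 a)
      · exact fun a => a.ne rfl
      · exact fun a => nofix x ((hadj _ _ (he j i h) x x).1 a.symm)
    have := excl hP (fun i => T (e i) α) (fun i => T (e i) β) (fun i => T (e i) γ)
      (π β α) (π β γ) (π γ α) (fun i => (hT _).2 _ _ hab) (fun i => (hT _).2 _ _ g2.symm)
      (fun i => (hT _).2 _ _ g1) (same α) (same β) (same γ)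
      (fun i j h => (hadj _ _ (he i j h) _ _).2 hαβ)
      (fun i j h a => g2 (inj1 _ _ _ ((hadj _ _ (he i j h) _ _).1 a) hαβ))
      (fun i j h a => g1 (inj2 _ _ _ ((hadj _ _ (he i j h) _ _).1 a) hαβ))
      (fun i j h => hadj _ _ (he i j h) _ _) (fun i j h => hadj _ _ (he i j h) _ _)
      (fun i j h => hadj _ _ (he i j h) _ _)
      (fun p1 p2 => g1 (inj1 _ _ _ p2 p1)) (fun p1 p2 => g2 (inj2 _ _ _ p2 p1))
    exact (W_TC hD hP this.2 S).mono (by omega)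

end

end Pool.Agent.MP_41f2d3_co

end

section

/-! Large cliques, first part. -/

namespace Pool.Agent.MP_41f2d3_co

open Finset Classical

noncomputable section

variable {V : Type}

lemma F5_of_big {G : SimpleGraph V} (hP : PF G) {S K : Finset V} (h : MC G S K)
    (hc : 6 ≤ K.card) : F5 G (S \ K) := by
  intro a ha b hb c hc' d hd e he h1 h2 h3 h4 n1 n2 n3 n4 n5 n6
  rw [mem_sdiff] at ha hb hc' hd he
  obtain ⟨z, _, p⟩ := h.avoid {a, b, c, d, e} (by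
    intro z hz; simp only [mem_insert, mem_singleton] at hz
    rcases hz with rfl | rfl | rfl | rfl | rfl; exacts [ha.1, hb.1, hc'.1, hd.1, he.1])
    (lt_of_le_of_lt card_le_five hc)
  exact hP a b c d e z h1 h2 h3 h4 n1 n2 n3 n4 n5 n6 (ns ((p a (by simp)).2 ha.2))
    (ns ((p b (by simp)).2 hb.2)) (ns ((p c (by simp)).2 hc'.2)) (ns ((p d (by simp)).2 hd.2))
    (ns ((p e (by simp)).2 he.2))

lemma W_nobi {G : SimpleGraph V} (hD : DF G) {S K : Finset V} (h : MC G S K)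
    (hb : ∀ u ∈ S \ K, ∀ w ∈ S \ K, ∀ x ∈ K, G.Adj u w → G.Adj u x → G.Adj w x) :
    W G 2 (S.filter (fun v => v ∈ K ∨ ∃ x ∈ K, G.Adj v x)) ∧
    ∀ u ∈ S.filter (fun v => v ∈ K ∨ ∃ x ∈ K, G.Adj v x), ∀ w ∈ S, G.Adj u w →
      w ∈ S.filter (fun v => v ∈ K ∨ ∃ x ∈ K, G.Adj v x) := by
  constructor
  · refine W_of_prime le_rfl _ (fun S' hS' hne _ ht hp => ?_)
    exfalso
    have hS : ∀ v ∈ S', v ∈ S := fun v hv => (mem_filter.1 (hS' hv)).1
    by_cases hu : ∃ u ∈ S', u ∉ K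
    · obtain ⟨u, hu, huK⟩ := hu
      obtain ⟨x, hx, ux⟩ := (mem_filter.1 (hS' hu)).2.resolve_left huK
      obtain ⟨u', hu', hu'K, uu'⟩ : ∃ u' ∈ S', u' ∉ K ∧ G.Adj u u' := by
        obtain ⟨y, hy, z, hz, yz, uy, uz⟩ := hp u hu
        by_cases e : y ∈ K
        · exact ⟨z, hz, fun e' => yz (h.one u (hS u hu) huK y e z e' uy uz), uz⟩
        · exact ⟨y, hy, e, uy⟩
      have key : ∀ u ∈ S', ∀ u' ∈ S', u ∉ K → u' ∉ K → G.Adj u u' → G.Adj u x → G.Adj u' x →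
          ∀ z ∈ S', z ≠ u' → G.Adj u z → G.Adj u' z := by
        intro u hu u' hu' huK _ uu' ux u'x z hz zu' uz
        by_cases e : z ∈ K
        · exact h.one u (hS u hu) huK x hx z e ux uz ▸ u'x
        · have zx := hb u (mem_sdiff.2 ⟨hS u hu, huK⟩) z (mem_sdiff.2 ⟨hS z hz, e⟩) x hx uz ux
          exact hD u x u' z ux uu' uz u'x.symm zx.symm zu'.symm
      have u'x := hb u (mem_sdiff.2 ⟨hS u hu, huK⟩) u' (mem_sdiff.2 ⟨hS u' hu', hu'K⟩) x hx uu' ux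
      exact uu'.ne (ht u hu u' hu' (fun z hz z1 z2 =>
        ⟨key u hu u' hu' huK hu'K uu' ux u'x z hz z2,
          key u' hu' u hu hu'K huK uu'.symm u'x ux z hz z1⟩))
    · push Not at hu
      obtain ⟨x, hx⟩ := hne
      obtain ⟨y, hy, _, _, _, xy, _⟩ := hp x hx
      exact xy.ne (ht x hx y hy (fun z hz z1 z2 =>
        ⟨fun _ => h.cl y (hu y hy) z (hu z hz) z2.symm,
          fun _ => h.cl x (hu x hx) z (hu z hz) z1.symm⟩))
  · intro u hu w hw uw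
    obtain ⟨huS, hu⟩ := mem_filter.1 hu
    refine mem_filter.2 ⟨hw, ?_⟩
    by_cases wK : w ∈ K
    · exact Or.inl wK
    by_cases uK : u ∈ K
    · exact Or.inr ⟨u, uK, uw.symm⟩
    obtain ⟨x, hx, ux⟩ := hu.resolve_left uK
    exact Or.inr ⟨x, hx, hb u (mem_sdiff.2 ⟨huS, uK⟩) w (mem_sdiff.2 ⟨hw, wK⟩) x hx uw ux⟩

lemma pick5 (P1 P2 P3 P4 : Fin 5 → Prop) (h1 : ∀ i j, P1 i → P1 j → i = j)
    (h2 : ∀ i j, P2 i → P2 j → i = j) (h3 : ∀ i j, P3 i → P3 j → i = j)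
    (h4 : ∀ i j, P4 i → P4 j → i = j) : ∃ i, ¬ P1 i ∧ ¬ P2 i ∧ ¬ P3 i ∧ ¬ P4 i := by
  by_contra hh
  push Not at hh
  have c : ∀ P : Fin 5 → Prop, (∀ i j, P i → P j → i = j) → (univ.filter P).card ≤ 1 := by
    intro P h
    rw [card_le_one]
    intro a ha b hb
    exact h a b (mem_filter.1 ha).2 (mem_filter.1 hb).2
  have hs : (univ : Finset (Fin 5)) ⊆
      univ.filter P1 ∪ (univ.filter P2 ∪ (univ.filter P3 ∪ univ.filter P4)) := by
    intro i _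
    have := hh i
    simp only [mem_union, mem_filter, mem_univ, true_and]
    tauto
  have e1 := card_le_card hs
  have e2 := card_union_le (univ.filter P1) (univ.filter P2 ∪ (univ.filter P3 ∪ univ.filter P4))
  have e3 := card_union_le (univ.filter P2) (univ.filter P3 ∪ univ.filter P4)
  have e4 := card_union_le (univ.filter P3) (univ.filter P4)
  have := c P1 h1
  have := c P2 h2
  have := c P3 h3
  have := c P4 h4
  simp only [card_univ, Fintype.card_fin] at e1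
  omega

/-- two disjoint maximal cliques joined by a matching with five edges -/
structure Mt (G : SimpleGraph V) (S K Q : Finset V) (m n : Fin 5 → V) : Prop where
  hK : MC G S K
  hQ : MC G S Q
  disj : ∀ x ∈ K, x ∉ Q
  hm : ∀ i, m i ∈ K
  hn : ∀ i, n i ∈ Q
  im : Function.Injective m
  inj : Function.Injective n
  adj : ∀ i, G.Adj (m i) (n i)

lemma Mt.symm {G : SimpleGraph V} {S K Q : Finset V} {m n : Fin 5 → V} (h : Mt G S K Q m n) :
    Mt G S Q K n m :=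
  ⟨h.hQ, h.hK, fun x hx hx' => h.disj x hx' hx, h.hn, h.hm, h.inj, h.im, fun i => (h.adj i).symm⟩

lemma Mt.path {G : SimpleGraph V} {S K Q : Finset V} {m n : Fin 5 → V} (h : Mt G S K Q m n)
    {c b' z : V} (hc : c ∈ S) (cK : c ∉ K) (cQ : c ∉ Q) (hb' : b' ∈ Q) (cb' : G.Adj c b')
    (hz : z ∈ S) (zK : z ∉ K) (zQ : z ∉ Q) :
    ∃ a ∈ S, ∃ a' ∈ S, ∃ b ∈ S, G.Adj a a' ∧ G.Adj a' b ∧ G.Adj b b' ∧ ¬ G.Adj a b ∧
      ¬ G.Adj a b' ∧ ¬ G.Adj a c ∧ ¬ G.Adj a' b' ∧ ¬ G.Adj a' c ∧ ¬ G.Adj b c ∧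
      ¬ G.Adj z a ∧ ¬ G.Adj z a' ∧ ¬ G.Adj z b := by
  obtain ⟨i, p1, p2, p3, p4⟩ := pick5 (fun i => n i = b') (fun i => G.Adj c (m i))
    (fun i => G.Adj z (m i)) (fun i => G.Adj z (n i))
    (fun i j e1 e2 => h.inj (e1.trans e2.symm))
    (fun i j e1 e2 => h.im (h.hK.one c hc cK _ (h.hm i) _ (h.hm j) e1 e2))
    (fun i j e1 e2 => h.im (h.hK.one z hz zK _ (h.hm i) _ (h.hm j) e1 e2))
    (fun i j e1 e2 => h.inj (h.hQ.one z hz zQ _ (h.hn i) _ (h.hn j) e1 e2))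
  have hKc : 5 ≤ K.card := by
    have : univ.image m ⊆ K := by
      intro x hx
      obtain ⟨i, _, rfl⟩ := mem_image.1 hx
      exact h.hm i
    have := card_le_card this
    rwa [card_image_of_injective _ h.im, card_univ, Fintype.card_fin] at this
  have b'K : b' ∉ K := fun e => h.disj _ e hb'
  have nK : n i ∉ K := fun e => h.disj _ e (h.hn i)
  obtain ⟨a, ha, p⟩ := h.hK.avoid {m i, b', c, z} (by
    intro z hz; simp only [mem_insert, mem_singleton] at hz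
    rcases hz with rfl | rfl | rfl | rfl
    exacts [h.hK.sub (h.hm i), h.hQ.sub hb', hc, hz]) (lt_of_le_of_lt card_le_four hKc)
  have am : a ≠ m i := (p (m i) (by simp)).1 (h.hm i)
  refine ⟨a, h.hK.sub ha, m i, h.hK.sub (h.hm i), n i, h.hQ.sub (h.hn i),
    h.hK.cl _ ha _ (h.hm i) am, h.adj i, h.hQ.cl _ (h.hn i) _ hb' p1, ?_,
    ns ((p b' (by simp)).2 b'K), ns ((p c (by simp)).2 cK), ?_, ns p2, ?_,
    (p z (by simp)).2 zK, p3, p4⟩
  · intro e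
    exact am (h.hK.one _ (h.hQ.sub (h.hn i)) nK _ ha _ (h.hm i) e.symm (h.adj i).symm)
  · intro e
    exact p1 (h.hQ.one _ (h.hK.sub (h.hm i)) (h.disj _ (h.hm i)) _ (h.hn i) _ hb' (h.adj i) e)
  · intro e
    exact p1 (h.hQ.one _ hc cQ _ (h.hn i) _ hb' e.symm cb')

lemma W_two_cl {G : SimpleGraph V} (hD : DF G) {S K Q A : Finset V} (hK : MC G S K)
    (hQ : MC G S Q) (hA : A ⊆ K ∪ Q) : W G c3Cl A := by
  refine W_three_cl hD (fun x => if x ∈ K then 0 else 1) ?_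
  intro x hx y hy e hne
  by_cases e1 : x ∈ K <;> by_cases e2 : y ∈ K
  · exact hK.cl x e1 y e2 hne
  · simp [e1, e2] at e
  · simp [e1, e2] at e
  · exact hQ.cl x ((mem_union.1 (hA hx)).resolve_left e1) y
      ((mem_union.1 (hA hy)).resolve_left e2) hne

lemma W_match_P5 {G : SimpleGraph V} (hD : DF G) {S K Q : Finset V} {m n : Fin 5 → V}
    (h : Mt G S K Q m n) (h5 : F5 G S) (hc : Conn G S) : W G c3Cl S := by
  refine W_two_cl hD h.hK h.hQ (hc _ (union_subset h.hK.sub h.hQ.sub)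
    ⟨m 0, mem_union_left _ (h.hm 0)⟩ ?_)
  intro x hx y hy xy
  by_contra hn
  rw [mem_union, not_or] at hn
  rcases mem_union.1 hx with hx | hx
  · obtain ⟨a, ha, a', ha', b, hb, e1, e2, e3, n1, n2, n3, n4, n5, n6, _⟩ :=
      h.symm.path hy hn.2 hn.1 hx xy.symm hy hn.2 hn.1
    exact h5 a ha a' ha' b hb x (h.hK.sub hx) y hy e1 e2 e3 xy n1 n2 n3 n4 n5 n6
  · obtain ⟨a, ha, a', ha', b, hb, e1, e2, e3, n1, n2, n3, n4, n5, n6, _⟩ :=
      h.path hy hn.1 hn.2 hx xy.symm hy hn.1 hn.2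
    exact h5 a ha a' ha' b hb x (h.hQ.sub hx) y hy e1 e2 e3 xy n1 n2 n3 n4 n5 n6

lemma Mt.clique {G : SimpleGraph V} (hD : DF G) (hP : PF G) {S K Q : Finset V} {m n : Fin 5 → V}
    (h : Mt G S K Q m n)
    (h3 : 2 < (Q.filter (fun b => ∃ c ∈ S, c ∉ K ∧ c ∉ Q ∧ G.Adj c b)).card) :
    ∀ z ∈ S, z ∉ K → z ∉ Q → ∀ w ∈ S, w ∉ K → w ∉ Q → z ≠ w → G.Adj z w := by
  have key : ∀ c ∈ S, c ∉ K → c ∉ Q → ∀ b' ∈ Q, G.Adj c b' → ∀ z ∈ S, z ∉ K → z ∉ Q →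
      ¬ G.Adj z b' → G.Adj z c := by
    intro c hc cK cQ b' hb' cb' z hz zK zQ zb'
    by_contra zc
    obtain ⟨a, _, a', _, b, _, e1, e2, e3, n1, n2, n3, n4, n5, n6, n7, n8, n9⟩ :=
      h.path hc cK cQ hb' cb' hz zK zQ
    exact hP a a' b b' c z e1 e2 e3 cb'.symm n1 n2 n3 n4 n5 n6 n7 n8 n9 zb' zc
  obtain ⟨b1, hb1, b2, hb2, b3, hb3, d12, d13, d23⟩ := two_lt_card.1 h3
  obtain ⟨q1, c1, s1, k1, r1, a1⟩ := mem_filter.1 hb1
  obtain ⟨q2, c2, s2, k2, r2, a2⟩ := mem_filter.1 hb2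
  obtain ⟨q3, c3, s3, k3, r3, a3⟩ := mem_filter.1 hb3
  have one := h.hQ.one
  have c12 : G.Adj c1 c2 := key c2 s2 k2 r2 b2 q2 a2 c1 s1 k1 r1
    (fun e => d12 (one c1 s1 r1 b1 q1 b2 q2 a1 e))
  have c13 : G.Adj c1 c3 := key c3 s3 k3 r3 b3 q3 a3 c1 s1 k1 r1
    (fun e => d13 (one c1 s1 r1 b1 q1 b3 q3 a1 e))
  have c23 : G.Adj c2 c3 := key c3 s3 k3 r3 b3 q3 a3 c2 s2 k2 r2
    (fun e => d23 (one c2 s2 r2 b2 q2 b3 q3 a2 e))
  have all : ∀ z ∈ S, z ∉ K → z ∉ Q → (z = c1 ∨ G.Adj z c1) ∧ (z = c2 ∨ G.Adj z c2) := by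
    intro z hz zK zQ
    have t1 := key c1 s1 k1 r1 b1 q1 a1 z hz zK zQ
    have t2 := key c2 s2 k2 r2 b2 q2 a2 z hz zK zQ
    have t3 := key c3 s3 k3 r3 b3 q3 a3 z hz zK zQ
    by_cases e1 : G.Adj z b1
    · have u2 := t2 (fun e => d12 (one z hz zQ b1 q1 b2 q2 e1 e))
      have u3 := t3 (fun e => d13 (one z hz zQ b1 q1 b3 q3 e1 e))
      refine ⟨?_, Or.inr u2⟩
      by_cases e : z = c1
      · exact Or.inl e
      · exact Or.inr (hD c2 c3 z c1 c23 u2.symm c12.symm u3.symm c13.symm e)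
    by_cases e2 : G.Adj z b2
    · have u1 := t1 e1
      have u3 := t3 (fun e => d23 (one z hz zQ b2 q2 b3 q3 e2 e))
      refine ⟨Or.inr u1, ?_⟩
      by_cases e : z = c2
      · exact Or.inl e
      · exact Or.inr (hD c1 c3 z c2 c13 u1.symm c12 u3.symm c23.symm e)
    · exact ⟨Or.inr (t1 e1), Or.inr (t2 e2)⟩
  intro z hz zK zQ w hw wK wQ zw
  obtain ⟨z1, z2⟩ := all z hz zK zQ
  obtain ⟨w1, w2⟩ := all w hw wK wQ
  rcases z1 with rfl | z1
  · exact (w1.resolve_left zw.symm).symm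
  rcases z2 with rfl | z2
  · exact (w2.resolve_left zw.symm).symm
  rcases w1 with rfl | w1
  · exact z1
  rcases w2 with rfl | w2
  · exact z2
  exact hD c1 c2 z w c12 z1.symm w1.symm z2.symm w2.symm zw

lemma W_match {G : SimpleGraph V} (hD : DF G) (hP : PF G) {S K Q : Finset V} {m n : Fin 5 → V}
    (h : Mt G S K Q m n) {k : ℕ} (hR : ∀ S' ⊆ S \ K, W G k S') :
    W G (c3Cl + J 4 (k + c3Cl)) S := by
  have hcl : (∀ z ∈ S, z ∉ K → z ∉ Q → ∀ w ∈ S, w ∉ K → w ∉ Q → z ≠ w → G.Adj z w) →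
      W G (c3Cl + J 4 (k + c3Cl)) S := by
    intro hc
    refine (W_three_cl hD (fun x => if x ∈ K then 0 else if x ∈ Q then 1 else 2) ?_).mono
      (by omega)
    intro x hx y hy e hne
    by_cases e1 : x ∈ K <;> by_cases e2 : y ∈ K <;> by_cases e3 : x ∈ Q <;>
      by_cases e4 : y ∈ Q <;> simp [e1, e2, e3, e4] at e
    · exact h.hK.cl x e1 y e2 hne
    · exact h.hK.cl x e1 y e2 hne
    · exact h.hK.cl x e1 y e2 hne
    · exact h.hK.cl x e1 y e2 hne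
    · exact h.hQ.cl x e3 y e4 hne
    · exact hc x hx e1 e3 y hy e2 e4 hne
  by_cases c1 : 2 < (Q.filter (fun b => ∃ c ∈ S, c ∉ K ∧ c ∉ Q ∧ G.Adj c b)).card
  · exact hcl (h.clique hD hP c1)
  by_cases c2 : 2 < (K.filter (fun b => ∃ c ∈ S, c ∉ Q ∧ c ∉ K ∧ G.Adj c b)).card
  · exact hcl (fun z hz a b w hw c d => h.symm.clique hD hP c2 z hz b a w hw d c)
  refine (W_join (A := K ∪ Q) (t := 4) (k := k + c3Cl) (union_subset h.hK.sub h.hQ.sub) ?_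
    ((W_two_cl hD h.hK h.hQ Subset.rfl).mono (by omega)) ((hR _ ?_).mono (by omega))).mono
    (by omega)
  · refine Ty_of_reps ((Q.filter (fun b => ∃ c ∈ S, c ∉ K ∧ c ∉ Q ∧ G.Adj c b)) ∪
      (K.filter (fun b => ∃ c ∈ S, c ∉ Q ∧ c ∉ K ∧ G.Adj c b)))
      ((card_union_le _ _).trans (by omega)) ?_
    intro x hx
    by_cases e : ∀ z ∈ S, z ∉ K ∪ Q → ¬ G.Adj x z
    · exact Or.inl e
    · right
      push Not at e
      obtain ⟨z, hz, hn, xz⟩ := e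
      rw [mem_union, not_or] at hn
      refine ⟨x, ?_, fun _ _ _ => Iff.rfl⟩
      rcases mem_union.1 hx with hx | hx
      · exact mem_union_right _ (mem_filter.2 ⟨hx, z, hz, hn.2, hn.1, xz.symm⟩)
      · exact mem_union_left _ (mem_filter.2 ⟨hx, z, hz, hn.1, hn.2, xz.symm⟩)
  · exact sdiff_subset_sdiff Subset.rfl subset_union_left

/-- a rainbow clique with five colours -/
def RB (G : SimpleGraph V) (S K : Finset V) : Prop :=
  ∃ m n : Fin 5 → V, Function.Injective m ∧ (∀ i, m i ∈ K) ∧ (∀ i, n i ∈ S \ K) ∧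
    (∀ i, G.Adj (m i) (n i)) ∧ ∀ i j, i ≠ j → G.Adj (n i) (n j)

lemma RB.mt {G : SimpleGraph V} (hD : DF G) {S K : Finset V} (hK : MC G S K) (h : RB G S K) :
    ∃ Q m n, Mt G S K Q m n := by
  obtain ⟨m, n, im, hm, hn, adj, cl⟩ := h
  obtain ⟨Q, hQ, hQm⟩ := exists_MC hD (S := S) (Q := univ.image n) (by
    intro x hx
    obtain ⟨i, _, rfl⟩ := mem_image.1 hx
    exact (mem_sdiff.1 (hn i)).1) (by
    intro x hx y hy hne
    obtain ⟨i, _, rfl⟩ := mem_image.1 hx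
    obtain ⟨j, _, rfl⟩ := mem_image.1 hy
    exact cl i j (fun e => hne (e ▸ rfl)))
  have hnQ : ∀ i, n i ∈ Q := fun i => hQ (mem_image_of_mem _ (mem_univ _))
  refine ⟨Q, m, n, hK, hQm, ?_, hm, hnQ, im, ?_, adj⟩
  · intro x hx hxQ
    have e : ∀ i, x = m i := by
      intro i
      have hi := mem_sdiff.1 (hn i)
      exact hK.one (n i) hi.1 hi.2 x hx (m i) (hm i)
        (hQm.cl _ (hnQ i) _ hxQ (fun e => hi.2 (e ▸ hx))) (adj i).symm
    exact absurd (im ((e 0).symm.trans (e 1))) (by decide)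
  · intro i j e
    by_contra hne
    exact (cl i j hne).ne e

lemma rb_of_colours {G : SimpleGraph V} {S K : Finset V} (C : Finset V) (hC : C ⊆ K)
    (hc : 5 ≤ C.card) (U : V → Prop) (h1 : ∀ x ∈ C, ∃ u ∈ S \ K, U u ∧ G.Adj u x)
    (h2 : ∀ x ∈ C, ∀ y ∈ C, x ≠ y → ∀ u ∈ S \ K, ∀ u' ∈ S \ K, U u → U u' → G.Adj u x →
      G.Adj u' y → G.Adj u u') : RB G S K := by
  obtain ⟨m, hm⟩ := Function.Embedding.exists_of_card_le_finset (α := Fin 5) (s := C)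
    (by simpa using hc)
  have hm' : ∀ i, m i ∈ C := fun i => hm ⟨i, rfl⟩
  choose n hn using fun i => h1 (m i) (hm' i)
  exact ⟨m, n, m.injective, fun i => hC (hm' i), fun i => (hn i).1, fun i => (hn i).2.2.symm,
    fun i j hij => h2 _ (hm' i) _ (hm' j) (fun e => hij (m.injective e)) _ (hn i).1 _ (hn j).1
      (hn i).2.1 (hn j).2.1 (hn i).2.2 (hn j).2.2⟩

lemma exists_big {G : SimpleGraph V} (hD : DF G) {S : Finset V} {s : ℕ} (h : ¬ NoCl G S s) :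
    ∃ K, MC G S K ∧ s ≤ K.card := by
  unfold NoCl at h
  push Not at h
  obtain ⟨c, hc⟩ := h
  obtain ⟨K, hK, hKm⟩ := exists_MC hD (S := S) (Q := univ.image c) (by
    intro x hx
    obtain ⟨i, _, rfl⟩ := mem_image.1 hx
    exact hc.1 i) (by
    intro x hx y hy hne
    obtain ⟨i, _, rfl⟩ := mem_image.1 hx
    obtain ⟨j, _, rfl⟩ := mem_image.1 hy
    exact hc.2 i j (fun e => hne (e ▸ rfl)))
  refine ⟨K, hKm, ?_⟩
  have := card_le_card hK
  rwa [card_image_of_injective _ (fun i j e => by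
    by_contra hne
    exact (hc.2 i j hne).ne e), card_univ, Fintype.card_fin] at this

lemma card_filter_two {G : SimpleGraph V} {S K C : Finset V} (hK : MC G S K) (hC : C ⊆ K)
    (x' : V) {w : V} (hw : w ∈ S \ K) :
    C.card ≤ (C.filter (fun x => x ≠ x' ∧ ¬ G.Adj w x)).card + 2 := by
  have h1 : C ⊆ C.filter (fun x => x ≠ x' ∧ ¬ G.Adj w x) ∪ ({x'} ∪ K.filter (G.Adj w)) := by
    intro x hx
    simp only [mem_union, mem_filter, mem_singleton]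
    have := hC hx
    tauto
  have h2 : (K.filter (G.Adj w)).card ≤ 1 := by
    rw [card_le_one]
    intro a ha b hb
    rw [mem_filter] at ha hb
    exact hK.one w (mem_sdiff.1 hw).1 (mem_sdiff.1 hw).2 a ha.1 b hb.1 ha.2 hb.2
  have h3 := card_le_card h1
  have h4 := card_union_le (C.filter (fun x => x ≠ x' ∧ ¬ G.Adj w x)) ({x'} ∪ K.filter (G.Adj w))
  have h5 := card_union_le ({x'} : Finset V) (K.filter (G.Adj w))
  rw [card_singleton] at h5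
  omega

theorem W_P5 : ∃ k, ∀ (V : Type) (G : SimpleGraph V) (S : Finset V), DF G → PF G →
    F5 G S → W G k S := by
  obtain ⟨k, hk⟩ := W_omega 5
  refine ⟨k + c3Cl + 2, fun V G S0 hD hP h50 => ?_⟩
  refine W_of_prime (by omega) S0 (fun S hS _ hc ht _ => ?_)
  have h5 := h50.mono hS
  by_cases hn : NoCl G S (5 + 3)
  · exact (hk V G S hD hP hn).mono (by omega)
  obtain ⟨K, hK, hKc⟩ := exists_big hD hn
  by_cases hb : ∀ u ∈ S \ K, ∀ w ∈ S \ K, ∀ x ∈ K, G.Adj u w → G.Adj u x → G.Adj w x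
  · obtain ⟨h1, h2⟩ := W_nobi hD hK hb
    obtain ⟨x, hx⟩ : K.Nonempty := card_pos.1 (by omega)
    have := hc _ (filter_subset _ _) ⟨x, mem_filter.2 ⟨hK.sub hx, Or.inl hx⟩⟩ h2
    rw [Subset.antisymm (filter_subset _ _) this] at h1
    exact h1.mono (by omega)
  push Not at hb
  obtain ⟨u2, hu2, u3, hu3, x', hx', a23, a2x, n3x⟩ := hb
  have hu2' := mem_sdiff.1 hu2
  have hu3' := mem_sdiff.1 hu3
  let C0 := K.filter (fun x => ∃ u ∈ S \ K, G.Adj u x)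
  have hC0 : K.card ≤ C0.card + 1 := by
    have h1 : (K.filter (fun x => ¬ ∃ u ∈ S \ K, G.Adj u x)).card ≤ 1 := by
      rw [card_le_one]
      intro a ha b hb
      rw [mem_filter] at ha hb
      refine ht a (hK.sub ha.1) b (hK.sub hb.1) (fun z hz za zb => ?_)
      by_cases e : z ∈ K
      · exact ⟨fun _ => hK.cl b hb.1 z e zb.symm, fun _ => hK.cl a ha.1 z e za.symm⟩
      · exact ⟨fun h => absurd ⟨z, mem_sdiff.2 ⟨hz, e⟩, h.symm⟩ ha.2,
          fun h => absurd ⟨z, mem_sdiff.2 ⟨hz, e⟩, h.symm⟩ hb.2⟩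
    have h2 := card_filter_add_card_filter_not (s := K) (fun x => ∃ u ∈ S \ K, G.Adj u x)
    simp only [C0]
    omega
  have hC := card_filter_two hK (C := C0) (filter_subset _ _) x' hu3
  have both : ∀ x ∈ C0.filter (fun x => x ≠ x' ∧ ¬ G.Adj u3 x), ∀ u ∈ S \ K, G.Adj u x →
      G.Adj u u2 ∧ G.Adj u u3 := by
    intro x hx u hu ux
    obtain ⟨hx0, xx', n3⟩ := mem_filter.1 hx
    have hxK := (mem_filter.1 hx0).1
    have hu' := mem_sdiff.1 hu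
    have ux' : ¬ G.Adj u x' := fun e => xx' (hK.one u hu'.1 hu'.2 x hxK x' hx' ux e)
    have u2x : ¬ G.Adj u2 x := fun e => xx' (hK.one u2 hu2'.1 hu2'.2 x hxK x' hx' e a2x)
    by_cases e2 : G.Adj u u2 <;> by_cases e3 : G.Adj u u3
    · exact ⟨e2, e3⟩
    · exfalso
      obtain ⟨y, hy, p⟩ := hK.avoid {x, u, u2, u3} (by
        intro z hz; simp only [mem_insert, mem_singleton] at hz
        rcases hz with rfl | rfl | rfl | rfl
        exacts [hK.sub hxK, hu'.1, hu2'.1, hu3'.1]) (lt_of_le_of_lt card_le_four (by omega))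
      exact h5 y (hK.sub hy) x (hK.sub hxK) u hu'.1 u2 hu2'.1 u3 hu3'.1
        (hK.cl _ hy _ hxK ((p x (by simp)).1 hxK)) ux.symm e2 a23 (ns ((p u (by simp)).2 hu'.2))
        (ns ((p u2 (by simp)).2 hu2'.2)) (ns ((p u3 (by simp)).2 hu3'.2)) (ns u2x) (ns n3) e3
    · exfalso
      obtain ⟨y, hy, p⟩ := hK.avoid {x', u, u2, u3} (by
        intro z hz; simp only [mem_insert, mem_singleton] at hz
        rcases hz with rfl | rfl | rfl | rfl
        exacts [hK.sub hx', hu'.1, hu2'.1, hu3'.1]) (lt_of_le_of_lt card_le_four (by omega))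
      exact h5 y (hK.sub hy) x' (hK.sub hx') u2 hu2'.1 u3 hu3'.1 u hu'.1
        (hK.cl _ hy _ hx' ((p x' (by simp)).1 hx')) a2x.symm a23 e3.symm
        (ns ((p u2 (by simp)).2 hu2'.2)) (ns ((p u3 (by simp)).2 hu3'.2))
        (ns ((p u (by simp)).2 hu'.2)) (ns n3x) (ns ux') (ns e2)
    · exfalso
      exact h5 u hu'.1 x (hK.sub hxK) x' (hK.sub hx') u2 hu2'.1 u3 hu3'.1 ux
        (hK.cl _ hxK _ hx' xx') a2x.symm a23 ux' e2 e3 (ns u2x) (ns n3) (ns n3x)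
  have hrb : RB G S K := by
    refine rb_of_colours (C0.filter (fun x => x ≠ x' ∧ ¬ G.Adj u3 x))
      ((filter_subset _ _).trans (filter_subset _ _)) (by omega) (fun _ => True) ?_ ?_
    · intro x hx
      obtain ⟨u, hu, ux⟩ := (mem_filter.1 (mem_filter.1 hx).1).2
      exact ⟨u, hu, trivial, ux⟩
    · intro x hx y hy xy u hu u' hu' _ _ ux u'y
      have b1 := both x hx u hu ux
      have b2 := both y hy u' hu' u'y
      refine hD u2 u3 u u' a23 b1.1.symm b2.1.symm b1.2.symm b2.2.symm ?_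
      rintro rfl
      exact xy (hK.one u (mem_sdiff.1 hu).1 (mem_sdiff.1 hu).2 x
        (mem_filter.1 (mem_filter.1 hx).1).1 y (mem_filter.1 (mem_filter.1 hy).1).1 ux u'y)
  obtain ⟨Q, m, n, h⟩ := hrb.mt hD hK
  exact (W_match_P5 hD h h5 hc).mono (by omega)

end

end Pool.Agent.MP_41f2d3_co

end

section

/-! Large cliques, second part. -/

namespace Pool.Agent.MP_41f2d3_co

open Finset Classical

noncomputable section

variable {V : Type}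

/-- the vertices of `K` with a neighbour in `U` outside `K` -/
def cols (G : SimpleGraph V) (S K : Finset V) (U : V → Prop) : Finset V :=
  K.filter (fun x => ∃ u ∈ S \ K, U u ∧ G.Adj u x)

lemma mem_cols {G : SimpleGraph V} {S K : Finset V} {U : V → Prop} {x : V} :
    x ∈ cols G S K U ↔ x ∈ K ∧ ∃ u ∈ S \ K, U u ∧ G.Adj u x := mem_filter

lemma cols_subset {G : SimpleGraph V} {S K : Finset V} {U : V → Prop} : cols G S K U ⊆ K :=
  fun _ h => (mem_cols.1 h).1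

lemma MC.one' {G : SimpleGraph V} {S K : Finset V} (h : MC G S K) {v x y : V} (hv : v ∈ S \ K)
    (hx : x ∈ K) (hy : y ∈ K) (vx : G.Adj v x) (vy : G.Adj v y) : x = y :=
  h.one v (mem_sdiff.1 hv).1 (mem_sdiff.1 hv).2 x hx y hy vx vy

lemma cols_far {G : SimpleGraph V} (hP : PF G) {S K : Finset V} (hK : MC G S K)
    (hrb : ¬ RB G S K) {u w x' : V} (hu : u ∈ S \ K) (hw : w ∈ S \ K) (hx' : x' ∈ K)
    (uw : G.Adj u w) (ux : G.Adj u x') (wx : ¬ G.Adj w x') :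
    (cols G S K (fun p => ¬ G.Adj p u ∧ ¬ G.Adj p w)).card ≤ 6 := by
  by_contra hh
  have hC := card_filter_two hK (C := cols G S K (fun p => ¬ G.Adj p u ∧ ¬ G.Adj p w))
    cols_subset x' hw
  refine hrb (rb_of_colours ((cols G S K (fun p => ¬ G.Adj p u ∧ ¬ G.Adj p w)).filter
    (fun x => x ≠ x' ∧ ¬ G.Adj w x)) ((filter_subset _ _).trans cols_subset) (by omega)
    (fun p => ¬ G.Adj p u ∧ ¬ G.Adj p w) ?_ ?_)
  · intro x hx
    exact (mem_cols.1 (mem_filter.1 hx).1).2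
  · intro x hx y hy xy p hp z hz up uz px zy
    obtain ⟨hx1, xx', wx2⟩ := mem_filter.1 hx
    obtain ⟨hy1, yx', _⟩ := mem_filter.1 hy
    have hxK := (mem_cols.1 hx1).1
    have hyK := (mem_cols.1 hy1).1
    by_contra pz
    exact hP p x x' u w z px (hK.cl _ hxK _ hx' xx') ux.symm uw
      (fun e => xx' (hK.one' hp hxK hx' px e)) up.1 up.2
      (fun e => xx' (hK.one' hu hxK hx' e.symm ux)) (ns wx2) (ns wx) (ns pz)
      (fun e => xy (hK.one' hz hxK hyK e zy)) (fun e => yx' (hK.one' hz hyK hx' zy e)) uz.1 uz.2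

lemma cols_common {G : SimpleGraph V} (hD : DF G) {S K : Finset V} (hK : MC G S K)
    (hrb : ¬ RB G S K) {a y : V} (ay : G.Adj a y) :
    (cols G S K (fun p => G.Adj p a ∧ G.Adj p y)).card ≤ 4 := by
  by_contra hh
  refine hrb (rb_of_colours (cols G S K (fun p => G.Adj p a ∧ G.Adj p y)) cols_subset
    (by omega) (fun p => G.Adj p a ∧ G.Adj p y) (fun x hx => (mem_cols.1 hx).2) ?_)
  intro x hx x' hx' xx' p hp z hz up uz px zx
  refine hD a y p z ay up.1.symm uz.1.symm up.2.symm uz.2.symm ?_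
  rintro rfl
  exact xx' (hK.one' hp (mem_cols.1 hx).1 (mem_cols.1 hx').1 px zx)

/-- has a neighbour in `K` outside `F` -/
def good (G : SimpleGraph V) (K F : Finset V) (p : V) : Prop := ∃ x ∈ K, x ∉ F ∧ G.Adj p x

lemma good.mono {G : SimpleGraph V} {K F F' : Finset V} {p : V} (h : good G K F p)
    (hF : F' ⊆ F) : good G K F' p := by
  obtain ⟨x, a, b, c⟩ := h
  exact ⟨x, a, fun e => b (hF e), c⟩

/-- good neighbours of `a` are isolated in the neighbourhood of `a` -/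
def Iso (G : SimpleGraph V) (S K F : Finset V) (a : V) : Prop :=
  ∀ p ∈ S \ K, G.Adj p a → good G K F p → ∀ y ∈ S \ K, G.Adj y a → ¬ G.Adj y p

lemma Iso.mono {G : SimpleGraph V} {S K F F' : Finset V} {a : V} (h : Iso G S K F a)
    (hF : F ⊆ F') : Iso G S K F' a :=
  fun p hp pa hg => h p hp pa (hg.mono hF)

lemma side {G : SimpleGraph V} (hD : DF G) (hP : PF G) {S K : Finset V} (hK : MC G S K)
    (hrb : ¬ RB G S K) {a : V} (ha : a ∈ S \ K) : ∃ F : Finset V, F.card ≤ 14 ∧ Iso G S K F a := by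
  by_cases h : Iso G S K (K.filter (G.Adj a)) a
  · refine ⟨_, ?_, h⟩
    have : (K.filter (G.Adj a)).card ≤ 1 := by
      rw [card_le_one]
      intro x hx y hy
      rw [mem_filter] at hx hy
      exact hK.one' ha hx.1 hy.1 hx.2 hy.2
    omega
  unfold Iso at h
  push Not at h
  obtain ⟨p, hp, pa, ⟨x, hx, xF, px⟩, y, hy, ya, yp⟩ := h
  have ax : ¬ G.Adj a x := fun e => xF (mem_filter.2 ⟨hx, e⟩)
  have yx : ¬ G.Adj y x := fun e => ax (hD p y a x yp.symm pa px ya e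
    (fun e' => (mem_sdiff.1 ha).2 (e' ▸ hx)))
  have c1 := cols_far hP hK hrb hp hy hx yp.symm px yx
  have c2 := cols_common hD hK hrb pa.symm
  have c3 := cols_common hD hK hrb ya.symm
  refine ⟨cols G S K (fun q => ¬ G.Adj q p ∧ ¬ G.Adj q y) ∪
    (cols G S K (fun q => G.Adj q a ∧ G.Adj q p) ∪ cols G S K (fun q => G.Adj q a ∧ G.Adj q y)),
    ?_, ?_⟩
  · have e1 := card_union_le (cols G S K (fun q => ¬ G.Adj q p ∧ ¬ G.Adj q y))
      (cols G S K (fun q => G.Adj q a ∧ G.Adj q p) ∪ cols G S K (fun q => G.Adj q a ∧ G.Adj q y))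
    have e2 := card_union_le (cols G S K (fun q => G.Adj q a ∧ G.Adj q p))
      (cols G S K (fun q => G.Adj q a ∧ G.Adj q y))
    omega
  · rintro q hq qa ⟨z, hz, zF, qz⟩
    exfalso
    apply zF
    simp only [mem_union, mem_cols]
    by_cases e1 : G.Adj q p
    · exact Or.inr (Or.inl ⟨hz, q, hq, ⟨qa, e1⟩, qz⟩)
    by_cases e2 : G.Adj q y
    · exact Or.inr (Or.inr ⟨hz, q, hq, ⟨qa, e2⟩, qz⟩)
    · exact Or.inl ⟨hz, q, hq, ⟨e1, e2⟩, qz⟩

lemma twins {G : SimpleGraph V} (hD : DF G) (hP : PF G) {S K : Finset V} (hK : MC G S K)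
    (hrb : ¬ RB G S K) (h5 : F5 G (S \ K)) {a b : V} (ha : a ∈ S \ K) {F1 : Finset V}
    (hcov : ∀ p ∈ S \ K, good G K F1 p → G.Adj p a ∨ G.Adj p b)
    (ia : Iso G S K F1 a) (ib : Iso G S K F1 b) :
    ∃ F2 : Finset V, F2.card ≤ 13 ∧ ∀ p ∈ S \ K, ∀ q ∈ S \ K, G.Adj p a → G.Adj q a →
      good G K (F1 ∪ F2) p → good G K (F1 ∪ F2) q → ∀ y ∈ S \ K, G.Adj p y → G.Adj q y := by
  let PP : V → Prop := fun p => G.Adj p a ∧ good G K F1 p
  by_cases hc : (cols G S K PP).card ≤ 13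
  · refine ⟨_, hc, ?_⟩
    rintro p hp q _ pa _ ⟨x, hx, xF, px⟩
    exfalso
    rw [mem_union, not_or] at xF
    exact xF.2 (mem_cols.2 ⟨hx, p, hp, ⟨pa, x, hx, xF.1, px⟩, px⟩)
  have pp : ∀ p ∈ S \ K, ∀ q ∈ S \ K, PP p → PP q → ¬ G.Adj p q :=
    fun p hp q hq h1 h2 => ia q hq h2.1 h2.2 p hp h1.1
  let Y1 : V → Prop := fun y => ∃ q ∈ S \ K, PP q ∧ G.Adj q y ∧ ∃ x ∈ K, G.Adj q x ∧ ¬ G.Adj y x
  have miss : ∀ y ∈ S \ K, Y1 y → (cols G S K (fun p => PP p ∧ ¬ G.Adj p y)).card ≤ 6 := by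
    rintro y hy ⟨q, hq, pq, qy, x, hx, qx, yx⟩
    refine le_trans (card_le_card ?_) (cols_far hP hK hrb hq hy hx qy qx yx)
    intro z hz
    obtain ⟨hz, p, hp, ⟨h1, h2⟩, pz⟩ := mem_cols.1 hz
    exact mem_cols.2 ⟨hz, p, hp, ⟨pp p hp q hq h1 pq, h2⟩, pz⟩
  have nadj : ∀ y ∈ S \ K, ∀ y' ∈ S \ K, Y1 y → Y1 y' → ¬ G.Adj y y' := by
    intro y hy y' hy' h1 h2 yy'
    have m1 := miss y hy h1
    have m2 := miss y' hy' h2
    have e1 := card_union_le (cols G S K (fun p => PP p ∧ ¬ G.Adj p y))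
      (cols G S K (fun p => PP p ∧ ¬ G.Adj p y'))
    have e2 := le_card_sdiff (cols G S K (fun p => PP p ∧ ¬ G.Adj p y) ∪
      cols G S K (fun p => PP p ∧ ¬ G.Adj p y')) (cols G S K PP)
    obtain ⟨x1, hx1, x2, hx2, hne⟩ := one_lt_card.1 (lt_of_lt_of_le (by omega) e2)
    rw [mem_sdiff, mem_union, not_or] at hx1 hx2
    obtain ⟨k1, p1, hp1, pp1, a1⟩ := mem_cols.1 hx1.1
    obtain ⟨k2, p2, hp2, pp2, a2⟩ := mem_cols.1 hx2.1
    have t : ∀ x ∈ K, ∀ p ∈ S \ K, PP p → G.Adj p x → ∀ y,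
        x ∉ cols G S K (fun p => PP p ∧ ¬ G.Adj p y) → G.Adj p y := by
      intro x hx p hp h px y hn
      by_contra e
      exact hn (mem_cols.2 ⟨hx, p, hp, ⟨h, e⟩, px⟩)
    refine pp p1 hp1 p2 hp2 pp1 pp2 (hD y y' p1 p2 yy' (t _ k1 _ hp1 pp1 a1 _ hx1.2.1).symm
      (t _ k2 _ hp2 pp2 a2 _ hx2.2.1).symm (t _ k1 _ hp1 pp1 a1 _ hx1.2.2).symm
      (t _ k2 _ hp2 pp2 a2 _ hx2.2.2).symm ?_)
    rintro rfl
    exact hne (hK.one' hp1 k1 k2 a1 a2)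
  have path : ∀ y ∈ S \ K, ∀ y' ∈ S \ K, ∀ q ∈ S \ K, ∀ q' ∈ S \ K, PP q → PP q' → G.Adj q y →
      G.Adj q' y' → ¬ G.Adj q y' → ¬ G.Adj q' y → ¬ G.Adj y y' → False := by
    intro y hy y' hy' q hq q' hq' h1 h2 qy q'y' qy' q'y yy'
    exact h5 y hy q hq a ha q' hq' y' hy' qy.symm h1.1 h2.1.symm q'y'
      (fun e => ia q hq h1.1 h1.2 y hy e qy.symm) (ns q'y) yy' (pp q hq q' hq' h1 h2) qy'
      (fun e => ia q' hq' h2.1 h2.2 y' hy' e.symm q'y'.symm)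
  have hM : ∃ M : Finset V, M.card ≤ 6 ∧ ∀ y ∈ S \ K, Y1 y → ∀ p ∈ S \ K, PP p → ¬ G.Adj p y →
      ∀ x ∈ K, G.Adj p x → x ∈ M := by
    rcases ((S \ K).filter Y1).eq_empty_or_nonempty with he | hne
    · refine ⟨∅, by simp, fun y hy h => ?_⟩
      have : y ∈ (S \ K).filter Y1 := mem_filter.2 ⟨hy, h⟩
      rw [he] at this
      simp at this
    obtain ⟨y0, hy0, hmax⟩ := exists_max_image _
      (fun y => ((S \ K).filter (fun p => PP p ∧ ¬ G.Adj p y)).card) hne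
    rw [mem_filter] at hy0
    refine ⟨_, miss y0 hy0.1 hy0.2, fun y hy h p hp h1 py x hx px => ?_⟩
    refine mem_cols.2 ⟨hx, p, hp, ⟨h1, fun py0 => ?_⟩, px⟩
    have hlt : ((S \ K).filter (fun p => PP p ∧ ¬ G.Adj p y0)).card <
        ((S \ K).filter (fun p => PP p ∧ ¬ G.Adj p y)).card := by
      refine card_lt_card ⟨?_, ?_⟩
      · intro q hq
        rw [mem_filter] at hq ⊢
        exact ⟨hq.1, hq.2.1, fun qy => path y hy y0 hy0.1 q hq.1 p hp hq.2.1 h1 qy py0 hq.2.2 py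
          (nadj y hy y0 hy0.1 h hy0.2)⟩
      · intro hs
        exact (mem_filter.1 (hs (mem_filter.2 ⟨hp, h1, py⟩))).2.2 py0
    have := hmax y (mem_filter.2 ⟨hy, h⟩)
    omega
  obtain ⟨M, hMc, hM⟩ := hM
  let M2 := K.filter (fun x => x ∉ F1 ∧ ∃ y ∈ S \ K, ¬ Y1 y ∧ ∃ q ∈ S \ K, G.Adj q a ∧
    G.Adj q y ∧ G.Adj q x)
  have hM2 : M2.card ≤ 1 := by
    rw [card_le_one]
    intro x hx x' hx'
    obtain ⟨k1, f1, y, hy, n1, q, hq, qa, qy, qx⟩ := mem_filter.1 hx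
    obtain ⟨k2, f2, y', hy', n2, q', hq', q'a, q'y', q'x⟩ := mem_filter.1 hx'
    by_contra hne
    have p1 : PP q := ⟨qa, x, k1, f1, qx⟩
    have p2 : PP q' := ⟨q'a, x', k2, f2, q'x⟩
    have t : ∀ y, ¬ Y1 y → ∀ q ∈ S \ K, PP q → G.Adj q y → ∀ x ∈ K, G.Adj q x → G.Adj y x := by
      intro y n q hq p qy x hx qx
      by_contra e
      exact n ⟨q, hq, p, qy, x, hx, qx, e⟩
    have yx := t y n1 q hq p1 qy x k1 qx
    have y'x := t y' n2 q' hq' p2 q'y' x' k2 q'x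
    have yb : G.Adj y b := (hcov y hy ⟨x, k1, f1, yx⟩).resolve_left
      (fun e => ia q hq p1.1 p1.2 y hy e qy.symm)
    have y'b : G.Adj y' b := (hcov y' hy' ⟨x', k2, f2, y'x⟩).resolve_left
      (fun e => ia q' hq' p2.1 p2.2 y' hy' e q'y'.symm)
    exact path y hy y' hy' q hq q' hq' p1 p2 qy q'y'
      (fun e => hne (hK.one' hy' k1 k2 (t y' n2 q hq p1 e x k1 qx) y'x))
      (fun e => hne (hK.one' hy k1 k2 yx (t y n1 q' hq' p2 e x' k2 q'x)))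
      (ib y' hy' y'b ⟨x', k2, f2, y'x⟩ y hy yb)
  refine ⟨M ∪ M2, (card_union_le _ _).trans (by omega), ?_⟩
  rintro p hp q hq pa qa ⟨x, hx, xF, px⟩ ⟨x', hx', x'F, qx'⟩ y hy py
  simp only [mem_union, not_or] at xF x'F
  by_cases e : Y1 y
  · by_contra qy
    exact x'F.2.1 (hM y hy e q hq ⟨qa, x', hx', x'F.1, qx'⟩ qy x' hx' qx')
  · exact absurd (mem_filter.2 ⟨hx, xF.1, y, hy, e, p, hp, pa, py, px⟩) xF.2.2

lemma W_fin {G : SimpleGraph V} {S K F : Finset V} (hK : MC G S K) {k t : ℕ} (hF : F.card ≤ t)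
    (hR : ∀ S' ⊆ S \ K, W G k S') (a : V)
    (h : ∀ p ∈ S \ K, ∀ q ∈ S \ K, (G.Adj p a ↔ G.Adj q a) → good G K F p → good G K F q →
      ∀ y ∈ S \ K, G.Adj p y → G.Adj q y) : W G (J t (J 4 (k + 12) + t)) S := by
  refine W_del hF ?_
  let X := (S \ F).filter (fun v => v ∈ K ∨ good G K F v)
  have hX : ∀ x ∈ X, x ∈ S ∧ x ∉ F ∧ (x ∉ K → good G K F x) := by
    intro x hx
    obtain ⟨h1, h2⟩ := mem_filter.1 hx
    exact ⟨(mem_sdiff.1 h1).1, (mem_sdiff.1 h1).2, h2.resolve_left⟩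
  have htw : ∀ x ∈ X, ∀ y ∈ X, x ∉ K → y ∉ K → (G.Adj x a ↔ G.Adj y a) → ∀ z ∈ S, z ∉ K →
      (G.Adj x z ↔ G.Adj y z) := by
    intro x hx y hy xK yK e z hz zK
    have h1 := hX x hx
    have h2 := hX y hy
    exact ⟨h x (mem_sdiff.2 ⟨h1.1, xK⟩) y (mem_sdiff.2 ⟨h2.1, yK⟩) e (h1.2.2 xK) (h2.2.2 yK) z
      (mem_sdiff.2 ⟨hz, zK⟩), h y (mem_sdiff.2 ⟨h2.1, yK⟩) x (mem_sdiff.2 ⟨h1.1, xK⟩) e.symm
      (h2.2.2 yK) (h1.2.2 xK) z (mem_sdiff.2 ⟨hz, zK⟩)⟩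
  refine W_join (A := X) (filter_subset _ _) ?_ ?_ ((hR _ ?_).mono (by omega))
  · refine Ty_of_labels (fun v => (v ∈ K, G.Adj v a)) univ (by simp)
      (fun _ _ => Or.inr (mem_univ _)) ?_
    intro x hx y hy e z hz hzX
    simp only [Prod.mk.injEq, eq_iff_iff] at e
    have hz' : ¬ (z ∈ K ∨ good G K F z) := fun h => hzX (mem_filter.2 ⟨hz, h⟩)
    rw [not_or] at hz'
    by_cases xK : x ∈ K
    · exact ⟨fun e' => absurd ⟨x, xK, (hX x hx).2.1, e'.symm⟩ hz'.2,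
        fun e' => absurd ⟨y, e.1.1 xK, (hX y hy).2.1, e'.symm⟩ hz'.2⟩
    · exact htw x hx y hy xK (fun h => xK (e.1.2 h)) e.2 z (mem_sdiff.1 hz).1 hz'.1
  · let G' : SimpleGraph V :=
      { Adj := fun x y => G.Adj x y ∧ (x ∈ K ↔ y ∉ K)
        symm := ⟨fun x y h => ⟨h.1.symm, by have := h.2; tauto⟩⟩
        loopless := ⟨fun x h => h.1.ne rfl⟩ }
    have hG' : ∀ x y, G'.Adj x y ↔ G.Adj x y ∧ (x ∈ K ↔ y ∉ K) := fun _ _ => Iff.rfl
    have hW : W G' 2 X := by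
      refine W_of_prime le_rfl X (fun S' hS' ⟨x, hx⟩ _ _ hp => ?_)
      exfalso
      obtain ⟨u, hu, uK⟩ : ∃ u ∈ S', u ∉ K := by
        by_cases e : x ∈ K
        · obtain ⟨y, hy, _, _, _, xy, _⟩ := hp x hx
          exact ⟨y, hy, xy.2.1 e⟩
        · exact ⟨x, hx, e⟩
      obtain ⟨y, _, z, _, yz, uy, uz⟩ := hp u hu
      refine yz (hK.one u (hX u (hS' hu)).1 uK y ?_ z ?_ uy.1 uz.1)
      · by_contra e; exact uK (uy.2.2 e)
      · by_contra e; exact uK (uz.2.2 e)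
    refine (W.relabel (r := 4) (fun v => (v ∈ K, G.Adj v a)) univ (by simp)
      (fun _ _ => mem_univ _) ?_ hW).mono (by omega)
    intro x hx y hy z hz e zx zy hh
    simp only [Prod.mk.injEq, eq_iff_iff] at e
    rw [hG', hG'] at hh
    by_cases xK : x ∈ K <;> by_cases zK : z ∈ K
    · exact ⟨fun _ => hK.cl y (e.1.1 xK) z zK zy.symm, fun _ => hK.cl x xK z zK zx.symm⟩
    · simpa [xK, zK, e.1.1 xK] using hh
    · have yK : y ∉ K := fun h => xK (e.1.2 h)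
      simpa [xK, zK, yK] using hh
    · exact htw x hx y hy xK (fun h => xK (e.1.2 h)) e.2 z (hX z hz).1 zK
  · intro z hz
    rw [mem_sdiff] at hz ⊢
    exact ⟨(mem_sdiff.1 hz.1).1, fun h => hz.2 (mem_filter.2 ⟨hz.1, Or.inl h⟩)⟩

theorem W_main : ∃ k, ∀ (V : Type) (G : SimpleGraph V) (S : Finset V), DF G → PF G →
    W G k S := by
  obtain ⟨k1, hk1⟩ := W_omega 3
  obtain ⟨k, hk⟩ := W_P5
  refine ⟨k1 + (c3Cl + J 4 (k + c3Cl)) + (k + 2) + J 60 (J 4 (k + 12) + 60),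
    fun V G S hD hP => ?_⟩
  by_cases hn : NoCl G S (3 + 3)
  · exact (hk1 V G S hD hP hn).mono (by omega)
  obtain ⟨K, hK, hKc⟩ := exists_big hD hn
  have h5 := F5_of_big hP hK hKc
  have hR : ∀ S' ⊆ S \ K, W G k S' := fun S' hS' => hk V G S' hD hP (h5.mono hS')
  by_cases hrb : RB G S K
  · obtain ⟨Q, m, n, h⟩ := hrb.mt hD hK
    exact (W_match hD hP h hR).mono (by omega)
  by_cases hb : ∀ u ∈ S \ K, ∀ w ∈ S \ K, ∀ x ∈ K, G.Adj u w → G.Adj u x → G.Adj w x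
  · obtain ⟨h1, h2⟩ := W_nobi hD hK hb
    refine (W_union (k := k + 2) (filter_subset _ _) (fun x hx y hy hn e => hn (h2 x hx y hy e))
      (h1.mono (by omega)) ((hR _ ?_).mono (by omega))).mono (by omega)
    intro z hz
    rw [mem_sdiff] at hz ⊢
    exact ⟨hz.1, fun h => hz.2 (mem_filter.2 ⟨hz.1, Or.inl h⟩)⟩
  push Not at hb
  obtain ⟨a, ha, b, hb, x', hx', ab, ax, bx⟩ := hb
  have c0 := cols_far hP hK hrb ha hb hx' ab ax bx
  obtain ⟨Fa, ca, ia⟩ := side hD hP hK hrb ha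
  obtain ⟨Fb, cb, ib⟩ := side hD hP hK hrb hb
  let F1 := cols G S K (fun p => ¬ G.Adj p a ∧ ¬ G.Adj p b) ∪ (Fa ∪ Fb)
  have c1 : F1.card ≤ 34 := by
    have e1 := card_union_le (cols G S K (fun p => ¬ G.Adj p a ∧ ¬ G.Adj p b)) (Fa ∪ Fb)
    have e2 := card_union_le Fa Fb
    simp only [F1]
    omega
  have ia' : Iso G S K F1 a := ia.mono (subset_union_left.trans subset_union_right)
  have ib' : Iso G S K F1 b := ib.mono (subset_union_right.trans subset_union_right)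
  have hcov : ∀ p ∈ S \ K, good G K F1 p → G.Adj p a ∨ G.Adj p b := by
    rintro p hp ⟨x, hx, xF, px⟩
    by_contra hh
    rw [not_or] at hh
    exact xF (mem_union_left _ (mem_cols.2 ⟨hx, p, hp, hh, px⟩))
  obtain ⟨F2, c2, t2⟩ := twins hD hP hK hrb h5 ha hcov ia' ib'
  obtain ⟨F3, c3, t3⟩ := twins hD hP hK hrb h5 hb (fun p hp h => (hcov p hp h).symm) ib' ia'
  have c4 : (F1 ∪ F2 ∪ (F1 ∪ F3)).card ≤ 60 := by
    have : F1 ∪ F2 ∪ (F1 ∪ F3) ⊆ F1 ∪ (F2 ∪ F3) := by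
      intro x; simp only [mem_union]; tauto
    have e0 := card_le_card this
    have e1 := card_union_le F1 (F2 ∪ F3)
    have e2 := card_union_le F2 F3
    omega
  refine (W_fin hK c4 hR a ?_).mono (by omega)
  intro p hp q hq e gp gq
  by_cases pa : G.Adj p a
  · exact t2 p hp q hq pa (e.1 pa) (gp.mono subset_union_left) (gq.mono subset_union_left)
  · have g1 : F1 ⊆ F1 ∪ F2 ∪ (F1 ∪ F3) := subset_union_left.trans subset_union_left
    exact t3 p hp q hq ((hcov p hp (gp.mono g1)).resolve_left pa)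
      ((hcov q hq (gq.mono g1)).resolve_left (fun h => pa (e.2 h)))
      (gp.mono subset_union_right) (gq.mono subset_union_right)

end

end Pool.Agent.MP_41f2d3_co

end

section

/-! Assembly for the pair (diamond, P1 + P5). -/

namespace Pool.Agent.MP_41f2d3_co

open SimpleGraph

variable {V : Type}

lemma DF_of_isEmpty {G : SimpleGraph V} (h : IsEmpty (diamond ↪g G)) : DF G := by
  intro a b c d ab ac ad bc bd cd
  by_contra n
  have hadj : ∀ i j : Fin 4, G.Adj (![a, b, c, d] i) (![a, b, c, d] j) ↔ diamond.Adj i j := by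
    intro i j
    fin_cases i <;> fin_cases j <;>
      simp [diamond, ab, ac, ad, bc, bd, ab.symm, ac.symm, ad.symm, bc.symm, bd.symm, n, ns n]
  refine h.false ⟨⟨![a, b, c, d], ?_⟩, fun {i j} => hadj i j⟩
  intro i j
  fin_cases i <;> fin_cases j <;>
    simp [ab.ne, ac.ne, ad.ne, bc.ne, bd.ne, cd, ab.ne', ac.ne', ad.ne', bc.ne', bd.ne', cd.symm]

lemma PF_of_isEmpty {G : SimpleGraph V} (h : IsEmpty ((pathGraph 1 ⊕g pathGraph 5) ↪g G)) :
    PF G := by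
  intro a b c d e z ab bc cd de ac ad ae bd be ce za zb zc zd ze
  let f : Fin 1 ⊕ Fin 5 → V := Sum.elim (fun _ => z) ![a, b, c, d, e]
  have hadj : ∀ i j, G.Adj (f i) (f j) ↔ (pathGraph 1 ⊕g pathGraph 5).Adj i j := by
    rintro (i | i) (j | j) <;> fin_cases i <;> fin_cases j <;>
      simp [f, pathGraph_adj, ab, bc, cd, de, ab.symm, bc.symm, cd.symm, de.symm, ac, ad, ae, bd,
        be, ce, za, zb, zc, zd, ze, ns ac, ns ad, ns ae, ns bd, ns be, ns ce, ns za, ns zb, ns zc,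
        ns zd, ns ze]
  have h1 : a ≠ c := fun e => ad (e ▸ cd)
  have h2 : a ≠ d := fun e => bd (e ▸ ab.symm)
  have h3 : a ≠ e := fun e' => be (e' ▸ ab.symm)
  have h4 : b ≠ d := fun e => ad (e ▸ ab)
  have h5 : b ≠ e := fun e' => ae (e' ▸ ab)
  have h6 : c ≠ e := fun e' => be (e' ▸ bc)
  have h7 : z ≠ a := fun e => zb (e ▸ ab)
  have h8 : z ≠ b := fun e => zc (e ▸ bc)
  have h9 : z ≠ c := fun e => zd (e ▸ cd)
  have h10 : z ≠ d := fun e' => ze (e' ▸ de)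
  have h11 : z ≠ e := fun e' => zd (e' ▸ de.symm)
  refine h.false ⟨⟨f, ?_⟩, fun {i j} => hadj i j⟩
  rintro (i | i) (j | j) <;> fin_cases i <;> fin_cases j <;>
    simp [f, ab.ne, bc.ne, cd.ne, de.ne, ab.ne', bc.ne', cd.ne', de.ne', h1, h2, h3, h4, h5, h6,
      h7, h8, h9, h10, h11, h1.symm, h2.symm, h3.symm, h4.symm, h5.symm, h6.symm, h7.symm,
      h8.symm, h9.symm, h10.symm, h11.symm]

theorem bounded_diamond_P1P5 :
    ∃ c : ℕ, ∀ (V : Type) [Finite V] [Nonempty V] (G : SimpleGraph V),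
      IsEmpty (diamond ↪g G) → IsEmpty ((pathGraph 1 ⊕g pathGraph 5) ↪g G) →
      CliqueWidthLE G c := by
  obtain ⟨k, hk⟩ := W_main
  refine ⟨3 * (k + 1), fun V _ _ G h1 h2 => ?_⟩
  have := Fintype.ofFinite V
  exact cw_of_W (hk V G _ (DF_of_isEmpty h1) (PF_of_isEmpty h2))

end Pool.Agent.MP_41f2d3_co

end
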