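import Pool.Agent.Mg.F41f2d3.Ge87435

section

/-! Representatives and chains. -/

set_option autoImplicit false

namespace Pool.Agent.MP_a2955b_co.Up

open Set Module

lemma aff_Chain {E : Type} [NormedAddCommGroup E] [NormedSpace ℝ E] (g : Af E) {r : ℕ}
    (w : Fin r → ℝ) (b : Fin r → E) :
    g (∑ l, w l • b l) = ∑ l, w l * g (b l) + (1 - ∑ l, w l) * g 0 := by
  have h : ∀ x, g x = g.linear x + g 0 := fun x => by
    have := g.map_vadd 0 x
    simpa using this
  rw [h, map_sum, sub_mul, Finset.sum_mul, one_mul]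
  have : ∀ l, w l * g (b l) = g.linear (w l • b l) + w l * g 0 := fun l => by
    rw [h (b l), map_smul, smul_eq_mul, mul_add]
  simp only [this, Finset.sum_add_distrib]
  ring

lemma sgn_Chain {r : ℕ} (a μ : Fin (r + 1) → ℝ) (hμ : ∀ l, 0 < μ l)
    (ha : ∀ l, l < Fin.last r → a l = 0 ∨ SignType.sign (a l) = SignType.sign (a (Fin.last r))) :
    SignType.sign (∑ l, μ l * a l) = SignType.sign (a (Fin.last r)) := by
  have ha' : ∀ l, a l = 0 ∨ SignType.sign (a l) = SignType.sign (a (Fin.last r)) := fun l => by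
    rcases (Fin.le_last l).lt_or_eq with h | h
    · exact ha l h
    · exact Or.inr (by rw [h])
  rcases lt_trichotomy (a (Fin.last r)) 0 with h | h | h
  · rw [sign_neg h] at ha' ⊢
    rw [sign_eq_neg_one_iff]
    have := Finset.sum_lt_sum (s := Finset.univ) (f := fun l => μ l * a l) (g := fun _ => (0 : ℝ))
      (fun l _ => by
        rcases ha' l with e | e
        · simp [e]
        · exact (mul_neg_of_pos_of_neg (hμ l) (sign_eq_neg_one_iff.1 e)).le)
      ⟨Fin.last r, Finset.mem_univ _, mul_neg_of_pos_of_neg (hμ _) h⟩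
    simpa using this
  · rw [h, sign_zero] at ha' ⊢
    rw [sign_eq_zero_iff]
    refine Finset.sum_eq_zero fun l _ => ?_
    rcases ha' l with e | e
    · simp [e]
    · simp [sign_eq_zero_iff.1 e]
  · rw [sign_pos h] at ha' ⊢
    rw [sign_eq_one_iff]
    refine Finset.sum_pos' (fun l _ => ?_) ⟨Fin.last r, Finset.mem_univ _, mul_pos (hμ _) h⟩
    rcases ha' l with e | e
    · simp [e]
    · exact (mul_pos (hμ l) (sign_eq_one_iff.1 e)).le

section
variable {E : Type} [NormedAddCommGroup E] [NormedSpace ℝ E] {κ : Type} {g : κ → Af E}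
  {A : Finset κ}

lemma same_Chain (x : E) : SameSg g A x (rep g A x) :=
  Classical.epsilon_spec (p := fun y => SameSg g A x y) ⟨x, fun _ _ => rfl⟩

lemma rep_Chain {x y : E} (h : SameSg g A x y) : rep g A x = rep g A y := by
  unfold rep
  congr 1
  funext z
  exact propext ⟨fun hz j hj => (h j hj).symm.trans (hz j hj), fun hz j hj =>
    (h j hj).trans (hz j hj)⟩

lemma fin_Chain : (range (rep g A)).Finite := by
  refine Set.Finite.of_finite_image (f := fun x (j : A) => SignType.sign (g j x))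
    (Set.toFinite _) ?_
  rintro _ ⟨x, rfl⟩ _ ⟨y, rfl⟩ e
  refine rep_Chain fun j hj => ?_
  exact (same_Chain x j hj).trans ((congrFun e ⟨j, hj⟩).trans (same_Chain y j hj).symm)

lemma key_Chain {r : ℕ} {b : Fin (r + 1) → E} (h : Chain g A b) (i : Fin r) :
    ∃ j ∈ A, (∀ l, l < i.succ → g j (b l) = 0) ∧ g j (b i.succ) ≠ 0 := by
  have h1 := h.ne i.castSucc i.succ i.castSucc_lt_succ
  unfold SameSg at h1
  push Not at h1
  obtain ⟨j, hj, hne⟩ := h1
  have h0 : g j (b i.castSucc) = 0 :=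
    (h.below i.castSucc i.succ i.castSucc_lt_succ j hj).resolve_right hne
  refine ⟨j, hj, fun l hl => ?_, fun e => hne (by rw [h0, e])⟩
  rcases (Fin.le_castSucc_iff.2 hl).lt_or_eq with h2 | h2
  · rcases h.below l i.castSucc h2 j hj with e | e
    · exact e
    · rwa [h0, sign_zero, sign_eq_zero_iff] at e
  · rw [h2, h0]

lemma zero_Chain {r : ℕ} {b : Fin (r + 1) → E} (h : Chain g A b) (w : Fin (r + 1) → ℝ)
    (h1 : ∑ l, w l = 0) (h2 : ∑ l, w l • b l = 0) (l : Fin (r + 1)) : w l = 0 := by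
  by_contra hl
  obtain ⟨m, hm, hmax⟩ := Finset.exists_max_image (Finset.univ.filter fun l => w l ≠ 0) id
    ⟨l, by simpa using hl⟩
  have hm' : w m ≠ 0 := by simpa using hm
  have hz : ∀ k, m < k → w k = 0 := fun k hk => by
    by_contra e
    exact absurd (hmax k (by simpa using e)) (not_le.2 hk)
  rcases Fin.eq_zero_or_eq_succ m with rfl | ⟨i, rfl⟩
  · rw [Finset.sum_eq_single 0 (fun k _ hk => hz k (Fin.pos_iff_ne_zero.2 hk)) (by simp)] at h1
    exact hm' h1
  · obtain ⟨j, -, ha, hb⟩ := key_Chain h i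
    have h3 := aff_Chain (g j) w b
    rw [h1, h2, Finset.sum_eq_single i.succ (fun k _ hk => ?_) (by simp)] at h3
    · exact mul_ne_zero hm' hb (by linarith)
    · rcases lt_or_gt_of_ne hk with e | e
      · rw [ha k e, mul_zero]
      · rw [hz k e, zero_mul]

lemma ind_Chain {r : ℕ} {b : Fin (r + 1) → E} (h : Chain g A b) : AffineIndependent ℝ b := by
  rw [affineIndependent_iff]
  intro s w h1 h2 e he
  have := zero_Chain h (fun l => if l ∈ s then w l else 0) (by simpa using h1)
    (by simpa [ite_smul] using h2) e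
  simpa [he] using this

lemma init_Chain {r : ℕ} {b : Fin (r + 2) → E} (h : Chain g A b) :
    Chain g A (fun l : Fin (r + 1) => b l.castSucc) :=
  ⟨fun _ => h.fix _, fun _ _ e => h.below _ _ (Fin.castSucc_lt_castSucc_iff.2 e),
    fun _ _ e => h.ne _ _ (Fin.castSucc_lt_castSucc_iff.2 e)⟩

lemma sum_Chain {r : ℕ} {b : Fin (r + 1) → E} (h : Chain g A b) {μ : Fin (r + 1) → ℝ}
    (hμ : ∀ l, 0 < μ l) {j : κ} (hj : j ∈ A) :
    SignType.sign (∑ l, μ l * g j (b l)) = SignType.sign (g j (b (Fin.last r))) :=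
  sgn_Chain (fun l => g j (b l)) μ hμ fun l hl => h.below l _ hl j hj

lemma lt_Chain {r : ℕ} {b b' : Fin (r + 2) → E} (h : Chain g A b) (h' : Chain g A b')
    {μ μ' : Fin (r + 2) → ℝ} (hμ : ∀ l, 0 < μ l) (hμ' : ∀ l, 0 < μ' l)
    (e : ∀ j ∈ A, ∑ l, μ l * g j (b l) = ∑ l, μ' l * g j (b' l))
    (hc : b (Fin.last _) = b' (Fin.last _)) : ¬ μ (Fin.last _) < μ' (Fin.last _) := by
  intro hlt
  refine h.ne (Fin.last r).castSucc (Fin.last _) (Fin.castSucc_lt_last _) fun j hj => ?_
  have h1 := sum_Chain (init_Chain h) (μ := fun l => μ l.castSucc) (fun l => hμ _) hj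
  have h2 := sum_Chain h' (μ := Fin.snoc (α := fun _ => ℝ) (fun l => μ' l.castSucc)
    (μ' (Fin.last _) - μ (Fin.last _))) (fun l => by
      refine Fin.lastCases ?_ (fun i => ?_) l
      · simpa using hlt
      · simpa using hμ' _) hj
  have h3 := e j hj
  rw [Fin.sum_univ_castSucc, Fin.sum_univ_castSucc (f := fun l => μ' l * g j (b' l)), hc] at h3
  rw [Fin.sum_univ_castSucc] at h2
  simp only [Fin.snoc_castSucc, Fin.snoc_last] at h2
  rw [← h1, hc, ← h2]
  congr 1
  linarith

lemma uniq_Chain (r : ℕ) : ∀ (b b' : Fin (r + 1) → E) (μ μ' : Fin (r + 1) → ℝ), Chain g A b →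
    Chain g A b' → (∀ l, 0 < μ l) → (∀ l, 0 < μ' l) →
    (∀ j ∈ A, ∑ l, μ l * g j (b l) = ∑ l, μ' l * g j (b' l)) → b = b' := by
  have last : ∀ (r : ℕ) (b b' : Fin (r + 1) → E) (μ μ' : Fin (r + 1) → ℝ), Chain g A b →
      Chain g A b' → (∀ l, 0 < μ l) → (∀ l, 0 < μ' l) →
      (∀ j ∈ A, ∑ l, μ l * g j (b l) = ∑ l, μ' l * g j (b' l)) →
      b (Fin.last r) = b' (Fin.last r) := by
    intro r b b' μ μ' h h' hμ hμ' e
    rw [← h.fix, ← h'.fix]
    refine rep_Chain fun j hj => ?_
    rw [← sum_Chain h hμ hj, ← sum_Chain h' hμ' hj, e j hj]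
  induction r with
  | zero =>
    intro b b' μ μ' h h' hμ hμ' e
    funext l
    have := last 0 b b' μ μ' h h' hμ hμ' e
    rwa [show l = Fin.last 0 from Fin.ext (by simp)]
  | succ r ih =>
    intro b b' μ μ' h h' hμ hμ' e
    have hc := last _ b b' μ μ' h h' hμ hμ' e
    have hm : μ (Fin.last _) = μ' (Fin.last _) :=
      le_antisymm (not_lt.1 (lt_Chain h' h hμ' hμ (fun j hj => (e j hj).symm) hc.symm))
        (not_lt.1 (lt_Chain h h' hμ hμ' e hc))
    have := ih _ _ (fun l => μ l.castSucc) (fun l => μ' l.castSucc) (init_Chain h)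
      (init_Chain h') (fun l => hμ _) (fun l => hμ' _) fun j hj => by
        have h3 := e j hj
        rw [Fin.sum_univ_castSucc, Fin.sum_univ_castSucc (f := fun l => μ' l * g j (b' l)), hc,
          hm] at h3
        exact add_right_cancel h3
    funext l
    exact Fin.lastCases hc (fun i => congrFun this i) l

end

theorem chain_facts : ChainStmt := by
  intro E _ _ κ g A
  refine ⟨same_Chain, fun x y => rep_Chain, fin_Chain, fun r b => ind_Chain,
    fun r b μ h hμ h1 j hj => ?_, fun r b b' μ μ' h h' hμ h1 hμ' h1' e => ?_⟩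
  · rw [aff_Chain, h1, sub_self, zero_mul, add_zero]
    exact sum_Chain h hμ hj
  · refine uniq_Chain r b b' μ μ' h h' hμ hμ' fun j _ => ?_
    have a := aff_Chain (g j) μ b
    have a' := aff_Chain (g j) μ' b'
    rw [e, h1, a', h1'] at a
    exact (add_right_cancel a).symm

end Pool.Agent.MP_a2955b_co.Up

end

section

set_option autoImplicit false
namespace Pool.Agent.MP_a2955b_co.Up
open Set Module

theorem pw_Sample {m s k lam : ℕ} (hm : 0 < m) (hs : s ≤ m) (h : lam * m ≤ s * k) :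
    (m - s) ^ k * 2 ^ lam ≤ m ^ k := by
  have hm' : (0 : ℝ) < m := by exact_mod_cast hm
  have hs' : (s : ℝ) ≤ m := by exact_mod_cast hs
  have h' : (lam : ℝ) * m ≤ s * k := by exact_mod_cast h
  have h1 : (m : ℝ) - s ≤ m * Real.exp (-(s / m)) := by
    have h2 := mul_le_mul_of_nonneg_left (Real.one_sub_le_exp_neg ((s : ℝ) / m)) hm'.le
    rwa [mul_sub, mul_one, mul_div_cancel₀ _ hm'.ne'] at h2
  have h3 : (2 : ℝ) ≤ Real.exp 1 := by
    have := Real.add_one_le_exp (1 : ℝ)
    linarith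
  have h4 : Real.exp (-((s : ℝ) / m)) ^ k * Real.exp 1 ^ lam ≤ 1 := by
    rw [← Real.exp_nat_mul, ← Real.exp_nat_mul, ← Real.exp_add, Real.exp_le_one_iff]
    have h5 : (lam : ℝ) ≤ s * k / m := (le_div_iff₀ hm').2 h'
    have h6 : (k : ℝ) * -((s : ℝ) / m) = -(s * k / m) := by ring
    linarith
  have h7 : ((m : ℝ) - s) ^ k * 2 ^ lam ≤ (m : ℝ) ^ k := by
    calc ((m : ℝ) - s) ^ k * 2 ^ lam ≤ (m * Real.exp (-(s / m))) ^ k * Real.exp 1 ^ lam := by
          gcongr
      _ = (m : ℝ) ^ k * (Real.exp (-((s : ℝ) / m)) ^ k * Real.exp 1 ^ lam) := by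
          rw [mul_pow, mul_assoc]
      _ ≤ (m : ℝ) ^ k * 1 := by gcongr
      _ = (m : ℝ) ^ k := mul_one _
  rw [← Nat.cast_sub hs] at h7
  exact_mod_cast h7

open Classical in
theorem fix_Sample {ι : Type} [Fintype ι] {D k : ℕ} {x : Fin D → ι} (hx : Function.Injective x)
    (p : Fin D → Fin k) :
    (Finset.univ.filter fun r : Fin k → ι => ∀ i, r (p i) = x i).card * Fintype.card ι ^ D ≤
      Fintype.card ι ^ k := by
  have h1 : Fintype.card ι ^ D = (Finset.univ : Finset (Fin D → ι)).card := by simp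
  have h2 : Fintype.card ι ^ k = (Finset.univ : Finset (Fin k → ι)).card := by simp
  rw [h1, h2, ← Finset.card_product]
  refine Finset.card_le_card_of_injOn (fun q => Function.extend p q.2 q.1)
    (fun _ _ => Finset.mem_coe.2 (Finset.mem_univ _)) ?_
  rintro ⟨r, y⟩ ha ⟨r', y'⟩ hb h
  have hr : ∀ i, r (p i) = x i :=
    (Finset.mem_filter.1 (Finset.mem_product.1 (Finset.mem_coe.1 ha)).1).2
  have hr' : ∀ i, r' (p i) = x i :=
    (Finset.mem_filter.1 (Finset.mem_product.1 (Finset.mem_coe.1 hb)).1).2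
  have hp : Function.Injective p := fun i j e => hx (by rw [← hr, ← hr, e])
  refine Prod.ext (funext fun j => ?_) (funext fun i => ?_)
  · by_cases hj : ∃ i, p i = j
    · obtain ⟨i, rfl⟩ := hj
      exact (hr i).trans (hr' i).symm
    · have h3 := congrFun h j
      simpa only [Function.extend_apply' _ _ _ hj] using h3
  · have h3 := congrFun h (p i)
    simpa only [hp.extend_apply] using h3

open Classical in
theorem cov_Sample {ι : Type} [Fintype ι] {D : ℕ} {x : Fin D → ι} (hx : Function.Injective x)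
    (k : ℕ) :
    (Finset.univ.filter fun r : Fin k → ι => ∀ i, x i ∈ Finset.univ.image r).card *
      Fintype.card ι ^ D ≤ k ^ D * Fintype.card ι ^ k := by
  have h1 : (Finset.univ.filter fun r : Fin k → ι => ∀ i, x i ∈ Finset.univ.image r) ⊆
      Finset.univ.biUnion fun p : Fin D → Fin k =>
        Finset.univ.filter fun r : Fin k → ι => ∀ i, r (p i) = x i := by
    intro r hr
    have h2 := (Finset.mem_filter.1 hr).2
    simp only [Finset.mem_image, Finset.mem_univ, true_and] at h2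
    choose p hp using h2
    exact Finset.mem_biUnion.2 ⟨p, Finset.mem_univ _, Finset.mem_filter.2 ⟨Finset.mem_univ _, hp⟩⟩
  refine (Nat.mul_le_mul_right _ ((Finset.card_le_card h1).trans Finset.card_biUnion_le)).trans ?_
  rw [Finset.sum_mul]
  refine (Finset.sum_le_sum fun p _ => fix_Sample hx p).trans (le_of_eq ?_)
  simp

theorem sample : SampleStmt := by
  classical
  intro ι _ D Rg X hX k t lam h1 h2
  rcases Nat.eq_zero_or_pos (Fintype.card ι) with hm | hm
  · have := Fintype.card_eq_zero_iff.1 hm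
    refine ⟨∅, by simp, fun r _ _ => by simp [Set.eq_empty_of_isEmpty r], ?_⟩
    rcases Nat.eq_zero_or_pos D with rfl | hD
    · have h3 : {x | x ∈ X ∧ ∀ i, x i ∈ (∅ : Finset ι)}.ncard ≤ X.ncard :=
        Set.ncard_le_ncard fun _ h => h.1
      simp only [pow_zero, mul_one]
      omega
    · rw [hm, zero_pow hD.ne', mul_zero]
      exact Nat.zero_le _
  have hM : 0 < Fintype.card ι ^ k := pow_pos hm k
  let c : (Fin k → ι) → ℕ := fun r =>
    (X.toFinset.filter fun x => ∀ i, x i ∈ Finset.univ.image r).card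
  let B₁ : Finset (Fin k → ι) := (Rg.toFinset.filter fun S => t < S.ncard).biUnion fun S =>
    Fintype.piFinset fun _ => S.toFinsetᶜ
  let B₂ : Finset (Fin k → ι) := Finset.univ.filter fun r =>
    2 * (k ^ D * X.ncard) + 1 ≤ c r * Fintype.card ι ^ D
  have a1 : B₁.card * 2 ^ lam ≤ Rg.ncard * Fintype.card ι ^ k := by
    refine (Nat.mul_le_mul_right _ Finset.card_biUnion_le).trans ?_
    rw [Finset.sum_mul]
    refine (Finset.sum_le_card_nsmul _ _ (Fintype.card ι ^ k) fun S hS => ?_).trans ?_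
    · have h3 := (Finset.mem_filter.1 hS).2
      rw [Fintype.card_piFinset, Finset.prod_const, Finset.card_univ, Fintype.card_fin,
        Finset.card_compl]
      rw [Set.ncard_eq_toFinset_card'] at h3
      exact pw_Sample hm (Finset.card_le_univ _) (h2.trans (Nat.mul_le_mul_right _ h3.le))
    · rw [smul_eq_mul, Set.ncard_eq_toFinset_card']
      exact Nat.mul_le_mul_right _ (Finset.card_filter_le _ _)
  have a2 : 2 * B₁.card < Fintype.card ι ^ k := by
    refine Nat.lt_of_mul_lt_mul_right (a := 2 ^ lam) ?_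
    calc 2 * B₁.card * 2 ^ lam ≤ 2 * Rg.ncard * Fintype.card ι ^ k := by
          rw [mul_assoc, mul_assoc]
          exact Nat.mul_le_mul_left _ a1
      _ < 2 ^ lam * Fintype.card ι ^ k := Nat.mul_lt_mul_of_pos_right h1 hM
      _ = _ := mul_comm _ _
  have a3 : ∑ r, c r * Fintype.card ι ^ D ≤ k ^ D * X.ncard * Fintype.card ι ^ k := by
    have h3 : ∑ r, c r = ∑ x ∈ X.toFinset,
        (Finset.univ.filter fun r : Fin k → ι => ∀ i, x i ∈ Finset.univ.image r).card := by
      simp only [c, Finset.card_filter]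
      exact Finset.sum_comm
    rw [← Finset.sum_mul, h3, Finset.sum_mul]
    refine (Finset.sum_le_card_nsmul _ _ (k ^ D * Fintype.card ι ^ k) fun x hx => ?_).trans
      (le_of_eq ?_)
    · convert cov_Sample (hX x (Set.mem_toFinset.1 hx)) k
    · rw [smul_eq_mul, Set.ncard_eq_toFinset_card']
      ring
  have a4 : B₂.card * (2 * (k ^ D * X.ncard) + 1) ≤ k ^ D * X.ncard * Fintype.card ι ^ k := by
    refine le_trans ?_ ((Finset.sum_le_sum_of_subset (Finset.subset_univ B₂)).trans a3)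
    rw [← smul_eq_mul]
    exact Finset.card_nsmul_le_sum _ _ _ fun r hr => (Finset.mem_filter.1 hr).2
  have a5 : 2 * B₂.card ≤ Fintype.card ι ^ k := by
    by_contra h3
    have h4 : Fintype.card ι ^ k + 1 ≤ 2 * B₂.card := by omega
    have h5 := Nat.mul_le_mul_left (k ^ D * X.ncard) h4
    have h6 : 0 < B₂.card := by omega
    generalize k ^ D * X.ncard = A at a4 h5
    generalize Fintype.card ι ^ k = M at a4 h5
    generalize B₂.card = b at a4 h5 h6
    nlinarith
  have a6 : (B₁ ∪ B₂).card < (Finset.univ : Finset (Fin k → ι)).card := by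
    have h3 := Finset.card_union_le B₁ B₂
    rw [Finset.card_univ, Fintype.card_fun, Fintype.card_fin]
    omega
  obtain ⟨r, -, hr⟩ := Finset.exists_mem_notMem_of_card_lt_card a6
  rw [Finset.mem_union, not_or] at hr
  refine ⟨Finset.univ.image r, Finset.card_image_le.trans (by simp), fun S hS hd => ?_, ?_⟩
  · by_contra h3
    refine hr.1 (Finset.mem_biUnion.2 ⟨S, Finset.mem_filter.2
      ⟨Set.mem_toFinset.2 hS, not_le.1 h3⟩, Fintype.mem_piFinset.2 fun j => ?_⟩)
    rw [Finset.mem_compl, Set.mem_toFinset]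
    exact fun h => Set.disjoint_left.1 hd h
      (Finset.mem_coe.2 (Finset.mem_image_of_mem r (Finset.mem_univ j)))
  · have h3 : ¬ 2 * (k ^ D * X.ncard) + 1 ≤ c r * Fintype.card ι ^ D := fun h =>
      hr.2 (Finset.mem_filter.2 ⟨Finset.mem_univ r, h⟩)
    have h4 : {x | x ∈ X ∧ ∀ i, x i ∈ Finset.univ.image r}.ncard = c r := by
      refine Eq.trans ?_ (Set.ncard_coe_finset _)
      congr 1
      ext x
      simp
    rw [h4, mul_assoc]
    omega

end Pool.Agent.MP_a2955b_co.Up

end

section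

set_option autoImplicit false
namespace Pool.Agent.MP_a2955b_co.Up
open Set Module

section
variable {E : Type} [NormedAddCommGroup E] [NormedSpace ℝ E]

theorem comb_Slice (g : Af E) (a b : E) (t : ℝ) :
    g ((1 - t) • a + t • b) = (1 - t) * g a + t * g b := by
  have h := AffineMap.apply_lineMap g a b t
  rw [AffineMap.lineMap_apply_module, AffineMap.lineMap_apply_module] at h
  simpa using h

theorem lin_Slice (g : Af E) (a b : E) : g.linear (a - b) = g a - g b := by
  simpa using g.linearMap_vsub a b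

theorem ivt_Slice {p q : ℝ} (hp : p ≤ 0) (hq : 0 ≤ q) :
    ∃ t : ℝ, 0 ≤ t ∧ t ≤ 1 ∧ (1 - t) * p + t * q = 0 := by
  rcases eq_or_lt_of_le (show 0 ≤ q - p by linarith) with h | h
  · exact ⟨0, le_rfl, zero_le_one, by linarith⟩
  · refine ⟨-p / (q - p), div_nonneg (by linarith) h.le, (div_le_one h).mpr (by linarith), ?_⟩
    field_simp
    ring

theorem neg_Slice {p q t : ℝ} (hp : p < 0) (hq : q < 0) (h0 : 0 ≤ t) (h1 : t ≤ 1) :
    (1 - t) * p + t * q < 0 := by
  rcases eq_or_lt_of_le h0 with h | h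
  · rw [← h]; linarith
  · nlinarith [mul_pos h (neg_pos.mpr hq), mul_nonneg (sub_nonneg.mpr h1) (neg_pos.mpr hp).le]

theorem pos_Slice {p q t : ℝ} (hp : 0 < p) (hq : 0 < q) (h0 : 0 ≤ t) (h1 : t ≤ 1) :
    0 < (1 - t) * p + t * q := by
  have := neg_Slice (neg_neg_of_pos hp) (neg_neg_of_pos hq) h0 h1
  linarith

theorem tri_Slice {S : Set E} {a b c : E} (ha : a ∈ S) (hb : b ∈ S) (hc : c ∈ S) {l m n : ℝ}
    (hl : 0 ≤ l) (hm : 0 ≤ m) (hn : 0 ≤ n) (h : l + m + n = 1) :
    l • a + m • b + n • c ∈ convexHull ℝ S := by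
  have := (convex_convexHull ℝ S).sum_mem (t := Finset.univ) (w := ![l, m, n]) (z := ![a, b, c])
    (by intro i _; fin_cases i <;> assumption) (by rw [Fin.sum_univ_three]; exact h)
    (by
      intro i _
      fin_cases i
      · exact subset_convexHull ℝ S ha
      · exact subset_convexHull ℝ S hb
      · exact subset_convexHull ℝ S hc)
  rw [Fin.sum_univ_three] at this
  exact this

theorem drop_Slice {a b c d x : E} {l₁ l₂ l₃ l₄ k₁ k₂ k₃ k₄ : ℝ} (h₁ : 0 ≤ l₁) (h₂ : 0 ≤ l₂)
    (h₃ : 0 ≤ l₃) (h₄ : 0 ≤ l₄) (hl : l₁ + l₂ + l₃ + l₄ = 1)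
    (hx : x = l₁ • a + l₂ • b + l₃ • c + l₄ • d) (g₁ : 0 ≤ k₁) (g₂ : k₂ < 0) (g₃ : k₃ < 0)
    (g₄ : 0 ≤ k₄) (hk : k₁ + k₂ + k₃ + k₄ = 0) (h0 : k₁ • a + k₂ • b + k₃ • c + k₄ • d = 0) :
    (∀ S : Set E, a ∈ S → c ∈ S → d ∈ S → x ∈ convexHull ℝ S) ∨
      ∀ S : Set E, a ∈ S → b ∈ S → d ∈ S → x ∈ convexHull ℝ S := by
  have key : ∀ s : ℝ, x = (l₁ + s * k₁) • a + (l₂ + s * k₂) • b + (l₃ + s * k₃) • c +
      (l₄ + s * k₄) • d := by
    intro s
    have : x = x + s • (k₁ • a + k₂ • b + k₃ • c + k₄ • d) := by rw [h0, smul_zero, add_zero]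
    rw [this, hx]
    module
  have n₂ : 0 < -k₂ := neg_pos.mpr g₂
  have n₃ : 0 < -k₃ := neg_pos.mpr g₃
  rcases le_total (l₂ / -k₂) (l₃ / -k₃) with h | h
  · refine Or.inl fun S ha hc hd => ?_
    have hs : 0 ≤ l₂ / -k₂ := div_nonneg h₂ n₂.le
    have e : l₂ + l₂ / -k₂ * k₂ = 0 := by
      have := div_mul_cancel₀ l₂ n₂.ne'
      linarith
    have e' : l₂ / -k₂ * -k₃ ≤ l₃ := (le_div_iff₀ n₃).mp h
    rw [key (l₂ / -k₂), e, zero_smul, add_zero]
    generalize l₂ / -k₂ = s at hs e e' ⊢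
    refine tri_Slice ha hc hd (by positivity) (by linarith) (by positivity) ?_
    linear_combination hl + s * hk - e
  · refine Or.inr fun S ha hb hd => ?_
    have hs : 0 ≤ l₃ / -k₃ := div_nonneg h₃ n₃.le
    have e : l₃ + l₃ / -k₃ * k₃ = 0 := by
      have := div_mul_cancel₀ l₃ n₃.ne'
      linarith
    have e' : l₃ / -k₃ * -k₂ ≤ l₂ := (le_div_iff₀ n₂).mp h
    rw [key (l₃ / -k₃), e, zero_smul, add_zero]
    generalize l₃ / -k₃ = s at hs e e' ⊢
    refine tri_Slice ha hb hd (by positivity) (by linarith) (by positivity) ?_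
    linear_combination hl + s * hk - e

theorem four_Slice {S : Set E} {a b c d x : E} (hS : ∀ p ∈ S, p = a ∨ p = b ∨ p = c ∨ p = d)
    (hx : x ∈ convexHull ℝ S) : ∃ l₁ l₂ l₃ l₄ : ℝ, 0 ≤ l₁ ∧ 0 ≤ l₂ ∧ 0 ≤ l₃ ∧ 0 ≤ l₄ ∧
      l₁ + l₂ + l₃ + l₄ = 1 ∧ x = l₁ • a + l₂ • b + l₃ • c + l₄ • d := by
  refine convexHull_min (t := {x | ∃ l₁ l₂ l₃ l₄ : ℝ, 0 ≤ l₁ ∧ 0 ≤ l₂ ∧ 0 ≤ l₃ ∧ 0 ≤ l₄ ∧
      l₁ + l₂ + l₃ + l₄ = 1 ∧ x = l₁ • a + l₂ • b + l₃ • c + l₄ • d}) ?_ ?_ hx
  · intro p hp
    rcases hS p hp with rfl | rfl | rfl | rfl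
    · exact ⟨1, 0, 0, 0, by norm_num, by norm_num, by norm_num, by norm_num, by norm_num, by simp⟩
    · exact ⟨0, 1, 0, 0, by norm_num, by norm_num, by norm_num, by norm_num, by norm_num, by simp⟩
    · exact ⟨0, 0, 1, 0, by norm_num, by norm_num, by norm_num, by norm_num, by norm_num, by simp⟩
    · exact ⟨0, 0, 0, 1, by norm_num, by norm_num, by norm_num, by norm_num, by norm_num, by simp⟩
  · rintro _ ⟨l₁, l₂, l₃, l₄, h₁, h₂, h₃, h₄, hl, rfl⟩ _ ⟨m₁, m₂, m₃, m₄, g₁, g₂, g₃, g₄, hm, rfl⟩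
      s t hs ht hst
    refine ⟨s * l₁ + t * m₁, s * l₂ + t * m₂, s * l₃ + t * m₃, s * l₄ + t * m₄, by positivity,
      by positivity, by positivity, by positivity, ?_, by module⟩
    linear_combination s * hl + t * hm + hst

theorem sgn_Slice {k k' p q : ℝ} (hp : 0 < p) (hq : 0 < q) (h : k * p + k' * q = 0) (hk : 0 < k) :
    k' < 0 := by
  by_contra h'
  have := mul_nonneg (not_lt.mp h') hq.le
  have := mul_pos hk hp
  linarith

theorem dep_Slice [FiniteDimensional ℝ E] {V : Submodule ℝ E} (hV : finrank ℝ V ≤ 2)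
    {u v w : E} (hu : u ∈ V) (hv : v ∈ V) (hw : w ∈ V) :
    ∃ k₂ k₃ k₄ : ℝ, 0 ≤ k₄ ∧ ¬ (k₂ = 0 ∧ k₃ = 0 ∧ k₄ = 0) ∧ k₂ • u + k₃ • v + k₄ • w = 0 := by
  have h : ¬ LinearIndependent ℝ (![⟨u, hu⟩, ⟨v, hv⟩, ⟨w, hw⟩] : Fin 3 → V) := by
    intro h
    have := h.fintype_card_le_finrank
    rw [Fintype.card_fin] at this
    omega
  obtain ⟨g, hg, i, hi⟩ := Fintype.not_linearIndependent_iff.mp h
  rw [Fin.sum_univ_three] at hg
  have hg' : g 0 • u + g 1 • v + g 2 • w = 0 := congrArg Subtype.val hg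
  have hn : ¬ (g 0 = 0 ∧ g 1 = 0 ∧ g 2 = 0) := by
    rintro ⟨h0, h1, h2⟩
    fin_cases i
    · exact hi h0
    · exact hi h1
    · exact hi h2
  rcases le_total 0 (g 2) with h2 | h2
  · exact ⟨g 0, g 1, g 2, h2, hn, hg'⟩
  · refine ⟨-g 0, -g 1, -g 2, neg_nonneg.mpr h2, by simpa using hn, ?_⟩
    rw [neg_smul, neg_smul, neg_smul, ← neg_add, ← neg_add, hg', neg_zero]

end

theorem slice : SliceStmt := by
  intro E _ _ _ I s lo hi x V n
  classical
  induction s using Finset.induction_on generalizing V with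
  | empty =>
    intro hV u hu _ _ _
    exact ⟨V, u, by simpa using hV, hu, fun ε => subset_convexHull ℝ _ ⟨ε, fun _ _ => rfl, rfl⟩⟩
  | insert i s his ih =>
    intro hV u hu hx hf ht
    have hi0 := Finset.mem_insert_self i s
    obtain ⟨al, be, hal, hbe, hor, h0⟩ : ∃ al be : ℝ, 0 ≤ al ∧ 0 ≤ be ∧ (0 < al ∨ 0 < be) ∧
        al * lo i x + be * hi i x = 0 := by
      obtain ⟨h1, h2⟩ := hx i hi0
      rcases eq_or_lt_of_le h1 with h | h
      · exact ⟨1, 0, zero_le_one, le_rfl, Or.inl one_pos, by rw [← h]; ring⟩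
      · exact ⟨-hi i x, lo i x, neg_nonneg.mpr h2, h1, Or.inr h, by ring⟩
    obtain ⟨ψ, hψ⟩ : ∃ ψ : Af E, ∀ y, ψ y = al * lo i y + be * hi i y :=
      ⟨al • lo i + be • hi i, fun y => by simp⟩
    have hψx : ψ x = 0 := by rw [hψ, h0]
    have hlt : V ⊓ LinearMap.ker ψ.linear < V := by
      refine lt_of_le_of_ne inf_le_left fun h => ?_
      have hz : ∀ ε, ψ (u ε) = 0 := by
        intro ε
        have h1 : u ε - x ∈ V ⊓ LinearMap.ker ψ.linear := by rw [h]; exact hu ε
        have h2 := LinearMap.mem_ker.mp h1.2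
        rwa [lin_Slice, hψx, sub_zero] at h2
      rcases hor with h1 | h1
      · have h2 := ht i hi0 (fun _ => true) rfl
        have h3 := hz fun _ => true
        rw [hψ, h2.2] at h3
        have := mul_pos h1 h2.1
        linarith
      · have h2 := hf i hi0 (fun _ => false) rfl
        have h3 := hz fun _ => false
        rw [hψ, h2.1] at h3
        have := mul_neg_of_pos_of_neg h1 h2.2
        linarith
    have hV1 : finrank ℝ (V ⊓ LinearMap.ker ψ.linear : Submodule ℝ E) ≤ n + s.card := by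
      have := Submodule.finrank_lt_finrank_of_lt hlt
      rw [Finset.card_insert_of_notMem his] at hV
      omega
    have hex : ∀ ε : I → Bool, ∃ t : ℝ, 0 ≤ t ∧ t ≤ 1 ∧
        (1 - t) * ψ (u (Function.update ε i false)) + t * ψ (u (Function.update ε i true)) = 0 := by
      intro ε
      have h1 := hf i hi0 (Function.update ε i false) (Function.update_self ..)
      have h2 := ht i hi0 (Function.update ε i true) (Function.update_self ..)
      refine ivt_Slice ?_ ?_
      · rw [hψ, h1.1]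
        have := mul_nonneg hbe (neg_pos.mpr h1.2).le
        linarith
      · rw [hψ, h2.2]
        have := mul_nonneg hal h2.1.le
        linarith
    choose t t0 t1 tψ using hex
    have hne : ∀ j ∈ s, j ≠ i := fun j hj h => his (h ▸ hj)
    obtain ⟨V', w, hV', hw, hc⟩ := ih (V ⊓ LinearMap.ker ψ.linear) hV1
      (fun ε => (1 - t ε) • u (Function.update ε i false) + t ε • u (Function.update ε i true))
      (fun ε => by
        refine ⟨?_, ?_⟩
        · have e : (1 - t ε) • u (Function.update ε i false) + t ε • u (Function.update ε i true)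
              - x = (1 - t ε) • (u (Function.update ε i false) - x) +
                t ε • (u (Function.update ε i true) - x) := by module
          rw [e]
          exact V.add_mem (V.smul_mem _ (hu _)) (V.smul_mem _ (hu _))
        · refine LinearMap.mem_ker.mpr ?_
          rw [lin_Slice, comb_Slice, tψ, hψx, sub_zero])
      (fun j hj => hx j (Finset.mem_insert_of_mem hj))
      (fun j hj ε hε => by
        have h1 := hf j (Finset.mem_insert_of_mem hj) (Function.update ε i false)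
          (by rw [Function.update_of_ne (hne j hj), hε])
        have h2 := hf j (Finset.mem_insert_of_mem hj) (Function.update ε i true)
          (by rw [Function.update_of_ne (hne j hj), hε])
        rw [comb_Slice, comb_Slice, h1.1, h2.1]
        exact ⟨by ring, neg_Slice h1.2 h2.2 (t0 ε) (t1 ε)⟩)
      (fun j hj ε hε => by
        have h1 := ht j (Finset.mem_insert_of_mem hj) (Function.update ε i false)
          (by rw [Function.update_of_ne (hne j hj), hε])
        have h2 := ht j (Finset.mem_insert_of_mem hj) (Function.update ε i true)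
          (by rw [Function.update_of_ne (hne j hj), hε])
        rw [comb_Slice, comb_Slice, h1.2, h2.2]
        exact ⟨pos_Slice h1.1 h2.1 (t0 ε) (t1 ε), by ring⟩)
    refine ⟨V', w, hV', hw, fun ε => convexHull_min ?_ (convex_convexHull ℝ _) (hc ε)⟩
    rintro _ ⟨ε', hε', rfl⟩
    have hm : ∀ b : Bool, u (Function.update ε' i b) ∈ convexHull ℝ
        {p | ∃ ε'' : I → Bool, (∀ j, j ∉ insert i s → ε'' j = ε j) ∧ p = u ε''} := by
      intro b
      refine subset_convexHull ℝ _ ⟨Function.update ε' i b, fun j hj => ?_, rfl⟩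
      rw [Finset.mem_insert, not_or] at hj
      rw [Function.update_of_ne hj.1, hε' j hj.2]
    exact convex_convexHull ℝ _ (hm false) (hm true) (sub_nonneg.mpr (t1 ε')) (t0 ε') (by ring)

theorem quad : QuadStmt := by
  intro E _ _ _ x V hV w hw la ha lb hb la0 ha0 lb0 hb0 hF hT hF' hT'
  obtain ⟨V', w', hV', hw', hc⟩ := slice E Bool Finset.univ (fun i => bif i then lb else la)
    (fun i => bif i then hb else ha) x V 0 (by simpa using hV) (fun ε => w (ε false) (ε true))
    (fun ε => hw _ _)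
    (by
      rintro (_ | _) -
      · exact ⟨la0, ha0⟩
      · exact ⟨lb0, hb0⟩)
    (by
      rintro (_ | _) - ε hε
      · simp only [hε]; exact hF _
      · simp only [hε]; exact hF' _)
    (by
      rintro (_ | _) - ε hε
      · simp only [hε]; exact hT _
      · simp only [hε]; exact hT' _)
  have hbot : V' = ⊥ := Submodule.finrank_eq_zero.mp (Nat.le_zero.mp hV')
  have hx : w' (fun _ => false) = x := by
    have := hw' fun _ => false
    rwa [hbot, Submodule.mem_bot, sub_eq_zero] at this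
  have hc' := hc fun _ => false
  rw [hx] at hc'
  obtain ⟨l₁, l₂, l₃, l₄, h₁, h₂, h₃, h₄, hl, hxl⟩ := four_Slice (a := w false false)
    (b := w true false) (c := w false true) (d := w true true) (by
      rintro _ ⟨ε, -, rfl⟩
      cases ε false <;> cases ε true <;> simp) hc'
  have hd : ∀ a b, w a b - w false false ∈ V := fun a b => by
    have := V.sub_mem (hw a b) (hw false false)
    rwa [sub_sub_sub_cancel_right] at this
  obtain ⟨k₂, k₃, k₄, g₄, hk, h0⟩ := dep_Slice hV (hd true false) (hd false true) (hd true true)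
  have hg : ∀ g : Af E, -(k₂ + k₃ + k₄) * g (w false false) + k₂ * g (w true false) +
      k₃ * g (w false true) + k₄ * g (w true true) = 0 := by
    intro g
    have := congrArg g.linear h0
    rw [map_add, map_add, map_smul, map_smul, map_smul, lin_Slice, lin_Slice, lin_Slice,
      map_zero] at this
    simp only [smul_eq_mul] at this
    linear_combination this
  have e1 := hg la
  have e2 := hg lb
  have e3 := hg hb
  rw [(hF false).1, (hF true).1] at e1
  rw [(hF' false).1, (hF' true).1] at e2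
  rw [(hT' false).2, (hT' true).2] at e3
  have g₄' : 0 < k₄ := by
    refine lt_of_le_of_ne g₄ fun h => hk ⟨?_, ?_, h.symm⟩
    · rw [← h] at e1
      exact (mul_eq_zero.mp (show k₂ * la (w true false) = 0 by linarith)).resolve_right
        (hT false).1.ne'
    · rw [← h] at e2
      exact (mul_eq_zero.mp (show k₃ * lb (w false true) = 0 by linarith)).resolve_right
        (hT' false).1.ne'
  have g₂ : k₂ < 0 := sgn_Slice (hT true).1 (hT false).1 (by linarith) g₄'
  have g₃ : k₃ < 0 := sgn_Slice (hT' true).1 (hT' false).1 (by linarith) g₄'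
  have g₁ : - -(k₂ + k₃ + k₄) < 0 := sgn_Slice (neg_pos.mpr (hF' true).2)
    (neg_pos.mpr (hF' false).2) (by linarith) (neg_pos.mpr g₂)
  have h0' : -(k₂ + k₃ + k₄) • w false false + k₂ • w true false + k₃ • w false true +
      k₄ • w true true = 0 := by
    rw [← h0]; module
  constructor
  · rcases drop_Slice h₁ h₂ h₃ h₄ hl hxl (by linarith) g₂ g₃ g₄ (by ring) h0' with h | h
    · exact ⟨true, h _ ⟨false, false, by simp, rfl⟩ ⟨false, true, by simp, rfl⟩
        ⟨true, true, by simp, rfl⟩⟩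
    · exact ⟨false, h _ ⟨false, false, by simp, rfl⟩ ⟨true, false, by simp, rfl⟩
        ⟨true, true, by simp, rfl⟩⟩
  · rcases drop_Slice (a := w true false) (b := w false false) (c := w true true)
      (d := w false true) (k₁ := -k₂) (k₂ := - -(k₂ + k₃ + k₄)) (k₃ := -k₄) (k₄ := -k₃)
      h₂ h₁ h₄ h₃ (by linarith) (x := x) (by rw [hxl]; module) (by linarith) g₁ (by linarith)
      (by linarith) (by ring) (by rw [← neg_eq_zero, ← h0']; module) with h | h
    · exact ⟨false, h _ ⟨true, false, by simp, rfl⟩ ⟨true, true, by simp, rfl⟩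
        ⟨false, true, by simp, rfl⟩⟩
    · exact ⟨true, h _ ⟨true, false, by simp, rfl⟩ ⟨false, false, by simp, rfl⟩
        ⟨false, true, by simp, rfl⟩⟩

end Pool.Agent.MP_a2955b_co.Up

end

section

set_option autoImplicit false

namespace Pool.Agent.MP_a2955b_co.Up

open Set Module

section aux

variable {E : Type} [NormedAddCommGroup E] [NormedSpace ℝ E]

theorem aff_eq_KillA (f : Af E) (x : E) : f x = f.linear x + f 0 := by
  have := f.map_vadd (0 : E) x
  simpa using this

theorem aff_sum_KillA {ι : Type} [Fintype ι] (f : Af E) (lam : ι → ℝ) (u : ι → E)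
    (hs : ∑ i, lam i = 1) : f (∑ i, lam i • u i) = ∑ i, lam i * f (u i) := by
  rw [aff_eq_KillA f, map_sum]
  have h1 : ∀ i, lam i * f (u i) = f.linear (lam i • u i) + lam i * f 0 := by
    intro i
    rw [aff_eq_KillA f (u i), map_smul, smul_eq_mul, mul_add]
  simp only [h1, Finset.sum_add_distrib, ← Finset.sum_mul, hs, one_mul]

theorem face_KillA (T : Set E) (f g1 g2 : Af E) (σ : ℝ)
    (hT : ∀ q ∈ T, 0 < σ * f q ∨ (f q = 0 ∧ g1 q ≤ g2 q)) (p : E)
    (hp : p ∈ convexHull ℝ T) (hf : f p = 0) : g1 p ≤ g2 p := by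
  have hK : Convex ℝ {q : E | 0 < σ * f q ∨ (f q = 0 ∧ g1 q ≤ g2 q)} := by
    intro x hx y hy a b ha hb hab
    have e1 : f (a • x + b • y) = a * f x + b * f y := by
      rw [Convex.combo_affine_apply hab]; simp
    have e2 : g1 (a • x + b • y) = a * g1 x + b * g1 y := by
      rw [Convex.combo_affine_apply hab]; simp
    have e3 : g2 (a • x + b • y) = a * g2 x + b * g2 y := by
      rw [Convex.combo_affine_apply hab]; simp
    simp only [mem_ofPred_eq] at hx hy ⊢
    rw [e1, e2, e3]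
    rcases hx with hx | ⟨hx, hx'⟩ <;> rcases hy with hy | ⟨hy, hy'⟩
    · left
      have h1 : σ * (a * f x + b * f y) = a * (σ * f x) + b * (σ * f y) := by ring
      rw [h1]
      rcases ha.eq_or_lt with h | h
      · have hb1 : b = 1 := by linarith
        rw [← h, hb1]; linarith
      · have := mul_pos h hx
        have := mul_nonneg hb hy.le
        linarith
    · rcases ha.eq_or_lt with h | h
      · have hb1 : b = 1 := by linarith
        right
        rw [← h, hb1]
        constructor <;> linarith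
      · left
        have h1 : σ * (a * f x + b * f y) = a * (σ * f x) := by rw [hy]; ring
        rw [h1]
        exact mul_pos h hx
    · rcases hb.eq_or_lt with h | h
      · have ha1 : a = 1 := by linarith
        right
        rw [← h, ha1]
        constructor <;> linarith
      · left
        have h1 : σ * (a * f x + b * f y) = b * (σ * f y) := by rw [hx]; ring
        rw [h1]
        exact mul_pos h hy
    · right
      refine ⟨by rw [hx, hy]; ring, ?_⟩
      have := mul_le_mul_of_nonneg_left hx' ha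
      have := mul_le_mul_of_nonneg_left hy' hb
      linarith
  have h := convexHull_min (s := T)
    (t := {q : E | 0 < σ * f q ∨ (f q = 0 ∧ g1 q ≤ g2 q)}) (fun q hq => hT q hq) hK hp
  rcases h with h | h
  · rw [hf] at h; simp at h
  · exact h.2

theorem weights_KillA {n : ℕ} (v : (Fin (n + 3) → Fin 3) → E) (hb : Fin 3 → Af E) (α β : Bool)
    (w : E × ℝ) (hw : w ∈ convexHull ℝ (Lf v hb α β)) :
    ∃ lam : (Fin (n + 3) → Bool) → ℝ, (∀ ε, 0 ≤ lam ε) ∧ ∑ ε, lam ε = 1 ∧
      (∀ ε, ε 0 = α → ε 1 = β → lam ε = 0) ∧ w.1 = ∑ ε, lam ε • v (cj ε) ∧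
      w.2 = ∑ ε, lam ε * hb (cj ε 1) (v (cj ε)) := by
  classical
  have hK : Convex ℝ {w : E × ℝ | ∃ lam : (Fin (n + 3) → Bool) → ℝ, (∀ ε, 0 ≤ lam ε) ∧
      ∑ ε, lam ε = 1 ∧ (∀ ε, ε 0 = α → ε 1 = β → lam ε = 0) ∧ w.1 = ∑ ε, lam ε • v (cj ε) ∧
      w.2 = ∑ ε, lam ε * hb (cj ε 1) (v (cj ε))} := by
    rintro x ⟨l1, h1, h2, h3, h4, h5⟩ y ⟨m1, k1, k2, k3, k4, k5⟩ a b ha hb' hab
    refine ⟨fun ε => a * l1 ε + b * m1 ε, fun ε => ?_, ?_, fun ε e0 e1 => ?_, ?_, ?_⟩
    · have := mul_nonneg ha (h1 ε)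
      have := mul_nonneg hb' (k1 ε)
      linarith
    · rw [Finset.sum_add_distrib, ← Finset.mul_sum, ← Finset.mul_sum, h2, k2]; linarith
    · beta_reduce
      rw [h3 ε e0 e1, k3 ε e0 e1]; ring
    · simp only [Prod.fst_add, Prod.smul_fst, h4, k4, add_smul, Finset.sum_add_distrib,
        Finset.smul_sum, mul_smul]
    · simp only [Prod.snd_add, Prod.smul_snd, h5, k5, add_mul, Finset.sum_add_distrib,
        smul_eq_mul, Finset.mul_sum, mul_assoc]
  refine convexHull_min ?_ hK hw
  rintro z ⟨ε, hε, rfl⟩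
  refine ⟨fun ε' => if ε' = ε then 1 else 0, fun ε' => ?_, ?_, fun ε' e0 e1 => ?_, ?_, ?_⟩
  · beta_reduce
    split_ifs <;> norm_num
  · simp
  · beta_reduce
    rw [if_neg]
    rintro rfl
    exact hε ⟨e0, e1⟩
  · simp
  · simp

theorem point_KillA (hS : SliceStmt) [FiniteDimensional ℝ E] {n : ℕ} (hE : finrank ℝ E = n + 3)
    (φ h : Fin (n + 3) → Fin 3 → Af E) (v : (Fin (n + 3) → Fin 3) → E) (hG : Grid φ h v)
    (b : Bool) (p : E) (ha : φ 0 1 p = 0) (hc : φ 1 (if b then 2 else 0) p = 0)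
    (hlo : ∀ i, 0 ≤ φ i 0 p) (hhi : ∀ i, φ i 2 p ≤ 0) :
    h 0 1 p ≤ h 1 (if b then 2 else 0) p := by
  classical
  have hker : finrank ℝ (LinearMap.ker (φ 0 1).linear) ≤
      0 + ((Finset.univ : Finset (Fin (n + 3))).erase 0).card := by
    have hne : LinearMap.ker (φ 0 1).linear ≠ ⊤ := by
      intro htop
      have h0 : (φ 0 1).linear = 0 := LinearMap.ker_eq_top.mp htop
      have h1 := hG.pos (fun _ => 2) 0 1 (by decide)
      have h2 := hG.neg (fun _ => 0) 0 1 (by decide)
      rw [aff_eq_KillA, h0] at h1 h2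
      simp only [LinearMap.zero_apply, zero_add] at h1 h2
      linarith
    have := Submodule.finrank_lt hne
    rw [Finset.card_erase_of_mem (Finset.mem_univ _), Finset.card_univ, Fintype.card_fin]
    omega
  have hup : ∀ (ε : Fin (n + 3) → Bool) (i : Fin (n + 3)), i ≠ 0 →
      Function.update (cj ε) 0 (1 : Fin 3) i = if ε i then 2 else 0 := by
    intro ε i hi
    rw [Function.update_of_ne hi]
    rfl
  have hup0 : ∀ (ε : Fin (n + 3) → Bool), Function.update (cj ε) 0 (1 : Fin 3) 0 = 1 := by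
    intro ε
    rw [Function.update_self]
  obtain ⟨V', w, hV', hw, hw'⟩ := hS E (Fin (n + 3)) (Finset.univ.erase 0) (fun i => φ i 0)
    (fun i => φ i 2) p (LinearMap.ker (φ 0 1).linear) 0 hker
    (fun ε => v (Function.update (cj ε) 0 1))
    (by
      intro ε
      rw [LinearMap.mem_ker, map_sub]
      have h1 := hG.zero (Function.update (cj ε) 0 1) 0
      rw [hup0] at h1
      rw [aff_eq_KillA] at h1 ha
      linarith)
    (fun i _ => ⟨hlo i, hhi i⟩)
    (by
      intro i hi ε hε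
      have hi0 : i ≠ 0 := (Finset.mem_erase.mp hi).1
      have e : Function.update (cj ε) 0 (1 : Fin 3) i = 0 := by rw [hup ε i hi0, hε]; rfl
      constructor
      · have h1 := hG.zero (Function.update (cj ε) 0 1) i
        rw [e] at h1
        exact h1
      · exact hG.neg _ i 2 (by rw [e]; decide))
    (by
      intro i hi ε hε
      have hi0 : i ≠ 0 := (Finset.mem_erase.mp hi).1
      have e : Function.update (cj ε) 0 (1 : Fin 3) i = 2 := by rw [hup ε i hi0, hε]; rfl
      constructor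
      · exact hG.pos _ i 0 (by rw [e]; decide)
      · have h1 := hG.zero (Function.update (cj ε) 0 1) i
        rw [e] at h1
        exact h1)
  have hbot : V' = ⊥ := Submodule.finrank_eq_zero.mp (Nat.le_zero.mp hV')
  have hwp : w (fun _ => false) = p := by
    have := hw (fun _ => false)
    rw [hbot, Submodule.mem_bot, sub_eq_zero] at this
    exact this
  have hp := hw' (fun _ => false)
  rw [hwp] at hp
  have h10 : (1 : Fin (n + 3)) ≠ 0 := by
    intro h
    have := congrArg Fin.val h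
    simp at this
  refine face_KillA _ (φ 1 (if b then 2 else 0)) (h 0 1) (h 1 (if b then 2 else 0))
    (if b then -1 else 1) ?_ p hp hc
  rintro q ⟨ε, -, rfl⟩
  have e := hup ε 1 h10
  by_cases hb : ε 1 = b
  · right
    rw [hb] at e
    have h1 := hG.zero (Function.update (cj ε) 0 1) 1
    have h2 := hG.ab (Function.update (cj ε) 0 1)
    rw [e] at h1
    rw [e, hup0] at h2
    exact ⟨h1, h2⟩
  · left
    cases b with
    | false =>
      have hε : ε 1 = true := by simpa using hb
      rw [hε] at e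
      have h1 := hG.pos (Function.update (cj ε) 0 1) 1 0 (by rw [e]; decide)
      simpa using h1
    | true =>
      have hε : ε 1 = false := by simpa using hb
      rw [hε] at e
      have h1 := hG.neg (Function.update (cj ε) 0 1) 1 2 (by rw [e]; decide)
      simpa using h1

theorem claim_KillA (hS : SliceStmt) [FiniteDimensional ℝ E] {n : ℕ} (hE : finrank ℝ E = n + 3)
    (φ h : Fin (n + 3) → Fin 3 → Af E) (v : (Fin (n + 3) → Fin 3) → E) (hG : Grid φ h v)
    (b : Bool) (ν : (Fin (n + 3) → Bool) → ℝ) (hν : ∀ ε, 0 ≤ ν ε)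
    (hsupp : ∀ ε, ε 1 ≠ b → ν ε = 0) (ha : ∑ ε, ν ε * φ 0 1 (v (cj ε)) = 0) :
    ∑ ε, ν ε * h 0 1 (v (cj ε)) ≤ ∑ ε, ν ε * h 1 (cj ε 1) (v (cj ε)) := by
  classical
  have hW : 0 ≤ ∑ ε, ν ε := Finset.sum_nonneg (fun ε _ => hν ε)
  rcases hW.eq_or_lt with hW0 | hWp
  · have h0 : ∀ ε, ν ε = 0 := by
      intro ε
      exact (Finset.sum_eq_zero_iff_of_nonneg (fun ε _ => hν ε)).mp hW0.symm ε
        (Finset.mem_univ _)
    simp [h0]
  · obtain ⟨W, hWe⟩ : ∃ W, W = ∑ ε, ν ε := ⟨_, rfl⟩
    rw [← hWe] at hWp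
    have hs : ∑ ε, ν ε / W = 1 := by
      rw [← Finset.sum_div, ← hWe, div_self hWp.ne']
    have hval : ∀ f : Af E, f (∑ ε, (ν ε / W) • v (cj ε)) = (∑ ε, ν ε * f (v (cj ε))) / W := by
      intro f
      rw [aff_sum_KillA f (fun ε => ν ε / W) (fun ε => v (cj ε)) hs, Finset.sum_div]
      refine Finset.sum_congr rfl (fun ε _ => ?_)
      ring
    have hcj : ∀ ε : Fin (n + 3) → Bool, ε 1 = b → cj ε 1 = if b then 2 else 0 := by
      intro ε hε
      unfold cj
      rw [hε]
    have key := point_KillA hS hE φ h v hG b (∑ ε, (ν ε / W) • v (cj ε))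
      (by rw [hval, ha, zero_div])
      (by
        rw [hval]
        have : ∑ ε, ν ε * φ 1 (if b then 2 else 0) (v (cj ε)) = 0 := by
          refine Finset.sum_eq_zero (fun ε _ => ?_)
          by_cases hε : ε 1 = b
          · rw [← hcj ε hε, hG.zero, mul_zero]
          · rw [hsupp ε hε, zero_mul]
        rw [this, zero_div])
      (by
        intro i
        rw [hval]
        refine div_nonneg (Finset.sum_nonneg (fun ε _ => mul_nonneg (hν ε) ?_)) hWp.le
        by_cases hε : ε i = true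
        · exact (hG.pos (cj ε) i 0 (by unfold cj; rw [hε]; decide)).le
        · have e : cj ε i = 0 := by unfold cj; rw [if_neg hε]
          have h1 := hG.zero (cj ε) i
          rw [e] at h1
          exact h1.ge)
      (by
        intro i
        rw [hval]
        refine div_nonpos_of_nonpos_of_nonneg
          (Finset.sum_nonpos (fun ε _ => mul_nonpos_of_nonneg_of_nonpos (hν ε) ?_)) hWp.le
        by_cases hε : ε i = true
        · have e : cj ε i = 2 := by unfold cj; rw [if_pos hε]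
          have h1 := hG.zero (cj ε) i
          rw [e] at h1
          exact h1.le
        · exact (hG.neg (cj ε) i 2 (by unfold cj; rw [if_neg hε]; decide)).le)
    rw [hval, hval, div_le_div_iff_of_pos_right hWp] at key
    refine key.trans (le_of_eq (Finset.sum_congr rfl (fun ε _ => ?_)))
    by_cases hε : ε 1 = b
    · rw [hcj ε hε]
    · rw [hsupp ε hε, zero_mul, zero_mul]

/-- The part of a weight vector with second sign `b`. -/
noncomputable def half_KillA {n : ℕ} (b : Bool) (ν : (Fin (n + 3) → Bool) → ℝ) :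
    (Fin (n + 3) → Bool) → ℝ := fun ε => if ε 1 = b then ν ε else 0

theorem half_sum_KillA {n : ℕ} (ν F : (Fin (n + 3) → Bool) → ℝ) :
    ∑ ε, ν ε * F ε = ∑ ε, half_KillA false ν ε * F ε + ∑ ε, half_KillA true ν ε * F ε := by
  rw [← Finset.sum_add_distrib]
  refine Finset.sum_congr rfl (fun ε _ => ?_)
  unfold half_KillA
  cases ε 1 <;> simp

theorem half_sign_KillA {n : ℕ} (φ h : Fin (n + 3) → Fin 3 → Af E)
    (v : (Fin (n + 3) → Fin 3) → E) (hG : Grid φ h v) (α β : Bool)
    (ν : (Fin (n + 3) → Bool) → ℝ) (hν : ∀ ε, 0 ≤ ν ε)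
    (h0 : ∀ ε, ε 0 = α → ε 1 = β → ν ε = 0) :
    (α = true → ∑ ε, half_KillA β ν ε * φ 0 1 (v (cj ε)) ≤ 0) ∧
    (α = false → 0 ≤ ∑ ε, half_KillA β ν ε * φ 0 1 (v (cj ε))) := by
  constructor
  · intro hα
    refine Finset.sum_nonpos (fun ε _ => ?_)
    unfold half_KillA
    by_cases h1 : ε 1 = β
    · rw [if_pos h1]
      by_cases h2 : ε 0 = α
      · rw [h0 ε h2 h1, zero_mul]
      · refine mul_nonpos_of_nonneg_of_nonpos (hν ε) (hG.neg (cj ε) 0 1 ?_).le
        unfold cj
        rw [if_neg (by rw [← hα]; exact h2)]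
        decide
    · rw [if_neg h1, zero_mul]
  · intro hα
    refine Finset.sum_nonneg (fun ε _ => ?_)
    unfold half_KillA
    by_cases h1 : ε 1 = β
    · rw [if_pos h1]
      by_cases h2 : ε 0 = α
      · rw [h0 ε h2 h1, zero_mul]
      · refine mul_nonneg (hν ε) (hG.pos (cj ε) 0 1 ?_).le
        unfold cj
        have h3 : ε 0 = true := by
          rw [hα] at h2
          simpa using h2
        rw [if_pos h3]
        decide
    · rw [if_neg h1, zero_mul]

end aux

theorem killA_of (hS : SliceStmt) : KillAStmt := by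
  intro E _ _ _ n hE φ h v hG y z hy hz α β hA hB
  obtain ⟨w1, hw1, hy1, hz1⟩ := hA
  obtain ⟨w2, hw2, hy2, hz2⟩ := hB
  obtain ⟨l, l0, l1, l2, l3, l4⟩ := weights_KillA v (h 1) α (!α) w1 hw1
  obtain ⟨m, m0, m1, m2, m3, m4⟩ := weights_KillA v (h 1) β β w2 hw2
  have yl : y = ∑ ε, l ε • v (cj ε) := by rw [← l3]; exact hy1.symm
  have ym : y = ∑ ε, m ε • v (cj ε) := by rw [← m3]; exact hy2.symm
  have zl : ∑ ε, l ε * h 1 (cj ε 1) (v (cj ε)) ≤ z := by rw [← l4]; exact hz1
  have zm : ∑ ε, m ε * h 1 (cj ε 1) (v (cj ε)) ≤ z := by rw [← m4]; exact hz2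
  have fl' : ∀ f : Af E, f y = ∑ ε, l ε * f (v (cj ε)) := by
    intro f
    rw [yl]
    exact aff_sum_KillA f l (fun ε => v (cj ε)) l1
  have fm' : ∀ f : Af E, f y = ∑ ε, m ε * f (v (cj ε)) := by
    intro f
    rw [ym]
    exact aff_sum_KillA f m (fun ε => v (cj ε)) m1
  have al := fl' (φ 0 1)
  have am := fm' (φ 0 1)
  rw [hy, half_sum_KillA] at al am
  have Sl : ∑ ε, half_KillA false l ε * φ 0 1 (v (cj ε)) ≤ 0 := by
    have := half_sign_KillA φ h v hG α (!α) l l0 l2
    cases α with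
    | false =>
      have h1 := this.2 rfl
      simp only [Bool.not_false] at h1
      linarith
    | true =>
      have h1 := this.1 rfl
      simpa only [Bool.not_true] using h1
  have Sm : 0 ≤ ∑ ε, half_KillA false m ε * φ 0 1 (v (cj ε)) := by
    have := half_sign_KillA φ h v hG β β m m0 m2
    cases β with
    | false => exact this.2 rfl
    | true =>
      have h1 := this.1 rfl
      linarith
  obtain ⟨s, hs0, hs1, hs⟩ : ∃ s : ℝ, 0 ≤ s ∧ s ≤ 1 ∧
      s * ∑ ε, half_KillA false l ε * φ 0 1 (v (cj ε)) +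
        (1 - s) * ∑ ε, half_KillA false m ε * φ 0 1 (v (cj ε)) = 0 := by
    generalize ∑ ε, half_KillA false l ε * φ 0 1 (v (cj ε)) = A at Sl
    generalize ∑ ε, half_KillA false m ε * φ 0 1 (v (cj ε)) = B at Sm
    rcases Sm.eq_or_lt with hB | hB
    · exact ⟨0, le_refl _, zero_le_one, by rw [← hB]; ring⟩
    · have hBA : 0 < B - A := by linarith
      refine ⟨B / (B - A), div_nonneg hB.le hBA.le, ?_, ?_⟩
      · rw [div_le_one hBA]; linarith
      · field_simp
        ring
  have hmix : ∀ (b : Bool) (F : (Fin (n + 3) → Bool) → ℝ),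
      ∑ ε, half_KillA b (fun ε => s * l ε + (1 - s) * m ε) ε * F ε =
        s * ∑ ε, half_KillA b l ε * F ε + (1 - s) * ∑ ε, half_KillA b m ε * F ε := by
    intro b F
    rw [Finset.mul_sum, Finset.mul_sum, ← Finset.sum_add_distrib]
    refine Finset.sum_congr rfl (fun ε _ => ?_)
    unfold half_KillA
    split_ifs <;> ring
  have hpos : ∀ (b : Bool) ε, 0 ≤ half_KillA b (fun ε => s * l ε + (1 - s) * m ε) ε := by
    intro b ε
    unfold half_KillA
    split_ifs
    · have := mul_nonneg hs0 (l0 ε)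
      have := mul_nonneg (sub_nonneg.mpr hs1) (m0 ε)
      linarith
    · exact le_refl _
  have hsupp : ∀ (b : Bool) ε, ε 1 ≠ b →
      half_KillA b (fun ε => s * l ε + (1 - s) * m ε) ε = 0 := by
    intro b ε hε
    unfold half_KillA
    rw [if_neg hε]
  have c0 := claim_KillA hS hE φ h v hG false _ (hpos false) (hsupp false)
    (by rw [hmix]; exact hs)
  have c1 := claim_KillA hS hE φ h v hG true _ (hpos true) (hsupp true)
    (by
      rw [hmix]
      have e1 : ∑ ε, half_KillA true l ε * φ 0 1 (v (cj ε)) =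
        - ∑ ε, half_KillA false l ε * φ 0 1 (v (cj ε)) := by linarith
      have e2 : ∑ ε, half_KillA true m ε * φ 0 1 (v (cj ε)) =
        - ∑ ε, half_KillA false m ε * φ 0 1 (v (cj ε)) := by linarith
      rw [e1, e2]
      linarith)
  rw [hmix, hmix] at c0 c1
  have bl := fl' (h 0 1)
  have bm := fm' (h 0 1)
  rw [half_sum_KillA] at bl bm zl zm
  have t1 := mul_le_mul_of_nonneg_left zl hs0
  have t2 := mul_le_mul_of_nonneg_left zm (sub_nonneg.mpr hs1)
  have t3 : h 0 1 y = s * h 0 1 y + (1 - s) * h 0 1 y := by ring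
  have t4 : s * h 0 1 y = s * (∑ ε, half_KillA false l ε * h 0 1 (v (cj ε)) +
      ∑ ε, half_KillA true l ε * h 0 1 (v (cj ε))) := by rw [← bl]
  have t5 : (1 - s) * h 0 1 y = (1 - s) * (∑ ε, half_KillA false m ε * h 0 1 (v (cj ε)) +
      ∑ ε, half_KillA true m ε * h 0 1 (v (cj ε))) := by rw [← bm]
  nlinarith

end Pool.Agent.MP_a2955b_co.Up

end

section

set_option autoImplicit false

namespace Pool.Agent.MP_a2955b_co.Up

open Set Module

section aux

variable {X : Type} [NormedAddCommGroup X] [NormedSpace ℝ X]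

theorem map_comb_Face {ι : Type} [Fintype ι] (ψ : Af X) (w : ι → ℝ) (z : ι → X)
    (hw : ∑ i, w i = 1) : ψ (∑ i, w i • z i) = ∑ i, w i * ψ (z i) := by
  have h1 : ∀ x, ψ x = ψ.linear x + ψ 0 := by
    intro x
    have := ψ.map_vadd (0 : X) x
    simpa using this
  rw [h1, map_sum]
  have h2 : ∑ i, w i * ψ (z i) = ∑ i, (w i * ψ.linear (z i) + w i * ψ 0) := by
    refine Finset.sum_congr rfl fun i _ => ?_
    rw [h1 (z i)]; ring
  rw [h2, Finset.sum_add_distrib, ← Finset.sum_mul, hw, one_mul]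
  simp

theorem zero_hull_Face (ψ : Af X) (S : Set X) (hS : ∀ x ∈ S, ψ x = 0) :
    ∀ x ∈ affineSpan ℝ S, ψ x = 0 := by
  intro x hx
  have h : affineSpan ℝ S ≤ (AffineSubspace.mk' (0 : ℝ) ⊥).comap ψ := by
    rw [affineSpan_le]
    intro y hy
    simp [AffineSubspace.mem_mk', hS y hy]
  have := h hx
  simpa [AffineSubspace.mem_comap, AffineSubspace.mem_mk'] using this

theorem mem_hull_Face {ι : Type} [Fintype ι] (b : AffineBasis ι ℝ X) (S : Set X) (y : X)
    (h0 : ∀ i, 0 ≤ b.coord i y) (h1 : ∀ i, b.coord i y ≠ 0 → b i ∈ S) :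
    y ∈ convexHull ℝ S := by
  classical
  have hy : y = ∑ i ∈ Finset.univ.filter (fun i => b.coord i y ≠ 0), b.coord i y • b i := by
    rw [Finset.sum_filter_of_ne]
    · exact (b.linear_combination_coord_eq_self y).symm
    · intro i _ hi hc
      exact hi (by rw [hc, zero_smul])
  rw [hy]
  refine (convex_convexHull ℝ S).sum_mem (fun i _ => h0 i) ?_ ?_
  · rw [Finset.sum_filter_of_ne]
    · exact b.sum_coord_apply_eq_one y
    · intro i _ hi
      exact hi
  · intro i hi
    exact subset_convexHull ℝ S (h1 i (Finset.mem_filter.1 hi).2)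

theorem local_Face [FiniteDimensional ℝ X] (D : ℕ) (hD : finrank ℝ X = D + 1) (V : Finset X)
    (ψ : Af X) (q : X) (hq : ψ q ≠ 0) (hV : ∀ x ∈ V, ψ x = 0) (x : X)
    (hx : x ∈ convexHull ℝ (V : Set X))
    (hT : ∀ T : Finset X, T ⊆ V → T.card ≤ D → x ∉ convexHull ℝ (T : Set X)) :
    ∃ U : Set X, IsOpen U ∧ x ∈ U ∧ ∀ y ∈ U, ψ y = 0 → y ∈ convexHull ℝ (V : Set X) := by
  classical
  rw [convexHull_eq_union] at hx
  simp only [mem_iUnion] at hx
  obtain ⟨T, hTV, hind, hxT⟩ := hx
  have hTV' : T ⊆ V := by exact_mod_cast hTV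
  have hcard : D < T.card := by
    by_contra h
    exact hT T hTV' (not_lt.1 h) hxT
  let p : Option T → X := fun o => o.elim q (fun t => (t : X))
  have hp : AffineIndependent ℝ p := by
    rw [affineIndependent_iff]
    intro s w hw hs
    let w' : Option T → ℝ := fun o => if o ∈ s then w o else 0
    have hw' : ∑ o, w' o = 0 := by
      simp only [w']
      rw [← Finset.sum_filter]
      simpa using hw
    have hs' : ∑ o, w' o • p o = 0 := by
      simp only [w', ite_smul, zero_smul]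
      rw [← Finset.sum_filter]
      simpa using hs
    have hlin : ∀ z, ψ z = ψ.linear z + ψ 0 := by
      intro z
      have := ψ.map_vadd (0 : X) z
      simpa using this
    have hq0 : w' none = 0 := by
      have h1 : ∑ o, w' o * ψ (p o) = 0 := by
        have h2 : ∑ o, w' o * ψ (p o) = ψ.linear (∑ o, w' o • p o) + (∑ o, w' o) * ψ 0 := by
          rw [map_sum, Finset.sum_mul, ← Finset.sum_add_distrib]
          refine Finset.sum_congr rfl fun o _ => ?_
          rw [hlin (p o)]; simp; ring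
        rw [h2, hs', hw']; simp
      rw [Fintype.sum_option] at h1
      have h3 : ∑ t : T, w' (some t) * ψ (p (some t)) = 0 := by
        refine Finset.sum_eq_zero fun t _ => ?_
        have : ψ (p (some t)) = 0 := hV _ (hTV' t.2)
        rw [this, mul_zero]
      rw [h3, add_zero] at h1
      exact (mul_eq_zero.1 h1).resolve_right hq
    have hall : ∀ t : T, w' (some t) = 0 := by
      rw [Fintype.sum_option, hq0, zero_add] at hw'
      rw [Fintype.sum_option, hq0, zero_smul, zero_add] at hs'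
      intro t
      exact affineIndependent_iff.1 hind Finset.univ (fun t => w' (some t)) hw' hs' t
        (Finset.mem_univ t)
    intro e he
    have : w' e = 0 := by
      cases e with
      | none => exact hq0
      | some t => exact hall t
    simpa [w', he] using this
  have hle : Fintype.card (Option T) ≤ finrank ℝ X + 1 :=
    hp.card_le_finrank_succ.trans (Nat.add_le_add_right (Submodule.finrank_le _) 1)
  have hcT : T.card = D + 1 := by
    simp only [Fintype.card_option, Fintype.card_coe] at hle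
    omega
  have htop : affineSpan ℝ (range p) = ⊤ := by
    rw [hp.affineSpan_eq_top_iff_card_eq_finrank_add_one]
    simp only [Fintype.card_option, Fintype.card_coe]
    omega
  let b : AffineBasis (Option T) ℝ X := ⟨p, hp, htop⟩
  have hb : ∀ o, b o = p o := fun _ => rfl
  have hnone : ∀ y, ψ y = 0 → b.coord none y = 0 := by
    intro y hy
    have h1 := map_comb_Face ψ (fun o => b.coord o y) b (b.sum_coord_apply_eq_one y)
    rw [b.linear_combination_coord_eq_self y, hy, Fintype.sum_option] at h1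
    have h3 : ∑ t : T, b.coord (some t) y * ψ (b (some t)) = 0 := by
      refine Finset.sum_eq_zero fun t _ => ?_
      have : ψ (b (some t)) = 0 := hV _ (hTV' t.2)
      rw [this, mul_zero]
    rw [h3, add_zero] at h1
    exact (mul_eq_zero.1 h1.symm).resolve_right hq
  have hx0 : ψ x = 0 := by
    refine zero_hull_Face ψ (T : Set X) (fun z hz => hV z (hTV' hz)) x ?_
    exact convexHull_subset_affineSpan _ hxT
  have hxnn : ∀ o, 0 ≤ b.coord o x := by
    have h1 : x ∈ convexHull ℝ (range b) := by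
      refine convexHull_mono ?_ hxT
      intro z hz
      exact ⟨some ⟨z, hz⟩, rfl⟩
    rw [b.convexHull_eq_nonneg_coord] at h1
    exact h1
  refine ⟨⋂ t : T, {y | 0 < b.coord (some t) y}, ?_, ?_, ?_⟩
  · exact isOpen_iInter_of_finite fun t =>
      isOpen_lt continuous_const (continuous_barycentric_coord b _)
  · rw [mem_iInter]
    intro t
    rcases (hxnn (some t)).lt_or_eq with h | h
    · exact h
    · exfalso
      refine hT (T.erase t) ((Finset.erase_subset _ _).trans hTV') ?_ ?_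
      · rw [Finset.card_erase_of_mem t.2]; omega
      · refine mem_hull_Face b _ x hxnn ?_
        intro o ho
        cases o with
        | none => exact absurd (hnone x hx0) ho
        | some s =>
          have hs : (s : X) ≠ t := by
            intro hst
            have : s = t := Subtype.ext hst
            rw [this] at ho
            exact ho h.symm
          rw [hb]
          exact Finset.mem_coe.2 (Finset.mem_erase.2 ⟨hs, s.2⟩)
  · intro y hy hy0
    rw [mem_iInter] at hy
    refine mem_hull_Face b _ y ?_ ?_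
    · intro o
      cases o with
      | none => exact (hnone y hy0).ge
      | some s => exact (hy s).le
    · intro o ho
      cases o with
      | none => exact absurd (hnone y hy0) ho
      | some s => exact hTV s.2

end aux

theorem face : FaceStmt := by
  intro X _ _ _ D hD V hV hW
  classical
  have hlt : vectorSpan ℝ (convexHull ℝ (V : Set X)) < ⊤ := by
    rw [lt_top_iff_ne_top]
    intro h
    rw [h, finrank_top] at hW
    omega
  obtain ⟨l, hl0, hl⟩ := Submodule.exists_le_ker_of_lt_top _ hlt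
  obtain ⟨p0, hp0⟩ := hV
  let ψ : Af X := l.toAffineMap - AffineMap.const ℝ X (l p0)
  have hψ : ∀ x, ψ x = l x - l p0 := fun x => rfl
  have hp0' : p0 ∈ convexHull ℝ (V : Set X) := subset_convexHull ℝ _ hp0
  have hz : ∀ x ∈ convexHull ℝ (V : Set X), ψ x = 0 := by
    intro x hx
    have h1 : x -ᵥ p0 ∈ vectorSpan ℝ (convexHull ℝ (V : Set X)) := vsub_mem_vectorSpan ℝ hx hp0'
    have h2 := hl h1
    rw [LinearMap.mem_ker, vsub_eq_sub, map_sub] at h2
    rw [hψ, h2]
  obtain ⟨v, hv⟩ : ∃ v, l v ≠ 0 := by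
    by_contra h
    push Not at h
    exact hl0 (LinearMap.ext h)
  have hq : ψ (p0 + v) ≠ 0 := by
    rw [hψ, map_add]
    simpa using hv
  have hV0 : ∀ x ∈ V, ψ x = 0 := fun x hx => hz x (subset_convexHull ℝ _ hx)
  refine ⟨ψ, ?_, hz, ?_⟩
  · have : ψ.linear = l := by
      ext y
      simp [ψ]
    rw [this]
    exact hl0
  intro O hO hT hne x hxO hx0
  have hloc : ∀ y ∈ O, y ∈ convexHull ℝ (V : Set X) →
      ∃ U : Set X, IsOpen U ∧ y ∈ U ∧ ∀ z ∈ U, ψ z = 0 → z ∈ convexHull ℝ (V : Set X) := by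
    intro y hyO hy
    refine local_Face D hD V ψ (p0 + v) hq hV0 y hy ?_
    intro T hTV hTc hyT
    exact (Set.disjoint_left.1 (hT T hTV hTc)) hyO hyT
  have hcl : IsClosed (convexHull ℝ (V : Set X)) := V.finite_toSet.isClosed_convexHull ℝ
  have hxf : x ∈ convexHull ℝ (V : Set X) := by
    let S : Set X := O ∩ ψ ⁻¹' {0}
    have hS : Convex ℝ S := hO.inter ((convex_singleton (0 : ℝ)).affine_preimage ψ)
    let u : Set X := ⋃₀ {U : Set X | IsOpen U ∧ ∀ z ∈ U, ψ z = 0 → z ∈ convexHull ℝ (V : Set X)}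
    have hu : IsOpen u := isOpen_sUnion fun U hU => hU.1
    have hcov : S ⊆ u ∪ (convexHull ℝ (V : Set X))ᶜ := by
      intro y hy
      by_cases hyf : y ∈ convexHull ℝ (V : Set X)
      · obtain ⟨U, hU, hyU, hUf⟩ := hloc y hy.1 hyf
        exact Or.inl ⟨U, ⟨hU, hUf⟩, hyU⟩
      · exact Or.inr hyf
    have hdis : S ∩ (u ∩ (convexHull ℝ (V : Set X))ᶜ) = ∅ := by
      rw [eq_empty_iff_forall_notMem]
      rintro y ⟨hy, ⟨U, hU, hyU⟩, hyf⟩
      exact hyf (hU.2 y hyU hy.2)
    rcases isPreconnected_iff_subset_of_disjoint.1 hS.isPreconnected u _ hu hcl.isOpen_compl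
      hcov hdis with h | h
    · obtain ⟨U, hU, hyU⟩ := h (show x ∈ S from ⟨hxO, hx0⟩)
      exact hU.2 x hyU hx0
    · obtain ⟨y, hyO, hyf⟩ := hne
      exact absurd hyf (h (show y ∈ S from ⟨hyO, hz y hyf⟩))
  refine ⟨hxf, ?_⟩
  obtain ⟨U, hU, hxU, hUf⟩ := hloc x hxO hxf
  rw [mem_intrinsicFrontier]
  rintro ⟨y, hy, hyx⟩
  apply hy.2
  rw [mem_interior]
  refine ⟨(↑) ⁻¹' U, ?_, hU.preimage continuous_subtype_val, ?_⟩
  · intro z hz'
    exact hUf z hz' (zero_hull_Face ψ _ hz z z.2)
  · show (y : X) ∈ U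
    rw [hyx]
    exact hxU

end Pool.Agent.MP_a2955b_co.Up

end

section

set_option autoImplicit false

namespace Pool.Agent.MP_a2955b_co.Up

open Set Module

theorem sgn_pos_Kill {x : ℝ} {s : SignType} (hs : s ≠ 0) (h : SignType.sign x = s) :
    0 < (s : ℝ) * x := by
  subst h
  rcases lt_trichotomy x 0 with hx | hx | hx
  · rw [sign_neg hx]; simpa using hx
  · exact (hs (by rw [hx, sign_zero])).elim
  · rw [sign_pos hx]; simpa using hx

theorem sgn_neg_Kill {x : ℝ} {s : SignType} (hs : s ≠ 0) (h : SignType.sign x = -s) :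
    (s : ℝ) * x < 0 := by
  have h1 := sgn_pos_Kill (s := -s) (by simpa using hs) h
  rw [SignType.coe_neg] at h1
  linarith

theorem box_cj_Kill {ι : Type} {D : ℕ} (o : Fin D → Bool → ι) (t : Fin D → ι) (ε : Fin D → Bool)
    (i : Fin D) : box o t i (cj ε i) = o i (ε i) := by
  cases hε : ε i <;> simp [box, cj, hε]

section

variable {E : Type} [NormedAddCommGroup E] [NormedSpace ℝ E] [FiniteDimensional ℝ E]

/-- the two signs of a good box are opposite -/
theorem opp_Kill (hS : SliceStmt) {D : ℕ} (hD : finrank ℝ E = D) (ψ : Fin D → Fin 3 → Af E)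
    (v : (Fin D → Fin 3) → E) (σ σ' : Fin D → SignType) (h0 : ∀ j i, ψ i (j i) (v j) = 0)
    (hσ : ∀ (j : Fin D → Fin 3) (i : Fin D) (k : Fin 3),
      (k < j i → SignType.sign (ψ i k (v j)) = σ i) ∧
      (j i < k → SignType.sign (ψ i k (v j)) = σ' i))
    (h1 : ∀ i, σ i ≠ 0) (h2 : ∀ i, σ' i ≠ 0) (i : Fin D) : σ' i = - σ i := by
  have hlt : (0 : Fin 3) < 1 ∧ (1 : Fin 3) < 2 ∧ (0 : Fin 3) < 2 := by decide
  obtain ⟨V', w, hV, hw, hw'⟩ := hS E (Fin D) Finset.univ (fun i => (σ i : ℝ) • ψ i 0)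
    (fun i => (- (σ' i : ℝ)) • ψ i 2) (v fun _ => 1) ⊤ 0 (by simp [hD])
    (fun ε => v (cj ε)) (fun _ => Submodule.mem_top)
    (fun i _ => by
      have a1 := sgn_pos_Kill (h1 i) ((hσ (fun _ => 1) i 0).1 hlt.1)
      have a2 := sgn_pos_Kill (h2 i) ((hσ (fun _ => 1) i 2).2 hlt.2.1)
      simp only [AffineMap.coe_smul, Pi.smul_apply, smul_eq_mul]
      constructor <;> linarith)
    (fun i _ ε hε => by
      have hc : cj ε i = 0 := by simp [cj, hε]
      have a1 := h0 (cj ε) i
      have a2 := sgn_pos_Kill (h2 i) ((hσ (cj ε) i 2).2 (by rw [hc]; exact hlt.2.2))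
      rw [hc] at a1
      simp only [AffineMap.coe_smul, Pi.smul_apply, smul_eq_mul, a1, mul_zero, true_and]
      linarith)
    (fun i _ ε hε => by
      have hc : cj ε i = 2 := by simp [cj, hε]
      have a1 := h0 (cj ε) i
      have a2 := sgn_pos_Kill (h1 i) ((hσ (cj ε) i 0).1 (by rw [hc]; exact hlt.2.2))
      rw [hc] at a1
      simp only [AffineMap.coe_smul, Pi.smul_apply, smul_eq_mul, a1, mul_zero, and_true]
      exact a2)
  have hbot : V' = ⊥ := Submodule.finrank_eq_zero.1 (Nat.le_zero.1 hV)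
  have hp := hw' fun _ => false
  have hwp : w (fun _ => false) = v fun _ => 1 := by
    have := hw fun _ => false
    rwa [hbot, Submodule.mem_bot, sub_eq_zero] at this
  rw [hwp] at hp
  have hne : σ' i ≠ σ i := by
    intro he
    have hpos := convexHull_min (t := {x | 0 < ((σ i : ℝ) • ψ i 1) x}) ?_ (convex_pos _) hp
    · have a1 := h0 (fun _ => 1) i
      simp only [mem_ofPred_eq, AffineMap.coe_smul, Pi.smul_apply, smul_eq_mul, a1, mul_zero,
        lt_self_iff_false] at hpos
    · rintro _ ⟨ε, -, rfl⟩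
      simp only [mem_ofPred_eq, AffineMap.coe_smul, Pi.smul_apply, smul_eq_mul]
      refine sgn_pos_Kill (h1 i) ?_
      cases hε : ε i
      · have hc : cj ε i = 0 := by simp [cj, hε]
        rw [← he]
        exact (hσ (cj ε) i 1).2 (by rw [hc]; exact hlt.1)
      · have hc : cj ε i = 2 := by simp [cj, hε]
        exact (hσ (cj ε) i 1).1 (by rw [hc]; exact hlt.2.1)
  have a1 := h1 i
  have a2 := h2 i
  revert hne a1 a2
  generalize σ i = a
  generalize σ' i = b
  revert a b
  decide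

omit [FiniteDimensional ℝ E] in
theorem convex_bd_Kill (g : Af E) (M : ℝ) : Convex ℝ {w : E × ℝ | g w.1 ≤ w.2 + M} := by
  intro x hx y hy a b ha hb hab
  simp only [mem_ofPred_eq, Prod.fst_add, Prod.smul_fst, Prod.snd_add, Prod.smul_snd,
    smul_eq_mul] at hx hy ⊢
  rw [af_combo g _ _ a b hab]
  have h1 := mul_le_mul_of_nonneg_left hx ha
  have h2 := mul_le_mul_of_nonneg_left hy hb
  have h3 : M = (a + b) * M := by rw [hab, one_mul]
  linarith

end

theorem kill_of (hS : SliceStmt) (hA : AboveStmt) (hc : KillCStmt) (ha : KillAStmt) :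
    KillStmt := by
  classical
  intro E _ _ _ n hD
  refine ⟨(n + 3) * 2 + 4 * (2 ^ (2 * 2 ^ (n + 3)) * (n + 3 + 2)), ?_⟩
  intro ι _ φ h hφ o
  let u : (Fin (n + 3) → Bool) → E := fun ε => vx φ (fun i => o i (ε i))
  let T : Bool × Bool → Finset (E × ℝ) := fun a =>
    (Finset.univ.filter fun ε : Fin (n + 3) → Bool => ¬ (ε 0 = a.1 ∧ ε 1 = a.2)).image
      fun ε => (u ε, h (o 1 (ε 1)) (u ε))
  have hT : ∀ a, (T a).card ≤ 2 ^ (n + 3) := by
    intro a
    refine Finset.card_image_le.trans ((Finset.card_filter_le _ _).trans ?_)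
    simp
  obtain ⟨M, hM⟩ := (Set.finite_range fun x : ι × ι × (Fin (n + 3) → Bool) =>
    h x.1 (u x.2.2) - h x.2.1 (u x.2.2)).bddAbove
  choose G hG1 hG2 hG3 using fun a => hA E (T a) M
  refine ⟨Finset.univ.image fun x : Fin (n + 3) × Bool => φ (o x.1 x.2), Finset.univ.biUnion G,
    ?_, ?_, ?_, ?_, ?_⟩
  · refine Finset.card_image_le.trans (le_trans ?_ (Nat.le_add_right _ _))
    simp
  · refine Finset.card_biUnion_le.trans (le_trans ?_ (Nat.le_add_left _ _))
    refine (Finset.sum_le_card_nsmul _ _ (2 ^ (2 * 2 ^ (n + 3)) * (n + 3 + 2))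
      fun a _ => ?_).trans (by simp)
    refine (hG1 a).trans ?_
    rw [hD]
    exact Nat.mul_le_mul_right _
      (Nat.pow_le_pow_right (by norm_num) (Nat.mul_le_mul_left _ (hT a)))
  · intro w hw
    obtain ⟨x, -, rfl⟩ := Finset.mem_image.1 hw
    exact hφ _
  · intro g hg
    obtain ⟨a, -, hg⟩ := Finset.mem_biUnion.1 hg
    exact hG2 a g hg
  rintro t ⟨hsrt, σ, σ', hσ⟩ S O hSc ⟨p, hpS, hp⟩ hW hO hOc hOS hOG hall
  set e := box o t with he
  let v : (Fin (n + 3) → Fin 3) → E := fun j => vx φ (fun i => e i (j i))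
  have hlt : (0 : Fin 3) < 1 ∧ (1 : Fin 3) < 2 := by decide
  have he0 : ∀ i, e i 0 = o i false := fun i => rfl
  have he1 : ∀ i, e i 1 = t i := fun i => rfl
  have he2 : ∀ i, e i 2 = o i true := fun i => rfl
  have hzero : ∀ j i, φ (e i (j i)) (v j) = 0 := by
    intro j
    obtain ⟨q, -, hq⟩ := (hsrt j).1.2
    exact vx_spec hq
  have hpv : p = v fun _ => 1 := vx_unique hD (hsrt fun _ => 1).1.1 hp
  have hvS : (v fun _ => 1) ∈ S := hpv ▸ hpS
  have hWS : ∀ i b, ∀ x ∈ S, φ (o i b) x ≠ 0 := fun i b =>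
    hW _ (Finset.mem_image_of_mem _ (Finset.mem_univ (i, b)))
  have hs0 : ∀ i, ∀ x ∈ S, SignType.sign (φ (e i 0) x) = σ i := by
    intro i x hx
    rw [← (hσ (fun _ => 1) i 0).1 hlt.1]
    exact sign_eq_of_convex hSc _ (hWS i false) hx hvS
  have hs2 : ∀ i, ∀ x ∈ S, SignType.sign (φ (e i 2) x) = σ' i := by
    intro i x hx
    rw [← (hσ (fun _ => 1) i 2).2 hlt.2]
    exact sign_eq_of_convex hSc _ (hWS i true) hx hvS
  have h1 : ∀ i, σ i ≠ 0 := fun i => by
    rw [← hs0 i p hpS]
    exact sign_ne_zero.2 (hWS i false p hpS)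
  have h2 : ∀ i, σ' i ≠ 0 := fun i => by
    rw [← hs2 i p hpS]
    exact sign_ne_zero.2 (hWS i true p hpS)
  have hopp := opp_Kill hS hD (fun i k => φ (e i k)) v σ σ' hzero hσ h1 h2
  have hgrid : Grid (fun i k => (σ i : ℝ) • φ (e i k)) (fun i k => h (e i k)) v := by
    refine ⟨fun j i => ?_, fun j i k hk => ?_, fun j i k hk => ?_, fun j => ?_, fun j => ?_⟩
    · simp only [AffineMap.coe_smul, Pi.smul_apply, smul_eq_mul, hzero, mul_zero]
    · exact sgn_pos_Kill (h1 i) ((hσ j i k).1 hk)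
    · exact sgn_neg_Kill (h1 i) (((hσ j i k).2 hk).trans (hopp i))
    · exact (hsrt j).2 (Fin.zero_le 1)
    · refine (hsrt j).2 (show (1 : Fin (n + 3)) ≤ 2 from ?_)
      rw [Fin.le_def, Fin.val_one, Fin.val_two]
      norm_num
  have hLf : ∀ a b, Lf v (fun k => h (e 1 k)) a b = (T (a, b) : Set (E × ℝ)) := by
    intro a b
    have hv : ∀ ε, v (cj ε) = u ε := fun ε => by
      simp only [v, u, he, box_cj_Kill]
    ext z
    simp only [Lf, T, mem_ofPred_eq, Finset.coe_image, Finset.coe_filter, Finset.mem_univ,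
      true_and, mem_image, hv, he, box_cj_Kill]
    exact ⟨fun ⟨ε, a1, a2⟩ => ⟨ε, a1, a2.symm⟩, fun ⟨ε, a1, a2⟩ => ⟨ε, a1, a2.symm⟩⟩
  obtain ⟨z2, hz2O, hz2, hz2'⟩ := hall 2
  obtain ⟨z0, hz0O, hz0, hz0'⟩ := hall 0
  obtain ⟨η, hη, hball⟩ := Metric.isOpen_iff.1 hO z0 hz0O
  have hz : (z0.1, z0.2 - η / 2) ∈ O := by
    apply hball
    rw [Metric.mem_ball, Prod.dist_eq, dist_self, Real.dist_eq, sub_sub_cancel_left, abs_neg,
      abs_of_pos (half_pos hη)]
    exact max_lt hη (half_lt_self hη)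
  have key : ∀ a b, (z2.1, h (e 2 1) z2.1) ∈ Above (Lf v (fun k => h (e 1 k)) a b) →
      (z0.1, z0.2 - η / 2) ∈ Above (Lf v (fun k => h (e 1 k)) a b) := by
    intro a b hab
    rw [hLf] at hab ⊢
    obtain ⟨w, hw, hw1, hw2⟩ := hab
    refine hG3 (a, b) z2 _ (fun g hg => sign_eq_of_convex hOc g
      (hOG g (Finset.mem_biUnion.2 ⟨(a, b), Finset.mem_univ _, hg⟩)) hz2O hz)
      ⟨w, hw, hw1, ?_, ?_⟩
    · rw [hz2']; exact hw2
    · have hb := convexHull_min (t := {w : E × ℝ | h (t 2) w.1 ≤ w.2 + M}) ?_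
        (convex_bd_Kill _ M) hw
      · rw [hz2', ← show w.1 = z2.1 from hw1]; exact hb
      · intro q hq
        obtain ⟨ε, -, rfl⟩ := Finset.mem_image.1 (Finset.mem_coe.1 hq)
        have := hM (mem_range_self (t 2, o 1 (ε 1), ε))
        simp only [mem_ofPred_eq] at this ⊢
        linarith
  obtain ⟨⟨a, ha1⟩, ⟨b, hb1⟩⟩ := hc E n hD _ _ v hgrid z2.1
    (by simp only [AffineMap.coe_smul, Pi.smul_apply, smul_eq_mul, he1, hz2, mul_zero])
    (fun i => ⟨(sgn_pos_Kill (h1 i) (hs0 i _ (hOS z2 hz2O))).le,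
      (sgn_neg_Kill (h1 i) ((hs2 i _ (hOS z2 hz2O)).trans (hopp i))).le⟩)
  refine ha E n hD _ _ v hgrid z0.1 (z0.2 - η / 2)
    (by simp only [AffineMap.coe_smul, Pi.smul_apply, smul_eq_mul, he1, hz0, mul_zero]) ?_ a b
    (key _ _ ha1) (key _ _ hb1)
  rw [hz0']
  have := half_pos hη
  simp only [he1]
  linarith

end Pool.Agent.MP_a2955b_co.Up

end
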