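import Pool.Agent.Mg.F41f2d3.Ge87435

section

set_option autoImplicit false

namespace Pool.Agent.MP_a2955b_co.Up

open Set Module

section aux

variable {E : Type} [NormedAddCommGroup E] [NormedSpace ℝ E] {κ : Type}

/-- `t k` vanishes at `b k` and not at `b (k+1)`. -/
def Code_ChainCount (g : κ → Af E) (A : Finset κ) {D : ℕ} (b : Fin (D + 1) → E)
    (t : Fin D → κ) : Prop :=
  ∀ k : Fin D, t k ∈ A ∧ g (t k) (b k.castSucc) = 0 ∧ g (t k) (b k.succ) ≠ 0

theorem zero_below_ChainCount {g : κ → Af E} {A : Finset κ} {r : ℕ} {b : Fin (r + 1) → E}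
    (hb : Chain g A b) {j : κ} (hj : j ∈ A) {l l' : Fin (r + 1)} (hl : l ≤ l')
    (h0 : g j (b l') = 0) : g j (b l) = 0 := by
  rcases hl.lt_or_eq with h | h
  · rcases hb.below l l' h j hj with h1 | h1
    · exact h1
    · rw [h0, sign_zero] at h1
      exact sign_eq_zero_iff.mp h1
  · rw [h]; exact h0

theorem exists_step_ChainCount {g : κ → Af E} {A : Finset κ} {D : ℕ} {b : Fin (D + 1) → E}
    (hb : Chain g A b) (k : Fin D) :
    ∃ j, j ∈ A ∧ g j (b k.castSucc) = 0 ∧ g j (b k.succ) ≠ 0 := by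
  have hlt : k.castSucc < k.succ := Fin.castSucc_lt_succ
  have h1 := hb.ne _ _ hlt
  unfold SameSg at h1
  push Not at h1
  obtain ⟨j, hj, hne⟩ := h1
  rcases hb.below _ _ hlt j hj with h2 | h2
  · refine ⟨j, hj, h2, fun h3 => hne ?_⟩
    rw [h2, h3]
  · exact absurd h2 hne

theorem map_comb_ChainCount (φ : Af E) {r : ℕ} (b : Fin r → E) (μ : Fin r → ℝ)
    (hμ : ∑ l, μ l = 1) : φ (∑ l, μ l • b l) = ∑ l, μ l * φ (b l) := by
  have hd : ∀ x, φ x = φ.linear x + φ 0 := fun x => by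
    have := φ.map_vadd 0 x
    simpa using this
  rw [hd, map_sum]
  have : ∑ l, μ l * φ (b l) = ∑ l, (φ.linear (μ l • b l) + μ l * φ 0) := by
    refine Finset.sum_congr rfl fun l _ => ?_
    rw [hd (b l), map_smul, smul_eq_mul]; ring
  rw [this, Finset.sum_add_distrib, ← Finset.sum_mul, hμ, one_mul]

theorem indep_ChainCount {g : κ → Af E} {A : Finset κ} {D : ℕ} {b : Fin (D + 1) → E}
    (hb : Chain g A b) {t : Fin D → κ} (ht : Code_ChainCount g A b t) :
    LinearIndependent ℝ (fun i => (g (t i)).linear) := by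
  rw [Fintype.linearIndependent_iff]
  intro c hc
  have key : ∀ l : Fin D, ∑ i, c i * g (t i) (b l.succ) = 0 := by
    intro l
    have h1 := congrArg (fun f : E →ₗ[ℝ] ℝ => f (b l.succ - b 0)) hc
    simp only [LinearMap.coe_sum, Finset.sum_apply, LinearMap.smul_apply, smul_eq_mul,
      LinearMap.zero_apply] at h1
    rw [← h1]
    refine Finset.sum_congr rfl fun i _ => ?_
    have h2 : (g (t i)).linear (b l.succ - b 0) = g (t i) (b l.succ) - g (t i) (b 0) := by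
      have := (g (t i)).linearMap_vsub (b l.succ) (b 0)
      simpa using this
    have h3 : g (t i) (b 0) = 0 :=
      zero_below_ChainCount hb (ht i).1 (Fin.zero_le _) (ht i).2.1
    rw [h2, h3, sub_zero]
  have main : ∀ n : ℕ, ∀ l : Fin D, l.val = n → c l = 0 := by
    intro n
    induction n using Nat.strong_induction_on with
    | _ n ih =>
      intro l hl
      have h1 := key l
      rw [Finset.sum_eq_single l] at h1
      · exact (mul_eq_zero.mp h1).resolve_right (ht l).2.2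
      · intro i _ hi
        rcases lt_or_gt_of_ne hi with h | h
        · rw [ih i.val (by rw [← hl]; exact h) i rfl, zero_mul]
        · have : g (t i) (b l.succ) = 0 := by
            refine zero_below_ChainCount hb (ht i).1 ?_ (ht i).2.1
            rw [Fin.le_def]
            simp only [Fin.val_succ, Fin.val_castSucc]
            exact h
          rw [this, mul_zero]
      · intro h; exact absurd (Finset.mem_univ l) h
  intro l
  exact main _ l rfl

theorem exists_code_ChainCount {g : κ → Af E} {A J : Finset κ} (hJ : J ⊆ A) {D : ℕ}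
    {b : Fin (D + 1) → E} (hb : Chain g A b) (hl : ∀ j ∈ J, 0 < g j (b (Fin.last D))) :
    ∃ t : Fin D → κ, Code_ChainCount g A b t ∧
      ((∃ i, t i ∈ J) ∨ Vx g {x | ∀ j ∈ J, 0 < g j x} t) := by
  classical
  choose t ht using exists_step_ChainCount hb
  by_cases h0 : ∀ j ∈ J, 0 < g j (b 0)
  · refine ⟨t, ht, Or.inr ⟨indep_ChainCount hb ht, b 0, h0, fun i => ?_⟩⟩
    exact zero_below_ChainCount hb (ht i).1 (Fin.zero_le _) (ht i).2.1
  · push Not at h0
    obtain ⟨j, hj, hj0⟩ := h0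
    have hz : g j (b 0) = 0 := by
      rcases (Fin.zero_le (Fin.last D)).lt_or_eq with h | h
      · rcases hb.below _ _ h j (hJ hj) with h1 | h1
        · exact h1
        · rw [sign_pos (hl j hj)] at h1
          exact absurd (sign_eq_one_iff.mp h1) (not_lt.mpr hj0)
      · have := hl j hj
        rw [← h] at this
        exact absurd this (not_lt.mpr hj0)
    have hk : ∃ k : Fin D, g j (b k.castSucc) = 0 ∧ g j (b k.succ) ≠ 0 := by
      by_contra hcon
      push Not at hcon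
      have hall : ∀ l : Fin (D + 1), g j (b l) = 0 := by
        intro l
        induction l using Fin.induction with
        | zero => exact hz
        | succ i ih => exact hcon i ih
      exact absurd (hall (Fin.last D)) (hl j hj).ne'
    obtain ⟨k, hk1, hk2⟩ := hk
    refine ⟨Function.update t k j, fun i => ?_, Or.inl ⟨k, by simpa using hj⟩⟩
    by_cases hik : i = k
    · subst hik
      simp only [Function.update_self]
      exact ⟨hJ hj, hk1, hk2⟩
    · rw [Function.update_of_ne hik]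
      exact ht i

theorem inj_ChainCount (hC : ChainStmt) [FiniteDimensional ℝ E] {D : ℕ} (hD : finrank ℝ E = D)
    {g : κ → Af E} {A : Finset κ} {b b' : Fin (D + 1) → E} (hb : Chain g A b)
    (hb' : Chain g A b') {t : Fin D → κ} (ht : Code_ChainCount g A b t)
    (ht' : Code_ChainCount g A b' t)
    (hs : ∀ k, 0 < g (t k) (b k.succ) ↔ 0 < g (t k) (b' k.succ)) : b = b' := by
  obtain ⟨-, hrep, -, hind, -, -⟩ := hC E κ g A
  have hai : AffineIndependent ℝ b := hind D b hb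
  have htop : affineSpan ℝ (range b) = ⊤ := by
    rw [hai.affineSpan_eq_top_iff_card_eq_finrank_add_one, hD]
    simp
  have hcomb : ∀ k : Fin (D + 1), ∃ μ : Fin (D + 1) → ℝ, ∑ l, μ l = 1 ∧
      b' k = ∑ l, μ l • b l ∧ ∀ l, k < l → μ l = 0 := by
    intro k
    have hmem : b' k ∈ affineSpan ℝ (range b) := by rw [htop]; trivial
    obtain ⟨μ, hμ, hx⟩ := eq_affineCombination_of_mem_affineSpan_of_fintype hmem
    rw [Finset.affineCombination_eq_linear_combination _ _ _ hμ] at hx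
    refine ⟨μ, hμ, hx, ?_⟩
    have main : ∀ n : ℕ, ∀ l : Fin (D + 1), D - l.val = n → k < l → μ l = 0 := by
      intro n
      induction n using Nat.strong_induction_on with
      | _ n ih =>
        intro l hl hkl
        obtain ⟨i, rfl⟩ : ∃ i : Fin D, l = i.succ :=
          Fin.eq_succ_of_ne_zero (by
            intro h; rw [h] at hkl; exact absurd hkl (not_lt.mpr (Fin.zero_le _)))
        have h1 : g (t i) (b' k) = 0 := by
          refine zero_below_ChainCount hb' (ht' i).1 ?_ (ht' i).2.1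
          rw [Fin.le_def]
          rw [Fin.lt_def] at hkl
          simp only [Fin.val_succ, Fin.val_castSucc] at hkl ⊢
          omega
        rw [hx, map_comb_ChainCount _ _ _ hμ, Finset.sum_eq_single i.succ] at h1
        · exact (mul_eq_zero.mp h1).resolve_right (ht i).2.2
        · intro l' _ hl'
          rcases lt_or_gt_of_ne hl' with h | h
          · have : g (t i) (b l') = 0 := by
              refine zero_below_ChainCount hb (ht i).1 ?_ (ht i).2.1
              rw [Fin.le_def]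
              rw [Fin.lt_def] at h
              simp only [Fin.val_succ, Fin.val_castSucc] at h ⊢
              omega
            rw [this, mul_zero]
          · have hlt : D - l'.val < n := by
              have h2 := l'.isLt
              rw [Fin.lt_def] at h
              omega
            rw [ih _ hlt l' rfl (hkl.trans h), zero_mul]
        · intro h; exact absurd (Finset.mem_univ _) h
    intro l hl
    exact main _ l rfl hl
  funext k
  induction k using Fin.induction with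
  | zero =>
    obtain ⟨μ, hμ, hx, hz⟩ := hcomb 0
    have h1 : μ 0 = 1 := by
      rw [← hμ, Finset.sum_eq_single 0]
      · intro l _ hl
        exact hz l (Fin.pos_iff_ne_zero.mpr hl)
      · intro h; exact absurd (Finset.mem_univ _) h
    rw [hx, Finset.sum_eq_single 0, h1, one_smul]
    · intro l _ hl
      rw [hz l (Fin.pos_iff_ne_zero.mpr hl), zero_smul]
    · intro h; exact absurd (Finset.mem_univ _) h
  | succ i ih =>
    obtain ⟨μ, hμ, hx, hz⟩ := hcomb i.succ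
    have hval : ∀ j ∈ A, g j (b i.castSucc) = 0 →
        g j (b' i.succ) = μ i.succ * g j (b i.succ) := by
      intro j hj h0
      rw [hx, map_comb_ChainCount _ _ _ hμ, Finset.sum_eq_single i.succ]
      · intro l' _ hl'
        rcases lt_or_gt_of_ne hl' with h | h
        · have : g j (b l') = 0 := by
            refine zero_below_ChainCount hb hj ?_ h0
            rw [Fin.le_def]
            rw [Fin.lt_def] at h
            simp only [Fin.val_succ, Fin.val_castSucc] at h ⊢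
            omega
          rw [this, mul_zero]
        · rw [hz l' h, zero_mul]
      · intro h; exact absurd (Finset.mem_univ _) h
    have hpos : 0 < μ i.succ := by
      have h1 := hval (t i) (ht i).1 (ht i).2.1
      have h2 := (ht i).2.2
      have h3 := (ht' i).2.2
      have h4 := hs i
      rcases lt_or_gt_of_ne h2 with h5 | h5
      · have h6 : g (t i) (b' i.succ) < 0 := by
          rcases lt_or_gt_of_ne h3 with h7 | h7
          · exact h7
          · exact absurd (h4.mpr h7) (not_lt.mpr h5.le)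
        rw [h1] at h6
        by_contra hcon
        have := mul_nonneg_of_nonpos_of_nonpos (not_lt.mp hcon) h5.le
        linarith
      · have h6 := h4.mp h5
        rw [h1] at h6
        by_contra hcon
        have := mul_nonpos_of_nonpos_of_nonneg (not_lt.mp hcon) h5.le
        linarith
    have hsame : SameSg g A (b i.succ) (b' i.succ) := by
      intro j hj
      by_cases h0 : g j (b i.castSucc) = 0
      · rw [hval j hj h0, sign_mul, sign_pos hpos, one_mul]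
      · have hlt : i.castSucc < i.succ := Fin.castSucc_lt_succ
        have h1 := (hb.below _ _ hlt j hj).resolve_left h0
        have h2 := (hb'.below _ _ hlt j hj).resolve_left (by rw [← ih]; exact h0)
        rw [← h1, ← h2, ih]
    rw [← hb.fix i.succ, ← hb'.fix i.succ]
    exact hrep _ _ hsame

end aux

theorem chainCount_of (hC : ChainStmt) : ChainCountStmt := by
  classical
  intro E _ _ _ D hD κ g A J hJ
  set S : Set (Fin (D + 1) → E) :=
    {b | Chain g A b ∧ ∀ j ∈ J, 0 < g j (b (Fin.last D))} with hS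
  set T : Set (Fin D → κ) := {t | (∀ i, t i ∈ A) ∧
    ((∃ i, t i ∈ J) ∨ Vx g {x | ∀ j ∈ J, 0 < g j x} t)} with hT
  have hTfin : T.Finite := by
    refine (Fintype.piFinset (fun _ : Fin D => A)).finite_toSet.subset ?_
    intro t ht
    simp only [Finset.mem_coe, Fintype.mem_piFinset]
    exact ht.1
  rcases S.eq_empty_or_nonempty with hSe | ⟨b0, hb0⟩
  · rw [hSe, Set.ncard_empty]; exact Nat.zero_le _
  have hex : ∀ b : Fin (D + 1) → E, ∃ t : Fin D → κ,
      b ∈ S → Code_ChainCount g A b t ∧ t ∈ T := by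
    intro b
    by_cases hb : b ∈ S
    · obtain ⟨t, h1, h2⟩ := exists_code_ChainCount hJ hb.1 hb.2
      exact ⟨t, fun _ => ⟨h1, fun i => (h1 i).1, h2⟩⟩
    · obtain ⟨t, -, -⟩ := exists_code_ChainCount hJ hb0.1 hb0.2
      exact ⟨t, fun h => absurd h hb⟩
  choose f hf using hex
  have hle := Set.ncard_le_ncard_of_injOn (s := S)
    (t := (univ : Set (Fin D → Bool)) ×ˢ T)
    (fun b => (fun k => decide (0 < g (f b k) (b k.succ)), f b))
    (fun b hb => ⟨mem_univ _, (hf b hb).2⟩)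
    (fun b hb b' hb' h => by
      have h1 : f b = f b' := congrArg Prod.snd h
      have h2 := congrArg Prod.fst h
      refine inj_ChainCount hC hD hb.1 hb'.1 (hf b hb).1 (by rw [h1]; exact (hf b' hb').1) ?_
      intro k
      have h3 := congrFun h2 k
      simp only [decide_eq_decide] at h3
      rw [h3, h1])
    (Set.finite_univ.prod hTfin)
  rw [Set.ncard_prod, Set.ncard_univ, Nat.card_eq_fintype_card] at hle
  simpa using hle

end Pool.Agent.MP_a2955b_co.Up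

end

section

set_option autoImplicit false

namespace Pool.Agent.MP_a2955b_co.Up

open Set Module

section aux

variable {E : Type} [NormedAddCommGroup E] [NormedSpace ℝ E]

theorem face_KillC (T : Set E) (f : Af E) (hT : ∀ q ∈ T, 0 ≤ f q) (p : E)
    (hp : p ∈ convexHull ℝ T) (h0 : f p = 0) : p ∈ convexHull ℝ {q | q ∈ T ∧ f q = 0} := by
  have hc : Convex ℝ {p : E | 0 ≤ f p ∧ (f p = 0 → p ∈ convexHull ℝ {q | q ∈ T ∧ f q = 0})} := by
    intro x hx y hy a b ha hb hab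
    have hf : f (a • x + b • y) = a * f x + b * f y := by
      have := Convex.combo_affine_apply (f := f) (x := x) (y := y) hab
      simpa [smul_eq_mul] using this
    have h1 : 0 ≤ a * f x := mul_nonneg ha hx.1
    have h2 : 0 ≤ b * f y := mul_nonneg hb hy.1
    refine ⟨by rw [hf]; linarith, fun h => ?_⟩
    rw [hf] at h
    have h3 : a * f x = 0 := by linarith
    have h4 : b * f y = 0 := by linarith
    rcases mul_eq_zero.1 h3 with h5 | h5
    · have hb1 : b = 1 := by linarith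
      have h6 : f y = 0 := by rw [hb1] at h4; linarith
      rw [h5, hb1, zero_smul, one_smul, zero_add]
      exact hy.2 h6
    · rcases mul_eq_zero.1 h4 with h6 | h6
      · have ha1 : a = 1 := by linarith
        rw [h6, ha1, zero_smul, one_smul, add_zero]
        exact hx.2 h5
      · exact convex_convexHull ℝ _ (hx.2 h5) (hy.2 h6) ha hb hab
  have hsub : T ⊆ {p : E | 0 ≤ f p ∧ (f p = 0 → p ∈ convexHull ℝ {q | q ∈ T ∧ f q = 0})} :=
    fun q hq => ⟨hT q hq, fun h => subset_convexHull ℝ _ ⟨hq, h⟩⟩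
  exact (convexHull_min hsub hc hp).2 h0

theorem above_convex_KillC (T : Set (E × ℝ)) : Convex ℝ (Above T) := by
  rintro x ⟨w, hw, hw1, hw2⟩ y ⟨w', hw', hw1', hw2'⟩ a b ha hb hab
  refine ⟨a • w + b • w', convex_convexHull ℝ _ hw hw' ha hb hab, ?_, ?_⟩
  · simp [hw1, hw1']
  · simp only [Prod.snd_add, Prod.smul_snd, smul_eq_mul]
    have h1 := mul_le_mul_of_nonneg_left hw2 ha
    have h2 := mul_le_mul_of_nonneg_left hw2' hb
    linarith

theorem graph_convex_KillC (g : Af E) (Z : Set (E × ℝ)) (hZ : Convex ℝ Z) :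
    Convex ℝ {p : E | (p, g p) ∈ Z} := by
  intro x hx y hy a b ha hb hab
  have hf : g (a • x + b • y) = a * g x + b * g y := by
    have := Convex.combo_affine_apply (f := g) (x := x) (y := y) hab
    simpa [smul_eq_mul] using this
  have h := hZ hx hy ha hb hab
  have he : a • (x, g x) + b • (y, g y) = (a • x + b • y, g (a • x + b • y)) := by
    rw [hf]; ext <;> simp
  rw [he] at h
  exact h

theorem zl_convex_KillC (f g : Af E) : Convex ℝ {p : E | f p = 0 ∧ g p < 0} :=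
  ((convex_singleton (0 : ℝ)).affine_preimage f).inter ((convex_Iio (0 : ℝ)).affine_preimage g)

theorem lz_convex_KillC (f g : Af E) : Convex ℝ {p : E | 0 < f p ∧ g p = 0} :=
  ((convex_Ioi (0 : ℝ)).affine_preimage f).inter ((convex_singleton (0 : ℝ)).affine_preimage g)

variable {n : ℕ} {φ h : Fin (n + 3) → Fin 3 → Af E} {v : (Fin (n + 3) → Fin 3) → E}

theorem lo_KillC (hG : Grid φ h v) (j : Fin (n + 3) → Fin 3) (i : Fin (n + 3))
    (hj : j i = 0) : φ i 0 (v j) = 0 ∧ φ i 2 (v j) < 0 := by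
  refine ⟨by have := hG.zero j i; rwa [hj] at this, hG.neg j i 2 ?_⟩
  rw [hj]; decide

theorem hi_KillC (hG : Grid φ h v) (j : Fin (n + 3) → Fin 3) (i : Fin (n + 3))
    (hj : j i = 2) : 0 < φ i 0 (v j) ∧ φ i 2 (v j) = 0 := by
  refine ⟨hG.pos j i 0 ?_, by have := hG.zero j i; rwa [hj] at this⟩
  rw [hj]; decide

theorem mid_KillC (hG : Grid φ h v) (j : Fin (n + 3) → Fin 3) (i : Fin (n + 3)) :
    0 ≤ φ i 0 (v j) ∧ φ i 2 (v j) ≤ 0 := by
  constructor
  · by_cases hj : j i = 0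
    · exact (lo_KillC hG j i hj).1.ge
    · exact (hG.pos j i 0 (Fin.pos_iff_ne_zero.2 hj)).le
  · by_cases hj : j i = 2
    · exact (hi_KillC hG j i hj).2.le
    · refine (hG.neg j i 2 ?_).le
      have h3 := (j i).isLt
      have h4 : (j i).val ≠ 2 := fun h => hj (Fin.ext h)
      rw [Fin.lt_def]
      show (j i).val < 2
      omega

theorem cj_false_KillC (ε : Fin (n + 3) → Bool) (i : Fin (n + 3)) (hi : ε i = false) :
    cj ε i = 0 := by simp [cj, hi]

theorem cj_true_KillC (ε : Fin (n + 3) → Bool) (i : Fin (n + 3)) (hi : ε i = true) :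
    cj ε i = 2 := by simp [cj, hi]

theorem corner_face_KillC (hG : Grid φ h v) (P : (Fin (n + 3) → Bool) → Prop)
    (j : Fin (n + 3) → Fin 3) (i : Fin (n + 3)) (ε0 : Fin (n + 3) → Bool) (hj : j i = cj ε0 i)
    (hp : v j ∈ convexHull ℝ {q | ∃ ε, P ε ∧ q = v (cj ε)}) :
    v j ∈ convexHull ℝ {q | ∃ ε, (P ε ∧ ε i = ε0 i) ∧ q = v (cj ε)} := by
  cases ha : ε0 i with
  | false =>
    rw [cj_false_KillC ε0 i ha] at hj
    have h1 := face_KillC _ (φ i 0) (by
      rintro q ⟨ε, -, rfl⟩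
      exact (mid_KillC hG _ i).1) _ hp (lo_KillC hG j i hj).1
    refine convexHull_mono ?_ h1
    rintro q ⟨⟨ε, hε, rfl⟩, hq⟩
    refine ⟨ε, ⟨hε, ?_⟩, rfl⟩
    cases hb : ε i with
    | false => rfl
    | true => exact absurd hq (hi_KillC hG _ i (cj_true_KillC ε i hb)).1.ne'
  | true =>
    rw [cj_true_KillC ε0 i ha] at hj
    have h1 := face_KillC _ (-φ i 2) (by
      rintro q ⟨ε, -, rfl⟩
      have := (mid_KillC hG (cj ε) i).2
      simpa using this) _ hp (by simpa using (hi_KillC hG j i hj).2)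
    refine convexHull_mono ?_ h1
    rintro q ⟨⟨ε, hε, rfl⟩, hq⟩
    refine ⟨ε, ⟨hε, ?_⟩, rfl⟩
    cases hb : ε i with
    | true => rfl
    | false =>
      have h2 := (lo_KillC hG _ i (cj_false_KillC ε i hb)).2
      have h3 : φ i 2 (v (cj ε)) = 0 := by simpa using hq
      exact absurd h3 h2.ne

theorem ne01_KillC : (0 : Fin (n + 3)) ≠ 1 := by
  intro h
  have := congrArg Fin.val h
  simp at this

theorem ne02_KillC : (0 : Fin (n + 3)) ≠ 2 := by
  intro h
  have := congrArg Fin.val h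
  simp at this
  rw [Nat.mod_eq_of_lt (by omega)] at this
  omega

theorem ne12_KillC : (1 : Fin (n + 3)) ≠ 2 := by
  intro h
  have := congrArg Fin.val h
  simp at this
  rw [Nat.mod_eq_of_lt (by omega)] at this
  omega

theorem hull_all_KillC [FiniteDimensional ℝ E] (hS : SliceStmt) (hd : finrank ℝ E = n + 3)
    (hG : Grid φ h v) (j : Fin (n + 3) → Fin 3) :
    v j ∈ convexHull ℝ {q | ∃ ε, True ∧ q = v (cj ε)} := by
  obtain ⟨V', w, hV', hw, hw'⟩ := hS E (Fin (n + 3)) Finset.univ (fun i => φ i 0)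
    (fun i => φ i 2) (v j) ⊤ 0 (by simp [hd]) (fun ε => v (cj ε)) (fun _ => Submodule.mem_top)
    (fun i _ => mid_KillC hG j i)
    (fun i _ ε hε => lo_KillC hG _ i (cj_false_KillC ε i hε))
    (fun i _ ε hε => hi_KillC hG _ i (cj_true_KillC ε i hε))
  have hb : V' = ⊥ := Submodule.finrank_eq_zero.1 (Nat.le_zero.1 hV')
  have h1 := hw (fun _ => false)
  rw [hb, Submodule.mem_bot, sub_eq_zero] at h1
  rw [← h1]
  refine convexHull_mono ?_ (hw' _)
  rintro q ⟨ε, -, rfl⟩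
  exact ⟨ε, trivial, rfl⟩

theorem inner_KillC [FiniteDimensional ℝ E] (hS : SliceStmt) (hd : finrank ℝ E = n + 3)
    (hG : Grid φ h v) (ε0 : Fin (n + 3) → Bool) (α β : Bool) (hne : ¬ (ε0 0 = α ∧ ε0 1 = β)) :
    (v (Function.update (cj ε0) 2 1), h 2 1 (v (Function.update (cj ε0) 2 1))) ∈
      Above (Lf v (h 1) α β) := by
  set j := Function.update (cj ε0) 2 1 with hj
  have hj0 : j 0 = cj ε0 0 := Function.update_of_ne ne02_KillC _ _
  have hj1 : j 1 = cj ε0 1 := Function.update_of_ne ne12_KillC _ _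
  have hj2 : j 2 = 1 := Function.update_self _ _ _
  have h1 := corner_face_KillC hG _ j 1 ε0 hj1
    (corner_face_KillC hG _ j 0 ε0 hj0 (hull_all_KillC hS hd hG j))
  have h2 : (v j, h 1 (cj ε0 1) (v j)) ∈ convexHull ℝ (Lf v (h 1) α β) := by
    refine convexHull_min (t := {p : E | (p, h 1 (cj ε0 1) p) ∈ convexHull ℝ (Lf v (h 1) α β)})
      ?_ (graph_convex_KillC _ _ (convex_convexHull ℝ _)) h1
    rintro q ⟨ε, ⟨⟨-, h0⟩, h1'⟩, rfl⟩
    refine subset_convexHull ℝ _ ⟨ε, ?_, ?_⟩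
    · rw [h0, h1']; exact hne
    · have : cj ε 1 = cj ε0 1 := by simp [cj, h1']
      rw [this]
  refine ⟨_, h2, rfl, ?_⟩
  have h3 := hG.bc j
  rw [hj1, hj2] at h3
  exact h3

end aux

theorem killC_of (hS : SliceStmt) (hQ : QuadStmt) : KillCStmt := by
  intro E _ _ _ n hd φ h v hG x hx hx'
  classical
  let V : Submodule ℝ E := LinearMap.ker (φ 2 1).linear
  have hV : V ≠ ⊤ := by
    intro hT
    have h1 : v (fun _ => 2) - v (fun _ => 1) ∈ V := by rw [hT]; exact Submodule.mem_top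
    have h2 := (φ 2 1).linearMap_vsub (v (fun _ => 2)) (v (fun _ => 1))
    have h3 : φ 2 1 (v (fun _ => 1)) = 0 := hG.zero (fun _ => 1) 2
    have h4 : 0 < φ 2 1 (v (fun _ => 2)) := hG.pos (fun _ => 2) 2 1 (by decide)
    rw [vsub_eq_sub, vsub_eq_sub, LinearMap.mem_ker.1 h1, h3] at h2
    linarith
  have hV' : finrank ℝ V < n + 3 := hd ▸ Submodule.finrank_lt hV
  let s : Finset (Fin (n + 3)) := Finset.univ \ {0, 1, 2}
  have hs : n ≤ s.card := by
    have h1 := Finset.le_card_sdiff ({0, 1, 2} : Finset (Fin (n + 3))) Finset.univ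
    have h2 : ({0, 1, 2} : Finset (Fin (n + 3))).card ≤ 3 := Finset.card_le_three
    rw [Finset.card_univ, Fintype.card_fin] at h1
    show n ≤ (Finset.univ \ ({0, 1, 2} : Finset (Fin (n + 3)))).card
    omega
  have hs2 : ∀ i ∈ s, i ≠ 2 := by
    intro i hi h2
    rw [h2] at hi
    simp [s] at hi
  have hs0 : (0 : Fin (n + 3)) ∉ s := by simp [s]
  have hs1 : (1 : Fin (n + 3)) ∉ s := by simp [s]
  let u : (Fin (n + 3) → Bool) → E := fun ε => v (Function.update (cj ε) 2 1)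
  have hlo : ∀ i, i ≠ 2 → ∀ ε, ε i = false → φ i 0 (u ε) = 0 ∧ φ i 2 (u ε) < 0 := by
    intro i hi ε hε
    refine lo_KillC hG _ i ?_
    rw [Function.update_of_ne hi, cj_false_KillC ε i hε]
  have hhi : ∀ i, i ≠ 2 → ∀ ε, ε i = true → 0 < φ i 0 (u ε) ∧ φ i 2 (u ε) = 0 := by
    intro i hi ε hε
    refine hi_KillC hG _ i ?_
    rw [Function.update_of_ne hi, cj_true_KillC ε i hε]
  obtain ⟨V', w, hV2, hw, hw'⟩ := hS E (Fin (n + 3)) s (fun i => φ i 0) (fun i => φ i 2) x V 2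
    (by omega) u (by
      intro ε
      have h2 := (φ 2 1).linearMap_vsub (u ε) x
      have h3 : φ 2 1 (u ε) = 0 := by
        have := hG.zero (Function.update (cj ε) 2 1) 2
        rwa [Function.update_self] at this
      rw [vsub_eq_sub, vsub_eq_sub, h3, hx, sub_zero] at h2
      exact LinearMap.mem_ker.2 h2)
    (fun i _ => hx' i) (fun i hi => hlo i (hs2 i hi)) (fun i hi => hhi i (hs2 i hi))
  let e : Bool → Bool → Fin (n + 3) → Bool := fun a b i => if i = 0 then a else b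
  have key : ∀ (a b : Bool) (Y : Set E), Convex ℝ Y →
      (∀ ε, ε 0 = a → ε 1 = b → u ε ∈ Y) → w (e a b) ∈ Y := by
    intro a b Y hY hu
    refine convexHull_min ?_ hY (hw' (e a b))
    rintro q ⟨ε, hε, rfl⟩
    refine hu ε ?_ ?_
    · rw [hε 0 hs0]; simp [e]
    · rw [hε 1 hs1]; simp only [e]; rw [if_neg ne01_KillC.symm]
  have fin : ∀ α β : Bool,
      x ∈ convexHull ℝ {p | ∃ a b, ¬ (a = α ∧ b = β) ∧ p = w (e a b)} →
      (x, h 2 1 x) ∈ Above (Lf v (h 1) α β) := by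
    intro α β hm
    have hY := graph_convex_KillC (h 2 1) _ (above_convex_KillC (Lf v (h 1) α β))
    refine convexHull_min ?_ hY hm
    rintro q ⟨a, b, hab, rfl⟩
    refine key a b _ hY ?_
    intro ε h0 h1
    exact inner_KillC hS hd hG ε α β (by rw [h0, h1]; exact hab)
  obtain ⟨⟨α, hα⟩, ⟨β, hβ⟩⟩ := hQ E x V' hV2 (fun a b => w (e a b)) (fun a b => hw _)
    (φ 0 0) (φ 0 2) (φ 1 0) (φ 1 2) (hx' 0).1 (hx' 0).2 (hx' 1).1 (hx' 1).2
    (fun b => key false b _ (zl_convex_KillC _ _) (fun ε h0 _ => hlo 0 ne02_KillC ε h0))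
    (fun b => key true b _ (lz_convex_KillC _ _) (fun ε h0 _ => hhi 0 ne02_KillC ε h0))
    (fun a => key a false _ (zl_convex_KillC _ _) (fun ε _ h1 => hlo 1 ne12_KillC ε h1))
    (fun a => key a true _ (lz_convex_KillC _ _) (fun ε _ h1 => hhi 1 ne12_KillC ε h1))
  exact ⟨⟨α, fin α _ hα⟩, ⟨β, fin β _ hβ⟩⟩

end Pool.Agent.MP_a2955b_co.Up

end

section

/-! Choice of the integer parameters. -/

set_option autoImplicit false

namespace Pool.Agent.MP_a2955b_co.Up

open Set Module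

lemma exp_NumNat (y x e c : ℕ) (hx : x ≤ (y + 1) ^ e) (hy : e * c + 2 ≤ y) :
    2 * x ^ c < 2 ^ (y ^ 2) := by
  have h1 : y + 1 ≤ 2 ^ y := Nat.lt_two_pow_self
  have h2 : x ^ c ≤ 2 ^ (y * (e * c)) := by
    calc x ^ c ≤ ((y + 1) ^ e) ^ c := Nat.pow_le_pow_left hx c
      _ ≤ ((2 ^ y) ^ e) ^ c := Nat.pow_le_pow_left (Nat.pow_le_pow_left h1 e) c
      _ = 2 ^ (y * (e * c)) := by rw [← pow_mul, ← pow_mul]
  have h3 : y * (e * c) + 1 < y ^ 2 := by
    generalize e * c = k at hy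
    nlinarith
  calc 2 * x ^ c ≤ 2 * 2 ^ (y * (e * c)) := Nat.mul_le_mul_left 2 h2
    _ = 2 ^ (y * (e * c) + 1) := by ring
    _ < 2 ^ (y ^ 2) := Nat.pow_lt_pow_right (by norm_num) h3

/-- The constant in the bound for `KK`. -/
def cK_NumNat (d : ℕ) : ℕ := 2 ^ (d + 1) * (d + 1) * 2 * 3 ^ d * 2 ^ (d + 3)

lemma kk_NumNat (d w0 H A B : ℕ) (hw : w0 ≤ A) (hH : H ≤ A) (hA : 1 ≤ A) (hAB : A ≤ B) :
    KK (d + 1) w0 H B ≤ cK_NumNat d * (A ^ (d + 4) * B ^ d) := by
  unfold KK cK_NumNat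
  have h1 : w0 + H ≤ 2 * A := by omega
  have h2 : w0 + H + B ≤ 3 * B := by omega
  have h3 : H + 1 ≤ 2 * A := by omega
  have e1 : d + 1 - 1 = d := by omega
  rw [e1]
  calc 2 ^ (d + 1) * ((d + 1) * (w0 + H) * (w0 + H + B) ^ d) * (H + 1) ^ (d + 1 + 2)
      ≤ 2 ^ (d + 1) * ((d + 1) * (2 * A) * (3 * B) ^ d) * (2 * A) ^ (d + 1 + 2) := by gcongr
    _ = 2 ^ (d + 1) * (d + 1) * 2 * 3 ^ d * 2 ^ (d + 3) * (A ^ (d + 4) * B ^ d) := by
        rw [mul_pow, mul_pow]; ring

lemma div_NumNat (x k : ℕ) (hk : 0 < k) : x ≤ (x / k + 1) * k ∧ (x / k + 1) * k ≤ x + k := by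
  have h1 : x < x / k * k + k := Nat.lt_div_mul_add hk
  have h2 : x / k * k ≤ x := Nat.div_mul_le_self x k
  constructor
  · rw [add_mul, one_mul]; exact h1.le
  · rw [add_mul, one_mul]; omega

lemma termA_NumNat (d y K e Z : ℕ) (hy : 1 ≤ y) (hK : K ≤ cK_NumNat d * y ^ e)
    (hc : 3 * 2 ^ (d + 1) * ((d + 1) * (d + 2)) * 2 ^ d * cK_NumNat d ≤ y)
    (hd : d + 2 ≤ y ^ Z) (hZ : e + 3 * d + 6 ≤ Z) :
    3 * (2 ^ (d + 1) * K * ((d + 1) * (d + 1 + 1) * (d + 1 + 1 + y ^ Z) ^ d) *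
      y ^ (3 * (d + 1) + 2)) ≤ y ^ (Z * (d + 1)) := by
  have h1 : d + 1 + 1 + y ^ Z ≤ 2 * y ^ Z := by omega
  calc 3 * (2 ^ (d + 1) * K * ((d + 1) * (d + 1 + 1) * (d + 1 + 1 + y ^ Z) ^ d) *
        y ^ (3 * (d + 1) + 2))
      ≤ 3 * (2 ^ (d + 1) * (cK_NumNat d * y ^ e) * ((d + 1) * (d + 1 + 1) * (2 * y ^ Z) ^ d) *
        y ^ (3 * (d + 1) + 2)) := by gcongr
    _ = (3 * 2 ^ (d + 1) * ((d + 1) * (d + 2)) * 2 ^ d * cK_NumNat d) *
        (y ^ (e + 3 * d + 5) * (y ^ Z) ^ d) := by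
        rw [mul_pow]; ring
    _ ≤ y * (y ^ (e + 3 * d + 5) * (y ^ Z) ^ d) := Nat.mul_le_mul_right _ hc
    _ = y ^ (e + 3 * d + 6) * (y ^ Z) ^ d := by ring
    _ ≤ y ^ Z * (y ^ Z) ^ d := Nat.mul_le_mul_right _ (Nat.pow_le_pow_right hy hZ)
    _ = y ^ (Z * (d + 1)) := by rw [pow_mul]; ring

lemma termC_NumNat (d y K a b t m : ℕ) (hy : 1 ≤ y)
    (hK : K ≤ cK_NumNat d * y ^ (a * (d + 4) + b * d))
    (hc : 3 * 2 ^ (d + 2) * ((d + 2) ^ 2) ^ (d + 1) * 2 ^ (d + 1) * cK_NumNat d ≤ y)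
    (ht : t * y ^ b ≤ 2 * y ^ (2 + a) * m) (hb : a * (2 * d + 5) + 5 * d + 8 ≤ b) :
    3 * (2 ^ (d + 2) * K * ((d + 1 + 1) ^ 2 * t) ^ (d + 1) * y ^ (3 * (d + 1) + 2)) ≤
      m ^ (d + 1) := by
  have hpos : 0 < (y ^ b) ^ (d + 1) := by positivity
  refine Nat.le_of_mul_le_mul_right ?_ hpos
  have h1 : (t * y ^ b) ^ (d + 1) ≤ (2 * y ^ (2 + a) * m) ^ (d + 1) :=
    Nat.pow_le_pow_left ht _
  calc 3 * (2 ^ (d + 2) * K * ((d + 1 + 1) ^ 2 * t) ^ (d + 1) * y ^ (3 * (d + 1) + 2)) *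
        (y ^ b) ^ (d + 1)
      = 3 * 2 ^ (d + 2) * ((d + 2) ^ 2) ^ (d + 1) * K * y ^ (3 * d + 5) *
        (t * y ^ b) ^ (d + 1) := by
        rw [mul_pow, mul_pow]; ring
    _ ≤ 3 * 2 ^ (d + 2) * ((d + 2) ^ 2) ^ (d + 1) *
        (cK_NumNat d * y ^ (a * (d + 4) + b * d)) * y ^ (3 * d + 5) *
        (2 * y ^ (2 + a) * m) ^ (d + 1) := by gcongr
    _ = (3 * 2 ^ (d + 2) * ((d + 2) ^ 2) ^ (d + 1) * 2 ^ (d + 1) * cK_NumNat d) *
        (y ^ (a * (2 * d + 5) + 5 * d + 7) * (y ^ (b * d) * m ^ (d + 1))) := by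
        rw [mul_pow, mul_pow, ← pow_mul y (2 + a)]
        generalize ((d + 2) ^ 2) ^ (d + 1) = u
        have e : y ^ (a * (d + 4) + b * d) * y ^ (3 * d + 5) * y ^ ((2 + a) * (d + 1)) =
            y ^ (a * (2 * d + 5) + 5 * d + 7) * y ^ (b * d) := by
          rw [← pow_add, ← pow_add, ← pow_add]; congr 1; ring
        calc 3 * 2 ^ (d + 2) * u * (cK_NumNat d * y ^ (a * (d + 4) + b * d)) * y ^ (3 * d + 5) *
              (2 ^ (d + 1) * y ^ ((2 + a) * (d + 1)) * m ^ (d + 1))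
            = 3 * 2 ^ (d + 2) * u * 2 ^ (d + 1) * cK_NumNat d *
              ((y ^ (a * (d + 4) + b * d) * y ^ (3 * d + 5) * y ^ ((2 + a) * (d + 1))) *
                m ^ (d + 1)) := by
              generalize y ^ (a * (d + 4) + b * d) = p1
              generalize y ^ ((2 + a) * (d + 1)) = p2
              ring
          _ = _ := by rw [e, mul_assoc (y ^ (a * (2 * d + 5) + 5 * d + 7))]
    _ ≤ y * (y ^ (a * (2 * d + 5) + 5 * d + 7) * (y ^ (b * d) * m ^ (d + 1))) :=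
        Nat.mul_le_mul_right _ hc
    _ = y ^ (a * (2 * d + 5) + 5 * d + 8) * (y ^ (b * d) * m ^ (d + 1)) := by
        rw [show a * (2 * d + 5) + 5 * d + 8 = (a * (2 * d + 5) + 5 * d + 7) + 1 from rfl,
          pow_succ]
        ring
    _ ≤ y ^ b * (y ^ (b * d) * m ^ (d + 1)) :=
        Nat.mul_le_mul_right _ (Nat.pow_le_pow_right hy hb)
    _ = m ^ (d + 1) * (y ^ b) ^ (d + 1) := by rw [pow_mul]; ring

lemma comb_NumNat (D q K P M W F T Y : ℕ)
    (hA : 3 * (2 ^ D * K * P * Y) ≤ W) (hB : 3 * (2 ^ (D + 1) * F * Y) ≤ q)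
    (hC : 3 * (2 ^ (D + 1) * K * T * Y) ≤ M) :
    2 ^ D * (q * K * P * M + 2 * W * (F * M + q * K * T)) * Y ≤ q * W * M := by
  refine Nat.le_of_mul_le_mul_left ?_ (show 0 < 3 by norm_num)
  have h1 := Nat.mul_le_mul_right (q * M) hA
  have h2 := Nat.mul_le_mul_right (W * M) hB
  have h3 := Nat.mul_le_mul_right (q * W) hC
  calc 3 * (2 ^ D * (q * K * P * M + 2 * W * (F * M + q * K * T)) * Y)
      = 3 * (2 ^ D * K * P * Y) * (q * M) + 3 * (2 ^ (D + 1) * F * Y) * (W * M) +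
        3 * (2 ^ (D + 1) * K * T * Y) * (q * W) := by ring
    _ ≤ W * (q * M) + q * (W * M) + M * (q * W) := by gcongr
    _ = 3 * (q * W * M) := by ring

theorem numNat : NumNatStmt := by
  intro D w0 c1 c2 hD
  obtain ⟨d, rfl⟩ : ∃ d, D = d + 1 := ⟨D - 1, by omega⟩
  obtain ⟨a, ha⟩ : ∃ a, a = (3 * d + 6) * c2 + 1 := ⟨_, rfl⟩
  obtain ⟨b, hb⟩ : ∃ b, b = a * (2 * d + 5) + 5 * d + 8 := ⟨_, rfl⟩
  obtain ⟨Z, hZ⟩ : ∃ Z, Z = a * (d + 4) + b * d + 3 * d + 6 + b := ⟨_, rfl⟩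
  obtain ⟨cA, hcA⟩ : ∃ c, c = 3 * 2 ^ (d + 1) * ((d + 1) * (d + 2)) * 2 ^ d * cK_NumNat d :=
    ⟨_, rfl⟩
  obtain ⟨cB, hcB⟩ : ∃ c, c = 3 * 2 ^ (d + 2) * (d + 1).factorial := ⟨_, rfl⟩
  obtain ⟨cC, hcC⟩ : ∃ c, c = 3 * 2 ^ (d + 2) * ((d + 2) ^ 2) ^ (d + 1) * 2 ^ (d + 1) *
    cK_NumNat d := ⟨_, rfl⟩
  obtain ⟨cD, hcD⟩ : ∃ c, c = (2 * Z + a) * (2 * (d + 1 + 1)) + 2 := ⟨_, rfl⟩
  obtain ⟨cE, hcE⟩ : ∃ c, c = 2 * (d + 1 + 1) ^ 2 := ⟨_, rfl⟩
  have ha1 : 1 ≤ a := by omega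
  have hab : a ≤ b := by
    have : a * 1 ≤ a * (2 * d + 5) := Nat.mul_le_mul_left a (by omega)
    omega
  have hbZ : b ≤ Z := by omega
  have hZ2 : 2 ≤ Z := by omega
  refine ⟨Z, hZ2, cA + cB + cC + cD + cE + c1 + w0 + d + 2, ?_⟩
  intro y m hy hm1 hm2
  have hy1 : 1 ≤ y := by omega
  have hyA : cA ≤ y := by omega
  have hyB : cB ≤ y := by omega
  have hyC : cC ≤ y := by omega
  have hyD : cD ≤ y := by omega
  have hyE : cE ≤ y := by omega
  have hyc : c1 ≤ y := by omega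
  have hyw : w0 ≤ y := by omega
  have hyd : d + 2 ≤ y := by omega
  have hya : y ≤ y ^ a := by
    calc y = y ^ 1 := (pow_one y).symm
      _ ≤ y ^ a := Nat.pow_le_pow_right hy1 ha1
  have hyab : y ^ a ≤ y ^ b := Nat.pow_le_pow_right hy1 hab
  have hybZ : y ^ b ≤ y ^ Z := Nat.pow_le_pow_right hy1 hbZ
  have hZm : y ^ Z ≤ m := le_trans (Nat.pow_le_pow_right hy1 (by omega)) hm1
  obtain ⟨H, hH⟩ : ∃ H, H = c1 * (y ^ (3 * d + 6)) ^ c2 := ⟨_, rfl⟩
  have hHa : H ≤ y ^ a := by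
    rw [hH, ha, ← pow_mul, pow_succ, mul_comm]
    exact Nat.mul_le_mul_left _ hyc
  have hbpos : 0 < y ^ b := by positivity
  have hZpos : 0 < y ^ Z := by positivity
  obtain ⟨ht1a, ht1b⟩ := div_NumNat (y ^ 2 * (m * H)) (y ^ b) hbpos
  obtain ⟨ht2a, ht2b⟩ := div_NumNat (y ^ 2 * m) (y ^ Z) hZpos
  have hm3 : m + 1 ≤ (y + 1) ^ (2 * Z) := hm2
  have hya1 : y ^ a ≤ (y + 1) ^ a := Nat.pow_le_pow_left (by omega) a
  have hpa : 1 ≤ (y + 1) ^ a := Nat.one_le_pow _ _ (by omega)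
  have hmH : m * H + 1 ≤ (y + 1) ^ (2 * Z + a) := by
    calc m * H + 1 ≤ m * (y + 1) ^ a + (y + 1) ^ a :=
          Nat.add_le_add (Nat.mul_le_mul_left m (hHa.trans hya1)) hpa
      _ = (m + 1) * (y + 1) ^ a := by ring
      _ ≤ (y + 1) ^ (2 * Z) * (y + 1) ^ a := Nat.mul_le_mul_right _ hm3
      _ = (y + 1) ^ (2 * Z + a) := (pow_add _ _ _).symm
  have hm4 : m + 1 ≤ (y + 1) ^ (2 * Z + a) :=
    hm3.trans (Nat.pow_le_pow_right (by omega) (by omega))
  have hy2 : 1 ≤ y ^ 2 := Nat.one_le_pow _ _ hy1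
  refine ⟨y ^ (3 * d + 6), y ^ b, y ^ 2 * (m * H) / y ^ b + 1, y ^ 2 * m / y ^ Z + 1, y ^ 2,
    Nat.one_le_pow _ _ hy1, ?_, ?_, ?_, ht2a, ?_, ?_⟩
  · rw [← hH]
    exact exp_NumNat y _ (2 * Z + a) _ hmH (hcD ▸ hyD)
  · rw [← hH]
    exact ht1a
  · exact exp_NumNat y _ (2 * Z + a) _ hm4 (hcD ▸ hyD)
  · have h1 : (y ^ 2 * m / y ^ Z + 1) * y ^ Z ≤ 2 * (y ^ 2 * m) := by
      have : m ≤ y ^ 2 * m := Nat.le_mul_of_pos_left m hy2
      omega
    calc (d + 1 + 1) ^ 2 * (y ^ 2 * m / y ^ Z + 1) * y ^ Z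
        = (d + 1 + 1) ^ 2 * ((y ^ 2 * m / y ^ Z + 1) * y ^ Z) := mul_assoc _ _ _
      _ ≤ (d + 1 + 1) ^ 2 * (2 * (y ^ 2 * m)) := Nat.mul_le_mul_left _ h1
      _ = cE * (y ^ 2 * m) := by rw [hcE]; ring
      _ ≤ y * (y ^ 2 * m) := Nat.mul_le_mul_right _ hyE
      _ = y ^ 3 * m := by ring
  · rw [← hH]
    have hK : KK (d + 1) w0 H (y ^ b) ≤ cK_NumNat d * y ^ (a * (d + 4) + b * d) := by
      have := kk_NumNat d w0 H (y ^ a) (y ^ b) (hyw.trans hya) hHa (hy1.trans hya) hyab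
      rwa [← pow_mul, ← pow_mul, ← pow_add] at this
    have ht : (y ^ 2 * (m * H) / y ^ b + 1) * y ^ b ≤ 2 * y ^ (2 + a) * m := by
      have h1 : y ^ 2 * (m * H) ≤ y ^ (2 + a) * m := by
        calc y ^ 2 * (m * H) ≤ y ^ 2 * (m * y ^ a) := by gcongr
          _ = y ^ (2 + a) * m := by ring
      have h2 : m ≤ y ^ (2 + a) * m := Nat.le_mul_of_pos_left m (by positivity)
      have h3 : y ^ b ≤ m := hybZ.trans hZm
      calc (y ^ 2 * (m * H) / y ^ b + 1) * y ^ b ≤ y ^ 2 * (m * H) + y ^ b := ht1b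
        _ ≤ y ^ (2 + a) * m + y ^ (2 + a) * m := Nat.add_le_add h1 (h3.trans h2)
        _ = 2 * y ^ (2 + a) * m := by ring
    have hA := termA_NumNat d y _ _ Z hy1 hK (hcA ▸ hyA)
      (hyd.trans (hya.trans (hyab.trans hybZ))) (by omega)
    have hC := termC_NumNat d y _ a b _ m hy1 hK (hcC ▸ hyC) ht hb.ge
    have hB : 3 * (2 ^ (d + 1 + 1) * (d + 1).factorial * y ^ (3 * (d + 1) + 2)) ≤
        y ^ (3 * d + 6) := by
      calc 3 * (2 ^ (d + 1 + 1) * (d + 1).factorial * y ^ (3 * (d + 1) + 2))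
          = cB * y ^ (3 * d + 5) := by rw [hcB]; ring
        _ ≤ y * y ^ (3 * d + 5) := Nat.mul_le_mul_right _ hyB
        _ = y ^ (3 * d + 6) := by ring
    have key := comb_NumNat (d + 1) _ _ _ _ _ _ _ _ hA hB hC
    unfold RR
    have e1 : d + 1 - 1 = d := by omega
    rw [e1, ← pow_mul y Z (d + 1)]
    exact key

end Pool.Agent.MP_a2955b_co.Up

end

section

set_option autoImplicit false

namespace Pool.Agent.MP_a2955b_co.Up

open Set Module

theorem sum_rpow_Rec {I : Type} (P : Finset I) (x : I → ℝ) (M e : ℝ) (he : 1 ≤ e) (hM : 0 ≤ M)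
    (hx : ∀ p ∈ P, 0 ≤ x p) (hs : ∑ p ∈ P, x p ≤ M) : ∑ p ∈ P, x p ^ e ≤ M ^ e := by
  have hsplit : ∀ y : ℝ, 0 ≤ y → y ^ e = y * y ^ (e - 1) := by
    intro y hy
    have h1 : (1 : ℝ) + (e - 1) ≠ 0 := by linarith
    have := Real.rpow_add' hy h1
    rw [Real.rpow_one] at this
    rw [← this]; congr 1; ring
  have hle : ∀ p ∈ P, x p ≤ M := fun p hp =>
    (Finset.single_le_sum hx hp).trans hs
  calc ∑ p ∈ P, x p ^ e ≤ ∑ p ∈ P, x p * M ^ (e - 1) := by
        refine Finset.sum_le_sum (fun p hp => ?_)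
        rw [hsplit _ (hx p hp)]
        exact mul_le_mul_of_nonneg_left
          (Real.rpow_le_rpow (hx p hp) (hle p hp) (by linarith)) (hx p hp)
    _ = (∑ p ∈ P, x p) * M ^ (e - 1) := by rw [Finset.sum_mul]
    _ ≤ M * M ^ (e - 1) := mul_le_mul_of_nonneg_right hs (Real.rpow_nonneg hM _)
    _ = M ^ e := (hsplit M hM).symm

theorem first_Rec (c s k D : ℕ) (e : ℝ) (hs : 1 ≤ s) (hk : 1 ≤ k)
    (he : (D : ℝ) + 2 ≤ 2 * e) (hc : c ^ 2 ≤ (s * k) ^ D) :
    (c : ℝ) * ((s : ℝ) + 1) ≤ 2 * (k : ℝ) ^ D * (s : ℝ) ^ e := by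
  have hs1 : (1 : ℝ) ≤ s := by exact_mod_cast hs
  have hk1 : (1 : ℝ) ≤ k := by exact_mod_cast hk
  have hc' : (c : ℝ) ^ 2 ≤ ((s : ℝ) * k) ^ D := by exact_mod_cast hc
  have hkD : (1 : ℝ) ≤ (k : ℝ) ^ D := one_le_pow₀ hk1
  have h1 : (s : ℝ) ^ (D + 2) ≤ ((s : ℝ) ^ e) ^ 2 := by
    rw [← Real.rpow_natCast (s : ℝ) (D + 2), ← Real.rpow_natCast ((s : ℝ) ^ e) 2,
      ← Real.rpow_mul (by linarith)]
    refine Real.rpow_le_rpow_of_exponent_le hs1 ?_
    push_cast; linarith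
  have h2 : ((c : ℝ) * s) ^ 2 ≤ ((k : ℝ) ^ D * (s : ℝ) ^ e) ^ 2 := by
    calc ((c : ℝ) * s) ^ 2 = (c : ℝ) ^ 2 * (s : ℝ) ^ 2 := by ring
      _ ≤ ((s : ℝ) * k) ^ D * (s : ℝ) ^ 2 :=
          mul_le_mul_of_nonneg_right hc' (by positivity)
      _ = (k : ℝ) ^ D * (s : ℝ) ^ (D + 2) := by rw [mul_pow]; ring
      _ ≤ ((k : ℝ) ^ D) ^ 2 * ((s : ℝ) ^ e) ^ 2 := by
          refine mul_le_mul ?_ h1 (by positivity) (by positivity)
          nlinarith
      _ = ((k : ℝ) ^ D * (s : ℝ) ^ e) ^ 2 := by ring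
  have h3 : (c : ℝ) * s ≤ (k : ℝ) ^ D * (s : ℝ) ^ e :=
    (pow_le_pow_iff_left₀ (by positivity) (by positivity) two_ne_zero).1 h2
  have h4 : (0 : ℝ) ≤ c := by positivity
  nlinarith

theorem second_Rec (c m s k D : ℕ) (e : ℝ) (hk : 1 ≤ k) (he : e ≤ D)
    (h : (c : ℝ) * (m : ℝ) ^ e ≤ 1 / (2 * (k : ℝ) ^ D) * ((s * k : ℕ) : ℝ) ^ e) :
    (c : ℝ) * (m : ℝ) ^ e ≤ (s : ℝ) ^ e / 2 := by
  have hk1 : (1 : ℝ) ≤ k := by exact_mod_cast hk
  have hkD : (0 : ℝ) < (k : ℝ) ^ D := by positivity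
  have h1 : (k : ℝ) ^ e ≤ (k : ℝ) ^ D := by
    rw [← Real.rpow_natCast (k : ℝ) D]
    exact Real.rpow_le_rpow_of_exponent_le hk1 he
  have h2 : ((s * k : ℕ) : ℝ) ^ e = (s : ℝ) ^ e * (k : ℝ) ^ e := by
    push_cast
    exact Real.mul_rpow (by positivity) (by positivity)
  have h3 : (0 : ℝ) ≤ (s : ℝ) ^ e := by positivity
  refine h.trans ?_
  rw [h2]
  calc 1 / (2 * (k : ℝ) ^ D) * ((s : ℝ) ^ e * (k : ℝ) ^ e)
      ≤ 1 / (2 * (k : ℝ) ^ D) * ((s : ℝ) ^ e * (k : ℝ) ^ D) :=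
        mul_le_mul_of_nonneg_left (mul_le_mul_of_nonneg_left h1 h3) (by positivity)
    _ = (s : ℝ) ^ e / 2 := by field_simp

/-- Refinement of one cell met by few flats. -/
theorem cell_Rec (hF : FreeStmt) {E : Type} [NormedAddCommGroup E] [NormedSpace ℝ E]
    [FiniteDimensional ℝ E] {k : ℕ} {κ : Type} (f : κ → Set (E × ℝ)) (ψ : κ → Af (E × ℝ))
    (φ h : κ → Fin k → Af E) (hconv : ∀ i, Convex ℝ (f i)) (hψ : ∀ i, (ψ i).linear ≠ 0)
    (hz : ∀ i, ∀ x ∈ f i, ψ i x = 0)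
    (hfree : ∀ O : Set (E × ℝ), Convex ℝ O → ∀ i, (∀ l, Disjoint O (fl (φ i l) (h i l))) →
      (O ∩ f i).Nonempty → ∀ j, j ≠ i → ∀ x ∈ O ∩ f j, ψ i x ≠ 0)
    (s : Finset κ) (A e : ℝ) (hA : 0 ≤ A) (he : 1 ≤ e) (m : ℕ)
    (IH : ∀ s' : Finset κ, s'.card ≤ m → ∀ σ : Set (E × ℝ), OP σ → Bornology.IsBounded σ →
      ∃ C : Finset (Set (E × ℝ)), Part σ C ∧ (∀ O ∈ C, ∀ i ∈ s', Disjoint O (f i)) ∧
        (C.card : ℝ) ≤ 1 + A * (s'.card : ℝ) ^ e)
    (O : Set (E × ℝ)) (hO : OP O) (hb : Bornology.IsBounded O)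
    (hm : {i | i ∈ s ∧ ∃ l, ¬ Disjoint O (fl (φ i l) (h i l))}.ncard ≤ m) :
    ∃ C : Finset (Set (E × ℝ)), Part O C ∧ (C.card : ℝ) ≤ (s.card : ℝ) + 1 + A * (m : ℝ) ^ e ∧
      ∀ O' ∈ C, ∀ i ∈ s, Disjoint O' (f i) := by
  classical
  set Nn : Finset κ := s.filter (fun i => ∃ l, ¬ Disjoint O (fl (φ i l) (h i l))) with hNn
  have hNm : Nn.card ≤ m := by
    rw [← Set.ncard_coe_finset]
    refine le_of_eq_of_le ?_ hm
    congr 1
    ext i
    simp [hNn]
  set J : Finset κ := s.filter (fun i => (∀ l, Disjoint O (fl (φ i l) (h i l))) ∧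
    (O ∩ f i).Nonempty) with hJ
  obtain ⟨P, hP, hPc, hPJ, hPu⟩ := hF (E × ℝ) κ f ψ hconv hψ hz O hO J (by
    intro i hi j hj x hx
    obtain ⟨_, h1, h2⟩ := Finset.mem_filter.1 hi
    exact hfree O hO.convex i h1 h2 j hj x hx)
  let sp : Set (E × ℝ) → Finset κ := fun p => Nn.filter (fun j => (p ∩ f j).Nonempty)
  have hsum : ∑ p ∈ P, (sp p).card ≤ m := by
    rw [← Finset.card_biUnion]
    · refine (Finset.card_le_card ?_).trans hNm
      intro j hj
      obtain ⟨p, _, hp⟩ := Finset.mem_biUnion.1 hj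
      exact (Finset.mem_filter.1 hp).1
    · intro p hp p' hp' hne
      refine Finset.disjoint_left.2 ?_
      intro j h1 h2
      obtain ⟨hj, h3⟩ := Finset.mem_filter.1 h1
      obtain ⟨_, h4⟩ := Finset.mem_filter.1 h2
      refine hne (hPu j ?_ p hp p' hp' h3 h4)
      intro hjJ
      obtain ⟨_, l, hl⟩ := Finset.mem_filter.1 hj
      exact hl ((Finset.mem_filter.1 hjJ).2.1 l)
  obtain ⟨C, hC, hCc, hCQ⟩ := hP.bind_real (fun p => 1 + A * ((sp p).card : ℝ) ^ e)
    (fun O' => ∀ i ∈ s, Disjoint O' (f i)) (by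
      intro p hp
      have hle : (sp p).card ≤ m := (Finset.card_filter_le _ _).trans hNm
      obtain ⟨Dp, h1, h2, h3⟩ := IH (sp p) hle p (hP.op p hp) (hb.subset (hP.sub p hp))
      refine ⟨Dp, h1, h3, fun O' hO' i hi => ?_⟩
      have hsub : O' ⊆ p := h1.sub O' hO'
      by_cases hN : i ∈ Nn
      · by_cases hne : (p ∩ f i).Nonempty
        · exact h2 O' hO' i (Finset.mem_filter.2 ⟨hN, hne⟩)
        · rw [Set.not_nonempty_iff_eq_empty] at hne
          exact (Set.disjoint_iff_inter_eq_empty.2 hne).mono_left hsub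
      · have hall : ∀ l, Disjoint O (fl (φ i l) (h i l)) := by
          intro l
          by_contra hl
          exact hN (Finset.mem_filter.2 ⟨hi, l, hl⟩)
        by_cases hne : (O ∩ f i).Nonempty
        · exact (hPJ p hp i (Finset.mem_filter.2 ⟨hi, hall, hne⟩)).mono_left hsub
        · rw [Set.not_nonempty_iff_eq_empty] at hne
          exact (Set.disjoint_iff_inter_eq_empty.2 hne).mono_left (hsub.trans (hP.sub p hp)))
  refine ⟨C, hC, hCc.trans ?_, hCQ⟩
  rw [Finset.sum_add_distrib, ← Finset.mul_sum, Finset.sum_const, nsmul_eq_mul, mul_one]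
  have h1 : (P.card : ℝ) ≤ (s.card : ℝ) + 1 := by
    have : P.card ≤ s.card + 1 := hPc.trans (Nat.succ_le_succ (Finset.card_filter_le _ _))
    exact_mod_cast this
  have h2 : ∑ p ∈ P, ((sp p).card : ℝ) ^ e ≤ (m : ℝ) ^ e := by
    refine sum_rpow_Rec P (fun p => ((sp p).card : ℝ)) m e he (by positivity)
      (fun p _ => by positivity) ?_
    exact_mod_cast hsum
  have h3 := mul_le_mul_of_nonneg_left h2 hA
  linarith

theorem rec_of (hA : ArrStmt) (hF : FreeStmt) (hS : StepStmt) : RecStmt := by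
  classical
  intro E _ _ _ n hn
  obtain ⟨δ, hδ0, hδ1, hstep⟩ := hS E n hn (2 * finrank ℝ E)
  refine ⟨δ, hδ0, hδ1, fun k hk => ?_⟩
  have hk1 : (1 : ℝ) ≤ k := by exact_mod_cast hk
  obtain ⟨m0, hm0⟩ := hstep (1 / (2 * (k : ℝ) ^ (n + 3))) (by positivity)
  set e : ℝ := ((n + 3 : ℕ) : ℝ) - δ with he
  have hn0 : (0 : ℝ) ≤ n := by positivity
  have he1 : 1 ≤ e := by rw [he]; push_cast; linarith
  have he2 : ((n + 3 : ℕ) : ℝ) + 2 ≤ 2 * e := by rw [he]; push_cast; linarith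
  have he3 : e ≤ ((n + 3 : ℕ) : ℝ) := by rw [he]; linarith
  set A : ℝ := max (4 * (k : ℝ) ^ (n + 3)) (((m0 : ℝ) + 1) ^ (n + 5)) with hAdef
  have hA1 : 4 * (k : ℝ) ^ (n + 3) ≤ A := le_max_left _ _
  have hA2 : ((m0 : ℝ) + 1) ^ (n + 5) ≤ A := le_max_right _ _
  have hA0 : 0 ≤ A := le_trans (by positivity) hA1
  refine ⟨A, hA0, fun κ f ψ φ h hconv hψ hz hφ hfree => ?_⟩
  have key : ∀ (N : ℕ) (s : Finset κ), s.card = N → ∀ σ : Set (E × ℝ), OP σ →
      Bornology.IsBounded σ → ∃ C : Finset (Set (E × ℝ)), Part σ C ∧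
        (∀ O ∈ C, ∀ i ∈ s, Disjoint O (f i)) ∧ (C.card : ℝ) ≤ 1 + A * (s.card : ℝ) ^ e := by
    intro N
    induction N using Nat.strong_induction_on with
    | _ N IH =>
    intro s hsN σ hσ hb
    by_cases hsmall : s.card * k < m0 ∨ s.card = 0
    · obtain ⟨C, hC, hCc, hCz, -⟩ := hA (E × ℝ) σ hσ (s.image ψ) (by
        intro g hg
        obtain ⟨i, _, rfl⟩ := Finset.mem_image.1 hg
        exact hψ i)
      have hfr : finrank ℝ (E × ℝ) + 1 = n + 5 := by
        rw [Module.finrank_prod, hn, Module.finrank_self]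
      rw [hfr] at hCc
      have hC2 : C.card ≤ (s.card + 1) ^ (n + 5) :=
        hCc.trans (Nat.pow_le_pow_left (Nat.succ_le_succ Finset.card_image_le) _)
      refine ⟨C, hC, fun O hO i hi => ?_, ?_⟩
      · refine Set.disjoint_left.2 (fun x hx hx' => ?_)
        exact hCz O hO (ψ i) (Finset.mem_image_of_mem _ hi) x hx (hz i x hx')
      · have hnn : (0 : ℝ) ≤ A * (s.card : ℝ) ^ e := by positivity
        by_cases h0 : s.card = 0
        · rw [h0] at hC2
          have : (C.card : ℝ) ≤ 1 := by simpa using (show (C.card : ℝ) ≤ ((1 : ℕ) : ℝ) by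
            exact_mod_cast (by simpa using hC2))
          linarith
        · have hlt : s.card * k < m0 := hsmall.resolve_right h0
          have hsm : s.card ≤ m0 := le_trans (Nat.le_mul_of_pos_right _ hk) hlt.le
          have h1 : (C.card : ℝ) ≤ ((m0 : ℝ) + 1) ^ (n + 5) := by
            have : C.card ≤ (m0 + 1) ^ (n + 5) :=
              hC2.trans (Nat.pow_le_pow_left (Nat.succ_le_succ hsm) _)
            exact_mod_cast this
          have h2 : (1 : ℝ) ≤ (s.card : ℝ) ^ e :=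
            Real.one_le_rpow (by exact_mod_cast Nat.one_le_iff_ne_zero.2 h0) (by linarith)
          have h3 : A * 1 ≤ A * (s.card : ℝ) ^ e := mul_le_mul_of_nonneg_left h2 hA0
          linarith
    · push Not at hsmall
      obtain ⟨hbig, hs0⟩ := hsmall
      have hs1 : 1 ≤ s.card := Nat.one_le_iff_ne_zero.2 hs0
      have hcard : Fintype.card ({i // i ∈ s} × Fin k) = s.card * k := by simp
      have hb1 : Bornology.IsBounded (Prod.fst '' σ) := hb.image_fst
      obtain ⟨τ, hτ, hστ⟩ := exists_cell hb1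
      obtain ⟨C, m, hC, hCm, hCb, hCs⟩ := hm0 ({i // i ∈ s} × Fin k)
        (fun x => φ x.1.1 x.2) (fun x => h x.1.1 x.2) (fun x => hφ _ _)
        (by rw [hcard]; exact hbig) τ hτ
      rw [hcard] at hCb hCs
      obtain ⟨C', hC', hC'c, hC'm⟩ := hC.inter hσ (by
        intro z hz'
        exact ⟨hστ (mem_image_of_mem _ hz'), mem_univ _⟩)
      have hse : (0 : ℝ) < (s.card : ℝ) ^ e :=
        Real.rpow_pos_of_pos (by exact_mod_cast hs1) _
      by_cases hemp : C'.card = 0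
      · refine ⟨C', hC', ?_, ?_⟩
        · rw [Finset.card_eq_zero.1 hemp]; simp
        · rw [hemp]
          have : (0 : ℝ) ≤ A * (s.card : ℝ) ^ e := by positivity
          push_cast; linarith
      have hc1 : (1 : ℝ) ≤ C.card := by
        have : 1 ≤ C.card := le_trans (Nat.one_le_iff_ne_zero.2 hemp) hC'c
        exact_mod_cast this
      have h2 := second_Rec C.card m s.card k (n + 3) e hk he3 hCb
      have h1 := first_Rec C.card s.card k (n + 3) e hs1 hk he2 hCs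
      have hme : (0 : ℝ) ≤ (m : ℝ) ^ e := by positivity
      have hms : m < s.card := by
        by_contra hge
        push Not at hge
        have h3 : (s.card : ℝ) ^ e ≤ (m : ℝ) ^ e :=
          Real.rpow_le_rpow (by positivity) (by exact_mod_cast hge) (by linarith)
        nlinarith
      obtain ⟨C'', h3, h4, h5⟩ := hC'.bind_real (fun _ => (s.card : ℝ) + 1 + A * (m : ℝ) ^ e)
        (fun O' => ∀ i ∈ s, Disjoint O' (f i)) (by
          intro O' hO'
          obtain ⟨O, hO, hOO⟩ := hC'm O' hO'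
          refine cell_Rec hF f ψ φ h hconv hψ hz hfree s A e hA0 he1 m
            (fun s' hs' => IH s'.card (by omega) s' rfl) O' (hC'.op O' hO')
            (hb.subset (hC'.sub O' hO')) ?_
          refine le_trans ?_ (hCm O hO)
          refine le_trans (Set.ncard_le_ncard (t := (fun x : {i // i ∈ s} × Fin k => x.1.1) ''
            {x | (O ∩ fl (φ x.1.1 x.2) (h x.1.1 x.2)).Nonempty}) ?_
            ((Set.toFinite _).image _)) (Set.ncard_image_le (Set.toFinite _))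
          rintro i ⟨hi, l, hl⟩
          refine ⟨(⟨i, hi⟩, l), ?_, rfl⟩
          obtain ⟨z, hz1, hz2⟩ := Set.not_disjoint_iff.1 hl
          rw [hOO] at hz1
          exact ⟨z, hz1.1, hz2⟩)
      refine ⟨C'', h3, h5, h4.trans ?_⟩
      rw [Finset.sum_const, nsmul_eq_mul]
      have h6 : (C'.card : ℝ) ≤ C.card := by exact_mod_cast hC'c
      have h7 : (0 : ℝ) ≤ (s.card : ℝ) + 1 + A * (m : ℝ) ^ e := by positivity
      have h8 := mul_le_mul_of_nonneg_right h6 h7
      have h9 := mul_le_mul_of_nonneg_left h2 hA0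
      have h10 := mul_le_mul_of_nonneg_right hA1 hse.le
      nlinarith
  intro s σ hσ hb
  exact key s.card s rfl σ hσ hb

end Pool.Agent.MP_a2955b_co.Up

end
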