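import Pool.Agent.Mg.F41f2d3.Ge87435
import Pool.Agent.MP_41f2d3_co.Ramsey
import Pool.Agent.Mg.F41f2d3.G9e2236
import Pool.Agent.Mg.F41f2d3.Gcd079f

section

set_option autoImplicit false

namespace Pool.Agent.MP_a2955b_co.Up

open Set Module

section

variable {E : Type} [NormedAddCommGroup E] [NormedSpace ℝ E] {D : ℕ}

theorem comb_Simp {ι : Type} [Fintype ι] (g : Af E) {μ : ι → ℝ} (hμ : ∑ l, μ l = 1) (p : ι → E) :
    g (∑ l, μ l • p l) = ∑ l, μ l * g (p l) := by
  have hd : ∀ x, g x = g.linear x + g 0 := fun x => by simpa using g.map_vadd 0 x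
  rw [hd, map_sum, Finset.sum_congr rfl fun l _ => congrArg (μ l * ·) (hd (p l))]
  simp only [mul_add, Finset.sum_add_distrib, ← Finset.sum_mul, hμ, one_mul, map_smul, smul_eq_mul]

theorem mem_Simp (b : AffineBasis (Fin (D + 1)) ℝ E) (x : E) : x ∈ Simp b ↔
    ∃ μ : Fin (D + 1) → ℝ, (∀ l, 0 < μ l) ∧ ∑ l, μ l = 1 ∧ x = ∑ l, μ l • b l := by
  constructor
  · intro h
    exact ⟨fun l => b.coord l x, h, b.sum_coord_apply_eq_one x,
      (b.linear_combination_coord_eq_self x).symm⟩
  · rintro ⟨μ, h1, h2, rfl⟩ l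
    rw [comb_Simp _ h2]
    simpa [b.coord_apply] using h1 l

theorem eq_Simp [DecidableEq (Af E)] (b : AffineBasis (Fin (D + 1)) ℝ E) :
    Simp b = {x | ∀ g ∈ Finset.univ.image b.coord, 0 < g x} := by
  ext x
  simp [Simp]

theorem zero_Simp (b : AffineBasis (Fin (D + 1)) ℝ E) (g : Af E) {c : E} (hc : c ∈ Simp b)
    (h : 0 < g c) {l : Fin (D + 1)} (hl : g (b l) < 0) : ∃ x ∈ Simp b, g x = 0 := by
  have h0 : 0 < g c - g (b l) := by linarith
  have h1 : g c / (g c - g (b l)) + -g (b l) / (g c - g (b l)) = 1 := by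
    rw [← add_div, ← sub_eq_add_neg, div_self h0.ne']
  refine ⟨(g c / (g c - g (b l))) • b l + (-g (b l) / (g c - g (b l))) • c, fun m => ?_, ?_⟩
  · rw [Convex.combo_affine_apply h1, smul_eq_mul, smul_eq_mul]
    refine add_pos_of_nonneg_of_pos (mul_nonneg (div_pos h h0).le ?_)
      (mul_pos (div_pos (neg_pos.2 hl) h0) (hc m))
    rw [b.coord_apply]
    split_ifs
    · exact zero_le_one
    · exact le_rfl
  · rw [Convex.combo_affine_apply h1, smul_eq_mul, smul_eq_mul]
    ring

end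

theorem simp_facts : SimpStmt := by
  classical
  intro E _ _ _ D b
  refine ⟨fun hD => ⟨?_, Finset.univ.image b.coord, ?_, ?_, eq_Simp b⟩, ⟨_, eq_Simp b⟩,
    mem_Simp b, fun g hg ⟨x, hx, h0⟩ => ?_, fun g hg l l' ⟨h1, h2⟩ => ?_⟩
  · refine (isBounded_convexHull.2 (finite_range b).isBounded).subset fun x hx => ?_
    rw [b.convexHull_eq_nonneg_coord]
    exact fun l => (hx l).le
  · exact Finset.card_image_le.trans (by simp)
  · intro g hg h
    obtain ⟨l, -, rfl⟩ := Finset.mem_image.1 hg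
    have : Nontrivial (Fin (D + 1)) := Fin.nontrivial_iff_two_le.2 (by omega)
    obtain ⟨l', hl⟩ := exists_ne l
    have h1 := (b.coord l).linearMap_vsub (b l) (b l')
    rw [h, b.coord_apply_eq, b.coord_apply_ne hl.symm] at h1
    simp at h1
  · obtain ⟨μ, h1, h2, rfl⟩ := (mem_Simp b x).1 hx
    rw [comb_Simp g h2] at h0
    have h3 : ¬∀ l, g (b l) = 0 := fun h => hg (LinearMap.ext fun v => by
      have h4 : ∀ y, g y = 0 := fun y => by
        rw [← b.linear_combination_coord_eq_self y, comb_Simp g (b.sum_coord_apply_eq_one y)]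
        simp [h]
      have h5 := g.map_vadd 0 v
      rw [h4, h4] at h5
      simpa using h5.symm)
    have h4 : ∃ l, 0 < g (b l) := by
      by_contra h
      refine h3 fun l => ?_
      have h5 := (Finset.sum_eq_zero_iff_of_nonpos fun l _ =>
        mul_nonpos_of_nonneg_of_nonpos (h1 l).le (not_lt.1 fun h' => h ⟨l, h'⟩)).1 h0 l
        (Finset.mem_univ l)
      exact (mul_eq_zero.1 h5).resolve_left (h1 l).ne'
    have h5 : ∃ l, g (b l) < 0 := by
      by_contra h
      refine h3 fun l => ?_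
      have h5 := (Finset.sum_eq_zero_iff_of_nonneg fun l _ =>
        mul_nonneg (h1 l).le (not_lt.1 fun h' => h ⟨l, h'⟩)).1 h0 l (Finset.mem_univ l)
      exact (mul_eq_zero.1 h5).resolve_left (h1 l).ne'
    obtain ⟨l, hl⟩ := h4
    obtain ⟨l', hl'⟩ := h5
    exact ⟨l, l', hl, hl'⟩
  · have hD : (0 : ℝ) < (D + 1 : ℕ) := Nat.cast_pos.2 D.succ_pos
    obtain ⟨c, hc⟩ : (Simp b).Nonempty :=
      ⟨_, (mem_Simp b _).2 ⟨fun _ => ((D + 1 : ℕ) : ℝ)⁻¹, fun _ => inv_pos.2 hD, by
        rw [Finset.sum_const, Finset.card_univ, Fintype.card_fin, nsmul_eq_mul,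
          mul_inv_cancel₀ hD.ne'], rfl⟩⟩
    rcases lt_or_gt_of_ne (hg c hc) with h | h
    · obtain ⟨x, hx, h0⟩ := zero_Simp b (-g) hc (by simpa using h) (l := l) (by simpa using h1)
      exact hg x hx (by simpa using h0)
    · obtain ⟨x, hx, h0⟩ := zero_Simp b g hc h h2
      exact hg x hx h0

end Pool.Agent.MP_a2955b_co.Up

end

section

/-! Every point of a bounded region lies in the open simplex of a chain. -/

set_option autoImplicit false

namespace Pool.Agent.MP_a2955b_co.Up

open Set Module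

theorem real_ChainEx {u v s : ℝ} (h : SignType.sign u = SignType.sign v) (hs : 0 ≤ s)
    (hb : u * (u - v) < 0 → s ≤ u / (v - u)) :
    u + s * (u - v) = 0 ∨ SignType.sign (u + s * (u - v)) = SignType.sign u := by
  rcases lt_trichotomy u 0 with hu | hu | hu
  · have h1 : u + s * (u - v) ≤ 0 := by
      rcases le_or_gt (u - v) 0 with e | e
      · nlinarith [mul_nonneg hs (neg_nonneg.2 e)]
      · have := hb (mul_neg_of_neg_of_pos hu e)
        rw [le_div_iff_of_neg (by linarith)] at this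
        linarith
    exact h1.eq_or_lt.imp id fun e => by rw [sign_neg e, sign_neg hu]
  · rw [hu, sign_zero, eq_comm, sign_eq_zero_iff] at h
    left
    rw [hu, h]
    ring
  · have h1 : 0 ≤ u + s * (u - v) := by
      rcases le_or_gt 0 (u - v) with e | e
      · nlinarith [mul_nonneg hs e]
      · have := hb (mul_neg_of_pos_of_neg hu e)
        rw [le_div_iff₀ (by linarith)] at this
        linarith
    exact h1.eq_or_lt.imp Eq.symm fun e => by rw [sign_pos e, sign_pos hu]

variable {E : Type} [NormedAddCommGroup E] [NormedSpace ℝ E] {κ : Type} {g : κ → Af E}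
  {A J : Finset κ}

theorem trans_ChainEx {x y z : E} (h : Below g A x y) (h' : Below g A y z) : Below g A x z :=
  fun j hj => (h j hj).elim Or.inl fun e => (h' j hj).elim
    (fun e' => Or.inl (by rwa [e', sign_zero, sign_eq_zero_iff] at e)) fun e' => Or.inr (e.trans e')

theorem mem_ChainEx (hJ : J ⊆ A) {x y : E} (h : Below g A y x) (hx : ∀ j ∈ J, 0 ≤ g j x) :
    ∀ j ∈ J, 0 ≤ g j y := fun j hj => (h j (hJ hj)).elim Eq.ge fun e => by
  rw [← sign_nonneg_iff, e, sign_nonneg_iff]
  exact hx j hj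

theorem val_ChainEx (f : Af E) (x c : E) (s : ℝ) :
    f (s • (x - c) + x) = f x + s * (f x - f c) := by
  have h := f.map_vadd x (s • (x - c))
  have h2 := f.linearMap_vsub x c
  rw [vadd_eq_add, vadd_eq_add, map_smul] at h
  rw [vsub_eq_sub, vsub_eq_sub] at h2
  rw [h, h2, smul_eq_mul, add_comm]

theorem step_ChainEx (hJ : J ⊆ A) (hB : Bornology.IsBounded {x | ∀ j ∈ J, 0 ≤ g j x}) {x c : E}
    (hx : ∀ j ∈ J, 0 ≤ g j x) (hc : SameSg g A x c) (hne : x ≠ c) :
    ∃ (y : E) (t : ℝ), 0 < t ∧ t < 1 ∧ x = t • y + (1 - t) • c ∧ Below g A y x ∧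
      ∃ j ∈ A, g j y = 0 ∧ g j x ≠ 0 := by
  classical
  rcases (A.filter fun j => g j x * (g j x - g j c) < 0).eq_empty_or_nonempty with h | h
  · exfalso
    obtain ⟨R, hR, hR'⟩ := hB.exists_pos_norm_le
    have h0 : 0 < ‖x - c‖ := norm_pos_iff.2 (sub_ne_zero.2 hne)
    have hs : 0 ≤ (R + ‖x‖ + 1) / ‖x - c‖ := by positivity
    have h1 : Below g A (((R + ‖x‖ + 1) / ‖x - c‖) • (x - c) + x) x := fun j hj => by
      rw [val_ChainEx]
      exact real_ChainEx (hc j hj) hs fun e =>
        absurd e (Finset.filter_eq_empty_iff.1 h hj)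
    have h2 := hR' _ (mem_ChainEx hJ h1 hx)
    have h3 := norm_sub_le (((R + ‖x‖ + 1) / ‖x - c‖) • (x - c) + x) x
    rw [add_sub_cancel_right, norm_smul, Real.norm_of_nonneg hs, div_mul_cancel₀ _ h0.ne'] at h3
    linarith
  · obtain ⟨i, hi, hmin⟩ := Finset.exists_min_image _ (fun j => g j x / (g j c - g j x)) h
    obtain ⟨hiA, hi⟩ := Finset.mem_filter.1 hi
    have h1 : g i c - g i x ≠ 0 := fun e => by
      rw [show g i x - g i c = 0 by linarith, mul_zero] at hi
      exact lt_irrefl _ hi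
    have hs : 0 < g i x / (g i c - g i x) := by
      rw [div_pos_iff]
      rcases mul_neg_iff.1 hi with e | e
      · exact Or.inl ⟨e.1, by linarith [e.2]⟩
      · exact Or.inr ⟨e.1, by linarith [e.2]⟩
    obtain ⟨s, hs'⟩ : ∃ s, s = g i x / (g i c - g i x) := ⟨_, rfl⟩
    rw [← hs'] at hs hmin
    have h2 : 0 < 1 + s := by linarith
    refine ⟨s • (x - c) + x, (1 + s)⁻¹, inv_pos.2 h2, inv_lt_one_of_one_lt₀ (by linarith), ?_,
      fun j hj => ?_, i, hiA, ?_, fun e => ?_⟩
    · match_scalars <;> field_simp <;> ring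
    · rw [val_ChainEx]
      exact real_ChainEx (hc j hj) hs.le fun e => hmin j (Finset.mem_filter.2 ⟨hj, e⟩)
    · rw [val_ChainEx, hs']
      field_simp
      ring
    · rw [e, zero_mul] at hi
      exact lt_irrefl _ hi

theorem snoc_ChainEx {r : ℕ} {b : Fin (r + 1) → E} {c : E} (hb : Chain g A b)
    (hc : rep g A c = c) (h1 : ∀ l, Below g A (b l) c) (h2 : ∀ l, ¬ SameSg g A (b l) c) :
    Chain g A (Fin.snoc (α := fun _ => E) b c) := by
  have key : ∀ P : E → E → Prop, (∀ l l', l < l' → P (b l) (b l')) → (∀ l, P (b l) c) →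
      ∀ l l' : Fin (r + 1 + 1), l < l' →
        P (Fin.snoc (α := fun _ => E) b c l) (Fin.snoc (α := fun _ => E) b c l') := by
    intro P p1 p2 l l' h
    induction l using Fin.lastCases with
    | last => exact absurd h (Fin.le_last _).not_gt
    | cast l =>
      induction l' using Fin.lastCases with
      | last => simpa using p2 l
      | cast l' => simpa using p1 l l' (Fin.castSucc_lt_castSucc_iff.1 h)
  refine ⟨fun l => ?_, key _ hb.below h1, key (fun x y => ¬ SameSg g A x y) hb.ne h2⟩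
  induction l using Fin.lastCases with
  | last => simpa using hc
  | cast l => simpa using hb.fix l

theorem chainEx_of (hC : ChainStmt) : ChainExStmt := by
  classical
  intro E _ _ κ g A J hJ hB x hx
  obtain ⟨c1, c2, -, -, c5, -⟩ := hC E κ g A
  induction hn : (A.filter fun j => g j x ≠ 0).card using Nat.strong_induction_on generalizing x with
  | _ n ih =>
  by_cases hne : x = rep g A x
  · refine ⟨0, fun _ => x, fun _ => 1, ⟨fun _ => hne.symm, fun l l' h => ?_, fun l l' h => ?_⟩,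
      fun _ => one_pos, by simp, by simp⟩ <;> omega
  obtain ⟨y, t, t0, t1, e, hy, i, hi, hiy, hix⟩ := step_ChainEx hJ hB hx (c1 x) hne
  have hlt : (A.filter fun j => g j y ≠ 0).card < n := by
    rw [← hn]
    refine Finset.card_lt_card ⟨fun j hj => ?_, fun h => ?_⟩
    · obtain ⟨hj, h0⟩ := Finset.mem_filter.1 hj
      refine Finset.mem_filter.2 ⟨hj, fun e' => h0 ?_⟩
      exact (hy j hj).elim id fun e'' => by rwa [e', sign_zero, sign_eq_zero_iff] at e''
    · exact (Finset.mem_filter.1 (h (Finset.mem_filter.2 ⟨hi, hix⟩))).2 hiy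
  obtain ⟨r, b, μ, hb, μ0, μ1, hyb⟩ := ih _ hlt y (mem_ChainEx hJ hy hx) rfl
  have h1 : SameSg g A y (b (Fin.last r)) := hyb ▸ c5 r b μ hb μ0 μ1
  have h2 : ∀ l, Below g A (b l) y := fun l => by
    refine trans_ChainEx (y := b (Fin.last r)) ?_ fun j hj => Or.inr (h1 j hj).symm
    rcases (Fin.le_last l).eq_or_lt with rfl | h
    · exact fun j _ => Or.inr rfl
    · exact hb.below _ _ h
  refine ⟨r + 1, Fin.snoc (α := fun _ => E) b (rep g A x),
    Fin.snoc (α := fun _ => ℝ) (fun l => t * μ l) (1 - t),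
    snoc_ChainEx hb (c2 _ _ (c1 x)).symm
      (fun l => trans_ChainEx (trans_ChainEx (h2 l) hy) fun j hj => Or.inr (c1 x j hj))
      fun l h => hix ?_, fun l => ?_, ?_, ?_⟩
  · have h3 : g i (b l) = 0 :=
      (h2 l i hi).elim id fun e' => by rwa [hiy, sign_zero, sign_eq_zero_iff] at e'
    rw [← sign_eq_zero_iff, c1 x i hi, ← h i hi, h3, sign_zero]
  · induction l using Fin.lastCases with
    | last => simpa using t1
    | cast l => simpa using mul_pos t0 (μ0 l)
  · rw [Fin.sum_univ_castSucc]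
    simp only [Fin.snoc_castSucc, Fin.snoc_last]
    rw [← Finset.mul_sum, μ1]
    ring
  · rw [Fin.sum_univ_castSucc]
    simp only [Fin.snoc_castSucc, Fin.snoc_last, mul_smul]
    rw [← Finset.smul_sum, ← hyb]
    exact e

end Pool.Agent.MP_a2955b_co.Up

end

section

set_option autoImplicit false

namespace Pool.Agent.MP_a2955b_co.Up

open Set Module

section aux

variable {E : Type} [NormedAddCommGroup E] [NormedSpace ℝ E]

theorem const_Hull (g : Af E) (hg : g.linear = 0) (z z' : E) : g z = g z' := by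
  have h := g.linearMap_vsub z z'
  rw [hg] at h
  simp only [LinearMap.zero_apply, vsub_eq_sub] at h
  linarith

theorem mem_basis_Hull {ι : Type} [Fintype ι] (b : AffineBasis ι ℝ E) (p : ι → Prop)
    (z : E) : z ∈ convexHull ℝ (b '' {i | p i}) ↔
      (∀ i, 0 ≤ b.coord i z) ∧ ∀ i, ¬ p i → b.coord i z = 0 := by
  classical
  constructor
  · intro hz
    have hc : Convex ℝ {z : E | (∀ i, 0 ≤ b.coord i z) ∧ ∀ i, ¬ p i → b.coord i z = 0} := by
      intro x hx y hy s t hs ht hst
      have key : ∀ i, b.coord i (s • x + t • y) = s * b.coord i x + t * b.coord i y := by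
        intro i
        have := Convex.combo_affine_apply (f := b.coord i) (x := x) (y := y) hst
        simpa using this
      refine ⟨fun i => ?_, fun i hi => ?_⟩
      · rw [key]
        exact add_nonneg (mul_nonneg hs (hx.1 i)) (mul_nonneg ht (hy.1 i))
      · rw [key, hx.2 i hi, hy.2 i hi]
        ring
    refine convexHull_min ?_ hc hz
    rintro _ ⟨j, hj, rfl⟩
    refine ⟨fun i => ?_, fun i hi => ?_⟩
    · rw [b.coord_apply]
      split_ifs <;> norm_num
    · apply b.coord_apply_ne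
      rintro rfl
      exact hi hj
  · rintro ⟨h0, h1⟩
    have e1 : ∑ i ∈ Finset.univ.filter p, b.coord i z = 1 := by
      rw [← b.sum_coord_apply_eq_one z]
      apply Finset.sum_filter_of_ne
      intro i _ hi
      by_contra hp
      exact hi (h1 i hp)
    have e2 : ∑ i ∈ Finset.univ.filter p, b.coord i z • b i = z := by
      conv_rhs => rw [← b.linear_combination_coord_eq_self z]
      apply Finset.sum_filter_of_ne
      intro i _ hi
      by_contra hp
      exact hi (by rw [h1 i hp, zero_smul])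
    rw [← e2]
    refine (convex_convexHull ℝ _).sum_mem (fun i _ => h0 i) e1 ?_
    intro i hi
    exact subset_convexHull ℝ _ ⟨i, (Finset.mem_filter.1 hi).2, rfl⟩

theorem one_Hull [FiniteDimensional ℝ E] (K : Finset E) :
    ∃ G : Finset (Af E), G.card ≤ finrank ℝ E + 1 ∧ (∀ g ∈ G, g.linear ≠ 0) ∧
      (AffineIndependent ℝ ((↑) : K → E) →
        ∀ z z', (∀ g ∈ G, SignType.sign (g z) = SignType.sign (g z')) →
          z ∈ convexHull ℝ (K : Set E) → z' ∈ convexHull ℝ (K : Set E)) := by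
  classical
  by_cases hK : AffineIndependent ℝ ((↑) : K → E)
  swap
  · exact ⟨∅, by simp, by simp, fun h => absurd h hK⟩
  obtain ⟨t, hKt, hind, hspan⟩ :=
    exists_subset_affineIndependent_affineSpan_eq_top (k := ℝ) (V := E) (s := (K : Set E)) hK
  have hfin : t.Finite := finite_set_of_fin_dim_affineIndependent ℝ hind
  have : Fintype t := hfin.fintype
  let b : AffineBasis t ℝ E := ⟨(↑), hind, by simpa using hspan⟩
  have hb : ∀ i : t, b i = (i : E) := fun i => rfl
  have hcard : Fintype.card t = finrank ℝ E + 1 :=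
    (hind.affineSpan_eq_top_iff_card_eq_finrank_add_one).1 (by simpa using hspan)
  have himg : b '' {i | (i : E) ∈ K} = (K : Set E) := by
    ext x
    constructor
    · rintro ⟨i, hi, rfl⟩
      exact hi
    · intro hx
      exact ⟨⟨x, hKt hx⟩, hx, rfl⟩
  refine ⟨(Finset.univ.image fun i => b.coord i).filter fun g => g.linear ≠ 0, ?_, ?_, ?_⟩
  · refine (Finset.card_filter_le _ _).trans (Finset.card_image_le.trans ?_)
    rw [Finset.card_univ, hcard]
  · intro g hg
    exact (Finset.mem_filter.1 hg).2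
  · intro _ z z' hs hz
    have hsg : ∀ i, SignType.sign (b.coord i z) = SignType.sign (b.coord i z') := by
      intro i
      by_cases hl : (b.coord i).linear = 0
      · rw [const_Hull _ hl z z']
      · exact hs _ (Finset.mem_filter.2 ⟨Finset.mem_image_of_mem _ (Finset.mem_univ i), hl⟩)
    rw [← himg] at hz ⊢
    rw [mem_basis_Hull] at hz ⊢
    refine ⟨fun i => ?_, fun i hi => ?_⟩
    · rw [← sign_nonneg_iff, ← hsg, sign_nonneg_iff]
      exact hz.1 i
    · rw [← sign_eq_zero_iff, ← hsg, sign_eq_zero_iff]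
      exact hz.2 i hi

end aux

theorem hull : HullStmt := by
  intro E _ _ _ T
  classical
  choose G hG1 hG2 hG3 using fun K : Finset E => one_Hull K
  refine ⟨T.powerset.biUnion G, ?_, ?_, ?_⟩
  · refine (Finset.card_biUnion_le_card_mul _ _ _ fun K _ => hG1 K).trans ?_
    rw [Finset.card_powerset]
  · intro g hg
    obtain ⟨K, _, hK⟩ := Finset.mem_biUnion.1 hg
    exact hG2 K g hK
  · intro z z' hs hz
    rw [convexHull_eq_union] at hz
    simp only [mem_iUnion] at hz
    obtain ⟨K, hKT, hind, hz⟩ := hz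
    have hKT' : K ∈ T.powerset := Finset.mem_powerset.2 (Finset.coe_subset.1 hKT)
    have := hG3 K hind z z' (fun g hg => hs g (Finset.mem_biUnion.2 ⟨K, hKT', hg⟩)) hz
    exact convexHull_mono hKT this

theorem above : AboveStmt := by
  intro E _ _ _ T M
  classical
  let u : E × ℝ := (0, max M 0)
  let T' : Finset (E × ℝ) := T ∪ T.image fun p => p + u
  have hT' : T'.card ≤ 2 * T.card := by
    refine (Finset.card_union_le _ _).trans ?_
    have := Finset.card_image_le (s := T) (f := fun p => p + u)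
    omega
  obtain ⟨G, hG1, hG2, hG3⟩ := hull (E × ℝ) T'
  refine ⟨G, ?_, hG2, ?_⟩
  · refine hG1.trans ?_
    rw [Module.finrank_prod, Module.finrank_self]
    exact Nat.mul_le_mul (Nat.pow_le_pow_right (by norm_num) hT') le_rfl
  · rintro z z' hs ⟨w, hw, h1, h2, h3⟩
    have hM : 0 ≤ M := by linarith
    have hu : u = (0, M) := by simp [u, hM]
    have hw1 : w ∈ convexHull ℝ (T' : Set (E × ℝ)) :=
      convexHull_mono (by simp [T']) hw
    have hw2 : w + u ∈ convexHull ℝ (T' : Set (E × ℝ)) := by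
      have hc : Convex ℝ {p : E × ℝ | p + u ∈ convexHull ℝ (T' : Set (E × ℝ))} := by
        intro x hx y hy s t hs ht hst
        have e : s • x + t • y + u = s • (x + u) + t • (y + u) := by
          rw [smul_add, smul_add]
          have : u = s • u + t • u := by rw [← add_smul, hst, one_smul]
          conv_lhs => rw [this]
          abel
        show s • x + t • y + u ∈ convexHull ℝ (T' : Set (E × ℝ))
        rw [e]
        exact convex_convexHull ℝ _ hx hy hs ht hst
      refine convexHull_min ?_ hc hw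
      intro p hp
      apply subset_convexHull
      simp only [T', Finset.coe_union, Finset.coe_image]
      exact Or.inr ⟨p, hp, rfl⟩
    have hz : z ∈ convexHull ℝ (T' : Set (E × ℝ)) := by
      rcases hM.eq_or_lt with h0 | h0
      · have : z = w := Prod.ext h1.symm (by linarith)
        rw [this]
        exact hw1
      · have hs0 : 0 ≤ (z.2 - w.2) / M := div_nonneg (by linarith) hM
        have hs1 : (z.2 - w.2) / M ≤ 1 := (div_le_one h0).2 (by linarith)
        have := convex_convexHull ℝ _ hw1 hw2 (a := 1 - (z.2 - w.2) / M) (b := (z.2 - w.2) / M)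
          (by linarith) hs0 (by ring)
        have e : (1 - (z.2 - w.2) / M) • w + ((z.2 - w.2) / M) • (w + u) = z := by
          rw [hu]
          apply Prod.ext
          · simp only [Prod.fst_add, Prod.smul_fst, add_zero]
            rw [← add_smul, ← h1]
            simp
          · simp only [Prod.snd_add, Prod.smul_snd, smul_eq_mul]
            field_simp
            ring
        rwa [e] at this
    have hz' := hG3 z z' hs hz
    have hc : Convex ℝ (Above (T : Set (E × ℝ))) := by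
      rintro x ⟨a, ha, a1, a2⟩ y ⟨b, hb, b1, b2⟩ s t hs ht hst
      refine ⟨s • a + t • b, convex_convexHull ℝ _ ha hb hs ht hst, ?_, ?_⟩
      · simp [a1, b1]
      · simp only [Prod.snd_add, Prod.smul_snd, smul_eq_mul]
        exact add_le_add (mul_le_mul_of_nonneg_left a2 hs) (mul_le_mul_of_nonneg_left b2 ht)
    refine convexHull_min ?_ hc hz'
    intro p hp
    simp only [T', Finset.coe_union, Finset.coe_image] at hp
    rcases hp with hp | ⟨q, hq, rfl⟩
    · exact ⟨p, subset_convexHull ℝ _ hp, rfl, le_rfl⟩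
    · refine ⟨q, subset_convexHull ℝ _ hq, ?_, ?_⟩
      · simp [hu]
      · simp [hu, hM]

end Pool.Agent.MP_a2955b_co.Up

end

section

set_option autoImplicit false

namespace Pool.Agent.MP_a2955b_co.Up

open Set Module

theorem ramsey_prod : RamseyStmt := by
  intro D C _
  induction D with
  | zero => exact ⟨0, fun χ => ⟨fun i => i.elim0, fun i => i.elim0, χ fun i => i.elim0,
      fun a b _ => congrArg χ (Subsingleton.elim _ _)⟩⟩
  | succ D ih =>
    obtain ⟨L, hL⟩ := ih
    have := Fintype.ofFinite ((Fin D → Fin L × Fin L) → C)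
    obtain ⟨N, hN⟩ := MP_41f2d3_co.ramsey ((Fin D → Fin L × Fin L) → C) 3
    refine ⟨L + N + 1, fun χ => ?_⟩
    let g : ℕ → Fin (L + N + 1) := fun x => ⟨x % (L + N + 1), Nat.mod_lt _ (Nat.succ_pos _)⟩
    let u : Fin L → Fin (L + N + 1) := Fin.castLE (by omega)
    obtain ⟨f, hf, hm, c0, hc0⟩ := hN fun x y r =>
      χ (Fin.cons (g x, g y) fun i => (u (r i).1, u (r i).2))
    obtain ⟨s, hs, c, hc⟩ := hL c0
    refine ⟨Fin.cons (fun k => g (f k)) fun i k => u (s i k), fun i => ?_, c, fun a b hab => ?_⟩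
    · refine Fin.cases ?_ (fun i => ?_) i
      · intro k l hkl
        have h1 := hf k
        have h2 := hf l
        change f k % _ < f l % _
        rw [Nat.mod_eq_of_lt (by omega), Nat.mod_eq_of_lt (by omega)]
        exact hm k l hkl
      · exact fun k l hkl => hs i hkl
    · rw [← hc (fun i => a i.succ) (fun i => b i.succ) fun i => hab _, ← hc0 _ _ (hab 0)]
      refine congrArg χ (funext fun i => ?_)
      refine Fin.cases ?_ (fun i => ?_) i <;> rfl

theorem comb_Ramsey (hR : RamseyStmt) (D : ℕ) : ∃ L : ℕ,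
    ∀ f : (Fin D → Fin L) → Fin D → Fin L → SignType, ∃ s : Fin D → Fin 3 → Fin L,
      (∀ i, StrictMono (s i)) ∧ ∃ σ σ' : Fin D → SignType,
        ∀ (j : Fin D → Fin 3) (i : Fin D) (k : Fin 3),
          (k < j i → f (fun i' => s i' (j i')) i (s i k) = σ i) ∧
          (j i < k → f (fun i' => s i' (j i')) i (s i k) = σ' i) := by
  obtain ⟨L, hL⟩ := hR D (Fin D → (Fin D → Bool) → SignType × SignType)
  refine ⟨L, fun f => ?_⟩
  obtain ⟨s, hs, c, hc⟩ := hL fun p i ω =>
    (f (fun i' => if ω i' then (p i').2 else (p i').1) i (p i).1,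
      f (fun i' => if ω i' then (p i').2 else (p i').1) i (p i).2)
  have H : ∀ (a b j : Fin D → Fin 3) (ω : Fin D → Bool), (∀ i, a i < b i) →
      (∀ i, (if ω i then b i else a i) = j i) → ∀ i,
      (f (fun i' => s i' (j i')) i (s i (a i)), f (fun i' => s i' (j i')) i (s i (b i))) =
        c i ω := by
    intro a b j ω hab hj i
    have e : (fun i' => s i' (j i')) = fun i' => if ω i' then s i' (b i') else s i' (a i') :=
      funext fun i' => by rw [← hj, apply_ite (s i')]
    rw [e, ← hc a b hab]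
  have H1 := fun ω : Fin D → Bool => H (fun i => if ω i then 0 else 1) (fun i => if ω i then 1 else 2)
    (fun _ => 1) ω (fun i => by cases ω i <;> decide) (fun i => by cases ω i <;> rfl)
  refine ⟨s, hs, fun i => f (fun i' => s i' 1) i (s i 0), fun i => f (fun i' => s i' 1) i (s i 2),
    fun j i k => ⟨fun hk => ?_, fun hk => ?_⟩⟩
  · have h0 : j i ≠ 0 := (Fin.pos_iff_ne_zero.1 ((Fin.zero_le k).trans_lt hk))
    have h1 := (H (fun i' => if i' = i then k else 0) (fun i' => if j i' = 0 then 1 else j i') j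
      (fun i' => decide (j i' ≠ 0)) (fun i' => ?_) (fun i' => ?_) i).trans (H1 _ i).symm
    · simpa [h0] using congrArg Prod.fst h1
    · by_cases h : i' = i
      · simpa [h, h0] using hk
      · by_cases h' : j i' = 0
        · simp [h, h']
        · simpa [h, h'] using Fin.pos_iff_ne_zero.2 h'
    · by_cases h : i' = i
      · simp [h, h0]
      · by_cases h' : j i' = 0 <;> simp [h, h']
  · have h0 : j i ≠ 2 := by omega
    have h1 := (H (fun i' => if j i' = 2 then 0 else j i') (fun i' => if i' = i then k else 2) j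
      (fun i' => decide (j i' = 2)) (fun i' => ?_) (fun i' => ?_) i).trans (H1 _ i).symm
    · simpa [h0] using congrArg Prod.snd h1
    · by_cases h : i' = i
      · simpa [h, h0] using hk
      · by_cases h' : j i' = 2
        · simp [h, h']
        · simp only [h, h', if_false]
          omega
    · by_cases h : i' = i
      · simp [h, h0]
      · by_cases h' : j i' = 2 <;> simp [h, h']

theorem goodSub_of (hR : RamseyStmt) : GoodSubStmt := by
  intro E _ _ D
  obtain ⟨L, hL⟩ := comb_Ramsey hR D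
  refine ⟨L + 1, L.succ_pos, fun ι φ h e he => ?_⟩
  obtain ⟨s, hs, H⟩ := hL fun j i k =>
    SignType.sign (φ (e i k.castSucc) (vx φ fun i' => e i' (j i').castSucc))
  exact ⟨fun i k => (s i k).castSucc, fun i k l hkl => hs i hkl, fun j => he _, H⟩

end Pool.Agent.MP_a2955b_co.Up

end

section

/-! Supersaturation of boxes. -/

set_option autoImplicit false

namespace Pool.Agent.MP_a2955b_co.Up

open Set Module
open scoped BigOperators

theorem jensen_Super {α : Type} [Fintype α] [Nonempty α] {g : α → ℝ} (hg : ∀ a, 0 ≤ g a) {n : ℕ}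
    (hn : 0 < n) : (𝔼 a, g a) ^ n ≤ 𝔼 a, g a ^ n := by
  obtain ⟨n, rfl⟩ := Nat.exists_eq_add_one_of_ne_zero hn.ne'
  have h := pow_sum_div_card_le_sum_pow (s := Finset.univ) (fun a _ => hg a) n
  rw [Fintype.expect_eq_sum_div_card, Fintype.expect_eq_sum_div_card, div_pow,
    pow_succ (Fintype.card α : ℝ), ← div_div]
  exact div_le_div_of_nonneg_right h (Nat.cast_nonneg _)

theorem cons_Super {α : Type} [Fintype α] {D : ℕ} (g : (Fin (D + 1) → α) → ℝ) :
    𝔼 t, g t = 𝔼 x, 𝔼 t : Fin D → α, g (Fin.cons x t) := by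
  rw [← Finset.expect_product', Finset.univ_product_univ]
  exact (Fintype.expect_equiv (Fin.consEquiv fun _ => α) _ _ fun _ => rfl).symm

theorem main_Super {ι : Type} [Fintype ι] [Nonempty ι] {L : ℕ} (hL : 0 < L) (D : ℕ) :
    ∀ f : (Fin D → ι) → ℝ, (∀ t, 0 ≤ f t) → (𝔼 t, f t) ^ (L ^ D) ≤
      𝔼 e : Fin D → Fin L → ι, ∏ j : Fin D → Fin L, f fun i => e i (j i) := by
  classical
  induction D with
  | zero =>
    intro f _
    simp only [pow_zero, pow_one, Finset.univ_unique, Finset.expect_singleton,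
      Finset.prod_singleton]
    exact (congrArg f (Subsingleton.elim _ _)).le
  | succ D ih =>
    intro f hf
    have h0 : ∀ (x : ι) (e : Fin D → Fin L → ι),
        0 ≤ ∏ j : Fin D → Fin L, f (Fin.cons x fun i => e i (j i)) := fun x e =>
      Finset.prod_nonneg fun _ _ => hf _
    calc (𝔼 t, f t) ^ (L ^ (D + 1)) = ((𝔼 x, 𝔼 t : Fin D → ι, f (Fin.cons x t)) ^ (L ^ D)) ^ L := by
          rw [cons_Super, pow_succ, pow_mul]
      _ ≤ (𝔼 x, 𝔼 e : Fin D → Fin L → ι,
            ∏ j : Fin D → Fin L, f (Fin.cons x fun i => e i (j i))) ^ L := by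
          have h1 : ∀ x, 0 ≤ 𝔼 t : Fin D → ι, f (Fin.cons x t) := fun x =>
            Finset.expect_nonneg fun _ _ => hf _
          refine pow_le_pow_left₀ (pow_nonneg (Finset.expect_nonneg fun x _ => h1 x) _)
            ((jensen_Super h1 (pow_pos hL D)).trans (Finset.expect_le_expect fun x _ => ?_)) L
          exact ih (fun t => f (Fin.cons x t)) fun _ => hf _
      _ ≤ 𝔼 e : Fin D → Fin L → ι,
            (𝔼 x, ∏ j : Fin D → Fin L, f (Fin.cons x fun i => e i (j i))) ^ L := by
          rw [Finset.expect_comm]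
          exact jensen_Super (fun e => Finset.expect_nonneg fun x _ => h0 x e) hL
      _ = _ := by
          rw [cons_Super, Finset.expect_comm]
          refine Finset.expect_congr rfl fun e _ => ?_
          rw [Finset.expect_pow, Fintype.piFinset_univ]
          refine Finset.expect_congr rfl fun p _ => ?_
          rw [← Finset.prod_product', Finset.univ_product_univ]
          refine Fintype.prod_equiv (Fin.consEquiv fun _ => Fin L) _ _ fun j => congrArg f ?_
          funext i
          refine Fin.cases rfl (fun _ => rfl) i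

theorem super : SuperStmt := by
  classical
  intro ι _ _ D L hL U
  have h := main_Super hL D (fun t => if t ∈ U then 1 else 0) fun t => by
    split_ifs
    exacts [zero_le_one, le_rfl]
  have hc : ∀ {α : Type} [Fintype α] (S : Set α),
      S.ncard = (Finset.univ.filter fun a => a ∈ S).card := fun S => by
    rw [← Set.ncard_coe_finset]
    congr 1
    ext a
    simp
  have hm : (0 : ℝ) < Fintype.card ι := Nat.cast_pos.2 Fintype.card_pos
  simp only [Fintype.expect_eq_sum_div_card, Finset.prod_boole, Finset.sum_boole, Finset.mem_univ,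
    forall_true_left, Fintype.card_fun, Fintype.card_fin, div_pow] at h
  rw [div_le_div_iff₀ (by positivity) (by positivity), ← pow_mul, mul_comm L] at h
  rw [hc, hc]
  convert (Nat.cast_le (α := ℝ)).1 (by exact_mod_cast h) using 3
  exact Finset.filter_congr_decidable _ _ _

end Pool.Agent.MP_a2955b_co.Up

end

section

set_option autoImplicit false

namespace Pool.Agent.MP_a2955b_co.Up

open Set Module

section
variable {E : Type} [NormedAddCommGroup E] [NormedSpace ℝ E] {ι : Type} {D : ℕ} {φ h : ι → Af E}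

theorem kills_mono_Walls {W W' : Finset (Af E)} {G G' : Finset (Af (E × ℝ))} {t : Fin D → ι}
    (hW : W ⊆ W') (hG : G ⊆ G') (hk : Kills φ h W G t) : Kills φ h W' G' t :=
  fun S O h1 h2 h3 h4 h5 h6 h7 =>
    hk S O h1 h2 (fun w hw => h3 w (hW hw)) h4 h5 h6 fun g hg => h7 g (hG hg)

theorem kills_perm_Walls {W : Finset (Af E)} {G : Finset (Af (E × ℝ))} {t : Fin D → ι}
    (π : Equiv.Perm (Fin D)) (hk : Kills φ h W G (t ∘ π)) : Kills φ h W G t :=
  fun S O h1 h2 h3 h4 h5 h6 h7 h8 =>
    hk S O h1 (h2.imp fun _ hp => ⟨hp.1, fun i => hp.2 (π i)⟩) h3 h4 h5 h6 h7 fun i => h8 (π i)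

theorem vx_perm_Walls (t : Fin D → ι) (π : Equiv.Perm (Fin D)) : vx φ (t ∘ π) = vx φ t := by
  unfold vx
  congr 1
  funext p
  exact propext ⟨fun hp i => by simpa using hp (π.symm i), fun hp i => hp (π i)⟩

theorem srt_Walls {t : Fin D → ι} (ht : Vx φ univ t) :
    ∃ π : Equiv.Perm (Fin D), Srt φ h (t ∘ π) := by
  obtain ⟨h1, p, hp, h2⟩ := ht
  refine ⟨Tuple.sort fun i => h (t i) (vx φ t), ⟨h1.comp _ (Equiv.injective _), p, hp,
    fun i => h2 _⟩, ?_⟩
  rw [vx_perm_Walls]
  exact Tuple.monotone_sort fun i => h (t i) (vx φ t)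

theorem card_perm_Walls [Fintype ι] (U : Set (Fin D → ι)) :
    {t : Fin D → ι | ∃ π : Equiv.Perm (Fin D), t ∘ π ∈ U}.ncard ≤ D.factorial * U.ncard := by
  have h1 : {t : Fin D → ι | ∃ π : Equiv.Perm (Fin D), t ∘ π ∈ U} ⊆
      (fun x : Equiv.Perm (Fin D) × (Fin D → ι) => x.2 ∘ x.1.symm) '' (univ ×ˢ U) := by
    rintro t ⟨π, hπ⟩
    exact ⟨(π, t ∘ π), ⟨mem_univ _, hπ⟩, funext fun i => by simp⟩
  refine (ncard_le_ncard h1 (toFinite _)).trans ((ncard_image_le (toFinite _)).trans_eq ?_)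
  rw [ncard_prod, ncard_univ, Nat.card_eq_fintype_card, Fintype.card_perm, Fintype.card_fin]

theorem greedy_Walls [Fintype ι] {c N q : ℕ}
    (hK : ∀ o : Fin D → Bool → ι,
      ∃ (W : Finset (Af E)) (G : Finset (Af (E × ℝ))), W.card ≤ c ∧ G.card ≤ c ∧
        (∀ w ∈ W, w.linear ≠ 0) ∧ (∀ g ∈ G, g.linear ≠ 0) ∧
        ∀ t : Fin D → ι, Good φ h (box o t) → Kills φ h W G t)
    (hG : ∀ U : Set (Fin D → ι), (∀ t ∈ U, Srt φ h t) → Fintype.card ι ^ D ≤ q * U.ncard →
      ∃ o : Fin D → Bool → ι,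
        Fintype.card ι ^ D ≤ N * {t | t ∈ U ∧ Good φ h (box o t)}.ncard) (r : ℕ) :
    ∃ (W : Finset (Af E)) (G : Finset (Af (E × ℝ))) (U : Set (Fin D → ι)),
      W.card ≤ r * c ∧ G.card ≤ r * c ∧ (∀ w ∈ W, w.linear ≠ 0) ∧ (∀ g ∈ G, g.linear ≠ 0) ∧
      (∀ t ∈ U, Srt φ h t) ∧ (∀ t, Srt φ h t → t ∉ U → Kills φ h W G t) ∧
      (q * U.ncard ≤ Fintype.card ι ^ D ∨
        N * U.ncard + r * Fintype.card ι ^ D ≤ N * Fintype.card ι ^ D) := by
  classical
  induction r with
  | zero =>
    refine ⟨∅, ∅, {t | Srt φ h t}, by simp, by simp, by simp, by simp, fun t ht => ht,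
      fun t ht hn => absurd ht hn, Or.inr ?_⟩
    rw [zero_mul, add_zero]
    refine Nat.mul_le_mul_left _ ((ncard_le_ncard (subset_univ _) (toFinite _)).trans_eq ?_)
    rw [ncard_univ, Nat.card_eq_fintype_card, Fintype.card_fun, Fintype.card_fin]
  | succ r ih =>
    obtain ⟨W, G, U, h1, h2, h3, h4, h5, h6, h7⟩ := ih
    have hc : r * c ≤ (r + 1) * c := Nat.mul_le_mul_right _ (Nat.le_succ r)
    by_cases hq : q * U.ncard ≤ Fintype.card ι ^ D
    · exact ⟨W, G, U, h1.trans hc, h2.trans hc, h3, h4, h5, h6, Or.inl hq⟩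
    obtain ⟨o, ho⟩ := hG U h5 (not_le.1 hq).le
    obtain ⟨W', G', k1, k2, k3, k4, k5⟩ := hK o
    refine ⟨W ∪ W', G ∪ G', U \ {t | t ∈ U ∧ Good φ h (box o t)}, ?_, ?_, ?_, ?_,
      fun t ht => h5 t ht.1, fun t ht hn => ?_, Or.inr ?_⟩
    · refine (Finset.card_union_le _ _).trans ?_
      rw [add_mul, one_mul]
      exact add_le_add h1 k1
    · refine (Finset.card_union_le _ _).trans ?_
      rw [add_mul, one_mul]
      exact add_le_add h2 k2
    · exact fun w hw => (Finset.mem_union.1 hw).elim (h3 w) (k3 w)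
    · exact fun g hg => (Finset.mem_union.1 hg).elim (h4 g) (k4 g)
    · by_cases hU : t ∈ U
      · have hg : Good φ h (box o t) := by
          by_contra hg
          exact hn ⟨hU, fun h' => hg h'.2⟩
        exact kills_mono_Walls Finset.subset_union_right Finset.subset_union_right (k5 t hg)
      · exact kills_mono_Walls Finset.subset_union_left Finset.subset_union_left (h6 t ht hU)
    · have e := ncard_sdiff_add_ncard_of_subset (s := {t | t ∈ U ∧ Good φ h (box o t)}) (t := U)
        (fun t ht => ht.1) (toFinite _)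
      have h8 := h7.resolve_left hq
      rw [← e, mul_add] at h8
      rw [add_mul, one_mul]
      omega

end

theorem walls_of (hK : KillStmt) (hG : GoodCountStmt) : WallsStmt := by
  intro E _ _ _ n hn
  obtain ⟨c, hc⟩ := hK E n hn
  obtain ⟨c1, c2, hc'⟩ := hG E (n + 3)
  refine ⟨c * c1, c2, fun ι _ φ h hφ q _ => ?_⟩
  rcases isEmpty_or_nonempty ι with hι | hι
  · exact ⟨∅, ∅, ∅, by simp, by simp, by simp, by simp, by simp,
      fun t => (hι.false (t 0)).elim⟩
  obtain ⟨W, G, U, h1, h2, h3, h4, h5, h6, h7⟩ :=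
    greedy_Walls (N := c1 * q ^ c2) (q := q) (hc ι φ h hφ) (fun U => hc' ι φ h U q) (c1 * q ^ c2)
  have e : c1 * q ^ c2 * c = c * c1 * q ^ c2 := by ring
  have hq : q * U.ncard ≤ Fintype.card ι ^ (n + 3) := by
    by_contra hq
    obtain ⟨o, ho⟩ := hc' ι φ h U q h5 (not_le.1 hq).le
    have h8 := h7.resolve_left hq
    have h9 : c1 * q ^ c2 * {t | t ∈ U ∧ Good φ h (box o t)}.ncard ≤ c1 * q ^ c2 * U.ncard :=
      Nat.mul_le_mul_left _ (ncard_le_ncard (fun t ht => ht.1) (toFinite _))
    have h10 : 0 < Fintype.card ι ^ (n + 3) := pow_pos Fintype.card_pos _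
    omega
  refine ⟨W, G, {t | ∃ π : Equiv.Perm (Fin (n + 3)), t ∘ π ∈ U}, e ▸ h1, e ▸ h2, h3, h4, ?_,
    fun t ht hn' => ?_⟩
  · refine (Nat.mul_le_mul_left q (card_perm_Walls U)).trans ?_
    rw [mul_left_comm]
    exact Nat.mul_le_mul_left _ hq
  · obtain ⟨π, hπ⟩ := srt_Walls (h := h) ht
    exact kills_perm_Walls π (h6 _ hπ fun hU => hn' ⟨π, hU⟩)

end Pool.Agent.MP_a2955b_co.Up

end

section

set_option autoImplicit false

namespace Pool.Agent.MP_a2955b_co.Up

open Set Module

lemma rank_Coord {X : Type} [NormedAddCommGroup X] [NormedSpace ℝ X] {D : ℕ} (hD : 1 ≤ D)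
    (T : Finset X) (hT : T.card ≤ D) : finrank ℝ (vectorSpan ℝ (T : Set X)) < D := by
  classical
  rcases Nat.eq_zero_or_pos T.card with h0 | h0
  · rw [Finset.card_eq_zero] at h0
    subst h0
    rw [Finset.coe_empty, vectorSpan_empty, finrank_bot]
    omega
  · have h := finrank_vectorSpan_image_finset_le ℝ (fun x : X => x) T
      (n := T.card - 1) (by omega)
    rw [Finset.image_id'] at h
    omega

/-- the shear taking `(0,1)` to `e` -/
noncomputable def shear_Coord {D : ℕ} (e : (Fin D → ℝ) × ℝ) :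
    ((Fin D → ℝ) × ℝ) →ₗ[ℝ] ((Fin D → ℝ) × ℝ) where
  toFun z := (z.1 + z.2 • e.1, z.2 * e.2)
  map_add' z w := by
    ext i
    · simp only [Prod.fst_add, Prod.snd_add, Pi.add_apply, Pi.smul_apply, smul_eq_mul]; ring
    · simp only [Prod.snd_add]; ring
  map_smul' c z := by
    ext i
    · simp only [Prod.smul_fst, Prod.smul_snd, Pi.add_apply, Pi.smul_apply, smul_eq_mul,
        RingHom.id_apply]; ring
    · simp only [Prod.smul_snd, smul_eq_mul, RingHom.id_apply]; ring

lemma shear_inj_Coord {D : ℕ} (e : (Fin D → ℝ) × ℝ) (he : e.2 ≠ 0) :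
    Function.Injective (shear_Coord e) := by
  rw [← LinearMap.ker_eq_bot, LinearMap.ker_eq_bot']
  intro z hz
  have h1 : z.1 + z.2 • e.1 = 0 := congrArg Prod.fst hz
  have h2 : z.2 * e.2 = 0 := congrArg Prod.snd hz
  have h3 : z.2 = 0 := (mul_eq_zero.1 h2).resolve_right he
  rw [h3, zero_smul, add_zero] at h1
  exact Prod.ext h1 h3

lemma flat_Coord {D : ℕ} (V : Submodule ℝ ((Fin D → ℝ) × ℝ)) (hV : finrank ℝ V < D)
    (h01 : ((0, 1) : (Fin D → ℝ) × ℝ) ∉ V) (z0 : (Fin D → ℝ) × ℝ) :
    ∃ φ h : Af (Fin D → ℝ), φ.linear ≠ 0 ∧ ∀ z, z - z0 ∈ V → z ∈ fl φ h := by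
  obtain ⟨f, hf, hfV⟩ := V.exists_dual_map_eq_bot_of_notMem h01 inferInstance
  have hlt : V.map (LinearMap.fst ℝ (Fin D → ℝ) ℝ) < ⊤ := by
    rw [lt_top_iff_ne_top]
    intro h
    have h1 := Submodule.finrank_map_le (LinearMap.fst ℝ (Fin D → ℝ) ℝ) V
    rw [h, finrank_top, finrank_fin_fun] at h1
    omega
  obtain ⟨l, hl, hlV⟩ := Submodule.exists_dual_map_eq_bot_of_lt_top hlt inferInstance
  set c : ℝ := f (0, 1) with hc
  let η : (Fin D → ℝ) →ₗ[ℝ] ℝ := (-c⁻¹) • (f.comp (LinearMap.inl ℝ (Fin D → ℝ) ℝ))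
  refine ⟨l.toAffineMap - AffineMap.const ℝ _ (l z0.1),
    η.toAffineMap + AffineMap.const ℝ _ (z0.2 - η z0.1), ?_, ?_⟩
  · simpa using hl
  · intro z hz
    have h1 : l (z - z0).1 = 0 := by
      have : l (z - z0).1 ∈ (V.map (LinearMap.fst ℝ (Fin D → ℝ) ℝ)).map l :=
        Submodule.mem_map_of_mem (Submodule.mem_map_of_mem hz)
      rwa [hlV, Submodule.mem_bot] at this
    have h2 : f (z - z0) = 0 := by
      have : f (z - z0) ∈ V.map f := Submodule.mem_map_of_mem hz
      rwa [hfV, Submodule.mem_bot] at this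
    have h3 : z - z0 = ((z.1, 0) : (Fin D → ℝ) × ℝ) - (z0.1, 0) + (z.2 - z0.2) • (0, 1) := by
      ext i <;> simp
    rw [h3, map_add, map_sub, map_smul, ← hc, smul_eq_mul] at h2
    rw [Prod.fst_sub, map_sub] at h1
    refine ⟨?_, ?_⟩
    · simpa using h1
    · simp only [AffineMap.coe_add, Pi.add_apply, LinearMap.coe_toAffineMap,
        AffineMap.const_apply, η, LinearMap.smul_apply, LinearMap.comp_apply,
        LinearMap.inl_apply, smul_eq_mul]
      field_simp
      linarith

theorem coord : CoordStmt := by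
  intro X _ _ _ D hX hD TT hTT hcard
  have hr : finrank ℝ X = finrank ℝ ((Fin D → ℝ) × ℝ) := by
    rw [hX, finrank_prod, finrank_fin_fun, finrank_self]
  let A : X ≃ₗ[ℝ] ((Fin D → ℝ) × ℝ) := LinearEquiv.ofFinrankEq _ _ hr
  haveI : Finite TT := hTT
  let p : Option TT → Submodule ℝ ((Fin D → ℝ) × ℝ) := fun o =>
    match o with
    | none => LinearMap.ker (LinearMap.snd ℝ (Fin D → ℝ) ℝ)
    | some T => (vectorSpan ℝ ((T : Finset X) : Set X)).map A.toLinearMap
  have hp : ∀ o, p o ≠ ⊤ := by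
    rintro (_ | T) h
    · have : ((0, 1) : (Fin D → ℝ) × ℝ) ∈ p none := h ▸ Submodule.mem_top
      simp [p] at this
    · have h1 := Submodule.finrank_map_le A.toLinearMap (vectorSpan ℝ ((T : Finset X) : Set X))
      have h2 := rank_Coord hD (T : Finset X) (hcard _ T.2)
      have h3 : finrank ℝ (p (some T)) = D + 1 := by
        rw [h, finrank_top, ← hr, hX]
      have h4 : finrank ℝ (p (some T)) ≤ _ := h1
      omega
  obtain ⟨e, he⟩ := Submodule.exists_forall_notMem_of_forall_ne_top p hp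
  have he2 : e.2 ≠ 0 := fun h => he none (by simpa [p] using h)
  let C : ((Fin D → ℝ) × ℝ) ≃ₗ[ℝ] ((Fin D → ℝ) × ℝ) :=
    LinearEquiv.ofInjectiveEndo (shear_Coord e) (shear_inj_Coord e he2)
  have hC : C (0, 1) = e := by
    change shear_Coord e (0, 1) = e
    ext i <;> simp [shear_Coord]
  let B : X ≃ₗ[ℝ] ((Fin D → ℝ) × ℝ) := A.trans C.symm
  refine ⟨B.toContinuousLinearEquiv, fun T hT => ?_⟩
  have hV : finrank ℝ ((vectorSpan ℝ (T : Set X)).map B.toLinearMap) < D :=
    lt_of_le_of_lt (Submodule.finrank_map_le _ _) (rank_Coord hD T (hcard T hT))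
  have h01 : ((0, 1) : (Fin D → ℝ) × ℝ) ∉ (vectorSpan ℝ (T : Set X)).map B.toLinearMap := by
    rintro ⟨x, hx, hx'⟩
    refine he (some ⟨T, hT⟩) ⟨x, hx, ?_⟩
    have h1 : C.symm (A x) = (0, 1) := hx'
    rw [LinearEquiv.symm_apply_eq, hC] at h1
    exact h1
  rcases T.eq_empty_or_nonempty with rfl | ⟨t0, ht0⟩
  · obtain ⟨φ, h, h1, -⟩ := flat_Coord _ hV h01 0
    exact ⟨φ, h, h1, fun x hx => by simp at hx⟩
  · obtain ⟨φ, h, h1, h2⟩ := flat_Coord _ hV h01 (B t0)
    refine ⟨φ, h, h1, fun x hx => h2 _ ⟨x - t0, ?_, ?_⟩⟩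
    · have := AffineSubspace.vsub_mem_direction (convexHull_subset_affineSpan _ hx)
        (subset_affineSpan ℝ (T : Set X) ht0)
      rwa [direction_affineSpan] at this
    · simp

end Pool.Agent.MP_a2955b_co.Up

end

section

set_option autoImplicit false

namespace Pool.Agent.MP_a2955b_co.Up

open Set Module

theorem exists_kill_Trace {E : Type} [NormedAddCommGroup E] [NormedSpace ℝ E]
    [FiniteDimensional ℝ E] (h : 2 ≤ finrank ℝ E) (u : E) :
    ∃ f : E →ₗ[ℝ] ℝ, f ≠ 0 ∧ f u = 0 := by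
  have h1 : Submodule.span ℝ {u} < ⊤ := by
    refine lt_top_iff_ne_top.2 fun h2 => ?_
    have h3 := finrank_span_le_card (R := ℝ) ({u} : Set E)
    rw [h2, finrank_top] at h3
    simp at h3
    omega
  obtain ⟨f, hf, hk⟩ := Submodule.exists_le_ker_of_lt_top _ h1
  exact ⟨f, hf, hk (Submodule.mem_span_singleton_self u)⟩

theorem trace : TraceStmt := by
  intro E _ _ _ hE u φ a hφ
  by_cases hu : φ.linear u = 0
  · exact ⟨φ, hφ, hu, Or.inr fun _ hp _ => hp⟩
  by_cases hψ : (φ.linear u • a - a.linear u • φ).linear = 0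
  · obtain ⟨f, hf, hfu⟩ := exists_kill_Trace hE u
    refine ⟨f.toAffineMap, hf, hfu, ?_⟩
    by_cases h0 : ∃ p₀, φ p₀ = 0 ∧ a p₀ = 0
    · obtain ⟨p₀, h1, h2⟩ := h0
      refine Or.inl fun p hp => ?_
      have h3 := LinearMap.congr_fun hψ (p -ᵥ p₀)
      rw [AffineMap.linearMap_vsub] at h3
      simp only [AffineMap.coe_sub, AffineMap.coe_smul, Pi.sub_apply, Pi.smul_apply, hp, h1, h2,
        smul_eq_mul, mul_zero, sub_zero, vsub_eq_sub, LinearMap.zero_apply] at h3
      exact (mul_eq_zero.1 h3).resolve_left hu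
    · exact Or.inr fun p h1 h2 => absurd ⟨p, h1, h2⟩ h0
  · refine ⟨_, hψ, ?_, Or.inr fun p h1 h2 => ?_⟩
    · simp [mul_comm]
    · simp [h1, h2]

end Pool.Agent.MP_a2955b_co.Up

end

section

/-! Cells of an arrangement, and free cutting of a cell. -/

set_option autoImplicit false

namespace Pool.Agent.MP_a2955b_co.Up

open Set Module

section

variable {E : Type} [NormedAddCommGroup E] [NormedSpace ℝ E]

open Classical in
/-- The cell of the sign pattern `P`. -/
def cell_Arr (σ : Set E) (G : Finset (Af E)) (P : Set G) : Set E :=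
  σ ∩ {x | ∀ j ∈ (Finset.univ : Finset G), 0 < (if j ∈ P then j.1 else -j.1) x}

theorem mem_cell_Arr {σ : Set E} {G : Finset (Af E)} {P : Set G} {x : E} :
    x ∈ cell_Arr σ G P ↔ x ∈ σ ∧ ∀ j : G, (j ∈ P → 0 < j.1 x) ∧ (j ∉ P → j.1 x < 0) := by
  classical
  unfold cell_Arr
  simp only [mem_inter_iff, mem_ofPred_eq, Finset.mem_univ, true_imp_iff]
  refine and_congr_right fun _ => forall_congr' fun j => ?_
  by_cases h : j ∈ P
  · simp [h]
  · simp [h]

theorem pat_Arr {σ : Set E} {G : Finset (Af E)} {P : Set G} {x : E} (hx : x ∈ cell_Arr σ G P) :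
    P = {j : G | 0 < j.1 x} := by
  ext j
  have h := (mem_cell_Arr.1 hx).2 j
  constructor
  · exact h.1
  · intro hj
    by_contra hn
    exact lt_asymm (show 0 < j.1 x from hj) (h.2 hn)

end

theorem arr_of (h : SgnStmt) : ArrStmt := by
  classical
  intro E _ _ _ σ hσ G hG
  have hcard := h E G (fun j => j.1)
  have hfin : {P : Set G | ∃ x, P = {i | 0 < i.1 x}}.Finite := Set.toFinite _
  refine ⟨hfin.toFinset.image (cell_Arr σ G), ⟨?_, ?_, ?_, ?_⟩, ?_, ?_, ?_⟩
  · intro O hO
    obtain ⟨P, _, rfl⟩ := Finset.mem_image.1 hO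
    exact hσ.inter (op_family _ _)
  · intro O hO
    obtain ⟨P, _, rfl⟩ := Finset.mem_image.1 hO
    exact inter_subset_left
  · intro O hO O' hO' hne
    obtain ⟨P, _, rfl⟩ := Finset.mem_image.1 hO
    obtain ⟨P', _, rfl⟩ := Finset.mem_image.1 hO'
    rw [Set.disjoint_left]
    intro x hx hx'
    exact hne (by rw [pat_Arr hx, pat_Arr hx'])
  · refine cover_of_off hσ.isOpen (G : Set (Af E)) G.finite_toSet hG ?_
    intro x hx hne
    simp only [mem_iUnion]
    refine ⟨cell_Arr σ G {i | 0 < i.1 x},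
      Finset.mem_image_of_mem _ (hfin.mem_toFinset.2 ⟨x, rfl⟩), ?_⟩
    refine mem_cell_Arr.2 ⟨hx, fun j => ⟨fun hj => hj, fun hj => ?_⟩⟩
    exact lt_of_le_of_ne (not_lt.1 hj) (hne j.1 j.2)
  · refine Finset.card_image_le.trans ?_
    rw [← Set.ncard_eq_toFinset_card _ hfin]
    simpa using hcard
  · intro O hO g hg x hx
    obtain ⟨P, _, rfl⟩ := Finset.mem_image.1 hO
    have h1 := (mem_cell_Arr.1 hx).2 ⟨g, hg⟩
    by_cases hP : (⟨g, hg⟩ : G) ∈ P
    · exact (h1.1 hP).ne'
    · exact (h1.2 hP).ne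
  · intro O hO O' hO' x hx x' hx' hs
    obtain ⟨P, _, rfl⟩ := Finset.mem_image.1 hO
    obtain ⟨P', _, rfl⟩ := Finset.mem_image.1 hO'
    have : P = P' := by
      rw [pat_Arr hx, pat_Arr hx']
      ext j
      simp only [mem_ofPred_eq]
      rw [← sign_eq_one_iff, ← sign_eq_one_iff, hs j.1 j.2]
    rw [this]

theorem free : FreeStmt := by
  classical
  intro E _ _ _ κ f ψ hconv hlin hzero O hO J
  induction J using Finset.induction_on with
  | empty =>
    intro _
    refine ⟨{O}, Part.refl hO, by simp, by simp, ?_⟩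
    intro j _ p hp p' hp' _ _
    rw [Finset.mem_singleton.1 hp, Finset.mem_singleton.1 hp']
  | @insert i J hi ih =>
    intro hJ
    obtain ⟨C, hC, hcard, hdis, huniq⟩ :=
      ih (fun i' hi' => hJ i' (Finset.mem_insert_of_mem hi'))
    choose! Sp hSp using fun (p : Set E) (hp : OP p) => Part.split hp (ψ i) (hlin i)
    let D : Set E → Finset (Set E) := fun p => if (p ∩ f i).Nonempty then Sp p else {p}
    have hD : ∀ p ∈ C, Part p (D p) := by
      intro p hp
      by_cases h : (p ∩ f i).Nonempty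
      · simp only [D, if_pos h]
        exact (hSp p (hC.op p hp)).1
      · simp only [D, if_neg h]
        exact Part.refl (hC.op p hp)
    obtain ⟨C', hC', hcard', hmem⟩ := hC.bind D hD
    refine ⟨C', hC', hcard'.trans ?_, ?_, ?_⟩
    · have h1 : ∀ p ∈ C, (D p).card ≤ 1 + if (p ∩ f i).Nonempty then 1 else 0 := by
        intro p hp
        by_cases h : (p ∩ f i).Nonempty
        · simp only [D, if_pos h]
          exact (hSp p (hC.op p hp)).2.1
        · simp only [D, if_neg h]
          simp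
      have h2 : (C.filter fun p => (p ∩ f i).Nonempty).card ≤ 1 := by
        rw [Finset.card_le_one]
        intro p hp p' hp'
        rw [Finset.mem_filter] at hp hp'
        exact huniq i hi p hp.1 p' hp'.1 hp.2 hp'.2
      refine (Finset.sum_le_sum h1).trans ?_
      rw [Finset.sum_add_distrib, Finset.sum_boole, Finset.card_insert_of_notMem hi]
      simp only [Finset.sum_const, smul_eq_mul, mul_one, Nat.cast_id]
      omega
    · intro p' hp' i' hi'
      obtain ⟨p, hp, hpp⟩ := (hmem p').1 hp'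
      rcases Finset.mem_insert.1 hi' with rfl | hi'
      · by_cases h : (p ∩ f i').Nonempty
        · simp only [D, if_pos h] at hpp
          rw [Set.disjoint_left]
          intro x hx hxf
          have h0 := hzero i' x hxf
          rcases (hSp p (hC.op p hp)).2.2 p' hpp with rfl | rfl
          · exact (show 0 < ψ i' x from hx.2).ne' h0
          · exact (show ψ i' x < 0 from hx.2).ne h0
        · simp only [D, if_neg h, Finset.mem_singleton] at hpp
          rw [hpp, Set.disjoint_iff_inter_eq_empty]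
          exact Set.not_nonempty_iff_eq_empty.1 h
      · exact (hdis p hp i' hi').mono_left ((hD p hp).sub p' hpp)
    · intro j hj q hq q' hq' hne hne'
      obtain ⟨p, hp, hpq⟩ := (hmem q).1 hq
      obtain ⟨p', hp', hpq'⟩ := (hmem q').1 hq'
      have hji : j ≠ i := fun h => hj (h ▸ Finset.mem_insert_self _ _)
      have hjJ : j ∉ J := fun h => hj (Finset.mem_insert_of_mem h)
      have hs := (hD p hp).sub q hpq
      have hs' := (hD p' hp').sub q' hpq'
      have hpp : p = p' := huniq j hjJ p hp p' hp'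
        (hne.mono (inter_subset_inter_left _ hs)) (hne'.mono (inter_subset_inter_left _ hs'))
      subst hpp
      by_cases h : (p ∩ f i).Nonempty
      · simp only [D, if_pos h] at hpq hpq'
        obtain ⟨x, hx, hxf⟩ := hne
        obtain ⟨x', hx', hxf'⟩ := hne'
        have hsg := sign_eq_of_convex (((hC.op p hp).convex).inter (hconv j)) (ψ i)
          (fun y hy => hJ i (Finset.mem_insert_self _ _) j hji y ⟨hC.sub p hp hy.1, hy.2⟩)
          (x := x) (y := x') ⟨hs hx, hxf⟩ ⟨hs' hx', hxf'⟩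
        rcases (hSp p (hC.op p hp)).2.2 q hpq with rfl | rfl <;>
          rcases (hSp p (hC.op p hp)).2.2 q' hpq' with rfl | rfl
        · rfl
        · rw [sign_pos (show 0 < ψ i x from hx.2), sign_neg (show ψ i x' < 0 from hx'.2)] at hsg
          exact absurd hsg (by decide)
        · rw [sign_neg (show ψ i x < 0 from hx.2), sign_pos (show 0 < ψ i x' from hx'.2)] at hsg
          exact absurd hsg (by decide)
        · rfl
      · simp only [D, if_neg h, Finset.mem_singleton] at hpq hpq'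
        rw [hpq, hpq']

end Pool.Agent.MP_a2955b_co.Up

end

section

set_option autoImplicit false
namespace Pool.Agent.MP_a2955b_co.Up
open Set Module

theorem sum_ncard_StageOne {α β : Type} [Fintype α] (C : Finset β) (B : β → Set α) (U : Set α)
    (h1 : ∀ O ∈ C, B O ⊆ U) (h2 : ∀ O ∈ C, ∀ O' ∈ C, ∀ x ∈ B O, x ∈ B O' → O = O') :
    ∑ O ∈ C, (B O).ncard ≤ U.ncard := by
  classical
  have h3 : ∑ O ∈ C, (B O).ncard = (C.biUnion fun O => (B O).toFinset).card := by
    rw [Finset.card_biUnion]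
    · exact Finset.sum_congr rfl fun O _ => Set.ncard_eq_toFinset_card' _
    · intro O hO O' hO' hne
      rw [Function.onFun, Finset.disjoint_left]
      intro x hx hx'
      exact hne (h2 O hO O' hO' x (Set.mem_toFinset.1 hx) (Set.mem_toFinset.1 hx'))
  rw [h3, ← Set.ncard_coe_finset]
  refine Set.ncard_le_ncard (fun x hx => ?_) (Set.toFinite _)
  obtain ⟨O, hO, hx⟩ := Finset.mem_biUnion.1 hx
  exact h1 O hO (Set.mem_toFinset.1 hx)

theorem stageOne_of (hA : ArrStmt) (hC : CutStmt) (hT : TraceStmt) : StageOneStmt := by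
  classical
  intro E _ _ _ D hD hD2 ι _ φ h hφ w0 H τ hτ W G U hWH hGH hW hG hK k t lam hl1 hl2
  obtain ⟨u, hu⟩ : ∃ u : E, u ≠ 0 := by
    have : Nontrivial E := Module.nontrivial_of_finrank_pos (R := ℝ) (by omega)
    exact exists_ne 0
  obtain ⟨a, ha⟩ : ∃ a : ι × G → Af E, ∀ x p, a x p = x.2.1 (p, h x.1 p) :=
    ⟨fun x => x.2.1.comp ((AffineMap.id ℝ E).prod (h x.1)), fun _ _ => rfl⟩
  choose ψ hψ0 hψu hψ using fun x : ι × G => hT E (by omega) u (φ x.1) (a x) (hφ x.1)
  have hcard : Fintype.card (ι × G) ≤ Fintype.card ι * H := by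
    rw [Fintype.card_prod, Fintype.card_coe]
    exact Nat.mul_le_mul_left _ hGH
  obtain ⟨C1, N, hC1, hS, hc1, -, hN⟩ := hC E D hD (by omega) (ι × G) ψ hψ0 univ w0 τ hτ W hW k t
    lam (lt_of_le_of_lt (by gcongr) hl1) ((Nat.mul_le_mul_left _ hcard).trans hl2)
  have hX : XX D ψ univ τ = 0 := by
    unfold XX
    rw [Set.ncard_eq_zero (Set.toFinite _)]
    refine Set.eq_empty_of_forall_notMem fun s hs => hu ?_
    exact eq_zero_of_indep hD hs.2.1 fun i => hψu _
  have hN0 : N = 0 := by omega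
  rw [hN0, add_zero] at hc1
  obtain ⟨C', hC', hc', hCS⟩ := hC1.prod
  have hfr : finrank ℝ (E × ℝ) = D + 1 := by
    rw [Module.finrank_prod, hD, Module.finrank_self]
  choose! Arr hArr hArrc hArr0 hArrs using
    fun O' (hO' : O' ∈ C') => hA (E × ℝ) O' (hC'.op O' hO') G hG
  obtain ⟨C, hCp, hCc, hCm⟩ := hC'.bind Arr hArr
  have hbase : ∀ O ∈ C, ∃ S ∈ C1, S ×ˢ (univ : Set ℝ) ∈ C' ∧ O ∈ Arr (S ×ˢ univ) := by
    intro O hO
    obtain ⟨O', hO', h1⟩ := (hCm O).1 hO
    obtain ⟨S, hS, rfl⟩ := hCS O' hO'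
    exact ⟨S, hS, hO', h1⟩
  choose! base hb1 hb2 hb3 using hbase
  have hfst : ∀ O ∈ C, ∀ z ∈ O, z.1 ∈ base O := fun O hO z hz =>
    ((hArr _ (hb2 O hO)).sub O (hb3 O hO) hz).1
  have hKK : C.card ≤ KK D w0 H k := by
    refine hCc.trans ((Finset.sum_le_card_nsmul _ _ ((H + 1) ^ (D + 2)) fun O' hO' =>
      (hArrc O' hO').trans ?_).trans ?_)
    · rw [hfr]
      gcongr
    · rw [smul_eq_mul]
      unfold KK
      refine Nat.mul_le_mul_right _ (hc'.trans (hc1.trans ?_))
      gcongr
  refine ⟨C, base, hCp, fun O hO => ⟨(hS _ (hb1 O hO)).1, hfst O hO⟩, hKK, ?_⟩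
  let short : Set E → Set ι := fun S => {e | ∃ g : G, ∃ x ∈ S, ψ (e, g) x = 0}
  let B : Set (E × ℝ) → Set (Fin D → ι) := fun O =>
    {s | ((∀ i, (O ∩ fl (φ (s i)) (h (s i))).Nonempty) ∧ Vx φ (base O) s) ∧
      ∃ i, s i ∉ short (base O)}
  have hshort : ∀ S ∈ C1, (short S).ncard ≤ (D + 1) ^ 2 * t := by
    intro S hS1
    refine le_trans ?_ (hS S hS1).2.2
    refine le_trans (Set.ncard_le_ncard ?_ (Set.toFinite _)) (Set.ncard_image_le (f := Prod.fst))
    rintro e ⟨g, x, hx, h0⟩
    exact ⟨(e, g), ⟨mem_univ _, x, hx, h0⟩, rfl⟩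
  have hsplit : ∀ O ∈ C, XX D φ {i | (O ∩ fl (φ i) (h i)).Nonempty} (base O) ≤
      (B O).ncard + ((D + 1) ^ 2 * t) ^ D := by
    intro O hO
    have h1 := (ncard_tuples D (short (base O)) (Set.toFinite _)).2
    refine le_trans ?_ (Nat.add_le_add_left (h1.le.trans
      (Nat.pow_le_pow_left (hshort _ (hb1 O hO)) D)) _)
    refine le_trans (Set.ncard_le_ncard ?_ (Set.toFinite _)) (Set.ncard_union_le _ _)
    intro s hs
    by_cases h2 : ∀ i, s i ∈ short (base O)
    · exact Or.inr h2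
    · exact Or.inl ⟨hs, not_forall.1 h2⟩
  have hsum : ∑ O ∈ C, (B O).ncard ≤ U.ncard := by
    refine sum_ncard_StageOne C B U ?_ ?_
    · rintro O hO s ⟨⟨h1, h2⟩, -⟩
      by_contra hs
      exact hK s (h2.mono (subset_univ _)) hs (base O) O (hS _ (hb1 O hO)).1.op.convex h2.2
        (hS _ (hb1 O hO)).2.1 (hCp.op O hO).isOpen (hCp.op O hO).convex (hfst O hO)
        (hArr0 _ (hb2 O hO) O (hb3 O hO)) h1
    · rintro O hO O' hO' s ⟨⟨h1, hi, p, hp, hp0⟩, i, hsh⟩ ⟨⟨h1', -, p', hp', hp0'⟩, -⟩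
      have hpp := zero_unique hD hi hp0 hp0'
      have hbb : base O' = base O := by
        by_contra hne
        exact Set.disjoint_left.1 (hC1.disj _ (hb1 O' hO') _ (hb1 O hO) hne) hp' (hpp ▸ hp)
      obtain ⟨z, hz, hz0, hz1⟩ := h1 i
      obtain ⟨z', hz', hz0', hz1'⟩ := h1' i
      have hO'' := hb3 O' hO'
      rw [hbb] at hO''
      refine hArrs _ (hb2 O hO) O (hb3 O hO) O' hO'' z hz z' hz' fun g hg => ?_
      have e1 : g z = a (s i, ⟨g, hg⟩) z.1 := by rw [ha, ← hz1]
      have e2 : g z' = a (s i, ⟨g, hg⟩) z'.1 := by rw [ha, ← hz1']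
      rcases hψ (s i, ⟨g, hg⟩) with h3 | h3
      · exact absurd (e1.trans (h3 _ hz0)) (hArr0 _ (hb2 O hO) O (hb3 O hO) g hg z hz)
      · rw [e1, e2]
        refine sign_eq_of_convex (S := base O ∩ {x | φ (s i) x = 0})
          ((hS _ (hb1 O hO)).1.op.convex.inter (convex_zero _)) _ ?_ ⟨hfst O hO z hz, hz0⟩
          ⟨hbb ▸ hfst O' hO' z' hz', hz0'⟩
        rintro x ⟨hx, hx0⟩ h4
        exact hsh ⟨⟨g, hg⟩, x, hx, h3 x hx0 h4⟩
  refine (Finset.sum_le_sum hsplit).trans ?_
  rw [Finset.sum_add_distrib, Finset.sum_const, smul_eq_mul]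
  exact Nat.add_le_add hsum (Nat.mul_le_mul_right _ hKK)

end Pool.Agent.MP_a2955b_co.Up

end

section

set_option autoImplicit false

namespace Pool.Agent.MP_a2955b_co.Up

open Set Module

theorem num_StageTwo {α : Type} (C : Finset α) (c N X : α → ℕ) {a P q M K b u f Y n : ℕ}
    (hn : n ≤ ∑ O ∈ C, c O) (hc : ∀ O ∈ C, c O ≤ a * (P + N O)) (hN : ∀ O ∈ C, N O * M ≤ b * X O)
    (hK : C.card ≤ K) (hX : ∑ O ∈ C, X O ≤ u + K * Y) (hu : q * u ≤ f * M) :
    q * n * M ≤ a * (q * K * P * M + b * (f * M + q * K * Y)) := by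
  have h1 : n ≤ a * (K * P + ∑ O ∈ C, N O) := by
    refine hn.trans ((Finset.sum_le_sum hc).trans ?_)
    rw [← Finset.mul_sum, Finset.sum_add_distrib, Finset.sum_const, smul_eq_mul]
    gcongr
  have h2 : (∑ O ∈ C, N O) * M ≤ b * (u + K * Y) := by
    rw [Finset.sum_mul]
    refine (Finset.sum_le_sum hN).trans ?_
    rw [← Finset.mul_sum]
    gcongr
  calc q * n * M ≤ q * (a * (K * P + ∑ O ∈ C, N O)) * M := by gcongr
    _ = a * (q * K * P * M + q * ((∑ O ∈ C, N O) * M)) := by ring
    _ ≤ a * (q * K * P * M + q * (b * (u + K * Y))) := by gcongr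
    _ = a * (q * K * P * M + b * (q * u + q * K * Y)) := by ring
    _ ≤ _ := by gcongr

theorem stageTwo_of (hC : CutStmt) (hW : WallsStmt) (h1 : StageOneStmt) : StageTwoStmt := by
  intro E _ _ _ n hn
  obtain ⟨c1, c2, hW⟩ := hW E n hn
  refine ⟨c1, c2, fun ι _ φ h hφ w0 τ hτ q k1 t1 k2 t2 lam hq l1 l2 l3 l4 => ?_⟩
  obtain ⟨W, G, U, hWc, hGc, hWl, hGl, hU, hK⟩ := hW ι φ h hφ q hq
  obtain ⟨C, base, hP, hb, hCc, hX⟩ := h1 E (n + 3) hn (by omega) ι φ h hφ w0 (c1 * q ^ c2) τ hτ
    W G U hWc hGc hWl hGl hK k1 t1 lam l1 l2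
  have key : ∀ O ∈ C, ∃ (C' : Finset (Set (E × ℝ))) (N : ℕ), Part O C' ∧
      (∀ O' ∈ C', {i | (O' ∩ fl (φ i) (h i)).Nonempty}.ncard ≤ (n + 3 + 1) ^ 2 * t2) ∧
      C'.card ≤ 2 ^ (n + 3) * ((n + 3) * (n + 3 + 1) * (n + 3 + 1 + k2) ^ (n + 3 - 1) + N) ∧
      N * Fintype.card ι ^ (n + 3) ≤
        2 * k2 ^ (n + 3) * XX (n + 3) φ {i | (O ∩ fl (φ i) (h i)).Nonempty} (base O) := by
    intro O hO
    obtain ⟨C2, N, p1, p2, p3, p4, -⟩ := hC E (n + 3) hn (by omega) ι φ hφ
      {i | (O ∩ fl (φ i) (h i)).Nonempty} (n + 3 + 1) (base O) (hb O hO).1 ∅ (by simp) k2 t2 lam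
      l3 l4
    obtain ⟨C3, q1, q2, q3⟩ := p1.prod
    obtain ⟨C4, r1, r2, r3⟩ := q1.inter (hP.op O hO) fun z hz => ⟨(hb O hO).2 z hz, mem_univ _⟩
    refine ⟨C4, N, r1, fun O' hO' => ?_, r2.trans (q2.trans p3), p4⟩
    obtain ⟨O3, h3, rfl⟩ := r3 O' hO'
    obtain ⟨S, hS, rfl⟩ := q3 O3 h3
    refine le_trans (ncard_le_ncard ?_ (toFinite _)) (p2 S hS).2.2
    rintro i ⟨z, hz, hz'⟩
    exact ⟨⟨z, hz.2, hz'⟩, z.1, hz.1.1, hz'.1⟩
  choose! C' N k1' k2' k3' k4' using key
  obtain ⟨C'', s1, s2, s3⟩ := hP.bind C' k1'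
  refine ⟨C'', s1, fun O' hO' => ?_, ?_⟩
  · obtain ⟨O, hO, h'⟩ := (s3 O').1 hO'
    exact k2' O hO O' h'
  · exact num_StageTwo C (fun O => (C' O).card) N _ s2 k3' k4' hCc hX hU

theorem step_of (h2 : StageTwoStmt) (hN : NumStmt) : StepStmt := by
  intro E _ _ _ n hn w0
  obtain ⟨c1, c2, h2⟩ := h2 E n hn
  obtain ⟨δ, d1, d2, hN⟩ := hN (n + 3) w0 c1 c2 (by omega)
  refine ⟨δ, d1, d2, fun ε hε => ?_⟩
  obtain ⟨m0, hN⟩ := hN ε hε
  refine ⟨m0, fun ι _ φ h hφ hm τ hτ => ?_⟩
  obtain ⟨q, k1, t1, k2, t2, lam, hq, l1, l2, l3, l4, hN⟩ := hN _ hm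
  obtain ⟨C, p1, p2, p3⟩ := h2 ι φ h hφ w0 τ hτ q k1 t1 k2 t2 lam hq l1 l2 l3 l4
  exact ⟨C, _, p1, p2, hN _ p3⟩

end Pool.Agent.MP_a2955b_co.Up

end

section

set_option autoImplicit false

namespace Pool.Agent.MP_a2955b_co.Up

open Set Module

section aux

variable {E : Type} [NormedAddCommGroup E] [NormedSpace ℝ E] [FiniteDimensional ℝ E]

theorem closed_Poly (G : Finset (Af E)) : IsClosed {x | ∀ g ∈ G, 0 ≤ g x} := by
  have : {x | ∀ g ∈ G, 0 ≤ g x} = ⋂ g ∈ G, {x | 0 ≤ g x} := by ext x; simp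
  rw [this]
  exact isClosed_biInter (fun g _ => isClosed_le continuous_const (af_continuous g))

omit [FiniteDimensional ℝ E] in
theorem convex_Poly (G : Finset (Af E)) : Convex ℝ {x | ∀ g ∈ G, 0 ≤ g x} := by
  intro x hx y hy a b ha hb hab g hg
  exact convex_nonneg g (hx g hg) (hy g hg) ha hb hab

theorem closure_Poly (G : Finset (Af E)) {y : E} (hy : ∀ g ∈ G, 0 < g y) :
    closure {x | ∀ g ∈ G, 0 < g x} = {x | ∀ g ∈ G, 0 ≤ g x} := by
  apply Subset.antisymm
  · exact closure_minimal (fun x hx g hg => (hx g hg).le) (closed_Poly G)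
  · intro x hx
    have hc : Filter.Tendsto (fun s : ℝ => x + s • (y - x)) (nhdsWithin 0 (Ioi 0)) (nhds x) := by
      have : Continuous (fun s : ℝ => x + s • (y - x)) := by fun_prop
      have h2 := this.tendsto 0
      simp only [zero_smul, add_zero] at h2
      exact h2.mono_left nhdsWithin_le_nhds
    refine mem_closure_of_tendsto hc ?_
    filter_upwards [Ioo_mem_nhdsGT (show (0 : ℝ) < 1 by norm_num)] with s hs g hg
    rw [af_add, map_smul, af_sub, smul_eq_mul]
    have h1 := hx g hg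
    have h2 := hy g hg
    have h3 : 0 ≤ (1 - s) * g x := mul_nonneg (by linarith [hs.2]) h1
    have h4 : 0 < s * g y := mul_pos hs.1 h2
    nlinarith

omit [FiniteDimensional ℝ E] in
theorem finite_extreme_Poly (G : Finset (Af E)) :
    (({x | ∀ g ∈ G, 0 ≤ g x} : Set E).extremePoints ℝ).Finite := by
  classical
  refine Set.Finite.of_finite_image (f := fun x => G.filter (fun g => g x = 0))
    ((G.powerset.finite_toSet).subset ?_) ?_
  · rintro _ ⟨x, _, rfl⟩
    exact Finset.mem_coe.2 (Finset.mem_powerset.2 (Finset.filter_subset _ _))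
  · intro x hx y hy hxy
    have hev : ∀ᶠ s : ℝ in nhds 0, ∀ g ∈ G, 0 ≤ g (x + s • (y - x)) := by
      rw [Filter.eventually_all_finset]
      intro g hg
      simp only [af_add, map_smul, af_sub, smul_eq_mul]
      by_cases h0 : g x = 0
      · have h1 : g ∈ G.filter (fun g => g x = 0) := Finset.mem_filter.2 ⟨hg, h0⟩
        have h2 : G.filter (fun g => g x = 0) = G.filter (fun g => g y = 0) := hxy
        rw [h2] at h1
        have h3 : g y = 0 := (Finset.mem_filter.1 h1).2
        simp [h0, h3]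
      · have h1 : 0 < g x := lt_of_le_of_ne (hx.1 g hg) (Ne.symm h0)
        have hc : Continuous (fun s : ℝ => g x + s * (g y - g x)) := by fun_prop
        have h2 := hc.tendsto 0
        simp only [zero_mul, add_zero] at h2
        exact (h2.eventually (lt_mem_nhds h1)).mono (fun s hs => hs.le)
    obtain ⟨ε, hε, h⟩ := Metric.eventually_nhds_iff.1 hev
    have hp := h (y := ε / 2) (by rw [Real.dist_eq, sub_zero, abs_of_pos (by linarith)]; linarith)
    have hm := h (y := -(ε / 2))
      (by rw [Real.dist_eq, sub_zero, abs_neg, abs_of_pos (by linarith)]; linarith)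
    have hseg : x ∈ openSegment ℝ (x + (ε / 2) • (y - x)) (x + (-(ε / 2)) • (y - x)) := by
      refine ⟨1 / 2, 1 / 2, by norm_num, by norm_num, by norm_num, ?_⟩
      module
    have h5 := (mem_extremePoints.1 hx).2 _ hp _ hm hseg
    have h6 : (ε / 2) • (y - x) = 0 := by simpa using h5.1
    rcases smul_eq_zero.1 h6 with h7 | h7
    · linarith
    · exact (sub_eq_zero.1 h7).symm

end aux

theorem poly : PolyStmt := by
  rintro d O ⟨G, rfl⟩ hb ⟨y, hy⟩
  have hcl := closure_Poly G hy
  have hop : IsOpen {x : EuclideanSpace ℝ (Fin d) | ∀ g ∈ G, 0 < g x} := OP.isOpen ⟨G, rfl⟩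
  have hcomp : IsCompact {x : EuclideanSpace ℝ (Fin d) | ∀ g ∈ G, 0 ≤ g x} := by
    rw [← hcl]
    exact hb.isCompact_closure
  have hfin := finite_extreme_Poly G
  have hKM := closure_convexHull_extremePoints hcomp (convex_Poly G)
  rw [(hfin.isClosed_convexHull ℝ).closure_eq] at hKM
  refine ⟨_, hfin, ?_, hcl.trans hKM.symm, ?_⟩
  · exact hcomp.extremePoints_nonempty ⟨y, fun g hg => (hy g hg).le⟩
  · have h1 : vectorSpan ℝ {x : EuclideanSpace ℝ (Fin d) | ∀ g ∈ G, 0 < g x} = ⊤ :=
      AffineSubspace.vectorSpan_eq_top_of_affineSpan_eq_top ℝ _ _ (hop.affineSpan_eq_top ⟨y, hy⟩)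
    have h2 : vectorSpan ℝ (closure {x : EuclideanSpace ℝ (Fin d) | ∀ g ∈ G, 0 < g x}) = ⊤ :=
      top_unique (h1 ▸ vectorSpan_mono ℝ subset_closure)
    rw [h2, finrank_top, finrank_euclideanSpace_fin]

theorem toPart_of (h : PolyStmt) : ToPartStmt := by
  classical
  intro d P σ hP hPσ hσ C hC hfr
  have hPc : IsClosed P := by rw [← hP]; exact isClosed_closure
  set C' := C.filter (fun O => O.Nonempty ∧ O ⊆ P) with hC'
  have hmem : ∀ i : Fin C'.card, (C'.equivFin.symm i).1 ∈ C ∧ (C'.equivFin.symm i).1.Nonempty ∧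
      (C'.equivFin.symm i).1 ⊆ P := fun i => Finset.mem_filter.1 (C'.equivFin.symm i).2
  refine ⟨C'.card, fun i => closure (C'.equivFin.symm i).1, ⟨fun i => ?_, fun i j hij => ?_, ?_⟩,
    Finset.card_filter_le _ _⟩
  · exact h d _ (hC.op _ (hmem i).1) (hσ.subset (hC.sub _ (hmem i).1)) (hmem i).2.1
  · have hne : (C'.equivFin.symm i).1 ≠ (C'.equivFin.symm j).1 := fun he =>
      hij (C'.equivFin.symm.injective (Subtype.ext he))
    have hd := hC.disj _ (hmem i).1 _ (hmem j).1 hne
    have h1 := hd.closure_right (hC.op _ (hmem i).1).isOpen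
    have h2 : Disjoint (C'.equivFin.symm i).1 (interior (closure (C'.equivFin.symm j).1)) :=
      h1.mono_right interior_subset
    exact (h2.closure_left isOpen_interior).mono_left interior_subset
  · apply Subset.antisymm
    · exact iUnion_subset fun i => closure_minimal (hmem i).2.2 hPc
    · rw [← closure_iUnion_of_finite]
      refine hP.symm.subset.trans (closure_minimal ?_ isClosed_closure)
      intro x hx
      have h1 := isOpen_interior.inter_closure ⟨hx, hC.cover (hPσ (interior_subset hx))⟩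
      refine closure_mono ?_ h1
      rintro z ⟨hz1, hz2⟩
      simp only [mem_iUnion] at hz2 ⊢
      obtain ⟨O, hO, hz⟩ := hz2
      have hsub : O ⊆ interior P ∪ interior Pᶜ := by
        rw [← compl_frontier_eq_union_interior]
        exact (hfr O hO).subset_compl_right
      have hdis : Disjoint (interior P) (interior Pᶜ) :=
        disjoint_compl_right.mono interior_subset interior_subset
      have hOP : O ⊆ P := by
        rcases (hC.op O hO).convex.isPreconnected.subset_or_subset isOpen_interior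
          isOpen_interior hdis hsub with h2 | h2
        · exact h2.trans interior_subset
        · exact (Set.disjoint_left.1 hdis hz1 (h2 hz)).elim
      have hO' : O ∈ C' := Finset.mem_filter.2 ⟨hO, ⟨z, hz⟩, hOP⟩
      refine ⟨C'.equivFin ⟨O, hO'⟩, ?_⟩
      rw [Equiv.symm_apply_apply]
      exact hz

end Pool.Agent.MP_a2955b_co.Up

end

section

/-! Assembly of the upper bound. -/

set_option autoImplicit false

namespace Pool.Agent.MP_a2955b_co.Up

theorem arr_all : ArrStmt := arr_of sgn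

theorem cut_all : CutStmt :=
  cut_of sgn simp_facts
    (tri_of simp_facts chain_facts (chainEx_of chain_facts) (chainCount_of chain_facts)) sample

theorem walls_all : WallsStmt :=
  walls_of (kill_of slice above (killC_of slice quad) (killA_of slice))
    (goodCount_of super (goodSub_of ramsey_prod))

theorem step_all : StepStmt :=
  step_of (stageTwo_of cut_all walls_all (stageOne_of arr_all cut_all trace)) (num_of numNat)

theorem main_all : MainStmt :=
  main_of (rec_of arr_all free step_all) (toPart_of poly) coord face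

end Pool.Agent.MP_a2955b_co.Up

end
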