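import Pool.Agent.MP_a2955b_co.Up.PolyV

section

/-! Definitions for the upper bound `n^(d-1-δ)` on convex partitions. -/

set_option autoImplicit false

namespace Pool.Agent.MP_a2955b_co.Up

open Set

/-- Real affine functions on `E`. -/
abbrev Af (E : Type) [NormedAddCommGroup E] [NormedSpace ℝ E] : Type := E →ᵃ[ℝ] ℝ

section general

variable {E : Type} [NormedAddCommGroup E] [NormedSpace ℝ E]

/-- Open polyhedral sets. -/
def OP (O : Set E) : Prop := ∃ G : Finset (Af E), O = {x | ∀ g ∈ G, 0 < g x}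

/-- `C` is a partition of `σ` into open polyhedral cells (up to a nowhere dense set). -/
structure Part (σ : Set E) (C : Finset (Set E)) : Prop where
  op : ∀ O ∈ C, OP O
  sub : ∀ O ∈ C, O ⊆ σ
  disj : ∀ O ∈ C, ∀ O' ∈ C, O ≠ O' → Disjoint O O'
  cover : σ ⊆ closure (⋃ O ∈ C, O)

/-- Bounded open polyhedral set cut out by at most `k` nonconstant affine functions. -/
def Cell (k : ℕ) (τ : Set E) : Prop :=
  Bornology.IsBounded τ ∧ ∃ G : Finset (Af E), G.card ≤ k ∧ (∀ g ∈ G, g.linear ≠ 0) ∧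
    τ = {x | ∀ g ∈ G, 0 < g x}

/-- The open simplex of an affine basis. -/
def Simp {D : ℕ} (b : AffineBasis (Fin (D + 1)) ℝ E) : Set E := {x | ∀ l, 0 < b.coord l x}

/-- The codimension two flat over the hyperplane `φ = 0` at height `h`. -/
def fl (φ h : Af E) : Set (E × ℝ) := {z | φ z.1 = 0 ∧ z.2 = h z.1}

/-- The tuple `t` of hyperplanes is independent and has its common point in `τ`. -/
def Vx {ι : Type} {D : ℕ} (φ : ι → Af E) (τ : Set E) (t : Fin D → ι) : Prop :=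
  LinearIndependent ℝ (fun i => (φ (t i)).linear) ∧ ∃ p ∈ τ, ∀ i, φ (t i) p = 0

/-- Number of vertex tuples from `F` inside `τ`. -/
noncomputable def XX {ι : Type} (D : ℕ) (φ : ι → Af E) (F : Set ι) (τ : Set E) : ℕ :=
  {t : Fin D → ι | (∀ i, t i ∈ F) ∧ Vx φ τ t}.ncard

/-- A common zero of the tuple `t` (if there is one). -/
noncomputable def vx {ι : Type} {D : ℕ} (φ : ι → Af E) (t : Fin D → ι) : E :=
  Classical.epsilon (fun p => ∀ i, φ (t i) p = 0)

/-- Vertex tuple whose heights over the vertex are sorted. -/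
def Srt {ι : Type} {D : ℕ} (φ h : ι → Af E) (t : Fin D → ι) : Prop :=
  Vx φ univ t ∧ Monotone (fun i => h (t i) (vx φ t))

/-- The box with outer walls `o` and centre `t`. -/
def box {ι : Type} {D : ℕ} (o : Fin D → Bool → ι) (t : Fin D → ι) : Fin D → Fin 3 → ι :=
  fun i => ![o i false, t i, o i true]

/-- A homogeneous `3 × ... × 3` box of hyperplanes. -/
def Good {ι : Type} {D : ℕ} (φ h : ι → Af E) (e : Fin D → Fin 3 → ι) : Prop :=
  (∀ j : Fin D → Fin 3, Srt φ h (fun i => e i (j i))) ∧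
    ∃ σ σ' : Fin D → SignType, ∀ (j : Fin D → Fin 3) (i : Fin D) (k : Fin 3),
      (k < j i → SignType.sign (φ (e i k) (vx φ (fun i' => e i' (j i')))) = σ i) ∧
      (j i < k → SignType.sign (φ (e i k) (vx φ (fun i' => e i' (j i')))) = σ' i)

/-- The walls `W` and the cuts `G` separate the flats of the tuple `t`. -/
def Kills {ι : Type} {D : ℕ} (φ h : ι → Af E) (W : Finset (Af E)) (G : Finset (Af (E × ℝ)))
    (t : Fin D → ι) : Prop :=
  ∀ (S : Set E) (O : Set (E × ℝ)), Convex ℝ S → (∃ p ∈ S, ∀ i, φ (t i) p = 0) →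
    (∀ w ∈ W, ∀ x ∈ S, w x ≠ 0) → IsOpen O → Convex ℝ O → (∀ z ∈ O, z.1 ∈ S) →
    (∀ g ∈ G, ∀ z ∈ O, g z ≠ 0) → ¬ ∀ i, (O ∩ fl (φ (t i)) (h (t i))).Nonempty

/-- Points on or above the convex hull of `T`. -/
def Above (T : Set (E × ℝ)) : Set (E × ℝ) :=
  {z | ∃ w ∈ convexHull ℝ T, w.1 = z.1 ∧ w.2 ≤ z.2}

/-- The outer corner of the grid given by `ε`. -/
def cj {D : ℕ} (ε : Fin D → Bool) : Fin D → Fin 3 := fun i => if ε i then 2 else 0

/-- Lifted outer corners, omitting those with `ε 0 = α` and `ε 1 = β`. -/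
def Lf {n : ℕ} (v : (Fin (n + 3) → Fin 3) → E) (hb : Fin 3 → Af E) (α β : Bool) :
    Set (E × ℝ) :=
  {z | ∃ ε : Fin (n + 3) → Bool, ¬ (ε 0 = α ∧ ε 1 = β) ∧
    z = (v (cj ε), hb (cj ε 1) (v (cj ε)))}

/-- A normalised sorted grid of hyperplanes with vertices `v`. -/
structure Grid {n : ℕ} (φ h : Fin (n + 3) → Fin 3 → Af E)
    (v : (Fin (n + 3) → Fin 3) → E) : Prop where
  zero : ∀ j i, φ i (j i) (v j) = 0
  pos : ∀ j i k, k < j i → 0 < φ i k (v j)
  neg : ∀ j i k, j i < k → φ i k (v j) < 0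
  ab : ∀ j, h 0 (j 0) (v j) ≤ h 1 (j 1) (v j)
  bc : ∀ j, h 1 (j 1) (v j) ≤ h 2 (j 2) (v j)

/-- Same sign vector on `A`. -/
def SameSg {κ : Type} (g : κ → Af E) (A : Finset κ) (x y : E) : Prop :=
  ∀ j ∈ A, SignType.sign (g j x) = SignType.sign (g j y)

/-- The sign vector of `x` is below that of `y` in the face order. -/
def Below {κ : Type} (g : κ → Af E) (A : Finset κ) (x y : E) : Prop :=
  ∀ j ∈ A, g j x = 0 ∨ SignType.sign (g j x) = SignType.sign (g j y)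

/-- A chosen representative of the face of `x`. -/
noncomputable def rep {κ : Type} (g : κ → Af E) (A : Finset κ) (x : E) : E :=
  Classical.epsilon (fun y => SameSg g A x y)

/-- A strictly increasing chain of representatives. -/
structure Chain {κ : Type} (g : κ → Af E) (A : Finset κ) {r : ℕ} (b : Fin (r + 1) → E) :
    Prop where
  fix : ∀ l, rep g A (b l) = b l
  below : ∀ l l', l < l' → Below g A (b l) (b l')
  ne : ∀ l l', l < l' → ¬ SameSg g A (b l) (b l')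

end general

/-- Bound for the number of first stage cells. -/
def KK (D w0 H k : ℕ) : ℕ :=
  2 ^ D * (D * (w0 + H) * (w0 + H + k) ^ (D - 1)) * (H + 1) ^ (D + 2)

/-- Bound for `q * m ^ D` times the number of second stage cells. -/
def RR (D w0 H q k1 t1 k2 m : ℕ) : ℕ :=
  2 ^ D * (q * KK D w0 H k1 * (D * (D + 1) * (D + 1 + k2) ^ (D - 1)) * m ^ D +
    2 * k2 ^ D * (D.factorial * m ^ D + q * KK D w0 H k1 * ((D + 1) ^ 2 * t1) ^ D))

end Pool.Agent.MP_a2955b_co.Up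

end

section

/-! The statements of the steps of the upper bound. -/

set_option autoImplicit false

namespace Pool.Agent.MP_a2955b_co.Up

open Set Module

/-- Number of positivity patterns of a finite family of affine functions. -/
def SgnStmt : Prop :=
  ∀ (E : Type) [NormedAddCommGroup E] [NormedSpace ℝ E] [FiniteDimensional ℝ E]
    (ι : Type) [Fintype ι] (φ : ι → Af E),
    {P : Set ι | ∃ x, P = {i | 0 < φ i x}}.ncard ≤ (Fintype.card ι + 1) ^ (finrank ℝ E + 1)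

/-- The cells of a hyperplane arrangement inside `σ`. -/
def ArrStmt : Prop :=
  ∀ (E : Type) [NormedAddCommGroup E] [NormedSpace ℝ E] [FiniteDimensional ℝ E]
    (σ : Set E), OP σ → ∀ G : Finset (Af E), (∀ g ∈ G, g.linear ≠ 0) →
    ∃ C : Finset (Set E), Part σ C ∧ C.card ≤ (G.card + 1) ^ (finrank ℝ E + 1) ∧
      (∀ O ∈ C, ∀ g ∈ G, ∀ x ∈ O, g x ≠ 0) ∧
      ∀ O ∈ C, ∀ O' ∈ C, ∀ x ∈ O, ∀ x' ∈ O',
        (∀ g ∈ G, SignType.sign (g x) = SignType.sign (g x')) → O = O'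

/-- Facts on open simplices. -/
def SimpStmt : Prop :=
  ∀ (E : Type) [NormedAddCommGroup E] [NormedSpace ℝ E] [FiniteDimensional ℝ E]
    (D : ℕ) (b : AffineBasis (Fin (D + 1)) ℝ E),
    (1 ≤ D → Cell (D + 1) (Simp b)) ∧ OP (Simp b) ∧
    (∀ x, x ∈ Simp b ↔
      ∃ μ : Fin (D + 1) → ℝ, (∀ l, 0 < μ l) ∧ ∑ l, μ l = 1 ∧ x = ∑ l, μ l • b l) ∧
    (∀ g : Af E, g.linear ≠ 0 → (∃ x ∈ Simp b, g x = 0) →
      ∃ l l', 0 < g (b l) ∧ g (b l') < 0) ∧
    (∀ g : Af E, (∀ x ∈ Simp b, g x ≠ 0) → ∀ l l', ¬ (0 < g (b l) ∧ g (b l') < 0))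

/-- Representatives and chains: independence, sign, uniqueness. -/
def ChainStmt : Prop :=
  ∀ (E : Type) [NormedAddCommGroup E] [NormedSpace ℝ E] (κ : Type) (g : κ → Af E)
    (A : Finset κ),
    (∀ x, SameSg g A x (rep g A x)) ∧
    (∀ x y, SameSg g A x y → rep g A x = rep g A y) ∧
    (range (rep g A)).Finite ∧
    (∀ (r : ℕ) (b : Fin (r + 1) → E), Chain g A b → AffineIndependent ℝ b) ∧
    (∀ (r : ℕ) (b : Fin (r + 1) → E) (μ : Fin (r + 1) → ℝ), Chain g A b → (∀ l, 0 < μ l) →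
      ∑ l, μ l = 1 → SameSg g A (∑ l, μ l • b l) (b (Fin.last r))) ∧
    (∀ (r : ℕ) (b b' : Fin (r + 1) → E) (μ μ' : Fin (r + 1) → ℝ), Chain g A b → Chain g A b' →
      (∀ l, 0 < μ l) → ∑ l, μ l = 1 → (∀ l, 0 < μ' l) → ∑ l, μ' l = 1 →
      ∑ l, μ l • b l = ∑ l, μ' l • b' l → b = b')

/-- Every point of a bounded region lies in the open simplex of a chain. -/
def ChainExStmt : Prop :=
  ∀ (E : Type) [NormedAddCommGroup E] [NormedSpace ℝ E] (κ : Type) (g : κ → Af E)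
    (A J : Finset κ), J ⊆ A → Bornology.IsBounded {x | ∀ j ∈ J, 0 ≤ g j x} →
    ∀ x, (∀ j ∈ J, 0 ≤ g j x) →
    ∃ (r : ℕ) (b : Fin (r + 1) → E) (μ : Fin (r + 1) → ℝ), Chain g A b ∧ (∀ l, 0 < μ l) ∧
      ∑ l, μ l = 1 ∧ x = ∑ l, μ l • b l

/-- Counting maximal chains. -/
def ChainCountStmt : Prop :=
  ∀ (E : Type) [NormedAddCommGroup E] [NormedSpace ℝ E] [FiniteDimensional ℝ E]
    (D : ℕ), finrank ℝ E = D → ∀ (κ : Type) (g : κ → Af E) (A J : Finset κ), J ⊆ A →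
    {b : Fin (D + 1) → E | Chain g A b ∧ ∀ j ∈ J, 0 < g j (b (Fin.last D))}.ncard ≤
      2 ^ D * {t : Fin D → κ | (∀ i, t i ∈ A) ∧
        ((∃ i, t i ∈ J) ∨ Vx g {x | ∀ j ∈ J, 0 < g j x} t)}.ncard

/-- Barycentric triangulation of an arrangement inside a bounded cell. -/
def TriStmt : Prop :=
  ∀ (E : Type) [NormedAddCommGroup E] [NormedSpace ℝ E] [FiniteDimensional ℝ E]
    (D : ℕ), finrank ℝ E = D → ∀ (κ : Type) (g : κ → Af E) (A J : Finset κ), J ⊆ A →
    (∀ j ∈ A, (g j).linear ≠ 0) → Bornology.IsBounded {x | ∀ j ∈ J, 0 < g j x} →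
    ∃ C : Finset (Set E), Part {x | ∀ j ∈ J, 0 < g j x} C ∧
      (∀ S ∈ C, (∃ b : AffineBasis (Fin (D + 1)) ℝ E, S = Simp b) ∧
        ∀ j ∈ A, ∀ x ∈ S, g j x ≠ 0) ∧
      C.card ≤ 2 ^ D * {t : Fin D → κ | (∀ i, t i ∈ A) ∧
        ((∃ i, t i ∈ J) ∨ Vx g {x | ∀ j ∈ J, 0 < g j x} t)}.ncard

/-- A random sample: a net for the ranges containing few of the given tuples. -/
def SampleStmt : Prop :=
  ∀ (ι : Type) [Fintype ι] (D : ℕ) (Rg : Set (Set ι)) (X : Set (Fin D → ι)),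
    (∀ x ∈ X, Function.Injective x) → ∀ k t lam : ℕ, 2 * Rg.ncard < 2 ^ lam →
    lam * Fintype.card ι ≤ t * k →
    ∃ R : Finset ι, R.card ≤ k ∧ (∀ r ∈ Rg, Disjoint r (R : Set ι) → r.ncard ≤ t) ∧
      {x | x ∈ X ∧ ∀ i, x i ∈ R}.ncard * Fintype.card ι ^ D ≤ 2 * k ^ D * X.ncard

/-- Vertex sensitive cutting. -/
def CutStmt : Prop :=
  ∀ (E : Type) [NormedAddCommGroup E] [NormedSpace ℝ E] [FiniteDimensional ℝ E]
    (D : ℕ), finrank ℝ E = D → 1 ≤ D → ∀ (ι : Type) [Fintype ι] (φ : ι → Af E),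
    (∀ i, (φ i).linear ≠ 0) → ∀ (F : Set ι) (w0 : ℕ) (τ : Set E), Cell w0 τ →
    ∀ W : Finset (Af E), (∀ w ∈ W, w.linear ≠ 0) → ∀ k t lam : ℕ,
    2 * (Fintype.card ι + 1) ^ (2 * (D + 1)) < 2 ^ lam → lam * Fintype.card ι ≤ t * k →
    ∃ (C : Finset (Set E)) (N : ℕ), Part τ C ∧
      (∀ S ∈ C, Cell (D + 1) S ∧ (∀ w ∈ W, ∀ x ∈ S, w x ≠ 0) ∧
        {i | i ∈ F ∧ ∃ x ∈ S, φ i x = 0}.ncard ≤ (D + 1) ^ 2 * t) ∧
      C.card ≤ 2 ^ D * (D * (w0 + W.card) * (w0 + W.card + k) ^ (D - 1) + N) ∧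
      N * Fintype.card ι ^ D ≤ 2 * k ^ D * XX D φ F τ ∧ N ≤ XX D φ F τ

/-- Slicing a combinatorial cube through a point. -/
def SliceStmt : Prop :=
  ∀ (E : Type) [NormedAddCommGroup E] [NormedSpace ℝ E] [FiniteDimensional ℝ E]
    (I : Type) (s : Finset I) (lo hi : I → Af E) (x : E) (V : Submodule ℝ E) (n : ℕ),
    finrank ℝ V ≤ n + s.card → ∀ u : (I → Bool) → E, (∀ ε, u ε - x ∈ V) →
    (∀ i ∈ s, 0 ≤ lo i x ∧ hi i x ≤ 0) →
    (∀ i ∈ s, ∀ ε, ε i = false → lo i (u ε) = 0 ∧ hi i (u ε) < 0) →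
    (∀ i ∈ s, ∀ ε, ε i = true → 0 < lo i (u ε) ∧ hi i (u ε) = 0) →
    ∃ (V' : Submodule ℝ E) (w : (I → Bool) → E), finrank ℝ V' ≤ n ∧ (∀ ε, w ε - x ∈ V') ∧
      ∀ ε, w ε ∈ convexHull ℝ {p | ∃ ε' : I → Bool, (∀ i, i ∉ s → ε' i = ε i) ∧ p = u ε'}

/-- A point of a plane quadrilateral lies in a triangle of each of its two triangulations. -/
def QuadStmt : Prop :=
  ∀ (E : Type) [NormedAddCommGroup E] [NormedSpace ℝ E] [FiniteDimensional ℝ E]
    (x : E) (V : Submodule ℝ E), finrank ℝ V ≤ 2 → ∀ w : Bool → Bool → E,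
    (∀ a b, w a b - x ∈ V) → ∀ la ha lb hb : Af E,
    0 ≤ la x → ha x ≤ 0 → 0 ≤ lb x → hb x ≤ 0 →
    (∀ b, la (w false b) = 0 ∧ ha (w false b) < 0) →
    (∀ b, 0 < la (w true b) ∧ ha (w true b) = 0) →
    (∀ a, lb (w a false) = 0 ∧ hb (w a false) < 0) →
    (∀ a, 0 < lb (w a true) ∧ hb (w a true) = 0) →
    (∃ α, x ∈ convexHull ℝ {p | ∃ a b, ¬ (a = α ∧ b = !α) ∧ p = w a b}) ∧
    (∃ α, x ∈ convexHull ℝ {p | ∃ a b, ¬ (a = α ∧ b = α) ∧ p = w a b})

/-- Membership in a convex hull is decided by finitely many signs. -/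
def HullStmt : Prop :=
  ∀ (E : Type) [NormedAddCommGroup E] [NormedSpace ℝ E] [FiniteDimensional ℝ E]
    (T : Finset E), ∃ G : Finset (Af E), G.card ≤ 2 ^ T.card * (finrank ℝ E + 1) ∧
      (∀ g ∈ G, g.linear ≠ 0) ∧
      ∀ z z', (∀ g ∈ G, SignType.sign (g z) = SignType.sign (g z')) →
        z ∈ convexHull ℝ (T : Set E) → z' ∈ convexHull ℝ (T : Set E)

/-- The same for the region above a convex hull. -/
def AboveStmt : Prop :=
  ∀ (E : Type) [NormedAddCommGroup E] [NormedSpace ℝ E] [FiniteDimensional ℝ E]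
    (T : Finset (E × ℝ)) (M : ℝ), ∃ G : Finset (Af (E × ℝ)),
      G.card ≤ 2 ^ (2 * T.card) * (finrank ℝ E + 2) ∧ (∀ g ∈ G, g.linear ≠ 0) ∧
      ∀ z z', (∀ g ∈ G, SignType.sign (g z) = SignType.sign (g z')) →
        (∃ w ∈ convexHull ℝ (T : Set (E × ℝ)), w.1 = z.1 ∧ w.2 ≤ z.2 ∧ z.2 ≤ w.2 + M) →
        z' ∈ Above (T : Set (E × ℝ))

/-- The upper flat of a grid lies above a left and a right support. -/
def KillCStmt : Prop :=
  ∀ (E : Type) [NormedAddCommGroup E] [NormedSpace ℝ E] [FiniteDimensional ℝ E]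
    (n : ℕ), finrank ℝ E = n + 3 → ∀ (φ h : Fin (n + 3) → Fin 3 → Af E)
    (v : (Fin (n + 3) → Fin 3) → E), Grid φ h v → ∀ x, φ 2 1 x = 0 →
    (∀ i, 0 ≤ φ i 0 x ∧ φ i 2 x ≤ 0) →
    (∃ α, (x, h 2 1 x) ∈ Above (Lf v (h 1) α (!α))) ∧
    (∃ α, (x, h 2 1 x) ∈ Above (Lf v (h 1) α α))

/-- No point strictly below the lower flat lies above a left and a right support. -/
def KillAStmt : Prop :=
  ∀ (E : Type) [NormedAddCommGroup E] [NormedSpace ℝ E] [FiniteDimensional ℝ E]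
    (n : ℕ), finrank ℝ E = n + 3 → ∀ (φ h : Fin (n + 3) → Fin 3 → Af E)
    (v : (Fin (n + 3) → Fin 3) → E), Grid φ h v → ∀ (y : E) (z : ℝ), φ 0 1 y = 0 →
    z < h 0 1 y → ∀ α β : Bool, (y, z) ∈ Above (Lf v (h 1) α (!α)) →
    (y, z) ∈ Above (Lf v (h 1) β β) → False

/-- Boundedly many cuts depending on the outer walls kill every centre of a good box. -/
def KillStmt : Prop :=
  ∀ (E : Type) [NormedAddCommGroup E] [NormedSpace ℝ E] [FiniteDimensional ℝ E]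
    (n : ℕ), finrank ℝ E = n + 3 → ∃ c : ℕ, ∀ (ι : Type) [Fintype ι] (φ h : ι → Af E),
    (∀ i, (φ i).linear ≠ 0) → ∀ o : Fin (n + 3) → Bool → ι,
    ∃ (W : Finset (Af E)) (G : Finset (Af (E × ℝ))), W.card ≤ c ∧ G.card ≤ c ∧
      (∀ w ∈ W, w.linear ≠ 0) ∧ (∀ g ∈ G, g.linear ≠ 0) ∧
      ∀ t : Fin (n + 3) → ι, Good φ h (box o t) → Kills φ h W G t

/-- Product Ramsey theorem for pairs and triples. -/
def RamseyStmt : Prop :=
  ∀ (D : ℕ) (C : Type) [Finite C], ∃ L : ℕ, ∀ χ : (Fin D → Fin L × Fin L) → C,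
    ∃ s : Fin D → Fin 3 → Fin L, (∀ i, StrictMono (s i)) ∧ ∃ c : C,
      ∀ a b : Fin D → Fin 3, (∀ i, a i < b i) → χ (fun i => (s i (a i), s i (b i))) = c

/-- Supersaturation of boxes. -/
def SuperStmt : Prop :=
  ∀ (ι : Type) [Fintype ι] [Nonempty ι] (D L : ℕ), 0 < L → ∀ U : Set (Fin D → ι),
    U.ncard ^ (L ^ D) * Fintype.card ι ^ (D * L) ≤
      {e : Fin D → Fin L → ι | ∀ j : Fin D → Fin L, (fun i => e i (j i)) ∈ U}.ncard *
        (Fintype.card ι ^ D) ^ (L ^ D)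

/-- A large box of sorted tuples contains a good box. -/
def GoodSubStmt : Prop :=
  ∀ (E : Type) [NormedAddCommGroup E] [NormedSpace ℝ E] (D : ℕ), ∃ L : ℕ, 0 < L ∧
    ∀ (ι : Type) (φ h : ι → Af E) (e : Fin D → Fin L → ι),
    (∀ j : Fin D → Fin L, Srt φ h (fun i => e i (j i))) →
    ∃ s : Fin D → Fin 3 → Fin L, (∀ i, StrictMono (s i)) ∧ Good φ h (fun i k => e i (s i k))

/-- A dense set of sorted tuples has many centres of good boxes with common outer walls. -/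
def GoodCountStmt : Prop :=
  ∀ (E : Type) [NormedAddCommGroup E] [NormedSpace ℝ E] (D : ℕ), ∃ c1 c2 : ℕ,
    ∀ (ι : Type) [Fintype ι] [Nonempty ι] (φ h : ι → Af E) (U : Set (Fin D → ι)) (q : ℕ),
    (∀ t ∈ U, Srt φ h t) → Fintype.card ι ^ D ≤ q * U.ncard →
    ∃ o : Fin D → Bool → ι,
      Fintype.card ι ^ D ≤ c1 * q ^ c2 * {t | t ∈ U ∧ Good φ h (box o t)}.ncard

/-- Polynomially many walls and cuts kill all but a `1/q` fraction of the vertex tuples. -/
def WallsStmt : Prop :=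
  ∀ (E : Type) [NormedAddCommGroup E] [NormedSpace ℝ E] [FiniteDimensional ℝ E]
    (n : ℕ), finrank ℝ E = n + 3 → ∃ c1 c2 : ℕ, ∀ (ι : Type) [Fintype ι] (φ h : ι → Af E),
    (∀ i, (φ i).linear ≠ 0) → ∀ q : ℕ, 1 ≤ q →
    ∃ (W : Finset (Af E)) (G : Finset (Af (E × ℝ))) (U : Set (Fin (n + 3) → ι)),
      W.card ≤ c1 * q ^ c2 ∧ G.card ≤ c1 * q ^ c2 ∧
      (∀ w ∈ W, w.linear ≠ 0) ∧ (∀ g ∈ G, g.linear ≠ 0) ∧
      q * U.ncard ≤ (n + 3).factorial * Fintype.card ι ^ (n + 3) ∧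
      ∀ t : Fin (n + 3) → ι, Vx φ univ t → t ∉ U → Kills φ h W G t

/-- The trace of an affine function on a hyperplane lies in a hyperplane parallel to `u`. -/
def TraceStmt : Prop :=
  ∀ (E : Type) [NormedAddCommGroup E] [NormedSpace ℝ E] [FiniteDimensional ℝ E],
    2 ≤ finrank ℝ E → ∀ (u : E) (φ a : Af E), φ.linear ≠ 0 →
    ∃ ψ : Af E, ψ.linear ≠ 0 ∧ ψ.linear u = 0 ∧
      ((∀ p, φ p = 0 → a p = 0) ∨ ∀ p, φ p = 0 → a p = 0 → ψ p = 0)

/-- First stage. -/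
def StageOneStmt : Prop :=
  ∀ (E : Type) [NormedAddCommGroup E] [NormedSpace ℝ E] [FiniteDimensional ℝ E]
    (D : ℕ), finrank ℝ E = D → 2 ≤ D → ∀ (ι : Type) [Fintype ι] (φ h : ι → Af E),
    (∀ i, (φ i).linear ≠ 0) → ∀ (w0 H : ℕ) (τ : Set E), Cell w0 τ →
    ∀ (W : Finset (Af E)) (G : Finset (Af (E × ℝ))) (U : Set (Fin D → ι)),
    W.card ≤ H → G.card ≤ H → (∀ w ∈ W, w.linear ≠ 0) → (∀ g ∈ G, g.linear ≠ 0) →
    (∀ t : Fin D → ι, Vx φ univ t → t ∉ U → Kills φ h W G t) → ∀ k t lam : ℕ,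
    2 * (Fintype.card ι * H + 1) ^ (2 * (D + 1)) < 2 ^ lam →
    lam * (Fintype.card ι * H) ≤ t * k →
    ∃ (C : Finset (Set (E × ℝ))) (base : Set (E × ℝ) → Set E), Part (τ ×ˢ univ) C ∧
      (∀ O ∈ C, Cell (D + 1) (base O) ∧ ∀ z ∈ O, z.1 ∈ base O) ∧ C.card ≤ KK D w0 H k ∧
      ∑ O ∈ C, XX D φ {i | (O ∩ fl (φ i) (h i)).Nonempty} (base O) ≤
        U.ncard + KK D w0 H k * ((D + 1) ^ 2 * t) ^ D

/-- Second stage. -/
def StageTwoStmt : Prop :=
  ∀ (E : Type) [NormedAddCommGroup E] [NormedSpace ℝ E] [FiniteDimensional ℝ E]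
    (n : ℕ), finrank ℝ E = n + 3 → ∃ c1 c2 : ℕ, ∀ (ι : Type) [Fintype ι] (φ h : ι → Af E),
    (∀ i, (φ i).linear ≠ 0) → ∀ (w0 : ℕ) (τ : Set E), Cell w0 τ →
    ∀ q k1 t1 k2 t2 lam : ℕ, 1 ≤ q →
    2 * (Fintype.card ι * (c1 * q ^ c2) + 1) ^ (2 * (n + 3 + 1)) < 2 ^ lam →
    lam * (Fintype.card ι * (c1 * q ^ c2)) ≤ t1 * k1 →
    2 * (Fintype.card ι + 1) ^ (2 * (n + 3 + 1)) < 2 ^ lam →
    lam * Fintype.card ι ≤ t2 * k2 →
    ∃ C : Finset (Set (E × ℝ)), Part (τ ×ˢ univ) C ∧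
      (∀ O ∈ C, {i | (O ∩ fl (φ i) (h i)).Nonempty}.ncard ≤ (n + 3 + 1) ^ 2 * t2) ∧
      q * C.card * Fintype.card ι ^ (n + 3) ≤
        RR (n + 3) w0 (c1 * q ^ c2) q k1 t1 k2 (Fintype.card ι)

/-- Choice of the parameters, integer form. -/
def NumNatStmt : Prop :=
  ∀ D w0 c1 c2 : ℕ, 1 ≤ D → ∃ Z : ℕ, 2 ≤ Z ∧ ∃ y0 : ℕ, ∀ y m : ℕ, y0 ≤ y →
    y ^ (2 * Z) ≤ m → m < (y + 1) ^ (2 * Z) →
    ∃ q k1 t1 t2 lam : ℕ, 1 ≤ q ∧
      2 * (m * (c1 * q ^ c2) + 1) ^ (2 * (D + 1)) < 2 ^ lam ∧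
      lam * (m * (c1 * q ^ c2)) ≤ t1 * k1 ∧
      2 * (m + 1) ^ (2 * (D + 1)) < 2 ^ lam ∧ lam * m ≤ t2 * y ^ Z ∧
      (D + 1) ^ 2 * t2 * y ^ Z ≤ y ^ 3 * m ∧
      RR D w0 (c1 * q ^ c2) q k1 t1 (y ^ Z) m * y ^ (3 * D + 2) ≤ q * y ^ (Z * D) * m ^ D

/-- Choice of the parameters, real form. -/
def NumStmt : Prop :=
  ∀ D w0 c1 c2 : ℕ, 1 ≤ D → ∃ δ : ℝ, 0 < δ ∧ δ ≤ 1 / 2 ∧ ∀ ε : ℝ, 0 < ε → ∃ m0 : ℕ,
    ∀ m : ℕ, m0 ≤ m → ∃ q k1 t1 k2 t2 lam : ℕ, 1 ≤ q ∧
      2 * (m * (c1 * q ^ c2) + 1) ^ (2 * (D + 1)) < 2 ^ lam ∧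
      lam * (m * (c1 * q ^ c2)) ≤ t1 * k1 ∧
      2 * (m + 1) ^ (2 * (D + 1)) < 2 ^ lam ∧ lam * m ≤ t2 * k2 ∧
      ∀ N : ℕ, q * N * m ^ D ≤ RR D w0 (c1 * q ^ c2) q k1 t1 k2 m →
        (N : ℝ) * (((D + 1) ^ 2 * t2 : ℕ) : ℝ) ^ ((D : ℝ) - δ) ≤ ε * (m : ℝ) ^ ((D : ℝ) - δ) ∧
        N ^ 2 ≤ m ^ D

/-- One step of the recursion. -/
def StepStmt : Prop :=
  ∀ (E : Type) [NormedAddCommGroup E] [NormedSpace ℝ E] [FiniteDimensional ℝ E]
    (n : ℕ), finrank ℝ E = n + 3 → ∀ w0 : ℕ, ∃ δ : ℝ, 0 < δ ∧ δ ≤ 1 / 2 ∧ ∀ ε : ℝ, 0 < ε →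
    ∃ m0 : ℕ, ∀ (ι : Type) [Fintype ι] (φ h : ι → Af E), (∀ i, (φ i).linear ≠ 0) →
    m0 ≤ Fintype.card ι → ∀ τ : Set E, Cell w0 τ →
    ∃ (C : Finset (Set (E × ℝ))) (m' : ℕ), Part (τ ×ˢ univ) C ∧
      (∀ O ∈ C, {i | (O ∩ fl (φ i) (h i)).Nonempty}.ncard ≤ m') ∧
      (C.card : ℝ) * (m' : ℝ) ^ (((n + 3 : ℕ) : ℝ) - δ) ≤
        ε * (Fintype.card ι : ℝ) ^ (((n + 3 : ℕ) : ℝ) - δ) ∧
      C.card ^ 2 ≤ Fintype.card ι ^ (n + 3)

/-- Free cuts. -/
def FreeStmt : Prop :=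
  ∀ (E : Type) [NormedAddCommGroup E] [NormedSpace ℝ E] [FiniteDimensional ℝ E]
    (κ : Type) (f : κ → Set E) (ψ : κ → Af E), (∀ i, Convex ℝ (f i)) → (∀ i, (ψ i).linear ≠ 0) →
    (∀ i, ∀ x ∈ f i, ψ i x = 0) → ∀ O : Set E, OP O → ∀ J : Finset κ,
    (∀ i ∈ J, ∀ j, j ≠ i → ∀ x ∈ O ∩ f j, ψ i x ≠ 0) →
    ∃ C : Finset (Set E), Part O C ∧ C.card ≤ J.card + 1 ∧
      (∀ p ∈ C, ∀ i ∈ J, Disjoint p (f i)) ∧
      ∀ j, j ∉ J → ∀ p ∈ C, ∀ p' ∈ C, (p ∩ f j).Nonempty → (p' ∩ f j).Nonempty → p = p'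

/-- The recursion. -/
def RecStmt : Prop :=
  ∀ (E : Type) [NormedAddCommGroup E] [NormedSpace ℝ E] [FiniteDimensional ℝ E]
    (n : ℕ), finrank ℝ E = n + 3 → ∃ δ : ℝ, 0 < δ ∧ δ ≤ 1 / 2 ∧ ∀ k : ℕ, 1 ≤ k → ∃ A : ℝ,
    0 ≤ A ∧ ∀ (κ : Type) (f : κ → Set (E × ℝ)) (ψ : κ → Af (E × ℝ))
      (φ h : κ → Fin k → Af E),
    (∀ i, Convex ℝ (f i)) → (∀ i, (ψ i).linear ≠ 0) → (∀ i, ∀ x ∈ f i, ψ i x = 0) →
    (∀ i l, (φ i l).linear ≠ 0) →
    (∀ O : Set (E × ℝ), Convex ℝ O → ∀ i, (∀ l, Disjoint O (fl (φ i l) (h i l))) →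
      (O ∩ f i).Nonempty → ∀ j, j ≠ i → ∀ x ∈ O ∩ f j, ψ i x ≠ 0) →
    ∀ (s : Finset κ) (σ : Set (E × ℝ)), OP σ → Bornology.IsBounded σ →
    ∃ C : Finset (Set (E × ℝ)), Part σ C ∧ (∀ O ∈ C, ∀ i ∈ s, Disjoint O (f i)) ∧
      (C.card : ℝ) ≤ 1 + A * (s.card : ℝ) ^ (((n + 3 : ℕ) : ℝ) - δ)

/-- The closure of a bounded nonempty open polyhedral set is a polytope. -/
def PolyStmt : Prop :=
  ∀ (d : ℕ) (O : Set (EuclideanSpace ℝ (Fin d))), OP O → Bornology.IsBounded O → O.Nonempty →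
    IsPolytope d (closure O)

/-- From cells missing the boundary to a convex partition. -/
def ToPartStmt : Prop :=
  ∀ (d : ℕ) (P σ : Set (EuclideanSpace ℝ (Fin d))), closure (interior P) = P → P ⊆ σ →
    Bornology.IsBounded σ → ∀ C : Finset (Set (EuclideanSpace ℝ (Fin d))), Part σ C →
    (∀ O ∈ C, Disjoint O (frontier P)) →
    ∃ (M : ℕ) (K : Fin M → Set (EuclideanSpace ℝ (Fin d))), IsConvexPartition P K ∧ M ≤ C.card

/-- Coordinates in which small hulls lie in graph flats. -/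
def CoordStmt : Prop :=
  ∀ (X : Type) [NormedAddCommGroup X] [NormedSpace ℝ X] [FiniteDimensional ℝ X]
    (D : ℕ), finrank ℝ X = D + 1 → 1 ≤ D → ∀ TT : Set (Finset X), TT.Finite →
    (∀ T ∈ TT, T.card ≤ D) →
    ∃ Ψ : X ≃L[ℝ] ((Fin D → ℝ) × ℝ), ∀ T ∈ TT, ∃ φ h : Af (Fin D → ℝ), φ.linear ≠ 0 ∧
      ∀ x ∈ convexHull ℝ (T : Set X), Ψ x ∈ fl φ h

/-- A face crosses freely a convex set that misses its ridges. -/
def FaceStmt : Prop :=
  ∀ (X : Type) [NormedAddCommGroup X] [NormedSpace ℝ X] [FiniteDimensional ℝ X]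
    (D : ℕ), finrank ℝ X = D + 1 → ∀ V : Finset X, V.Nonempty →
    finrank ℝ (vectorSpan ℝ (convexHull ℝ (V : Set X))) = D →
    ∃ ψ : Af X, ψ.linear ≠ 0 ∧ (∀ x ∈ convexHull ℝ (V : Set X), ψ x = 0) ∧
      ∀ O : Set X, Convex ℝ O →
        (∀ T : Finset X, T ⊆ V → T.card ≤ D → Disjoint O (convexHull ℝ (T : Set X))) →
        (O ∩ convexHull ℝ (V : Set X)).Nonempty → ∀ x ∈ O, ψ x = 0 →
        x ∈ convexHull ℝ (V : Set X) ∧ x ∉ intrinsicFrontier ℝ (convexHull ℝ (V : Set X))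

/-- The final statement. -/
def MainStmt : Prop :=
  ∀ d : ℕ, 4 ≤ d → ∃ δ : ℝ, 0 < δ ∧ ∀ v : ℕ, ∃ A : ℝ,
    ∀ (n : ℕ) (P : Set (EuclideanSpace ℝ (Fin d))), 1 ≤ n → IsPolyhedronV P n v →
    ∃ (M : ℕ) (K : Fin M → Set (EuclideanSpace ℝ (Fin d))), IsConvexPartition P K ∧
      (M : ℝ) ≤ A * (n : ℝ) ^ ((d : ℝ) - 1 - δ)

end Pool.Agent.MP_a2955b_co.Up

end

section

/-! Basic facts on open polyhedral sets and partitions. -/

set_option autoImplicit false

namespace Pool.Agent.MP_a2955b_co.Up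

open Set Module

section alg

variable {E : Type} [NormedAddCommGroup E] [NormedSpace ℝ E]

theorem af_eq (g : Af E) (x : E) : g x = g.linear x + g 0 := by
  have := g.map_vadd (0 : E) x
  simpa using this

theorem af_sub (g : Af E) (x y : E) : g.linear (x - y) = g x - g y := by
  rw [af_eq g x, af_eq g y, map_sub]; ring

theorem af_add (g : Af E) (x u : E) : g (x + u) = g x + g.linear u := by
  rw [af_eq g (x + u), af_eq g x, map_add]; ring

theorem af_sum {I : Type} (s : Finset I) (g : Af E) (μ : I → ℝ) (b : I → E)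
    (h : ∑ l ∈ s, μ l = 1) : g (∑ l ∈ s, μ l • b l) = ∑ l ∈ s, μ l * g (b l) := by
  rw [af_eq g, map_sum]
  have : ∀ l ∈ s, μ l * g (b l) = g.linear (μ l • b l) + μ l * g 0 := by
    intro l _
    rw [af_eq g (b l), map_smul, smul_eq_mul]; ring
  rw [Finset.sum_congr rfl this, Finset.sum_add_distrib, ← Finset.sum_mul, h, one_mul]

theorem af_combo (g : Af E) (x y : E) (a b : ℝ) (h : a + b = 1) :
    g (a • x + b • y) = a * g x + b * g y := by
  rw [af_eq g, af_eq g x, af_eq g y, map_add, map_smul, map_smul, smul_eq_mul, smul_eq_mul]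
  have : g 0 = (a + b) * g 0 := by rw [h, one_mul]
  linarith

theorem convex_pos (g : Af E) : Convex ℝ {x | 0 < g x} :=
  (convex_Ioi (0 : ℝ)).affine_preimage g

theorem convex_neg (g : Af E) : Convex ℝ {x | g x < 0} :=
  (convex_Iio (0 : ℝ)).affine_preimage g

theorem convex_nonneg (g : Af E) : Convex ℝ {x | 0 ≤ g x} :=
  (convex_Ici (0 : ℝ)).affine_preimage g

theorem convex_nonpos (g : Af E) : Convex ℝ {x | g x ≤ 0} :=
  (convex_Iic (0 : ℝ)).affine_preimage g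

theorem convex_zero (g : Af E) : Convex ℝ {x | g x = 0} :=
  (convex_singleton (0 : ℝ)).affine_preimage g

/-- An affine function without zero on a convex set has constant sign there. -/
theorem sign_eq_of_convex {S : Set E} (hS : Convex ℝ S) (g : Af E) (hg : ∀ x ∈ S, g x ≠ 0)
    {x y : E} (hx : x ∈ S) (hy : y ∈ S) : SignType.sign (g x) = SignType.sign (g y) := by
  have key : ∀ x ∈ S, ∀ y ∈ S, 0 < g x → g y < 0 → False := by
    intro x hx y hy h1 h2
    have hd : 0 < g x - g y := by linarith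
    have ha : 0 ≤ -g y / (g x - g y) := div_nonneg (by linarith) hd.le
    have hb : 0 ≤ g x / (g x - g y) := div_nonneg h1.le hd.le
    have hab : -g y / (g x - g y) + g x / (g x - g y) = 1 := by field_simp; ring
    apply hg _ (hS hx hy ha hb hab)
    rw [af_combo g x y _ _ hab]
    field_simp; ring
  rcases lt_or_gt_of_ne (hg x hx) with h1 | h1 <;> rcases lt_or_gt_of_ne (hg y hy) with h2 | h2
  · rw [sign_neg h1, sign_neg h2]
  · exact (key y hy x hx h2 h1).elim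
  · exact (key x hx y hy h1 h2).elim
  · rw [sign_pos h1, sign_pos h2]

theorem OP.convex {O : Set E} (h : OP O) : Convex ℝ O := by
  obtain ⟨G, rfl⟩ := h
  intro x hx y hy a b ha hb hab g hg
  exact convex_pos g (hx g hg) (hy g hg) ha hb hab

theorem OP.inter {O O' : Set E} (h : OP O) (h' : OP O') : OP (O ∩ O') := by
  classical
  obtain ⟨G, rfl⟩ := h
  obtain ⟨G', rfl⟩ := h'
  refine ⟨G ∪ G', ?_⟩
  ext x
  simp only [mem_inter_iff, mem_ofPred_eq, Finset.mem_union]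
  constructor
  · rintro ⟨h1, h2⟩ g (hg | hg)
    · exact h1 g hg
    · exact h2 g hg
  · intro h
    exact ⟨fun g hg => h g (Or.inl hg), fun g hg => h g (Or.inr hg)⟩

theorem op_univ : OP (univ : Set E) := ⟨∅, by simp⟩

theorem op_pos (g : Af E) : OP {x | 0 < g x} := ⟨{g}, by simp⟩

theorem op_neg (g : Af E) : OP {x | g x < 0} := ⟨{-g}, by simp⟩

theorem op_family {κ : Type} (g : κ → Af E) (J : Finset κ) : OP {x | ∀ j ∈ J, 0 < g j x} := by
  classical
  exact ⟨J.image g, by simp⟩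

theorem Cell.op {k : ℕ} {τ : Set E} (h : Cell k τ) : OP τ := by
  obtain ⟨_, G, _, _, h⟩ := h
  exact ⟨G, h⟩

theorem OP.preimage {X : Type} [NormedAddCommGroup X] [NormedSpace ℝ X] {O : Set E} (h : OP O)
    (f : X →ᵃ[ℝ] E) : OP (f ⁻¹' O) := by
  classical
  obtain ⟨G, rfl⟩ := h
  exact ⟨G.image (fun g => g.comp f), by ext x; simp⟩

theorem OP.prod_univ {O : Set E} (h : OP O) : OP (O ×ˢ (univ : Set ℝ)) := by
  have := h.preimage (AffineMap.fst : E × ℝ →ᵃ[ℝ] E)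
  convert this using 1
  ext z; simp

/-- Only the points of `T` on the face `f = 0` matter. -/
theorem mem_hull_face {T : Set E} {p : E} (hp : p ∈ convexHull ℝ T) (f : Af E)
    (hf : ∀ q ∈ T, 0 ≤ f q) (h0 : f p = 0) : p ∈ convexHull ℝ {q | q ∈ T ∧ f q = 0} := by
  have hc : Convex ℝ {x | 0 ≤ f x ∧ (f x = 0 → x ∈ convexHull ℝ {q | q ∈ T ∧ f q = 0})} := by
    intro x hx y hy a b ha hb hab
    refine ⟨convex_nonneg f hx.1 hy.1 ha hb hab, fun h => ?_⟩
    rw [af_combo f x y a b hab] at h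
    have h1 : 0 ≤ a * f x := mul_nonneg ha hx.1
    have h2 : 0 ≤ b * f y := mul_nonneg hb hy.1
    have h3 : a * f x = 0 := by linarith
    have h4 : b * f y = 0 := by linarith
    rcases mul_eq_zero.1 h3 with h5 | h5
    · have hb1 : b = 1 := by linarith
      rw [h5, hb1, zero_smul, zero_add, one_smul]
      exact hy.2 (by rw [hb1, one_mul] at h4; exact h4)
    · rcases mul_eq_zero.1 h4 with h6 | h6
      · have ha1 : a = 1 := by linarith
        rw [h6, ha1, zero_smul, add_zero, one_smul]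
        exact hx.2 h5
      · exact convex_convexHull ℝ _ (hx.2 h5) (hy.2 h6) ha hb hab
  have hsub : T ⊆ {x | 0 ≤ f x ∧ (f x = 0 → x ∈ convexHull ℝ {q | q ∈ T ∧ f q = 0})} :=
    fun q hq => ⟨hf q hq, fun h => subset_convexHull ℝ _ ⟨hq, h⟩⟩
  exact (convexHull_min hsub hc hp).2 h0

theorem vx_spec {ι : Type} {D : ℕ} {φ : ι → Af E} {t : Fin D → ι} {p : E}
    (hp : ∀ i, φ (t i) p = 0) : ∀ i, φ (t i) (vx φ t) = 0 :=
  Classical.epsilon_spec (p := fun p => ∀ i, φ (t i) p = 0) ⟨p, hp⟩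

theorem Vx.mono {ι : Type} {D : ℕ} {φ : ι → Af E} {τ τ' : Set E} {t : Fin D → ι}
    (h : Vx φ τ t) (hτ : τ ⊆ τ') : Vx φ τ' t := by
  obtain ⟨h1, p, hp, h2⟩ := h
  exact ⟨h1, p, hτ hp, h2⟩

theorem Kills.mono {ι : Type} {D : ℕ} {φ h : ι → Af E} {W W' : Finset (Af E)}
    {G G' : Finset (Af (E × ℝ))} {t : Fin D → ι} (hk : Kills φ h W G t) (hW : W ⊆ W')
    (hG : G ⊆ G') : Kills φ h W' G' t :=
  fun S O h1 h2 h3 h4 h5 h6 h7 =>
    hk S O h1 h2 (fun w hw => h3 w (hW hw)) h4 h5 h6 (fun g hg => h7 g (hG hg))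

theorem Part.refl {σ : Set E} (h : OP σ) : Part σ {σ} where
  op := by simpa using h
  sub := by simp
  disj := by simp
  cover := by simpa using subset_closure

theorem Part.of_empty : Part (∅ : Set E) ∅ where
  op := by simp
  sub := by simp
  disj := by simp
  cover := by simp

/-- Refine every cell of a partition. -/
theorem Part.bind {σ : Set E} {C : Finset (Set E)} (hC : Part σ C) (D : Set E → Finset (Set E))
    (hD : ∀ O ∈ C, Part O (D O)) :
    ∃ C' : Finset (Set E), Part σ C' ∧ C'.card ≤ ∑ O ∈ C, (D O).card ∧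
      ∀ O', O' ∈ C' ↔ ∃ O ∈ C, O' ∈ D O := by
  classical
  refine ⟨C.biUnion D, ⟨?_, ?_, ?_, ?_⟩, Finset.card_biUnion_le, fun O' => Finset.mem_biUnion⟩
  · intro O' hO'
    obtain ⟨O, hO, h⟩ := Finset.mem_biUnion.1 hO'
    exact (hD O hO).op O' h
  · intro O' hO'
    obtain ⟨O, hO, h⟩ := Finset.mem_biUnion.1 hO'
    exact ((hD O hO).sub O' h).trans (hC.sub O hO)
  · intro p hp p' hp' hne
    obtain ⟨O, hO, h⟩ := Finset.mem_biUnion.1 hp
    obtain ⟨O', hO', h'⟩ := Finset.mem_biUnion.1 hp'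
    by_cases hOO : O = O'
    · subst hOO
      exact (hD O hO).disj p h p' h' hne
    · exact (hC.disj O hO O' hO' hOO).mono ((hD O hO).sub p h) ((hD O' hO').sub p' h')
  · refine hC.cover.trans (closure_minimal ?_ isClosed_closure)
    intro x hx
    simp only [mem_iUnion] at hx
    obtain ⟨O, hO, hx⟩ := hx
    refine closure_mono ?_ ((hD O hO).cover hx)
    intro y hy
    simp only [mem_iUnion] at hy ⊢
    obtain ⟨p, hp, hy⟩ := hy
    exact ⟨p, Finset.mem_biUnion.2 ⟨O, hO, hp⟩, hy⟩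

/-- Refine every cell, with a real bound on the number of pieces. -/
theorem Part.bind_real {σ : Set E} {C : Finset (Set E)} (hC : Part σ C) (f : Set E → ℝ)
    (Q : Set E → Prop)
    (h : ∀ O ∈ C, ∃ D : Finset (Set E), Part O D ∧ (D.card : ℝ) ≤ f O ∧ ∀ O' ∈ D, Q O') :
    ∃ C' : Finset (Set E), Part σ C' ∧ (C'.card : ℝ) ≤ ∑ O ∈ C, f O ∧ ∀ O' ∈ C', Q O' := by
  classical
  choose! D hD using h
  obtain ⟨C', h1, h2, h3⟩ := hC.bind D (fun O hO => (hD O hO).1)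
  refine ⟨C', h1, ?_, fun O' hO' => ?_⟩
  · calc (C'.card : ℝ) ≤ ((∑ O ∈ C, (D O).card : ℕ) : ℝ) := by exact_mod_cast h2
      _ = ∑ O ∈ C, ((D O).card : ℝ) := by push_cast; rfl
      _ ≤ _ := Finset.sum_le_sum (fun O hO => (hD O hO).2.1)
  · obtain ⟨O, hO, h4⟩ := (h3 O').1 hO'
    exact (hD O hO).2.2 O' h4

/-- Pull a partition back along an open continuous affine map. -/
theorem Part.comap {X : Type} [NormedAddCommGroup X] [NormedSpace ℝ X] {σ : Set E}
    {C : Finset (Set E)} (hC : Part σ C) (f : X →ᵃ[ℝ] E) (ho : IsOpenMap f) :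
    ∃ C' : Finset (Set X), Part (f ⁻¹' σ) C' ∧ C'.card ≤ C.card ∧
      ∀ O' ∈ C', ∃ O ∈ C, O' = f ⁻¹' O := by
  classical
  refine ⟨C.image (fun O => f ⁻¹' O), ⟨?_, ?_, ?_, ?_⟩, Finset.card_image_le, ?_⟩
  · intro O' hO'
    obtain ⟨O, hO, rfl⟩ := Finset.mem_image.1 hO'
    exact (hC.op O hO).preimage f
  · intro O' hO'
    obtain ⟨O, hO, rfl⟩ := Finset.mem_image.1 hO'
    exact preimage_mono (hC.sub O hO)
  · intro p hp p' hp' hne
    obtain ⟨O, hO, rfl⟩ := Finset.mem_image.1 hp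
    obtain ⟨O', hO', rfl⟩ := Finset.mem_image.1 hp'
    have : O ≠ O' := fun h => hne (by rw [h])
    exact (hC.disj O hO O' hO' this).preimage f
  · refine (preimage_mono hC.cover).trans ((ho.preimage_closure_subset_closure_preimage).trans ?_)
    refine closure_mono ?_
    intro x hx
    simp only [mem_preimage, mem_iUnion] at hx ⊢
    obtain ⟨O, hO, hx⟩ := hx
    exact ⟨_, Finset.mem_image_of_mem _ hO, hx⟩
  · intro O' hO'
    obtain ⟨O, hO, rfl⟩ := Finset.mem_image.1 hO'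
    exact ⟨O, hO, rfl⟩

theorem Part.prod {τ : Set E} {C : Finset (Set E)} (hC : Part τ C) :
    ∃ C' : Finset (Set (E × ℝ)), Part (τ ×ˢ (univ : Set ℝ)) C' ∧ C'.card ≤ C.card ∧
      ∀ O' ∈ C', ∃ S ∈ C, O' = S ×ˢ (univ : Set ℝ) := by
  obtain ⟨C', h1, h2, h3⟩ := hC.comap (AffineMap.fst : E × ℝ →ᵃ[ℝ] E) isOpenMap_fst
  have he : ∀ S : Set E, (AffineMap.fst : E × ℝ →ᵃ[ℝ] E) ⁻¹' S = S ×ˢ (univ : Set ℝ) := by
    intro S; ext z; simp
  rw [he] at h1
  refine ⟨C', h1, h2, fun O' hO' => ?_⟩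
  obtain ⟨S, hS, h⟩ := h3 O' hO'
  exact ⟨S, hS, by rw [h, he]⟩

theorem ncard_hit {κ : Type} (D : ℕ) (A J : Finset κ) :
    {t : Fin D → κ | (∀ i, t i ∈ A) ∧ ∃ i, t i ∈ J}.ncard ≤ D * J.card * A.card ^ (D - 1) := by
  classical
  have hsub : {t : Fin D → κ | (∀ i, t i ∈ A) ∧ ∃ i, t i ∈ J} ⊆
      ((Finset.univ : Finset (Fin D)).biUnion
        (fun i => Fintype.piFinset (fun i' => if i' = i then J else A)) : Finset (Fin D → κ)) := by
    rintro t ⟨h1, i, hi⟩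
    simp only [Finset.coe_biUnion, Finset.coe_univ, mem_univ, iUnion_true, mem_iUnion,
      Finset.mem_coe, Fintype.mem_piFinset]
    refine ⟨i, fun i' => ?_⟩
    split_ifs with h
    · rw [h]; exact hi
    · exact h1 i'
  refine (Set.ncard_le_ncard hsub (Finset.finite_toSet _)).trans ?_
  rw [Set.ncard_coe_finset]
  refine Finset.card_biUnion_le.trans ?_
  have : ∀ i : Fin D, (Fintype.piFinset (fun i' => if i' = i then J else A)).card =
      J.card * A.card ^ (D - 1) := by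
    intro i
    rw [Fintype.card_piFinset, ← Finset.mul_prod_erase _ _ (Finset.mem_univ i)]
    simp only [if_true]
    congr 1
    rw [Finset.prod_congr rfl (g := fun _ => A.card)]
    · simp
    · intro i' hi'
      rw [if_neg (Finset.ne_of_mem_erase hi')]
  simp only [this, Finset.sum_const, Finset.card_univ, Fintype.card_fin, smul_eq_mul]
  exact le_of_eq (by ring)

theorem ncard_tuples {κ : Type} (D : ℕ) (F : Set κ) (hF : F.Finite) :
    {t : Fin D → κ | ∀ i, t i ∈ F}.Finite ∧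
      {t : Fin D → κ | ∀ i, t i ∈ F}.ncard = F.ncard ^ D := by
  classical
  have : {t : Fin D → κ | ∀ i, t i ∈ F} =
      (Fintype.piFinset (fun _ : Fin D => hF.toFinset) : Finset (Fin D → κ)) := by
    ext t; simp
  rw [this, Set.ncard_coe_finset, Fintype.card_piFinset, Set.ncard_eq_toFinset_card F hF]
  exact ⟨Finset.finite_toSet _, by simp⟩

end alg

section fd

variable {E : Type} [NormedAddCommGroup E] [NormedSpace ℝ E] [FiniteDimensional ℝ E]

theorem af_continuous (g : Af E) : Continuous g := g.continuous_of_finiteDimensional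

theorem OP.isOpen {O : Set E} (h : OP O) : IsOpen O := by
  obtain ⟨G, rfl⟩ := h
  have : {x | ∀ g ∈ G, 0 < g x} = ⋂ g ∈ G, {x | 0 < g x} := by ext x; simp
  rw [this]
  exact isOpen_biInter_finset (fun g _ => isOpen_lt continuous_const (af_continuous g))

omit [FiniteDimensional ℝ E] in
theorem dense_ne (g : Af E) (hg : g.linear ≠ 0) : Dense {x | g x ≠ 0} := by
  obtain ⟨u, hu⟩ : ∃ u, g.linear u ≠ 0 := by
    by_contra h
    push Not at h
    exact hg (LinearMap.ext h)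
  intro x
  by_cases hx : g x = 0
  · have hc : Filter.Tendsto (fun s : ℝ => x + s • u) (nhdsWithin 0 {0}ᶜ) (nhds x) := by
      have : Continuous (fun s : ℝ => x + s • u) := by fun_prop
      have h2 := this.tendsto 0
      simp only [zero_smul, add_zero] at h2
      exact h2.mono_left nhdsWithin_le_nhds
    refine mem_closure_of_tendsto hc ?_
    filter_upwards [self_mem_nhdsWithin] with s hs
    rw [af_add, hx, zero_add, map_smul, smul_eq_mul]
    exact mul_ne_zero hs hu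
  · exact subset_closure hx

/-- The complement of finitely many hyperplanes is dense. -/
theorem dense_off (G : Set (Af E)) (hfin : G.Finite) (hG : ∀ g ∈ G, g.linear ≠ 0) :
    Dense {x | ∀ g ∈ G, g x ≠ 0} := by
  induction G, hfin using Set.Finite.induction_on with
  | empty => simp
  | @insert g G _ _ ih =>
    have h1 := ih (fun g' hg' => hG g' (mem_insert_of_mem _ hg'))
    have h2 := dense_ne g (hG g (mem_insert _ _))
    have h3 : IsOpen {x | g x ≠ 0} := isOpen_ne_fun (af_continuous g) continuous_const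
    have := h2.inter_of_isOpen_left h1 h3
    convert this using 1
    ext x; simp

/-- To check the covering property it is enough to cover the points off finitely many
hyperplanes. -/
theorem cover_of_off {σ Y : Set E} (hσ : IsOpen σ) (G : Set (Af E)) (hfin : G.Finite)
    (hG : ∀ g ∈ G, g.linear ≠ 0) (h : ∀ x ∈ σ, (∀ g ∈ G, g x ≠ 0) → x ∈ Y) :
    σ ⊆ closure Y := by
  refine ((dense_off G hfin hG).open_subset_closure_inter hσ).trans (closure_mono ?_)
  rintro x ⟨h1, h2⟩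
  exact h x h1 h2

theorem Part.inter {σ σ' : Set E} {C : Finset (Set E)} (hC : Part σ' C) (hσ : OP σ)
    (hsub : σ ⊆ σ') :
    ∃ C' : Finset (Set E), Part σ C' ∧ C'.card ≤ C.card ∧ ∀ O' ∈ C', ∃ O ∈ C, O' = O ∩ σ := by
  classical
  refine ⟨C.image (fun O => O ∩ σ), ⟨?_, ?_, ?_, ?_⟩, Finset.card_image_le, ?_⟩
  · intro O' hO'
    obtain ⟨O, hO, rfl⟩ := Finset.mem_image.1 hO'
    exact (hC.op O hO).inter hσ
  · intro O' hO'
    obtain ⟨O, hO, rfl⟩ := Finset.mem_image.1 hO'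
    exact inter_subset_right
  · intro p hp p' hp' hne
    obtain ⟨O, hO, rfl⟩ := Finset.mem_image.1 hp
    obtain ⟨O', hO', rfl⟩ := Finset.mem_image.1 hp'
    have : O ≠ O' := fun h => hne (by rw [h])
    exact (hC.disj O hO O' hO' this).mono inter_subset_left inter_subset_left
  · intro x hx
    have := hσ.isOpen.inter_closure ⟨hx, hC.cover (hsub hx)⟩
    refine closure_mono ?_ this
    rintro y ⟨hy1, hy2⟩
    simp only [mem_iUnion] at hy2 ⊢
    obtain ⟨O, hO, hy⟩ := hy2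
    exact ⟨_, Finset.mem_image_of_mem _ hO, hy, hy1⟩
  · intro O' hO'
    obtain ⟨O, hO, rfl⟩ := Finset.mem_image.1 hO'
    exact ⟨O, hO, rfl⟩

theorem Part.split {O : Set E} (hO : OP O) (g : Af E) (hg : g.linear ≠ 0) :
    ∃ C : Finset (Set E), Part O C ∧ C.card ≤ 2 ∧
      ∀ p ∈ C, p = O ∩ {x | 0 < g x} ∨ p = O ∩ {x | g x < 0} := by
  classical
  refine ⟨{O ∩ {x | 0 < g x}, O ∩ {x | g x < 0}}, ⟨?_, ?_, ?_, ?_⟩, Finset.card_le_two, ?_⟩
  · intro p hp
    rcases Finset.mem_insert.1 hp with rfl | hp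
    · exact hO.inter (op_pos g)
    · rw [Finset.mem_singleton.1 hp]; exact hO.inter (op_neg g)
  · intro p hp
    rcases Finset.mem_insert.1 hp with rfl | hp
    · exact inter_subset_left
    · rw [Finset.mem_singleton.1 hp]; exact inter_subset_left
  · have hd : Disjoint (O ∩ {x | 0 < g x}) (O ∩ {x | g x < 0}) := by
      rw [Set.disjoint_left]
      rintro x ⟨_, h1⟩ ⟨_, h2⟩
      exact lt_asymm (show 0 < g x from h1) (show g x < 0 from h2)
    intro p hp p' hp' hne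
    simp only [Finset.mem_insert, Finset.mem_singleton] at hp hp'
    rcases hp with rfl | rfl <;> rcases hp' with rfl | rfl
    · exact (hne rfl).elim
    · exact hd
    · exact hd.symm
    · exact (hne rfl).elim
  · refine cover_of_off hO.isOpen {g} (finite_singleton g) (by simpa using hg) ?_
    intro x hx h
    have h0 := h g rfl
    simp only [Finset.mem_insert, Finset.mem_singleton, mem_iUnion]
    rcases lt_or_gt_of_ne h0 with h1 | h1
    · exact ⟨_, Or.inr rfl, hx, h1⟩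
    · exact ⟨_, Or.inl rfl, hx, h1⟩
  · intro p hp
    simpa using hp

theorem eq_zero_of_indep {D : ℕ} (hD : finrank ℝ E = D) {ℓ : Fin D → E →ₗ[ℝ] ℝ}
    (hℓ : LinearIndependent ℝ ℓ) {u : E} (hu : ∀ i, ℓ i u = 0) : u = 0 := by
  have hspan : Submodule.span ℝ (range ℓ) = ⊤ := by
    apply hℓ.span_eq_top_of_card_eq_finrank'
    rw [Fintype.card_fin, ← hD]
    exact Subspace.dual_finrank_eq.symm
  have hall : ∀ f : Module.Dual ℝ E, f u = 0 := by
    intro f
    have hf : f ∈ Submodule.span ℝ (range ℓ) := by rw [hspan]; trivial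
    refine Submodule.span_induction (p := fun f _ => f u = 0) ?_ ?_ ?_ ?_ hf
    · rintro _ ⟨i, rfl⟩; exact hu i
    · simp
    · intro a b _ _ ha hb; simp [ha, hb]
    · intro c a _ ha; simp [ha]
  exact (Module.forall_dual_apply_eq_zero_iff ℝ u).1 hall

theorem zero_unique {D : ℕ} (hD : finrank ℝ E = D) {ι : Type} {φ : ι → Af E} {t : Fin D → ι}
    (ht : LinearIndependent ℝ (fun i => (φ (t i)).linear)) {p p' : E}
    (hp : ∀ i, φ (t i) p = 0) (hp' : ∀ i, φ (t i) p' = 0) : p = p' := by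
  have := eq_zero_of_indep hD ht (u := p - p') (fun i => by rw [af_sub, hp i, hp' i, sub_zero])
  exact sub_eq_zero.1 this

theorem vx_unique {D : ℕ} (hD : finrank ℝ E = D) {ι : Type} {φ : ι → Af E} {t : Fin D → ι}
    (ht : LinearIndependent ℝ (fun i => (φ (t i)).linear)) {p : E}
    (hp : ∀ i, φ (t i) p = 0) : p = vx φ t :=
  zero_unique hD ht hp (vx_spec hp)

omit [FiniteDimensional ℝ E] in
/-- At most `finrank` points lie on a hyperplane. -/
theorem exists_af_zero (T : Finset E) (hT : T.card ≤ finrank ℝ E) (hne : T.Nonempty) :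
    ∃ g : Af E, g.linear ≠ 0 ∧ ∀ x ∈ convexHull ℝ (T : Set E), g x = 0 := by
  classical
  obtain ⟨p, hp⟩ := hne
  have hpos : 0 < T.card := Finset.card_pos.2 ⟨p, hp⟩
  have h1 : finrank ℝ (vectorSpan ℝ (T : Set E)) ≤ T.card - 1 := by
    have := finrank_vectorSpan_image_finset_le ℝ (id : E → E) T (n := T.card - 1) (by omega)
    rwa [Finset.image_id] at this
  have hlt : vectorSpan ℝ (T : Set E) < ⊤ := by
    rw [lt_top_iff_ne_top]
    intro h
    rw [h, finrank_top] at h1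
    omega
  obtain ⟨f, hf0, hf⟩ := Submodule.exists_le_ker_of_lt_top _ hlt
  refine ⟨f.toAffineMap - AffineMap.const ℝ E (f p), by simpa using hf0, ?_⟩
  refine fun x hx => convexHull_min (t := {x | (f.toAffineMap - AffineMap.const ℝ E (f p)) x = 0})
    ?_ (convex_zero _) hx
  intro q hq
  have := hf (vsub_mem_vectorSpan ℝ hq (Finset.mem_coe.2 hp))
  simp only [LinearMap.mem_ker, vsub_eq_sub, map_sub] at this
  simpa using this

/-- A bounded set lies in a box. -/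
theorem exists_cell {K : Set E} (hK : Bornology.IsBounded K) :
    ∃ τ : Set E, Cell (2 * finrank ℝ E) τ ∧ K ⊆ τ := by
  classical
  let b := Module.finBasis ℝ E
  let e := b.equivFun.toContinuousLinearEquiv
  obtain ⟨R, hR⟩ := (e.toContinuousLinearMap.lipschitz.isBounded_image hK).subset_ball 0
  let gp : Fin (finrank ℝ E) → Af E := fun i => AffineMap.const ℝ E R - (b.coord i).toAffineMap
  let gm : Fin (finrank ℝ E) → Af E := fun i => AffineMap.const ℝ E R + (b.coord i).toAffineMap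
  have hc : ∀ i, b.coord i ≠ 0 := by
    intro i h
    have := congrArg (fun f => f (b i)) h
    simp at this
  refine ⟨{x | ∀ g ∈ Finset.univ.image gp ∪ Finset.univ.image gm, 0 < g x}, ⟨?_, _, ?_, ?_, rfl⟩,
    ?_⟩
  · refine (e.symm.toContinuousLinearMap.lipschitz.isBounded_image
      (Metric.isBounded_closedBall (x := 0) (r := |R|))).subset ?_
    intro x hx
    refine ⟨e x, ?_, by simp⟩
    rw [mem_closedBall_zero_iff, pi_norm_le_iff_of_nonneg (abs_nonneg R)]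
    intro i
    have h1 := hx (gp i) (Finset.mem_union_left _ (Finset.mem_image_of_mem _ (Finset.mem_univ i)))
    have h2 := hx (gm i) (Finset.mem_union_right _ (Finset.mem_image_of_mem _ (Finset.mem_univ i)))
    simp only [gp, gm, AffineMap.coe_sub, AffineMap.coe_add, Pi.sub_apply, Pi.add_apply,
      AffineMap.const_apply, LinearMap.coe_toAffineMap, Basis.coord_apply] at h1 h2
    have h3 : e x i = b.repr x i := rfl
    rw [h3, Real.norm_eq_abs, abs_le]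
    constructor <;> linarith [le_abs_self R]
  · refine (Finset.card_union_le _ _).trans ?_
    have h1 := Finset.card_image_le (s := Finset.univ) (f := gp)
    have h2 := Finset.card_image_le (s := Finset.univ) (f := gm)
    simp only [Finset.card_univ, Fintype.card_fin] at h1 h2
    omega
  · intro g hg
    rcases Finset.mem_union.1 hg with hg | hg <;> obtain ⟨i, _, rfl⟩ := Finset.mem_image.1 hg
    · simpa [gp] using hc i
    · simpa [gm] using hc i
  · intro x hx g hg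
    have h0 := hR (mem_image_of_mem _ hx)
    rw [mem_ball_zero_iff] at h0
    have h4 : ∀ i, |b.repr x i| < R := fun i =>
      lt_of_le_of_lt (norm_le_pi_norm (e x) i) h0
    rcases Finset.mem_union.1 hg with hg | hg <;> obtain ⟨i, _, rfl⟩ := Finset.mem_image.1 hg
    · have := abs_lt.1 (h4 i)
      simp only [gp, AffineMap.coe_sub, Pi.sub_apply, AffineMap.const_apply,
        LinearMap.coe_toAffineMap, Basis.coord_apply]
      linarith
    · have := abs_lt.1 (h4 i)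
      simp only [gm, AffineMap.coe_add, Pi.add_apply, AffineMap.const_apply,
        LinearMap.coe_toAffineMap, Basis.coord_apply]
      linarith

omit [FiniteDimensional ℝ E] in
/-- The closed region of a bounded nonempty open polyhedral set is bounded. -/
theorem bounded_closed_region {κ : Type} (g : κ → Af E) (J : Finset κ)
    (hb : Bornology.IsBounded {x | ∀ j ∈ J, 0 < g j x}) {y : E} (hy : ∀ j ∈ J, 0 < g j y) :
    Bornology.IsBounded {x | ∀ j ∈ J, 0 ≤ g j x} := by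
  obtain ⟨R, hR⟩ := hb.subset_closedBall 0
  refine (Metric.isBounded_closedBall (x := (0 : E)) (r := 2 * R + ‖y‖)).subset ?_
  intro x hx
  have h1 : (1 / 2 : ℝ) • x + (1 / 2 : ℝ) • y ∈ {x | ∀ j ∈ J, 0 < g j x} := by
    intro j hj
    rw [af_combo _ _ _ _ _ (by norm_num)]
    have := hx j hj
    have := hy j hj
    linarith
  have h2 := mem_closedBall_zero_iff.1 (hR h1)
  rw [mem_closedBall_zero_iff]
  have h3 : x = (2 : ℝ) • ((1 / 2 : ℝ) • x + (1 / 2 : ℝ) • y) - y := by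
    rw [smul_add, smul_smul, smul_smul]; norm_num
  calc ‖x‖ = ‖(2 : ℝ) • ((1 / 2 : ℝ) • x + (1 / 2 : ℝ) • y) - y‖ := by rw [← h3]
    _ ≤ ‖(2 : ℝ) • ((1 / 2 : ℝ) • x + (1 / 2 : ℝ) • y)‖ + ‖y‖ := norm_sub_le _ _
    _ ≤ 2 * R + ‖y‖ := by
      rw [norm_smul, Real.norm_eq_abs, abs_two]; linarith

end fd

end Pool.Agent.MP_a2955b_co.Up

end

section

/-! From the recursion to convex partitions of polyhedra. -/

set_option autoImplicit false

namespace Pool.Agent.MP_a2955b_co.Up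

open Set Module

theorem exists_enum_MainOf {X : Type} (V : Finset X) (v D : ℕ) (hV : V.card ≤ v) :
    ∃ T : Fin (2 ^ v) → Finset X, (∀ l, T l ⊆ V ∧ (T l).card ≤ D) ∧
      ∀ T0 : Finset X, T0 ⊆ V → T0.card ≤ D → ∃ l, T l = T0 := by
  classical
  let Q : Finset (Finset X) := V.powerset.filter (fun T => T.card ≤ D)
  have hQ : Fintype.card Q ≤ Fintype.card (Fin (2 ^ v)) := by
    rw [Fintype.card_coe, Fintype.card_fin]
    calc Q.card ≤ V.powerset.card := Finset.card_filter_le _ _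
      _ = 2 ^ V.card := Finset.card_powerset V
      _ ≤ 2 ^ v := Nat.pow_le_pow_right (by norm_num) hV
  obtain ⟨e⟩ := Function.Embedding.nonempty_of_card_le hQ
  have : Nonempty Q := ⟨⟨∅, by simp [Q]⟩⟩
  refine ⟨fun l => (Function.invFun e l : Q), fun l => ?_, fun T0 h1 h2 => ?_⟩
  · have := (Function.invFun e l : Q).2
    simp only [Q, Finset.mem_filter, Finset.mem_powerset] at this
    exact this
  · have hm : T0 ∈ Q := by simp [Q, h1, h2]
    refine ⟨e ⟨T0, hm⟩, ?_⟩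
    have := Function.leftInverse_invFun e.injective ⟨T0, hm⟩
    simp only [this]

theorem main_of (hR : RecStmt) (hP : ToPartStmt) (hC : CoordStmt) (hF : FaceStmt) :
    MainStmt := by
  classical
  intro d hd
  obtain ⟨n', rfl⟩ : ∃ n', d = n' + 3 + 1 := ⟨d - 4, by omega⟩
  obtain ⟨δ, hδ, hδ2, hrec⟩ := hR (Fin (n' + 3) → ℝ) n' (by simp)
  refine ⟨δ, hδ, fun v => ?_⟩
  obtain ⟨A, hA0, hA⟩ := hrec (2 ^ v) Nat.one_le_two_pow
  refine ⟨1 + A, fun n P hn hPV => ?_⟩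
  obtain ⟨hcpt, hreg, F, hpoly, hV, hfr, hint⟩ := hPV
  choose V hVc hFV using hV
  have hX : finrank ℝ (EuclideanSpace ℝ (Fin (n' + 3 + 1))) = n' + 3 + 1 := by simp
  have hne : ∀ i, (V i).Nonempty := by
    intro i
    obtain ⟨V0, _, h0, h1, _⟩ := hpoly i
    have h2 : (F i).Nonempty := by rw [h1]; exact h0.convexHull
    rw [hFV i, convexHull_nonempty_iff] at h2
    exact Finset.coe_nonempty.1 h2
  have hdim : ∀ i, finrank ℝ (vectorSpan ℝ (convexHull ℝ
      (V i : Set (EuclideanSpace ℝ (Fin (n' + 3 + 1)))))) = n' + 3 := by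
    intro i
    obtain ⟨V0, _, _, _, h3⟩ := hpoly i
    rw [← hFV i, h3]; rfl
  choose ψ hψ hψ0 hfree using fun i => hF _ (n' + 3) hX (V i) (hne i) (hdim i)
  choose T hT hTsurj using fun i => exists_enum_MainOf (V i) v (n' + 3) (hVc i)
  obtain ⟨Ψ, hΨ⟩ := hC _ (n' + 3) hX (by omega) (range (fun p : Fin n × Fin (2 ^ v) => T p.1 p.2))
    (finite_range _) (by rintro _ ⟨p, rfl⟩; exact (hT p.1 p.2).2)
  choose φ h hφ hfl using fun (i : Fin n) (l : Fin (2 ^ v)) => hΨ (T i l) ⟨(i, l), rfl⟩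
  let Ψa := Ψ.toLinearEquiv.toLinearMap.toAffineMap
  let Ψs := Ψ.symm.toLinearEquiv.toLinearMap.toAffineMap
  obtain ⟨σ, hσ, hPσ⟩ := exists_cell
    (Ψ.toContinuousLinearMap.lipschitz.isBounded_image hcpt.isBounded)
  obtain ⟨C, hC1, hC2, hC3⟩ := hA (Fin n) (fun i => Ψs ⁻¹' F i) (fun i => (ψ i).comp Ψs) φ h
    (fun i => by
      rw [hFV i]; exact (convex_convexHull ℝ _).affine_preimage Ψs)
    (fun i hi => by
      apply hψ i
      ext x
      have := congrArg (fun f => f (Ψ x)) hi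
      simpa [Ψs] using this)
    (fun i x hx => by
      rw [mem_preimage, hFV i] at hx
      exact hψ0 i _ hx)
    hφ
    (fun O hO i hdis hmeet j hji x hx h0 => by
      have hO' : Convex ℝ (Ψa ⁻¹' O) := hO.affine_preimage Ψa
      have hxO : Ψs x ∈ Ψa ⁻¹' O := by simpa [Ψa, Ψs] using hx.1
      have h1 := hfree i (Ψa ⁻¹' O) hO' (fun T0 hT0 hc => by
        obtain ⟨l, rfl⟩ := hTsurj i T0 hT0 hc
        rw [Set.disjoint_left]
        intro y hy hy2
        exact Set.disjoint_left.1 (hdis l) hy (hfl i l y hy2))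
        (by
          obtain ⟨y, hy1, hy2⟩ := hmeet
          refine ⟨Ψs y, by simpa [Ψa, Ψs] using hy1, ?_⟩
          rw [← hFV i]; exact hy2) (Ψs x) hxO h0
      rw [← hFV i] at h1
      exact h1.2 (hint i j (Ne.symm hji) ⟨h1.1, hx.2⟩).1)
    Finset.univ σ hσ.op hσ.1
  obtain ⟨C', hC'1, hC'2, hC'3⟩ := hC1.comap Ψa Ψ.toHomeomorph.isOpenMap
  have hbd : Bornology.IsBounded (Ψa ⁻¹' σ) := by
    refine (Ψ.symm.toContinuousLinearMap.lipschitz.isBounded_image hσ.1).subset ?_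
    intro x hx
    exact ⟨Ψ x, hx, by simp⟩
  obtain ⟨M, K, hK, hM⟩ := hP _ P (Ψa ⁻¹' σ) hreg (fun x hx => hPσ ⟨x, hx, rfl⟩) hbd C' hC'1
    (fun O' hO' => by
      obtain ⟨O, hO, rfl⟩ := hC'3 O' hO'
      rw [hfr, Set.disjoint_left]
      intro x hx hx2
      obtain ⟨i, hi⟩ := mem_iUnion.1 hx2
      refine Set.disjoint_left.1 (hC2 O hO i (Finset.mem_univ i)) hx ?_
      simpa [Ψa, Ψs] using hi)
  refine ⟨M, K, hK, ?_⟩
  have he : ((n' + 3 + 1 : ℕ) : ℝ) - 1 - δ = ((n' + 3 : ℕ) : ℝ) - δ := by push_cast; ring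
  rw [he]
  rw [Finset.card_univ, Fintype.card_fin] at hC3
  have h1 : (1 : ℝ) ≤ (n : ℝ) ^ (((n' + 3 : ℕ) : ℝ) - δ) := by
    apply Real.one_le_rpow (by exact_mod_cast hn)
    have : (0 : ℝ) ≤ (n' : ℝ) := Nat.cast_nonneg _
    push_cast; linarith
  have h2 : (M : ℝ) ≤ C.card := by exact_mod_cast hM.trans hC'2
  nlinarith

end Pool.Agent.MP_a2955b_co.Up

end

section

set_option autoImplicit false

namespace Pool.Agent.MP_a2955b_co.Up

open Set Module

theorem sum_choose_le_Sgn (m e : ℕ) : ∑ k ∈ Finset.range (e + 1), m.choose k ≤ (m + 1) ^ e := by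
  induction e with
  | zero => simp
  | succ e ih =>
    rw [Finset.sum_range_succ]
    have h1 : m.choose (e + 1) ≤ m ^ (e + 1) := Nat.choose_le_pow m (e + 1)
    have h2 : m ^ e ≤ (m + 1) ^ e := Nat.pow_le_pow_left (Nat.le_succ m) e
    calc _ ≤ (m + 1) ^ e + m ^ e * m := add_le_add ih (h1.trans (pow_succ m e).le)
      _ ≤ (m + 1) ^ e + (m + 1) ^ e * m := by gcongr
      _ = (m + 1) ^ (e + 1) := by ring

theorem dep_Sgn {E : Type} [NormedAddCommGroup E] [NormedSpace ℝ E] [FiniteDimensional ℝ E]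
    {ι : Type} (φ : ι → Af E) (T : Finset ι) (hT : finrank ℝ E + 1 < T.card) :
    ∃ c : T → ℝ, (∀ x, ∑ i, c i * φ i x = 0) ∧ ∃ i, 0 < c i := by
  have hdep : ¬ LinearIndependent ℝ fun i : T => (((φ i).linear, φ i 0) : Dual ℝ E × ℝ) := by
    intro h
    have := h.fintype_card_le_finrank
    rw [Fintype.card_coe, finrank_prod, Subspace.dual_finrank_eq, finrank_self] at this
    omega
  obtain ⟨c, hc, i, hi⟩ := Fintype.not_linearIndependent_iff.1 hdep
  have hz : ∀ x, ∑ i, c i * φ i x = 0 := by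
    intro x
    have h1 := congrArg (fun z : Dual ℝ E × ℝ => z.1 x + z.2) hc
    simp only [Prod.fst_sum, Prod.snd_sum, Prod.smul_mk, LinearMap.sum_apply, LinearMap.smul_apply,
      smul_eq_mul, Prod.fst_zero, Prod.snd_zero, LinearMap.zero_apply, add_zero] at h1
    rw [← h1, ← Finset.sum_add_distrib]
    refine Finset.sum_congr rfl fun i _ => ?_
    have h2 := (φ i).map_vadd 0 x
    rw [vadd_eq_add, add_zero, vadd_eq_add] at h2
    rw [h2, mul_add]
  rcases lt_or_gt_of_ne hi with h | h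
  · refine ⟨fun i => -c i, fun x => ?_, i, neg_pos.2 h⟩
    simp only [neg_mul, Finset.sum_neg_distrib, hz x, neg_zero]
  · exact ⟨c, hz, i, h⟩

theorem sgn : SgnStmt := by
  classical
  intro E _ _ _ ι _ φ
  set A : Finset (Finset ι) :=
    Finset.univ.filter fun s => ∃ x, s = Finset.univ.filter fun i => 0 < φ i x with hA
  have h1 : {P : Set ι | ∃ x, P = {i | 0 < φ i x}} = (fun s : Finset ι => (s : Set ι)) '' A := by
    ext P
    constructor
    · rintro ⟨x, rfl⟩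
      exact ⟨Finset.univ.filter fun i => 0 < φ i x,
        Finset.mem_coe.2 (Finset.mem_filter.2 ⟨Finset.mem_univ _, x, rfl⟩), by ext i; simp⟩
    · rintro ⟨s, hs, rfl⟩
      obtain ⟨x, rfl⟩ := (Finset.mem_filter.1 (Finset.mem_coe.1 hs)).2
      exact ⟨x, by ext i; simp⟩
  have h2 : A.vcDim ≤ finrank ℝ E + 1 := by
    refine Finset.sup_le fun T hT => ?_
    rw [Finset.mem_shatterer] at hT
    by_contra hc
    obtain ⟨c, hz, i₀, hi₀⟩ := dep_Sgn φ T (not_le.1 hc)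
    obtain ⟨u, hu, e⟩ := hT (t := T.filter fun i => ∃ h : i ∈ T, 0 < c ⟨i, h⟩)
      (Finset.filter_subset _ _)
    obtain ⟨x, rfl⟩ := (Finset.mem_filter.1 hu).2
    have hiff : ∀ i : T, 0 < φ i x ↔ 0 < c i := by
      intro i
      have := Finset.ext_iff.1 e i
      simp only [Finset.mem_inter, Finset.mem_filter, Finset.mem_univ, true_and, i.2,
        exists_true_left] at this
      exact this
    refine absurd (hz x) (ne_of_gt (Finset.sum_pos' (fun i _ => ?_)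
      ⟨i₀, Finset.mem_univ _, mul_pos hi₀ ((hiff i₀).2 hi₀)⟩))
    by_cases h : 0 < c i
    · exact (mul_pos h ((hiff i).2 h)).le
    · exact mul_nonneg_of_nonpos_of_nonpos (not_lt.1 h) (not_lt.1 fun e => h ((hiff i).1 e))
  rw [h1, ncard_image_of_injective _ Finset.coe_injective, ncard_coe_finset]
  refine (Finset.card_le_card_shatterer A).trans (Finset.card_shatterer_le_sum_vcDim.trans ?_)
  refine le_trans (Finset.sum_le_sum_of_subset fun k hk => ?_) (sum_choose_le_Sgn _ _)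
  rw [Finset.mem_Iic] at hk
  rw [Finset.mem_range]
  omega

end Pool.Agent.MP_a2955b_co.Up

end

section

set_option autoImplicit false
namespace Pool.Agent.MP_a2955b_co.Up
open Set Module

theorem box_eq_GoodCount {ι : Type} {D : ℕ} (e : Fin D → Fin 3 → ι) :
    box (fun i b => if b then e i 2 else e i 0) (fun i => e i 1) = e := by
  funext i k
  fin_cases k <;> simp [box]

theorem inj_GoodCount {ι : Type} [Fintype ι] {D L : ℕ} (B : Finset (Fin D → Fin L → ι))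
    (P : Finset ((Fin D → Bool → ι) × (Fin D → ι)))
    (H : ∀ e ∈ B, ∃ s : Fin D → Fin 3 → Fin L, (∀ i, Function.Injective (s i)) ∧
      ∃ x ∈ P, box x.1 x.2 = fun i k => e i (s i k)) :
    B.card * Fintype.card ι ^ (3 * D) ≤ L ^ (3 * D) * (P.card * Fintype.card ι ^ (D * L)) := by
  classical
  choose s hs x hx hbox using H
  have h1 := Finset.card_le_card_of_injOn
    (s := B.attach ×ˢ (Finset.univ : Finset (Fin D → Fin 3 → ι)))
    (t := (Finset.univ : Finset (Fin D → Fin 3 → Fin L)) ×ˢ P ×ˢ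
      (Finset.univ : Finset (Fin D → Fin L → ι)))
    (fun z => (s z.1.1 z.1.2, x z.1.1 z.1.2,
      fun i => Function.extend (s z.1.1 z.1.2 i) (z.2 i) (z.1.1 i)))
    (fun z _ => by simp [hx]) (by
      rintro ⟨⟨e, he⟩, a⟩ _ ⟨⟨e', he'⟩, a'⟩ _ hz
      simp only [Prod.mk.injEq] at hz
      obtain ⟨h1, h2, h3⟩ := hz
      have h4 : (fun i k => e i (s e he i k)) = fun i k => e' i (s e he i k) := by
        rw [← hbox e he, h2, hbox e' he', h1]
      rw [← h1] at h3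
      have h5 : e = e' := by
        funext i l
        by_cases hl : ∃ k, s e he i k = l
        · obtain ⟨k, rfl⟩ := hl
          exact congrFun (congrFun h4 i) k
        · have := congrFun (congrFun h3 i) l
          rwa [Function.extend_apply' _ _ _ hl, Function.extend_apply' _ _ _ hl] at this
      have h6 : a = a' := by
        funext i k
        have := congrFun (congrFun h3 i) (s e he i k)
        rwa [(hs e he i).extend_apply, (hs e he i).extend_apply] at this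
      subst h5 h6
      rfl)
  simp only [Finset.card_product, Finset.card_attach, Finset.card_univ, Fintype.card_fun,
    Fintype.card_fin, ← pow_mul] at h1
  rwa [mul_comm L D] at h1

theorem goodCount_of (hS : SuperStmt) (hG : GoodSubStmt) : GoodCountStmt := by
  classical
  intro E _ _ D
  obtain ⟨L, hL, hsub⟩ := hG E D
  refine ⟨L ^ (3 * D), L ^ D, fun ι _ _ φ h U q hU hq => ?_⟩
  have hm : 0 < Fintype.card ι := Fintype.card_pos
  obtain ⟨o, ho⟩ := Finite.exists_max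
    (fun o : Fin D → Bool → ι => {t | t ∈ U ∧ Good φ h (box o t)}.ncard)
  refine ⟨o, ?_⟩
  set g := {t | t ∈ U ∧ Good φ h (box o t)}.ncard with hg
  set m := Fintype.card ι with hmdef
  have hu : 0 < U.ncard := by
    rcases Nat.eq_zero_or_pos U.ncard with h0 | h0
    · rw [h0, mul_zero] at hq
      exact absurd hq (not_le.2 (pow_pos hm D))
    · exact h0
  have h1 := hS ι D L hL U
  set Bs := {e : Fin D → Fin L → ι | ∀ j : Fin D → Fin L, (fun i => e i (j i)) ∈ U} with hBs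
  have h2 : m ^ (D * L) ≤ Bs.ncard * q ^ (L ^ D) := by
    have h3 : U.ncard ^ (L ^ D) * m ^ (D * L) ≤ U.ncard ^ (L ^ D) * (Bs.ncard * q ^ (L ^ D)) := by
      refine h1.trans ((Nat.mul_le_mul_left _ (Nat.pow_le_pow_left hq _)).trans (le_of_eq ?_))
      rw [mul_pow]
      ring
    exact Nat.le_of_mul_le_mul_left h3 (pow_pos hu _)
  let P : Finset ((Fin D → Bool → ι) × (Fin D → ι)) :=
    Finset.univ.filter fun x => x.2 ∈ U ∧ Good φ h (box x.1 x.2)
  have hP : P.card ≤ g * m ^ (2 * D) := by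
    have h3 := Finset.card_le_mul_card_image_of_maps_to (f := Prod.fst) (s := P)
      (t := Finset.univ) (fun _ _ => Finset.mem_univ _) g (fun o' _ => by
        refine le_trans ?_ (ho o')
        rw [← Set.ncard_coe_finset]
        refine Set.ncard_le_ncard_of_injOn Prod.snd ?_ ?_ (Set.toFinite _)
        · rintro ⟨a, t⟩ hx
          simp only [P, Finset.coe_filter, Finset.mem_filter, Finset.mem_univ, true_and,
            Set.mem_setOf_eq] at hx
          obtain ⟨hx, rfl⟩ := hx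
          exact hx
        · rintro ⟨a, t⟩ hx ⟨a', t'⟩ hx' ht
          simp only [Finset.coe_filter, Set.mem_setOf_eq] at hx hx'
          exact Prod.ext (hx.2.trans hx'.2.symm) ht)
    simpa only [Finset.card_univ, Fintype.card_fun, Fintype.card_bool, Fintype.card_fin,
      ← pow_mul] using h3
  have h4 := inj_GoodCount (L := L) Bs.toFinset P (by
    intro e he
    rw [Set.mem_toFinset] at he
    obtain ⟨s, hs, hgood⟩ := hsub ι φ h e fun j => hU _ (he j)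
    refine ⟨s, fun i => (hs i).injective,
      (fun i b => if b then e i (s i 2) else e i (s i 0), fun i => e i (s i 1)), ?_,
      box_eq_GoodCount fun i k => e i (s i k)⟩
    simp only [P, Finset.mem_filter, Finset.mem_univ, true_and]
    refine ⟨he fun i => s i 1, ?_⟩
    rw [box_eq_GoodCount fun i k => e i (s i k)]
    exact hgood)
  rw [← Set.ncard_eq_toFinset_card'] at h4
  have h5 : (m ^ (2 * D) * m ^ (D * L)) * m ^ D ≤
      (m ^ (2 * D) * m ^ (D * L)) * (L ^ (3 * D) * q ^ (L ^ D) * g) := by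
    calc (m ^ (2 * D) * m ^ (D * L)) * m ^ D = m ^ (D * L) * m ^ (3 * D) := by ring
      _ ≤ Bs.ncard * q ^ (L ^ D) * m ^ (3 * D) := Nat.mul_le_mul_right _ h2
      _ = q ^ (L ^ D) * (Bs.ncard * m ^ (3 * D)) := by ring
      _ ≤ q ^ (L ^ D) * (L ^ (3 * D) * (P.card * m ^ (D * L))) := Nat.mul_le_mul_left _ h4
      _ ≤ q ^ (L ^ D) * (L ^ (3 * D) * ((g * m ^ (2 * D)) * m ^ (D * L))) := by gcongr
      _ = _ := by ring
  exact Nat.le_of_mul_le_mul_left h5 (by positivity)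

end Pool.Agent.MP_a2955b_co.Up

end

section

set_option autoImplicit false
namespace Pool.Agent.MP_a2955b_co.Up
open Set Module

theorem root_Num (k y1 m : ℕ) (hk : 1 ≤ k) (h : y1 ^ k ≤ m) :
    ∃ y : ℕ, y1 ≤ y ∧ y ^ k ≤ m ∧ m < (y + 1) ^ k := by
  have hle : ∀ z : ℕ, z ^ k ≤ m → z ≤ m := fun z hz => (Nat.le_self_pow (by omega) z).trans hz
  refine ⟨Nat.findGreatest (fun y => y ^ k ≤ m) m, Nat.le_findGreatest (hle _ h) h,
    Nat.findGreatest_spec (P := fun y => y ^ k ≤ m) (hle _ h) h, ?_⟩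
  by_contra hc
  have hc' := not_lt.1 hc
  have := Nat.le_findGreatest (P := fun y => y ^ k ≤ m) (hle _ hc') hc'
  omega

theorem real_Num (D Z N M m y : ℕ) (ε : ℝ) (hD : 1 ≤ D) (hZ : 2 ≤ Z) (hy : 1 ≤ y)
    (hε : 1 ≤ ε * y) (hM : M * y ^ Z ≤ y ^ 3 * m) (hN : N * y ^ (3 * D + 2) ≤ y ^ (Z * D)) :
    (N : ℝ) * (M : ℝ) ^ ((D : ℝ) - 1 / Z) ≤ ε * (m : ℝ) ^ ((D : ℝ) - 1 / Z) := by
  have hZ' : (2 : ℝ) ≤ Z := by exact_mod_cast hZ
  have hD' : (1 : ℝ) ≤ D := by exact_mod_cast hD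
  have hy' : (1 : ℝ) ≤ y := by exact_mod_cast hy
  have hy0 : (0 : ℝ) < y := by linarith
  have hδ : (1 : ℝ) / Z ≤ 1 / 2 := one_div_le_one_div_of_le (by norm_num) hZ'
  have hδ0 : (0 : ℝ) < 1 / Z := by positivity
  set e : ℝ := (D : ℝ) - 1 / Z with he
  have he0 : 0 ≤ e := by rw [he]; linarith
  have h1 : ((M : ℝ) * (y : ℝ) ^ Z) ^ e ≤ ((y : ℝ) ^ 3 * m) ^ e :=
    Real.rpow_le_rpow (by positivity) (by exact_mod_cast hM) he0
  rw [Real.mul_rpow (by positivity) (by positivity), Real.mul_rpow (by positivity) (by positivity)]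
    at h1
  have h2 : ((y : ℝ) ^ Z) ^ e * y = (y : ℝ) ^ (Z * D) := by
    rw [← Real.rpow_natCast, ← Real.rpow_mul hy0.le, ← Real.rpow_add_one hy0.ne',
      ← Real.rpow_natCast]
    congr 1
    have : (Z : ℝ) ≠ 0 := by linarith
    rw [he]; push_cast; field_simp; ring
  have h3 : ((y : ℝ) ^ 3) ^ e ≤ (y : ℝ) ^ (3 * D) := by
    rw [pow_mul, ← Real.rpow_natCast _ D]
    exact Real.rpow_le_rpow_of_exponent_le (one_le_pow₀ hy') (by rw [he]; linarith)
  have h4 : (N : ℝ) * (y : ℝ) ^ (3 * D + 2) ≤ (y : ℝ) ^ (Z * D) := by exact_mod_cast hN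
  have hme : 0 ≤ (m : ℝ) ^ e := by positivity
  have hMe : 0 ≤ (M : ℝ) ^ e := by positivity
  have hP : 0 < (y : ℝ) ^ (Z * D) := by positivity
  have h5 : (N : ℝ) * (M : ℝ) ^ e * y * (y : ℝ) ^ (Z * D) ≤ (m : ℝ) ^ e * (y : ℝ) ^ (Z * D) := by
    calc (N : ℝ) * (M : ℝ) ^ e * y * (y : ℝ) ^ (Z * D)
        = N * y * y * ((M : ℝ) ^ e * ((y : ℝ) ^ Z) ^ e) := by rw [← h2]; ring
      _ ≤ N * y * y * (((y : ℝ) ^ 3) ^ e * (m : ℝ) ^ e) := by gcongr
      _ ≤ N * y * y * ((y : ℝ) ^ (3 * D) * (m : ℝ) ^ e) := by gcongr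
      _ = (m : ℝ) ^ e * (N * (y : ℝ) ^ (3 * D + 2)) := by ring
      _ ≤ (m : ℝ) ^ e * (y : ℝ) ^ (Z * D) := by gcongr
  have h6 : (N : ℝ) * (M : ℝ) ^ e * y ≤ (m : ℝ) ^ e := le_of_mul_le_mul_right h5 hP
  have h7 : (N : ℝ) * (M : ℝ) ^ e * y ≤ ε * (m : ℝ) ^ e * y := by
    calc _ ≤ (m : ℝ) ^ e := h6
      _ = (m : ℝ) ^ e * 1 := (mul_one _).symm
      _ ≤ (m : ℝ) ^ e * (ε * y) := by gcongr
      _ = _ := by ring
  exact le_of_mul_le_mul_right h7 hy0

theorem num_of (h : NumNatStmt) : NumStmt := by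
  intro D w0 c1 c2 hD
  obtain ⟨Z, hZ, y0, hy0⟩ := h D w0 c1 c2 hD
  have hZ' : (2 : ℝ) ≤ Z := by exact_mod_cast hZ
  refine ⟨1 / Z, by positivity, one_div_le_one_div_of_le (by norm_num) hZ', fun ε hε => ?_⟩
  refine ⟨(max y0 (⌈1 / ε⌉₊ + 1)) ^ (2 * Z), fun m hm => ?_⟩
  obtain ⟨y, hy1, hy2, hy3⟩ := root_Num (2 * Z) _ m (by omega) hm
  have hya : y0 ≤ y := (le_max_left _ _).trans hy1
  have hyb : ⌈1 / ε⌉₊ + 1 ≤ y := (le_max_right _ _).trans hy1
  have hy : 1 ≤ y := by omega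
  obtain ⟨q, k1, t1, t2, lam, hq, a1, a2, a3, a4, a5, a6⟩ := hy0 y m hya hy2 hy3
  refine ⟨q, k1, t1, y ^ Z, t2, lam, hq, a1, a2, a3, a4, fun N hN => ?_⟩
  have hm0 : 0 < m := lt_of_lt_of_le (pow_pos hy _) hy2
  have hN' : N * y ^ (3 * D + 2) ≤ y ^ (Z * D) := by
    have h1 : q * N * m ^ D * y ^ (3 * D + 2) ≤ q * y ^ (Z * D) * m ^ D :=
      (Nat.mul_le_mul_right _ hN).trans a6
    have h2 : (q * m ^ D) * (N * y ^ (3 * D + 2)) ≤ (q * m ^ D) * y ^ (Z * D) := by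
      calc _ = q * N * m ^ D * y ^ (3 * D + 2) := by ring
        _ ≤ _ := h1
        _ = _ := by ring
    exact Nat.le_of_mul_le_mul_left h2 (Nat.mul_pos hq (pow_pos hm0 _))
  refine ⟨real_Num D Z N _ m y ε hD hZ hy ?_ a5 hN', ?_⟩
  · have h1 : 1 / ε ≤ (y : ℝ) := by
      refine (Nat.le_ceil _).trans ?_
      exact_mod_cast (by omega : ⌈1 / ε⌉₊ ≤ y)
    rw [div_le_iff₀ hε] at h1
    linarith
  · have h1 : N ≤ y ^ (Z * D) := le_trans (Nat.le_mul_of_pos_right _ (pow_pos hy _)) hN'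
    calc N ^ 2 ≤ (y ^ (Z * D)) ^ 2 := Nat.pow_le_pow_left h1 2
      _ = (y ^ (2 * Z)) ^ D := by rw [← pow_mul, ← pow_mul]; congr 1; ring
      _ ≤ m ^ D := Nat.pow_le_pow_left hy2 D

end Pool.Agent.MP_a2955b_co.Up

end

section

/-! Barycentric triangulation of an arrangement inside a bounded cell. -/

set_option autoImplicit false

namespace Pool.Agent.MP_a2955b_co.Up

open Set Module

section

variable {E : Type} [NormedAddCommGroup E] [NormedSpace ℝ E]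

/-- The open simplex spanned by a family of points. -/
def sx_Tri {D : ℕ} (b : Fin (D + 1) → E) : Set E :=
  {x | ∃ μ : Fin (D + 1) → ℝ, (∀ l, 0 < μ l) ∧ ∑ l, μ l = 1 ∧ x = ∑ l, μ l • b l}

theorem basis_Tri [FiniteDimensional ℝ E] {D : ℕ} (hD : finrank ℝ E = D) {b : Fin (D + 1) → E}
    (hb : AffineIndependent ℝ b) : ∃ β : AffineBasis (Fin (D + 1)) ℝ E, ⇑β = b :=
  ⟨⟨b, hb, hb.affineSpan_eq_top_iff_card_eq_finrank_add_one.2 (by rw [Fintype.card_fin, hD])⟩, rfl⟩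

theorem zero_Tri {D : ℕ} (β : AffineBasis (Fin (D + 1)) ℝ E) (f : Af E) (h : ∀ l, f (β l) = 0) :
    f.linear = 0 := by
  have h1 : ∀ x, f x = 0 := fun x => by
    rw [← β.linear_combination_coord_eq_self x, af_sum _ f _ _ (β.sum_coord_apply_eq_one x)]
    simp [h]
  refine LinearMap.ext fun u => ?_
  have := af_eq f u
  rw [h1, h1, add_zero] at this
  exact this.symm

theorem pos_Tri {κ : Type} {g : κ → Af E} {A J : Finset κ} (hJ : J ⊆ A) {x y : E}
    (h : SameSg g A x y) (hy : ∀ j ∈ J, 0 < g j y) : ∀ j ∈ J, 0 < g j x := fun j hj => by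
  rw [← sign_eq_one_iff, h j (hJ hj), sign_eq_one_iff]
  exact hy j hj

end

theorem tri_of (hS : SimpStmt) (hC : ChainStmt) (hE : ChainExStmt) (hN : ChainCountStmt) :
    TriStmt := by
  classical
  intro E _ _ _ D hD κ g A J hJ hA hB
  obtain ⟨-, -, c3, c4, c5, c6⟩ := hC E κ g A
  rcases {x | ∀ j ∈ J, 0 < g j x}.eq_empty_or_nonempty with h | ⟨y, hy⟩
  · exact ⟨∅, h ▸ Part.of_empty, by simp, by simp⟩
  have hK := bounded_closed_region g J hB hy
  have hfin : {b : Fin (D + 1) → E | Chain g A b ∧ ∀ j ∈ J, 0 < g j (b (Fin.last D))}.Finite :=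
    (ncard_tuples (D + 1) _ c3).1.subset fun b hb l => ⟨_, hb.1.fix l⟩
  have hmem : ∀ S, S ∈ hfin.toFinset.image sx_Tri ↔ ∃ b : Fin (D + 1) → E,
      (Chain g A b ∧ ∀ j ∈ J, 0 < g j (b (Fin.last D))) ∧ sx_Tri b = S := fun S => by
    simp only [Finset.mem_image, Set.Finite.mem_toFinset, mem_ofPred_eq]
  have hsg : ∀ b : Fin (D + 1) → E, Chain g A b → ∀ x ∈ sx_Tri b,
      SameSg g A x (b (Fin.last D)) := by
    rintro b hb x ⟨μ, h0, h1, rfl⟩
    exact c5 D b μ hb h0 h1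
  have hsx : ∀ β : AffineBasis (Fin (D + 1)) ℝ E, sx_Tri β = Simp β := fun β =>
    Set.ext fun x => ((hS E D β).2.2.1 x).symm
  refine ⟨hfin.toFinset.image sx_Tri, ⟨fun S hS' => ?_, fun S hS' => ?_, fun S hS' S' hS'' hne => ?_,
    ?_⟩, fun S hS' => ?_, ?_⟩
  · obtain ⟨b, ⟨hb, -⟩, rfl⟩ := (hmem S).1 hS'
    obtain ⟨β, rfl⟩ := basis_Tri hD (c4 D b hb)
    rw [hsx]
    exact (hS E D β).2.1
  · obtain ⟨b, ⟨hb, h⟩, rfl⟩ := (hmem S).1 hS'
    exact fun x hx => pos_Tri hJ (hsg b hb x hx) h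
  · obtain ⟨b, ⟨hb, -⟩, rfl⟩ := (hmem S).1 hS'
    obtain ⟨b', ⟨hb', -⟩, rfl⟩ := (hmem S').1 hS''
    rw [Set.disjoint_left]
    rintro x ⟨μ, h0, h1, e⟩ ⟨μ', h0', h1', e'⟩
    exact hne (congrArg _ (c6 D b b' μ μ' hb hb' h0 h1 h0' h1' (e.symm.trans e')))
  · choose! F hF hF' using fun (T : Finset E) (h : T.card ≤ D ∧ T.Nonempty) =>
      exists_af_zero T (hD ▸ h.1) h.2
    refine cover_of_off (op_family g J).isOpen
      (F '' {T | T ∈ c3.toFinset.powerset ∧ T.card ≤ D ∧ T.Nonempty})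
      ((c3.toFinset.powerset.finite_toSet.subset fun T hT => hT.1).image F) ?_ fun x hx hoff => ?_
    · rintro _ ⟨T, hT, rfl⟩
      exact hF T hT.2
    obtain ⟨r, b, μ, hb, h0, h1, e⟩ := hE E κ g A J hJ hK x fun j hj => (hx j hj).le
    have hr : r ≤ D := by
      have h2 := (c4 r b hb).card_le_finrank_succ
      have h3 := Submodule.finrank_le (vectorSpan ℝ (range b))
      rw [Fintype.card_fin] at h2
      omega
    rcases hr.eq_or_lt with rfl | hr
    · have h2 : x ∈ sx_Tri b := ⟨μ, h0, h1, e⟩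
      exact mem_biUnion ((hmem _).2 ⟨b, ⟨hb, pos_Tri hJ (fun j hj => (hsg b hb x h2 j hj).symm) hx⟩,
        rfl⟩) h2
    · exfalso
      have hT : (Finset.univ.image b).card ≤ D ∧ (Finset.univ.image b).Nonempty :=
        ⟨Finset.card_image_le.trans (by rw [Finset.card_univ, Fintype.card_fin]; omega),
          Finset.univ_nonempty.image b⟩
      refine hoff (F (Finset.univ.image b)) ⟨_, ⟨?_, hT⟩, rfl⟩ (hF' _ hT x ?_)
      · refine Finset.mem_powerset.2 fun p hp => ?_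
        obtain ⟨l, -, rfl⟩ := Finset.mem_image.1 hp
        exact c3.mem_toFinset.2 ⟨_, hb.fix l⟩
      · rw [e]
        exact (convex_convexHull ℝ _).sum_mem (fun l _ => (h0 l).le) h1 fun l _ =>
          subset_convexHull ℝ _ (Finset.mem_coe.2 (Finset.mem_image_of_mem b (Finset.mem_univ l)))
  · obtain ⟨b, ⟨hb, -⟩, rfl⟩ := (hmem S).1 hS'
    obtain ⟨β, rfl⟩ := basis_Tri hD (c4 D b hb)
    refine ⟨⟨β, hsx β⟩, fun j hj x hx e => hA j hj (zero_Tri β _ fun l => ?_)⟩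
    have h2 : g j (β (Fin.last D)) = 0 := by
      rw [← sign_eq_zero_iff, ← hsg β hb x hx j hj, e, sign_zero]
    rcases (Fin.le_last l).eq_or_lt with rfl | h
    · exact h2
    · exact (hb.below _ _ h j hj).elim id fun e' => by
        rwa [h2, sign_zero, sign_eq_zero_iff] at e'
  · refine Finset.card_image_le.trans ?_
    rw [← Set.ncard_eq_toFinset_card _ hfin]
    exact hN E D hD κ g A J hJ

end Pool.Agent.MP_a2955b_co.Up

end

section

/-! The vertex sensitive cutting. -/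

set_option autoImplicit false

namespace Pool.Agent.MP_a2955b_co.Up

open Set Module

theorem ranges_Cut (hG : SgnStmt) (E : Type) [NormedAddCommGroup E] [NormedSpace ℝ E]
    [FiniteDimensional ℝ E] (ι : Type) [Fintype ι] (φ : ι → Af E) (F : Set ι) :
    {r : Set ι | ∃ x y : E, r = {i | i ∈ F ∧ 0 < φ i x ∧ φ i y < 0}}.ncard ≤
      (Fintype.card ι + 1) ^ (2 * (finrank ℝ E + 1)) := by
  have h1 := hG E ι φ
  have h2 := hG E ι (fun i => -φ i)
  have hsub : {r : Set ι | ∃ x y : E, r = {i | i ∈ F ∧ 0 < φ i x ∧ φ i y < 0}} ⊆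
      (fun p : Set ι × Set ι => F ∩ (p.1 ∩ p.2)) ''
        ({P : Set ι | ∃ x, P = {i | 0 < φ i x}} ×ˢ {P : Set ι | ∃ x, P = {i | 0 < (-φ i) x}}) := by
    rintro r ⟨x, y, rfl⟩
    refine ⟨({i | 0 < φ i x}, {i | 0 < (-φ i) y}), ⟨⟨x, rfl⟩, ⟨y, rfl⟩⟩, ?_⟩
    ext i
    simp only [mem_inter_iff, mem_ofPred_eq, AffineMap.coe_neg, Pi.neg_apply, neg_pos]
  refine (Set.ncard_le_ncard hsub (Set.toFinite _)).trans ?_
  refine (Set.ncard_image_le (Set.toFinite _)).trans ?_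
  rw [Set.ncard_prod, two_mul, pow_add]
  exact Nat.mul_le_mul h1 h2

theorem cut_of (hG : SgnStmt) (hS : SimpStmt) (hT : TriStmt) (hR : SampleStmt) : CutStmt := by
  classical
  intro E _ _ _ D hD h1 ι _ φ hφ F w0 τ hτ W hW k t lam hlam hk
  obtain ⟨hb, G0, hG0c, hG0, hτ⟩ := hτ
  have hRg := ranges_Cut hG E ι φ F
  rw [hD] at hRg
  obtain ⟨R, hRk, hnet, hN⟩ := hR ι D
    {r : Set ι | ∃ x y : E, r = {i | i ∈ F ∧ 0 < φ i x ∧ φ i y < 0}}
    {t : Fin D → ι | (∀ i, t i ∈ F) ∧ Vx φ τ t}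
    (fun x hx => Function.Injective.of_comp (f := fun j => (φ j).linear) hx.2.1.injective)
    k t lam (lt_of_le_of_lt (Nat.mul_le_mul_left 2 hRg) hlam) hk
  let g : Af E ⊕ ι → Af E := Sum.elim id φ
  let A : Finset (Af E ⊕ ι) := (G0 ∪ W).disjSum (R.filter (· ∈ F))
  let J : Finset (Af E ⊕ ι) := G0.disjSum ∅
  let J' : Finset (Af E ⊕ ι) := (G0 ∪ W).disjSum ∅
  have hJ : {x | ∀ j ∈ J, 0 < g j x} = τ := by
    rw [hτ]
    ext x
    simp [J, g]
  have hJA : J ⊆ A := Finset.disjSum_mono Finset.subset_union_left (Finset.empty_subset _)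
  have hA : ∀ j ∈ A, (g j).linear ≠ 0 := by
    rintro (j | j) hj
    · rcases Finset.mem_union.1 (Finset.inl_mem_disjSum.1 hj) with h | h
      · exact hG0 j h
      · exact hW j h
    · exact hφ j
  obtain ⟨C, hC, hCS, hCc⟩ := hT E D hD _ g A J hJA hA (hJ ▸ hb)
  rw [hJ] at hC hCc
  refine ⟨C, _, hC, fun S hSC => ?_, hCc.trans (Nat.mul_le_mul_left _ ?_), hN,
    Set.ncard_le_ncard (fun x hx => hx.1) (Set.toFinite _)⟩
  · obtain ⟨⟨b, rfl⟩, hne⟩ := hCS S hSC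
    obtain ⟨s1, -, -, s4, s5⟩ := hS E D b
    refine ⟨s1 h1, fun w hw => hne (Sum.inl w)
      (Finset.inl_mem_disjSum.2 (Finset.mem_union_right _ hw)), ?_⟩
    have hsub : {i | i ∈ F ∧ ∃ x ∈ Simp b, φ i x = 0} ⊆ ⋃ p : Fin (D + 1) × Fin (D + 1),
        {i | i ∈ F ∧ 0 < φ i (b p.1) ∧ φ i (b p.2) < 0} := by
      rintro i ⟨hi, hx⟩
      obtain ⟨l, l', h⟩ := s4 (φ i) (hφ i) hx
      exact mem_iUnion.2 ⟨(l, l'), hi, h⟩
    refine (Set.ncard_le_ncard hsub (Set.toFinite _)).trans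
      ((Set.ncard_iUnion_le_of_fintype _).trans ?_)
    refine (Finset.sum_le_card_nsmul _ _ t fun p _ => hnet _ ⟨_, _, rfl⟩ ?_).trans ?_
    · rw [Set.disjoint_left]
      rintro i ⟨hi, h⟩ hiR
      exact s5 (φ i) (hne (Sum.inr i) (Finset.inr_mem_disjSum.2
        (Finset.mem_filter.2 ⟨hiR, hi⟩))) _ _ h
    · simp [sq]
  · have hsub : {t : Fin D → Af E ⊕ ι | (∀ i, t i ∈ A) ∧ ((∃ i, t i ∈ J) ∨ Vx g τ t)} ⊆
        {t : Fin D → Af E ⊕ ι | (∀ i, t i ∈ A) ∧ ∃ i, t i ∈ J'} ∪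
          (fun t' : Fin D → ι => fun i => (Sum.inr (t' i) : Af E ⊕ ι)) ''
            {x | x ∈ {t : Fin D → ι | (∀ i, t i ∈ F) ∧ Vx φ τ t} ∧ ∀ i, x i ∈ R} := by
      rintro u ⟨hu, hv⟩
      by_cases hc : ∃ i, u i ∈ J'
      · exact Or.inl ⟨hu, hc⟩
      · right
        have hex : ∀ i, ∃ j, u i = Sum.inr j := by
          intro i
          rcases hui : u i with j | j
          · refine (hc ⟨i, ?_⟩).elim
            have := hu i
            rw [hui] at this ⊢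
            exact Finset.inl_mem_disjSum.2 (Finset.inl_mem_disjSum.1 this)
          · exact ⟨j, rfl⟩
        choose t' ht' using hex
        obtain rfl : u = fun i => Sum.inr (t' i) := funext ht'
        have hm : ∀ i, t' i ∈ R ∧ t' i ∈ F := fun i =>
          Finset.mem_filter.1 (Finset.inr_mem_disjSum.1 (hu i))
        refine ⟨t', ⟨⟨fun i => (hm i).2, ?_⟩, fun i => (hm i).1⟩, rfl⟩
        rcases hv with ⟨i, hi⟩ | hv
        · simp [J] at hi
        · exact hv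
    have hfin : {t : Fin D → Af E ⊕ ι | (∀ i, t i ∈ A) ∧ ∃ i, t i ∈ J'}.Finite :=
      (ncard_tuples D (A : Set (Af E ⊕ ι)) A.finite_toSet).1.subset fun _ h => h.1
    refine (Set.ncard_le_ncard hsub (hfin.union (Set.toFinite _))).trans
      ((Set.ncard_union_le _ _).trans (Nat.add_le_add ((ncard_hit D A J').trans ?_)
        (Set.ncard_image_le (Set.toFinite _))))
    have c1 : (G0 ∪ W).card ≤ w0 + W.card :=
      (Finset.card_union_le _ _).trans (Nat.add_le_add_right hG0c _)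
    have c2 : J'.card ≤ w0 + W.card := by simpa [J'] using c1
    have c3 : A.card ≤ w0 + W.card + k := by
      rw [Finset.card_disjSum]
      exact Nat.add_le_add c1 ((Finset.card_filter_le _ _).trans hRk)
    exact Nat.mul_le_mul (Nat.mul_le_mul_left _ c2) (Nat.pow_le_pow_left c3 _)

end Pool.Agent.MP_a2955b_co.Up

end
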