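import Pool.Agent.Mg.F41f2d3.G70d04e
import Pool.Agent.Mg.F41f2d3.G3e8909

section

/-! Graphs containing four triangles along a complete bipartite graph. -/

namespace Pool.Agent.MP_41f2d3_co

open Finset Classical

noncomputable section

variable {V : Type} {G : SimpleGraph V} {C D A B : V → Prop}

/-- four independent classes -/
structure Four (G : SimpleGraph V) (C D A B : V → Prop) : Prop where
  t : Tri3 G D A B
  iC : ∀ {x y}, C x → C y → ¬ G.Adj x y
  nCA : ∀ {x}, C x → ¬ A x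
  nCB : ∀ {x}, C x → ¬ B x
  cd : ∀ {x y}, C x → D y → G.Adj x y
  a1 : ∀ {x y z}, C x → A y → A z → G.Adj x y → G.Adj x z → y = z
  a2 : ∀ {x y z}, C x → C y → A z → G.Adj x z → G.Adj y z → x = y
  b1 : ∀ {x y z}, C x → B y → B z → G.Adj x y → G.Adj x z → y = z
  b2 : ∀ {x y z}, C x → C y → B z → G.Adj x z → G.Adj y z → x = y
  ra : ∀ {x y z}, C x → A y → B z → G.Adj x y → ¬ G.Adj x z → G.Adj y z
  rb : ∀ {x y z}, C x → B y → A z → G.Adj x y → ¬ G.Adj x z → G.Adj y z

lemma Four.sw (h : Four G C D A B) : Four G C D B A :=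
  ⟨h.t.sw, h.iC, h.nCB, h.nCA, h.cd, h.b1, h.b2, h.a1, h.a2, h.rb, h.ra⟩

lemma Four.mono (h : Four G C D A B) {D' : V → Prop} (hD : ∀ v, D' v → D v) :
    Four G C D' A B :=
  ⟨h.t.mono hD (fun _ h => h) (fun _ h => h), h.iC, h.nCA, h.nCB, fun h1 h2 => h.cd h1 (hD _ h2),
    h.a1, h.a2, h.b1, h.b2, h.ra, h.rb⟩

/-- `A` together with vertices of `C` without neighbours in `A` -/
def Ex (G : SimpleGraph V) (C A : V → Prop) (R : V → Prop) (v : V) : Prop :=
  A v ∨ (C v ∧ R v ∧ ∀ a, A a → ¬ G.Adj v a)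

lemma Four.ex_ind (h : Four G C D A B) {R : V → Prop} {x y : V} (hx : Ex G C A R x)
    (hy : Ex G C A R y) : ¬ G.Adj x y := by
  rcases hx with hx | hx <;> rcases hy with hy | hy
  · exact h.t.iA hx hy
  · exact ns (hy.2.2 x hx)
  · exact hx.2.2 y hy
  · exact h.iC hx.1 hy.1

lemma Four.ex_A (h : Four G C D A B) {R : V → Prop} {x y : V} (hx : Ex G C A R x) (hy : D y)
    (n : ¬ G.Adj x y) : A x :=
  hx.resolve_right (fun c => n (h.cd c.1 hy))

lemma Four.ex_ne (h : Four G C D A B) {R : V → Prop} {x y : V} (hx : D x) (hy : Ex G C A R y) :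
    x ≠ y := by
  rcases hy with hy | hy
  · exact h.t.nDA hx hy
  · exact (h.cd hy.1 hx).ne'

lemma Four.ex_pDA (h : Four G C D A B) (R : V → Prop) : P23 G D (Ex G C A R) :=
  fun _ _ _ _ _ hx hx' hy hy' hy'' e1 e2 e3 n1 n2 n3 ne =>
    h.t.pDA hx hx' (h.ex_A hy hx' (ns n1)) (h.ex_A hy' hx' (ns n2)) (h.ex_A hy'' hx (ns n3))
      e1 e2 e3 n1 n2 n3 ne

lemma Four.ex_pAD (h : Four G C D A B) (R : V → Prop) : P23 G (Ex G C A R) D :=
  fun _ _ _ _ _ hx hx' hy hy' hy'' e1 e2 e3 n1 n2 n3 ne =>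
    h.t.pAD (h.ex_A hx hy'' n3) (h.ex_A hx' hy n1) hy hy' hy'' e1 e2 e3 n1 n2 n3 ne

lemma Four.ex_pAB (h : Four G C D A B) (R R' : V → Prop) :
    P23 G (Ex G C A R) (Ex G C B R') := by
  intro x x' y y' y'' hx hx' hy hy' hy'' e1 e2 e3 n1 n2 n3 ne
  have f : ∀ {u v}, C u → Ex G C B R' v → G.Adj u v → B v :=
    fun hu hv e => hv.resolve_right (fun c => h.iC hu c.1 e)
  rcases hx with hx | hx
  swap
  · exact ne (h.b1 hx.1 (f hx.1 hy e1) (f hx.1 hy' e2) e1 e2)
  rcases hx' with hx' | hx'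
  swap
  · exact n3 (h.rb hx'.1 (f hx'.1 hy'' e3) hx e3 (hx'.2.2 x hx)).symm
  rcases hy'' with hy'' | hy''
  swap
  · rcases hy with hy | hy
    · exact n1 (h.ra hy''.1 hx' hy e3.symm (hy''.2.2 y hy))
    rcases hy' with hy' | hy'
    · exact n2 (h.ra hy''.1 hx' hy' e3.symm (hy''.2.2 y' hy'))
    · exact ne (h.a2 hy.1 hy'.1 hx e1.symm e2.symm)
  rcases hy with hy | hy
  swap
  · exact n3 (h.ra hy.1 hx hy'' e1.symm (hy.2.2 y'' hy''))
  rcases hy' with hy' | hy'
  swap
  · exact n3 (h.ra hy'.1 hx hy'' e2.symm (hy'.2.2 y'' hy''))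
  exact h.t.pAB hx hx' hy hy' hy'' e1 e2 e3 n1 n2 n3 ne

lemma Four.ex_tri (h : Four G C D A B) :
    Tri3 G D (Ex G C A (fun _ => True)) (Ex G C B (fun v => ∃ a, A a ∧ G.Adj v a)) := by
  refine ⟨h.t.iD, h.ex_ind, h.sw.ex_ind, h.ex_ne, ?_, fun hx hy => (h.sw.ex_ne hy hx).symm, ?_,
    h.ex_pDA _, h.ex_pAD _, h.ex_pAB _ _, h.sw.ex_pAB _ _, h.sw.ex_pAD _, h.sw.ex_pDA _⟩
  · rintro x y (hx | hx) (hy | hy)
    · exact h.t.nAB hx hy
    · exact fun e => h.nCA hy.1 (e ▸ hx)
    · exact fun e => h.nCB hx.1 (e ▸ hy)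
    · rintro rfl
      obtain ⟨a, h1, h2⟩ := hy.2.1
      exact hx.2.2 a h1 h2
  · intro x y z hx hy hz n1 n2 n3
    exact h.t.rb hx (h.ex_A hy hx (ns n1)) (h.sw.ex_A hz hx (ns n2)) n1 n2 n3

lemma W_deg2' {S : Finset V} (h : ∀ x ∈ S, ∃ u w, ∀ y ∈ S, G.Adj x y → y = u ∨ y = w) :
    W G (J 1 3) S := by
  refine W_deg2 (fun x hx p hp q hq r hr e1 e2 e3 => ?_)
  obtain ⟨u, w, k⟩ := h x hx
  rcases k p hp e1 with rfl | rfl <;> rcases k q hq e2 with rfl | rfl <;>
    rcases k r hr e3 with rfl | rfl <;> simp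

/-- a vertex of `C` with both partners -/
structure Pt (G : SimpleGraph V) (C A B : V → Prop) (c a b : V) : Prop where
  hc : C c
  ha : A a
  hb : B b
  ca : G.Adj c a
  cb : G.Adj c b

lemma Pt.sw {c a b : V} (p : Pt G C A B c a b) : Pt G C B A c b a :=
  ⟨p.hc, p.hb, p.ha, p.cb, p.ca⟩

lemma Four.oneD (hD : DF G) (h : Four G C D A B) {c a d d' : V} (hc : C c) (ca : G.Adj c a)
    (hd : D d) (hd' : D d') (e : G.Adj a d) (e' : G.Adj a d') : d = d' := by
  by_contra n
  exact h.t.iD hd hd' (hD c a d d' ca (h.cd hc hd) (h.cd hc hd') e e' n)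

lemma Four.dq (hD : DF G) (h : Four G C D A B) {c a b d : V} (p : Pt G C A B c a b)
    (ab : G.Adj a b) (hd : D d) (e : G.Adj d a) : G.Adj d b :=
  (hD c a b d p.ca p.cb (h.cd p.hc hd) ab e.symm (h.t.nBD p.hb hd)).symm

lemma Four.dq2 (hD : DF G) (h : Four G C D A B) {c a b d z : V} (p : Pt G C A B c a b)
    (ab : G.Adj a b) (da : G.Adj d a) (db : G.Adj d b) (hz : A z) (e : G.Adj d z) : z = a := by
  by_contra n
  have cz : ¬ G.Adj c z := fun k => n (h.a1 p.hc hz p.ha k p.ca)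
  exact h.t.iA hz p.ha (hD d b z a db e da (h.rb p.hc p.hb hz p.cb cz) ab.symm n)

/-- the special part -/
def QQ (G : SimpleGraph V) (C D A B : V → Prop) (v : V) : Prop :=
  ∃ c a b, Pt G C A B c a b ∧ (v = c ∨ v = a ∨ v = b ∨ (D v ∧ G.Adj v a ∧ G.Adj v b))

lemma QQ.sw {v : V} (q : QQ G C D A B v) : QQ G C D B A v := by
  obtain ⟨c, a, b, p, q⟩ := q
  refine ⟨c, b, a, p.sw, ?_⟩
  rcases q with q | q | q | q
  · exact Or.inl q
  · exact Or.inr (Or.inr (Or.inl q))
  · exact Or.inr (Or.inl q)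
  · exact Or.inr (Or.inr (Or.inr ⟨q.1, q.2.2, q.2.1⟩))

lemma Four.unifA (hD : DF G) (h : Four G C D A B)
    (H : ∀ c a b d, Pt G C A B c a b → D d → G.Adj a b) {c a b z : V} (p : Pt G C A B c a b)
    (hz : C z ∨ D z ∨ A z ∨ B z) (n : ¬ QQ G C D A B z) : G.Adj a z ↔ B z := by
  rcases hz with hz | hz | hz | hz
  · exact iff_of_false (fun e => n ⟨c, a, b, p, Or.inl (h.a2 hz p.hc p.ha e.symm p.ca)⟩)
      (h.nCB hz)
  · exact iff_of_false (fun e => n ⟨c, a, b, p, Or.inr (Or.inr (Or.inr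
      ⟨hz, e.symm, h.dq hD p (H c a b z p hz) hz e.symm⟩))⟩) (fun k => h.t.nBD k hz rfl)
  · exact iff_of_false (h.t.iA p.ha hz) (fun k => h.t.nAB hz k rfl)
  · exact iff_of_true (h.ra p.hc p.ha hz p.ca (fun e => n ⟨c, a, b, p,
      Or.inr (Or.inr (Or.inl (h.b1 p.hc hz p.hb e p.cb)))⟩)) hz

lemma Four.slotA (hD : DF G) (h : Four G C D A B)
    (H : ∀ c a b d, Pt G C A B c a b → D d → G.Adj a b) {c a b : V} (p : Pt G C A B c a b) :
    ∃ w, ∀ y, (C y ∧ G.Adj a y) ∨ (D y ∧ G.Adj a y) ∨ (B y ∧ ¬ G.Adj a y) → y = c ∨ y = w := by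
  by_cases hd : ∃ d, D d ∧ G.Adj a d
  · obtain ⟨d, hd, ad⟩ := hd
    refine ⟨d, ?_⟩
    rintro y (hy | hy | hy)
    · exact Or.inl (h.a2 hy.1 p.hc p.ha hy.2.symm p.ca)
    · exact Or.inr (h.oneD hD p.hc p.ca hy.1 hd hy.2 ad)
    · by_cases cy : G.Adj c y
      · exact absurd (H c a y d ⟨p.hc, p.ha, hy.1, p.ca, cy⟩ hd) hy.2
      · exact absurd (h.ra p.hc p.ha hy.1 p.ca cy) hy.2
  · refine ⟨b, ?_⟩
    rintro y (hy | hy | hy)
    · exact Or.inl (h.a2 hy.1 p.hc p.ha hy.2.symm p.ca)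
    · exact absurd ⟨y, hy⟩ hd
    · by_cases cy : G.Adj c y
      · exact Or.inr (h.b1 p.hc hy.1 p.hb cy p.cb)
      · exact absurd (h.ra p.hc p.ha hy.1 p.ca cy) hy.2

/-- bound -/
def cF0 : ℕ := J 16 (cC + 16 * (J 1 3 + 1))

lemma W_four0 (hD : DF G) (hR : RF G) (h : Four G C D A B)
    (H : ∀ c a b d, Pt G C A B c a b → D d → G.Adj a b) {S : Finset V}
    (hS : ∀ v ∈ S, C v ∨ D v ∨ A v ∨ B v) : W G cF0 S := by
  have H' : ∀ c b a d, Pt G C B A c b a → D d → G.Adj b a :=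
    fun c b a d p hd => (H c a b d p.sw hd).symm
  obtain ⟨Q, hQ⟩ : ∃ Q : Finset V, ∀ v, v ∈ Q ↔ v ∈ S ∧ QQ G C D A B v :=
    ⟨S.filter _, fun v => mem_filter⟩
  have nCD : ∀ {v}, C v → ¬ D v := fun c d => (h.cd c d).ne rfl
  have nDC : ∀ {v}, D v → ¬ C v := fun d c => (h.cd c d).ne rfl
  have nDA : ∀ {v}, D v → ¬ A v := fun c c' => h.t.nDA c c' rfl
  have nDB : ∀ {v}, D v → ¬ B v := fun c c' => h.t.nBD c' c rfl
  have nAD : ∀ {v}, A v → ¬ D v := fun c c' => h.t.nDA c' c rfl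
  have nAB : ∀ {v}, A v → ¬ B v := fun c c' => h.t.nAB c c' rfl
  have nBD : ∀ {v}, B v → ¬ D v := fun c c' => h.t.nBD c c' rfl
  have nBA : ∀ {v}, B v → ¬ A v := fun c c' => h.t.nAB c' c rfl
  have nAC : ∀ {v}, A v → ¬ C v := fun c c' => h.nCA c' c
  have nBC : ∀ {v}, B v → ¬ C v := fun c c' => h.nCB c' c
  refine W_join (A := Q) (fun v hv => ((hQ v).1 hv).1) ?_ ?_ ?_
  · have key : ∀ x, QQ G C D A B x → ∀ z ∈ S, z ∉ Q →
        (G.Adj x z ↔ (C x ∧ D z) ∨ (D x ∧ C z) ∨ (A x ∧ B z) ∨ (B x ∧ A z)) := by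
      rintro x ⟨c, a, b, p, q⟩ z hz zQ
      have n : ¬ QQ G C D A B z := fun k => zQ ((hQ z).2 ⟨hz, k⟩)
      have cz := hS z hz
      rcases q with rfl | rfl | rfl | q
      · have hx := p.hc
        simp only [hx, nCD hx, h.nCA hx, h.nCB hx, true_and, false_and, or_false]
        rcases cz with cz | cz | cz | cz
        · exact iff_of_false (h.iC hx cz) (nCD cz)
        · exact iff_of_true (h.cd hx cz) cz
        · exact iff_of_false (fun e => n ⟨x, a, b, p, Or.inr (Or.inl (h.a1 hx cz p.ha e p.ca))⟩)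
            (nAD cz)
        · exact iff_of_false
            (fun e => n ⟨x, a, b, p, Or.inr (Or.inr (Or.inl (h.b1 hx cz p.hb e p.cb)))⟩) (nBD cz)
      · have hx := p.ha
        simp only [hx, nAC hx, nAD hx, nAB hx, true_and, false_and, or_false, false_or]
        exact h.unifA hD H p cz n
      · have hx := p.hb
        simp only [hx, nBC hx, nBD hx, nBA hx, true_and, false_and, false_or]
        refine h.sw.unifA hD H' p.sw ?_ (fun k => n k.sw)
        rcases cz with cz | cz | cz | cz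
        exacts [Or.inl cz, Or.inr (Or.inl cz), Or.inr (Or.inr (Or.inr cz)),
          Or.inr (Or.inr (Or.inl cz))]
      · have hx := q.1
        have ab := H c a b x p hx
        simp only [hx, nDC hx, nDA hx, nDB hx, true_and, false_and, or_false, false_or]
        rcases cz with cz | cz | cz | cz
        · exact iff_of_true (h.cd cz hx).symm cz
        · exact iff_of_false (h.t.iD hx cz) (nDC cz)
        · exact iff_of_false (fun e => n ⟨c, a, b, p,
            Or.inr (Or.inl (h.dq2 hD p ab q.2.1 q.2.2 cz e))⟩) (nAC cz)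
        · exact iff_of_false (fun e => n ⟨c, a, b, p,
            Or.inr (Or.inr (Or.inl (h.sw.dq2 hD p.sw ab.symm q.2.2 q.2.1 cz e)))⟩) (nBC cz)
    refine Ty_of_labels (fun v => (C v, D v, A v, B v)) univ (by simp)
      (fun _ _ => Or.inr (mem_univ _)) ?_
    intro x hx y hy e z hz zQ
    simp only [Prod.mk.injEq, eq_iff_iff] at e
    rw [key x ((hQ x).1 hx).2 z hz zQ, key y ((hQ y).1 hy).2 z hz zQ, e.1, e.2.1, e.2.2.1,
      e.2.2.2]
  · let lab : V → Prop × Prop × Prop × Prop := fun v => (C v, D v, A v, B v)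
    let φ : Prop × Prop × Prop × Prop → Prop × Prop × Prop × Prop → Prop :=
      fun p q => (p.1 ∧ q.2.1) ∨ (p.2.2.1 ∧ q.2.2.2)
    have := W_flip (G := G) lab φ (k := J 1 3) (S := Q) (W_deg2' ?_)
    · refine this.mono ?_
      have : Fintype.card (Prop × Prop × Prop × Prop) = 16 := by simp
      rw [this]
      exact Nat.le_add_left _ _
    intro x hx
    obtain ⟨c, a, b, p, q⟩ := ((hQ x).1 hx).2
    rcases q with rfl | rfl | rfl | q
    · refine ⟨a, b, fun y hy e => ?_⟩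
      have hx := p.hc
      have e2 := e.2
      simp only [lab, φ, hx, nCD hx, h.nCA hx, h.nCB hx, true_and, false_and, and_false,
        or_false] at e2
      rcases hS y ((hQ y).1 hy).1 with cy | cy | cy | cy
      · exact absurd (e2.2 (nCD cy)) (h.iC hx cy)
      · exact absurd cy (e2.1 (h.cd hx cy))
      · exact Or.inl (h.a1 hx cy p.ha (e2.2 (nAD cy)) p.ca)
      · exact Or.inr (h.b1 hx cy p.hb (e2.2 (nBD cy)) p.cb)
    · obtain ⟨w, hw⟩ := h.slotA hD H p
      refine ⟨c, w, fun y hy e => hw y ?_⟩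
      have hx := p.ha
      have e2 := e.2
      simp only [lab, φ, hx, nAC hx, nAD hx, nAB hx, true_and, false_and, and_false,
        or_false, false_or] at e2
      rcases hS y ((hQ y).1 hy).1 with cy | cy | cy | cy
      · exact Or.inl ⟨cy, e2.2 (h.nCB cy)⟩
      · exact Or.inr (Or.inl ⟨cy, e2.2 (nDB cy)⟩)
      · exact absurd (e2.2 (nAB cy)) (h.t.iA hx cy)
      · exact Or.inr (Or.inr ⟨cy, fun k => e2.1 k cy⟩)
    · obtain ⟨w, hw⟩ := h.sw.slotA hD H' p.sw
      refine ⟨c, w, fun y hy e => hw y ?_⟩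
      have hx := p.hb
      have e2 := e.2
      simp only [lab, φ, hx, nBC hx, nBD hx, nBA hx, and_true, false_and, and_false,
        false_or] at e2
      rcases hS y ((hQ y).1 hy).1 with cy | cy | cy | cy
      · exact Or.inl ⟨cy, e2.2 (h.nCA cy)⟩
      · exact Or.inr (Or.inl ⟨cy, e2.2 (nDA cy)⟩)
      · exact Or.inr (Or.inr ⟨cy, fun k => e2.1 k cy⟩)
      · exact absurd (e2.2 (nBA cy)) (h.t.iB hx cy)
    · refine ⟨a, b, fun y hy e => ?_⟩
      have hx := q.1
      have ab := H c a b x p hx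
      have e2 := e.2
      simp only [lab, φ, hx, nDC hx, nDA hx, nDB hx, and_true, false_and, and_false,
        or_false, false_or] at e2
      rcases hS y ((hQ y).1 hy).1 with cy | cy | cy | cy
      · exact absurd cy (e2.1 (h.cd cy hx).symm)
      · exact absurd (e2.2 (nDC cy)) (h.t.iD hx cy)
      · exact Or.inl (h.dq2 hD p ab q.2.1 q.2.2 cy (e2.2 (nAC cy)))
      · exact Or.inr (h.sw.dq2 hD p.sw ab.symm q.2.2 q.2.1 cy (e2.2 (nBC cy)))
  · refine (W_core' hD hR h.ex_tri ?_).mono (Nat.le_add_right _ _)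
    intro v hv
    obtain ⟨hv, n⟩ := mem_sdiff.1 hv
    rcases hS v hv with cv | cv | cv | cv
    · by_cases e1 : ∃ a, A a ∧ G.Adj v a
      · refine Or.inr (Or.inr (Or.inr ⟨cv, e1, fun b hb vb => ?_⟩))
        obtain ⟨a, ha, va⟩ := e1
        exact n ((hQ v).2 ⟨hv, v, a, b, ⟨cv, ha, hb, va, vb⟩, Or.inl rfl⟩)
      · exact Or.inr (Or.inl (Or.inr ⟨cv, trivial, fun a ha va => e1 ⟨a, ha, va⟩⟩))
    · exact Or.inl cv
    · exact Or.inr (Or.inl (Or.inl cv))
    · exact Or.inr (Or.inr (Or.inl cv))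

lemma le_J (t k m : ℕ) : k ≤ J t (k + m) := by
  unfold J
  have : 1 ≤ 2 ^ t := Nat.one_le_two_pow
  nlinarith

lemma W_four (hD : DF G) (hR : RF G) (h : Four G C D A B) {S : Finset V}
    (hS : ∀ v ∈ S, C v ∨ D v ∨ A v ∨ B v) : W G (J 2 (cF0 + 2)) S := by
  by_cases H : ∀ c a b d, Pt G C A B c a b → D d → G.Adj a b
  · exact (W_four0 hD hR h H hS).mono (le_J _ _ _)
  push Not at H
  obtain ⟨c, a, b, _, p, _, ab⟩ := H
  refine W_del (F := S.filter D) ?_ (W_four0 hD hR (h.mono (D' := fun _ => False)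
    (fun _ k => k.elim)) (fun _ _ _ _ _ k => k.elim) ?_)
  · rcases three_or_le (S.filter D) with k | ⟨x, hx, y, hy, z, hz, n1, n2, n3⟩
    · exact k
    exfalso
    have dx := (mem_filter.1 hx).2
    have dy := (mem_filter.1 hy).2
    have dz := (mem_filter.1 hz).2
    have key : ∀ d, D d → G.Adj a d ∨ G.Adj b d := by
      intro d hd
      by_contra hh
      rw [not_or] at hh
      exact h.t.rb hd p.ha p.hb (ns hh.1) (ns hh.2) ab
    have oa := fun {d d'} => h.oneD (d := d) (d' := d') hD p.hc p.ca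
    have ob := fun {d d'} => h.oneD (d := d) (d' := d') hD p.hc p.cb
    rcases key x dx with e1 | e1 <;> rcases key y dy with e2 | e2 <;> rcases key z dz with e3 | e3
    exacts [n1 (oa dx dy e1 e2), n1 (oa dx dy e1 e2), n2 (oa dx dz e1 e3), n3 (ob dy dz e2 e3),
      n3 (oa dy dz e2 e3), n2 (ob dx dz e1 e3), n1 (ob dx dy e1 e2), n1 (ob dx dy e1 e2)]
  · intro v hv
    obtain ⟨hv, n⟩ := mem_sdiff.1 hv
    rcases hS v hv with cv | cv | cv | cv
    · exact Or.inl cv
    · exact absurd (mem_filter.2 ⟨hv, cv⟩) n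
    · exact Or.inr (Or.inr (Or.inl cv))
    · exact Or.inr (Or.inr (Or.inr cv))

variable {a b c : Fin 4 → V}

lemma AB4.sw (h : AB4 G a b c) : AB4 G b a c :=
  ⟨fun i j => (h.ab j i).symm, h.bc, h.ac, h.bb, h.aa, h.cc⟩

lemma KC.sw {v : V} (h : KC G a b c v) : KC G b a c v :=
  fun i => ⟨(h i).2.1, (h i).1, (h i).2.2⟩

lemma KD.sw {v : V} (h : KD G a b c v) : KD G b a c v :=
  fun i => ⟨(h i).2.1, (h i).1, (h i).2.2⟩

lemma AB4.four (hD : DF G) (hR : RF G) (h : AB4 G a b c) :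
    Four G (KC G a b c) (KD G a b c) (KA G a b c) (KA G b a c) := by
  have iD : ∀ {x y}, KD G a b c x → KD G a b c y → ¬ G.Adj x y :=
    fun h1 h2 => ab_iD hD hR h h1 h2
  have iA : ∀ {x y}, KA G a b c x → KA G a b c y → ¬ G.Adj x y :=
    fun h1 h2 => ab_iA hD hR h h1 h2
  have iB : ∀ {x y}, KA G b a c x → KA G b a c y → ¬ G.Adj x y :=
    fun h1 h2 => ab_iA hD hR h.sw h1 h2
  refine ⟨⟨iD, iA, iB, fun h1 h2 e => (h2 0).2.2 (e ▸ (h1 0).2.2),
    fun h1 h2 e => (h2 0).1 (e ▸ (h1 0).2.1), fun h1 h2 e => (h1 0).2.2 (e ▸ (h2 0).2.2),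
    fun h1 h2 h3 => ab_rb hD hR h h1 h2 h3,
    P23_of_P1 hR (a 0) iD iA (fun k => (k 0).1) (fun k => (k 0).1),
    P23_of_P1 hR (a 0) iA iD (fun k => (k 0).1) (fun k => (k 0).1),
    P23_of_P1 hR (c 0) iA iB (fun k => (k 0).2.2) (fun k => (k 0).2.2),
    P23_of_P1 hR (c 0) iB iA (fun k => (k 0).2.2) (fun k => (k 0).2.2),
    P23_of_P1 hR (b 0) iB iD (fun k => (k 0).1) (fun k => (k 0).2.1),
    P23_of_P1 hR (b 0) iD iB (fun k => (k 0).2.1) (fun k => (k 0).1)⟩,
    fun h1 h2 => ab_iC hD hR h h1 h2, fun h1 h2 => (h1 0).2.1 (h2 0).2.1,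
    fun h1 h2 => (h1 0).1 (h2 0).2.1,
    fun h1 h2 => Classical.byContradiction (ab_cd hD hR h h1 h2),
    fun h1 h2 h3 e1 e2 => Classical.byContradiction (ab_a1 hD hR h h1 h2 h3 e1 e2),
    fun h1 h2 h3 e1 e2 => Classical.byContradiction (ab_a2 hD hR h h1 h2 h3 e1 e2),
    fun h1 h2 h3 e1 e2 => Classical.byContradiction (ab_a1 hD hR h.sw h1.sw h2 h3 e1 e2),
    fun h1 h2 h3 e1 e2 => Classical.byContradiction (ab_a2 hD hR h.sw h1.sw h2.sw h3 e1 e2),
    fun h1 h2 h3 e1 e2 => Classical.byContradiction (ab_ra hD hR h h1 h2 h3 e1 e2),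
    fun h1 h2 h3 e1 e2 => Classical.byContradiction (ab_ra hD hR h.sw h1.sw h2 h3 e1 e2)⟩

theorem W_ABR : ∃ k, ∀ (V : Type) (G : SimpleGraph V) (a b c : Fin 4 → V) (S : Finset V),
    DF G → RF G → AB4 G a b c → W G k S := by
  refine ⟨J 12 (J 4 (J 2 (cF0 + 2) + 4) + 12), fun V G a b c S hD hR h => ?_⟩
  let F : Finset V := univ.image a ∪ (univ.image b ∪ univ.image c)
  have hF : F.card ≤ 12 := by
    have h1 : (univ.image a).card ≤ 4 := card_image_le.trans (by simp)
    have h2 : (univ.image b).card ≤ 4 := card_image_le.trans (by simp)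
    have h3 : (univ.image c).card ≤ 4 := card_image_le.trans (by simp)
    have h4 := card_union_le (univ.image b) (univ.image c)
    have h5 := card_union_le (univ.image a) (univ.image b ∪ univ.image c)
    simp only [F]
    omega
  refine W_del hF ?_
  have hoff : ∀ x ∈ S \ F, Off a b c x := by
    intro x hx i
    have := (mem_sdiff.1 hx).2
    simp only [F, mem_union, mem_image, mem_univ, true_and, not_or, not_exists] at this
    exact ⟨fun e => this.1 i e.symm, fun e => this.2.1 i e.symm, fun e => this.2.2 i e.symm⟩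
  generalize S \ F = S' at hoff
  let f : Fin 4 → Finset V := fun i => S'.filter (fun v => G.Adj v (a i) ∧ G.Adj v (b i))
  refine W_del (F := univ.biUnion f) ?_ (W_four hD hR (h.four hD hR) ?_)
  · refine (card_biUnion_le_card_mul univ f 1 (fun i _ => ?_)).trans (by simp)
    rw [card_le_one]
    intro u hu v hv
    obtain ⟨hu', u1, u2⟩ := mem_filter.1 hu
    obtain ⟨hv', v1, v2⟩ := mem_filter.1 hv
    by_contra n
    fin_cases i
    · exact ab_small0 hD hR h (hoff u hu') (hoff v hv') u1 u2 v1 v2 n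
    · exact ab_small1 hD hR h (hoff u hu') (hoff v hv') u1 u2 v1 v2 n
    · exact ab_small2 hD hR h (hoff u hu') (hoff v hv') u1 u2 v1 v2 n
    · exact ab_small3 hD hR h (hoff u hu') (hoff v hv') u1 u2 v1 v2 n
  · intro v hv
    obtain ⟨hv, n⟩ := mem_sdiff.1 hv
    by_contra hh
    simp only [not_or] at hh
    exact ab_cls hD hR h (hoff v hv) hh.2.2.1 hh.2.2.2 hh.1 hh.2.1
      (fun i e1 e2 => n (mem_biUnion.2 ⟨i, mem_univ _, mem_filter.2 ⟨hv, e1, e2⟩⟩))

end

end Pool.Agent.MP_41f2d3_co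

end

section

/-! Bounded clique number, for the pair (diamond, P1 + P2 + P3). -/

namespace Pool.Agent.MP_41f2d3_co

open Finset Classical

noncomputable section

variable {V : Type}

lemma three_cliquesR {G : SimpleGraph V} (hR : RF G) {S K1 K2 K3 : Finset V}
    (h1 : MC G S K1) (h2 : MC G S K2) (h3 : MC G S K3) (c1 : 3 ≤ K1.card) (c2 : 3 ≤ K2.card)
    (c3 : 3 ≤ K3.card) (a12 : ∀ x ∈ K1, ∀ y ∈ K2, ¬ G.Adj x y)
    (a13 : ∀ x ∈ K1, ∀ y ∈ K3, ¬ G.Adj x y) (a23 : ∀ x ∈ K2, ∀ y ∈ K3, ¬ G.Adj x y)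
    (hc : Conn G S) : False := by
  have hsub : S ⊆ K1 := by
    refine hc K1 h1.sub (card_pos.1 (by omega)) (fun x hx v hv xv => ?_)
    by_contra v1
    have v2 : v ∉ K2 := fun h => a12 x hx v h xv
    have v3 : v ∉ K3 := fun h => a13 x hx v h xv
    obtain ⟨x', hx', p1⟩ := h1.avoid {x, v} (by
      intro z hz; simp only [mem_insert, mem_singleton] at hz
      rcases hz with rfl | rfl; exacts [h1.sub hx, hv]) (lt_of_le_of_lt card_le_two c1)
    obtain ⟨y, hy, p2⟩ := h2.avoid {v} (by simpa using hv) (by simp; omega)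
    obtain ⟨y', hy', p3⟩ := h2.avoid {y, v} (by
      intro z hz; simp only [mem_insert, mem_singleton] at hz
      rcases hz with rfl | rfl; exacts [h2.sub hy, hv]) (lt_of_le_of_lt card_le_two c2)
    obtain ⟨z, hz, p4⟩ := h3.avoid {v} (by simpa using hv) (by simp; omega)
    exact hR z y y' v x x' (h2.cl _ hy _ hy' ((p3 y (by simp)).1 hy).symm) xv.symm
      (h1.cl _ hx _ hx' ((p1 x (by simp)).1 hx).symm) ((p1 v (by simp)).2 v1)
      (ns (a23 _ hy _ hz)) (ns (a23 _ hy' _ hz)) (ns ((p4 v (by simp)).2 v3))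
      (ns (a13 _ hx _ hz)) (ns (a13 _ hx' _ hz)) (ns ((p2 v (by simp)).2 v2))
      (ns (a12 _ hx _ hy)) (ns (a12 _ hx' _ hy)) (ns ((p3 v (by simp)).2 v2))
      (ns (a12 _ hx _ hy')) (ns (a12 _ hx' _ hy')) (fun e => v1 (e ▸ hx'))
  obtain ⟨y, hy, y', hy', hne⟩ := one_lt_card.1 (by omega : 1 < K2.card)
  exact a12 y (hsub (h2.sub hy)) y' hy' (h2.cl _ hy _ hy' hne)

lemma exclR {G : SimpleGraph V} (hR : RF G) (a b c : Fin 6 → V) (pba pbc pca : Prop)
    (t1 : ∀ i, G.Adj (a i) (b i)) (t2 : ∀ i, G.Adj (b i) (c i)) (t3 : ∀ i, G.Adj (c i) (a i))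
    (aa : ∀ i j, ¬ G.Adj (a i) (a j)) (bb : ∀ i j, ¬ G.Adj (b i) (b j))
    (cc : ∀ i j, ¬ G.Adj (c i) (c j))
    (ab : ∀ i j, i < j → G.Adj (a i) (b j)) (ac : ∀ i j, i < j → ¬ G.Adj (a i) (c j))
    (cb : ∀ i j, i < j → ¬ G.Adj (c i) (b j))
    (ba : ∀ i j, i < j → (G.Adj (b i) (a j) ↔ pba))
    (bc : ∀ i j, i < j → (G.Adj (b i) (c j) ↔ pbc))
    (ca : ∀ i j, i < j → (G.Adj (c i) (a j) ↔ pca))
    (i1 : pba → ¬ pbc) (i2 : pba → ¬ pca) :
    TC6 G a b c ∨ AB4 G (fun i => a i.castSucc.castSucc) (fun i => b i.castSucc.castSucc)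
      (fun i => c i.castSucc.castSucc) := by
  by_cases h3 : pba
  · right
    have m : ∀ i j : Fin 4, i < j → i.castSucc.castSucc < j.castSucc.castSucc := fun _ _ h => h
    refine ⟨?_, ?_, ?_, fun _ _ => aa _ _, fun _ _ => bb _ _, fun _ _ => cc _ _⟩
    · intro i j
      rcases lt_trichotomy i j with h | rfl | h
      · exact ab _ _ (m i j h)
      · exact t1 _
      · exact ((ba _ _ (m j i h)).2 h3).symm
    · intro i j
      rcases lt_trichotomy i j with h | rfl | h
      · exact iff_of_false (ac _ _ (m i j h)) h.ne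
      · exact iff_of_true (t3 _).symm rfl
      · exact iff_of_false (fun e => i2 h3 ((ca _ _ (m j i h)).1 e.symm)) h.ne'
    · intro i j
      rcases lt_trichotomy i j with h | rfl | h
      · exact iff_of_false (fun e => i1 h3 ((bc _ _ (m i j h)).1 e)) h.ne
      · exact iff_of_true (t2 _) rfl
      · exact iff_of_false (ns (cb _ _ (m j i h))) h.ne'
  have ba' : ∀ i j, i < j → ¬ G.Adj (b i) (a j) := fun i j h e => h3 ((ba i j h).1 e)
  by_cases h1 : pbc <;> by_cases h2 : pca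
  · left
    refine ⟨?_, ?_, ?_, aa, bb, cc⟩
    · intro i j
      rcases lt_trichotomy i j with h | rfl | h
      · exact ⟨fun _ => h.le, fun _ => ab i j h⟩
      · exact ⟨fun _ => le_rfl, fun _ => t1 i⟩
      · exact ⟨fun e => absurd ((ba j i h).1 e.symm) h3, fun e => absurd e (not_le.2 h)⟩
    · intro i j
      rcases lt_trichotomy i j with h | rfl | h
      · exact ⟨fun _ => h.le, fun _ => (bc i j h).2 h1⟩
      · exact ⟨fun _ => le_rfl, fun _ => t2 i⟩
      · exact ⟨fun e => absurd e.symm (cb j i h), fun e => absurd e (not_le.2 h)⟩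
    · intro i j
      rcases lt_trichotomy i j with h | rfl | h
      · exact ⟨fun _ => h.le, fun _ => (ca i j h).2 h2⟩
      · exact ⟨fun _ => le_rfl, fun _ => t3 i⟩
      · exact ⟨fun e => absurd e.symm (ac j i h), fun e => absurd e (not_le.2 h)⟩
  · exfalso
    have ca' : ∀ i j, i < j → ¬ G.Adj (c i) (a j) := fun i j h e => h2 ((ca i j h).1 e)
    exact hR (c 0) (b 1) (c 1) (a 2) (b 3) (a 3) (t2 1) (ab 2 3 (by decide)) (t1 3).symm (aa 2 3)
      (cb 0 1 (by decide)) (cc 0 1) (ca' 0 2 (by decide)) (cb 0 3 (by decide))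
      (ca' 0 3 (by decide)) (ba' 1 2 (by decide)) (bb 1 3) (ba' 1 3 (by decide))
      (ca' 1 2 (by decide)) (cb 1 3 (by decide)) (ca' 1 3 (by decide))
      (fun e => eqa e (t1 2) (ns (ba' 2 3 (by decide))))
  · exfalso
    have bc' : ∀ i j, i < j → ¬ G.Adj (b i) (c j) := fun i j h e => h1 ((bc i j h).1 e)
    have ca' : ∀ i j, i < j → G.Adj (c i) (a j) := fun i j h => (ca i j h).2 h2
    exact hR (b 0) (a 1) (b 1) (a 2) (c 2) (a 3) (t1 1) (t3 2).symm (ca' 2 3 (by decide)) (aa 2 3)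
      (ba' 0 1 (by decide)) (bb 0 1) (ba' 0 2 (by decide)) (bc' 0 2 (by decide))
      (ba' 0 3 (by decide)) (aa 1 2) (ac 1 2 (by decide)) (aa 1 3) (ba' 1 2 (by decide))
      (bc' 1 2 (by decide)) (ba' 1 3 (by decide))
      (fun e => eqa e (t1 2) (ns (ba' 2 3 (by decide))))
  · exfalso
    have bc' : ∀ i j, i < j → ¬ G.Adj (b i) (c j) := fun i j h e => h1 ((bc i j h).1 e)
    have ca' : ∀ i j, i < j → ¬ G.Adj (c i) (a j) := fun i j h e => h2 ((ca i j h).1 e)
    exact hR (b 0) (b 1) (c 1) (a 2) (b 3) (a 3) (t2 1) (ab 2 3 (by decide)) (t1 3).symm (aa 2 3)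
      (bb 0 1) (bc' 0 1 (by decide)) (ba' 0 2 (by decide)) (bb 0 3) (ba' 0 3 (by decide))
      (ba' 1 2 (by decide)) (bb 1 3) (ba' 1 3 (by decide)) (ca' 1 2 (by decide))
      (cb 1 3 (by decide)) (ca' 1 3 (by decide))
      (fun e => eqa e (t1 2) (ns (ba' 2 3 (by decide))))

theorem W_omegaR (s : ℕ) : ∃ k, ∀ (V : Type) (G : SimpleGraph V) (S : Finset V), DF G → RF G →
    NoCl G S (s + 3) → W G k S := by
  induction s with
  | zero =>
    refine ⟨cK, fun V G S _ hP hn => W_K3R hP ?_⟩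
    intro a ha b hb c hc ab ac bc
    refine hn ![a, b, c] ⟨?_, ?_⟩
    · intro x; fin_cases x <;> simpa
    · intro x y
      fin_cases x <;> fin_cases y <;> simp [ab, ac, bc, ab.symm, ac.symm, bc.symm]
  | succ s ih =>
    obtain ⟨k, hk⟩ := ih
    obtain ⟨N, hN⟩ := ramsey (Fin (s + 3) → Fin (s + 3) → Prop) (s + 6)
    obtain ⟨k1, hk1⟩ := W_TCR
    obtain ⟨k2, hk2⟩ := W_ABR
    refine ⟨J ((s + 3) * N) (k + (s + 3) * N) + k1 + k2 + 2, fun V G S0 hD hP hn0 => ?_⟩
    refine W_of_prime (by omega) S0 (fun S hS ⟨v0, _⟩ hc _ _ => ?_)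
    have hn : NoCl G S (s + 3 + 1) := hn0.mono hS
    rcases hit (G := G) (S := S) v0 (s + 3) N with ⟨F, hF, h⟩ | ⟨t, h1, h2⟩
    · exact (W_del hF (hk V G _ hD hP h)).mono (by omega)
    obtain ⟨f, hf, hmono, π, hπ⟩ := hN (fun i j x y => G.Adj (t i x) (t j y))
    let T : Fin (s + 6) → Fin (s + 3) → V := fun i => t (f i)
    have hT : ∀ i, IsCl G S (T i) := fun i => h1 _ (hf i)
    have hne : ∀ i j, i < j → ∀ x y, T i x ≠ T j y :=
      fun i j h => h2 _ (hf i) _ (hf j) (hmono i j h).ne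
    have hadj : ∀ i j, i < j → ∀ x y, (G.Adj (T i x) (T j y) ↔ π x y) := by
      intro i j h x y
      rw [← hπ i j h]
    have hmc := fun i => (hT i).mc hD hn
    have nofix : ∀ x, ¬ π x x := by
      intro x hx
      refine hn (fun i => T (Fin.castLE (by omega) i) x)
        ⟨fun i => (hT _).1 x, fun i j hij => ?_⟩
      rcases lt_or_gt_of_ne hij with h | h
      · exact (hadj _ _ h x x).2 hx
      · exact ((hadj _ _ h x x).2 hx).symm
    have l01 : (0 : Fin (s + 6)) < 1 := by simp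
    have inj1 : ∀ x y y', π x y → π x y' → y = y' := by
      intro x y y' p1 p2
      have := (hmc 1).1.one (T 0 x) ((hT 0).1 x) (fun h => by
        obtain ⟨z, _, e⟩ := mem_image.1 h
        exact hne 0 1 l01 x z e.symm) (T 1 y) (mem_image_of_mem _ (mem_univ _)) (T 1 y')
        (mem_image_of_mem _ (mem_univ _)) ((hadj 0 1 l01 x y).2 p1) ((hadj 0 1 l01 x y').2 p2)
      by_contra hh
      exact ((hT 1).2 y y' hh).ne this
    have inj2 : ∀ x x' y, π x y → π x' y → x = x' := by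
      intro x x' y p1 p2
      have := (hmc 0).1.one (T 1 y) ((hT 1).1 y) (fun h => by
        obtain ⟨z, _, e⟩ := mem_image.1 h
        exact hne 0 1 l01 z y e) (T 0 x) (mem_image_of_mem _ (mem_univ _)) (T 0 x')
        (mem_image_of_mem _ (mem_univ _)) ((hadj 0 1 l01 x y).2 p1).symm
        ((hadj 0 1 l01 x' y).2 p2).symm
      by_contra hh
      exact ((hT 0).2 x x' hh).ne this
    by_cases hemp : ∃ α β, π α β
    swap
    · exfalso
      push Not at hemp
      have anti : ∀ i j, i < j → ∀ x ∈ univ.image (T i), ∀ y ∈ univ.image (T j), ¬ G.Adj x y := by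
        intro i j h x hx y hy
        obtain ⟨x, _, rfl⟩ := mem_image.1 hx
        obtain ⟨y, _, rfl⟩ := mem_image.1 hy
        exact fun e => hemp x y ((hadj i j h x y).1 e)
      let i0 : Fin (s + 6) := ⟨0, by omega⟩
      let i1 : Fin (s + 6) := ⟨1, by omega⟩
      let i2 : Fin (s + 6) := ⟨2, by omega⟩
      exact three_cliquesR hP (hmc i0).1 (hmc i1).1 (hmc i2).1 (by rw [(hmc i0).2]; omega)
        (by rw [(hmc i1).2]; omega) (by rw [(hmc i2).2]; omega)
        (anti i0 i1 (by simp [i0, i1])) (anti i0 i2 (by simp [i0, i2, Fin.lt_def]))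
        (anti i1 i2 (by simp [i1, i2, Fin.lt_def])) hc
    obtain ⟨α, β, hαβ⟩ := hemp
    have hab : α ≠ β := fun e => nofix β (e ▸ hαβ)
    obtain ⟨γ, g1, g2⟩ : ∃ γ : Fin (s + 3), γ ≠ α ∧ γ ≠ β := by
      have : ({α, β} : Finset (Fin (s + 3))).card < (univ : Finset (Fin (s + 3))).card :=
        lt_of_le_of_lt card_le_two (by simp)
      obtain ⟨γ, _, h⟩ := exists_mem_notMem_of_card_lt_card this
      simp only [mem_insert, mem_singleton, not_or] at h
      exact ⟨γ, h⟩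
    let e : Fin 6 → Fin (s + 6) := Fin.castLE (by omega)
    have he : ∀ i j, i < j → e i < e j := fun i j h => h
    have same : ∀ x i j, ¬ G.Adj (T (e i) x) (T (e j) x) := by
      intro x i j
      rcases lt_trichotomy i j with h | rfl | h
      · exact fun a => nofix x ((hadj _ _ (he i j h) x x).1 a)
      · exact fun a => a.ne rfl
      · exact fun a => nofix x ((hadj _ _ (he j i h) x x).1 a.symm)
    have := exclR hP (fun i => T (e i) α) (fun i => T (e i) β) (fun i => T (e i) γ)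
      (π β α) (π β γ) (π γ α) (fun i => (hT _).2 _ _ hab) (fun i => (hT _).2 _ _ g2.symm)
      (fun i => (hT _).2 _ _ g1) (same α) (same β) (same γ)
      (fun i j h => (hadj _ _ (he i j h) _ _).2 hαβ)
      (fun i j h a => g2 (inj1 _ _ _ ((hadj _ _ (he i j h) _ _).1 a) hαβ))
      (fun i j h a => g1 (inj2 _ _ _ ((hadj _ _ (he i j h) _ _).1 a) hαβ))
      (fun i j h => hadj _ _ (he i j h) _ _) (fun i j h => hadj _ _ (he i j h) _ _)
      (fun i j h => hadj _ _ (he i j h) _ _)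
      (fun p1 p2 => g1 (inj1 _ _ _ p2 p1)) (fun p1 p2 => g2 (inj2 _ _ _ p2 p1))
    rcases this with h | h
    · exact (hk1 V G _ _ _ S hD hP h).mono (by omega)
    · exact (hk2 V G _ _ _ S hD hP h).mono (by omega)

end

end Pool.Agent.MP_41f2d3_co

end

section

/-! Large cliques, for the pair (diamond, P1 + P2 + P3). -/

namespace Pool.Agent.MP_41f2d3_co

open Finset Classical

noncomputable section

variable {V : Type}

/-- P1 + P3 free on `S` -/
def P13 (G : SimpleGraph V) (S : Finset V) : Prop :=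
  ∀ z ∈ S, ∀ c ∈ S, ∀ d ∈ S, ∀ e ∈ S, G.Adj c d → G.Adj d e → ¬ G.Adj c e →
    ¬ G.Adj z c → ¬ G.Adj z d → ¬ G.Adj z e → c ≠ e → False

/-- three independent vertices -/
def I3 (G : SimpleGraph V) (S : Finset V) : Prop :=
  ∃ x ∈ S, ∃ y ∈ S, ∃ z ∈ S, x ≠ y ∧ x ≠ z ∧ y ≠ z ∧ ¬ G.Adj x y ∧ ¬ G.Adj x z ∧ ¬ G.Adj y z

section
set_option linter.unusedVariables false

lemma big_cl {G : SimpleGraph V} {S : Finset V} (h13 : P13 G S)
    {x y z p q r : V} (hx : x ∈ S) (hy : y ∈ S) (hz : z ∈ S) (hp : p ∈ S) (hq : q ∈ S) (hr : r ∈ S)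
    (a0 : G.Adj p q) (a1 : G.Adj p r) (n0 : ¬ G.Adj x y) (n1 : ¬ G.Adj x z)
    (n2 : ¬ G.Adj y z) (n3 : ¬ G.Adj q r) (d0 : x ≠ y) (d1 : x ≠ z)
    (d2 : y ≠ z) (d3 : q ≠ r) (c0 : G.Adj p x → G.Adj p y → G.Adj p z → False) (c1 : G.Adj q x → G.Adj q y → G.Adj q z → False)
    (c2 : G.Adj r x → G.Adj r y → G.Adj r z → False)
    : False := by
  rcases Classical.em (x = p) with t1 | t1
  · have t2 : ¬ G.Adj y p := fun hc => eqa t1.symm hc.symm n0
    have t3 : ¬ G.Adj z p := fun hc => eqa t1.symm hc.symm n1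
    have t4 : G.Adj x q := Classical.byContradiction fun hc => eqa t1.symm a0 hc
    rcases Classical.em (G.Adj z q) with t5 | t5
    · have t6 : ¬ G.Adj y q := fun hc => c1 t4.symm hc.symm t5.symm
      exact h13 y hy x hx q hq z hz t4 t5.symm n1 (ns n0) t6 n2 d1
    · have t7 : ¬ G.Adj y q := fun hc => h13 z hz x hx q hq y hy t4 hc.symm n0 (ns n1) t5 (ns n2) d0
      have t8 : G.Adj z r := Classical.byContradiction fun hc => h13 z hz q hq p hp r hr a0.symm a1 n3 t5 t3 hc d3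
      have t9 : ¬ G.Adj y r := fun hc => h13 q hq y hy r hr z hz hc t8.symm n2 (ns t7) n3 (ns t5) d2
      exact h13 y hy q hq p hp r hr a0.symm a1 n3 t7 t2 t9 d3
  · rcases Classical.em (y = p) with t10 | t10
    · have t11 : ¬ G.Adj x p := fun hc => eqa t10.symm hc.symm (ns n0)
      have t12 : ¬ G.Adj z p := fun hc => eqa t10.symm hc.symm n2
      have t13 : G.Adj y q := Classical.byContradiction fun hc => eqa t10.symm a0 hc
      rcases Classical.em (G.Adj z q) with t14 | t14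
      · have t15 : ¬ G.Adj x q := fun hc => c1 hc.symm t13.symm t14.symm
        exact h13 x hx y hy q hq z hz t13 t14.symm n2 n0 t15 n1 d2
      · have t16 : ¬ G.Adj x q := fun hc => h13 z hz x hx q hq y hy hc t13.symm n0 (ns n1) t14 (ns n2) d0
        have t17 : G.Adj z r := Classical.byContradiction fun hc => h13 z hz q hq p hp r hr a0.symm a1 n3 t14 t12 hc d3
        have t18 : ¬ G.Adj x r := fun hc => h13 q hq x hx r hr z hz hc t17.symm n1 (ns t16) n3 (ns t14) d1
        exact h13 x hx q hq p hp r hr a0.symm a1 n3 t16 t11 t18 d3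
    · rcases Classical.em (z = p) with t19 | t19
      · have t20 : ¬ G.Adj x p := fun hc => eqa t19.symm hc.symm (ns n1)
        have t21 : ¬ G.Adj y p := fun hc => eqa t19.symm hc.symm (ns n2)
        have t22 : G.Adj z r := Classical.byContradiction fun hc => eqa t19.symm a1 hc
        rcases Classical.em (G.Adj x r) with t23 | t23
        · have t24 : ¬ G.Adj y r := fun hc => c2 t23.symm hc.symm t22.symm
          exact h13 y hy x hx r hr z hz t23 t22.symm n1 (ns n0) t24 n2 d1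
        · have t25 : ¬ G.Adj y r := fun hc => h13 x hx y hy r hr z hz hc t22.symm n2 n0 t23 n1 d2
          have t26 : G.Adj x q := Classical.byContradiction fun hc => h13 x hx q hq p hp r hr a0.symm a1 n3 hc t20 t23 d3
          have t27 : ¬ G.Adj y q := fun hc => h13 r hr x hx q hq y hy t26 hc.symm n0 (ns t23) (ns n3) (ns t25) d0
          exact h13 y hy q hq p hp r hr a0.symm a1 n3 t27 t21 t25 d3
      · rcases Classical.em (x = q) with t28 | t28
        · have t29 : ¬ G.Adj y q := fun hc => eqa t28.symm hc.symm n0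
          have t30 : G.Adj x p := Classical.byContradiction fun hc => eqa t28.symm a0.symm hc
          have t31 : ¬ G.Adj x r := fun hc => eqa t28 hc n3
          rcases Classical.em (G.Adj y p) with t32 | t32
          · have t33 : ¬ G.Adj z p := fun hc => c0 t30.symm t32.symm hc.symm
            exact h13 z hz x hx p hp y hy t30 t32.symm n0 (ns n1) t33 (ns n2) d0
          · have t34 : ¬ G.Adj z p := fun hc => h13 y hy x hx p hp z hz t30 hc.symm n1 (ns n0) t32 n2 d1
            have t35 : G.Adj y r := Classical.byContradiction fun hc => h13 y hy q hq p hp r hr a0.symm a1 n3 t29 t32 hc d3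
            have t36 : G.Adj z r := Classical.byContradiction fun hc => h13 z hz y hy r hr p hp t35 a1.symm t32 (ns n2) hc t34 t10
            exact h13 x hx y hy r hr z hz t35 t36.symm n2 n0 t31 n1 d2
        · rcases Classical.em (y = r) with t37 | t37
          · have t38 : ¬ G.Adj z r := fun hc => eqa t37.symm hc.symm n2
            have t39 : G.Adj y p := Classical.byContradiction fun hc => eqa t37.symm a1.symm hc
            have t40 : ¬ G.Adj y q := fun hc => eqa t37 hc (ns n3)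
            rcases Classical.em (G.Adj z p) with t41 | t41
            · have t42 : ¬ G.Adj x p := fun hc => c0 hc.symm t39.symm t41.symm
              exact h13 x hx y hy p hp z hz t39 t41.symm n2 n0 t42 n1 d2
            · have t43 : ¬ G.Adj x p := fun hc => h13 z hz x hx p hp y hy hc t39.symm n0 (ns n1) t41 (ns n2) d0
              have t44 : G.Adj z q := Classical.byContradiction fun hc => h13 z hz q hq p hp r hr a0.symm a1 n3 hc t41 t38 d3
              have t45 : G.Adj x q := Classical.byContradiction fun hc => h13 x hx z hz q hq p hp t44 a0.symm t41 n1 hc t43 t19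
              exact h13 y hy x hx q hq z hz t45 t44.symm n1 (ns n0) t40 n2 d1
          · rcases Classical.em (z = q) with t46 | t46
            · have t47 : ¬ G.Adj x q := fun hc => eqa t46.symm hc.symm (ns n1)
              have t48 : G.Adj z p := Classical.byContradiction fun hc => eqa t46.symm a0.symm hc
              have t49 : ¬ G.Adj z r := fun hc => eqa t46 hc n3
              rcases Classical.em (G.Adj x p) with t50 | t50
              · have t51 : ¬ G.Adj y p := fun hc => c0 t50.symm hc.symm t48.symm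
                exact h13 y hy x hx p hp z hz t50 t48.symm n1 (ns n0) t51 n2 d1
              · have t52 : ¬ G.Adj y p := fun hc => h13 x hx y hy p hp z hz hc t48.symm n2 n0 t50 n1 d2
                have t53 : G.Adj x r := Classical.byContradiction fun hc => h13 x hx q hq p hp r hr a0.symm a1 n3 t47 t50 hc d3
                have t54 : G.Adj y r := Classical.byContradiction fun hc => h13 y hy x hx r hr p hp t53 a1.symm t50 (ns n0) hc t52 t1
                exact h13 z hz x hx r hr y hy t53 t54.symm n0 (ns n1) t49 (ns n2) d0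
            · rcases Classical.em (y = q) with t55 | t55
              · have t56 : ¬ G.Adj z q := fun hc => eqa t55.symm hc.symm n2
                have t57 : G.Adj y p := Classical.byContradiction fun hc => eqa t55.symm a0.symm hc
                have t58 : ¬ G.Adj y r := fun hc => eqa t55 hc n3
                rcases Classical.em (G.Adj z p) with t59 | t59
                · have t60 : ¬ G.Adj x p := fun hc => c0 hc.symm t57.symm t59.symm
                  exact h13 x hx y hy p hp z hz t57 t59.symm n2 n0 t60 n1 d2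
                · have t61 : ¬ G.Adj x p := fun hc => h13 z hz x hx p hp y hy hc t57.symm n0 (ns n1) t59 (ns n2) d0
                  have t62 : G.Adj z r := Classical.byContradiction fun hc => h13 z hz q hq p hp r hr a0.symm a1 n3 t56 t59 hc d3
                  have t63 : G.Adj x r := Classical.byContradiction fun hc => h13 x hx z hz r hr p hp t62 a1.symm t59 n1 hc t61 t19
                  exact h13 y hy x hx r hr z hz t63 t62.symm n1 (ns n0) t58 n2 d1
              · rcases Classical.em (G.Adj x q) with t64 | t64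
                · rcases Classical.em (G.Adj y q) with t65 | t65
                  · have t66 : ¬ G.Adj z q := fun hc => c1 t64.symm t65.symm hc.symm
                    exact h13 z hz x hx q hq y hy t64 t65.symm n0 (ns n1) t66 (ns n2) d0
                  · have t67 : ¬ G.Adj z q := fun hc => h13 y hy x hx q hq z hz t64 hc.symm n1 (ns n0) t65 n2 d1
                    rcases Classical.em (G.Adj y p) with t68 | t68
                    · have t69 : G.Adj z p := Classical.byContradiction fun hc => h13 z hz y hy p hp q hq t68 a0 t65 (ns n2) hc t67 t55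
                      have t70 : ¬ G.Adj x p := fun hc => c0 hc.symm t68.symm t69.symm
                      exact h13 x hx y hy p hp z hz t68 t69.symm n2 n0 t70 n1 d2
                    · have t71 : G.Adj y r := Classical.byContradiction fun hc => h13 y hy q hq p hp r hr a0.symm a1 n3 t65 t68 hc d3
                      have t72 : ¬ G.Adj z p := fun hc => h13 y hy z hz p hp q hq hc a0 t67 n2 t68 t65 t46
                      have t73 : G.Adj z r := Classical.byContradiction fun hc => h13 z hz y hy r hr p hp t71 a1.symm t68 (ns n2) hc t72 t10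
                      have t74 : ¬ G.Adj x r := fun hc => c2 hc.symm t71.symm t73.symm
                      exact h13 x hx y hy r hr z hz t71 t73.symm n2 n0 t74 n1 d2
                · rcases Classical.em (G.Adj x p) with t75 | t75
                  · rcases Classical.em (G.Adj y p) with t76 | t76
                    · have t77 : ¬ G.Adj z p := fun hc => c0 t75.symm t76.symm hc.symm
                      exact h13 z hz x hx p hp y hy t75 t76.symm n0 (ns n1) t77 (ns n2) d0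
                    · have t78 : ¬ G.Adj z p := fun hc => h13 y hy x hx p hp z hz t75 hc.symm n1 (ns n0) t76 n2 d1
                      have t79 : G.Adj y q := Classical.byContradiction fun hc => h13 y hy x hx p hp q hq t75 a0 t64 (ns n0) t76 hc t28
                      have t80 : G.Adj z q := Classical.byContradiction fun hc => h13 z hz y hy q hq p hp t79 a0.symm t76 (ns n2) hc t78 t10
                      exact h13 x hx y hy q hq z hz t79 t80.symm n2 n0 t64 n1 d2
                  · have t81 : G.Adj x r := Classical.byContradiction fun hc => h13 x hx q hq p hp r hr a0.symm a1 n3 t64 t75 hc d3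
                    rcases Classical.em (G.Adj y r) with t82 | t82
                    · have t83 : ¬ G.Adj z r := fun hc => c2 t81.symm t82.symm hc.symm
                      exact h13 z hz x hx r hr y hy t81 t82.symm n0 (ns n1) t83 (ns n2) d0
                    · have t84 : ¬ G.Adj z r := fun hc => h13 y hy x hx r hr z hz t81 hc.symm n1 (ns n0) t82 n2 d1
                      have t85 : G.Adj y p := Classical.byContradiction fun hc => h13 y hy x hx r hr p hp t81 a1.symm t75 (ns n0) t82 hc t1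
                      have t86 : G.Adj z p := Classical.byContradiction fun hc => h13 z hz y hy p hp r hr t85 a1 t82 (ns n2) hc t84 t37
                      exact h13 x hx y hy p hp z hz t85 t86.symm n2 n0 t75 n1 d2

lemma big_jc {G : SimpleGraph V} {S : Finset V} (h13 : P13 G S)
    {x y z j u : V} (hx : x ∈ S) (hy : y ∈ S) (hz : z ∈ S) (hj : j ∈ S) (hu : u ∈ S)
    (a0 : G.Adj j x) (a1 : G.Adj j y) (a2 : G.Adj j z) (n0 : ¬ G.Adj x y)
    (n1 : ¬ G.Adj x z) (n2 : ¬ G.Adj y z) (n3 : ¬ G.Adj j u) (d0 : x ≠ y)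
    (d1 : x ≠ z) (d2 : y ≠ z) (c0 : G.Adj u x → G.Adj u y → G.Adj u z → False)
    : False := by
  rcases Classical.em (G.Adj x u) with t1 | t1
  · rcases Classical.em (G.Adj y u) with t2 | t2
    · have t3 : ¬ G.Adj z u := fun hc => c0 t1.symm t2.symm hc.symm
      exact h13 z hz x hx u hu y hy t1 t2.symm n0 (ns n1) t3 (ns n2) d0
    · have t4 : G.Adj z u := Classical.byContradiction fun hc => h13 u hu y hy j hj z hz a1.symm a2 n2 (ns t2) (ns n3) (ns hc) d2
      exact h13 y hy x hx u hu z hz t1 t4.symm n1 (ns n0) t2 n2 d1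
  · have t5 : G.Adj y u := Classical.byContradiction fun hc => h13 u hu x hx j hj y hy a0.symm a1 n0 (ns t1) (ns n3) (ns hc) d0
    have t6 : G.Adj z u := Classical.byContradiction fun hc => h13 u hu x hx j hj z hz a0.symm a2 n1 (ns t1) (ns n3) (ns hc) d1
    exact h13 x hx y hy u hu z hz t5 t6.symm n2 n0 t1 n1 d2


end

lemma W_no3 {G : SimpleGraph V} (hD : DF G) {S K : Finset V}
    (hK : ∀ x ∈ K, ∀ y ∈ K, x ≠ y → G.Adj x y) (h3 : ¬ I3 G (S \ K)) :
    W G (J 3 (c3Cl + 3)) S := by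
  have h3' : ∀ x ∈ S \ K, ∀ y ∈ S \ K, ∀ z ∈ S \ K, x ≠ y → x ≠ z → y ≠ z → ¬ G.Adj x y →
      ¬ G.Adj x z → G.Adj y z := by
    intro x hx y hy z hz n1 n2 n3 e1 e2
    by_contra e3
    exact h3 ⟨x, hx, y, hy, z, hz, n1, n2, n3, e1, e2, e3⟩
  by_cases hT : TF G (S \ K)
  · rcases (S \ K).eq_empty_or_nonempty with he | ⟨v, hv⟩
    · refine (W_three_cl hD (fun _ => 0) (fun x hx y hy _ n => ?_)).mono (le_J _ _ _)
      have hs := sdiff_eq_empty_iff_subset.1 he
      exact hK x (hs hx) y (hs hy) n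
    refine W_del (F := insert v ((S \ K).filter (G.Adj v))) ?_
      (W_three_cl hD (fun x => if x ∈ K then 0 else 1) ?_)
    · refine (card_insert_le _ _).trans ?_
      rcases three_or_le ((S \ K).filter (G.Adj v)) with k | ⟨x, hx, y, hy, z, hz, n1, n2, n3⟩
      · omega
      rw [mem_filter] at hx hy hz
      exact (hT v hv y hy.1 z hz.1 hy.2 hz.2 (h3' x hx.1 y hy.1 z hz.1 n1 n2 n3
        (hT v hv x hx.1 y hy.1 hx.2 hy.2) (hT v hv x hx.1 z hz.1 hx.2 hz.2))).elim
    · intro x hx y hy e n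
      simp only [mem_sdiff, mem_insert, mem_filter, not_or, not_and] at hx hy
      by_cases xK : x ∈ K <;> by_cases yK : y ∈ K
      · exact hK x xK y yK n
      · simp [xK, yK] at e
      · simp [xK, yK] at e
      · exact h3' v hv x (mem_sdiff.2 ⟨hx.1, xK⟩) y (mem_sdiff.2 ⟨hy.1, yK⟩) (Ne.symm hx.2.1)
          (Ne.symm hy.2.1) n (hx.2.2 ⟨hx.1, xK⟩) (hy.2.2 ⟨hy.1, yK⟩)
  unfold TF at hT
  push Not at hT
  obtain ⟨p, hp, q, hq, r, hr, pq, pr, qr, _⟩ := hT
  obtain ⟨Q, hQ1, hQ⟩ := exists_MC hD (S := S \ K) (Q := {p, q, r}) (by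
    intro x hx
    simp only [mem_insert, mem_singleton] at hx
    rcases hx with rfl | rfl | rfl <;> assumption) (by
    intro x hx y hy n
    simp only [mem_insert, mem_singleton] at hx hy
    rcases hx with rfl | rfl | rfl <;> rcases hy with rfl | rfl | rfl <;>
      first | exact absurd rfl n | assumption | (symm; assumption))
  have hc : 3 ≤ Q.card := by
    have := card_le_card hQ1
    rwa [card_eq_three.2 ⟨p, q, r, pq.ne, pr.ne, qr.ne, rfl⟩] at this
  refine (W_three_cl hD (fun x => if x ∈ K then 0 else if x ∈ Q then 1 else 2) ?_).mono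
    (le_J _ _ _)
  intro x hx y hy e n
  by_cases xK : x ∈ K <;> by_cases yK : y ∈ K <;> by_cases xQ : x ∈ Q <;> by_cases yQ : y ∈ Q <;>
    simp only [xK, yK, xQ, yQ, if_true, if_false] at e <;>
    first
    | exact hK x xK y yK n
    | exact hQ.cl x xQ y yQ n
    | exact absurd e (by decide)
    | skip
  have hx' := mem_sdiff.2 ⟨hx, xK⟩
  have hy' := mem_sdiff.2 ⟨hy, yK⟩
  obtain ⟨w, hw, k⟩ := hQ.avoid {x, y} (by
    intro z hz; simp only [mem_insert, mem_singleton] at hz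
    rcases hz with rfl | rfl; exacts [hx', hy']) (lt_of_le_of_lt card_le_two hc)
  exact h3' w (hQ.sub hw) x hx' y hy' (fun e => xQ (e ▸ hw)) (fun e => yQ (e ▸ hw)) n
    (ns ((k x (by simp)).2 xQ)) (ns ((k y (by simp)).2 yQ))

lemma clus_no3 {G : SimpleGraph V} (hR : RF G) {S K : Finset V} (hK : MC G S K)
    (hc : 5 ≤ K.card) (ht : TwinFree G S) (hp : NoPend G S)
    (hcl : ∀ x ∈ S \ K, ∀ y ∈ S \ K, ∀ z ∈ S \ K, G.Adj x y → G.Adj x z → y ≠ z → G.Adj y z) :
    ¬ I3 G (S \ K) := by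
  rintro ⟨v1, h1, v2, h2, v3, h3, n12, n13, n23, a12, a13, a23⟩
  let sm : V → V → Prop := fun u v => u = v ∨ G.Adj u v
  have sy : ∀ {u v}, sm u v → sm v u := fun h => h.elim (fun e => Or.inl e.symm)
    (fun e => Or.inr e.symm)
  have tr : ∀ {u v w}, u ∈ S \ K → v ∈ S \ K → w ∈ S \ K → sm u v → sm v w → sm u w := by
    rintro u v w hu hv hw (rfl | e1) e2
    · exact e2
    rcases e2 with rfl | e2
    · exact Or.inr e1
    by_cases e : u = w
    · exact Or.inl e
    · exact Or.inr (hcl v hv u hu w hw e1.symm e2 e)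
  have nb : ∀ v ∈ S \ K, ∃ v' ∈ S \ K, G.Adj v v' := by
    intro v hv
    obtain ⟨y, hy, z, hz, yz, vy, vz⟩ := hp v (mem_sdiff.1 hv).1
    by_cases yK : y ∈ K
    · exact ⟨z, mem_sdiff.2 ⟨hz, fun zK => yz (hK.one' hv yK zK vy vz)⟩, vz⟩
    · exact ⟨y, mem_sdiff.2 ⟨hy, yK⟩, vy⟩
  have tw : ∀ x ∈ K, ∀ v ∈ S \ K, ∀ v' ∈ S \ K, G.Adj v v' → G.Adj v x → ¬ G.Adj v' x := by
    intro x hx v hv v' hv' e e1 e2
    refine e.ne (ht v (mem_sdiff.1 hv).1 v' (mem_sdiff.1 hv').1 (fun z hz zv zv' => ?_))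
    by_cases zK : z ∈ K
    · exact ⟨fun k => hK.one' hv zK hx k e1 ▸ e2, fun k => hK.one' hv' zK hx k e2 ▸ e1⟩
    · have hz' := mem_sdiff.2 ⟨hz, zK⟩
      exact ⟨fun k => hcl v hv v' hv' z hz' e k zv'.symm,
        fun k => hcl v' hv' v hv z hz' e.symm k zv.symm⟩
  have key : ∀ x ∈ K, ∀ u ∈ S \ K, G.Adj u x → ∀ p ∈ S \ K, ∀ q ∈ S \ K, G.Adj p q →
      ¬ sm u p → ∀ w ∈ S \ K, ¬ sm u w → ¬ sm p w → G.Adj p x ∨ G.Adj q x := by
    intro x hx u hu ux p hp q hq pq up w hw uw pw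
    by_contra hh
    rw [not_or] at hh
    obtain ⟨r, hr, wr, rx⟩ : ∃ r ∈ S \ K, sm w r ∧ ¬ G.Adj r x := by
      by_cases e : G.Adj w x
      · obtain ⟨w', hw', k⟩ := nb w hw
        exact ⟨w', hw', Or.inr k, tw x hx w hw w' hw' k e⟩
      · exact ⟨w, hw, Or.inl rfl, e⟩
    obtain ⟨x', hx', k⟩ := hK.avoid {x, p, q, r} (by
      intro z hz; simp only [mem_insert, mem_singleton] at hz
      rcases hz with rfl | rfl | rfl | rfl
      exacts [hK.sub hx, (mem_sdiff.1 hp).1, (mem_sdiff.1 hq).1, (mem_sdiff.1 hr).1])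
      (lt_of_le_of_lt card_le_four hc)
    have xx' : x' ≠ x := (k x (by simp)).1 hx
    exact hR r p q u x x' pq ux (hK.cl _ hx _ hx' xx'.symm)
      (fun e => xx' (hK.one' hu hx' hx e ux))
      (fun e => pw (tr hp hr hw (Or.inr e.symm) (sy wr)))
      (fun e => pw (tr hp hq hw (Or.inr pq) (tr hq hr hw (Or.inr e.symm) (sy wr))))
      (fun e => uw (tr hu hr hw (Or.inr e.symm) (sy wr))) rx
      ((k r (by simp)).2 (mem_sdiff.1 hr).2) (fun e => up (Or.inr e.symm)) hh.1
      ((k p (by simp)).2 (mem_sdiff.1 hp).2)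
      (fun e => up (tr hu hq hp (Or.inr e.symm) (Or.inr pq.symm))) hh.2
      ((k q (by simp)).2 (mem_sdiff.1 hq).2) (fun e => (mem_sdiff.1 hu).2 (e ▸ hx'))
  have s12 : ¬ sm v1 v2 := fun h => h.elim n12 a12
  have s13 : ¬ sm v1 v3 := fun h => h.elim n13 a13
  have s23 : ¬ sm v2 v3 := fun h => h.elim n23 a23
  have two : ∀ u ∈ S \ K, ∃ w1 ∈ S \ K, ∃ w2 ∈ S \ K, ¬ sm u w1 ∧ ¬ sm u w2 ∧ ¬ sm w1 w2 := by
    intro u hu
    by_cases e1 : sm u v1
    · exact ⟨v2, h2, v3, h3, fun e => s12 (tr h1 hu h2 (sy e1) e),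
        fun e => s13 (tr h1 hu h3 (sy e1) e), s23⟩
    by_cases e2 : sm u v2
    · exact ⟨v1, h1, v3, h3, e1, fun e => s23 (tr h2 hu h3 (sy e2) e), s13⟩
    · exact ⟨v1, h1, v2, h2, e1, e2, s12⟩
  have key2 : ∀ x ∈ K, ∀ u ∈ S \ K, G.Adj u x → ∀ p ∈ S \ K, ∀ q ∈ S \ K, G.Adj p q →
      ¬ sm u p → G.Adj p x ∨ G.Adj q x := by
    intro x hx u hu ux p hp q hq pq up
    obtain ⟨w1, k1, w2, k2, m1, m2, m3⟩ := two u hu
    by_cases e : sm p w1
    · exact key x hx u hu ux p hp q hq pq up w2 k2 m2 (fun e' => m3 (tr k1 hp k2 (sy e) e'))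
    · exact key x hx u hu ux p hp q hq pq up w1 k1 m1 e
  obtain ⟨q, hq, pq⟩ := nb v1 h1
  have key3 : ∀ x ∈ K, ∀ u ∈ S \ K, G.Adj u x → G.Adj v1 x ∨ G.Adj q x := by
    intro x hx u hu ux
    by_cases e : sm u v1
    swap
    · exact key2 x hx u hu ux v1 h1 q hq pq e
    obtain ⟨w, hw, k⟩ := nb v2 h2
    rcases key2 x hx u hu ux v2 h2 w hw k (fun e' => s12 (tr h1 hu h2 (sy e) e')) with e' | e'
    · exact key2 x hx v2 h2 e' v1 h1 q hq pq (fun e'' => s12 (sy e''))
    · exact key2 x hx w hw e' v1 h1 q hq pq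
        (fun e'' => s12 (sy (tr h2 hw h1 (Or.inr k) e'')))
  obtain ⟨x, hx, k1⟩ := hK.avoid {v1, q} (by
    intro z hz; simp only [mem_insert, mem_singleton] at hz
    rcases hz with rfl | rfl
    exacts [(mem_sdiff.1 h1).1, (mem_sdiff.1 hq).1]) (lt_of_le_of_lt card_le_two (by omega))
  obtain ⟨y, hy, k2⟩ := hK.avoid {x, v1, q} (by
    intro z hz; simp only [mem_insert, mem_singleton] at hz
    rcases hz with rfl | rfl | rfl
    exacts [hK.sub hx, (mem_sdiff.1 h1).1, (mem_sdiff.1 hq).1])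
    (lt_of_le_of_lt card_le_three (by omega))
  have nx : ∀ u ∈ S \ K, ¬ G.Adj u x := fun u hu e => (key3 x hx u hu e).elim
    ((k1 v1 (by simp)).2 (mem_sdiff.1 h1).2) ((k1 q (by simp)).2 (mem_sdiff.1 hq).2)
  have ny : ∀ u ∈ S \ K, ¬ G.Adj u y := fun u hu e => (key3 y hy u hu e).elim
    ((k2 v1 (by simp)).2 (mem_sdiff.1 h1).2) ((k2 q (by simp)).2 (mem_sdiff.1 hq).2)
  refine (k2 x (by simp)).1 hx (ht y (hK.sub hy) x (hK.sub hx) (fun z hz zy zx => ?_))
  by_cases zK : z ∈ K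
  · exact iff_of_true (hK.cl y hy z zK zy.symm) (hK.cl x hx z zK zx.symm)
  · exact iff_of_false (ns (ny z (mem_sdiff.2 ⟨hz, zK⟩))) (ns (nx z (mem_sdiff.2 ⟨hz, zK⟩)))

/-- bound -/
def cCl : ℕ := J 4 (2 + 4) + J 3 (c3Cl + 3) + 2

lemma W_clus {G : SimpleGraph V} (hD : DF G) (hR : RF G) {S S' K : Finset V} (hK : MC G S K)
    (hS : S' ⊆ S)
    (hcl : ∀ x ∈ S' \ K, ∀ y ∈ S' \ K, ∀ z ∈ S' \ K, G.Adj x y → G.Adj x z → y ≠ z → G.Adj y z) :
    W G cCl S' := by
  unfold cCl
  refine W_of_prime (Nat.le_add_left _ _) S' (fun P hP _ _ ht hp => ?_)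
  have sub : P \ (K ∩ P) ⊆ S' \ K := by
    intro x hx
    rw [mem_sdiff, mem_inter] at hx
    exact mem_sdiff.2 ⟨hP hx.1, fun k => hx.2 ⟨k, hx.1⟩⟩
  have hcl' : ∀ x ∈ P \ (K ∩ P), ∀ y ∈ P \ (K ∩ P), ∀ z ∈ P \ (K ∩ P), G.Adj x y → G.Adj x z →
      y ≠ z → G.Adj y z := fun x hx y hy z hz => hcl x (sub hx) y (sub hy) z (sub hz)
  by_cases hc : (K ∩ P).card ≤ 4
  · exact (W_del hc (W_cluster hcl')).mono (by omega)
  have hK' : MC G P (K ∩ P) := ⟨inter_subset_right,
    fun x hx y hy => hK.cl x (mem_inter.1 hx).1 y (mem_inter.1 hy).1,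
    fun v hv n x hx y hy => hK.one v (hS (hP hv)) (fun k => n (mem_inter.2 ⟨k, hv⟩)) x
      (mem_inter.1 hx).1 y (mem_inter.1 hy).1⟩
  exact (W_no3 hD hK'.cl (clus_no3 hR hK' (by omega) ht hp hcl')).mono (by omega)

theorem W_mainR : ∃ k, ∀ (V : Type) (G : SimpleGraph V) (S : Finset V), DF G → RF G →
    W G k S := by
  obtain ⟨k1, hk1⟩ := W_omegaR 3
  refine ⟨k1 + J 3 (c3Cl + 3) + J 1 (cCl + 1) + 4 * (2 + 1), fun V G S hD hR => ?_⟩
  by_cases hn : NoCl G S (3 + 3)
  · exact (hk1 V G S hD hR hn).mono (by omega)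
  obtain ⟨K, hK, hKc⟩ := exists_big hD hn
  have h13 : P13 G (S \ K) := by
    intro z hz c hc d hd e he cd de ce zc zd ze ne
    rw [mem_sdiff] at hz hc hd he
    obtain ⟨a, ha, k1⟩ := hK.avoid {z, c, d, e} (by
      intro w hw; simp only [mem_insert, mem_singleton] at hw
      rcases hw with rfl | rfl | rfl | rfl
      exacts [hz.1, hc.1, hd.1, he.1]) (lt_of_le_of_lt card_le_four (by omega))
    obtain ⟨b, hb, k2⟩ := hK.avoid {a, z, c, d, e} (by
      intro w hw; simp only [mem_insert, mem_singleton] at hw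
      rcases hw with rfl | rfl | rfl | rfl | rfl
      exacts [hK.sub ha, hz.1, hc.1, hd.1, he.1]) (lt_of_le_of_lt card_le_five (by omega))
    exact hR z a b c d e (hK.cl a ha b hb ((k2 a (by simp)).1 ha).symm) cd de ce
      ((k1 z (by simp)).2 hz.2) ((k2 z (by simp)).2 hz.2) zc zd ze
      (ns ((k1 c (by simp)).2 hc.2)) (ns ((k1 d (by simp)).2 hd.2)) (ns ((k1 e (by simp)).2 he.2))
      (ns ((k2 c (by simp)).2 hc.2)) (ns ((k2 d (by simp)).2 hd.2)) (ns ((k2 e (by simp)).2 he.2))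
      ne
  by_cases h3 : I3 G (S \ K)
  swap
  · exact (W_no3 hD hK.cl h3).mono (by omega)
  obtain ⟨x, hx, y, hy, z, hz, n1, n2, n3, e1, e2, e3⟩ := h3
  obtain ⟨Jn, hJ⟩ : ∃ Jn : Finset V, ∀ v, v ∈ Jn ↔
      v ∈ S \ K ∧ G.Adj v x ∧ G.Adj v y ∧ G.Adj v z := ⟨(S \ K).filter _, fun v => mem_filter⟩
  by_cases hc : Jn.card ≤ 1
  · refine (W_del hc (W_clus hD hR hK sdiff_subset ?_)).mono (by omega)
    have f : ∀ v ∈ (S \ Jn) \ K, v ∈ S \ K ∧ (G.Adj v x → G.Adj v y → G.Adj v z → False) := by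
      intro v hv
      simp only [mem_sdiff] at hv
      have hv' := mem_sdiff.2 ⟨hv.1.1, hv.2⟩
      exact ⟨hv', fun a b c => hv.1.2 ((hJ v).2 ⟨hv', a, b, c⟩)⟩
    intro p hp q hq r hr pq pr qr
    by_contra n
    exact big_cl h13 hx hy hz (f p hp).1 (f q hq).1 (f r hr).1 pq pr e1 e2 e3 n n1 n2 n3 qr
      (f p hp).2 (f q hq).2 (f r hr).2
  obtain ⟨j, hj, j', hj', jj⟩ := one_lt_card.1 (by omega : 1 < Jn.card)
  have iJ : ∀ u ∈ Jn, ∀ v ∈ Jn, ¬ G.Adj u v := by
    intro u hu v hv e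
    have a := (hJ u).1 hu
    have b := (hJ v).1 hv
    exact e1 (hD u v x y e a.2.1 a.2.2.1 b.2.1 b.2.2.1 n1)
  have cJ : ∀ u ∈ Jn, ∀ v ∈ S \ K, v ∉ Jn → G.Adj u v := by
    intro u hu v hv n
    have a := (hJ u).1 hu
    by_contra e
    exact big_jc h13 hx hy hz a.1 hv a.2.1 a.2.2.1 a.2.2.2 e1 e2 e3 e n1 n2 n3
      (fun p q r => n ((hJ v).2 ⟨hv, p, q, r⟩))
  have iH : ∀ u ∈ S \ K, ∀ v ∈ S \ K, u ∉ Jn → v ∉ Jn → ¬ G.Adj u v := by
    intro u hu v hv nu nv e
    exact iJ j hj j' hj' (hD u v j j' e (cJ j hj u hu nu).symm (cJ j' hj' u hu nu).symm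
      (cJ j hj v hv nv).symm (cJ j' hj' v hv nv).symm jj)
  have JK : ∀ u ∈ Jn, u ∉ K := fun u hu => (mem_sdiff.1 ((hJ u).1 hu).1).2
  let lab : V → Prop × Prop := fun v => (v ∈ K, v ∈ Jn)
  let φ : Prop × Prop → Prop × Prop → Prop :=
    fun p q => (p.1 ∧ q.1) ∨ (p.2 ∧ ¬ q.1 ∧ ¬ q.2)
  have mid : ∀ u ∈ S, ∀ v ∈ S, (flip G lab φ).Adj u v → (u ∈ K ↔ v ∉ K) ∧ G.Adj u v := by
    intro u hu v hv e
    have e2 := e.2
    by_cases uK : u ∈ K <;> by_cases vK : v ∈ K
    · simp only [lab, φ, uK, vK, true_and, true_or, not_true_eq_false, iff_false] at e2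
      exact absurd (hK.cl u uK v vK e.1) e2
    · have uJ : u ∉ Jn := fun k => JK u k uK
      simp only [lab, φ, uK, vK, uJ, true_and, false_and, and_false, not_true_eq_false,
        or_false, not_false_eq_true, iff_true] at e2
      exact ⟨iff_of_true uK vK, e2⟩
    · have vJ : v ∉ Jn := fun k => JK v k vK
      simp only [lab, φ, uK, vK, vJ, true_and, false_and, and_false, not_true_eq_false,
        or_false, not_false_eq_true, iff_true] at e2
      exact ⟨iff_of_false uK (not_not.2 vK), e2⟩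
    · exfalso
      have hu' := mem_sdiff.2 ⟨hu, uK⟩
      have hv' := mem_sdiff.2 ⟨hv, vK⟩
      by_cases uJ : u ∈ Jn <;> by_cases vJ : v ∈ Jn <;>
        simp only [lab, φ, uK, vK, uJ, vJ, and_false, not_true_eq_false,
          or_false, not_false_eq_true, iff_true, iff_false, and_true, or_true] at e2
      · exact iJ u uJ v vJ e2
      · exact e2 (cJ u uJ v hv' vJ)
      · exact e2 (cJ v vJ u hu' uJ).symm
      · exact iH u hu' v hv' uJ vJ e2
  have := W_flip (G := G) lab φ (k := 2) (S := S) (W_star (fun v => v ∉ K) ?_ ?_)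
  · refine this.mono ?_
    have : Fintype.card (Prop × Prop) = 4 := by simp
    rw [this]
    omega
  · intro u hu v hv e
    have := (mid u hu v hv e).1
    by_cases uK : u ∈ K
    · exact Or.inr (this.1 uK)
    · exact Or.inl uK
  · intro u hu v hv w hw uK a b
    have p := mid u hu v hv a
    have q := mid u hu w hw b
    exact hK.one u hu uK v (not_not.1 (mt p.1.2 uK)) w (not_not.1 (mt q.1.2 uK)) p.2 q.2

end

end Pool.Agent.MP_41f2d3_co

end

section

/-! Assembly for the pair (diamond, P1 + P2 + P3). -/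

namespace Pool.Agent.MP_41f2d3_co

open SimpleGraph

variable {V : Type}

lemma RF_of_isEmpty {G : SimpleGraph V}
    (h : IsEmpty ((pathGraph 1 ⊕g pathGraph 2 ⊕g pathGraph 3) ↪g G)) : RF G := by
  intro z a b c d e ab cd de ce za zb zc zd ze ac ad ae bc bd be ne
  let f : (Fin 1 ⊕ Fin 2) ⊕ Fin 3 → V := Sum.elim (Sum.elim (fun _ => z) ![a, b]) ![c, d, e]
  have hadj : ∀ i j, G.Adj (f i) (f j) ↔ (pathGraph 1 ⊕g pathGraph 2 ⊕g pathGraph 3).Adj i j := by
    rintro ((i | i) | i) ((j | j) | j) <;> fin_cases i <;> fin_cases j <;>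
      simp [f, pathGraph_adj, ab, cd, de, ab.symm, cd.symm, de.symm, ce, za, zb, zc, zd, ze, ac,
        ad, ae, bc, bd, be, ns ce, ns za, ns zb, ns zc, ns zd, ns ze, ns ac, ns ad, ns ae, ns bc,
        ns bd, ns be]
  have h1 : z ≠ a := fun e => zb (e ▸ ab)
  have h2 : z ≠ b := fun e => za (e ▸ ab.symm)
  have h3 : z ≠ c := fun e => zd (e ▸ cd)
  have h4 : z ≠ d := fun e' => ze (e' ▸ de)
  have h5 : z ≠ e := fun e' => zd (e' ▸ de.symm)
  have h6 : a ≠ c := fun e => ad (e ▸ cd)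
  have h7 : a ≠ d := fun e' => ae (e' ▸ de)
  have h8 : a ≠ e := fun e' => ad (e' ▸ de.symm)
  have h9 : b ≠ c := fun e => bd (e ▸ cd)
  have h10 : b ≠ d := fun e' => be (e' ▸ de)
  have h11 : b ≠ e := fun e' => bd (e' ▸ de.symm)
  refine h.false ⟨⟨f, ?_⟩, fun {i j} => hadj i j⟩
  rintro ((i | i) | i) ((j | j) | j) <;> fin_cases i <;> fin_cases j <;>
    simp [f, ab.ne, cd.ne, de.ne, ab.ne', cd.ne', de.ne', ne, ne.symm, h1, h2, h3, h4, h5, h6,
      h7, h8, h9, h10, h11, h1.symm, h2.symm, h3.symm, h4.symm, h5.symm, h6.symm, h7.symm,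
      h8.symm, h9.symm, h10.symm, h11.symm]

theorem bounded_diamond_P1P2P3 :
    ∃ c : ℕ, ∀ (V : Type) [Finite V] [Nonempty V] (G : SimpleGraph V),
      IsEmpty (diamond ↪g G) → IsEmpty ((pathGraph 1 ⊕g pathGraph 2 ⊕g pathGraph 3) ↪g G) →
      CliqueWidthLE G c := by
  obtain ⟨k, hk⟩ := W_mainR
  refine ⟨3 * (k + 1), fun V _ _ G h1 h2 => ?_⟩
  have := Fintype.ofFinite V
  exact cw_of_W (hk V G _ (DF_of_isEmpty h1) (RF_of_isEmpty h2))

end Pool.Agent.MP_41f2d3_co

end
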